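import Pool.Agent.KT.Br1
import Pool.Agent.Helper8.SubspaceThm

/-!
KT, bridge 6: the case of algebraic ratios, from the subspace theorem (helper8).
-/

set_option autoImplicit false

open scoped ComplexConjugate BigOperators Topology
open Pool.Agent.GPC Pool.Agent.Helper7

namespace Pool.Agent.KT

variable {A : AbVar}

/-- a period vector is not proportional to an algebraic vector -/
theorem not_alg (hA : HodgeScalar A) (hg : 2 ≤ A.g) {lam : Fin A.g → ℂ} (hl : lam ∈ A.Λ)
    (hl0 : lam ≠ 0) (c : ℂ) (r : Fin A.g ⊕ Fin A.g → ℂ) (hr : ∀ s, IsAlgebraic ℚ (r s))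
    (hper : ∀ s, A.period lam s = c * r s) : False := by
  let B : Unit → AbVar := fun _ => A
  let gen : HP B := fun _ => A.period lam
  let gr : HP B := fun _ => r
  have hgg : gen = c • gr := by
    funext _ s
    exact hper s
  have hc : c ≠ 0 := by
    rintro rfl
    apply hl0
    funext a
    have h1 := hper (.inl a)
    rw [zero_mul] at h1
    exact h1
  let P : Submodule ℂ (HP B) := Submodule.span ℂ {gen}
  have hgenP : gen ∈ P := Submodule.mem_span_singleton_self gen
  have hgrP : gr ∈ P := by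
    have h1 : gr = c⁻¹ • gen := by rw [hgg, smul_smul, inv_mul_cancel₀ hc, one_smul]
    rw [h1]
    exact Submodule.smul_mem _ _ hgenP
  have hb : ∀ v ∈ P, v ∈ Submodule.span ℂ {u | u ∈ P ∧ ∀ j, (B j).IsBetti (u j)} := by
    intro v hv
    obtain ⟨t, rfl⟩ := Submodule.mem_span_singleton.1 hv
    refine Submodule.smul_mem _ _ (Submodule.subset_span ⟨hgenP, fun _ => ?_⟩)
    refine ⟨1, one_ne_zero, lam, hl, ?_⟩
    rw [Nat.cast_one, one_smul]
  have hd : ∀ v ∈ P, v ∈ Submodule.span ℂ {u | u ∈ P ∧ ∀ j, (B j).IsDeRham (u j)} := by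
    intro v hv
    obtain ⟨t, rfl⟩ := Submodule.mem_span_singleton.1 hv
    rw [hgg]
    exact Submodule.smul_mem _ _ (Submodule.smul_mem _ _
      (Submodule.subset_span ⟨hgrP, fun _ => hr⟩))
  obtain ⟨_, h2⟩ := subspace_theorem B P hb hd
  have h3 := h2 (Complex.I • gen) (Submodule.smul_mem _ _ hgenP)
  let gl : LieP B := fun _ => lam
  have hpr : ∀ t : ℂ, prP B (t • gen) = t • gl := by
    intro t
    rw [map_smul]
    rfl
  rw [hpr] at h3
  by_cases hcase : ∀ l ∈ {l | l ∈ LatP B ∧ ∃ p' ∈ P, prP B p' = l}, ∃ s : ℝ, l = s • gl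
  · have h4 : Submodule.span ℝ {l | l ∈ LatP B ∧ ∃ p' ∈ P, prP B p' = l} ≤
        Submodule.span ℝ {gl} := by
      rw [Submodule.span_le]
      intro l hl'
      obtain ⟨s, rfl⟩ := hcase l hl'
      exact Submodule.smul_mem _ _ (Submodule.mem_span_singleton_self _)
    obtain ⟨s, hs⟩ := Submodule.mem_span_singleton.1 (h4 h3)
    apply hl0
    funext a
    have h5 := congrFun (congrFun hs ()) a
    have h6 : (s : ℂ) * lam a = Complex.I * lam a := by
      have h7 : (s • gl) () a = (s : ℂ) * lam a := by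
        show (s • lam a : ℂ) = _
        exact Complex.real_smul
      rw [← h7]
      exact h5
    by_contra h7
    have h8 := mul_right_cancel₀ h7 h6
    have h9 := congrArg Complex.im h8
    rw [Complex.ofReal_im, Complex.I_im] at h9
    exact zero_ne_one h9
  · push Not at hcase
    obtain ⟨l, ⟨hl1, p', hp', hp'l⟩, hls⟩ := hcase
    obtain ⟨t, rfl⟩ := Submodule.mem_span_singleton.1 hp'
    rw [hpr] at hp'l
    have htl : t • lam ∈ A.Λ := by
      have h5 := (mem_LatP B).1 hl1 ()
      rw [← hp'l] at h5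
      exact h5
    refine no_line hA hg hl hl0 (t := t) ?_ htl
    intro him
    apply hls t.re
    rw [← hp'l]
    funext _ a
    show t * lam a = ((t.re : ℝ) • lam a : ℂ)
    rw [Complex.real_smul]
    congr 1
    exact Complex.ext rfl (by rw [him, Complex.ofReal_im])

end Pool.Agent.KT
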