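import Pool.Agent.KT.Br5
import Pool.Agent.KT.Br6

/-!
KT, bridge: the theorem on period vectors from the non-existence of the data (helper8).
-/

set_option autoImplicit false

open scoped BigOperators
open Pool.Agent.GPC

namespace Pool.Agent.KT

/-- **Theorem KT**: a period vector of an abelian surface whose Hodge endomorphisms are scalars is
not a multiple of a point of a rational curve over the algebraic numbers. -/
def St_KTA : Prop :=
  ∀ A : AbVar, A.g = 2 → HodgeScalar A → ∀ lam ∈ A.Λ, lam ≠ 0 → ∀ (x c : ℂ)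
    (p : Fin A.g ⊕ Fin A.g → Polynomial ℂ), (∀ s n, IsAlgebraic ℚ ((p s).coeff n)) →
    ¬ ∀ s, A.period lam s = c * (p s).eval x

/-- the statement that there are no data -/
def St_NODAT : Prop := ∀ τ : Tor, Dat τ → False

theorem eval_alg {p : Polynomial ℂ} (hp : ∀ n, IsAlgebraic ℚ (p.coeff n)) {x : ℂ}
    (hx : IsAlgebraic ℚ x) : IsAlgebraic ℚ (p.eval x) := by
  rw [Polynomial.eval_eq_sum_range]
  have h : ∀ n ∈ Finset.range (p.natDegree + 1), p.coeff n * x ^ n ∈ algebraicClosure ℚ ℂ :=
    fun n _ => mem_algebraicClosure_iff.2 ((hp n).mul (hx.pow n))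
  exact mem_algebraicClosure_iff.1 (sum_mem h)

theorem kt_of_nodat (h : St_NODAT) : St_KTA := by
  intro A hg hA lam hl hl0 x c p hp hper
  by_cases hx : IsAlgebraic ℚ x
  · exact not_alg hA (by rw [hg]) hl hl0 c (fun s => (p s).eval x)
      (fun s => eval_alg (hp s) hx) hper
  · obtain ⟨τ, ⟨D⟩⟩ := exists_dat hA hg hl hl0 x c hx p hp hper
    exact h τ D

end Pool.Agent.KT
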