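import Pool.Agent.KT.StB
import Pool.Agent.GAM.Hol
import Pool.Agent.Helper8.SLAnalytic

/-!
# KT: vanishing of order `T` in the sense of the derivatives
-/

set_option autoImplicit false

open scoped BigOperators
open Pool.Agent.Helper8 (dd dds Van)

namespace Pool.Agent.KT

/-- entire functions on `ℂ²` are analytic -/
theorem VO_an {F : ℂ × ℂ → ℂ} (hF : Differentiable ℂ F) (z : ℂ × ℂ) : AnalyticAt ℂ F z :=
  GAM.analyticOnNhd_of_differentiableOn isOpen_univ hF.differentiableOn z (Set.mem_univ z)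

theorem VO_norm_sq (z : ℂ × ℂ) : ‖z‖ ^ 2 ≤ nsq z := by
  unfold nsq
  rcases le_total ‖z.1‖ ‖z.2‖ with h | h
  · rw [Prod.norm_def, max_eq_right h]
    nlinarith [sq_nonneg ‖z.1‖]
  · rw [Prod.norm_def, max_eq_left h]
    nlinarith [sq_nonneg ‖z.2‖]

/-- the lemma of Schwarz for a function of one variable -/
theorem VO_schwarz {g : ℂ → ℂ} (hg : Differentiable ℂ g) {T : ℕ}
    (h : (T : ℕ∞) ≤ analyticOrderAt g 0) {B : ℝ} (hB : ∀ s, ‖s‖ = 1 → ‖g s‖ ≤ B) {s : ℂ}
    (hs : ‖s‖ ≤ 1) : ‖g s‖ ≤ B * ‖s‖ ^ T := by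
  obtain ⟨f, hf, hfg⟩ := Pool.Agent.Helper8.factor_one hg 0 T h
  have h1 : ‖f s‖ ≤ B := by
    refine Complex.norm_le_of_forall_mem_frontier_norm_le (U := Metric.ball (0 : ℂ) 1)
      Metric.isBounded_ball hf.diffContOnCl ?_ ?_
    · intro w hw
      rw [frontier_ball (0 : ℂ) one_ne_zero, mem_sphere_zero_iff_norm] at hw
      have h2 := hB w hw
      rw [hfg w, sub_zero, norm_mul, norm_pow, hw, one_pow, one_mul] at h2
      exact h2
    · rw [closure_ball (0 : ℂ) one_ne_zero, mem_closedBall_zero_iff]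
      exact hs
  rw [hfg s, sub_zero, norm_mul, norm_pow, mul_comm]
  exact mul_le_mul_of_nonneg_right h1 (by positivity)

theorem thm_VO : St_VO := by
  intro F T hF hV
  have hFa := VO_an hF
  obtain ⟨B, hB⟩ := (isCompact_closedBall (0 : ℂ × ℂ) 1).exists_bound_of_continuousOn
    hF.continuous.continuousOn
  have hB0 : 0 ≤ B := (norm_nonneg _).trans (hB 0 (Metric.mem_closedBall_self zero_le_one))
  refine ⟨B, hB0, ?_⟩
  have hev : ∀ᶠ z in nhdsWithin (0 : ℂ × ℂ) {0}ᶜ, ‖z‖ ≤ 1 ∧ z ≠ 0 := by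
    refine Filter.Eventually.and ?_ self_mem_nhdsWithin
    refine nhdsWithin_le_nhds ?_
    filter_upwards [Metric.closedBall_mem_nhds (0 : ℂ × ℂ) zero_lt_one] with z hz
    exact mem_closedBall_zero_iff.1 hz
  filter_upwards [hev] with z hz
  obtain ⟨hz1, hz0⟩ := hz
  have hpos : 0 < ‖z‖ := norm_pos_iff.2 hz0
  set v : ℂ × ℂ := ((‖z‖ : ℂ))⁻¹ • z with hv
  have hvn : ‖v‖ = 1 := by
    rw [hv, norm_smul, norm_inv, Complex.norm_real, norm_norm, inv_mul_cancel₀ hpos.ne']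
  set g : ℂ → ℂ := fun s => F (0 + s • v) with hg
  have hgd : Differentiable ℂ g := Pool.Agent.Helper8.differentiable_line hFa 0 v
  have hord : (T : ℕ∞) ≤ analyticOrderAt g 0 := by
    rw [natCast_le_analyticOrderAt_iff_iteratedDeriv_eq_zero (hgd.analyticAt 0)]
    intro i hi
    rw [hg, Pool.Agent.Helper8.iteratedDeriv_line hFa]
    simp only [zero_smul, add_zero]
    exact hV _ (by simpa using hi)
  have h1 := VO_schwarz hgd hord (B := B) (fun s hs => by
    rw [hg]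
    refine hB _ ?_
    rw [mem_closedBall_zero_iff, zero_add, norm_smul, hs, hvn, one_mul]) (s := (‖z‖ : ℂ)) (by
      rw [Complex.norm_real, norm_norm]
      exact hz1)
  have h2 : g (‖z‖ : ℂ) = F z := by
    rw [hg]
    simp only
    rw [zero_add, hv, smul_smul, mul_inv_cancel₀, one_smul]
    exact_mod_cast hpos.ne'
  rw [h2, Complex.norm_real, norm_norm] at h1
  refine h1.trans (mul_le_mul_of_nonneg_left ?_ hB0)
  have h3 : (‖z‖ ^ 2 : ℝ) ^ ((T : ℝ) / 2) ≤ nsq z ^ ((T : ℝ) / 2) :=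
    Real.rpow_le_rpow (by positivity) (VO_norm_sq z) (by positivity)
  refine le_trans (le_of_eq ?_) h3
  rw [← Real.rpow_natCast ‖z‖ 2, ← Real.rpow_mul (norm_nonneg z), ← Real.rpow_natCast ‖z‖ T]
  congr 1
  push_cast
  ring

end Pool.Agent.KT
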