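import Pool.Agent.KT.StB
import Pool.Agent.KT.VO
import Pool.Agent.Helper8.SVSchwarz

/-!
# KT: Cauchy estimate for the derivatives at the origin
-/

set_option autoImplicit false

open scoped BigOperators
open Pool.Agent.Helper8 (dd dds Van)

namespace Pool.Agent.KT

theorem thm_CAU : St_CAU := by
  intro dir
  set ν : ℝ := ‖dir 0‖ + ‖dir 1‖ + 1 with hν
  have hν1 : 1 ≤ ν := by
    have h1 := norm_nonneg (dir 0)
    have h2 := norm_nonneg (dir 1)
    linarith
  have hνd : ∀ i, ‖dir i‖ ≤ ν := by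
    intro i
    have h1 := norm_nonneg (dir 0)
    have h2 := norm_nonneg (dir 1)
    fin_cases i
    · show ‖dir 0‖ ≤ ν
      linarith
    · show ‖dir 1‖ ≤ ν
      linarith
  have hl2 : 0 < Real.log 2 := Real.log_pos one_lt_two
  have hl2ν : 0 ≤ Real.log (2 * ν) := Real.log_nonneg (by linarith)
  refine ⟨Real.log (2 * ν) / Real.log 2 + 1, ?_, ?_⟩
  · have : 0 ≤ Real.log (2 * ν) / Real.log 2 := by positivity
    linarith
  intro κ S F w hκ hF hb
  have hFa := VO_an hF
  set n : ℕ := w.length with hn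
  have hB : ∀ y : ℂ × ℂ, ‖y‖ ≤ (-1 / 2 : ℝ) + 1 → ‖F y‖ ≤ Real.exp (S + κ) := by
    intro y hy
    have h1 : ‖y.1‖ ≤ 1 / 2 := (norm_fst_le y).trans (by linarith)
    have h2 : ‖y.2‖ ≤ 1 / 2 := (norm_snd_le y).trans (by linarith)
    have h3 : nsq y ≤ 1 := by
      unfold nsq
      nlinarith [norm_nonneg y.1, norm_nonneg y.2]
    have h4 := hb y h3
    unfold nrm at h4
    have h5 : ‖F y‖ = ‖F y‖ * Real.exp (-(κ * nsq y)) * Real.exp (κ * nsq y) := by
      rw [mul_assoc, ← Real.exp_add, neg_add_cancel, Real.exp_zero, mul_one]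
    rw [h5, Real.exp_add]
    refine mul_le_mul h4 (Real.exp_le_exp.2 ?_) (Real.exp_nonneg _) (Real.exp_nonneg _)
    nlinarith
  have h1 := Pool.Agent.Helper8.norm_dds_le_cauchy hFa (R := -1 / 2) (B := Real.exp (S + κ))
    (ν := ν) (by linarith) (t := 2 * n + 1) (by omega) hB (w.map dir) (by
      intro v hv
      obtain ⟨i, _, rfl⟩ := List.mem_map.1 hv
      exact hνd i) 0 (by
      rw [norm_zero, List.length_map]
      have h2 : (0 : ℝ) < ((2 * n + 1 : ℕ) : ℝ) := by positivity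
      have h3 : (w.length : ℝ) / ((2 * n + 1 : ℕ) : ℝ) ≤ 1 / 2 := by
        rw [div_le_div_iff₀ h2 two_pos, ← hn]
        push_cast
        linarith
      linarith)
  rw [List.length_map, ← hn] at h1
  refine h1.trans ?_
  have h2 : (ν * ((2 * n + 1 : ℕ) : ℝ)) ^ n ≤
      Real.exp ((Real.log (2 * ν) / Real.log 2 + 1) * ((n : ℝ) * Real.log ((n : ℝ) + 1))) := by
    rcases Nat.eq_zero_or_pos n with h0 | h0
    · rw [h0]
      simp
    · have hn1 : (1 : ℝ) ≤ n := by exact_mod_cast h0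
      have h3 : ν * ((2 * n + 1 : ℕ) : ℝ) ≤ (2 * ν) * ((n : ℝ) + 1) := by
        push_cast
        nlinarith
      have h4 : (0 : ℝ) < (2 * ν) * ((n : ℝ) + 1) := by positivity
      have h5 : (ν * ((2 * n + 1 : ℕ) : ℝ)) ^ n ≤ ((2 * ν) * ((n : ℝ) + 1)) ^ n :=
        pow_le_pow_left₀ (by positivity) h3 n
      refine h5.trans ?_
      rw [← Real.exp_log h4, ← Real.exp_nat_mul]
      refine Real.exp_le_exp.2 ?_
      rw [Real.log_mul (by positivity) (by positivity)]
      have h6 : Real.log 2 ≤ Real.log ((n : ℝ) + 1) := Real.log_le_log two_pos (by linarith)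
      have h7 : Real.log (2 * ν) ≤ Real.log (2 * ν) / Real.log 2 * Real.log ((n : ℝ) + 1) := by
        rw [div_mul_eq_mul_div, le_div_iff₀ hl2]
        exact mul_le_mul_of_nonneg_left h6 hl2ν
      have h8 : Real.log (2 * ν) + Real.log ((n : ℝ) + 1) ≤
          (Real.log (2 * ν) / Real.log 2 + 1) * Real.log ((n : ℝ) + 1) := by
        linarith
      calc (n : ℝ) * (Real.log (2 * ν) + Real.log ((n : ℝ) + 1))
          ≤ (n : ℝ) * ((Real.log (2 * ν) / Real.log 2 + 1) * Real.log ((n : ℝ) + 1)) :=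
            mul_le_mul_of_nonneg_left h8 (by positivity)
        _ = _ := by ring
  calc (ν * ((2 * n + 1 : ℕ) : ℝ)) ^ n * Real.exp (S + κ)
      ≤ Real.exp ((Real.log (2 * ν) / Real.log 2 + 1) * ((n : ℝ) * Real.log ((n : ℝ) + 1))) *
          Real.exp (S + κ) := mul_le_mul_of_nonneg_right h2 (Real.exp_nonneg _)
    _ ≤ _ := by
        rw [← Real.exp_add]
        refine Real.exp_le_exp.2 ?_
        have h9 : 0 ≤ Real.log (2 * ν) / Real.log 2 := by positivity
        nlinarith

end Pool.Agent.KT
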