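import Mathlib

/-!
# KT: statements of part C (Gelfond's criterion)
-/

set_option autoImplicit false

open scoped BigOperators
open Filter Polynomial NumberField

namespace Pool.Agent.KT

/-- height of a factor -/
def St_HTF : Prop :=
  ∀ (P Q : ℤ[X]) (d : ℕ) (s : ℝ), P ≠ 0 → Q ∣ P → P.natDegree ≤ d →
    (∀ i, |(P.coeff i : ℝ)| ≤ Real.exp s) → ∀ i, |(Q.coeff i : ℝ)| ≤ Real.exp (s + 2 * d)

/-- two coprime polynomials with integral coefficients cannot be small at the same point -/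
def St_RES : Prop :=
  ∀ x : ℂ, ∃ C : ℝ, 1 ≤ C ∧ ∀ (P Q : ℤ[X]) (d s : ℝ), 1 ≤ d → d ≤ s →
    IsCoprime (P.map (Int.castRingHom ℚ)) (Q.map (Int.castRingHom ℚ)) →
    (P.natDegree : ℝ) ≤ d → (Q.natDegree : ℝ) ≤ d →
    (∀ i, |(P.coeff i : ℝ)| ≤ Real.exp s) → (∀ i, |(Q.coeff i : ℝ)| ≤ Real.exp s) →
    Real.exp (-(C * d * s)) ≤ max ‖aeval x P‖ ‖aeval x Q‖

/-- a polynomial which is small at a point has a power of an irreducible polynomial as a factor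
which is small at this point -/
def St_SPLIT : Prop :=
  ∀ x : ℂ, ∃ C : ℝ, 1 ≤ C ∧ ∀ (P : ℤ[X]) (d s B : ℝ), P ≠ 0 → 1 ≤ d → d ≤ s → C ≤ B →
    (P.natDegree : ℝ) ≤ d → (∀ i, |(P.coeff i : ℝ)| ≤ Real.exp s) →
    ‖aeval x P‖ ≤ Real.exp (-(B * d * s)) →
    ∃ (Q : ℤ[X]) (r : ℕ), 1 ≤ r ∧ Irreducible Q ∧ 0 < Q.natDegree ∧ Q ^ r ∣ P ∧
      ‖aeval x Q‖ ^ r ≤ Real.exp (-((B - C) * d * s))

/-- the growth conditions -/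
structure Grow (a : ℝ) (d s : ℕ → ℝ) (N₀ : ℕ) : Prop where
  one_le : ∀ N, N₀ ≤ N → 1 ≤ d N
  le : ∀ N, N₀ ≤ N → d N ≤ s N
  dmono : ∀ N, N₀ ≤ N → d N ≤ d (N + 1)
  smono : ∀ N, N₀ ≤ N → s N ≤ s (N + 1)
  dgrow : ∀ N, N₀ ≤ N → d (N + 1) ≤ a * d N
  sgrow : ∀ N, N₀ ≤ N → s (N + 1) ≤ a * s N
  stend : Tendsto s atTop atTop

/-- Gelfond's criterion -/
def St_GELFZ : Prop :=
  ∀ (x : ℂ) (a : ℝ) (d s B : ℕ → ℝ) (N₀ : ℕ), Transcendental ℚ x → Grow a d s N₀ →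
    Tendsto B atTop atTop →
    (∀ N, N₀ ≤ N → ∃ P : ℤ[X], P ≠ 0 ∧ (P.natDegree : ℝ) ≤ d N ∧
      (∀ i, |(P.coeff i : ℝ)| ≤ Real.exp (s N)) ∧ ‖aeval x P‖ ≤ Real.exp (-(B N * d N * s N))) →
    False

/-- the norm of a polynomial over the integers of a number field -/
def St_NORM : Prop :=
  ∀ (K : Type) [Field K] [NumberField K] (em : K →+* ℂ) (x : ℂ), ∃ C : ℝ, 1 ≤ C ∧
    ∀ (P : Polynomial (𝓞 K)) (d s : ℝ), P ≠ 0 → 1 ≤ d → d ≤ s → (P.natDegree : ℝ) ≤ d →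
    (∀ i, house (algebraMap (𝓞 K) K (P.coeff i)) ≤ Real.exp s) →
    ∃ Q : ℤ[X], Q ≠ 0 ∧ (Q.natDegree : ℝ) ≤ C * d ∧
      (∀ i, |(Q.coeff i : ℝ)| ≤ Real.exp (C * s)) ∧
      ‖aeval x Q‖ ≤ ‖P.eval₂ (em.comp (algebraMap (𝓞 K) K)) x‖ * Real.exp (C * s)

/-- Gelfond's criterion over a number field -/
def St_GELF : Prop :=
  ∀ (K : Type) [Field K] [NumberField K] (em : K →+* ℂ) (x : ℂ) (a : ℝ) (d s B : ℕ → ℝ) (N₀ : ℕ),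
    Transcendental ℚ x → Grow a d s N₀ → Tendsto B atTop atTop →
    (∀ N, N₀ ≤ N → ∃ P : Polynomial (𝓞 K), P ≠ 0 ∧ (P.natDegree : ℝ) ≤ d N ∧
      (∀ i, house (algebraMap (𝓞 K) K (P.coeff i)) ≤ Real.exp (s N)) ∧
      ‖P.eval₂ (em.comp (algebraMap (𝓞 K) K)) x‖ ≤ Real.exp (-(B N * d N * s N))) →
    False

end Pool.Agent.KT
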