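import Pool.Agent.KT.GelK
import Pool.Agent.KT.StC
import Pool.Agent.Helper8.SLHouse

/-!
KT, module GELF: Gelfond's criterion in the form St_GELF (helper8).
-/

set_option autoImplicit false

open Filter Polynomial NumberField

namespace Pool.Agent.KT

theorem thm_GELF : St_GELF := by
  intro K _ _ em x a d s B N₀ hx hg hB hex
  choose! P hP0 hPd hPs hPx using hex
  have hdm : Monotone fun N => d (N + N₀) := by
    refine monotone_nat_of_le_succ fun N => ?_
    have h := hg.dmono (N + N₀) (Nat.le_add_left _ _)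
    rw [show N + N₀ + 1 = N + 1 + N₀ by omega] at h
    exact h
  have hsm : Monotone fun N => s (N + N₀) := by
    refine monotone_nat_of_le_succ fun N => ?_
    have h := hg.smono (N + N₀) (Nat.le_add_left _ _)
    rw [show N + N₀ + 1 = N + 1 + N₀ by omega] at h
    exact h
  refine gel_field K em x hx (fun N => d (N + N₀)) (fun N => s (N + N₀)) (fun N => B (N + N₀)) a
    (fun N => hg.one_le _ (Nat.le_add_left _ _)) hdm hsm (fun N => hg.le _ (Nat.le_add_left _ _))
    (fun N => ?_) (fun N => ?_) ?_ ?_ (fun N => P (N + N₀)) 0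
    (fun N _ => hP0 _ (Nat.le_add_left _ _)) (fun N _ => hPd _ (Nat.le_add_left _ _))
    (fun N _ i σ => ?_) (fun N _ => ?_)
  · have h := hg.dgrow (N + N₀) (Nat.le_add_left _ _)
    rw [show N + N₀ + 1 = N + 1 + N₀ by omega] at h
    exact h
  · have h := hg.sgrow (N + N₀) (Nat.le_add_left _ _)
    rw [show N + N₀ + 1 = N + 1 + N₀ by omega] at h
    exact h
  · exact hg.stend.comp (tendsto_add_atTop_nat N₀)
  · exact hB.comp (tendsto_add_atTop_nat N₀)
  · exact (norm_embedding_le_house _ σ).trans (hPs _ (Nat.le_add_left _ _) i)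
  · have h := hPx (N + N₀) (Nat.le_add_left _ _)
    rw [mul_assoc] at h
    exact h

end Pool.Agent.KT
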