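import Pool.Agent.KT.StB

/-!
# KT: interpolation at the integers `0, ..., k - 1`
-/

set_option autoImplicit false

open scoped BigOperators Nat

namespace Pool.Agent.KT

private lemma LAG_prod (j m : ℕ) :
    ∏ i ∈ (Finset.range (j + 1 + m)).erase j, ‖((j : ℂ) - (i : ℂ))‖ = (j ! : ℝ) * (m ! : ℝ) := by
  have hmem : j ∈ Finset.range (j + 1 + m) := Finset.mem_range.2 (by omega)
  have h1 : ∏ i ∈ (Finset.range (j + 1 + m)).erase j, ‖((j : ℂ) - (i : ℂ))‖ =
      ∏ i ∈ Finset.range (j + 1 + m), (if i = j then (1 : ℝ) else ‖((j : ℂ) - (i : ℂ))‖) := by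
    rw [← Finset.mul_prod_erase _ (fun i => if i = j then (1 : ℝ) else ‖((j : ℂ) - (i : ℂ))‖) hmem,
      if_pos rfl, one_mul]
    refine Finset.prod_congr rfl fun i hi => ?_
    rw [if_neg (Finset.ne_of_mem_erase hi)]
  rw [h1, Finset.prod_range_add, Finset.prod_range_succ, if_pos rfl, mul_one]
  congr 1
  · rw [← Finset.prod_range_reflect, ← Finset.prod_range_add_one_eq_factorial]
    push_cast
    refine Finset.prod_congr rfl fun i hi => ?_
    have hij := Finset.mem_range.1 hi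
    rw [if_neg (by omega)]
    have h2 : (j : ℂ) - ((j - 1 - i : ℕ) : ℂ) = ((i + 1 : ℕ) : ℂ) := by
      have h3 : (j - 1 - i : ℕ) + (i + 1) = j := by omega
      have h4 : ((j - 1 - i : ℕ) : ℂ) + ((i + 1 : ℕ) : ℂ) = (j : ℂ) := by exact_mod_cast h3
      rw [← h4]
      ring
    rw [h2, Complex.norm_natCast]
    push_cast
    ring
  · rw [← Finset.prod_range_add_one_eq_factorial]
    push_cast
    refine Finset.prod_congr rfl fun i hi => ?_
    rw [if_neg (by omega)]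
    have h2 : (j : ℂ) - ((j : ℂ) + 1 + (i : ℂ)) = -((i + 1 : ℕ) : ℂ) := by
      push_cast
      ring
    rw [h2, norm_neg, Complex.norm_natCast]
    push_cast
    ring

private lemma LAG_base (m : ℕ) (n : ℤ) {j : ℕ} (hj : j < m + 1) :
    ‖(Lagrange.basis (Finset.range (m + 1)) (fun i : ℕ => (i : ℂ)) j).eval (n : ℂ)‖ ≤
      (|(n : ℝ)| + ((m + 1 : ℕ) : ℝ)) ^ m / ((j ! : ℝ) * ((m - j) ! : ℝ)) := by
  obtain ⟨l, rfl⟩ : ∃ l, m = j + l := ⟨m - j, by omega⟩
  have h1 : (Lagrange.basis (Finset.range (j + l + 1)) (fun i : ℕ => (i : ℂ)) j).eval (n : ℂ) =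
      ∏ i ∈ (Finset.range (j + l + 1)).erase j, (((j : ℂ) - (i : ℂ))⁻¹ * ((n : ℂ) - (i : ℂ))) := by
    unfold Lagrange.basis
    rw [Polynomial.eval_prod]
    refine Finset.prod_congr rfl fun i _ => ?_
    unfold Lagrange.basisDivisor
    simp
  rw [h1, norm_prod]
  have h2 : ∀ i ∈ (Finset.range (j + l + 1)).erase j,
      ‖((j : ℂ) - (i : ℂ))⁻¹ * ((n : ℂ) - (i : ℂ))‖ ≤
        ‖((j : ℂ) - (i : ℂ))‖⁻¹ * (|(n : ℝ)| + ((j + l + 1 : ℕ) : ℝ)) := by
    intro i hi
    rw [norm_mul, norm_inv]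
    refine mul_le_mul_of_nonneg_left ?_ (inv_nonneg.2 (norm_nonneg _))
    refine (norm_sub_le _ _).trans ?_
    have h3 : ‖(n : ℂ)‖ = |(n : ℝ)| := by
      rw [Complex.norm_intCast]
    have h4 : ‖(i : ℂ)‖ = (i : ℝ) := Complex.norm_natCast i
    have h5 : (i : ℝ) ≤ ((j + l + 1 : ℕ) : ℝ) := by
      have := Finset.mem_range.1 (Finset.mem_of_mem_erase hi)
      exact_mod_cast this.le
    rw [h3, h4]
    linarith
  refine (Finset.prod_le_prod (fun _ _ => norm_nonneg _) h2).trans (le_of_eq ?_)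
  rw [Finset.prod_mul_distrib, Finset.prod_const, Finset.card_erase_of_mem
    (Finset.mem_range.2 (by omega)), Finset.card_range]
  have h6 : j + l + 1 = j + 1 + l := by ring
  have h7 : ∏ i ∈ (Finset.range (j + l + 1)).erase j, ‖((j : ℂ) - (i : ℂ))‖⁻¹ =
      ((j ! : ℝ) * (l ! : ℝ))⁻¹ := by
    rw [Finset.prod_inv_distrib, h6, LAG_prod]
  rw [h7]
  have h8 : j + l + 1 - 1 = j + l := by omega
  have h9 : j + l - j = l := by omega
  rw [h8, h9, div_eq_mul_inv, mul_comm]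

theorem thm_LAG : St_LAG := by
  intro k R B hR hB n
  obtain ⟨m, rfl⟩ : ∃ m, k = m + 1 := ⟨k - 1, by omega⟩
  have hB0 : 0 ≤ B := (norm_nonneg _).trans (hB 0 (Nat.succ_pos m))
  have hX0 : 0 ≤ |(n : ℝ)| + ((m + 1 : ℕ) : ℝ) := by positivity
  have hinj : Set.InjOn (fun i : ℕ => (i : ℂ)) (Finset.range (m + 1) : Set ℕ) :=
    fun a _ b _ h => Nat.cast_injective (R := ℂ) h
  have hdeg : R.degree < ((Finset.range (m + 1)).card : WithBot ℕ) := by
    rw [Finset.card_range]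
    refine lt_of_le_of_lt Polynomial.degree_le_natDegree ?_
    exact_mod_cast hR
  have hRi := Lagrange.eq_interpolate (s := Finset.range (m + 1)) hinj hdeg
  rw [hRi, Lagrange.interpolate_apply, Polynomial.eval_finsetSum]
  refine (norm_sum_le _ _).trans ?_
  calc ∑ j ∈ Finset.range (m + 1), ‖(Polynomial.C (R.eval (j : ℂ)) *
        Lagrange.basis (Finset.range (m + 1)) (fun i : ℕ => (i : ℂ)) j).eval (n : ℂ)‖
      ≤ ∑ j ∈ Finset.range (m + 1), B * ((|(n : ℝ)| + ((m + 1 : ℕ) : ℝ)) ^ m /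
          ((j ! : ℝ) * ((m - j) ! : ℝ))) := by
        refine Finset.sum_le_sum fun j hj => ?_
        have hj' := Finset.mem_range.1 hj
        rw [Polynomial.eval_mul, Polynomial.eval_C, norm_mul]
        exact mul_le_mul (hB j hj') (LAG_base m n hj') (norm_nonneg _) hB0
    _ = B * ((|(n : ℝ)| + ((m + 1 : ℕ) : ℝ)) ^ m * (2 ^ m / (m ! : ℝ))) := by
        have h1 : ∀ j ∈ Finset.range (m + 1), B * ((|(n : ℝ)| + ((m + 1 : ℕ) : ℝ)) ^ m /
            ((j ! : ℝ) * ((m - j) ! : ℝ))) = B * (|(n : ℝ)| + ((m + 1 : ℕ) : ℝ)) ^ m / (m ! : ℝ) *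
              (m.choose j : ℝ) := by
          intro j hj
          rw [Nat.cast_choose ℝ (Nat.lt_succ_iff.1 (Finset.mem_range.1 hj))]
          have h2 : (m ! : ℝ) ≠ 0 := by positivity
          field_simp
        rw [Finset.sum_congr rfl h1, ← Finset.mul_sum]
        have h3 : ∑ j ∈ Finset.range (m + 1), (m.choose j : ℝ) = 2 ^ m := by
          have := Nat.sum_range_choose m
          exact_mod_cast this
        rw [h3]
        ring
    _ = B * ((2 * (|(n : ℝ)| + ((m + 1 : ℕ) : ℝ))) ^ m / (m ! : ℝ)) := by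
        rw [mul_pow]
        ring
    _ ≤ B * Real.exp (2 * (|(n : ℝ)| + ((m + 1 : ℕ) : ℝ))) :=
        mul_le_mul_of_nonneg_left (Real.pow_div_factorial_le_exp _ (by positivity) m) hB0
    _ = _ := mul_comm _ _

end Pool.Agent.KT
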