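import Pool.Agent.KT.Trans

/-!
# KT: growth of the auxiliary function
-/

set_option autoImplicit false

open scoped BigOperators
open MvPolynomial NumberField

namespace Pool.Agent.KT

variable {τ : Tor} (D : Dat τ)

private theorem pgro_per_h : τ.Per (nrm (Real.pi / 2) D.h) :=
  trans_per_of_quasi τ _ _ (fun i => ⟨D.cc i, D.cc_norm i, fun z => D.h_quasi i z⟩)

private theorem pgro_per_y (j : Fin 2) : τ.Per (nrm (Real.pi / 2) (D.u (D.y j))) :=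
  trans_per_of_quasi τ _ _ (fun i => ⟨D.cc i, D.cc_norm i, fun z => D.y_quasi j i z⟩)

private theorem pgro_per_S : τ.Per (nrm (Real.pi / 2) D.S) :=
  trans_per_of_quasi τ _ _ (fun i => ⟨D.cc i, D.cc_norm i, fun z => D.S_quasi i z⟩)

private theorem pgro_cont_S : Continuous D.S := by
  unfold Dat.S
  have : ∀ i, Continuous (D.u i) := fun i => (D.u_ent i).continuous
  fun_prop

/-- bounds for the factors -/
private theorem pgro_bound : ∃ M : ℝ, 1 ≤ M ∧ ∀ z, nrm (Real.pi / 2) D.h z ≤ M ∧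
    (∀ j, nrm (Real.pi / 2) (D.u (D.y j)) z ≤ M) ∧
    nrm (Real.pi / 2) D.S z ≤ M * (1 + |ht z|) := by
  obtain ⟨B1, hB1, h1⟩ := trans_bdd (pgro_per_h D) (trans_continuous_nrm D.h_ent.continuous)
    |ht D.m|
  obtain ⟨B2, hB2, h2⟩ := trans_bdd (pgro_per_y D 0)
    (trans_continuous_nrm (D.u_ent (D.y 0)).continuous) |ht D.m|
  obtain ⟨B3, hB3, h3⟩ := trans_bdd (pgro_per_y D 1)
    (trans_continuous_nrm (D.u_ent (D.y 1)).continuous) |ht D.m|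
  obtain ⟨B4, hB4, h4⟩ := trans_bdd (pgro_per_S D) (trans_continuous_nrm (pgro_cont_S D)) |ht D.m|
  have hm : 0 < |ht D.m| := abs_pos.2 D.m_ht
  set M0 : ℝ := 1 + B1 + B2 + B3 + B4 with hM0
  set M : ℝ := M0 * (1 + ‖D.β‖ + ‖D.β‖ / |ht D.m|) with hM
  have hM0pos : 1 ≤ M0 := by linarith
  have hβ : 0 ≤ ‖D.β‖ := norm_nonneg _
  have hβ' : 0 ≤ ‖D.β‖ / |ht D.m| := by positivity
  have hMM : M0 ≤ M := by
    rw [hM]
    nlinarith
  refine ⟨M, hM0pos.trans hMM, fun z => ?_⟩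
  obtain ⟨n, hn1, hn2⟩ := trans_exists_zsmul D.m_ht z
  set w : ℂ × ℂ := z + n • D.m with hw
  obtain ⟨c, c1, c2, c3, c4⟩ := D.trans (-n) w
  have hz : w + (-n) • D.m = z := by
    rw [hw, neg_smul]; abel
  rw [hz] at c1 c2 c3 c4
  have key : ∀ x : ℂ, ‖c * x‖ * Real.exp (-(Real.pi / 2 * nsq z))
      = ‖x‖ * Real.exp (-(Real.pi / 2 * nsq w)) := by
    intro x
    rw [norm_mul, c1]
    have : Real.exp (Real.pi / 2 * (nsq z - nsq w)) * ‖x‖ * Real.exp (-(Real.pi / 2 * nsq z))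
        = ‖x‖ * (Real.exp (Real.pi / 2 * (nsq z - nsq w)) * Real.exp (-(Real.pi / 2 * nsq z))) := by
      ring
    rw [this, ← Real.exp_add]
    congr 2
    ring
  have e1 : nrm (Real.pi / 2) D.h z = nrm (Real.pi / 2) D.h w := by
    unfold nrm
    rw [c2, key]
  have e2 : ∀ j, nrm (Real.pi / 2) (D.u (D.y j)) z = nrm (Real.pi / 2) (D.u (D.y j)) w := by
    intro j
    unfold nrm
    rw [c3, key]
  have e3 : nrm (Real.pi / 2) D.S z ≤ nrm (Real.pi / 2) D.S w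
      + |(n : ℝ)| * ‖D.β‖ * nrm (Real.pi / 2) D.h w := by
    unfold nrm
    rw [c4, key]
    have : ‖D.S w + ((-n : ℤ) : ℂ) * D.β * D.h w‖ ≤ ‖D.S w‖ + |(n : ℝ)| * ‖D.β‖ * ‖D.h w‖ := by
      refine (norm_add_le _ _).trans ?_
      rw [norm_mul, norm_mul]
      have : ‖((-n : ℤ) : ℂ)‖ = |(n : ℝ)| := by
        push_cast
        rw [norm_neg]
        exact Complex.norm_intCast n
      rw [this]
    calc ‖D.S w + ((-n : ℤ) : ℂ) * D.β * D.h w‖ * Real.exp (-(Real.pi / 2 * nsq w))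
        ≤ (‖D.S w‖ + |(n : ℝ)| * ‖D.β‖ * ‖D.h w‖) * Real.exp (-(Real.pi / 2 * nsq w)) :=
          mul_le_mul_of_nonneg_right this (Real.exp_pos _).le
      _ = _ := by ring
  have f1 := h1 w hn1
  have f2 := h2 w hn1
  have f3 := h3 w hn1
  have f4 := h4 w hn1
  refine ⟨?_, fun j => ?_, ?_⟩
  · rw [e1]; linarith
  · rw [e2]
    fin_cases j
    · exact le_trans f2 (by linarith)
    · exact le_trans f3 (by linarith)
  · have hn3 : |(n : ℝ)| ≤ |ht z| / |ht D.m| + 1 := by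
      have h5 : |(n : ℝ)| = |(n : ℝ)| * |ht D.m| / |ht D.m| := by field_simp
      rw [h5]
      calc |(n : ℝ)| * |ht D.m| / |ht D.m| ≤ (|ht z| + |ht D.m|) / |ht D.m| := by gcongr
        _ = |ht z| / |ht D.m| + 1 := by field_simp
    have hz0 : 0 ≤ |ht z| := abs_nonneg _
    calc nrm (Real.pi / 2) D.S z
        ≤ M0 + (|ht z| / |ht D.m| + 1) * ‖D.β‖ * M0 := by
          refine e3.trans ?_
          have g1 : nrm (Real.pi / 2) D.S w ≤ M0 := by linarith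
          have g2 : nrm (Real.pi / 2) D.h w ≤ M0 := by linarith
          have g3 : 0 ≤ nrm (Real.pi / 2) D.h w := trans_nrm_nonneg _ _ _
          gcongr
      _ = M0 * (1 + ‖D.β‖ + ‖D.β‖ / |ht D.m| * |ht z|) := by ring
      _ ≤ M0 * ((1 + ‖D.β‖ + ‖D.β‖ / |ht D.m|) * (1 + |ht z|)) := by
          refine mul_le_mul_of_nonneg_left ?_ (by linarith)
          nlinarith [mul_nonneg hβ hz0, mul_nonneg hβ' hz0]
      _ = M * (1 + |ht z|) := by rw [hM]; ring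

/-- growth of the auxiliary function -/
theorem thm_PGRO {τ : Tor} (D : Dat τ) : St_PGRO D := by
  obtain ⟨M, hM1, hM⟩ := pgro_bound D
  set X1 : ℝ := max 1 ‖D.X‖ with hX1
  have hX1' : 1 ≤ X1 := le_max_left _ _
  have hlX : 0 ≤ Real.log X1 := Real.log_nonneg hX1'
  have hlM : 0 ≤ Real.log M := Real.log_nonneg hM1
  have hdq : (0 : ℝ) ≤ D.dq := Nat.cast_nonneg _
  refine ⟨D.dq * Real.log X1 + 2 * Real.log M + 2 + D.dq, by nlinarith [mul_nonneg hdq hlX], ?_⟩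
  intro L k ξ B hL hk hξ z
  obtain ⟨g1, g2, g3⟩ := hM z
  have hz0 : 0 ≤ |ht z| := abs_nonneg _
  set E : ℝ := Real.exp (-(Real.pi / 2 * nsq z)) with hE
  have hE0 : 0 < E := Real.exp_pos _
  have hEE : Real.exp (-(kap L k * nsq z)) = E ^ (2 * L + k) := by
    rw [hE, ← Real.exp_nat_mul, kap]
    congr 1
    push_cast
    ring
  have hB : 0 ≤ B := (norm_nonneg _).trans (hξ (fun _ => ⟨0, hL⟩, ⟨0, hk⟩,
    ⟨0, Nat.mul_pos (Nat.succ_pos _) hk⟩))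
  -- one term
  have hterm : ∀ s : D.Ix L k, ‖D.ψ (ξ s) * D.X ^ (s.2.2 : ℕ) *
      ((∏ i, D.u (D.y i) z ^ (s.1 i : ℕ)) * D.h z ^ (2 * L - ∑ i, (s.1 i : ℕ))) *
      (D.S z ^ (s.2.1 : ℕ) * D.h z ^ (k - (s.2.1 : ℕ)))‖ * E ^ (2 * L + k)
      ≤ B * X1 ^ (D.dq * k) * M ^ (2 * L + k) * (1 + |ht z|) ^ k := by
    intro s
    have hs1 : ∑ i, (s.1 i : ℕ) ≤ 2 * L := by
      calc ∑ i, (s.1 i : ℕ) ≤ ∑ _i : Fin 2, L := Finset.sum_le_sum fun i _ => (s.1 i).2.le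
        _ = 2 * L := by simp
    have hs2 : (s.2.1 : ℕ) ≤ k := s.2.1.2.le
    have hs3 : (s.2.2 : ℕ) ≤ D.dq * k := s.2.2.2.le
    have hEp : E ^ (2 * L + k) = (∏ i, E ^ (s.1 i : ℕ)) * E ^ (2 * L - ∑ i, (s.1 i : ℕ)) *
        (E ^ (s.2.1 : ℕ) * E ^ (k - (s.2.1 : ℕ))) := by
      rw [Finset.prod_pow_eq_pow_sum, ← pow_add, ← pow_add, ← pow_add]
      congr 1
      omega
    have hMp : M ^ (2 * L + k) * (1 + |ht z|) ^ k = (∏ i, M ^ (s.1 i : ℕ)) *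
        M ^ (2 * L - ∑ i, (s.1 i : ℕ)) *
        ((M * (1 + |ht z|)) ^ (s.2.1 : ℕ) * M ^ (k - (s.2.1 : ℕ))) *
        (1 + |ht z|) ^ (k - (s.2.1 : ℕ)) := by
      have a1 : M ^ (2 * L + k) = (∏ i, M ^ (s.1 i : ℕ)) * M ^ (2 * L - ∑ i, (s.1 i : ℕ)) *
          (M ^ (s.2.1 : ℕ) * M ^ (k - (s.2.1 : ℕ))) := by
        rw [Finset.prod_pow_eq_pow_sum, ← pow_add, ← pow_add, ← pow_add]
        congr 1
        omega
      have a2 : (1 + |ht z|) ^ k = (1 + |ht z|) ^ (s.2.1 : ℕ) *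
          (1 + |ht z|) ^ (k - (s.2.1 : ℕ)) := by
        rw [← pow_add]
        congr 1
        omega
      rw [a1, a2, mul_pow]
      ring
    have hnm : ‖D.ψ (ξ s) * D.X ^ (s.2.2 : ℕ) *
      ((∏ i, D.u (D.y i) z ^ (s.1 i : ℕ)) * D.h z ^ (2 * L - ∑ i, (s.1 i : ℕ))) *
      (D.S z ^ (s.2.1 : ℕ) * D.h z ^ (k - (s.2.1 : ℕ)))‖ * E ^ (2 * L + k) =
      ‖D.ψ (ξ s)‖ * ‖D.X‖ ^ (s.2.2 : ℕ) * ((∏ i, nrm (Real.pi / 2) (D.u (D.y i)) z ^ (s.1 i : ℕ)) *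
        nrm (Real.pi / 2) D.h z ^ (2 * L - ∑ i, (s.1 i : ℕ)) *
        (nrm (Real.pi / 2) D.S z ^ (s.2.1 : ℕ) * nrm (Real.pi / 2) D.h z ^ (k - (s.2.1 : ℕ)))) := by
      rw [hEp]
      simp only [nrm, ← hE, norm_mul, norm_pow, norm_prod, mul_pow, Finset.prod_mul_distrib]
      ring
    rw [hnm]
    have b1 : ‖D.X‖ ^ (s.2.2 : ℕ) ≤ X1 ^ (D.dq * k) :=
      (pow_le_pow_left₀ (norm_nonneg _) (le_max_right _ _) _).trans
        (pow_le_pow_right₀ hX1' hs3)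
    have b2 : (∏ i, nrm (Real.pi / 2) (D.u (D.y i)) z ^ (s.1 i : ℕ)) ≤ ∏ i, M ^ (s.1 i : ℕ) :=
      Finset.prod_le_prod (fun i _ => pow_nonneg (trans_nrm_nonneg _ _ _) _)
        (fun i _ => pow_le_pow_left₀ (trans_nrm_nonneg _ _ _) (g2 i) _)
    have b20 : 0 ≤ (∏ i, nrm (Real.pi / 2) (D.u (D.y i)) z ^ (s.1 i : ℕ)) :=
      Finset.prod_nonneg (fun i _ => pow_nonneg (trans_nrm_nonneg _ _ _) _)
    have b3 : ∀ j : ℕ, nrm (Real.pi / 2) D.h z ^ j ≤ M ^ j := fun j =>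
      pow_le_pow_left₀ (trans_nrm_nonneg _ _ _) g1 _
    have b4 : nrm (Real.pi / 2) D.S z ^ (s.2.1 : ℕ) ≤ (M * (1 + |ht z|)) ^ (s.2.1 : ℕ) :=
      pow_le_pow_left₀ (trans_nrm_nonneg _ _ _) g3 _
    have b5 : 1 ≤ (1 + |ht z|) ^ (k - (s.2.1 : ℕ)) := one_le_pow₀ (by linarith)
    have n1 : 0 ≤ nrm (Real.pi / 2) D.h z := trans_nrm_nonneg _ _ _
    have n2 : 0 ≤ nrm (Real.pi / 2) D.S z := trans_nrm_nonneg _ _ _
    have c1 : (∏ i, nrm (Real.pi / 2) (D.u (D.y i)) z ^ (s.1 i : ℕ)) *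
        nrm (Real.pi / 2) D.h z ^ (2 * L - ∑ i, (s.1 i : ℕ)) *
        (nrm (Real.pi / 2) D.S z ^ (s.2.1 : ℕ) * nrm (Real.pi / 2) D.h z ^ (k - (s.2.1 : ℕ)))
        ≤ M ^ (2 * L + k) * (1 + |ht z|) ^ k := by
      rw [hMp]
      have c2 : (∏ i, nrm (Real.pi / 2) (D.u (D.y i)) z ^ (s.1 i : ℕ)) *
        nrm (Real.pi / 2) D.h z ^ (2 * L - ∑ i, (s.1 i : ℕ)) *
        (nrm (Real.pi / 2) D.S z ^ (s.2.1 : ℕ) * nrm (Real.pi / 2) D.h z ^ (k - (s.2.1 : ℕ)))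
        ≤ (∏ i, M ^ (s.1 i : ℕ)) * M ^ (2 * L - ∑ i, (s.1 i : ℕ)) *
        ((M * (1 + |ht z|)) ^ (s.2.1 : ℕ) * M ^ (k - (s.2.1 : ℕ))) := by
        have hM0 : 0 ≤ M := by linarith
        have p1 : 0 ≤ ∏ i, M ^ (s.1 i : ℕ) := Finset.prod_nonneg fun i _ => pow_nonneg hM0 _
        refine mul_le_mul (mul_le_mul b2 (b3 _) (by positivity) p1)
          (mul_le_mul b4 (b3 _) (by positivity) (by positivity)) (by positivity) ?_
        positivity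
      refine c2.trans (le_mul_of_one_le_right ?_ b5)
      refine le_trans ?_ c2
      positivity
    calc ‖D.ψ (ξ s)‖ * ‖D.X‖ ^ (s.2.2 : ℕ) *
        ((∏ i, nrm (Real.pi / 2) (D.u (D.y i)) z ^ (s.1 i : ℕ)) *
        nrm (Real.pi / 2) D.h z ^ (2 * L - ∑ i, (s.1 i : ℕ)) *
        (nrm (Real.pi / 2) D.S z ^ (s.2.1 : ℕ) * nrm (Real.pi / 2) D.h z ^ (k - (s.2.1 : ℕ))))
        ≤ (B * X1 ^ (D.dq * k)) * (M ^ (2 * L + k) * (1 + |ht z|) ^ k) :=
          mul_le_mul (mul_le_mul (hξ s) b1 (by positivity) hB) c1 (by positivity) (by positivity)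
      _ = _ := by ring
  have hsum : nrm (kap L k) (D.Φ L k ξ) z ≤
      (Fintype.card (D.Ix L k) : ℝ) * (B * X1 ^ (D.dq * k) * M ^ (2 * L + k) *
        (1 + |ht z|) ^ k) := by
    unfold nrm Dat.Φ
    rw [hEE]
    calc ‖∑ s : D.Ix L k, D.ψ (ξ s) * D.X ^ (s.2.2 : ℕ) *
      ((∏ i, D.u (D.y i) z ^ (s.1 i : ℕ)) * D.h z ^ (2 * L - ∑ i, (s.1 i : ℕ))) *
      (D.S z ^ (s.2.1 : ℕ) * D.h z ^ (k - (s.2.1 : ℕ)))‖ * E ^ (2 * L + k)
        ≤ (∑ s : D.Ix L k, ‖D.ψ (ξ s) * D.X ^ (s.2.2 : ℕ) *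
      ((∏ i, D.u (D.y i) z ^ (s.1 i : ℕ)) * D.h z ^ (2 * L - ∑ i, (s.1 i : ℕ))) *
      (D.S z ^ (s.2.1 : ℕ) * D.h z ^ (k - (s.2.1 : ℕ)))‖) * E ^ (2 * L + k) :=
          mul_le_mul_of_nonneg_right (norm_sum_le _ _) (by positivity)
      _ ≤ ∑ _s : D.Ix L k, B * X1 ^ (D.dq * k) * M ^ (2 * L + k) * (1 + |ht z|) ^ k := by
          rw [Finset.sum_mul]
          exact Finset.sum_le_sum fun s _ => hterm s
      _ = _ := by
          rw [Finset.sum_const, Finset.card_univ, nsmul_eq_mul]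
  refine hsum.trans ?_
  have hcard : (Fintype.card (D.Ix L k) : ℝ) = (L : ℝ) ^ 2 * ((k : ℝ) * (D.dq * k)) := by
    simp only [Fintype.card_prod, Fintype.card_fun, Fintype.card_fin]
    push_cast
    ring
  have hexp : ∀ x : ℝ, x ≤ Real.exp x := fun x => by
    have := Real.add_one_le_exp x
    linarith
  have hL0 : (0 : ℝ) ≤ L := Nat.cast_nonneg _
  have hk0 : (0 : ℝ) ≤ k := Nat.cast_nonneg _
  have hcard' : (Fintype.card (D.Ix L k) : ℝ) ≤ Real.exp (2 * L + k + D.dq * k) := by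
    rw [hcard, Real.exp_add, Real.exp_add, mul_assoc]
    have q1 : (L : ℝ) ^ 2 ≤ Real.exp (2 * L) := by
      have : Real.exp (2 * (L : ℝ)) = Real.exp L ^ 2 := by
        rw [← Real.exp_nat_mul]
        norm_num
      rw [this]
      exact pow_le_pow_left₀ hL0 (hexp _) 2
    refine mul_le_mul q1 (mul_le_mul (hexp _) (hexp _) (by positivity) (Real.exp_pos _).le)
      (by positivity) (Real.exp_pos _).le
  have hX2 : X1 ^ (D.dq * k) = Real.exp ((D.dq * k : ℕ) * Real.log X1) := by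
    rw [Real.exp_nat_mul, Real.exp_log (by linarith)]
  have hM2 : M ^ (2 * L + k) = Real.exp ((2 * L + k : ℕ) * Real.log M) := by
    rw [Real.exp_nat_mul, Real.exp_log (by linarith)]
  calc (Fintype.card (D.Ix L k) : ℝ) * (B * X1 ^ (D.dq * k) * M ^ (2 * L + k) *
        (1 + |ht z|) ^ k)
      ≤ Real.exp (2 * L + k + D.dq * k) * (B * X1 ^ (D.dq * k) * M ^ (2 * L + k) *
        (1 + |ht z|) ^ k) := by
        refine mul_le_mul_of_nonneg_right hcard' ?_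
        positivity
    _ = B * (Real.exp (2 * L + k + D.dq * k) * Real.exp ((D.dq * k : ℕ) * Real.log X1) *
        Real.exp ((2 * L + k : ℕ) * Real.log M)) * (1 + |ht z|) ^ k := by
        rw [hX2, hM2]; ring
    _ ≤ B * Real.exp ((D.dq * Real.log X1 + 2 * Real.log M + 2 + D.dq) * ((L : ℝ) + k)) *
        (1 + |ht z|) ^ k := by
        rw [← Real.exp_add, ← Real.exp_add]
        have r1 : 0 ≤ (D.dq : ℝ) * Real.log X1 * L := by positivity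
        have r2 : 0 ≤ Real.log M * k := by positivity
        have r3 : 0 ≤ (D.dq : ℝ) * L := by positivity
        have r4 : (2 * (L : ℝ) + k + D.dq * k) + ((D.dq * k : ℕ) : ℝ) * Real.log X1
            + ((2 * L + k : ℕ) : ℝ) * Real.log M ≤
            (D.dq * Real.log X1 + 2 * Real.log M + 2 + D.dq) * ((L : ℝ) + k) := by
          push_cast
          nlinarith
        have r5 := Real.exp_le_exp.2 r4
        gcongr

end Pool.Agent.KT
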