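import Pool.Agent.KT.Trans

/-!
# KT: the auxiliary function is not zero
-/

set_option autoImplicit false

open scoped BigOperators
open MvPolynomial NumberField

namespace Pool.Agent.KT

/-- a transcendental number is not a root of a non-zero polynomial over a number field -/
private theorem pne_transc {K : Type} [Field K] [NumberField K] (em : K →+* ℂ) {x : ℂ}
    (hx : Transcendental ℚ x) {n : ℕ} (c : Fin n → K)
    (h : ∑ d, em (c d) * x ^ (d : ℕ) = 0) : ∀ d, c d = 0 := by
  let _ : Algebra K ℂ := em.toAlgebra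
  have htr : Transcendental K x := by
    intro hK
    exact hx (IsAlgebraic.restrictScalars ℚ hK)
  let P : Polynomial K := ∑ d, Polynomial.C (c d) * Polynomial.X ^ (d : ℕ)
  have hP : Polynomial.aeval x P = 0 := by
    rw [map_sum, ← h]
    refine Finset.sum_congr rfl fun d _ => ?_
    rw [map_mul, Polynomial.aeval_C, map_pow, Polynomial.aeval_X]
    rfl
  have hP0 : P = 0 := by
    by_contra hne
    exact htr ⟨P, hne, hP⟩
  intro d
  have h1 : P.coeff (d : ℕ) = c d := by
    simp only [P, Polynomial.finsetSum_coeff, Polynomial.coeff_C_mul_X_pow]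
    rw [Finset.sum_eq_single d]
    · simp
    · intro b _ hb
      rw [if_neg]
      intro h2
      exact hb (Fin.ext h2.symm)
    · intro h2
      exact absurd (Finset.mem_univ d) h2
  rw [← h1, hP0, Polynomial.coeff_zero]

/-- the auxiliary function is not zero -/
theorem thm_PNE {τ : Tor} (D : Dat τ) : St_PNE D := by
  intro L k ξ hξ
  by_contra hcon
  push Not at hcon
  apply hξ
  -- the coefficients
  let A : Fin k → ℂ × ℂ → ℂ := fun l z => ∑ p : Fin 2 → Fin L, ∑ d : Fin (D.dq * k),
    D.ψ (ξ (p, l, d)) * D.X ^ (d : ℕ) *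
      ((∏ i, D.u (D.y i) z ^ (p i : ℕ)) * D.h z ^ (2 * L - ∑ i, (p i : ℕ)))
  have hA : ∀ z, D.h z ≠ 0 → ∀ l, A l z = 0 := by
    intro z hz
    let Q : Polynomial ℂ := ∑ l : Fin k,
      Polynomial.C (A l z * D.h z ^ (k - (l : ℕ))) * Polynomial.X ^ (l : ℕ)
    have hroot : ∀ n : ℤ, Q.eval (D.S z + n * D.β * D.h z) = 0 := by
      intro n
      obtain ⟨c, hc, h⟩ := D.trans_Φ L k ξ n z
      rw [hcon] at h
      have hc0 : c ≠ 0 := by
        rw [← norm_ne_zero_iff, hc]
        exact (Real.exp_pos _).ne'
      have h0 := (mul_eq_zero.1 h.symm).resolve_left hc0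
      rw [← h0]
      simp only [Q, Polynomial.eval_finsetSum, Polynomial.eval_mul, Polynomial.eval_C,
        Polynomial.eval_pow, Polynomial.eval_X, A]
      rw [Fintype.sum_prod_type_right, Fintype.sum_prod_type]
      refine Finset.sum_congr rfl fun l _ => ?_
      rw [Finset.sum_mul, Finset.sum_mul, Finset.sum_comm]
      refine Finset.sum_congr rfl fun p _ => ?_
      rw [Finset.sum_mul, Finset.sum_mul]
      refine Finset.sum_congr rfl fun d _ => ?_
      ring
    have hQ : Q = 0 := by
      apply Polynomial.eq_zero_of_infinite_isRoot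
      refine Set.infinite_of_injective_forall_mem (f := fun n : ℤ => D.S z + n * D.β * D.h z)
        ?_ hroot
      intro a b hab
      have h1 : ((a : ℂ) - b) * (D.β * D.h z) = 0 := by
        have : D.S z + a * D.β * D.h z = D.S z + b * D.β * D.h z := hab
        linear_combination this
      have h2 := (mul_eq_zero.1 h1).resolve_right (mul_ne_zero D.β_ne hz)
      have h3 : (a : ℂ) = b := sub_eq_zero.1 h2
      exact_mod_cast h3
    intro l
    have h1 : Q.coeff (l : ℕ) = A l z * D.h z ^ (k - (l : ℕ)) := by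
      simp only [Q, Polynomial.finsetSum_coeff, Polynomial.coeff_C_mul_X_pow]
      rw [Finset.sum_eq_single l]
      · simp
      · intro b _ hb
        rw [if_neg]
        intro h2
        exact hb (Fin.ext h2.symm)
      · intro h2
        exact absurd (Finset.mem_univ l) h2
    rw [hQ, Polynomial.coeff_zero] at h1
    exact (mul_eq_zero.1 h1.symm).resolve_right (pow_ne_zero _ hz)
  -- algebraic independence
  have hB : ∀ l p, ∑ d : Fin (D.dq * k), D.ψ (ξ (p, l, d)) * D.X ^ (d : ℕ) = 0 := by
    intro l
    let e : (Fin 2 → Fin L) → (Fin 2 →₀ ℕ) := fun p =>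
      Finsupp.equivFunOnFinite.symm (fun i => (p i : ℕ))
    have he : ∀ p i, e p i = (p i : ℕ) := fun p i => rfl
    let R : MvPolynomial (Fin 2) ℂ := ∑ p : Fin 2 → Fin L,
      monomial (e p) (∑ d : Fin (D.dq * k), D.ψ (ξ (p, l, d)) * D.X ^ (d : ℕ))
    have hR : R = 0 := by
      apply D.y_ind
      intro z hz
      have h1 := hA z hz l
      have h2 : A l z = D.h z ^ (2 * L) * eval (fun i => D.u (D.y i) z / D.h z) R := by
        simp only [A, R, map_sum, eval_monomial]
        rw [Finset.mul_sum]
        refine Finset.sum_congr rfl fun p _ => ?_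
        rw [Finsupp.prod_fintype _ _ (by simp), ← Finset.sum_mul]
        simp only [he, div_pow, Finset.prod_div_distrib]
        rw [← Finset.sum_mul]
        rw [Finset.prod_pow_eq_pow_sum]
        have hs1 : ∑ i, (p i : ℕ) ≤ 2 * L := by
          calc ∑ i, (p i : ℕ) ≤ ∑ _i : Fin 2, L := Finset.sum_le_sum fun i _ => (p i).2.le
            _ = 2 * L := by simp
        have h3 : D.h z ^ (2 * L) = D.h z ^ (2 * L - ∑ i, (p i : ℕ)) * D.h z ^ (∑ i, (p i : ℕ)) := by
          rw [← pow_add]
          congr 1
          omega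
        rw [h3]
        have h4 : D.h z ^ (∑ i, (p i : ℕ)) ≠ 0 := pow_ne_zero _ hz
        have h5 : ∀ c U H1 H2 : ℂ, H2 ≠ 0 → c * (U * H1) = H1 * H2 * (c * (U / H2)) := by
          intro c U H1 H2 h
          field_simp
        exact h5 _ _ _ _ h4
      rw [h2] at h1
      exact (mul_eq_zero.1 h1).resolve_left (pow_ne_zero _ hz)
    intro p
    have h1 : coeff (e p) R = ∑ d : Fin (D.dq * k), D.ψ (ξ (p, l, d)) * D.X ^ (d : ℕ) := by
      simp only [R, coeff_sum, coeff_monomial]
      rw [Finset.sum_eq_single p]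
      · simp
      · intro b _ hb
        rw [if_neg]
        intro h2
        apply hb
        funext i
        apply Fin.ext
        have := DFunLike.congr_fun h2 i
        exact this
      · intro h2
        exact absurd (Finset.mem_univ p) h2
    rw [← h1, hR, coeff_zero]
  -- transcendence of X
  funext s
  obtain ⟨p, l, d⟩ := s
  have h1 := pne_transc D.em D.X_tr (fun d => algebraMap (𝓞 D.K) D.K (ξ (p, l, d))) (hB l p) d
  simp only [Pi.zero_apply]
  have h2 : algebraMap (𝓞 D.K) D.K (ξ (p, l, d)) = algebraMap (𝓞 D.K) D.K 0 := by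
    rw [h1, map_zero]
  exact RingOfIntegers.coe_injective h2

end Pool.Agent.KT
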