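import Pool.Agent.KT.StB

/-!
# KT: the auxiliary function is a section
-/

set_option autoImplicit false

open scoped BigOperators
open MvPolynomial NumberField

namespace Pool.Agent.KT

private theorem PSEC_S_diff {τ : Tor} (D : Dat τ) : Differentiable ℂ D.S := by
  have h : D.S = fun z => ∑ i, (D.q i).eval₂ D.ψ D.X * D.u i z := rfl
  rw [h]
  exact Differentiable.fun_sum fun i _ => (D.u_ent i).const_mul _

private theorem PSEC_S_quasi {τ : Tor} (D : Dat τ) (i : Fin 3) (z : ℂ × ℂ) :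
    D.S (z + τ.γ i) = D.cc i * τ.ml (Real.pi / 2) i z * D.S z := D.S_quasi i z

private theorem PSEC_ml {τ : Tor} (L k : ℕ) (i : Fin 3) (z : ℂ × ℂ) :
    τ.ml (Real.pi / 2) i z ^ (2 * L + k) =
      Complex.exp (2 * (kap L k : ℝ) * (ip z (τ.γ i) + nsq (τ.γ i) / 2)) := by
  unfold Tor.ml
  rw [← Complex.exp_nat_mul]
  congr 1
  unfold kap
  push_cast
  ring

/-- the auxiliary function is a section -/
theorem thm_PSEC {τ : Tor} (D : Dat τ) : St_PSEC D := by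
  intro L k ξ
  have hΦ : D.Φ L k ξ = fun z => ∑ s : D.Ix L k, D.ψ (ξ s) * D.X ^ (s.2.2 : ℕ) *
    ((∏ i, D.u (D.y i) z ^ (s.1 i : ℕ)) * D.h z ^ (2 * L - ∑ i, (s.1 i : ℕ))) *
    (D.S z ^ (s.2.1 : ℕ) * D.h z ^ (k - (s.2.1 : ℕ))) := rfl
  refine ⟨?_, fun i => ⟨D.cc i ^ (2 * L + k), ?_, fun z => ?_⟩⟩
  · rw [hΦ]
    refine Differentiable.fun_sum fun s _ => ?_
    refine Differentiable.mul (Differentiable.const_mul ?_ _) ?_
    · refine Differentiable.mul ?_ (D.h_ent.pow _)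
      rw [show (fun z => ∏ j, D.u (D.y j) z ^ (s.1 j : ℕ)) = fun z =>
        D.u (D.y 0) z ^ (s.1 0 : ℕ) * D.u (D.y 1) z ^ (s.1 1 : ℕ) from
          funext fun z => Fin.prod_univ_two _]
      exact ((D.u_ent (D.y 0)).pow _).mul ((D.u_ent (D.y 1)).pow _)
    · exact ((PSEC_S_diff D).pow _).mul (D.h_ent.pow _)
  · rw [norm_pow, D.cc_norm, one_pow]
  · rw [hΦ]
    show (∑ s : D.Ix L k, _) = _ * ∑ s : D.Ix L k, _
    rw [Finset.mul_sum]
    refine Finset.sum_congr rfl fun s _ => ?_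
    rw [PSEC_S_quasi, D.h_quasi, ← PSEC_ml]
    have h1 : (∏ j, D.u (D.y j) (z + τ.γ i) ^ (s.1 j : ℕ)) =
        (D.cc i * τ.ml (Real.pi / 2) i z) ^ (∑ j, (s.1 j : ℕ)) *
          ∏ j, D.u (D.y j) z ^ (s.1 j : ℕ) := by
      rw [← Finset.prod_pow_eq_pow_sum, ← Finset.prod_mul_distrib]
      refine Finset.prod_congr rfl fun j _ => ?_
      rw [D.y_quasi, mul_pow]
    have h2 : ∑ j, (s.1 j : ℕ) ≤ 2 * L := by
      have h3 : ∑ j, (s.1 j : ℕ) ≤ ∑ _j : Fin 2, L :=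
        Finset.sum_le_sum fun j _ => (s.1 j).2.le
      rwa [Finset.sum_const, Finset.card_univ, Fintype.card_fin, smul_eq_mul] at h3
    have h4 : (s.2.1 : ℕ) ≤ k := s.2.1.2.le
    obtain ⟨N, hN⟩ := Nat.exists_eq_add_of_le h2
    obtain ⟨M, hM⟩ := Nat.exists_eq_add_of_le h4
    have e1 : 2 * L - ∑ j, (s.1 j : ℕ) = N := by omega
    have e2 : k - (s.2.1 : ℕ) = M := by omega
    have e3 : 2 * L + k = ∑ j, (s.1 j : ℕ) + N + ((s.2.1 : ℕ) + M) := by omega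
    rw [h1, e1, e2, ← mul_pow, e3]
    generalize D.cc i * τ.ml (Real.pi / 2) i z = c
    simp only [pow_add, mul_pow]
    ring

end Pool.Agent.KT
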