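import Pool.Agent.KT.StB

/-!
# KT: PSHE, the translates of the auxiliary function
-/

set_option autoImplicit false

open scoped BigOperators
open MvPolynomial NumberField
open Pool.Agent.Helper8 (dd dds Van)

namespace Pool.Agent.KT

variable {τ : Tor}

private theorem PSHE_S_mul (D : Dat τ) (z : ℂ × ℂ) :
    D.S (z + D.m) = D.e z * (D.S z + D.β * D.h z) := D.S_mul z

private theorem PSHE_nat (D : Dat τ) (z : ℂ × ℂ) (n : ℕ) :
    ∃ c : ℂ, ‖c‖ = Real.exp (Real.pi / 2 * (nsq (z + (n : ℤ) • D.m) - nsq z)) ∧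
      D.h (z + (n : ℤ) • D.m) = c * D.h z ∧
      (∀ i, D.u (D.y i) (z + (n : ℤ) • D.m) = c * D.u (D.y i) z) ∧
      D.S (z + (n : ℤ) • D.m) = c * (D.S z + (n : ℂ) * D.β * D.h z) := by
  induction n with
  | zero => exact ⟨1, by simp, by simp, fun i => by simp, by simp⟩
  | succ n ih =>
    obtain ⟨c, h1, h2, h3, h4⟩ := ih
    have hz : z + ((n + 1 : ℕ) : ℤ) • D.m = (z + (n : ℤ) • D.m) + D.m := by
      push_cast
      rw [add_smul, one_smul, add_assoc]
    refine ⟨D.e (z + (n : ℤ) • D.m) * c, ?_, ?_, fun i => ?_, ?_⟩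
    · rw [hz, norm_mul, D.e_norm, h1, ← Real.exp_add]
      congr 1
      ring
    · rw [hz, D.h_mul, h2, mul_assoc]
    · rw [hz, D.y_mul, h3, mul_assoc]
    · rw [hz, PSHE_S_mul, h4, h2]
      push_cast
      ring

private theorem PSHE_int (D : Dat τ) (z : ℂ × ℂ) (n : ℤ) :
    ∃ c : ℂ, ‖c‖ = Real.exp (Real.pi / 2 * (nsq (z + n • D.m) - nsq z)) ∧
      D.h (z + n • D.m) = c * D.h z ∧
      (∀ i, D.u (D.y i) (z + n • D.m) = c * D.u (D.y i) z) ∧
      D.S (z + n • D.m) = c * (D.S z + (n : ℂ) * D.β * D.h z) := by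
  obtain ⟨k, rfl | rfl⟩ := n.eq_nat_or_neg
  · obtain ⟨c, h1, h2, h3, h4⟩ := PSHE_nat D z k
    exact ⟨c, h1, h2, h3, by rw [h4]; push_cast; ring⟩
  · obtain ⟨c, h1, h2, h3, h4⟩ := PSHE_nat D (z + (-(k : ℤ)) • D.m) k
    have hz : z + (-(k : ℤ)) • D.m + (k : ℤ) • D.m = z := by
      rw [neg_smul, neg_add_cancel_right]
    rw [hz] at h1 h2 h3 h4
    have hc : c ≠ 0 := by
      intro h
      rw [h, norm_zero] at h1
      exact (Real.exp_ne_zero _) h1.symm
    have h2' : D.h (z + (-(k : ℤ)) • D.m) = c⁻¹ * D.h z := by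
      rw [h2, inv_mul_cancel_left₀ hc]
    refine ⟨c⁻¹, ?_, h2', fun i => ?_, ?_⟩
    · rw [norm_inv, h1, ← Real.exp_neg]
      congr 1
      ring
    · rw [h3 i, inv_mul_cancel_left₀ hc]
    · have h5 : D.S (z + (-(k : ℤ)) • D.m) =
          c⁻¹ * (c * (D.S (z + (-(k : ℤ)) • D.m) +
            (k : ℂ) * D.β * D.h (z + (-(k : ℤ)) • D.m))) -
            (k : ℂ) * D.β * D.h (z + (-(k : ℤ)) • D.m) := by
        rw [inv_mul_cancel_left₀ hc]
        ring
      rw [h5, ← h4, h2']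
      push_cast
      ring

/-- the translates of the auxiliary function are given by polynomials -/
theorem thm_PSHE {τ : Tor} (D : Dat τ) : St_PSHE D := by
  intro L k ξ hk z
  refine ⟨Polynomial.C ((Real.exp (-(kap L k * nsq z)) : ℝ) : ℂ) *
    ∑ s : D.Ix L k, Polynomial.C (D.ψ (ξ s) * D.X ^ (s.2.2 : ℕ) *
      ((∏ i, D.u (D.y i) z ^ (s.1 i : ℕ)) * D.h z ^ (2 * L - ∑ i, (s.1 i : ℕ))) *
      D.h z ^ (k - (s.2.1 : ℕ))) *
      (Polynomial.C (D.S z) + Polynomial.C (D.β * D.h z) * Polynomial.X) ^ (s.2.1 : ℕ), ?_, ?_⟩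
  · refine lt_of_le_of_lt (Polynomial.natDegree_C_mul_le _ _) ?_
    refine lt_of_le_of_lt (b := k - 1) ?_ (by omega)
    refine Polynomial.natDegree_sum_le_of_forall_le _ _ fun s _ => ?_
    refine (Polynomial.natDegree_C_mul_le _ _).trans ?_
    refine Polynomial.natDegree_pow_le.trans ?_
    have h1 : (Polynomial.C (D.S z) + Polynomial.C (D.β * D.h z) * Polynomial.X).natDegree ≤ 1 := by
      rw [add_comm]
      exact Polynomial.natDegree_linear_le
    have h2 : (s.2.1 : ℕ) < k := s.2.1.isLt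
    calc _ ≤ (s.2.1 : ℕ) * 1 := Nat.mul_le_mul_left _ h1
      _ ≤ k - 1 := by omega
  · intro n
    obtain ⟨c, h1, h2, h3, h4⟩ := PSHE_int D z n
    have hΦ : D.Φ L k ξ (z + n • D.m) = c ^ (2 * L + k) *
        ∑ s : D.Ix L k, (D.ψ (ξ s) * D.X ^ (s.2.2 : ℕ) *
      ((∏ i, D.u (D.y i) z ^ (s.1 i : ℕ)) * D.h z ^ (2 * L - ∑ i, (s.1 i : ℕ))) *
      D.h z ^ (k - (s.2.1 : ℕ))) * (D.S z + (D.β * D.h z) * (n : ℂ)) ^ (s.2.1 : ℕ) := by
      unfold Dat.Φ
      rw [Finset.mul_sum]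
      refine Finset.sum_congr rfl fun s _ => ?_
      rw [h2, h4]
      simp only [h3, mul_pow, Finset.prod_mul_distrib, Finset.prod_pow_eq_pow_sum]
      have e1 : (∑ i, (s.1 i : ℕ)) ≤ 2 * L := by
        calc (∑ i, (s.1 i : ℕ)) ≤ ∑ _i : Fin 2, L := Finset.sum_le_sum fun i _ => (s.1 i).isLt.le
          _ = 2 * L := by simp
      have e2 : (s.2.1 : ℕ) ≤ k := s.2.1.isLt.le
      have e3 : c ^ (2 * L + k) = c ^ (∑ i, (s.1 i : ℕ)) * c ^ (2 * L - ∑ i, (s.1 i : ℕ)) *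
          (c ^ (s.2.1 : ℕ) * c ^ (k - (s.2.1 : ℕ))) := by
        rw [← pow_add, ← pow_add, ← pow_add]
        congr 1
        omega
      rw [e3]
      have e4 : D.S z + D.β * D.h z * (n : ℂ) = D.S z + (n : ℂ) * D.β * D.h z := by ring
      rw [e4]
      ring
    unfold nrm
    rw [hΦ]
    simp only [Polynomial.eval_mul, Polynomial.eval_C, Polynomial.eval_finsetSum,
      Polynomial.eval_pow, Polynomial.eval_add, Polynomial.eval_X]
    rw [norm_mul, norm_mul, norm_pow, h1, Complex.norm_real, Real.norm_eq_abs,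
      abs_of_pos (Real.exp_pos _), ← Real.exp_nat_mul]
    rw [mul_right_comm, ← Real.exp_add]
    congr 2
    unfold kap
    push_cast
    ring

end Pool.Agent.KT
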