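import Pool.Agent.KT.PSIE

/-!
# KT: the values of the derivatives of minimal order of the auxiliary function
-/

set_option autoImplicit false

open scoped BigOperators Topology
open MvPolynomial NumberField
open Pool.Agent.Helper8

namespace Pool.Agent.KT

variable {τ : Tor}

theorem thm_PVAL (D : Dat τ) : St_PVAL D := by
  classical
  obtain ⟨m, hm⟩ := PSIE_bound D
  obtain ⟨m1, hm1⟩ := PSIE_pow (D.dq : ℝ)
  refine ⟨((m1 + 4 + m : ℕ) : ℝ), ?_, fun L k ξ B w hL hk hB hv => ?_⟩
  · exact_mod_cast (by omega : 1 ≤ m1 + 4 + m)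
  set n := w.length + L + k with hn
  have hn2 : 2 ≤ n := by omega
  have hn1 : (1 : ℝ) ≤ n := by
    have : 1 ≤ n := by omega
    exact_mod_cast this
  have hdq := PSIE_dq_pos D
  have hB0 : 0 ≤ B := (house_nonneg _).trans
    (hB (fun _ => ⟨0, hL⟩, ⟨0, hk⟩, ⟨0, by positivity⟩))
  set γ : ℕ → 𝓞 D.K := fun j => eval D.val (derw D.P w (PSIE_Q D L k ξ j)) with hγ
  have hcoef : ∀ i, (∑ j ∈ Finset.range (2 * D.dq * k),
      Polynomial.C (γ j) * Polynomial.X ^ j).coeff i =
      if i < 2 * D.dq * k then γ i else 0 := by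
    intro i
    simp [Polynomial.coeff_X_pow]
  refine ⟨∑ j ∈ Finset.range (2 * D.dq * k), Polynomial.C (γ j) * Polynomial.X ^ j,
    ?_, fun i => ?_, ?_⟩
  · apply Polynomial.natDegree_sum_le_of_forall_le
    intro j hj
    exact (Polynomial.natDegree_C_mul_X_pow_le _ _).trans (Finset.mem_range.mp hj).le
  · rw [hcoef, ← PSIE_exp n (m1 + 4 + m) hn2]
    split_ifs with hi
    · have h1 : γ i = ∑ s : D.Ix L k, ξ s * eval D.val (derw D.P w (PSIE_m D L k i s)) := by
        simp only [hγ]
        unfold PSIE_Q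
        rw [derw_sum, map_sum]
        apply Finset.sum_congr rfl
        intro s _
        rw [map_mul, eval_C]
      rw [h1, map_sum]
      have h4 := PSIE_card D L k n (by omega) (by omega)
      calc house (∑ s : D.Ix L k, algebraMap (𝓞 D.K) D.K
            (ξ s * eval D.val (derw D.P w (PSIE_m D L k i s))))
          ≤ ∑ s : D.Ix L k, house (algebraMap (𝓞 D.K) D.K
            (ξ s * eval D.val (derw D.P w (PSIE_m D L k i s)))) := house_sum_le_sum_house _ _
        _ ≤ ∑ _s : D.Ix L k, B * (n : ℝ) ^ (m * n) := by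
            apply Finset.sum_le_sum
            intro s _
            rw [map_mul]
            refine (house_mul_le _ _).trans ?_
            exact mul_le_mul (hB s) (hm L k i s w n hn2 (by omega)) (house_nonneg _) hB0
        _ = (Fintype.card (D.Ix L k) : ℝ) * (B * (n : ℝ) ^ (m * n)) := by
            rw [Finset.sum_const, Finset.card_univ, nsmul_eq_mul]
        _ ≤ ((D.dq : ℝ) * (n : ℝ) ^ 4) * (B * (n : ℝ) ^ (m * n)) := by gcongr
        _ ≤ ((n : ℝ) ^ m1 * (n : ℝ) ^ 4) * (B * (n : ℝ) ^ (m * n)) := by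
            have := hm1 n hn2
            gcongr
        _ = B * (n : ℝ) ^ (m1 + 4 + m * n) := by rw [pow_add, pow_add]; ring
        _ ≤ B * (n : ℝ) ^ ((m1 + 4 + m) * n) := by
            have : (n : ℝ) ^ (m1 + 4 + m * n) ≤ (n : ℝ) ^ ((m1 + 4 + m) * n) :=
              pow_le_pow_right₀ hn1 (by nlinarith)
            gcongr
    · rw [map_zero]
      have : house (0 : D.K) = 0 := by
        simp [house]
      rw [this]
      positivity
  · have h1 : (∑ j ∈ Finset.range (2 * D.dq * k),
        Polynomial.C (γ j) * Polynomial.X ^ j).eval₂ D.ψ D.X =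
        dds (w.map D.dir) (PSIE_G D L k ξ) 0 := by
      rw [PSIE_dds_G, Polynomial.eval₂_finsetSum]
      apply Finset.sum_congr rfl
      intro j _
      rw [Polynomial.eval₂_mul, Polynomial.eval₂_C, Polynomial.eval₂_pow, Polynomial.eval₂_X,
        mul_comm]
    rw [h1]
    have hG := PSIE_G_an D L k ξ
    have hh : AnalyticAt ℂ (fun z => D.h z ^ (2 * L + k)) 0 := (PSIE_an D.h_ent 0).pow _
    have hev : D.Φ L k ξ =ᶠ[𝓝 0] (fun z => D.h z ^ (2 * L + k)) * PSIE_G D L k ξ := by
      filter_upwards [(PSIE_open D).mem_nhds D.h_zero] with z hz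
      rw [Pi.mul_apply, PSIE_Phi_eq D L k ξ z hz]
    have hvG : Van w.length (PSIE_G D L k ξ) 0 := by
      have h2 : (fun z => (D.h z ^ (2 * L + k))⁻¹) * D.Φ L k ξ =ᶠ[𝓝 0] PSIE_G D L k ξ := by
        filter_upwards [(PSIE_open D).mem_nhds D.h_zero] with z hz
        rw [Pi.mul_apply, PSIE_Phi_eq D L k ξ z hz]
        have : D.h z ^ (2 * L + k) ≠ 0 := pow_ne_zero _ hz
        field_simp
      exact PSIE_van_congr h2 (Van.mul (hh.inv (pow_ne_zero _ D.h_zero))
        (PSIE_Phi_an D L k ξ 0) hv)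
    rw [(dds_congr hev (w.map D.dir)).self_of_nhds,
      dds_mul_of_van (w.map D.dir) hh hG (by rw [List.length_map]; exact hvG)]
    ring

end Pool.Agent.KT
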