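import Pool.Agent.KT.ZE
import Pool.Agent.KT.PSEC
import Pool.Agent.KT.PSHE
import Pool.Agent.KT.PNE
import Pool.Agent.KT.PGRO
import Pool.Agent.KT.PVAL
import Pool.Agent.KT.VO
import Pool.Agent.KT.CAU
import Pool.Agent.KT.LAG
import Pool.Agent.KT.GELF

/-!
KT: there are no data, from Lemma S (helper8).  Parameters `L = 2 * 2^N`, `k = N^4`,
`T = 2^N * N^2`.
-/

set_option autoImplicit false

open scoped BigOperators
open Filter NumberField
open Pool.Agent.Helper8 (dd dds Van)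

namespace Pool.Agent.KT

theorem nd_log {M n Q x : ℝ} (hM : 1 ≤ M) (hn : 1 ≤ n) (hQ : 0 < Q) (hQl : Real.log Q ≤ n)
    (hx1 : 1 ≤ x) (hx : x ≤ 11 * M * Q * n ^ 2) :
    x * Real.log x ≤ 154 * M ^ 2 * Q * n ^ 3 := by
  have h1 : Real.log x ≤ 14 * M * n := by
    have h2 : Real.log x ≤ Real.log (11 * M * Q * n ^ 2) := Real.log_le_log (by linarith) hx
    have h3 : Real.log (11 * M * Q * n ^ 2) = Real.log (11 * M) + Real.log Q + 2 * Real.log n := by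
      rw [Real.log_mul (by positivity) (by positivity), Real.log_mul (by positivity) hQ.ne',
        Real.log_pow]
      push_cast
      ring
    have h4 : Real.log (11 * M) ≤ 11 * M := Real.log_le_self (by positivity)
    have h5 : Real.log n ≤ n := Real.log_le_self (by positivity)
    have h6 : M ≤ M * n := le_mul_of_one_le_right (by linarith) hn
    have h7 : n ≤ M * n := le_mul_of_one_le_left (by linarith) hM
    rw [h3] at h2
    linarith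
  have h0 : 0 ≤ Real.log x := Real.log_nonneg hx1
  calc x * Real.log x ≤ (11 * M * Q * n ^ 2) * (14 * M * n) :=
        mul_le_mul hx h1 h0 (by positivity)
    _ = _ := by ring

theorem nd_growth {M n Q k r : ℝ} (hM : 1 ≤ M) (hn : 1 ≤ n) (hnQ : n ^ 4 ≤ Q) (hk : k = n ^ 4)
    (hr1 : 1 ≤ r) (hr : r ≤ 65 * M ^ 3 * n ^ 4) :
    k * Real.log r ≤ 69 * M ^ 3 * Q * n ^ 3 := by
  have h1 : Real.log r ≤ 69 * M ^ 3 * n := by
    have h2 : Real.log r ≤ Real.log (65 * M ^ 3 * n ^ 4) := Real.log_le_log (by linarith) hr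
    have h3 : Real.log (65 * M ^ 3 * n ^ 4) = Real.log (65 * M ^ 3) + 4 * Real.log n := by
      rw [Real.log_mul (by positivity) (by positivity), Real.log_pow]
      push_cast
      ring
    have h4 : Real.log (65 * M ^ 3) ≤ 65 * M ^ 3 := Real.log_le_self (by positivity)
    have h5 : Real.log n ≤ n := Real.log_le_self (by positivity)
    have hM3 : 1 ≤ M ^ 3 := one_le_pow₀ hM
    have h6 : M ^ 3 ≤ M ^ 3 * n := le_mul_of_one_le_right (by linarith) hn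
    have h7 : n ≤ M ^ 3 * n := le_mul_of_one_le_left (by linarith) hM3
    rw [h3] at h2
    linarith
  have h0 : 0 ≤ Real.log r := Real.log_nonneg hr1
  have hQ0 : 0 ≤ Q := le_trans (by positivity) hnQ
  have hn3 : n ≤ n ^ 3 := by nlinarith [sq_nonneg n, mul_nonneg (by linarith : (0:ℝ) ≤ n) (by linarith : (0:ℝ) ≤ n)]
  calc k * Real.log r ≤ Q * (69 * M ^ 3 * n) := by
        rw [hk]
        exact mul_le_mul hnQ h1 h0 hQ0
    _ = 69 * M ^ 3 * Q * n := by ring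
    _ ≤ 69 * M ^ 3 * Q * n ^ 3 := by gcongr

theorem nd_kap {Q n κ : ℝ} (hQ : 0 < Q) (hn : n ^ 4 ≤ Q) (h : κ = (4 * Q + n ^ 4) * (Real.pi / 2)) :
    Q ≤ κ ∧ κ ≤ 8 * Q := by
  have h1 := Real.pi_gt_three
  have h2 := Real.pi_lt_d2
  have h0 : 0 ≤ n ^ 4 := by positivity
  constructor
  · rw [h]
    nlinarith
  · rw [h]
    nlinarith

theorem nd_sum {M Q n t : ℝ} (hM : 1 ≤ M) (hQ : 0 < Q) (hn : 1 ≤ n) (hnQ : n ^ 4 ≤ Q)
    (ht : t ≤ 8 * M * Q * n ^ 2) : t + 2 * Q + n ^ 4 ≤ 11 * M * Q * n ^ 2 := by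
  have h1 : Q ≤ M * Q * n ^ 2 := by
    have h2 : Q ≤ M * Q := le_mul_of_one_le_left hQ.le hM
    exact h2.trans (le_mul_of_one_le_right (by positivity) (one_le_pow₀ hn))
  linarith

theorem nd_ht {κ' : ℝ} (hκ : κ' ≤ 1) (z : ℂ × ℂ) (hz : nsq z ≤ κ') : |ht z| ≤ 1 := by
  have h2 : |ht z| ≤ ‖z.1‖ := Complex.abs_im_le_norm z.1
  have h3 : ‖z.1‖ ^ 2 ≤ 1 := by
    unfold nsq at hz
    nlinarith [sq_nonneg ‖z.2‖]
  have h4 : ‖z.1‖ ≤ 1 := by
    by_contra h5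
    push Not at h5
    nlinarith [norm_nonneg z.1]
  linarith

theorem nd_one {c n t : ℝ} (hc : 0 < c) (hn : 1 ≤ n) (h : 64 / c + 1 ≤ n) (ht : n ^ 2 / 8 ≤ t) :
    1 ≤ c * t ^ 2 := by
  have h3 : 64 / c ≤ n ^ 4 := by
    have : n ≤ n ^ 4 := by
      have := pow_le_pow_right₀ hn (show 1 ≤ 4 by norm_num)
      simpa using this
    linarith
  rw [div_le_iff₀ hc] at h3
  have h4 : (n ^ 2 / 8) ^ 2 ≤ t ^ 2 := pow_le_pow_left₀ (by positivity) ht 2
  have h5 : c * (n ^ 2 / 8) ^ 2 ≤ c * t ^ 2 := mul_le_mul_of_nonneg_left h4 hc.le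
  have h6 : c * (n ^ 2 / 8) ^ 2 = n ^ 4 * c / 64 := by ring
  rw [h6] at h5
  linarith

theorem nd_gain {c Q n κ t : ℝ} (hc : 0 < c) (hQ : 0 < Q) (hκ0 : 0 < κ) (hκ : κ ≤ 8 * Q)
    (ht : Q * n ^ 2 ≤ t) : c * (Q * n ^ 8) / 512 ≤ c * t ^ 4 / κ ^ 3 := by
  rw [le_div_iff₀ (by positivity)]
  have h4 : κ ^ 3 ≤ (8 * Q) ^ 3 := pow_le_pow_left₀ hκ0.le hκ 3
  have h5 : (Q * n ^ 2) ^ 4 ≤ t ^ 4 := pow_le_pow_left₀ (by positivity) ht 4
  calc c * (Q * n ^ 8) / 512 * κ ^ 3 ≤ c * (Q * n ^ 8) / 512 * (8 * Q) ^ 3 :=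
        mul_le_mul_of_nonneg_left h4 (by positivity)
    _ = c * (Q * n ^ 2) ^ 4 := by ring
    _ ≤ c * t ^ 4 := mul_le_mul_of_nonneg_left h5 hc.le

theorem nd_fin {c M Q n : ℝ} (hc : 0 < c) (hM : 1 ≤ M) (hQ : 0 < Q) (hn : 1 ≤ n)
    (h : 605184 * M ^ 3 / c + 1 ≤ n) :
    393 * (M ^ 3 * Q * n ^ 3) ≤ c * (Q * n ^ 8) / 1024 := by
  have e1 : 605184 * M ^ 3 / c ≤ n ^ 5 := by
    have : n ≤ n ^ 5 := by
      have := pow_le_pow_right₀ hn (show 1 ≤ 5 by norm_num)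
      simpa using this
    linarith
  rw [div_le_iff₀ hc] at e1
  have e2 : 605184 * M ^ 3 * (Q * n ^ 3) ≤ n ^ 5 * c * (Q * n ^ 3) :=
    mul_le_mul_of_nonneg_right e1 (by positivity)
  have e3 : n ^ 5 * c * (Q * n ^ 3) = c * (Q * n ^ 8) := by ring
  rw [e3] at e2
  have e4 : 0 ≤ M ^ 3 * (Q * n ^ 3) := by positivity
  have e5 : M ^ 3 * Q * n ^ 3 = M ^ 3 * (Q * n ^ 3) := by ring
  rw [e5]
  linarith

theorem nd_low {M Q a : ℝ} {m : ℕ} (ha : 0 < a) (hla : |Real.log a| ≤ M) (hm : (m : ℝ) ≤ 5 * Q)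
    (hM : 0 ≤ M) : Real.exp (-(5 * M * Q)) ≤ a ^ m := by
  rw [← Real.exp_log (pow_pos ha m), Real.log_pow]
  refine Real.exp_le_exp.2 ?_
  have h4 : -M ≤ Real.log a := by
    have := neg_abs_le (Real.log a)
    linarith
  have h5 : (0 : ℝ) ≤ (m : ℝ) := Nat.cast_nonneg _
  have h6 : (m : ℝ) * (-M) ≤ m * Real.log a := mul_le_mul_of_nonneg_left h4 h5
  have h7 : (m : ℝ) * M ≤ 5 * Q * M := mul_le_mul_of_nonneg_right hm hM
  linarith

theorem nd_alg (M q Q n c : ℝ) (hq : 0 < q) (hM : 1 ≤ M) :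
    c / (1024 * (2 * q) * (308 * M ^ 3 + 2 * q)) * n * (2 * q * n ^ 4) *
      ((308 * M ^ 3 + 2 * q) * (Q * n ^ 3)) = c * (Q * n ^ 8) / 1024 := by
  have e1 : 308 * M ^ 3 + 2 * q ≠ 0 := by positivity
  field_simp

theorem nd_div {a b x : ℝ} (h : a * Real.exp (-x) ≤ b) : a ≤ b * Real.exp x := by
  rw [Real.exp_neg, ← div_eq_mul_inv, div_le_iff₀ (Real.exp_pos _)] at h
  exact h

/-- **there are no data**, from Lemma S -/
theorem thm_NODAT (hS : ∀ τ : Tor, St_S τ) (τ : Tor) (D : Dat τ) : False := by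
  obtain ⟨CZ, hCZ1, hZE⟩ := thm_ZE τ (hS τ) thm_LAG D.m D.m_ht
  obtain ⟨c₁, c₂, CL, hc₁, hc₂, hcc, hCL1, hLS⟩ := hS τ
  obtain ⟨CS, hCS1, hPS⟩ := thm_PSIE D
  obtain ⟨CG, hCG1, hPG⟩ := thm_PGRO D
  obtain ⟨CV, hCV1, hPV⟩ := thm_PVAL D
  obtain ⟨CC, hCC1, hCAU⟩ := thm_CAU D.dir
  -- one constant
  obtain ⟨M, hM1, hMS, hMG, hMZ, hMV, hMC, hML, hM1', hMh⟩ : ∃ M : ℝ, 1 ≤ M ∧ CS ≤ M ∧ CG ≤ M ∧
      CZ ≤ M ∧ CV ≤ M ∧ CC ≤ M ∧ CL ≤ M ∧ c₁ ≤ M ∧ |Real.log ‖D.h 0‖| ≤ M := by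
    refine ⟨CS + CG + CZ + CV + CC + CL + c₁ + |Real.log ‖D.h 0‖|, ?_, ?_, ?_, ?_, ?_, ?_, ?_, ?_, ?_⟩
    all_goals
      have := abs_nonneg (Real.log ‖D.h 0‖)
      linarith
  set q : ℝ := (D.dq : ℝ) with hq
  have hq1 : 1 ≤ q := by
    rw [hq]
    exact_mod_cast Nat.le_add_left 1 _
  -- the conditions on `N`
  have ev1 : ∀ᶠ N : ℕ in atTop, (N : ℝ) ^ 4 ≤ 2 ^ N := by
    have h := (tendsto_pow_const_div_const_pow_of_one_lt 4 (r := (2 : ℝ)) one_lt_two)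
    have h2 := h.eventually_le_const (u := 1) one_pos
    filter_upwards [h2] with N hN
    rwa [div_le_one (by positivity)] at hN
  have htop : Tendsto (fun N : ℕ => (N : ℝ)) atTop atTop := tendsto_natCast_atTop_atTop
  have ev2 : ∀ᶠ N : ℕ in atTop, max (8 * M) (max (64 / c₂) (605184 * M ^ 3 / c₂)) + 1 ≤ (N : ℝ) :=
    htop.eventually_ge_atTop _
  obtain ⟨N₀, hN₀⟩ := ((ev1.and ev2).and (eventually_ge_atTop 1)).exists_forall_of_atTop
  refine thm_GELF D.K D.em D.X 16 (fun N => 2 * q * (N : ℝ) ^ 4)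
    (fun N => (308 * M ^ 3 + 2 * q) * (2 ^ N * (N : ℝ) ^ 3))
    (fun N => c₂ / (1024 * (2 * q) * (308 * M ^ 3 + 2 * q)) * N) N₀ D.X_tr ?_ ?_ ?_
  · refine ⟨?_, ?_, ?_, ?_, ?_, ?_, ?_⟩
    · intro N hN
      have h1 : (1 : ℝ) ≤ N := by exact_mod_cast (hN₀ N hN).2
      have h2 : (1 : ℝ) ≤ (N : ℝ) ^ 4 := one_le_pow₀ h1
      nlinarith
    · intro N hN
      have h1 : (1 : ℝ) ≤ N := by exact_mod_cast (hN₀ N hN).2
      have h2 : (1 : ℝ) ≤ (N : ℝ) ^ 3 := one_le_pow₀ h1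
      have h3 := (hN₀ N hN).1.1
      have h4 : (0 : ℝ) < 2 ^ N := by positivity
      have h5 : (N : ℝ) ^ 4 ≤ 2 ^ N * (N : ℝ) ^ 3 := h3.trans (le_mul_of_one_le_right h4.le h2)
      have h6 : 0 ≤ M ^ 3 := by positivity
      have h7 : 0 ≤ 2 ^ N * (N : ℝ) ^ 3 := by positivity
      calc 2 * q * (N : ℝ) ^ 4 ≤ 2 * q * (2 ^ N * (N : ℝ) ^ 3) := by gcongr
        _ ≤ (308 * M ^ 3 + 2 * q) * (2 ^ N * (N : ℝ) ^ 3) := by
            refine mul_le_mul_of_nonneg_right ?_ h7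
            linarith
    · intro N _
      push_cast
      have : (N : ℝ) ^ 4 ≤ ((N : ℝ) + 1) ^ 4 := pow_le_pow_left₀ (Nat.cast_nonneg _) (by linarith) 4
      gcongr
    · intro N _
      push_cast
      have h1 : (N : ℝ) ^ 3 ≤ ((N : ℝ) + 1) ^ 3 := pow_le_pow_left₀ (Nat.cast_nonneg _) (by linarith) 3
      have h2 : (2 : ℝ) ^ N ≤ 2 ^ (N + 1) := pow_le_pow_right₀ one_le_two (Nat.le_succ N)
      have h6 : 0 ≤ 308 * M ^ 3 + 2 * q := by positivity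
      gcongr
    · intro N hN
      have h1 : (1 : ℝ) ≤ N := by exact_mod_cast (hN₀ N hN).2
      push_cast
      have h2 : ((N : ℝ) + 1) ^ 4 ≤ (2 * (N : ℝ)) ^ 4 := pow_le_pow_left₀ (by positivity) (by linarith) 4
      have h3 : (2 * (N : ℝ)) ^ 4 = 16 * (N : ℝ) ^ 4 := by ring
      rw [h3] at h2
      calc 2 * q * ((N : ℝ) + 1) ^ 4 ≤ 2 * q * (16 * (N : ℝ) ^ 4) := by gcongr
        _ = _ := by ring
    · intro N hN
      have h1 : (1 : ℝ) ≤ N := by exact_mod_cast (hN₀ N hN).2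
      push_cast
      have h2 : ((N : ℝ) + 1) ^ 3 ≤ (2 * (N : ℝ)) ^ 3 := pow_le_pow_left₀ (by positivity) (by linarith) 3
      have h3 : (2 * (N : ℝ)) ^ 3 = 8 * (N : ℝ) ^ 3 := by ring
      rw [h3] at h2
      have h6 : 0 ≤ 308 * M ^ 3 + 2 * q := by positivity
      calc (308 * M ^ 3 + 2 * q) * (2 ^ (N + 1) * ((N : ℝ) + 1) ^ 3)
          ≤ (308 * M ^ 3 + 2 * q) * (2 ^ (N + 1) * (8 * (N : ℝ) ^ 3)) := by gcongr
        _ = _ := by rw [pow_succ]; ring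
    · refine tendsto_atTop_mono' _ ?_ htop
      filter_upwards [eventually_ge_atTop N₀] with N hN
      have h1 : (1 : ℝ) ≤ N := by exact_mod_cast (hN₀ N hN).2
      have h2 : (1 : ℝ) ≤ 2 ^ N := one_le_pow₀ one_le_two
      have h3 : (N : ℝ) ≤ (N : ℝ) ^ 3 := by
        have : (N : ℝ) ^ 1 ≤ (N : ℝ) ^ 3 := pow_le_pow_right₀ h1 (by norm_num)
        simpa using this
      have hM3 : 0 ≤ M ^ 3 := by positivity
      have h4 : (1 : ℝ) ≤ 308 * M ^ 3 + 2 * q := by linarith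
      have h5 : (N : ℝ) ≤ 2 ^ N * (N : ℝ) ^ 3 :=
        h3.trans (le_mul_of_one_le_left (by positivity) h2)
      exact h5.trans (le_mul_of_one_le_left (by positivity) h4)
  · exact Tendsto.const_mul_atTop (by positivity) htop
  · intro N hN
    obtain ⟨⟨hNQ, hbig⟩, hN1⟩ := hN₀ N hN
    set n : ℝ := (N : ℝ) with hn
    have hn1 : 1 ≤ n := by rw [hn]; exact_mod_cast hN1
    set Q : ℝ := (2 : ℝ) ^ N with hQ
    have hQ1 : 1 ≤ Q := one_le_pow₀ one_le_two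
    have hQ0 : 0 < Q := lt_of_lt_of_le one_pos hQ1
    have hM0 : (0 : ℝ) ≤ M := le_trans zero_le_one hM1
    have hQl : Real.log Q ≤ n := by
      rw [hQ, Real.log_pow]
      have h2 : Real.log 2 ≤ 1 := by linarith only [Real.log_two_lt_d9]
      exact (mul_le_mul_of_nonneg_left h2 (Nat.cast_nonneg N)).trans (mul_one (N : ℝ)).le
    have hm1 := le_max_left (8 * M) (max (64 / c₂) (605184 * M ^ 3 / c₂))
    have hm2 := le_max_right (8 * M) (max (64 / c₂) (605184 * M ^ 3 / c₂))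
    have hm3 := le_max_left (64 / c₂) (605184 * M ^ 3 / c₂)
    have hm4 := le_max_right (64 / c₂) (605184 * M ^ 3 / c₂)
    have hb1 : 8 * M + 1 ≤ n := by linarith only [hm1, hbig]
    have hb2 : 64 / c₂ + 1 ≤ n := by linarith only [hm2, hm3, hbig]
    have hb3 : 605184 * M ^ 3 / c₂ + 1 ≤ n := by linarith only [hm2, hm4, hbig]
    have hn2 : n ≤ n ^ 2 := by nlinarith only [hn1]
    have hn12 : 1 ≤ n ^ 2 := one_le_pow₀ hn1
    have hn13 : 1 ≤ n ^ 3 := one_le_pow₀ hn1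
    have hn14 : 1 ≤ n ^ 4 := one_le_pow₀ hn1
    set L : ℕ := 2 * 2 ^ N with hL
    set k : ℕ := N ^ 4 with hk
    set T : ℕ := 2 ^ N * N ^ 2 with hT
    have hL1 : 1 ≤ L := by
      rw [hL]
      have : 1 ≤ 2 ^ N := Nat.one_le_two_pow
      omega
    have hk1 : 1 ≤ k := Nat.one_le_pow _ _ hN1
    have hT1 : 1 ≤ T := Nat.one_le_iff_ne_zero.2 (by positivity)
    have hLr : (L : ℝ) = 2 * Q := by rw [hL]; push_cast; rfl
    have hkr : (k : ℝ) = n ^ 4 := by rw [hk]; push_cast; rfl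
    have hTr : (T : ℝ) = Q * n ^ 2 := by rw [hT]; push_cast; rfl
    have h4T : 4 * T ^ 2 ≤ L ^ 2 * k := by
      rw [hT, hL, hk]
      exact le_of_eq (by ring)
    obtain ⟨ξ, hξ0, hξv, hξh⟩ := hPS L k T hL1 hk1 hT1 h4T
    obtain ⟨z₀, hz₀⟩ := thm_PNE D L k ξ hξ0
    have hsec := thm_PSEC D L k ξ
    have hent : Differentiable ℂ (D.Φ L k ξ) := hsec.entire
    obtain ⟨T', hT'v, w, hwT, hw0⟩ := Helper8.exists_min_word D.dir (VO_an hent) ⟨z₀, hz₀⟩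
      D.dir_span
    have hTT' : T ≤ T' := by
      by_contra h
      push Not at h
      exact hw0 (hξv (w.map D.dir) (by rw [List.length_map, hwT]; exact h))
    have hvan : VanO (T' : ℝ) (D.Φ L k ξ) := thm_VO _ T' hent hT'v
    set κ : ℝ := kap L k with hκ
    have hκe : κ = (4 * Q + n ^ 4) * (Real.pi / 2) := by
      rw [hκ]
      unfold kap
      rw [hLr, hkr]
      ring
    obtain ⟨hκ1, hκ2⟩ := nd_kap hQ0 hNQ hκe
    have hκ0 : 0 < κ := lt_of_lt_of_le hQ0 hκ1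
    have hκ1' : 1 ≤ κ := le_trans hQ1 hκ1
    -- the zero estimate
    have hsq : Real.sqrt (k : ℝ) = n ^ 2 := by
      rw [hkr, show n ^ 4 = (n ^ 2) ^ 2 by ring, Real.sqrt_sq (by positivity)]
    have hT'2 : (T' : ℝ) ≤ 8 * M * Q * n ^ 2 := by
      have h1 := hZE κ T' k (D.Φ L k ξ) hκ1' hk1 hsec ⟨z₀, hz₀⟩ (thm_PSHE D L k ξ hk1) hvan
      rw [hsq] at h1
      calc (T' : ℝ) ≤ CZ * κ * n ^ 2 := h1
        _ ≤ M * (8 * Q) * n ^ 2 := by
            refine mul_le_mul_of_nonneg_right ?_ (by positivity)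
            exact mul_le_mul hMZ hκ2 hκ0.le hM0
        _ = _ := by ring
    have hT'1 : Q * n ^ 2 ≤ (T' : ℝ) := by
      rw [← hTr]
      exact_mod_cast hTT'
    -- the sizes
    set E : ℝ := 154 * M ^ 2 * Q * n ^ 3 with hE
    have hE0 : 0 ≤ E := by positivity
    have hk2 : n ^ 4 ≤ Q := hNQ
    have hsum1 : ((T' + L + k : ℕ) : ℝ) ≤ 11 * M * Q * n ^ 2 := by
      have h1 := nd_sum hM1 hQ0 hn1 hNQ hT'2
      have h2 : ((T' + L + k : ℕ) : ℝ) = (T' : ℝ) + 2 * Q + n ^ 4 := by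
        rw [Nat.cast_add, Nat.cast_add, hLr, hkr]
      rw [h2]
      exact h1
    have hsum1' : ((T + L + k : ℕ) : ℝ) ≤ ((T' + L + k : ℕ) : ℝ) := by
      exact_mod_cast (by omega : T + L + k ≤ T' + L + k)
    have hone : ∀ m : ℕ, (1 : ℝ) ≤ ((m + L + k : ℕ) : ℝ) := by
      intro m
      exact_mod_cast (by omega : 1 ≤ m + L + k)
    have hE1 : ((T' + L + k : ℕ) : ℝ) * Real.log ((T' + L + k : ℕ) : ℝ) ≤ E :=
      nd_log hM1 hn1 hQ0 hQl (hone T') hsum1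
    have hE2 : ((T + L + k : ℕ) : ℝ) * Real.log ((T + L + k : ℕ) : ℝ) ≤ E :=
      nd_log hM1 hn1 hQ0 hQl (hone T) (hsum1'.trans hsum1)
    set B : ℝ := Real.exp (M * E) with hB
    have hξB : ∀ s, house (algebraMap (𝓞 D.K) D.K (ξ s)) ≤ B := by
      intro s
      refine (hξh s).trans (Real.exp_le_exp.2 ?_)
      have h0 : 0 ≤ ((T + L + k : ℕ) : ℝ) * Real.log ((T + L + k : ℕ) : ℝ) :=
        mul_nonneg (Nat.cast_nonneg _) (Real.log_nonneg (hone T))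
      exact mul_le_mul hMS hE2 h0 hM0
    have hψB : ∀ s, ‖D.ψ (ξ s)‖ ≤ B := fun s =>
      (norm_embedding_le_house (algebraMap (𝓞 D.K) D.K (ξ s)) D.em).trans (hξB s)
    -- the growth
    set S : ℝ := 226 * M ^ 3 * Q * n ^ 3 with hS'
    have hM2 : M ^ 2 ≤ M ^ 3 := pow_le_pow_right₀ hM1 (by norm_num)
    have hM13 : M ≤ M ^ 3 := by
      have := pow_le_pow_right₀ hM1 (show 1 ≤ 3 by norm_num)
      simpa using this
    have hQn : Q ≤ Q * n ^ 3 := le_mul_of_one_le_right hQ0.le hn13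
    have hMQn : M * Q ≤ M ^ 3 * Q * n ^ 3 := by
      calc M * Q ≤ M ^ 3 * (Q * n ^ 3) := mul_le_mul hM13 hQn hQ0.le (by positivity)
        _ = _ := by ring
    have hME : M * E = 154 * M ^ 3 * Q * n ^ 3 := by rw [hE]; ring
    have hTκ1 : (T' : ℝ) / κ ≤ 8 * M * n ^ 2 := by
      rw [div_le_iff₀ hκ0]
      calc (T' : ℝ) ≤ 8 * M * Q * n ^ 2 := hT'2
        _ = 8 * M * n ^ 2 * Q := by ring
        _ ≤ 8 * M * n ^ 2 * κ := mul_le_mul_of_nonneg_left hκ1 (by positivity)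
    have hTκ2 : n ^ 2 / 8 ≤ (T' : ℝ) / κ := by
      rw [le_div_iff₀ hκ0]
      calc n ^ 2 / 8 * κ ≤ n ^ 2 / 8 * (8 * Q) := mul_le_mul_of_nonneg_left hκ2 (by positivity)
        _ = Q * n ^ 2 := by ring
        _ ≤ T' := hT'1
    have hT'κ0 : 0 ≤ (T' : ℝ) / κ := le_trans (by positivity) hTκ2
    have hgrow : ∀ z, |ht z| ≤ c₁ * ((T' : ℝ) / κ) ^ 2 →
        nrm κ (D.Φ L k ξ) z ≤ Real.exp S := by
      intro z hz
      refine (hPG L k ξ B hL1 hk1 hψB z).trans ?_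
      have h1 : 1 + |ht z| ≤ 65 * M ^ 3 * n ^ 4 := by
        have h2 : c₁ * ((T' : ℝ) / κ) ^ 2 ≤ M * (8 * M * n ^ 2) ^ 2 :=
          mul_le_mul hM1' (pow_le_pow_left₀ hT'κ0 hTκ1 2) (sq_nonneg _) hM0
        have h3 : M * (8 * M * n ^ 2) ^ 2 = 64 * (M ^ 3 * n ^ 4) := by ring
        have h4 : 1 ≤ M ^ 3 * n ^ 4 := one_le_mul_of_one_le_of_one_le (one_le_pow₀ hM1) hn14
        linarith only [hz, h2, h3, h4]
      have h0 : 1 ≤ 1 + |ht z| := by linarith only [abs_nonneg (ht z)]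
      have h5 := nd_growth (k := (k : ℝ)) hM1 hn1 hk2 hkr h0 h1
      have h6 : (1 + |ht z|) ^ k = Real.exp ((k : ℝ) * Real.log (1 + |ht z|)) := by
        rw [← Real.log_pow, Real.exp_log (by positivity)]
      rw [h6, hB, ← Real.exp_add, ← Real.exp_add]
      refine Real.exp_le_exp.2 ?_
      have h7 : CG * ((L : ℝ) + (k : ℝ)) ≤ 3 * (M ^ 3 * Q * n ^ 3) := by
        calc CG * ((L : ℝ) + (k : ℝ)) ≤ M * (3 * Q) := by
              rw [hLr, hkr]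
              refine mul_le_mul hMG (by linarith only [hNQ]) (by positivity) hM0
          _ = 3 * (M * Q) := by ring
          _ ≤ _ := by linarith only [hMQn]
      rw [hME, hS']
      linarith only [h5, h7]
    have hCLκ : CL * κ ≤ (T' : ℝ) := by
      calc CL * κ ≤ M * (8 * Q) := mul_le_mul hML hκ2 hκ0.le hM0
        _ = Q * (8 * M) := by ring
        _ ≤ Q * n ^ 2 := mul_le_mul_of_nonneg_left (by linarith only [hb1, hn2]) hQ0.le
        _ ≤ T' := hT'1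
    have hLS' := hLS κ S T' (D.Φ L k ξ) hκ1' hCLκ hsec hvan hgrow
    set S' : ℝ := S - c₂ * (Q * n ^ 8) / 512 with hS''
    have hsmall : ∀ z, nsq z ≤ 1 → nrm κ (D.Φ L k ξ) z ≤ Real.exp S' := by
      intro z hz
      have h1 : |ht z| ≤ 1 := nd_ht le_rfl z hz
      have h2 : 1 ≤ c₂ * ((T' : ℝ) / κ) ^ 2 := nd_one hc₂ hn1 hb2 hTκ2
      refine (hLS' z (h1.trans h2)).trans (Real.exp_le_exp.2 ?_)
      exact sub_le_sub_left (nd_gain hc₂ hQ0 hκ0 hκ2 hT'1) S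
    have hcau := hCAU κ S' (D.Φ L k ξ) w hκ1' hent hsmall
    obtain ⟨R, hRd, hRh, hRe⟩ := hPV L k ξ B w hL1 hk1 hξB (by rw [hwT]; exact hT'v)
    rw [hwT] at hcau hRh
    have hh0 : D.h 0 ≠ 0 := D.h_zero
    have hval : R.eval₂ D.ψ D.X ≠ 0 := by
      intro h0
      rw [h0, zero_mul] at hRe
      exact hw0 hRe.symm
    refine ⟨R, ?_, ?_, ?_, ?_⟩
    · rintro rfl
      exact hval (by simp)
    · calc (R.natDegree : ℝ) ≤ ((2 * D.dq * k : ℕ) : ℝ) := by exact_mod_cast hRd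
        _ = 2 * q * n ^ 4 := by
            push_cast
            rw [hkr]
    · intro i
      refine (hRh i).trans ?_
      rw [hB, ← Real.exp_add]
      refine Real.exp_le_exp.2 ?_
      have h0 : 0 ≤ ((T' + L + k : ℕ) : ℝ) * Real.log ((T' + L + k : ℕ) : ℝ) :=
        mul_nonneg (Nat.cast_nonneg _) (Real.log_nonneg (hone T'))
      have h1 : CV * (((T' + L + k : ℕ) : ℝ) * Real.log ((T' + L + k : ℕ) : ℝ)) ≤ M * E :=
        mul_le_mul hMV hE1 h0 hM0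
      have h2 : 0 ≤ 2 * q * (Q * n ^ 3) := by positivity
      have h3 : (308 * M ^ 3 + 2 * q) * (Q * n ^ 3) = M * E + M * E + 2 * q * (Q * n ^ 3) := by
        rw [hME]
        ring
      rw [h3]
      linarith only [h1, h2]
    · -- the value
      have hn0 : ‖D.h 0‖ ≠ 0 := norm_ne_zero_iff.2 hh0
      have hnp : 0 < ‖D.h 0‖ := norm_pos_iff.2 hh0
      have h1 : ‖R.eval₂ D.ψ D.X‖ * ‖D.h 0‖ ^ (2 * L + k) = ‖dds (w.map D.dir) (D.Φ L k ξ) 0‖ := by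
        rw [← hRe, norm_mul, norm_pow]
      have h2 : Real.exp (-(5 * M * Q)) ≤ ‖D.h 0‖ ^ (2 * L + k) := by
        refine nd_low hnp hMh ?_ hM0
        rw [Nat.cast_add, Nat.cast_mul, hLr, hkr, Nat.cast_ofNat]
        linarith only [hNQ]
      have h3 : ‖R.eval₂ D.ψ D.X‖ ≤ ‖dds (w.map D.dir) (D.Φ L k ξ) 0‖ * Real.exp (5 * M * Q) := by
        have h4 : ‖R.eval₂ D.ψ D.X‖ * Real.exp (-(5 * M * Q)) ≤
            ‖dds (w.map D.dir) (D.Φ L k ξ) 0‖ := by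
          rw [← h1]
          exact mul_le_mul_of_nonneg_left h2 (norm_nonneg _)
        exact nd_div h4
      have h4 : CC * ((T' : ℝ) * Real.log ((T' : ℝ) + 1) + κ) ≤ 162 * (M ^ 3 * Q * n ^ 3) := by
        have e1 : (T' : ℝ) * Real.log ((T' : ℝ) + 1) ≤ E := by
          refine le_trans ?_ hE1
          have e2 : (T' : ℝ) + 1 ≤ ((T' + L + k : ℕ) : ℝ) := by
            exact_mod_cast (by omega : T' + 1 ≤ T' + L + k)
          have e3 : (0 : ℝ) ≤ T' := Nat.cast_nonneg _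
          refine mul_le_mul (by linarith only [e2]) (Real.log_le_log (by positivity) e2)
            (Real.log_nonneg (by linarith only [e3])) (Nat.cast_nonneg _)
        have e2 : 0 ≤ (T' : ℝ) * Real.log ((T' : ℝ) + 1) + κ := by
          have e3 : (0 : ℝ) ≤ T' := Nat.cast_nonneg _
          have e4 : (1 : ℝ) ≤ (T' : ℝ) + 1 := by linarith only [e3]
          exact add_nonneg (mul_nonneg e3 (Real.log_nonneg e4)) hκ0.le
        calc CC * ((T' : ℝ) * Real.log ((T' : ℝ) + 1) + κ) ≤ M * (E + 8 * Q) :=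
              mul_le_mul hMC (add_le_add e1 hκ2) e2 hM0
          _ = 154 * (M ^ 3 * Q * n ^ 3) + 8 * (M * Q) := by rw [mul_add, hME]; ring
          _ ≤ _ := by linarith only [hMQn]
      have h5 : ‖R.eval₂ D.ψ D.X‖ ≤
          Real.exp (393 * (M ^ 3 * Q * n ^ 3) - c₂ * (Q * n ^ 8) / 512) := by
        refine h3.trans ?_
        calc ‖dds (w.map D.dir) (D.Φ L k ξ) 0‖ * Real.exp (5 * M * Q)
            ≤ Real.exp (CC * ((T' : ℝ) * Real.log ((T' : ℝ) + 1) + κ) + S') *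
              Real.exp (5 * M * Q) := mul_le_mul_of_nonneg_right hcau (Real.exp_pos _).le
          _ ≤ _ := by
              rw [← Real.exp_add]
              refine Real.exp_le_exp.2 ?_
              rw [hS'', hS']
              linarith only [h4, hMQn]
      have h6 : 393 * (M ^ 3 * Q * n ^ 3) ≤ c₂ * (Q * n ^ 8) / 1024 :=
        nd_fin hc₂ hM1 hQ0 hn1 hb3
      refine h5.trans (Real.exp_le_exp.2 ?_)
      have h7 : c₂ / (1024 * (2 * q) * (308 * M ^ 3 + 2 * q)) * n * (2 * q * n ^ 4) *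
          ((308 * M ^ 3 + 2 * q) * (Q * n ^ 3)) = c₂ * (Q * n ^ 8) / 1024 := by
        exact nd_alg M q Q n c₂ (by linarith only [hq1]) hM1
      rw [h7]
      linarith only [h6]

end Pool.Agent.KT
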