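import Pool.Agent.KT.All
import Pool.Agent.KT.NODAT
import Pool.Agent.KT.BrMain
import Pool.Agent.KT.Alg.St

/-!
KT: the theorem on period vectors of abelian surfaces with scalar Hodge endomorphisms (helper8).
-/

set_option autoImplicit false

namespace Pool.Agent.KT

/-- **Theorem KT** -/
theorem thm_KTA : St_KTA := kt_of_nodat fun τ D => thm_NODAT thm_S τ D

/-- the input of the algebra part -/
theorem thm_KT : Alg.St_KT := fun A hA l hl h0 x c p hp => thm_KTA A hA.1 hA.2 l hl h0 x c p hp

end Pool.Agent.KT
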