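import Pool.Agent.KT.St

/-!
# KT, module BALL: integrals over a small ball and integrals over the torus
-/

set_option autoImplicit false

open scoped BigOperators ComplexConjugate
open MeasureTheory

namespace Pool.Agent.KT

/-- the real coordinates -/
private noncomputable def BALL_phi (p : ℝ × (Fin 3 → ℝ)) : ℂ × ℂ :=
  (⟨p.2 0, p.1⟩, ⟨p.2 1, p.2 2⟩)

private theorem BALL_mp : MeasurePreserving BALL_phi := by
  have h1 : MeasurePreserving (MeasurableEquiv.piFinSuccAbove (fun _ : Fin 3 => ℝ) 0) :=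
    volume_preserving_piFinSuccAbove (fun _ : Fin 3 => ℝ) 0
  have h2 : MeasurePreserving (MeasurableEquiv.finTwoArrow (α := ℝ)) :=
    volume_preserving_finTwoArrow ℝ
  have h3 : MeasurePreserving Complex.measurableEquivRealProd.symm :=
    Complex.volume_preserving_equiv_real_prod.symm
  -- (t, x) ↦ (t, (x 0, (x 1, x 2)))
  have h4 : MeasurePreserving (fun p : ℝ × (Fin 3 → ℝ) =>
      (p.1, (p.2 0, Complex.measurableEquivRealProd.symm (p.2 1, p.2 2)))) := by
    have h5 : MeasurePreserving (fun x : Fin 3 → ℝ =>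
        (x 0, Complex.measurableEquivRealProd.symm (x 1, x 2))) := by
      have h6 := ((MeasurePreserving.id (volume : Measure ℝ)).prod (h3.comp h2)).comp h1
      exact h6
    exact (MeasurePreserving.id (volume : Measure ℝ)).prod h5
  have h7 : MeasurePreserving (fun p : ℝ × (ℝ × ℂ) => ((p.1, p.2.1), p.2.2)) :=
    (measurePreserving_prodAssoc (volume : Measure ℝ) (volume : Measure ℝ)
      (volume : Measure ℂ)).symm
  have h8 : MeasurePreserving (fun p : (ℝ × ℝ) × ℂ =>
      (Complex.measurableEquivRealProd.symm (p.1.2, p.1.1), p.2)) :=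
    (h3.comp (Measure.measurePreserving_swap (μ := (volume : Measure ℝ))
      (ν := (volume : Measure ℝ)))).prod (MeasurePreserving.id (volume : Measure ℂ))
  exact h8.comp (h7.comp h4)

variable (τ : Tor)

/-- the matrix of the lattice -/
private noncomputable def BALL_M : Matrix (Fin 3) (Fin 3) ℝ :=
  fun i j => ![τ.a i, (τ.b i).re, (τ.b i).im] j

private theorem BALL_vol : τ.vol = |(BALL_M τ).det| := rfl

private theorem BALL_pos : 0 < τ.vol := by
  rw [BALL_vol, abs_pos]
  intro h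
  obtain ⟨v, hv, hv0⟩ := Matrix.exists_vecMul_eq_zero_iff.2 h
  apply hv
  have h1 : ∑ i, v i • ((τ.a i, τ.b i) : ℝ × ℂ) = 0 := by
    have e0 : ∀ j, ∑ i, v i * BALL_M τ i j = 0 := fun j => congrFun hv0 j
    have e1 : ∑ i, v i * τ.a i = 0 := e0 0
    have e2 : ∑ i, v i * (τ.b i).re = 0 := e0 1
    have e3 : ∑ i, v i * (τ.b i).im = 0 := e0 2
    apply Prod.ext
    · rw [Prod.fst_sum]
      exact e1
    · rw [Prod.snd_sum]
      apply Complex.ext
      · rw [Complex.re_sum]
        refine Eq.trans (Finset.sum_congr rfl fun i _ => ?_) e2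
        simp
      · rw [Complex.im_sum]
        refine Eq.trans (Finset.sum_congr rfl fun i _ => ?_) e3
        simp
  funext i
  exact (Fintype.linearIndependent_iff.1 τ.li) v h1 i

/-- the linear map of the lattice -/
private noncomputable def BALL_N : (Fin 3 → ℝ) →ₗ[ℝ] (Fin 3 → ℝ) :=
  Matrix.toLin' (BALL_M τ).transpose

private theorem BALL_det : |LinearMap.det (BALL_N τ)| = τ.vol := by
  rw [BALL_N, LinearMap.det_toLin', Matrix.det_transpose, BALL_vol]

private theorem BALL_N_apply (x : Fin 3 → ℝ) (j : Fin 3) :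
    BALL_N τ x j = ∑ i, x i * BALL_M τ i j := by
  rw [BALL_N, Matrix.toLin'_apply, Matrix.mulVec_transpose]
  rfl

private theorem BALL_pt (t : ℝ) (x : Fin 3 → ℝ) :
    τ.pt t x = BALL_phi (t, BALL_N τ x) := by
  have e1 : BALL_N τ x 0 = ∑ i, x i * τ.a i := BALL_N_apply τ x 0
  have e2 : BALL_N τ x 1 = ∑ i, x i * (τ.b i).re := BALL_N_apply τ x 1
  have e3 : BALL_N τ x 2 = ∑ i, x i * (τ.b i).im := BALL_N_apply τ x 2
  apply Prod.ext
  · apply Complex.ext
    · show _ = BALL_N τ x 0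
      rw [e1]
      simp [Tor.pt, Tor.γ, Prod.fst_sum]
    · show _ = t
      simp [Tor.pt, Tor.γ, Prod.fst_sum]
  · apply Complex.ext
    · show _ = BALL_N τ x 1
      rw [e2]
      simp [Tor.pt, Tor.γ, Prod.snd_sum]
    · show _ = BALL_N τ x 2
      rw [e3]
      simp [Tor.pt, Tor.γ, Prod.snd_sum]

private theorem BALL_lin (h : (Fin 3 → ℝ) → ℝ) :
    ∫ y, h y = τ.vol * ∫ x, h (BALL_N τ x) := by
  have hv := BALL_pos τ
  have hd : LinearMap.det (BALL_N τ) ≠ 0 := by
    intro h0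
    rw [← BALL_det, h0, abs_zero] at hv
    exact lt_irrefl _ hv
  have hk : LinearMap.ker (BALL_N τ) = ⊥ := by
    have h1 := LinearMap.isUnit_iff_isUnit_det (BALL_N τ)
    exact ((LinearMap.isUnit_iff_ker_eq_bot _).1 (h1.2 (isUnit_iff_ne_zero.2 hd)))
  have he : MeasurableEmbedding (BALL_N τ) :=
    (LinearMap.isClosedEmbedding_of_injective hk).measurableEmbedding
  have h2 := Measure.map_linearMap_addHaar_eq_smul_addHaar (volume : Measure (Fin 3 → ℝ)) hd
  have h3 : ∫ x, h (BALL_N τ x) = τ.vol⁻¹ * ∫ y, h y := by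
    rw [← he.integral_map, h2, integral_smul_measure, abs_inv, BALL_det,
      ENNReal.toReal_ofReal (inv_nonneg.2 hv.le), smul_eq_mul]
  rw [h3, ← mul_assoc, mul_inv_cancel₀ hv.ne', one_mul]

/-- the change of variables -/
private theorem BALL_chg (g : ℂ × ℂ → ℝ) (hg : Integrable g) :
    ∫ z, g z = τ.vol * ∫ t, ∫ x, g (τ.pt t x) := by
  have h1 : ∫ z, g z = ∫ p, g (BALL_phi p) := by
    have h2 := integral_map (f := g) BALL_mp.measurable.aemeasurable (by
      rw [BALL_mp.map_eq]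
      exact hg.aestronglyMeasurable)
    rwa [BALL_mp.map_eq] at h2
  have h3 : Integrable (fun p => g (BALL_phi p)) := BALL_mp.integrable_comp_of_integrable hg
  rw [h1]
  have h4 := integral_prod (fun p : ℝ × (Fin 3 → ℝ) => g (BALL_phi p)) h3
  have h5 : ∫ p : ℝ × (Fin 3 → ℝ), g (BALL_phi p) = ∫ t, ∫ y, g (BALL_phi (t, y)) := h4
  rw [h5, ← integral_const_mul]
  refine integral_congr_ae (Filter.Eventually.of_forall fun t => ?_)
  show ∫ y, g (BALL_phi (t, y)) = τ.vol * ∫ x, g (τ.pt t x)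
  rw [BALL_lin τ]
  simp_rw [BALL_pt]

private theorem BALL_ker : LinearMap.ker (BALL_N τ) = ⊥ := by
  have hv := BALL_pos τ
  have hd : LinearMap.det (BALL_N τ) ≠ 0 := by
    intro h0
    rw [← BALL_det, h0, abs_zero] at hv
    exact lt_irrefl _ hv
  have h1 := LinearMap.isUnit_iff_isUnit_det (BALL_N τ)
  exact ((LinearMap.isUnit_iff_ker_eq_bot _).1 (h1.2 (isUnit_iff_ne_zero.2 hd)))

private theorem BALL_nsq (t : ℝ) (x : Fin 3 → ℝ) : nsq (τ.pt t x) =
    BALL_N τ x 0 ^ 2 + t ^ 2 + (BALL_N τ x 1 ^ 2 + BALL_N τ x 2 ^ 2) := by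
  rw [BALL_pt]
  unfold nsq BALL_phi
  rw [← Complex.normSq_eq_norm_sq, ← Complex.normSq_eq_norm_sq, Complex.normSq_mk,
    Complex.normSq_mk]
  ring

private theorem BALL_abs {a s r : ℝ} (h : a ^ 2 + s ≤ r ^ 2) (hs : 0 ≤ s) (hr : 0 < r) :
    |a| ≤ r := abs_le_of_sq_le_sq (by linarith) hr.le

/-- the radius -/
private theorem BALL_rad : ∃ r₀ : ℝ, 0 < r₀ ∧ ∀ r, 0 < r → r ≤ r₀ → ∀ (t : ℝ) (x : Fin 3 → ℝ),
    nsq (τ.pt t x) ≤ r ^ 2 → |t| ≤ 1 ∧ x ∈ Tor.cube := by
  obtain ⟨K, hK, hA⟩ := LinearMap.exists_antilipschitzWith (BALL_N τ) (BALL_ker τ)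
  have hK' : (0 : ℝ) < K := by exact_mod_cast hK
  refine ⟨min 1 (1 / (2 * K)), lt_min one_pos (by positivity), fun r hr hrr t x h => ?_⟩
  have hr1 : r ≤ 1 := hrr.trans (min_le_left _ _)
  have hr2 : r ≤ 1 / (2 * K) := hrr.trans (min_le_right _ _)
  rw [BALL_nsq] at h
  have q0 := sq_nonneg (BALL_N τ x 0)
  have q1 := sq_nonneg (BALL_N τ x 1)
  have q2 := sq_nonneg (BALL_N τ x 2)
  have qt := sq_nonneg t
  have ht : |t| ≤ r := BALL_abs (s := BALL_N τ x 0 ^ 2 + BALL_N τ x 1 ^ 2 + BALL_N τ x 2 ^ 2)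
    (by linarith) (by linarith) hr
  refine ⟨ht.trans hr1, ?_⟩
  have hy : ‖BALL_N τ x‖ ≤ r := by
    rw [pi_norm_le_iff_of_nonneg hr.le]
    intro j
    rw [Real.norm_eq_abs]
    fin_cases j
    · exact BALL_abs (s := t ^ 2 + BALL_N τ x 1 ^ 2 + BALL_N τ x 2 ^ 2)
        (by show BALL_N τ x 0 ^ 2 + _ ≤ _; linarith) (by linarith) hr
    · exact BALL_abs (s := t ^ 2 + BALL_N τ x 0 ^ 2 + BALL_N τ x 2 ^ 2)
        (by show BALL_N τ x 1 ^ 2 + _ ≤ _; linarith) (by linarith) hr
    · exact BALL_abs (s := t ^ 2 + BALL_N τ x 0 ^ 2 + BALL_N τ x 1 ^ 2)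
        (by show BALL_N τ x 2 ^ 2 + _ ≤ _; linarith) (by linarith) hr
  have hx : ‖x‖ ≤ 1 / 2 := by
    have h1 : ‖x‖ ≤ K * ‖BALL_N τ x‖ := by
      have h2 := hA.le_mul_dist x 0
      rw [map_zero, dist_zero_right, dist_zero_right] at h2
      exact h2
    calc ‖x‖ ≤ K * ‖BALL_N τ x‖ := h1
      _ ≤ K * (1 / (2 * K)) := mul_le_mul_of_nonneg_left (hy.trans hr2) hK'.le
      _ = 1 / 2 := by field_simp
  have h3 : ∀ i, |x i| ≤ 1 / 2 := fun i => by
    have h4 := norm_le_pi_norm x i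
    rw [Real.norm_eq_abs] at h4
    exact h4.trans hx
  exact ⟨fun i => (abs_le.1 (h3 i)).1, fun i => (abs_le.1 (h3 i)).2⟩

private theorem BALL_cpt (r : ℝ) (hr : 0 < r) : IsCompact {z : ℂ × ℂ | nsq z ≤ r ^ 2} := by
  refine Metric.isCompact_of_isClosed_isBounded ?_ ?_
  · refine isClosed_le ?_ continuous_const
    unfold nsq
    fun_prop
  · refine (Metric.isBounded_closedBall (x := (0 : ℂ × ℂ)) (r := r)).subset fun z hz => ?_
    have hz' : ‖z.1‖ ^ 2 + ‖z.2‖ ^ 2 ≤ r ^ 2 := hz
    rw [mem_closedBall_zero_iff, Prod.norm_def]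
    refine max_le ?_ ?_
    · exact (le_abs_self _).trans (BALL_abs hz' (sq_nonneg _) hr)
    · exact (le_abs_self _).trans (BALL_abs (s := ‖z.1‖ ^ 2) (by linarith) (sq_nonneg _) hr)

theorem thm_BALL : St_BALL τ := by
  refine ⟨BALL_pos τ, ?_⟩
  obtain ⟨r₀, hr₀, hrad⟩ := BALL_rad τ
  refine ⟨r₀, hr₀, fun f χ hf _ hf0 hχ hχc hχ0 hχ1 r hr hrr => ?_⟩
  have hv := BALL_pos τ
  set D : Set (ℂ × ℂ) := {z | nsq z ≤ r ^ 2} with hD
  have hDc : IsCompact D := BALL_cpt r hr
  have hg : Integrable (D.indicator f) :=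
    (integrable_indicator_iff hDc.measurableSet).2 (hf.continuousOn.integrableOn_compact hDc)
  rw [← integral_indicator hDc.measurableSet, BALL_chg τ _ hg]
  refine mul_le_mul_of_nonneg_left ?_ hv.le
  have hpt : Continuous fun p : ℝ × (Fin 3 → ℝ) => τ.pt p.1 p.2 := by
    unfold Tor.pt
    fun_prop
  have havg : Continuous (τ.avg f) := by
    have h1 : Continuous (Function.uncurry fun (t : ℝ) (x : Fin 3 → ℝ) => f (τ.pt t x)) :=
      hf.comp hpt
    exact continuous_parametric_integral_of_continuous h1 (by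
      unfold Tor.cube
      exact isCompact_Icc)
  refine integral_mono_of_nonneg (Filter.Eventually.of_forall fun t => ?_)
    ((hχ.mul havg).integrable_of_hasCompactSupport hχc.mul_right)
    (Filter.Eventually.of_forall fun t => ?_)
  · exact integral_nonneg fun x => Set.indicator_nonneg (fun z _ => hf0 z) _
  · show ∫ x, D.indicator f (τ.pt t x) ≤ χ t * τ.avg f t
    by_cases ht : |t| ≤ 1
    · rw [hχ1 t ht, one_mul]
      unfold Tor.avg
      have hcm : MeasurableSet Tor.cube := by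
        unfold Tor.cube
        exact measurableSet_Icc
      rw [← integral_indicator hcm]
      have hc : Continuous fun x : Fin 3 → ℝ => f (τ.pt t x) :=
        hf.comp (hpt.comp (Continuous.prodMk continuous_const continuous_id))
      refine integral_mono_of_nonneg (Filter.Eventually.of_forall fun x => ?_)
        ((integrable_indicator_iff hcm).2 (hc.continuousOn.integrableOn_compact (by
          unfold Tor.cube
          exact isCompact_Icc))) (Filter.Eventually.of_forall fun x => ?_)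
      · exact Set.indicator_nonneg (fun z _ => hf0 z) _
      · show D.indicator f (τ.pt t x) ≤ Tor.cube.indicator (fun x => f (τ.pt t x)) x
        by_cases hx : τ.pt t x ∈ D
        · rw [Set.indicator_of_mem hx, Set.indicator_of_mem (hrad r hr hrr t x hx).2]
        · rw [Set.indicator_of_notMem hx]
          exact Set.indicator_nonneg (fun z _ => hf0 _) _
    · have h0 : ∀ x, D.indicator f (τ.pt t x) = 0 := fun x => by
        have h1 : τ.pt t x ∉ D := fun hx => ht (hrad r hr hrr t x hx).1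
        exact Set.indicator_of_notMem h1 _
      simp_rw [h0]
      rw [integral_zero]
      refine mul_nonneg (hχ0 t) ?_
      exact integral_nonneg fun x => hf0 _

end Pool.Agent.KT
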