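import Pool.Agent.KT.BUP

/-!
# KT, module BLOW: lower bound for the coefficients
-/

set_option autoImplicit false

open scoped BigOperators ComplexConjugate Topology
open MeasureTheory

namespace Pool.Agent.KT

theorem BLOW_pow (m : ℕ) : ((1 : ℝ) / 8) ^ m ≤ Real.exp (-(2 * (m : ℝ))) := by
  have h1 : ((1 : ℝ) / 8) ≤ Real.exp (-2) := by
    have h2 : Real.exp 2 ≤ 8 := by
      have h3 : Real.exp 2 = Real.exp 1 * Real.exp 1 := by
        rw [← Real.exp_add]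
        norm_num
      rw [h3]
      have h4 := Real.exp_one_lt_d9
      have h5 := Real.exp_pos 1
      nlinarith
    rw [Real.exp_neg, one_div]
    exact inv_anti₀ (Real.exp_pos _) h2
  calc ((1 : ℝ) / 8) ^ m ≤ (Real.exp (-2)) ^ m := pow_le_pow_left₀ (by norm_num) h1 m
    _ = Real.exp (-(2 * (m : ℝ))) := by
      rw [← Real.exp_nat_mul]
      congr 1
      ring

/-- the comparison of a power series with its first terms -/
theorem BLOW_sum (b : ℕ → ℕ → ℂ) (Bd ρ : ℝ) (a : ℂ × ℂ) (s : ℂ) (m : ℕ) (hBd : 0 ≤ Bd)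
    (hρ : 0 < ρ) (hρ' : ρ ≤ 1 / 64) (ha1 : ‖a.1‖ ≤ ρ) (ha2 : ‖a.2‖ ≤ ρ)
    (hb : ∀ i j, ‖b i j‖ ≤ Bd)
    (hs : HasSum (fun p : ℕ × ℕ => b p.1 p.2 * a.1 ^ p.1 * a.2 ^ p.2) s) :
    ‖s‖ ≤ (∑ p ∈ Finset.range (m + 1) ×ˢ Finset.range (m + 1),
        ‖(ρ : ℂ) ^ (p.1 + p.2) * b p.1 p.2‖) + Bd * (1 / 8) ^ (m + 1) * (8 / 7 * (8 / 7)) := by
  have hg : HasSum (fun n : ℕ => ((1 : ℝ) / 8) ^ n) (8 / 7) := by
    have h := hasSum_geometric_of_lt_one (r := (1 : ℝ) / 8) (by norm_num) (by norm_num)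
    have h' : ((1 : ℝ) - 1 / 8)⁻¹ = 8 / 7 := by norm_num
    rwa [h'] at h
  have hgg : HasSum (fun p : ℕ × ℕ => ((1 : ℝ) / 8) ^ p.1 * (1 / 8) ^ p.2) (8 / 7 * (8 / 7)) := by
    refine hg.mul hg ?_
    exact Summable.mul_of_nonneg hg.summable hg.summable (fun n => by positivity)
      (fun n => by positivity)
  have h1 : HasSum (fun p : ℕ × ℕ =>
      (if p ∈ Finset.range (m + 1) ×ˢ Finset.range (m + 1) then
        ‖(ρ : ℂ) ^ (p.1 + p.2) * b p.1 p.2‖ else 0) +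
      Bd * (1 / 8) ^ (m + 1) * (((1 : ℝ) / 8) ^ p.1 * (1 / 8) ^ p.2))
      ((∑ p ∈ Finset.range (m + 1) ×ˢ Finset.range (m + 1),
        ‖(ρ : ℂ) ^ (p.1 + p.2) * b p.1 p.2‖) + Bd * (1 / 8) ^ (m + 1) * (8 / 7 * (8 / 7))) := by
    refine HasSum.add ?_ (hgg.mul_left _)
    have h2 : HasSum (fun p : ℕ × ℕ => if p ∈ Finset.range (m + 1) ×ˢ Finset.range (m + 1) then
        ‖(ρ : ℂ) ^ (p.1 + p.2) * b p.1 p.2‖ else 0)
        (∑ p ∈ Finset.range (m + 1) ×ˢ Finset.range (m + 1),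
          if p ∈ Finset.range (m + 1) ×ˢ Finset.range (m + 1) then
        ‖(ρ : ℂ) ^ (p.1 + p.2) * b p.1 p.2‖ else 0) :=
      hasSum_sum_of_ne_finset_zero (fun p hp => if_neg hp)
    rw [Finset.sum_congr rfl (fun p hp => if_pos hp)] at h2
    exact h2
  have h3 : ∀ p : ℕ × ℕ, ‖b p.1 p.2 * a.1 ^ p.1 * a.2 ^ p.2‖ ≤ ‖b p.1 p.2‖ * ρ ^ (p.1 + p.2) := by
    intro p
    rw [norm_mul, norm_mul, norm_pow, norm_pow, pow_add, mul_assoc]
    refine mul_le_mul_of_nonneg_left ?_ (norm_nonneg _)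
    exact mul_le_mul (pow_le_pow_left₀ (norm_nonneg _) ha1 _)
      (pow_le_pow_left₀ (norm_nonneg _) ha2 _) (by positivity) (by positivity)
  refine hs.norm_le_of_bounded h1 fun p => (h3 p).trans ?_
  have h4 : 0 ≤ Bd * (1 / 8) ^ (m + 1) * (((1 : ℝ) / 8) ^ p.1 * (1 / 8) ^ p.2) := by positivity
  by_cases hp : p ∈ Finset.range (m + 1) ×ˢ Finset.range (m + 1)
  · rw [if_pos hp, norm_mul, norm_pow, Complex.norm_real, Real.norm_of_nonneg hρ.le, mul_comm]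
    linarith
  · rw [if_neg hp, zero_add]
    have hp' : m + 1 ≤ p.1 + p.2 := by
      rw [Finset.mem_product, Finset.mem_range, Finset.mem_range] at hp
      omega
    have h5 : ρ ^ (p.1 + p.2) ≤ (1 / 8) ^ (m + 1) * (((1 : ℝ) / 8) ^ p.1 * (1 / 8) ^ p.2) := by
      calc ρ ^ (p.1 + p.2) ≤ (1 / 64) ^ (p.1 + p.2) := pow_le_pow_left₀ hρ.le hρ' _
        _ = (1 / 8) ^ (p.1 + p.2) * (1 / 8) ^ (p.1 + p.2) := by
          rw [← mul_pow]
          norm_num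
        _ ≤ (1 / 8) ^ (m + 1) * (1 / 8) ^ (p.1 + p.2) :=
          mul_le_mul_of_nonneg_right
            (pow_le_pow_of_le_one (by norm_num) (by norm_num) hp') (by positivity)
        _ = _ := by rw [pow_add (1 / 8 : ℝ) p.1 p.2]
    calc ‖b p.1 p.2‖ * ρ ^ (p.1 + p.2)
        ≤ Bd * ((1 / 8) ^ (m + 1) * (((1 : ℝ) / 8) ^ p.1 * (1 / 8) ^ p.2)) :=
          mul_le_mul (hb _ _) h5 (by positivity) hBd
      _ = _ := by ring

theorem thm_BLOW : St_BLOW := by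
  intro C₀ hC₀
  refine ⟨C₀ + 2, C₀ + (C₀ + 2) + 2, by linarith, by linarith, ?_⟩
  intro κ ρ M F B z a₀ m hκ hρ hρ' hm hm' hB h ha1 ha2 hlow
  have hb := BUP_cauchy κ (2 * M + C₀ * κ) F B z hB h
  have hbd := BLOW_sum (fun i j => B i j z) (Real.exp (2 * M + C₀ * κ + 4 * κ + 2 * κ * nsq z)) ρ a₀
    (F (z + a₀) * F (z - a₀)) m (Real.exp_pos _).le hρ hρ' ha1 ha2 hb (hB.2.1 z a₀)
  set E0 := Real.exp (2 * M - C₀ * κ + 2 * κ * nsq z) with hE0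
  have hE0p : 0 < E0 := Real.exp_pos _
  have h1 : E0 ≤ ‖F (z + a₀) * F (z - a₀)‖ := by
    rw [BUP_nrm κ]
    have h2 : Real.exp (2 * κ * nsq z) ≤ Real.exp (κ * (2 * nsq z + 2 * nsq a₀)) := by
      refine Real.exp_le_exp.mpr ?_
      have h3 : 0 ≤ nsq a₀ := by unfold nsq; positivity
      nlinarith [mul_nonneg (by linarith : (0 : ℝ) ≤ κ) h3]
    rw [hE0, Real.exp_add]
    exact mul_le_mul hlow h2 (Real.exp_pos _).le ((Real.exp_pos _).le.trans hlow)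
  have h2 : Real.exp (2 * M + C₀ * κ + 4 * κ + 2 * κ * nsq z) * (1 / 8) ^ m ≤ E0 := by
    have h3 := BLOW_pow m
    calc Real.exp (2 * M + C₀ * κ + 4 * κ + 2 * κ * nsq z) * (1 / 8) ^ m
        ≤ Real.exp (2 * M + C₀ * κ + 4 * κ + 2 * κ * nsq z) * Real.exp (-(2 * (m : ℝ))) :=
          mul_le_mul_of_nonneg_left h3 (Real.exp_pos _).le
      _ ≤ E0 := by
          rw [← Real.exp_add, hE0]
          refine Real.exp_le_exp.mpr ?_
          nlinarith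
  have h3 : Real.exp (2 * M + C₀ * κ + 4 * κ + 2 * κ * nsq z) * (1 / 8) ^ (m + 1) *
      (8 / 7 * (8 / 7)) ≤ E0 / 2 := by
    rw [pow_succ]
    nlinarith
  set T := Finset.range (m + 1) ×ˢ Finset.range (m + 1) with hT
  set f : ℕ × ℕ → ℝ := fun p => ‖(ρ : ℂ) ^ (p.1 + p.2) * B p.1 p.2 z‖ with hf
  have h4 : E0 / 2 ≤ ∑ p ∈ T, f p := by linarith
  have h5 : (∑ p ∈ T, f p) ^ 2 ≤ ((m : ℝ) + 1) ^ 2 * ∑ p ∈ T, f p ^ 2 := by
    have h6 := sq_sum_le_card_mul_sum_sq (s := T) (f := f)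
    have h7 : (T.card : ℝ) = ((m : ℝ) + 1) ^ 2 := by
      rw [hT, Finset.card_product, Finset.card_range]
      push_cast
      ring
    rwa [h7] at h6
  have h8 : ∑ p ∈ T, f p ^ 2 = ∑ p : Fin (m + 1) × Fin (m + 1),
      ‖(ρ : ℂ) ^ ((p.1 : ℕ) + (p.2 : ℕ)) * B p.1 p.2 z‖ ^ 2 := by
    rw [hT, Finset.sum_product, Fintype.sum_prod_type, Finset.sum_range]
    refine Finset.sum_congr rfl fun i _ => ?_
    rw [Finset.sum_range]
  rw [← h8]
  have h9 : 2 * ((m : ℝ) + 1) ≤ Real.exp ((C₀ + 4) * κ) := by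
    have h10 := Real.add_one_le_exp (m : ℝ)
    have h11 : (2 : ℝ) ≤ Real.exp 1 := by
      have := Real.add_one_le_exp (1 : ℝ)
      linarith
    calc 2 * ((m : ℝ) + 1) ≤ Real.exp 1 * Real.exp (m : ℝ) :=
          mul_le_mul h11 h10 (by positivity) (Real.exp_pos _).le
      _ = Real.exp (1 + (m : ℝ)) := (Real.exp_add _ _).symm
      _ ≤ _ := by
          refine Real.exp_le_exp.mpr ?_
          nlinarith
  have hS0 : 0 ≤ ∑ p ∈ T, f p ^ 2 := Finset.sum_nonneg fun p _ => by positivity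
  have h12 : E0 ^ 2 ≤ Real.exp ((C₀ + 4) * κ) ^ 2 * ∑ p ∈ T, f p ^ 2 := by
    calc E0 ^ 2 = 4 * (E0 / 2) ^ 2 := by ring
      _ ≤ 4 * (∑ p ∈ T, f p) ^ 2 := by
          have := pow_le_pow_left₀ (by positivity) h4 2
          linarith
      _ ≤ 4 * (((m : ℝ) + 1) ^ 2 * ∑ p ∈ T, f p ^ 2) := by linarith
      _ = (2 * ((m : ℝ) + 1)) ^ 2 * ∑ p ∈ T, f p ^ 2 := by ring
      _ ≤ Real.exp ((C₀ + 4) * κ) ^ 2 * ∑ p ∈ T, f p ^ 2 :=
          mul_le_mul_of_nonneg_right (pow_le_pow_left₀ (by positivity) h9 2) hS0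
  have h13 : Real.exp ((C₀ + 4) * κ) ^ 2 * Real.exp (4 * (M - (C₀ + (C₀ + 2) + 2) * κ + κ * nsq z)) ≤
      E0 ^ 2 := by
    rw [hE0, ← Real.exp_nat_mul, ← Real.exp_nat_mul, ← Real.exp_add]
    refine Real.exp_le_exp.mpr ?_
    push_cast
    nlinarith [mul_nonneg hC₀ (by linarith : (0 : ℝ) ≤ κ)]
  exact le_of_mul_le_mul_left (h13.trans h12) (by positivity)

end Pool.Agent.KT
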