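import Pool.Agent.KT.St

/-!
# KT [BSEC]: the coefficients of `F (z + a) F (z - a)` are sections and vanish at the origin
(helper22)
-/

set_option autoImplicit false

open scoped BigOperators ComplexConjugate Topology

namespace Pool.Agent.KT

private theorem BSEC_sq (x y : ℂ) : ‖x + y‖ ^ 2 ≤ 2 * ‖x‖ ^ 2 + 2 * ‖y‖ ^ 2 := by
  have h1 := norm_add_le x y
  have h2 : ‖x + y‖ ^ 2 ≤ (‖x‖ + ‖y‖) ^ 2 := by gcongr
  nlinarith [sq_nonneg (‖x‖ - ‖y‖)]

private theorem BSEC_nsq_add (z a : ℂ × ℂ) : nsq (z + a) ≤ 2 * nsq z + 2 * nsq a := by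
  have h1 := BSEC_sq z.1 a.1
  have h2 := BSEC_sq z.2 a.2
  unfold nsq
  simp only [Prod.fst_add, Prod.snd_add]
  linarith

private theorem BSEC_nsq_neg (a : ℂ × ℂ) : nsq (-a) = nsq a := by
  unfold nsq
  simp

private theorem BSEC_nsq_pos {z : ℂ × ℂ} (hz : z ≠ 0) : 0 < nsq z := by
  unfold nsq
  by_contra h
  have h1 : ‖z.1‖ ^ 2 = 0 := by nlinarith [sq_nonneg ‖z.1‖, sq_nonneg ‖z.2‖]
  have h2 : ‖z.2‖ ^ 2 = 0 := by nlinarith [sq_nonneg ‖z.1‖, sq_nonneg ‖z.2‖]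
  exact hz (Prod.ext (by simpa using h1) (by simpa using h2))

private theorem BSEC_rpow {x y : ℝ} (s : ℝ) (hy : 0 < y) (h1 : y / 4 ≤ x) (h2 : x ≤ 4 * y) :
    x ^ s ≤ 4 ^ |s| * y ^ s := by
  have hx : 0 < x := lt_of_lt_of_le (by positivity) h1
  rcases le_total 0 s with hs | hs
  · rw [abs_of_nonneg hs, ← Real.mul_rpow (by norm_num) hy.le]
    exact Real.rpow_le_rpow hx.le h2 hs
  · rw [abs_of_nonpos hs]
    have h3 : (4 : ℝ) ^ (-s) * y ^ s = (y / 4) ^ s := by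
      rw [Real.div_rpow hy.le (by norm_num), Real.rpow_neg (by norm_num), div_eq_mul_inv]
      ring
    rw [h3]
    exact Real.rpow_le_rpow_of_nonpos (by positivity) h1 hs

/-- sizes on the torus of radius `|z| / 4` -/
private theorem BSEC_near {z a : ℂ × ℂ} {R : ℝ} (hR : R ^ 2 = nsq z / 16) (h1 : ‖a.1‖ = R)
    (h2 : ‖a.2‖ = R) : nsq z / 4 ≤ nsq (z + a) ∧ nsq (z + a) ≤ 4 * nsq z := by
  have ha : nsq a = nsq z / 8 := by
    have : nsq a = R ^ 2 + R ^ 2 := by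
      unfold nsq
      rw [h1, h2]
    rw [this, hR]
    ring
  have h3 := BSEC_nsq_add z a
  have h4 := BSEC_nsq_add (z + a) (-a)
  rw [BSEC_nsq_neg, add_neg_cancel_right] at h4
  have h5 : 0 ≤ nsq z := by
    unfold nsq
    positivity
  constructor <;> linarith

theorem thm_BSEC (τ : Tor) (hC : St_COEF) : St_BSEC τ := by
  intro κ F hF
  have hd : Differentiable ℂ (fun p : (ℂ × ℂ) × (ℂ × ℂ) => F (p.1 + p.2) * F (p.1 - p.2)) :=
    (hF.entire.comp (differentiable_fst.add differentiable_snd)).mul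
      (hF.entire.comp (differentiable_fst.sub differentiable_snd))
  obtain ⟨B, hB1, hB2, hB3, hB4⟩ := hC (fun z a => F (z + a) * F (z - a)) hd
  refine ⟨B, ⟨hB1, hB2, hB3⟩, fun i j => ⟨hB1 i j, fun k => ?_⟩, fun T hT i j => ?_⟩
  · obtain ⟨c, hc, hq⟩ := hF.quasi k
    refine ⟨c ^ 2, by rw [norm_pow, hc, one_pow], fun z => ?_⟩
    refine hB4 z (z + τ.γ k) _ (fun a => ?_) i j
    have e1 : z + τ.γ k + a = (z + a) + τ.γ k := by abel
    have e2 : z + τ.γ k - a = (z - a) + τ.γ k := by abel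
    have e3 : ip (z + a) (τ.γ k) + ip (z - a) (τ.γ k) = 2 * ip z (τ.γ k) := by
      unfold ip
      simp only [Prod.fst_add, Prod.snd_add, Prod.fst_sub, Prod.snd_sub]
      ring
    show F (z + τ.γ k + a) * F (z + τ.γ k - a) = _
    rw [e1, e2, hq, hq]
    have e4 : Complex.exp (2 * ((2 * κ : ℝ) : ℂ) * (ip z (τ.γ k) + (nsq (τ.γ k) : ℂ) / 2)) =
        Complex.exp (2 * κ * (ip (z + a) (τ.γ k) + (nsq (τ.γ k) : ℂ) / 2)) *
        Complex.exp (2 * κ * (ip (z - a) (τ.γ k) + (nsq (τ.γ k) : ℂ) / 2)) := by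
      rw [← Complex.exp_add]
      congr 1
      push_cast
      linear_combination (-(2 * (κ : ℂ))) * e3
    rw [e4]
    ring
  · obtain ⟨K, hK, hev⟩ := hT
    rw [eventually_nhdsWithin_iff, Metric.eventually_nhds_iff] at hev
    obtain ⟨ε, hε, hev⟩ := hev
    refine ⟨K ^ 2 * (4 ^ |T / 2|) ^ 2 * 4 ^ (i + j), by positivity, ?_⟩
    rw [eventually_nhdsWithin_iff, Metric.eventually_nhds_iff]
    refine ⟨ε / 2, by positivity, fun z hz hz0 => ?_⟩
    rw [dist_zero_right] at hz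
    have hz0' : z ≠ 0 := hz0
    have hn := BSEC_nsq_pos hz0'
    set R : ℝ := Real.sqrt (nsq z) / 4 with hRdef
    have hR : 0 < R := by positivity
    have hR2 : R ^ 2 = nsq z / 16 := by
      rw [hRdef, div_pow, Real.sq_sqrt hn.le]
      norm_num
    have hRz : R ≤ ‖z‖ := by
      have h1 : nsq z ≤ 2 * ‖z‖ ^ 2 := by
        unfold nsq
        have h2 := norm_fst_le z
        have h3 := norm_snd_le z
        have h4 : ‖z.1‖ ^ 2 ≤ ‖z‖ ^ 2 := by gcongr
        have h5 : ‖z.2‖ ^ 2 ≤ ‖z‖ ^ 2 := by gcongr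
        linarith
      have h2 : R ^ 2 ≤ ‖z‖ ^ 2 := by nlinarith [sq_nonneg ‖z‖]
      exact (abs_le_of_sq_le_sq' h2 (norm_nonneg z)).2
    have hbd : ∀ a : ℂ × ℂ, ‖a.1‖ = R → ‖a.2‖ = R →
        ‖F (z + a)‖ ≤ K * (4 ^ |T / 2| * nsq z ^ (T / 2)) := by
      intro a h1 h2
      obtain ⟨h3, h4⟩ := BSEC_near hR2 h1 h2
      have h5 : z + a ≠ 0 := by
        intro h0
        rw [h0] at h3
        have : nsq (0 : ℂ × ℂ) = 0 := by
          unfold nsq
          simp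
        rw [this] at h3
        linarith
      have h6 : ‖a‖ ≤ R := by
        rw [Prod.norm_def]
        exact max_le h1.le h2.le
      have h7 : ‖z + a‖ < ε := by
        calc ‖z + a‖ ≤ ‖z‖ + ‖a‖ := norm_add_le _ _
          _ ≤ ‖z‖ + ‖z‖ := by linarith
          _ < ε := by linarith
      refine (hev (by rw [dist_zero_right]; exact h7) h5).trans ?_
      exact mul_le_mul_of_nonneg_left (BSEC_rpow (T / 2) hn h3 h4) hK
    have hG : ∀ a : ℂ × ℂ, ‖a.1‖ = R → ‖a.2‖ = R → ‖F (z + a) * F (z - a)‖ ≤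
        (K * (4 ^ |T / 2| * nsq z ^ (T / 2))) ^ 2 := by
      intro a h1 h2
      have h3 := hbd a h1 h2
      have h4 := hbd (-a) (by simpa using h1) (by simpa using h2)
      rw [← sub_eq_add_neg] at h4
      rw [norm_mul, sq]
      exact mul_le_mul h3 h4 (norm_nonneg _) ((norm_nonneg _).trans h3)
    have hfin := hB3 i j z R _ hR hG
    refine hfin.trans (le_of_eq ?_)
    have e1 : (nsq z ^ (T / 2)) ^ 2 = nsq z ^ T := by
      rw [← Real.rpow_natCast, ← Real.rpow_mul hn.le]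
      congr 1
      push_cast
      ring
    have e2 : R ^ (i + j) = nsq z ^ (((i : ℝ) + j) / 2) / 4 ^ (i + j) := by
      rw [hRdef, div_pow]
      congr 1
      rw [Real.sqrt_eq_rpow, ← Real.rpow_natCast, ← Real.rpow_mul hn.le]
      congr 1
      push_cast
      ring
    have e3 : nsq z ^ ((2 * T - ((i : ℝ) + (j : ℝ))) / 2) =
        nsq z ^ T / nsq z ^ (((i : ℝ) + j) / 2) := by
      rw [← Real.rpow_sub hn]
      congr 1
      ring
    rw [e3, e2, mul_pow, mul_pow, e1]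
    have h4 : nsq z ^ (((i : ℝ) + j) / 2) ≠ 0 := (Real.rpow_pos_of_pos hn _).ne'
    field_simp

end Pool.Agent.KT
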