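import Pool.Agent.KT.St

/-!
# KT, module BUP: upper bound for the coefficients
-/

set_option autoImplicit false

open scoped BigOperators ComplexConjugate Topology
open MeasureTheory

namespace Pool.Agent.KT

/-- the parallelogram identity -/
theorem BUP_par (z a : ℂ × ℂ) : nsq (z + a) + nsq (z - a) = 2 * nsq z + 2 * nsq a := by
  unfold nsq
  have h := fun x y : ℂ => parallelogram_law_with_norm ℝ x y
  have h1 := h z.1 a.1
  have h2 := h z.2 a.2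
  simp only [Prod.fst_add, Prod.snd_add, Prod.fst_sub, Prod.snd_sub]
  nlinarith [h1, h2]

/-- the product of the values and the product of the norms -/
theorem BUP_nrm (κ : ℝ) (F : ℂ × ℂ → ℂ) (z a : ℂ × ℂ) :
    ‖F (z + a) * F (z - a)‖ = nrm κ F (z + a) * nrm κ F (z - a) *
      Real.exp (κ * (2 * nsq z + 2 * nsq a)) := by
  rw [← BUP_par, norm_mul]
  unfold nrm
  have h1 : Real.exp (-(κ * nsq (z + a))) * Real.exp (-(κ * nsq (z - a))) *
      Real.exp (κ * (nsq (z + a) + nsq (z - a))) = 1 := by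
    rw [← Real.exp_add, ← Real.exp_add, ← Real.exp_zero]
    congr 1
    ring
  calc ‖F (z + a)‖ * ‖F (z - a)‖ = ‖F (z + a)‖ * ‖F (z - a)‖ *
        (Real.exp (-(κ * nsq (z + a))) * Real.exp (-(κ * nsq (z - a))) *
      Real.exp (κ * (nsq (z + a) + nsq (z - a)))) := by rw [h1, mul_one]
    _ = _ := by ring

/-- the Cauchy estimate with the radius one -/
theorem BUP_cauchy (κ E : ℝ) (F : ℂ × ℂ → ℂ) (B : ℕ → ℕ → ℂ × ℂ → ℂ) (z : ℂ × ℂ)
    (hB : IsCoef F B)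
    (h : ∀ a : ℂ × ℂ, ‖a.1‖ ≤ 1 → ‖a.2‖ ≤ 1 →
      nrm κ F (z + a) * nrm κ F (z - a) ≤ Real.exp E) (i j : ℕ) :
    ‖B i j z‖ ≤ Real.exp (E + 4 * κ + 2 * κ * nsq z) := by
  have h1 := hB.2.2 i j z 1 (Real.exp (E + 4 * κ + 2 * κ * nsq z)) one_pos
    (fun a ha1 ha2 => by
      rw [BUP_nrm κ]
      have h2 : nsq a = 2 := by
        unfold nsq
        rw [ha1, ha2]
        norm_num
      rw [h2]
      refine (mul_le_mul_of_nonneg_right (h a ha1.le ha2.le) (Real.exp_pos _).le).trans ?_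
      rw [← Real.exp_add]
      refine Real.exp_le_exp.mpr ?_
      nlinarith)
  rwa [one_pow, div_one] at h1

theorem BUP_geom (x : ℝ) (hx : 0 ≤ x) (hx' : x ≤ 1 / 4) (m : ℕ) :
    ∑ i : Fin (m + 1), x ^ (i : ℕ) ≤ 4 / 3 := by
  rw [← Finset.sum_range fun i => x ^ i]
  have h1 : (∑ i ∈ Finset.range (m + 1), x ^ i) * (1 - x) = 1 - x ^ (m + 1) :=
    geom_sum_mul_neg x (m + 1)
  have h2 : 0 ≤ x ^ (m + 1) := pow_nonneg hx _
  have h3 : 0 ≤ ∑ i ∈ Finset.range (m + 1), x ^ i := Finset.sum_nonneg fun i _ => pow_nonneg hx _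
  nlinarith

theorem thm_BUP : St_BUP := by
  refine ⟨3, by norm_num, ?_⟩
  intro κ ρ S F B z m hκ hρ hρ' hB h
  have hb := BUP_cauchy κ (2 * S) F B z hB h
  set Bd := Real.exp (2 * S + 4 * κ + 2 * κ * nsq z) with hBd
  have hBd0 : 0 < Bd := Real.exp_pos _
  have h1 : ∀ p : Fin (m + 1) × Fin (m + 1),
      ‖(ρ : ℂ) ^ ((p.1 : ℕ) + (p.2 : ℕ)) * B p.1 p.2 z‖ ^ 2 ≤
      Bd ^ 2 * ((ρ ^ 2) ^ (p.1 : ℕ) * (ρ ^ 2) ^ (p.2 : ℕ)) := by
    intro p
    rw [norm_mul, norm_pow, Complex.norm_real, Real.norm_of_nonneg hρ.le, mul_pow, ← pow_mul]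
    have h2 : ‖B p.1 p.2 z‖ ^ 2 ≤ Bd ^ 2 := pow_le_pow_left₀ (norm_nonneg _) (hb _ _) 2
    have h3 : ρ ^ (((p.1 : ℕ) + (p.2 : ℕ)) * 2) = (ρ ^ 2) ^ (p.1 : ℕ) * (ρ ^ 2) ^ (p.2 : ℕ) := by
      rw [← pow_add, ← pow_mul, mul_comm]
    rw [h3, mul_comm]
    exact mul_le_mul_of_nonneg_right h2 (by positivity)
  refine (Finset.sum_le_sum fun p _ => h1 p).trans ?_
  rw [← Finset.mul_sum, Fintype.sum_prod_type]
  simp only [← Finset.mul_sum]
  rw [← Finset.sum_mul]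
  have h4 := BUP_geom (ρ ^ 2) (by positivity) (by nlinarith) m
  have h5 : 0 ≤ ∑ i : Fin (m + 1), (ρ ^ 2) ^ (i : ℕ) := Finset.sum_nonneg fun i _ => by positivity
  have h6 : (∑ i : Fin (m + 1), (ρ ^ 2) ^ (i : ℕ)) * ∑ i : Fin (m + 1), (ρ ^ 2) ^ (i : ℕ) ≤ 2 := by
    nlinarith
  have h7 : Bd ^ 2 = Real.exp (4 * S + 8 * κ + 4 * κ * nsq z) := by
    rw [hBd, ← Real.exp_nat_mul]
    congr 1
    push_cast
    ring
  have h8 : (2 : ℝ) ≤ Real.exp κ := by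
    have := Real.add_one_le_exp κ
    linarith
  calc Bd ^ 2 * ((∑ i : Fin (m + 1), (ρ ^ 2) ^ (i : ℕ)) * ∑ i : Fin (m + 1), (ρ ^ 2) ^ (i : ℕ))
      ≤ Bd ^ 2 * Real.exp κ := mul_le_mul_of_nonneg_left (h6.trans h8) (by positivity)
    _ ≤ Real.exp (4 * (S + 3 * κ + κ * nsq z)) := by
      rw [h7, ← Real.exp_add]
      refine Real.exp_le_exp.mpr ?_
      linarith

end Pool.Agent.KT
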