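import Pool.Agent.KT.St

open MeasureTheory Set

namespace Pool.Agent.KT

/-- the three functions from which the cut-off is built -/
theorem CHI_base : ∃ (β B C : ℝ → ℝ),
    ContDiff ℝ (⊤ : ℕ∞) C ∧ Continuous β ∧ (∀ t, 0 ≤ β t) ∧ (∀ t, β t ≠ 0 → t ∈ Set.Icc 0 (1 / 2)) ∧
    (∫ t, β t) = 1 ∧ (∀ t, HasDerivAt C (B t) t) ∧ (∀ t, HasDerivAt B (β t) t) ∧
    (∀ t, 0 ≤ B t) ∧ (∀ t, B t ≤ 1) ∧ (∀ t, t ≤ 0 → C t = 0) ∧
    (∃ c, ∀ t, 1 / 2 ≤ t → C t = c + t) := by
  let φ : ContDiffBump (1 / 4 : ℝ) := ⟨1 / 8, 1 / 4, by norm_num, by norm_num⟩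
  have hφs : Function.support (φ.normed volume) = Metric.ball (1 / 4 : ℝ) (1 / 4) :=
    φ.support_normed_eq
  have hβc : ContDiff ℝ (⊤ : ℕ∞) (φ.normed volume) := φ.contDiff_normed
  have hβcont : Continuous (φ.normed volume) := hβc.continuous
  have hβ0 : ∀ t, 0 ≤ φ.normed volume t := fun t => φ.nonneg_normed t
  have hβi : Integrable (φ.normed volume) volume := φ.integrable_normed
  have hβ1 : (∫ t, φ.normed volume t) = 1 := φ.integral_normed
  have hsupp : ∀ t, φ.normed volume t ≠ 0 → 0 < t ∧ t < 1 / 2 := by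
    intro t ht
    have h : t ∈ Function.support (φ.normed volume) := ht
    rw [hφs, Metric.mem_ball, Real.dist_eq, abs_lt] at h
    constructor <;> linarith [h.1, h.2]
  set β : ℝ → ℝ := φ.normed volume with hβdef
  let B : ℝ → ℝ := fun x => ∫ t in (0 : ℝ)..x, β t
  let C : ℝ → ℝ := fun x => ∫ t in (0 : ℝ)..x, B t
  have hB : ∀ t, HasDerivAt B (β t) t := fun t =>
    intervalIntegral.integral_hasDerivAt_right (hβcont.intervalIntegrable _ _)
      (hβcont.stronglyMeasurableAtFilter _ _) hβcont.continuousAt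
  have hBcont : Continuous B := continuous_iff_continuousAt.2 fun t => (hB t).continuousAt
  have hC : ∀ t, HasDerivAt C (B t) t := fun t =>
    intervalIntegral.integral_hasDerivAt_right (hBcont.intervalIntegrable _ _)
      (hBcont.stronglyMeasurableAtFilter _ _) hBcont.continuousAt
  have hdB : deriv B = β := funext fun t => (hB t).deriv
  have hdC : deriv C = B := funext fun t => (hC t).deriv
  have hBsm : ContDiff ℝ (⊤ : ℕ∞) B := by
    rw [contDiff_infty_iff_deriv]
    exact ⟨fun t => (hB t).differentiableAt, by rw [hdB]; exact hβc⟩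
  have hCsm : ContDiff ℝ (⊤ : ℕ∞) C := by
    rw [contDiff_infty_iff_deriv]
    exact ⟨fun t => (hC t).differentiableAt, by rw [hdC]; exact hBsm⟩
  have hBneg : ∀ t, t ≤ 0 → B t = 0 := by
    intro t ht
    show (∫ s in (0 : ℝ)..t, β s) = 0
    apply intervalIntegral.integral_zero_ae
    refine Filter.Eventually.of_forall fun s hs => ?_
    rw [Set.uIoc_of_ge ht] at hs
    by_contra h
    exact absurd (hsupp s h).1 (not_lt.2 hs.2)
  have hBint : ∀ t, B t = (∫ s, β s) - (∫ s in Set.Ioi t, β s) - (∫ s in Set.Iic (0 : ℝ), β s) := by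
    intro t
    have h1 : (∫ s in Set.Iic t, β s) - (∫ s in Set.Iic (0 : ℝ), β s) = ∫ s in (0 : ℝ)..t, β s :=
      intervalIntegral.integral_Iic_sub_Iic hβi.integrableOn hβi.integrableOn
    have h2 : (∫ s in Set.Iic t, β s) + (∫ s in Set.Ioi t, β s) = ∫ s, β s := by
      have := integral_add_compl (measurableSet_Iic (a := t)) hβi
      rwa [Set.compl_Iic] at this
    show (∫ s in (0 : ℝ)..t, β s) = _
    linarith
  have hIic0 : (∫ s in Set.Iic (0 : ℝ), β s) = 0 := by
    apply setIntegral_eq_zero_of_forall_eq_zero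
    intro s hs
    by_contra h
    exact absurd (hsupp s h).1 (not_lt.2 hs)
  have hIoi : ∀ t, 0 ≤ ∫ s in Set.Ioi t, β s := fun t => integral_nonneg fun s => hβ0 s
  have hB0 : ∀ t, 0 ≤ B t := by
    intro t
    rcases le_total t 0 with h | h
    · exact (hBneg t h).ge
    · exact intervalIntegral.integral_nonneg h fun s _ => hβ0 s
  have hB1 : ∀ t, B t ≤ 1 := by
    intro t
    rw [hBint t, hβ1, hIic0]
    linarith [hIoi t]
  have hBone : ∀ t, 1 / 2 ≤ t → B t = 1 := by
    intro t ht
    rw [hBint t, hβ1, hIic0]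
    have : (∫ s in Set.Ioi t, β s) = 0 := by
      apply setIntegral_eq_zero_of_forall_eq_zero
      intro s hs
      by_contra h
      have h2 := (hsupp s h).2
      have h3 : t < s := hs
      linarith
    rw [this]; ring
  refine ⟨β, B, C, hCsm, hβcont, hβ0, fun t ht => ⟨(hsupp t ht).1.le, (hsupp t ht).2.le⟩, hβ1, hC, hB,
    hB0, hB1, ?_, C (1 / 2) - 1 / 2, ?_⟩
  · intro t ht
    show (∫ s in (0 : ℝ)..t, B s) = 0
    apply intervalIntegral.integral_zero_ae
    refine Filter.Eventually.of_forall fun s hs => ?_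
    rw [Set.uIoc_of_ge ht] at hs
    exact hBneg s hs.2
  · intro t ht
    have h1 : (∫ s in (0 : ℝ)..(1 / 2), B s) + (∫ s in (1 / 2 : ℝ)..t, B s) = ∫ s in (0 : ℝ)..t, B s :=
      intervalIntegral.integral_add_adjacent_intervals (hBcont.intervalIntegrable _ _)
        (hBcont.intervalIntegrable _ _)
    have h2 : (∫ s in (1 / 2 : ℝ)..t, B s) = ∫ s in (1 / 2 : ℝ)..t, (1 : ℝ) := by
      apply intervalIntegral.integral_congr
      intro s hs
      rw [Set.uIcc_of_le ht] at hs
      exact hBone s hs.1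
    rw [intervalIntegral.integral_const] at h2
    show (∫ s in (0 : ℝ)..t, B s) = (∫ s in (0 : ℝ)..(1 / 2), B s) - 1 / 2 + t
    rw [← h1, h2, smul_eq_mul]
    ring

theorem thm_CHI : St_CHI := by
  intro p p' q hp hp' hpq hp'q
  obtain ⟨β, B, C, hCsm, hβc, hβ0, hβs, hβ1, hC, hB, hB0, hB1, hC0, c, hCc⟩ := CHI_base
  have hqp : 0 < q - p := by linarith
  have hqp' : 0 < q - p' := by linarith
  have hBcont : Continuous B := continuous_iff_continuousAt.2 fun t => (hB t).continuousAt
  -- increments of `C`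
  have hinc : ∀ x y, x ≤ y → 0 ≤ C y - C x ∧ C y - C x ≤ y - x := by
    intro x y hxy
    have hmono : Monotone C := monotone_of_deriv_nonneg (fun t => (hC t).differentiableAt)
      (fun t => by rw [(hC t).deriv]; exact hB0 t)
    have hmono2 : Monotone (fun t => t - C t) := by
      apply monotone_of_deriv_nonneg (fun t => differentiableAt_id.sub (hC t).differentiableAt)
      intro t
      rw [((hasDerivAt_id t).sub (hC t)).deriv]
      linarith [hB1 t]
    have h1 := hmono hxy
    have h2 := hmono2 hxy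
    simp only at h2
    constructor <;> linarith
  let g : ℝ → ℝ := fun t => (C (t - p) - C (t - q)) / (q - p)
  let h : ℝ → ℝ := fun t => (C (-t - p') - C (-t - q)) / (q - p')
  have hg0 : ∀ t, 0 ≤ g t := fun t => div_nonneg (hinc (t - q) (t - p) (by linarith)).1 hqp.le
  have hg1 : ∀ t, g t ≤ 1 := fun t => by
    show (C (t - p) - C (t - q)) / (q - p) ≤ 1
    rw [div_le_one hqp]
    linarith [(hinc (t - q) (t - p) (by linarith)).2]
  have hh0 : ∀ t, 0 ≤ h t := fun t => div_nonneg (hinc (-t - q) (-t - p') (by linarith)).1 hqp'.le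
  have hh1 : ∀ t, h t ≤ 1 := fun t => by
    show (C (-t - p') - C (-t - q)) / (q - p') ≤ 1
    rw [div_le_one hqp']
    linarith [(hinc (-t - q) (-t - p') (by linarith)).2]
  have hgz : ∀ t, t ≤ p → g t = 0 := fun t ht => by
    show (C (t - p) - C (t - q)) / (q - p) = 0
    rw [hC0 (t - p) (by linarith), hC0 (t - q) (by linarith)]
    simp
  have hhz : ∀ t, -p' ≤ t → h t = 0 := fun t ht => by
    show (C (-t - p') - C (-t - q)) / (q - p') = 0
    rw [hC0 (-t - p') (by linarith), hC0 (-t - q) (by linarith)]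
    simp
  have hgo : ∀ t, q + 1 / 2 ≤ t → g t = 1 := fun t ht => by
    show (C (t - p) - C (t - q)) / (q - p) = 1
    rw [hCc (t - p) (by linarith), hCc (t - q) (by linarith), div_eq_one_iff_eq hqp.ne']
    ring
  have hho : ∀ t, t ≤ -(q + 1 / 2) → h t = 1 := fun t ht => by
    show (C (-t - p') - C (-t - q)) / (q - p') = 1
    rw [hCc (-t - p') (by linarith), hCc (-t - q) (by linarith), div_eq_one_iff_eq hqp'.ne']
    ring
  have hgsm : ContDiff ℝ (⊤ : ℕ∞) g :=
    ((hCsm.comp (contDiff_id.sub contDiff_const)).sub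
      (hCsm.comp (contDiff_id.sub contDiff_const))).div_const _
  have hhsm : ContDiff ℝ (⊤ : ℕ∞) h :=
    ((hCsm.comp (contDiff_neg.sub contDiff_const)).sub
      (hCsm.comp (contDiff_neg.sub contDiff_const))).div_const _
  have key : ∀ (F F' : ℝ → ℝ), (∀ t, HasDerivAt F (F' t) t) → ∀ a t,
      HasDerivAt (fun t => F (t - a)) (F' (t - a)) t := fun F F' hF a t => by
    have := (hF (t - a)).comp t ((hasDerivAt_id t).sub_const a)
    rw [mul_one] at this
    exact this
  have key' : ∀ (F F' : ℝ → ℝ), (∀ t, HasDerivAt F (F' t) t) → ∀ a t,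
      HasDerivAt (fun t => F (-t - a)) (-F' (-t - a)) t := fun F F' hF a t => by
    have := (hF (-t - a)).comp t ((hasDerivAt_neg t).sub_const a)
    rw [mul_neg_one] at this
    exact this
  let χ : ℝ → ℝ := fun t => 1 - g t - h t
  let χ' : ℝ → ℝ := fun t => -((B (t - p) - B (t - q)) / (q - p)) +
    (B (-t - p') - B (-t - q)) / (q - p')
  have hχ' : ∀ t, HasDerivAt χ (χ' t) t := by
    intro t
    have h1 := ((key C B hC p t).sub (key C B hC q t)).div_const (q - p)
    have h2 := ((key' C B hC p' t).sub (key' C B hC q t)).div_const (q - p')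
    have h3 := (h1.const_sub 1).sub h2
    refine h3.congr_deriv ?_
    show _ = -((B (t - p) - B (t - q)) / (q - p)) + (B (-t - p') - B (-t - q)) / (q - p')
    ring
  have hχ'' : ∀ t, HasDerivAt χ' (-(β (t - p) / (q - p)) + β (t - q) / (q - p)
      - β (-t - p') / (q - p') + β (-t - q) / (q - p')) t := by
    intro t
    have h1 := ((key B β hB p t).sub (key B β hB q t)).div_const (q - p)
    have h2 := ((key' B β hB p' t).sub (key' B β hB q t)).div_const (q - p')
    have h3 := h1.neg.add h2
    refine h3.congr_deriv ?_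
    ring
  have hdχ : deriv χ = χ' := funext fun t => (hχ' t).deriv
  have hχz : ∀ t, q + 1 / 2 ≤ |t| → χ t = 0 := by
    intro t ht
    show 1 - g t - h t = 0
    rcases le_abs.1 ht with h1 | h1
    · rw [hgo t h1, hhz t (by linarith)]; ring
    · rw [hgz t (by linarith), hho t (by linarith)]; ring
  refine ⟨χ, fun t => β (t - p) / (q - p), fun t => β (t - q) / (q - p),
    fun t => β (-t - p') / (q - p'), fun t => β (-t - q) / (q - p'),
    (contDiff_const.sub hgsm).sub hhsm, ?_, ?_, ?_, ?_, hχz, ?_, ?_, ?_, ?_, ?_, ?_, ?_, ?_, ?_, ?_, ?_, ?_,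
    ?_, ?_, ?_, ?_, ?_⟩
  · apply HasCompactSupport.of_support_subset_isCompact (isCompact_Icc (a := -(q + 1 / 2)) (b := q + 1 / 2))
    intro t ht
    rw [Function.mem_support] at ht
    by_contra hn
    apply ht
    apply hχz
    rw [Set.mem_Icc, ← abs_le] at hn
    exact (not_le.1 hn).le
  · intro t
    show 0 ≤ 1 - g t - h t
    rcases le_total 0 t with h1 | h1
    · rw [hhz t (by linarith)]; linarith [hg1 t]
    · rw [hgz t (by linarith)]; linarith [hh1 t]
  · intro t
    show 1 - g t - h t ≤ 1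
    linarith [hg0 t, hh0 t]
  · intro t h1 h2
    show 1 - g t - h t = 1
    rw [hgz t h2, hhz t h1]; ring
  · exact (hβc.comp (continuous_id.sub continuous_const)).div_const _
  · exact (hβc.comp (continuous_id.sub continuous_const)).div_const _
  · exact (hβc.comp (continuous_neg.sub continuous_const)).div_const _
  · exact (hβc.comp (continuous_neg.sub continuous_const)).div_const _
  · exact fun t => div_nonneg (hβ0 _) hqp.le
  · exact fun t => div_nonneg (hβ0 _) hqp.le
  · exact fun t => div_nonneg (hβ0 _) hqp'.le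
  · exact fun t => div_nonneg (hβ0 _) hqp'.le
  · intro t
    rw [hdχ, (hχ'' t).deriv]
  · intro t ht
    have h1 := hβs (t - p) (fun h0 => ht (by simp [h0]))
    rw [Set.mem_Icc] at h1 ⊢
    constructor <;> linarith [h1.1, h1.2]
  · intro t ht
    have h1 := hβs (t - q) (fun h0 => ht (by simp [h0]))
    rw [Set.mem_Icc] at h1 ⊢
    constructor <;> linarith [h1.1, h1.2]
  · intro t ht
    have h1 := hβs (-t - p') (fun h0 => ht (by simp [h0]))
    rw [Set.mem_Icc] at h1 ⊢
    constructor <;> linarith [h1.1, h1.2]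
  · intro t ht
    have h1 := hβs (-t - q) (fun h0 => ht (by simp [h0]))
    rw [Set.mem_Icc] at h1 ⊢
    constructor <;> linarith [h1.1, h1.2]
  · rw [integral_div, integral_sub_right_eq_self β p, hβ1]
  · rw [integral_div, integral_sub_right_eq_self β q, hβ1]
  · have h1 : (fun t => β (-t - p') / (q - p')) = fun t => β (-p' - t) / (q - p') := by
      funext t; congr 2; ring
    rw [h1, integral_div, integral_sub_left_eq_self β volume (-p'), hβ1]
  · have h1 : (fun t => β (-t - q) / (q - p')) = fun t => β (-q - t) / (q - p') := by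
      funext t; congr 2; ring
    rw [h1, integral_div, integral_sub_left_eq_self β volume (-q), hβ1]

end Pool.Agent.KT
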