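import Pool.Agent.KT.St
import Pool.Agent.Squeeze.Smooth

/-!
# KT: coefficients of the Taylor expansion of a family of entire functions
-/

set_option autoImplicit false

open scoped BigOperators ComplexConjugate Topology Nat
open MeasureTheory Set Metric

namespace Pool.Agent.KT

/-- the derivative with respect to the last variable is entire -/
theorem COEF_deriv {E : Type} [NormedAddCommGroup E] [NormedSpace ℂ E] [FiniteDimensional ℂ E]
    {Φ : E × ℂ → ℂ} (h : Differentiable ℂ Φ) :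
    Differentiable ℂ (fun p : E × ℂ => deriv (fun t => Φ (p.1, t)) p.2) := by
  have h1 : Differentiable ℂ (fun p : E × ℂ => fderiv ℂ Φ p ((0 : E), (1 : ℂ))) := by
    have := Pool.Agent.Squeeze.differentiableOn_fderiv_apply (U := univ) h.differentiableOn
      isOpen_univ ((0 : E), (1 : ℂ))
    exact differentiableOn_univ.1 this
  have h2 : (fun p : E × ℂ => deriv (fun t => Φ (p.1, t)) p.2) =
      fun p : E × ℂ => fderiv ℂ Φ p ((0 : E), (1 : ℂ)) := by
    funext p
    have h3 : HasFDerivAt Φ (fderiv ℂ Φ p) (p.1, p.2) := (h p).hasFDerivAt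
    have h4 : HasDerivAt (fun t : ℂ => (p.1, t)) ((0 : E), (1 : ℂ)) p.2 :=
      (hasDerivAt_const p.2 p.1).prodMk (hasDerivAt_id p.2)
    exact (h3.comp_hasDerivAt p.2 h4).deriv
  rw [h2]
  exact h1

theorem COEF_iter {E : Type} [NormedAddCommGroup E] [NormedSpace ℂ E] [FiniteDimensional ℂ E]
    {Φ : E × ℂ → ℂ} (h : Differentiable ℂ Φ) (n : ℕ) :
    Differentiable ℂ (fun p : E × ℂ => iteratedDeriv n (fun t => Φ (p.1, t)) p.2) := by
  induction n with
  | zero => simpa [iteratedDeriv_zero] using h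
  | succ n ih =>
    have h1 := COEF_deriv ih
    have h2 : (fun p : E × ℂ => deriv (fun t => iteratedDeriv n (fun t => Φ (p.1, t)) t) p.2) =
        fun p : E × ℂ => iteratedDeriv (n + 1) (fun t => Φ (p.1, t)) p.2 := by
      funext p
      rw [iteratedDeriv_succ]
    rw [← h2]
    exact h1

/-- the Taylor coefficients of an entire function of one variable -/
noncomputable def COEF_c (n : ℕ) (f : ℂ → ℂ) : ℂ := (n ! : ℂ)⁻¹ * iteratedDeriv n f 0

theorem COEF_c_diff {E : Type} [NormedAddCommGroup E] [NormedSpace ℂ E] [FiniteDimensional ℂ E]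
    {Φ : E × ℂ → ℂ} (h : Differentiable ℂ Φ) (n : ℕ) :
    Differentiable ℂ (fun x : E => COEF_c n fun t => Φ (x, t)) := by
  have h1 := (COEF_iter h n).comp (differentiable_id.prodMk (differentiable_const (0 : ℂ)))
  exact h1.const_mul _

theorem COEF_c_sum {f : ℂ → ℂ} (h : Differentiable ℂ f) (t : ℂ) :
    HasSum (fun n => COEF_c n f * t ^ n) (f t) := by
  have h1 := Complex.hasSum_taylorSeries_of_entire h 0 t
  refine h1.congr_fun ?_
  intro n
  simp only [COEF_c, smul_eq_mul, sub_zero]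
  ring

theorem COEF_c_le {f : ℂ → ℂ} (h : Differentiable ℂ f) (n : ℕ) {R B : ℝ} (hR : 0 < R)
    (hB : ∀ t : ℂ, ‖t‖ = R → ‖f t‖ ≤ B) : ‖COEF_c n f‖ ≤ B / R ^ n := by
  have h1 := Complex.norm_iteratedDeriv_le_of_forall_mem_sphere_norm_le (c := 0) n hR
    h.diffContOnCl (fun z hz => hB z (by simpa using hz))
  have h2 : (0 : ℝ) < n ! := by exact_mod_cast Nat.factorial_pos n
  rw [COEF_c, norm_mul, norm_inv, Complex.norm_natCast, inv_mul_le_iff₀ h2, ← mul_div_assoc]
  exact h1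

theorem COEF_c_mul (f : ℂ → ℂ) (c : ℂ) (n : ℕ) : COEF_c n (fun t => c * f t) = c * COEF_c n f := by
  rw [COEF_c, COEF_c, iteratedDeriv_const_mul_field]
  ring

/-- coefficients of the Taylor expansion of a family of entire functions -/
theorem thm_COEF : St_COEF := by
  intro G hG
  obtain ⟨Φ, hΦe⟩ : ∃ Φ : ((ℂ × ℂ) × ℂ) × ℂ → ℂ, ∀ z a b, Φ ((z, a), b) = G z (a, b) :=
    ⟨fun p => G p.1.1 (p.1.2, p.2), fun _ _ _ => rfl⟩
  have hΦ : Differentiable ℂ Φ := by
    have h1 : Φ = fun p : ((ℂ × ℂ) × ℂ) × ℂ => G p.1.1 (p.1.2, p.2) := by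
      funext p
      exact hΦe p.1.1 p.1.2 p.2
    rw [h1]
    exact hG.comp (f := fun p : ((ℂ × ℂ) × ℂ) × ℂ => (p.1.1, (p.1.2, p.2)))
      ((differentiable_fst.fst).prodMk ((differentiable_fst.snd).prodMk differentiable_snd))
  have hc : ∀ j, Differentiable ℂ fun x : (ℂ × ℂ) × ℂ => COEF_c j fun t => Φ (x, t) :=
    fun j => COEF_c_diff hΦ j
  have hc1 : ∀ j z, Differentiable ℂ fun a : ℂ => COEF_c j fun t => Φ ((z, a), t) := fun j z =>
    (hc j).comp ((differentiable_const z).prodMk differentiable_id)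
  have hΦ1 : ∀ z a, Differentiable ℂ fun t : ℂ => Φ ((z, a), t) := fun z a =>
    hΦ.comp ((differentiable_const (z, a)).prodMk differentiable_id)
  have hest : ∀ (i j : ℕ) (z : ℂ × ℂ) (R Bd : ℝ), 0 < R →
      (∀ a : ℂ × ℂ, ‖a.1‖ = R → ‖a.2‖ = R → ‖G z a‖ ≤ Bd) →
      ‖COEF_c i fun a => COEF_c j fun t => Φ ((z, a), t)‖ ≤ Bd / R ^ (i + j) := by
    intro i j z R Bd hR hB
    have h1 : ∀ a : ℂ, ‖a‖ = R → ‖COEF_c j fun t => Φ ((z, a), t)‖ ≤ Bd / R ^ j := by
      intro a ha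
      exact COEF_c_le (hΦ1 z a) j hR fun t ht => by rw [hΦe]; exact hB (a, t) ha ht
    have h2 := COEF_c_le (hc1 j z) i hR h1
    rwa [div_div, ← pow_add, add_comm j i] at h2
  refine ⟨fun i j z => COEF_c i fun a => COEF_c j fun t => Φ ((z, a), t), ?_, ?_, hest, ?_⟩
  · intro i j
    exact COEF_c_diff (hc j) i
  · intro z a
    set R : ℝ := max ‖a.1‖ ‖a.2‖ + 1 with hR
    have hm : 0 ≤ max ‖a.1‖ ‖a.2‖ := le_max_of_le_left (norm_nonneg _)
    have hR0 : 0 < R := by linarith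
    have ha1 : ‖a.1‖ < R := by linarith [le_max_left ‖a.1‖ ‖a.2‖]
    have ha2 : ‖a.2‖ < R := by linarith [le_max_right ‖a.1‖ ‖a.2‖]
    have hcont : Continuous (G z) := by
      have h1 : Continuous fun a : ℂ × ℂ => (fun p : (ℂ × ℂ) × (ℂ × ℂ) => G p.1 p.2) (z, a) :=
        hG.continuous.comp (continuous_const.prodMk continuous_id)
      exact h1
    obtain ⟨Bd, hBd⟩ := (isCompact_closedBall (0 : ℂ × ℂ) R).exists_bound_of_continuousOn
      hcont.continuousOn
    have hB : ∀ a : ℂ × ℂ, ‖a.1‖ = R → ‖a.2‖ = R → ‖G z a‖ ≤ Bd := by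
      intro a h1 h2
      refine hBd a ?_
      rw [mem_closedBall_zero_iff, Prod.norm_def, h1, h2, max_self]
    set f : ℕ × ℕ → ℂ := fun p => (COEF_c p.1 fun a => COEF_c p.2 fun t => Φ ((z, a), t)) *
      a.1 ^ p.1 * a.2 ^ p.2 with hf
    have hsum : Summable f := by
      have g1 : Summable fun i : ℕ => (‖a.1‖ / R) ^ i :=
        summable_geometric_of_lt_one (by positivity) ((div_lt_one hR0).2 ha1)
      have g2 : Summable fun i : ℕ => (‖a.2‖ / R) ^ i :=
        summable_geometric_of_lt_one (by positivity) ((div_lt_one hR0).2 ha2)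
      have g3 := (g1.mul_of_nonneg g2 (fun i => by positivity) (fun i => by positivity)).mul_left Bd
      refine Summable.of_norm_bounded g3 ?_
      rintro ⟨i, j⟩
      have h1 := hest i j z R Bd hR0 hB
      simp only [hf]
      rw [norm_mul, norm_mul, norm_pow, norm_pow]
      calc _ ≤ Bd / R ^ (i + j) * ‖a.1‖ ^ i * ‖a.2‖ ^ j := by gcongr
        _ = Bd * ((‖a.1‖ / R) ^ i * (‖a.2‖ / R) ^ j) := by
          rw [div_pow, div_pow, pow_add]
          field_simp
    have h1 : HasSum (f ∘ Equiv.prodComm ℕ ℕ) (∑' p, f p) :=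
      (Equiv.prodComm ℕ ℕ).hasSum_iff.2 hsum.hasSum
    have h2 : ∀ j : ℕ, HasSum (fun i => (f ∘ Equiv.prodComm ℕ ℕ) (j, i))
        ((COEF_c j fun t => Φ ((z, a.1), t)) * a.2 ^ j) := by
      intro j
      exact (COEF_c_sum (hc1 j z) a.1).mul_right (a.2 ^ j)
    have h3 := h1.prod_fiberwise h2
    have h4 := COEF_c_sum (hΦ1 z a.1) a.2
    have h5 := h3.unique h4
    rw [hΦe] at h5
    have h6 := hsum.hasSum
    rw [h5] at h6
    exact h6
  · intro z z' c h i j
    have h1 : ∀ a t, Φ ((z', a), t) = c * Φ ((z, a), t) := by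
      intro a t
      rw [hΦe, hΦe, h]
    simp only [h1, COEF_c_mul]

end Pool.Agent.KT
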