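import Pool.Agent.KT.St

/-!
# KT, [GLUE] (helper98): gluing of a logarithmic pole

`plus κ w' = b + θ (a - b)` near the points of the lattice, `a = plus κ w + N`, `b = T lpole δ`, and
`w' = w + N` elsewhere.
-/

set_option autoImplicit false

open scoped BigOperators ComplexConjugate Topology
open MeasureTheory

namespace Pool.Agent.KT

/-! ### calculus of `d2` and `lev` -/

theorem GLUE_d2_congr {f g : ℂ × ℂ → ℝ} {z : ℂ × ℂ} (h : f =ᶠ[𝓝 z] g) (v w : ℂ × ℂ) :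
    d2 f v w z = d2 g v w z := by
  unfold d2
  have h1 : (fun z => fderiv ℝ f z v) =ᶠ[𝓝 z] (fun z => fderiv ℝ g z v) := by
    filter_upwards [h.fderiv (𝕜 := ℝ)] with y hy
    rw [hy]
  rw [h1.fderiv_eq]

theorem GLUE_lev_congr {f g : ℂ × ℂ → ℝ} {z : ℂ × ℂ} (h : f =ᶠ[𝓝 z] g) (v : ℂ × ℂ) :
    lev f v z = lev g v z := by
  unfold lev
  rw [GLUE_d2_congr h, GLUE_d2_congr h]

theorem GLUE_c1 {f : ℂ × ℂ → ℝ} (hf : ContDiff ℝ 2 f) (v : ℂ × ℂ) :
    ContDiff ℝ 1 (fun z => fderiv ℝ f z v) :=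
  (hf.fderiv_right (m := 1) (by norm_num)).clm_apply contDiff_const

theorem GLUE_df {f : ℂ × ℂ → ℝ} (hf : ContDiff ℝ 2 f) (z : ℂ × ℂ) : DifferentiableAt ℝ f z :=
  hf.differentiable (by norm_num) z

theorem GLUE_dd {f : ℂ × ℂ → ℝ} (hf : ContDiff ℝ 2 f) (v z : ℂ × ℂ) :
    DifferentiableAt ℝ (fun z => fderiv ℝ f z v) z :=
  (GLUE_c1 hf v).differentiable (by norm_num) z

theorem GLUE_d2_add {f g : ℂ × ℂ → ℝ} (hf : ContDiff ℝ 2 f) (hg : ContDiff ℝ 2 g)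
    (v w z : ℂ × ℂ) : d2 (fun z => f z + g z) v w z = d2 f v w z + d2 g v w z := by
  unfold d2
  have h1 : (fun z => fderiv ℝ (fun z => f z + g z) z v) =
      fun z => fderiv ℝ f z v + fderiv ℝ g z v := by
    funext y
    rw [fderiv_fun_add (GLUE_df hf y) (GLUE_df hg y)]
    rfl
  rw [h1, fderiv_fun_add (GLUE_dd hf v z) (GLUE_dd hg v z)]
  rfl

theorem GLUE_d2_smul {f : ℂ × ℂ → ℝ} (hf : ContDiff ℝ 2 f) (c : ℝ)
    (v w z : ℂ × ℂ) : d2 (fun z => c * f z) v w z = c * d2 f v w z := by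
  unfold d2
  have h1 : (fun z => fderiv ℝ (fun z => c * f z) z v) = fun z => c * fderiv ℝ f z v := by
    funext y
    rw [fderiv_const_mul (GLUE_df hf y)]
    rfl
  rw [h1, fderiv_const_mul (GLUE_dd hf v z)]
  rfl

theorem GLUE_lev_add {f g : ℂ × ℂ → ℝ} (hf : ContDiff ℝ 2 f) (hg : ContDiff ℝ 2 g)
    (v z : ℂ × ℂ) : lev (fun z => f z + g z) v z = lev f v z + lev g v z := by
  unfold lev
  rw [GLUE_d2_add hf hg, GLUE_d2_add hf hg]
  ring

theorem GLUE_lev_smul {f : ℂ × ℂ → ℝ} (hf : ContDiff ℝ 2 f) (c : ℝ)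
    (v z : ℂ × ℂ) : lev (fun z => c * f z) v z = c * lev f v z := by
  unfold lev
  rw [GLUE_d2_smul hf, GLUE_d2_smul hf]
  ring

theorem GLUE_d2_tr (f : ℂ × ℂ → ℝ) (c v w z : ℂ × ℂ) :
    d2 (fun z => f (z + c)) v w z = d2 f v w (z + c) := by
  unfold d2
  have h1 : (fun z => fderiv ℝ (fun z => f (z + c)) z v) =
      fun z => (fun y => fderiv ℝ f y v) (z + c) := by
    funext y
    rw [fderiv_comp_add_right]
  rw [h1]
  have h2 : fderiv ℝ (fun z => (fun y => fderiv ℝ f y v) (z + c)) z =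
      fderiv ℝ (fun y => fderiv ℝ f y v) (z + c) :=
    fderiv_comp_add_right (𝕜 := ℝ) (f := fun y => fderiv ℝ f y v) c
  rw [h2]

theorem GLUE_lev_tr (f : ℂ × ℂ → ℝ) (c v z : ℂ × ℂ) :
    lev (fun z => f (z + c)) v z = lev f v (z + c) := by
  unfold lev
  rw [GLUE_d2_tr, GLUE_d2_tr]

theorem GLUE_lev_const (N : ℝ) (v z : ℂ × ℂ) : lev (fun _ => N) v z = 0 := by
  unfold lev d2
  simp

theorem GLUE_d2_comp {g : ℂ × ℂ → ℝ} {θ θ₁ θ₂ : ℝ → ℝ} (h1 : ∀ s, HasDerivAt θ (θ₁ s) s)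
    (h2 : ∀ s, HasDerivAt θ₁ (θ₂ s) s) (hg : ContDiff ℝ 2 g) (v z : ℂ × ℂ) :
    d2 (fun z => θ (g z)) v v z =
      θ₂ (g z) * (fderiv ℝ g z v) ^ 2 + θ₁ (g z) * d2 g v v z := by
  unfold d2
  have e1 : (fun z => fderiv ℝ (fun z => θ (g z)) z v) =
      fun z => θ₁ (g z) * fderiv ℝ g z v := by
    funext y
    have hd : HasFDerivAt g (fderiv ℝ g y) y := (GLUE_df hg y).hasFDerivAt
    have h3 : HasFDerivAt (fun z => θ (g z)) (θ₁ (g y) • fderiv ℝ g y) y :=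
      (h1 (g y)).comp_hasFDerivAt y hd
    rw [h3.fderiv]
    rfl
  rw [e1]
  have hd : HasFDerivAt g (fderiv ℝ g z) z := (GLUE_df hg z).hasFDerivAt
  have a1 : HasFDerivAt (fun z => θ₁ (g z)) (θ₂ (g z) • fderiv ℝ g z) z :=
    (h2 (g z)).comp_hasFDerivAt z hd
  have a2 : HasFDerivAt (fun z => fderiv ℝ g z v) (fderiv ℝ (fun z => fderiv ℝ g z v) z) z :=
    (GLUE_dd hg v z).hasFDerivAt
  rw [(a1.fun_mul a2).fderiv]
  simp only [FunLike.coe_add, FunLike.coe_smul, Pi.add_apply, Pi.smul_apply, smul_eq_mul]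
  ring

/-! ### the function `θ` -/

theorem GLUE_hq (k : ℕ) (s : ℝ) :
    HasDerivAt (fun s : ℝ => max s 0 ^ (k + 2)) (((k : ℝ) + 2) * max s 0 ^ (k + 1)) s := by
  have hne : ∀ y : ℝ, y ≠ 0 → HasDerivAt (fun s : ℝ => max s 0 ^ (k + 2))
      (((k : ℝ) + 2) * max y 0 ^ (k + 1)) y := by
    intro y hy
    rcases lt_or_gt_of_ne hy with h | h
    · have e : (fun s : ℝ => max s 0 ^ (k + 2)) =ᶠ[𝓝 y] fun _ => (0 : ℝ) := by
        filter_upwards [Iio_mem_nhds h] with x hx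
        rw [max_eq_right (le_of_lt hx)]
        simp
      rw [max_eq_right h.le]
      have h5 := (hasDerivAt_const y (0 : ℝ)).congr_of_eventuallyEq e
      simpa using h5
    · have e : (fun s : ℝ => max s 0 ^ (k + 2)) =ᶠ[𝓝 y] fun s => s ^ (k + 2) := by
        filter_upwards [Ioi_mem_nhds h] with x hx
        rw [max_eq_left (le_of_lt hx)]
      rw [max_eq_left h.le]
      have h5 := (hasDerivAt_pow (k + 2) y).congr_of_eventuallyEq e
      have h6 : ((k + 2 : ℕ) : ℝ) * y ^ (k + 2 - 1) = ((k : ℝ) + 2) * y ^ (k + 1) := by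
        push_cast
        rfl
      rw [h6] at h5
      exact h5
  by_cases hs : s = 0
  · subst hs
    refine hasDerivAt_of_hasDerivAt_of_ne (x := 0)
      (g := fun s => ((k : ℝ) + 2) * max s 0 ^ (k + 1)) hne ?_ ?_
    · exact ((continuous_id.max continuous_const).pow _).continuousAt
    · exact (continuous_const.mul ((continuous_id.max continuous_const).pow _)).continuousAt
  · exact hne s hs

theorem GLUE_hqs (k : ℕ) (c s : ℝ) :
    HasDerivAt (fun s : ℝ => max (s + c) 0 ^ (k + 2)) (((k : ℝ) + 2) * max (s + c) 0 ^ (k + 1)) s := by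
  have h := GLUE_hq k (s + c)
  exact h.comp_add_const s c

/-- the smooth maximum -/
noncomputable def GLUE_th (s : ℝ) : ℝ :=
  1 / 4 * max (s + 1) 0 ^ 3 - 1 / 16 * max (s + 1) 0 ^ 4 + 1 / 4 * max (s + -1) 0 ^ 3
    + 1 / 16 * max (s + -1) 0 ^ 4

/-- its derivative -/
noncomputable def GLUE_th1 (s : ℝ) : ℝ :=
  3 / 4 * max (s + 1) 0 ^ 2 - 1 / 4 * max (s + 1) 0 ^ 3 + 3 / 4 * max (s + -1) 0 ^ 2
    + 1 / 4 * max (s + -1) 0 ^ 3

/-- its second derivative -/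
noncomputable def GLUE_th2 (s : ℝ) : ℝ :=
  3 / 2 * max (s + 1) 0 - 3 / 4 * max (s + 1) 0 ^ 2 + 3 / 2 * max (s + -1) 0
    + 3 / 4 * max (s + -1) 0 ^ 2

theorem GLUE_h1 (s : ℝ) : HasDerivAt GLUE_th (GLUE_th1 s) s := by
  have a := (GLUE_hqs 1 1 s).const_mul (1 / 4 : ℝ)
  have b := (GLUE_hqs 2 1 s).const_mul (1 / 16 : ℝ)
  have c := (GLUE_hqs 1 (-1) s).const_mul (1 / 4 : ℝ)
  have d := (GLUE_hqs 2 (-1) s).const_mul (1 / 16 : ℝ)
  have h := ((a.fun_sub b).fun_add c).fun_add d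
  unfold GLUE_th
  have e : GLUE_th1 s = 1 / 4 * (((1 : ℕ) + 2 : ℝ) * max (s + 1) 0 ^ (1 + 1))
      - 1 / 16 * (((2 : ℕ) + 2 : ℝ) * max (s + 1) 0 ^ (2 + 1))
      + 1 / 4 * (((1 : ℕ) + 2 : ℝ) * max (s + -1) 0 ^ (1 + 1))
      + 1 / 16 * (((2 : ℕ) + 2 : ℝ) * max (s + -1) 0 ^ (2 + 1)) := by
    unfold GLUE_th1
    push_cast
    ring
  rw [e]
  exact h

theorem GLUE_h2 (s : ℝ) : HasDerivAt GLUE_th1 (GLUE_th2 s) s := by
  have a := (GLUE_hqs 0 1 s).const_mul (3 / 4 : ℝ)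
  have b := (GLUE_hqs 1 1 s).const_mul (1 / 4 : ℝ)
  have c := (GLUE_hqs 0 (-1) s).const_mul (3 / 4 : ℝ)
  have d := (GLUE_hqs 1 (-1) s).const_mul (1 / 4 : ℝ)
  have h := ((a.fun_sub b).fun_add c).fun_add d
  unfold GLUE_th1
  have e : GLUE_th2 s = 3 / 4 * (((0 : ℕ) + 2 : ℝ) * max (s + 1) 0 ^ (0 + 1))
      - 1 / 4 * (((1 : ℕ) + 2 : ℝ) * max (s + 1) 0 ^ (1 + 1))
      + 3 / 4 * (((0 : ℕ) + 2 : ℝ) * max (s + -1) 0 ^ (0 + 1))
      + 1 / 4 * (((1 : ℕ) + 2 : ℝ) * max (s + -1) 0 ^ (1 + 1)) := by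
    unfold GLUE_th2
    push_cast
    ring
  rw [e]
  exact h

theorem GLUE_cont2 : Continuous GLUE_th2 := by
  unfold GLUE_th2
  fun_prop

theorem GLUE_cd : ContDiff ℝ 2 GLUE_th := by
  have e1 : deriv GLUE_th = GLUE_th1 := by
    funext s
    exact (GLUE_h1 s).deriv
  have e2 : deriv GLUE_th1 = GLUE_th2 := by
    funext s
    exact (GLUE_h2 s).deriv
  have h2 : ContDiff ℝ 1 GLUE_th1 := by
    rw [contDiff_one_iff_deriv]
    refine ⟨fun s => (GLUE_h2 s).differentiableAt, ?_⟩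
    rw [e2]
    exact GLUE_cont2
  rw [show (2 : WithTop ℕ∞) = 1 + 1 from one_add_one_eq_two.symm, contDiff_succ_iff_deriv]
  refine ⟨fun s => (GLUE_h1 s).differentiableAt, ?_, ?_⟩
  · intro h
    simp at h
  · rw [e1]
    exact h2

theorem GLUE_low (s : ℝ) (h : s ≤ -1) : GLUE_th s = 0 := by
  unfold GLUE_th
  rw [max_eq_right (by linarith : s + 1 ≤ 0), max_eq_right (by linarith : s + -1 ≤ 0)]
  norm_num

theorem GLUE_high (s : ℝ) (h : 1 ≤ s) : GLUE_th s = s := by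
  unfold GLUE_th
  rw [max_eq_left (by linarith : 0 ≤ s + 1), max_eq_left (by linarith : 0 ≤ s + -1)]
  ring

theorem GLUE_b1 (s : ℝ) : 0 ≤ GLUE_th1 s ∧ GLUE_th1 s ≤ 1 := by
  unfold GLUE_th1
  rcases le_total s (-1) with h | h
  · rw [max_eq_right (by linarith : s + 1 ≤ 0), max_eq_right (by linarith : s + -1 ≤ 0)]
    norm_num
  · rcases le_total s 1 with h' | h'
    · rw [max_eq_left (by linarith : 0 ≤ s + 1), max_eq_right (by linarith : s + -1 ≤ 0)]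
      constructor
      · have h3 : 0 ≤ (s + 1) ^ 2 * (2 - s) := mul_nonneg (sq_nonneg _) (by linarith)
        nlinarith [h3]
      · have h3 : 0 ≤ (s - 1) ^ 2 * (s + 2) := mul_nonneg (sq_nonneg _) (by linarith)
        nlinarith [h3]
    · rw [max_eq_left (by linarith : 0 ≤ s + 1), max_eq_left (by linarith : 0 ≤ s + -1)]
      constructor <;> nlinarith

theorem GLUE_b2 (s : ℝ) : 0 ≤ GLUE_th2 s := by
  unfold GLUE_th2
  rcases le_total s (-1) with h | h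
  · rw [max_eq_right (by linarith : s + 1 ≤ 0), max_eq_right (by linarith : s + -1 ≤ 0)]
    norm_num
  · rcases le_total s 1 with h' | h'
    · rw [max_eq_left (by linarith : 0 ≤ s + 1), max_eq_right (by linarith : s + -1 ≤ 0)]
      have h3 : 0 ≤ (s + 1) * (1 - s) := mul_nonneg (by linarith) (by linarith)
      nlinarith [h3]
    · rw [max_eq_left (by linarith : 0 ≤ s + 1), max_eq_left (by linarith : 0 ≤ s + -1)]
      nlinarith

/-! ### the smooth maximum of two plurisubharmonic functions -/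

theorem GLUE_max {a b : ℂ × ℂ → ℝ} (ha : Psh 2 a) (hb : Psh 2 b) :
    Psh 2 (fun z => b z + GLUE_th (a z + -1 * b z)) := by
  have ha2 : ContDiff ℝ 2 a := ha.1
  have hb2 : ContDiff ℝ 2 b := hb.1
  have hg1 : ContDiff ℝ 2 (fun z => -1 * b z) := contDiff_const.mul hb2
  have hg : ContDiff ℝ 2 (fun z => a z + -1 * b z) := ha2.add hg1
  have hθ : ContDiff ℝ 2 (fun z => GLUE_th (a z + -1 * b z)) := GLUE_cd.comp hg
  refine ⟨hb2.add hθ, fun z v => ?_⟩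
  rw [GLUE_lev_add hb2 hθ]
  have e1 : lev (fun z => GLUE_th (a z + -1 * b z)) v z =
      GLUE_th2 (a z + -1 * b z) * ((fderiv ℝ (fun z => a z + -1 * b z) z v) ^ 2 +
        (fderiv ℝ (fun z => a z + -1 * b z) z (mi v)) ^ 2) +
      GLUE_th1 (a z + -1 * b z) * lev (fun z => a z + -1 * b z) v z := by
    unfold lev
    rw [GLUE_d2_comp GLUE_h1 GLUE_h2 hg, GLUE_d2_comp GLUE_h1 GLUE_h2 hg]
    ring
  rw [e1, GLUE_lev_add ha2 hg1, GLUE_lev_smul hb2]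
  obtain ⟨t1, t2⟩ := GLUE_b1 (a z + -1 * b z)
  have t3 := GLUE_b2 (a z + -1 * b z)
  have p1 := ha.2 z v
  have p2 := hb.2 z v
  have q1 : 0 ≤ GLUE_th2 (a z + -1 * b z) * ((fderiv ℝ (fun z => a z + -1 * b z) z v) ^ 2 +
        (fderiv ℝ (fun z => a z + -1 * b z) z (mi v)) ^ 2) := by positivity
  have q2 : 0 ≤ GLUE_th1 (a z + -1 * b z) * lev a v z := mul_nonneg t1 p1
  have q3 : 0 ≤ (1 - GLUE_th1 (a z + -1 * b z)) * lev b v z := mul_nonneg (by linarith) p2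
  nlinarith [q1, q2, q3]

/-! ### the pole -/

theorem GLUE_pole (hL : St_LOG) (T δ : ℝ) (hT : 0 ≤ T) (hδ : 0 < δ) :
    Psh 2 (fun z => T * lpole δ z) := by
  have h := hL (Fin 2) ![fun z => z.1, fun z => z.2] 0 δ (by
    intro j
    fin_cases j
    · exact differentiable_fst
    · exact differentiable_snd) le_rfl hδ
  have e : (fun z => T * lpole δ z) =
      fun z => (T / 2) * lgs (![fun z => z.1, fun z => z.2] : Fin 2 → ℂ × ℂ → ℂ) 0 δ z := by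
    funext z
    unfold lpole lgs nsq
    rw [Fin.sum_univ_two]
    simp
    ring
  have h2 : ContDiff ℝ 2 (lgs (![fun z => z.1, fun z => z.2] : Fin 2 → ℂ × ℂ → ℂ) 0 δ) :=
    h.1.of_le (WithTop.coe_le_coe.2 (le_top : (2 : ℕ∞) ≤ ⊤))
  rw [e]
  refine ⟨contDiff_const.mul h2, fun z v => ?_⟩
  rw [GLUE_lev_smul h2]
  exact mul_nonneg (by linarith) (h.2 z v)

/-! ### the lattice -/

/-- the points of the lattice -/
noncomputable def GLUE_L (τ : Tor) (n : Fin 3 → ℤ) : ℂ × ℂ := ∑ i, n i • τ.γ i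

theorem GLUE_L_add (τ : Tor) (n m : Fin 3 → ℤ) : GLUE_L τ (n + m) = GLUE_L τ n + GLUE_L τ m := by
  unfold GLUE_L
  rw [← Finset.sum_add_distrib]
  refine Finset.sum_congr rfl fun i _ => ?_
  rw [Pi.add_apply, add_smul]

theorem GLUE_L_zero (τ : Tor) : GLUE_L τ 0 = 0 := by
  unfold GLUE_L
  simp

theorem GLUE_L_single (τ : Tor) (i : Fin 3) : GLUE_L τ (Pi.single i 1) = τ.γ i := by
  unfold GLUE_L
  rw [Finset.sum_eq_single i]
  · simp
  · intro j _ hj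
    simp [hj]
  · intro h
    exact absurd (Finset.mem_univ i) h

theorem GLUE_L_fst (τ : Tor) (n : Fin 3 → ℤ) :
    (GLUE_L τ n).1 = ((∑ i, (n i : ℝ) * τ.a i : ℝ) : ℂ) := by
  unfold GLUE_L
  rw [Prod.fst_sum]
  push_cast
  refine Finset.sum_congr rfl fun i _ => ?_
  rw [Prod.smul_fst]
  unfold Tor.γ
  simp

theorem GLUE_L_snd (τ : Tor) (n : Fin 3 → ℤ) :
    (GLUE_L τ n).2 = ∑ i, (n i : ℝ) • τ.b i := by
  unfold GLUE_L
  rw [Prod.snd_sum]
  refine Finset.sum_congr rfl fun i _ => ?_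
  rw [Prod.smul_snd]
  unfold Tor.γ
  simp

theorem GLUE_L_ht (τ : Tor) (n : Fin 3 → ℤ) (z : ℂ × ℂ) : ht (z - GLUE_L τ n) = ht z := by
  unfold ht
  rw [Prod.fst_sub, GLUE_L_fst, Complex.sub_im, Complex.ofReal_im, sub_zero]

theorem GLUE_sep (τ : Tor) : ∃ c : ℝ, 0 < c ∧ ∀ n : Fin 3 → ℤ, n ≠ 0 → c ≤ ‖GLUE_L τ n‖ := by
  set v : Fin 3 → ℝ × ℂ := fun i => (τ.a i, τ.b i) with hv
  set f := Fintype.linearCombination ℝ v with hf
  have hinj : Function.Injective f := linearIndependent_iff_injective_fintypeLinearCombination.1 τ.li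
  obtain ⟨K, hK0, hK⟩ := LinearMap.exists_antilipschitzWith f (LinearMap.ker_eq_bot.2 hinj)
  have hK0' : (0 : ℝ) < K := by exact_mod_cast hK0
  refine ⟨1 / K, by positivity, fun n hn => ?_⟩
  set x : Fin 3 → ℝ := fun i => (n i : ℝ) with hx
  have h1 : ‖x‖ ≤ K * ‖f x‖ := by
    have h2 := hK.le_mul_dist x 0
    rw [map_zero, dist_zero_right, dist_zero_right] at h2
    exact h2
  have h3 : 1 ≤ ‖x‖ := by
    obtain ⟨i, hi⟩ : ∃ i, n i ≠ 0 := by
      by_contra hc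
      push Not at hc
      exact hn (funext hc)
    refine le_trans ?_ (norm_le_pi_norm x i)
    rw [Real.norm_eq_abs]
    show (1 : ℝ) ≤ |((n i : ℤ) : ℝ)|
    have h4 : 1 ≤ |n i| := Int.one_le_abs hi
    exact_mod_cast h4
  have h5 : ‖f x‖ = ‖GLUE_L τ n‖ := by
    have e : f x = (∑ i, (n i : ℝ) * τ.a i, ∑ i, (n i : ℝ) • τ.b i) := by
      rw [hf, Fintype.linearCombination_apply]
      apply Prod.ext
      · rw [Prod.fst_sum]
        rfl
      · rw [Prod.snd_sum]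
        rfl
    rw [e, Prod.norm_def, Prod.norm_def, GLUE_L_fst, GLUE_L_snd, Complex.norm_real]
  rw [← h5, div_le_iff₀ hK0']
  linarith [h1.trans_eq (mul_comm _ _)]

theorem GLUE_per {τ : Tor} {w : ℂ × ℂ → ℝ} (hw : τ.Per w) (n : Fin 3 → ℤ) (z : ℂ × ℂ) :
    w (z - GLUE_L τ n) = w z := by
  have h0 : ∀ i, Function.Periodic w (τ.γ i) := fun i z => hw z i
  have h1 : Function.Periodic w (GLUE_L τ n) := by
    unfold GLUE_L
    rw [Fin.sum_univ_three]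
    exact (((h0 0).zsmul (n 0)).add_period ((h0 1).zsmul (n 1))).add_period ((h0 2).zsmul (n 2))
  have h2 := h1 (z - GLUE_L τ n)
  rw [sub_add_cancel] at h2
  exact h2.symm

/-! ### the norm -/

theorem GLUE_n1 (z : ℂ × ℂ) : ‖z‖ ^ 2 ≤ nsq z := by
  unfold nsq
  rw [Prod.norm_def]
  rcases le_total ‖z.1‖ ‖z.2‖ with h | h
  · rw [max_eq_right h]
    nlinarith [sq_nonneg ‖z.1‖]
  · rw [max_eq_left h]
    nlinarith [sq_nonneg ‖z.2‖]

theorem GLUE_n2 (z : ℂ × ℂ) (r : ℝ) (hr : 0 < r) (h : nsq z < r ^ 2) : ‖z‖ < r := by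
  have h1 := (GLUE_n1 z).trans_lt h
  exact lt_of_pow_lt_pow_left₀ 2 hr.le h1

theorem GLUE_n3 (u h : ℂ × ℂ) : nsq (u + h) ≤ nsq u + 4 * ‖u‖ * ‖h‖ + 2 * ‖h‖ ^ 2 := by
  unfold nsq
  have h1 : ‖(u + h).1‖ ≤ ‖u.1‖ + ‖h.1‖ := norm_add_le _ _
  have h2 : ‖(u + h).2‖ ≤ ‖u.2‖ + ‖h.2‖ := norm_add_le _ _
  have a1 : ‖u.1‖ ≤ ‖u‖ := norm_fst_le u
  have a2 : ‖u.2‖ ≤ ‖u‖ := norm_snd_le u
  have b1 : ‖h.1‖ ≤ ‖h‖ := norm_fst_le h
  have b2 : ‖h.2‖ ≤ ‖h‖ := norm_snd_le h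
  have c1 : ‖(u + h).1‖ ^ 2 ≤ (‖u.1‖ + ‖h.1‖) ^ 2 := pow_le_pow_left₀ (norm_nonneg _) h1 2
  have c2 : ‖(u + h).2‖ ^ 2 ≤ (‖u.2‖ + ‖h.2‖) ^ 2 := pow_le_pow_left₀ (norm_nonneg _) h2 2
  have d1 : ‖u.1‖ * ‖h.1‖ ≤ ‖u‖ * ‖h‖ := mul_le_mul a1 b1 (norm_nonneg _) (norm_nonneg _)
  have d2 : ‖u.2‖ * ‖h.2‖ ≤ ‖u‖ * ‖h‖ := mul_le_mul a2 b2 (norm_nonneg _) (norm_nonneg _)
  have e1 : ‖h.1‖ ^ 2 ≤ ‖h‖ ^ 2 := pow_le_pow_left₀ (norm_nonneg _) b1 2
  have e2 : ‖h.2‖ ^ 2 ≤ ‖h‖ ^ 2 := pow_le_pow_left₀ (norm_nonneg _) b2 2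
  nlinarith [c1, c2, d1, d2, e1, e2]

/-! ### the glued function -/

theorem GLUE_ex (τ : Tor) (κ N r₀ r₃ : ℝ) (w m : ℂ × ℂ → ℝ) (hr3 : 0 < r₃) (hr : r₃ ≤ r₀)
    (hs : ∀ n : Fin 3 → ℤ, n ≠ 0 → 2 * r₀ ≤ ‖GLUE_L τ n‖) :
    ∃ w' : ℂ × ℂ → ℝ,
      (∀ z n, nsq (z - GLUE_L τ n) < r₃ ^ 2 →
        w' z = m (z - GLUE_L τ n) - κ * nsq (z - GLUE_L τ n)) ∧
      ∀ z, (∀ n, ¬ nsq (z - GLUE_L τ n) < r₃ ^ 2) → w' z = w z + N := by
  classical
  have huniq : ∀ z (n n' : Fin 3 → ℤ), nsq (z - GLUE_L τ n) < r₃ ^ 2 →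
      nsq (z - GLUE_L τ n') < r₃ ^ 2 → n = n' := by
    intro z n n' h h'
    by_contra hne
    have h1 := GLUE_n2 _ _ hr3 h
    have h2 := GLUE_n2 _ _ hr3 h'
    have h3 := hs (n - n') (sub_ne_zero.2 hne)
    have h4 : GLUE_L τ (n - n') = (z - GLUE_L τ n') - (z - GLUE_L τ n) := by
      have h5 := GLUE_L_add τ (n - n') n'
      rw [sub_add_cancel] at h5
      rw [h5]
      abel
    have h6 : ‖GLUE_L τ (n - n')‖ ≤ ‖z - GLUE_L τ n'‖ + ‖z - GLUE_L τ n‖ := by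
      rw [h4]
      exact norm_sub_le _ _
    linarith
  refine ⟨fun z => if h : ∃ n, nsq (z - GLUE_L τ n) < r₃ ^ 2 then
    m (z - GLUE_L τ h.choose) - κ * nsq (z - GLUE_L τ h.choose) else w z + N, ?_, ?_⟩
  · intro z n hn
    have h : ∃ n, nsq (z - GLUE_L τ n) < r₃ ^ 2 := ⟨n, hn⟩
    have h1 : h.choose = n := huniq z _ _ h.choose_spec hn
    simp only [dif_pos h, h1]
  · intro z hz
    have h : ¬ ∃ n, nsq (z - GLUE_L τ n) < r₃ ^ 2 := by
      rintro ⟨n, hn⟩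
      exact hz n hn
    simp only [dif_neg h]

theorem thm_GLUE (τ : Tor) (hL : St_LOG) (hN : St_NSQ) : St_GLUE τ := by
  obtain ⟨c, hc, hsep⟩ := GLUE_sep τ
  refine ⟨min (c / 2) (1 / 2), by positivity, ?_⟩
  intro κ T δ N r₁ r₂ r₃ w hκ hT hδ h1 h12 h23 h30 hper hw hpsh hin hsh
  set r₀ := min (c / 2) (1 / 2) with hr₀
  have hr3 : 0 < r₃ := by linarith
  have hr2 : 0 < r₂ := by linarith
  have hs : ∀ n : Fin 3 → ℤ, n ≠ 0 → 2 * r₀ ≤ ‖GLUE_L τ n‖ := by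
    intro n hn
    have h5 : r₀ ≤ c / 2 := min_le_left _ _
    linarith [hsep n hn]
  have hr0 : r₀ ≤ 1 / 2 := min_le_right _ _
  have hnsq2 : ContDiff ℝ 2 nsq := hN.1.of_le (WithTop.coe_le_coe.2 (le_top : (2 : ℕ∞) ≤ ⊤))
  have hnsqc : Continuous nsq := hN.1.continuous
  have hw2 : ContDiff ℝ 2 w := hw.of_le (WithTop.coe_le_coe.2 (le_top : (2 : ℕ∞) ≤ ⊤))
  have hpl2 : ContDiff ℝ 2 (plus κ w) := hpsh.1.of_le (WithTop.coe_le_coe.2 (le_top : (2 : ℕ∞) ≤ ⊤))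
  set a : ℂ × ℂ → ℝ := fun z => plus κ w z + N with ha
  set b : ℂ × ℂ → ℝ := fun z => T * lpole δ z with hb
  have ha2 : Psh 2 a := by
    refine ⟨hpl2.add contDiff_const, fun z v => ?_⟩
    rw [ha, GLUE_lev_add hpl2 contDiff_const, GLUE_lev_const, add_zero]
    exact hpsh.2 z v
  have hb2 : Psh 2 b := GLUE_pole hL T δ hT hδ
  set m : ℂ × ℂ → ℝ := fun z => b z + GLUE_th (a z + -1 * b z) with hm
  have hm2 : Psh 2 m := GLUE_max ha2 hb2
  have hm2c : ContDiff ℝ 2 m := hm2.1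
  have hmin : ∀ z, nsq z ≤ r₁ ^ 2 → m z = T * lpole δ z := by
    intro z hz
    have h5 := hin z hz
    rw [hm]
    simp only [ha, hb]
    rw [GLUE_low _ (by linarith), add_zero]
  have hmsh : ∀ z, r₂ ^ 2 ≤ nsq z → nsq z ≤ r₃ ^ 2 → m z = plus κ w z + N := by
    intro z hz hz'
    have h5 := hsh z hz hz'
    rw [hm]
    simp only [ha, hb]
    rw [GLUE_high _ (by linarith)]
    ring
  obtain ⟨w', hP1, hP2⟩ := GLUE_ex τ κ N r₀ r₃ w m hr3 h30 hs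
  have hP3 : ∀ z, (∀ n, r₂ ^ 2 < nsq (z - GLUE_L τ n)) → w' z = w z + N := by
    intro z hz
    by_cases h : ∃ n, nsq (z - GLUE_L τ n) < r₃ ^ 2
    · obtain ⟨n, hn⟩ := h
      rw [hP1 z n hn, hmsh _ (hz n).le hn.le]
      unfold plus
      rw [GLUE_per hper]
      ring
    · push Not at h
      exact hP2 z fun n => not_lt.2 (h n)
  -- the two local descriptions
  have hloc : ∀ z₀, (∃ n, w' =ᶠ[𝓝 z₀] fun z => m (z + -GLUE_L τ n) + -κ * nsq (z + -GLUE_L τ n)) ∨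
      w' =ᶠ[𝓝 z₀] fun z => w z + N := by
    intro z₀
    by_cases h : ∃ n, nsq (z₀ - GLUE_L τ n) < r₃ ^ 2
    · left
      obtain ⟨n, hn⟩ := h
      refine ⟨n, ?_⟩
      have hc1 : Continuous fun z => nsq (z - GLUE_L τ n) :=
        hnsqc.comp (continuous_id.sub continuous_const)
      have h5 : ∀ᶠ z in 𝓝 z₀, nsq (z - GLUE_L τ n) < r₃ ^ 2 :=
        hc1.continuousAt.eventually_lt continuousAt_const hn
      filter_upwards [h5] with z hz
      rw [hP1 z n hz, sub_eq_add_neg z]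
      ring
    · right
      push Not at h
      have hc1 : Continuous fun z : ℂ × ℂ => r₂ ^ 2 + 4 * r₂ * ‖z₀ - z‖ + 2 * ‖z₀ - z‖ ^ 2 := by
        fun_prop
      have h5 : ∀ᶠ z in 𝓝 z₀, r₂ ^ 2 + 4 * r₂ * ‖z₀ - z‖ + 2 * ‖z₀ - z‖ ^ 2 < r₃ ^ 2 := by
        refine hc1.continuousAt.eventually_lt continuousAt_const ?_
        rw [sub_self, norm_zero]
        nlinarith
      filter_upwards [h5] with z hz
      refine hP3 z fun n => ?_
      by_contra hcon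
      push Not at hcon
      have h6 := GLUE_n3 (z - GLUE_L τ n) (z₀ - z)
      have h7 : z - GLUE_L τ n + (z₀ - z) = z₀ - GLUE_L τ n := by abel
      rw [h7] at h6
      have h8 : ‖z - GLUE_L τ n‖ ≤ r₂ := by
        have h9 := (GLUE_n1 (z - GLUE_L τ n)).trans hcon
        exact le_of_sq_le_sq h9 hr2.le
      have h9 : 4 * ‖z - GLUE_L τ n‖ * ‖z₀ - z‖ ≤ 4 * r₂ * ‖z₀ - z‖ :=
        mul_le_mul_of_nonneg_right (by linarith) (norm_nonneg _)
      linarith [h n]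
  have htr : ∀ (f : ℂ × ℂ → ℝ) (c : ℂ × ℂ), ContDiff ℝ 2 f → ContDiff ℝ 2 (fun z => f (z + c)) :=
    fun f c hf => hf.comp (contDiff_id.add contDiff_const)
  have hw'2 : ContDiff ℝ 2 w' := by
    rw [contDiff_iff_contDiffAt]
    intro z₀
    rcases hloc z₀ with ⟨n, h⟩ | h
    · refine ContDiffAt.congr_of_eventuallyEq ?_ h
      exact ((htr m _ hm2c).add (contDiff_const.mul (htr nsq _ hnsq2))).contDiffAt
    · refine ContDiffAt.congr_of_eventuallyEq ?_ h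
      exact (hw2.add contDiff_const).contDiffAt
  refine ⟨w', ?_, hw'2, ⟨?_, ?_⟩, ?_, ?_⟩
  · -- periodicity
    intro z i
    by_cases h : ∃ n, nsq (z - GLUE_L τ n) < r₃ ^ 2
    · obtain ⟨n, hn⟩ := h
      have e : z + τ.γ i - GLUE_L τ (n + Pi.single i 1) = z - GLUE_L τ n := by
        rw [GLUE_L_add, GLUE_L_single]
        abel
      rw [hP1 z n hn, hP1 (z + τ.γ i) (n + Pi.single i 1) (by rw [e]; exact hn), e]
    · push Not at h
      rw [hP2 z fun n => not_lt.2 (h n), hP2 (z + τ.γ i), hper z i]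
      intro n hn
      have e : z + τ.γ i - GLUE_L τ n = z - GLUE_L τ (n - Pi.single i 1) := by
        have h5 := GLUE_L_add τ (n - Pi.single i 1) (Pi.single i 1)
        rw [sub_add_cancel, GLUE_L_single] at h5
        rw [h5]
        abel
      rw [e] at hn
      exact absurd hn (not_lt.2 (h _))
  · exact hw'2.add (contDiff_const.mul hnsq2)
  · -- the Levi form
    intro z₀ v
    rcases hloc z₀ with ⟨n, h⟩ | h
    · have e : plus κ w' =ᶠ[𝓝 z₀] fun z =>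
          (m (z + -GLUE_L τ n) + -κ * nsq (z + -GLUE_L τ n)) + κ * nsq z := by
        filter_upwards [h] with z hz
        unfold plus
        rw [hz]
      have c1 := htr m (-GLUE_L τ n) hm2c
      have c2 := htr nsq (-GLUE_L τ n) hnsq2
      have c3 : ContDiff ℝ 2 (fun z => -κ * nsq (z + -GLUE_L τ n)) := contDiff_const.mul c2
      have c4 : ContDiff ℝ 2 (fun z => κ * nsq z) := contDiff_const.mul hnsq2
      rw [GLUE_lev_congr e, GLUE_lev_add (c1.add c3) c4, GLUE_lev_add c1 c3, GLUE_lev_smul c2,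
        GLUE_lev_smul hnsq2, GLUE_lev_tr, GLUE_lev_tr, hN.2.1, hN.2.1]
      have h6 := hm2.2 (z₀ + -GLUE_L τ n) v
      linarith
    · have e : plus κ w' =ᶠ[𝓝 z₀] fun z => plus κ w z + N := by
        filter_upwards [h] with z hz
        unfold plus
        rw [hz]
        ring
      rw [GLUE_lev_congr e, GLUE_lev_add hpl2 contDiff_const, GLUE_lev_const, add_zero]
      exact hpsh.2 z₀ v
  · -- large heights
    intro z hz
    refine hP2 z fun n hn => ?_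
    have h5 := GLUE_n2 _ _ hr3 hn
    have h6 : |ht (z - GLUE_L τ n)| ≤ ‖z - GLUE_L τ n‖ := by
      unfold ht
      exact (Complex.abs_im_le_norm _).trans (norm_fst_le _)
    rw [GLUE_L_ht] at h6
    linarith
  · -- small balls
    intro z hz
    have h5 : nsq z < r₃ ^ 2 := by nlinarith
    have h6 := hP1 z 0 (by rw [GLUE_L_zero, sub_zero]; exact h5)
    rw [GLUE_L_zero, sub_zero] at h6
    unfold plus
    rw [h6, hmin z hz]
    ring

end Pool.Agent.KT
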