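import Pool.Agent.KT.St

/-!
# KT IBP: integration by parts for the mixed Monge-Ampere operator
-/

set_option autoImplicit false

open scoped BigOperators ComplexConjugate Topology
open MeasureTheory

namespace Pool.Agent.KT

/-- directional derivative as an operator -/
noncomputable def IBP_D (v : ℂ × ℂ) (f : ℂ × ℂ → ℝ) : ℂ × ℂ → ℝ := fun z => fderiv ℝ f z v

lemma IBP_D_cd {n m : WithTop ℕ∞} {f : ℂ × ℂ → ℝ} (v : ℂ × ℂ) (hf : ContDiff ℝ n f)
    (h : m + 1 ≤ n) : ContDiff ℝ m (IBP_D v f) :=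
  (hf.fderiv_right h).clm_apply contDiff_const

lemma IBP_D_smooth {f : ℂ × ℂ → ℝ} (v : ℂ × ℂ) (hf : ContDiff ℝ (⊤ : ℕ∞) f) :
    ContDiff ℝ (⊤ : ℕ∞) (IBP_D v f) := IBP_D_cd v hf (by norm_cast)

lemma IBP_D_comm {f : ℂ × ℂ → ℝ} (v w : ℂ × ℂ) (hf : ContDiff ℝ 2 f) :
    IBP_D v (IBP_D w f) = IBP_D w (IBP_D v f) := by
  funext z
  have h1 : DifferentiableAt ℝ (fderiv ℝ f) z :=
    ((hf.fderiv_right (m := 1) (by norm_num)).differentiable (by norm_num)).differentiableAt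
  have h2 := (hf.contDiffAt (x := z)).isSymmSndFDerivAt (by simp)
  show fderiv ℝ (fun z => fderiv ℝ f z w) z v = fderiv ℝ (fun z => fderiv ℝ f z v) z w
  rw [fderiv_clm_apply h1 (differentiableAt_const _), fderiv_clm_apply h1 (differentiableAt_const _)]
  simp only [fderiv_fun_const, Pi.zero_apply, ContinuousLinearMap.comp_zero, zero_add,
    ContinuousLinearMap.flip_apply]
  exact h2 v w

lemma IBP_D_add {f g : ℂ × ℂ → ℝ} (v : ℂ × ℂ) (hf : Differentiable ℝ f) (hg : Differentiable ℝ g) :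
    IBP_D v (fun z => f z + g z) = fun z => IBP_D v f z + IBP_D v g z := by
  funext z
  show fderiv ℝ (fun z => f z + g z) z v = _
  rw [fderiv_fun_add hf.differentiableAt hg.differentiableAt]
  rfl

lemma IBP_D_sub {f g : ℂ × ℂ → ℝ} (v : ℂ × ℂ) (hf : Differentiable ℝ f) (hg : Differentiable ℝ g) :
    IBP_D v (fun z => f z - g z) = fun z => IBP_D v f z - IBP_D v g z := by
  funext z
  show fderiv ℝ (fun z => f z - g z) z v = _
  rw [fderiv_fun_sub hf.differentiableAt hg.differentiableAt]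
  rfl

lemma IBP_D_mul {f g : ℂ × ℂ → ℝ} (v : ℂ × ℂ) (hf : Differentiable ℝ f) (hg : Differentiable ℝ g) :
    IBP_D v (fun z => f z * g z) = fun z => f z * IBP_D v g z + IBP_D v f z * g z := by
  funext z
  show fderiv ℝ (fun z => f z * g z) z v = _
  rw [fderiv_fun_mul hf.differentiableAt hg.differentiableAt]
  simp [IBP_D, mul_comm]

lemma IBP_D_D_mul {f g : ℂ × ℂ → ℝ} (v w : ℂ × ℂ) (hf : ContDiff ℝ 2 f) (hg : ContDiff ℝ 2 g) :
    IBP_D w (IBP_D v (fun z => f z * g z)) = fun z => f z * IBP_D w (IBP_D v g) z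
      + IBP_D w f z * IBP_D v g z + IBP_D v f z * IBP_D w g z + IBP_D w (IBP_D v f) z * g z := by
  have f1 := hf.differentiable (by norm_num)
  have g1 := hg.differentiable (by norm_num)
  have f2 := (IBP_D_cd (m := 1) v hf (by norm_num)).differentiable (by norm_num)
  have g2 := (IBP_D_cd (m := 1) v hg (by norm_num)).differentiable (by norm_num)
  rw [IBP_D_mul v f1 g1, IBP_D_add (f := fun z => f z * IBP_D v g z) (g := fun z => IBP_D v f z * g z)
    w (f1.mul g2) (f2.mul g1)]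
  funext z
  rw [IBP_D_mul w f1 g2, IBP_D_mul w f2 g1]
  ring

lemma IBP_mi1 : mi e1 = e2 := by
  simp [mi, e1, e2]

lemma IBP_mi3 : mi e3 = e4 := by
  simp [mi, e3, e4]

/-- the fourth order identity -/
lemma IBP_four {u : ℂ × ℂ → ℝ} (hu : ContDiff ℝ (⊤ : ℕ∞) u) (z : ℂ × ℂ) :
    IBP_D e3 (IBP_D e3 (lev u e1)) z + IBP_D e4 (IBP_D e4 (lev u e1)) z
      + (IBP_D e1 (IBP_D e1 (lev u e3)) z + IBP_D e2 (IBP_D e2 (lev u e3)) z)
      - 2 * (IBP_D e3 (IBP_D e1 (fun z => d2 u e1 e3 z + d2 u e2 e4 z)) z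
          + IBP_D e4 (IBP_D e2 (fun z => d2 u e1 e3 z + d2 u e2 e4 z)) z
        + (IBP_D e4 (IBP_D e1 (fun z => d2 u e1 e4 z - d2 u e2 e3 z)) z
          - IBP_D e3 (IBP_D e2 (fun z => d2 u e1 e4 z - d2 u e2 e3 z)) z)) = 0 := by
  have two : ∀ {f : ℂ × ℂ → ℝ}, ContDiff ℝ (⊤ : ℕ∞) f → ContDiff ℝ 2 f := fun h => h.of_le
    (by norm_cast)
  have df : ∀ {f : ℂ × ℂ → ℝ}, ContDiff ℝ (⊤ : ℕ∞) f → Differentiable ℝ f := fun h =>
    h.differentiable (by simp)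
  have hs : ∀ v, ContDiff ℝ (⊤ : ℕ∞) (IBP_D v u) := fun v => IBP_D_smooth v hu
  have hs2 : ∀ v w, ContDiff ℝ (⊤ : ℕ∞) (IBP_D w (IBP_D v u)) := fun v w => IBP_D_smooth w (hs v)
  have hs3 : ∀ v w x, ContDiff ℝ (⊤ : ℕ∞) (IBP_D x (IBP_D w (IBP_D v u))) := fun v w x =>
    IBP_D_smooth x (hs2 v w)
  have e1' : lev u e1 = fun z => IBP_D e1 (IBP_D e1 u) z + IBP_D e2 (IBP_D e2 u) z := by
    funext z; simp only [lev, IBP_mi1]; rfl
  have e3' : lev u e3 = fun z => IBP_D e3 (IBP_D e3 u) z + IBP_D e4 (IBP_D e4 u) z := by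
    funext z; simp only [lev, IBP_mi3]; rfl
  have b1 : (fun z => d2 u e1 e3 z + d2 u e2 e4 z)
      = fun z => IBP_D e3 (IBP_D e1 u) z + IBP_D e4 (IBP_D e2 u) z := rfl
  have b2 : (fun z => d2 u e1 e4 z - d2 u e2 e3 z)
      = fun z => IBP_D e4 (IBP_D e1 u) z - IBP_D e3 (IBP_D e2 u) z := rfl
  have add2 : ∀ (a b : ℂ × ℂ) {f g : ℂ × ℂ → ℝ}, ContDiff ℝ (⊤ : ℕ∞) f → ContDiff ℝ (⊤ : ℕ∞) g →
      IBP_D a (IBP_D b (fun z => f z + g z)) z = IBP_D a (IBP_D b f) z + IBP_D a (IBP_D b g) z := by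
    intro a b f g hf hg
    rw [IBP_D_add b (df hf) (df hg), IBP_D_add a (df (IBP_D_smooth b hf)) (df (IBP_D_smooth b hg))]
  have sub2 : ∀ (a b : ℂ × ℂ) {f g : ℂ × ℂ → ℝ}, ContDiff ℝ (⊤ : ℕ∞) f → ContDiff ℝ (⊤ : ℕ∞) g →
      IBP_D a (IBP_D b (fun z => f z - g z)) z = IBP_D a (IBP_D b f) z - IBP_D a (IBP_D b g) z := by
    intro a b f g hf hg
    rw [IBP_D_sub b (df hf) (df hg), IBP_D_sub a (df (IBP_D_smooth b hf)) (df (IBP_D_smooth b hg))]
  rw [e1', e3', b1, b2]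
  rw [add2 _ _ (hs2 _ _) (hs2 _ _), add2 _ _ (hs2 _ _) (hs2 _ _), add2 _ _ (hs2 _ _) (hs2 _ _),
    add2 _ _ (hs2 _ _) (hs2 _ _), add2 _ _ (hs2 _ _) (hs2 _ _), add2 _ _ (hs2 _ _) (hs2 _ _),
    sub2 _ _ (hs2 _ _) (hs2 _ _), sub2 _ _ (hs2 _ _) (hs2 _ _)]
  -- canonical order: the last applied derivative has the largest index
  have c : ∀ (a b : ℂ × ℂ), IBP_D a (IBP_D b u) = IBP_D b (IBP_D a u) := fun a b =>
    IBP_D_comm a b (two hu)
  have c' : ∀ (a b v : ℂ × ℂ), IBP_D a (IBP_D b (IBP_D v u)) = IBP_D b (IBP_D a (IBP_D v u)) :=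
    fun a b v => IBP_D_comm a b (two (hs v))
  have c'' : ∀ (a b v w : ℂ × ℂ), IBP_D a (IBP_D b (IBP_D v (IBP_D w u)))
      = IBP_D b (IBP_D a (IBP_D v (IBP_D w u))) :=
    fun a b v w => IBP_D_comm a b (two (hs2 w v))
  have full : ∀ (a b : ℂ × ℂ), IBP_D a (IBP_D a (IBP_D b (IBP_D b u)))
      = IBP_D b (IBP_D b (IBP_D a (IBP_D a u))) := by
    intro a b
    rw [c' a b b, c a b, c'' a b, c' a b a]
  have alt : ∀ (a b : ℂ × ℂ), IBP_D a (IBP_D b (IBP_D a (IBP_D b u)))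
      = IBP_D b (IBP_D b (IBP_D a (IBP_D a u))) := by
    intro a b
    rw [c a b, c' b b a, c'' a b, c' a b a]
  have alt' : ∀ (a b c d : ℂ × ℂ), IBP_D a (IBP_D b (IBP_D c (IBP_D d u)))
      = IBP_D c (IBP_D d (IBP_D a (IBP_D b u))) := by
    intro a b x d
    rw [c' b x d, c'' a x, c b d, c' a d b]
  rw [full e3 e1, full e3 e2, full e4 e1, full e4 e2, alt e3 e1, alt e4 e2, alt e4 e1, alt e3 e2,
    alt' e4 e2 e3 e1]
  have k1 : IBP_D e4 (IBP_D e1 (IBP_D e3 (IBP_D e2 u))) = IBP_D e3 (IBP_D e1 (IBP_D e4 (IBP_D e2 u))) := by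
    rw [c' e1 e3 e2, c'' e4 e3, c' e4 e1 e2]
  have k2 : IBP_D e3 (IBP_D e2 (IBP_D e4 (IBP_D e1 u))) = IBP_D e3 (IBP_D e1 (IBP_D e4 (IBP_D e2 u))) := by
    rw [c' e2 e4 e1, c e2 e1, c' e4 e1 e2]
  rw [k1, k2]
  have q1 : ∀ (a b : ℂ × ℂ), IBP_D a (IBP_D a (IBP_D b (IBP_D b u))) z
      = IBP_D b (IBP_D b (IBP_D a (IBP_D a u))) z := fun a b => by rw [full a b]
  ring

/-! ### integrals over boxes -/

variable (τ : Tor)

/-- the four periods -/
noncomputable def IBP_c : Fin 4 → ℂ × ℂ := Fin.cons e2 τ.γ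

/-- the linear parametrisation -/
noncomputable def IBP_L : (Fin 4 → ℝ) →L[ℝ] ℂ × ℂ :=
  ∑ i, (ContinuousLinearMap.proj (R := ℝ) (φ := fun _ : Fin 4 => ℝ) i).smulRight (IBP_c τ i)

lemma IBP_L_apply (y : Fin 4 → ℝ) : IBP_L τ y = ∑ i, y i • IBP_c τ i := by
  simp [IBP_L]

lemma IBP_L_pt (y : Fin 4 → ℝ) : IBP_L τ y = τ.pt (y 0) (fun i => y i.succ) := by
  rw [IBP_L_apply, Fin.sum_univ_succ, Tor.pt]
  simp only [IBP_c, Fin.cons_zero, Fin.cons_succ]
  congr 1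
  · simp [e2]

lemma IBP_L_single (i : Fin 4) : IBP_L τ (Pi.single i 1) = IBP_c τ i := by
  rw [IBP_L_apply, Finset.sum_eq_single i]
  · simp
  · intro j _ hj
    simp [Pi.single_eq_of_ne hj]
  · simp

lemma IBP_surj (v : ℂ × ℂ) : ∃ k : Fin 4 → ℝ, ∑ i, k i • IBP_c τ i = v := by
  have hfin : Module.finrank ℝ (ℝ × ℂ) = 3 := by
    rw [Module.finrank_prod, Module.finrank_self, Complex.finrank_real_complex]
  have hsp := τ.li.span_eq_top_of_card_eq_finrank (by simp [hfin])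
  have hm : ((v.1.re, v.2) : ℝ × ℂ) ∈ Submodule.span ℝ (Set.range fun i => ((τ.a i, τ.b i) : ℝ × ℂ)) := by
    rw [hsp]; trivial
  obtain ⟨k, hk⟩ := (Submodule.mem_span_range_iff_exists_fun ℝ).1 hm
  refine ⟨Fin.cons v.1.im k, ?_⟩
  rw [Fin.sum_univ_succ]
  simp only [IBP_c, Fin.cons_zero, Fin.cons_succ]
  have h1 := congrArg Prod.fst hk
  have h2 := congrArg Prod.snd hk
  simp only [Prod.fst_sum, Prod.snd_sum, Prod.smul_fst, Prod.smul_snd, smul_eq_mul] at h1 h2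
  refine Prod.ext ?_ ?_
  · simp only [Prod.fst_add, Prod.fst_sum, Prod.smul_fst, e2, Tor.γ]
    apply Complex.ext
    · simp [Complex.re_sum, h1]
    · simp [Complex.im_sum]
  · simp only [Prod.snd_add, Prod.snd_sum, Prod.smul_snd, e2, Tor.γ, smul_zero, zero_add]
    exact h2

/-- lower corner -/
noncomputable def IBP_lo (R : ℝ) : Fin 4 → ℝ := Fin.cons (-R) (fun _ => -(1 / 2))
/-- upper corner -/
noncomputable def IBP_hi (R : ℝ) : Fin 4 → ℝ := Fin.cons R (fun _ => 1 / 2)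

lemma IBP_box {g : ℂ × ℂ → ℝ} (hg : Continuous g) (R : ℝ) :
    ∫ t in Set.Icc (-R) R, τ.avg g t = ∫ y in Set.Icc (IBP_lo R) (IBP_hi R), g (IBP_L τ y) := by
  have hmp := volume_preserving_piFinSuccAbove (fun _ : Fin 4 => ℝ) 0
  have hme := (MeasurableEquiv.piFinSuccAbove (fun _ : Fin 4 => ℝ) 0).measurableEmbedding
  have hset : (MeasurableEquiv.piFinSuccAbove (fun _ : Fin 4 => ℝ) 0) ⁻¹'
      (Set.Icc (-R) R ×ˢ Tor.cube) = Set.Icc (IBP_lo R) (IBP_hi R) := by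
    ext y
    simp only [Set.mem_preimage, Set.mem_prod, Set.mem_Icc, Tor.cube, Pi.le_def,
      MeasurableEquiv.piFinSuccAbove_apply, IBP_lo, IBP_hi, Fin.forall_fin_succ (n := 3), Fin.cons_zero,
      Fin.cons_succ]
    simp [Fin.insertNthEquiv]
    tauto
  have h := hmp.setIntegral_preimage_emb hme
    (fun p : ℝ × (Fin 3 → ℝ) => g (τ.pt p.1 p.2)) (Set.Icc (-R) R ×ˢ Tor.cube)
  rw [hset] at h
  have hcont : Continuous fun p : ℝ × (Fin 3 → ℝ) => g (τ.pt p.1 p.2) := by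
    refine hg.comp ?_
    unfold Tor.pt
    fun_prop
  rw [Measure.volume_eq_prod, setIntegral_prod] at h
  · rw [show (∫ t in Set.Icc (-R) R, τ.avg g t)
      = ∫ t in Set.Icc (-R) R, ∫ x in Tor.cube, g (τ.pt t x) from rfl, ← h]
    refine setIntegral_congr_fun measurableSet_Icc ?_
    intro y _
    simp only [IBP_L_pt]
    rfl
  · exact hcont.continuousOn.integrableOn_compact (isCompact_Icc.prod isCompact_Icc)

/-- vanishing outside a slab -/
def IBP_Slab (R : ℝ) (G : ℂ × ℂ → ℝ) : Prop := ∀ z, R < |ht z| → G z = 0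

lemma IBP_ht_pt (t : ℝ) (x : Fin 3 → ℝ) : ht (τ.pt t x) = t := by
  simp [ht, Tor.pt, Tor.γ, Complex.im_sum, Prod.fst_sum]

lemma IBP_ht_cont : Continuous ht := by
  unfold ht; fun_prop

lemma IBP_avg_slab {R : ℝ} {G : ℂ × ℂ → ℝ} (h : IBP_Slab R G) {t : ℝ} (ht' : R < |t|) :
    τ.avg G t = 0 := by
  unfold Tor.avg
  have : ∀ x, G (τ.pt t x) = 0 := fun x => h _ (by rw [IBP_ht_pt]; exact ht')
  simp [this]

lemma IBP_Slab.D {R : ℝ} {G : ℂ × ℂ → ℝ} (h : IBP_Slab R G) (v : ℂ × ℂ) : IBP_Slab R (IBP_D v G) := by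
  intro z hz
  have hop : IsOpen {z : ℂ × ℂ | R < |ht z|} := isOpen_lt continuous_const (IBP_ht_cont.abs)
  have : G =ᶠ[𝓝 z] fun _ => 0 := Filter.eventuallyEq_of_mem (hop.mem_nhds hz) h
  show fderiv ℝ G z v = 0
  rw [this.fderiv_eq]
  simp

lemma IBP_Slab.mul_right {R : ℝ} {G : ℂ × ℂ → ℝ} (h : IBP_Slab R G) (g : ℂ × ℂ → ℝ) :
    IBP_Slab R (fun z => G z * g z) := fun z hz => by
  show G z * g z = 0
  rw [h z hz, zero_mul]

lemma IBP_integral_slab {R R' : ℝ} {G : ℂ × ℂ → ℝ} (h : IBP_Slab R G) (hR : R < R') :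
    ∫ t, τ.avg G t = ∫ t in Set.Icc (-R') R', τ.avg G t := by
  symm
  refine setIntegral_eq_integral_of_forall_compl_eq_zero fun t ht' => ?_
  apply IBP_avg_slab τ h
  rw [Set.mem_Icc, not_and_or, not_le, not_le] at ht'
  rcases ht' with h1 | h1
  · exact lt_of_lt_of_le hR (by linarith [neg_le_abs t])
  · exact lt_of_lt_of_le hR (h1.le.trans (le_abs_self _))

lemma IBP_per_D {G : ℂ × ℂ → ℝ} (h : τ.Per G) (v : ℂ × ℂ) : τ.Per (IBP_D v G) := by
  intro z i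
  show fderiv ℝ G (z + τ.γ i) v = fderiv ℝ G z v
  have : (fun x => G (x + τ.γ i)) = G := funext fun x => h x i
  rw [← fderiv_comp_add_right (f := G) (a := τ.γ i), this]

/-- the basic step -/
lemma IBP_step {G : ℂ × ℂ → ℝ} {R : ℝ} (hG : ContDiff ℝ 1 G) (hp : τ.Per G) (hs : IBP_Slab R G)
    (v : ℂ × ℂ) : ∫ t, τ.avg (IBP_D v G) t = 0 := by
  obtain ⟨R', hR', hR0⟩ : ∃ R', R < R' ∧ 0 < R' := ⟨max R 0 + 1, by
    linarith [le_max_left R 0], by linarith [le_max_right R 0]⟩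
  rw [IBP_integral_slab τ (hs.D v) hR', IBP_box τ (IBP_D_cd (m := 0) v hG (by simp)).continuous]
  obtain ⟨k, hk⟩ := IBP_surj τ v
  have hle : IBP_lo R' ≤ IBP_hi R' := by
    intro i
    refine Fin.cases ?_ (fun j => ?_) i
    · simp only [IBP_lo, IBP_hi, Fin.cons_zero]; linarith
    · simp only [IBP_lo, IBP_hi, Fin.cons_succ]; norm_num
  have hd : ∀ (i : Fin 4) (x : Fin 4 → ℝ), HasFDerivAt (fun y => k i * G (IBP_L τ y))
      (k i • (fderiv ℝ G (IBP_L τ x)).comp (IBP_L τ)) x := by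
    intro i x
    exact (((hG.differentiable (by norm_num)).differentiableAt.hasFDerivAt).comp x
      (IBP_L τ).hasFDerivAt).const_mul (k i)
  have hsum : ∀ x : Fin 4 → ℝ, (∑ i, (k i • (fderiv ℝ G (IBP_L τ x)).comp (IBP_L τ)) (Pi.single i 1))
      = IBP_D v G (IBP_L τ x) := by
    intro x
    show _ = fderiv ℝ G (IBP_L τ x) v
    rw [← hk, map_sum]
    refine Finset.sum_congr rfl fun i _ => ?_
    simp [IBP_L_single]
  have key := integral_divergence_of_hasFDerivAt_off_countable' (IBP_lo R') (IBP_hi R') hle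
    (fun i y => k i * G (IBP_L τ y)) (fun i x => k i • (fderiv ℝ G (IBP_L τ x)).comp (IBP_L τ)) ∅
    Set.countable_empty (fun i => by
      have := hG.continuous
      exact (continuous_const.mul (this.comp (IBP_L τ).continuous)).continuousOn)
    (fun x _ i => hd i x) (by
      simp only [hsum]
      exact (((IBP_D_cd (m := 0) v hG (by simp)).continuous).comp
        (IBP_L τ).continuous).continuousOn.integrableOn_compact isCompact_Icc)
  simp only [hsum] at key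
  rw [key]
  refine Finset.sum_eq_zero fun i _ => ?_
  rw [sub_eq_zero]
  refine setIntegral_congr_fun measurableSet_Icc ?_
  intro x _
  show k i * G (IBP_L τ (i.insertNth (IBP_hi R' i) x)) = k i * G (IBP_L τ (i.insertNth (IBP_lo R' i) x))
  congr 1
  refine Fin.cases ?_ (fun j => ?_) i
  · rw [hs, hs]
    · rw [IBP_L_pt, IBP_ht_pt]
      simp [IBP_lo, abs_of_pos hR0, hR']
    · rw [IBP_L_pt, IBP_ht_pt]
      simp [IBP_hi, abs_of_pos hR0, hR']
  · have e : (Fin.succ j).insertNth (α := fun _ => ℝ) (IBP_hi R' j.succ) x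
        = (Fin.succ j).insertNth (α := fun _ => ℝ) (IBP_lo R' j.succ) x + Pi.single j.succ 1 := by
      funext l
      rcases eq_or_ne l j.succ with rfl | hl
      · simp [IBP_hi, IBP_lo]; norm_num
      · obtain ⟨m, rfl⟩ := Fin.exists_succAbove_eq hl
        simp
    rw [e, map_add, IBP_L_single]
    exact hp _ j

lemma IBP_avg_cont {g : ℂ × ℂ → ℝ} (hg : Continuous g) : Continuous (τ.avg g) := by
  refine continuous_parametric_integral_of_continuous (f := fun t x => g (τ.pt t x)) ?_ isCompact_Icc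
  refine hg.comp ?_
  show Continuous fun p : ℝ × (Fin 3 → ℝ) => τ.pt p.1 p.2
  unfold Tor.pt
  fun_prop

lemma IBP_intOn {g : ℂ × ℂ → ℝ} (hg : Continuous g) (t : ℝ) :
    IntegrableOn (fun x => g (τ.pt t x)) Tor.cube := by
  refine Continuous.integrableOn_Icc (hg.comp ?_)
  unfold Tor.pt
  fun_prop

lemma IBP_int {g : ℂ × ℂ → ℝ} {R : ℝ} (hg : Continuous g) (hs : IBP_Slab R g) :
    Integrable (τ.avg g) := by
  refine (IBP_avg_cont τ hg).integrable_of_hasCompactSupport ?_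
  refine HasCompactSupport.intro (isCompact_Icc (a := -R) (b := R)) fun t ht' => ?_
  apply IBP_avg_slab τ hs
  rw [Set.mem_Icc, not_and_or, not_le, not_le] at ht'
  rcases ht' with h1 | h1
  · linarith [neg_le_abs t]
  · linarith [le_abs_self t]

lemma IBP_I_add {f g : ℂ × ℂ → ℝ} {R : ℝ} (hf : Continuous f) (hg : Continuous g)
    (hs : IBP_Slab R f) (hs' : IBP_Slab R g) :
    ∫ t, τ.avg (fun z => f z + g z) t = (∫ t, τ.avg f t) + ∫ t, τ.avg g t := by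
  rw [← integral_add (IBP_int τ hf hs) (IBP_int τ hg hs')]
  refine integral_congr_ae (Filter.Eventually.of_forall fun t => ?_)
  exact integral_add (IBP_intOn τ hf t) (IBP_intOn τ hg t)

lemma IBP_I_smul (c : ℝ) (f : ℂ × ℂ → ℝ) :
    ∫ t, τ.avg (fun z => c * f z) t = c * ∫ t, τ.avg f t := by
  rw [← integral_const_mul]
  refine integral_congr_ae (Filter.Eventually.of_forall fun t => ?_)
  exact integral_const_mul c _

/-- moving two derivatives -/
lemma IBP_two {f w : ℂ × ℂ → ℝ} {R : ℝ} (hf : ContDiff ℝ 2 f) (hw : ContDiff ℝ 2 w) (pf : τ.Per f)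
    (pw : τ.Per w) (hs : IBP_Slab R f) (a b : ℂ × ℂ) :
    ∫ t, τ.avg (fun z => f z * IBP_D b (IBP_D a w) z) t
      = ∫ t, τ.avg (fun z => IBP_D b (IBP_D a f) z * w z) t := by
  have f1 := hf.differentiable (by norm_num)
  have w1 := hw.differentiable (by norm_num)
  have cfb := IBP_D_cd (m := 1) b hf (by norm_num)
  have cwa := IBP_D_cd (m := 1) a hw (by norm_num)
  have e1 := IBP_D_mul b f1 (cwa.differentiable (by norm_num))
  have e2 := IBP_D_mul a (cfb.differentiable (by norm_num)) w1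
  have c1 : ContDiff ℝ 1 (fun z => f z * IBP_D a w z) := (hf.of_le (by norm_num)).mul cwa
  have c2 : ContDiff ℝ 1 (fun z => IBP_D b f z * w z) := cfb.mul (hw.of_le (by norm_num))
  have s1 := IBP_step τ c1 (fun z i => by
    show f (z + τ.γ i) * IBP_D a w (z + τ.γ i) = f z * IBP_D a w z
    rw [pf, IBP_per_D τ pw]) (hs.mul_right _) b
  have s2 := IBP_step τ c2 (fun z i => by
    show IBP_D b f (z + τ.γ i) * w (z + τ.γ i) = IBP_D b f z * w z
    rw [pw, IBP_per_D τ pf]) ((hs.D b).mul_right _) a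
  have k1 : Continuous (IBP_D b (IBP_D a w)) := (IBP_D_cd (m := 0) b cwa (by simp)).continuous
  have k2 : Continuous (IBP_D a (IBP_D b f)) := (IBP_D_cd (m := 0) a cfb (by simp)).continuous
  rw [e1, IBP_I_add (f := fun z => f z * IBP_D b (IBP_D a w) z)
    (g := fun z => IBP_D b f z * IBP_D a w z) τ (hf.continuous.mul k1) (cfb.continuous.mul cwa.continuous) (hs.mul_right _)
    ((hs.D b).mul_right _)] at s1
  rw [e2, IBP_I_add (f := fun z => IBP_D b f z * IBP_D a w z)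
    (g := fun z => IBP_D a (IBP_D b f) z * w z) τ (cfb.continuous.mul cwa.continuous) (k2.mul hw.continuous) ((hs.D b).mul_right _)
    (((hs.D b).D a).mul_right _)] at s2
  rw [IBP_D_comm b a hf]
  linarith

/-- the third order identity -/
lemma IBP_three {u : ℂ × ℂ → ℝ} (hu : ContDiff ℝ (⊤ : ℕ∞) u) (z : ℂ × ℂ) :
    IBP_D e2 (lev u e3) z - IBP_D e4 (fun z => d2 u e1 e3 z + d2 u e2 e4 z) z
      + IBP_D e3 (fun z => d2 u e1 e4 z - d2 u e2 e3 z) z = 0 := by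
  have two : ∀ {f : ℂ × ℂ → ℝ}, ContDiff ℝ (⊤ : ℕ∞) f → ContDiff ℝ 2 f := fun h => h.of_le
    (by norm_cast)
  have df : ∀ {f : ℂ × ℂ → ℝ}, ContDiff ℝ (⊤ : ℕ∞) f → Differentiable ℝ f := fun h =>
    h.differentiable (by simp)
  have hs : ∀ v, ContDiff ℝ (⊤ : ℕ∞) (IBP_D v u) := fun v => IBP_D_smooth v hu
  have hs2 : ∀ v w, ContDiff ℝ (⊤ : ℕ∞) (IBP_D w (IBP_D v u)) := fun v w => IBP_D_smooth w (hs v)
  have e3' : lev u e3 = fun z => IBP_D e3 (IBP_D e3 u) z + IBP_D e4 (IBP_D e4 u) z := by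
    funext z; simp only [lev, IBP_mi3]; rfl
  have b1 : (fun z => d2 u e1 e3 z + d2 u e2 e4 z)
      = fun z => IBP_D e3 (IBP_D e1 u) z + IBP_D e4 (IBP_D e2 u) z := rfl
  have b2 : (fun z => d2 u e1 e4 z - d2 u e2 e3 z)
      = fun z => IBP_D e4 (IBP_D e1 u) z - IBP_D e3 (IBP_D e2 u) z := rfl
  rw [e3', b1, b2, IBP_D_add _ (df (hs2 _ _)) (df (hs2 _ _)), IBP_D_add _ (df (hs2 _ _)) (df (hs2 _ _)),
    IBP_D_sub _ (df (hs2 _ _)) (df (hs2 _ _))]
  have c : ∀ (a b : ℂ × ℂ), IBP_D a (IBP_D b u) = IBP_D b (IBP_D a u) := fun a b =>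
    IBP_D_comm a b (two hu)
  have c' : ∀ (a b v : ℂ × ℂ), IBP_D a (IBP_D b (IBP_D v u)) = IBP_D b (IBP_D a (IBP_D v u)) :=
    fun a b v => IBP_D_comm a b (two (hs v))
  rw [c' e2 e3 e3, c e2 e3, c' e2 e4 e4, c e2 e4, c' e4 e3 e1]
  ring

lemma IBP_sum {n : ℕ} {R : ℝ} (c : Fin n → ℝ) (f : Fin n → ℂ × ℂ → ℝ) (hf : ∀ k, Continuous (f k))
    (hs : ∀ k, IBP_Slab R (f k)) :
    ∫ t, τ.avg (fun z => ∑ k, c k * f k z) t = ∑ k, c k * ∫ t, τ.avg (f k) t := by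
  have h1 : ∀ t, τ.avg (fun z => ∑ k, c k * f k z) t = ∑ k, c k * τ.avg (f k) t := by
    intro t
    unfold Tor.avg
    rw [integral_finsetSum _ fun k _ => (IBP_intOn τ (hf k) t).const_mul (c k)]
    exact Finset.sum_congr rfl fun k _ => integral_const_mul _ _
  simp only [h1]
  rw [integral_finsetSum _ fun k _ => (IBP_int τ (hf k) (hs k)).const_mul (c k)]
  exact Finset.sum_congr rfl fun k _ => integral_const_mul _ _

lemma IBP_DX {χ : ℝ → ℝ} (hχ : Differentiable ℝ χ) (v : ℂ × ℂ) :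
    IBP_D v (fun z => χ (ht z)) = fun z => deriv χ (ht z) * ht v := by
  funext z
  have h1 : HasFDerivAt ht (Complex.imCLM.comp (ContinuousLinearMap.fst ℝ ℂ ℂ)) z :=
    (Complex.imCLM.comp (ContinuousLinearMap.fst ℝ ℂ ℂ)).hasFDerivAt
  have h2 := (hχ (ht z)).hasDerivAt.comp_hasFDerivAt z h1
  show fderiv ℝ (fun z => χ (ht z)) z v = _
  have h3 : fderiv ℝ (fun z => χ (ht z)) z = _ := h2.fderiv
  rw [h3]
  simp [ht]

lemma IBP_DDX {χ : ℝ → ℝ} (hχ : ContDiff ℝ (⊤ : ℕ∞) χ) (v w : ℂ × ℂ) :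
    IBP_D w (IBP_D v (fun z => χ (ht z))) = fun z => deriv (deriv χ) (ht z) * (ht w * ht v) := by
  have h1 : Differentiable ℝ χ := hχ.differentiable (by simp)
  have h2 : Differentiable ℝ (deriv χ) := by
    have := (contDiff_succ_iff_deriv (n := (1 : WithTop ℕ∞))).1 (hχ.of_le (by norm_cast))
    exact this.2.2.differentiable (by norm_num)
  rw [IBP_DX h1]
  funext z
  have hd : Differentiable ℝ (fun z : ℂ × ℂ => deriv χ (ht z)) := by
    refine h2.comp ?_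
    exact (Complex.imCLM.comp (ContinuousLinearMap.fst ℝ ℂ ℂ)).differentiable
  rw [IBP_D_mul w hd (differentiable_const _), IBP_DX h2]
  have : IBP_D w (fun _ : ℂ × ℂ => ht v) z = 0 := by
    show fderiv ℝ (fun _ : ℂ × ℂ => ht v) z w = 0
    simp
  simp only [this]
  ring

/-- the four coefficients -/
noncomputable def IBP_g (u : ℂ × ℂ → ℝ) : Fin 8 → ℂ × ℂ → ℝ :=
  ![lev u e1, lev u e1, lev u e3, lev u e3, fun z => d2 u e1 e3 z + d2 u e2 e4 z,
    fun z => d2 u e1 e3 z + d2 u e2 e4 z, fun z => d2 u e1 e4 z - d2 u e2 e3 z,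
    fun z => d2 u e1 e4 z - d2 u e2 e3 z]

/-- the numerical coefficients -/
def IBP_k : Fin 8 → ℝ := ![1, 1, 1, 1, -2, -2, -2, 2]
/-- first direction -/
noncomputable def IBP_a : Fin 8 → ℂ × ℂ := ![e3, e4, e1, e2, e1, e2, e1, e2]
/-- second direction -/
noncomputable def IBP_b : Fin 8 → ℂ × ℂ := ![e3, e4, e1, e2, e3, e4, e4, e3]

lemma IBP_g_smooth {u : ℂ × ℂ → ℝ} (hu : ContDiff ℝ (⊤ : ℕ∞) u) (k : Fin 8) :
    ContDiff ℝ (⊤ : ℕ∞) (IBP_g u k) := by
  have hs2 : ∀ v w, ContDiff ℝ (⊤ : ℕ∞) (fun z => d2 u v w z) := fun v w =>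
    IBP_D_smooth w (IBP_D_smooth v hu)
  have hl : ∀ v, ContDiff ℝ (⊤ : ℕ∞) (lev u v) := fun v => (hs2 v v).add (hs2 (mi v) (mi v))
  fin_cases k
  · exact hl _
  · exact hl _
  · exact hl _
  · exact hl _
  · exact (hs2 _ _).add (hs2 _ _)
  · exact (hs2 _ _).add (hs2 _ _)
  · exact (hs2 _ _).sub (hs2 _ _)
  · exact (hs2 _ _).sub (hs2 _ _)

lemma IBP_g_per {u : ℂ × ℂ → ℝ} (pu : τ.Per u) (k : Fin 8) : τ.Per (IBP_g u k) := by
  have hs2 : ∀ v w z i, d2 u v w (z + τ.γ i) = d2 u v w z := fun v w z i =>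
    IBP_per_D τ (IBP_per_D τ pu v) w z i
  intro z i
  fin_cases k <;> simp [IBP_g, lev, hs2]

lemma IBP_lhs (u w : ℂ × ℂ → ℝ) (z : ℂ × ℂ) :
    ma u w z = ∑ k, IBP_k k * (IBP_g u k z * IBP_D (IBP_b k) (IBP_D (IBP_a k) w) z) := by
  rw [Fin.sum_univ_eight]
  have h : ∀ v x, IBP_D x (IBP_D v w) z = d2 w v x z := fun _ _ => rfl
  simp only [h, IBP_k, IBP_g, IBP_a, IBP_b, ma, lev, IBP_mi1, IBP_mi3]
  simp [lev, IBP_mi1, IBP_mi3]
  ring

lemma IBP_ht1 : ht e1 = 0 := by simp [ht, e1]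
lemma IBP_ht2 : ht e2 = 1 := by simp [ht, e2]
lemma IBP_ht3 : ht e3 = 0 := by simp [ht, e3]
lemma IBP_ht4 : ht e4 = 0 := by simp [ht, e4]

lemma IBP_rhs {u : ℂ × ℂ → ℝ} {χ : ℝ → ℝ} (hu : ContDiff ℝ (⊤ : ℕ∞) u)
    (hχ : ContDiff ℝ (⊤ : ℕ∞) χ) (z : ℂ × ℂ) :
    (∑ k, IBP_k k * IBP_D (IBP_b k) (IBP_D (IBP_a k) (fun z => χ (ht z) * IBP_g u k z)) z)
      = deriv (deriv χ) (ht z) * lev u e3 z := by
  have two : ∀ {f : ℂ × ℂ → ℝ}, ContDiff ℝ (⊤ : ℕ∞) f → ContDiff ℝ 2 f := fun h => h.of_le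
    (by norm_cast)
  have hX : ContDiff ℝ (⊤ : ℕ∞) (fun z : ℂ × ℂ => χ (ht z)) :=
    hχ.comp (Complex.imCLM.comp (ContinuousLinearMap.fst ℝ ℂ ℂ)).contDiff
  have h1 : Differentiable ℝ χ := hχ.differentiable (by simp)
  simp only [IBP_D_D_mul _ _ (two hX) (two (IBP_g_smooth hu _))]
  simp only [IBP_DDX hχ]
  simp only [IBP_DX h1]
  rw [Fin.sum_univ_eight]
  have f4 := IBP_four hu z
  have f3 := IBP_three hu z
  simp only [IBP_k, IBP_g, IBP_a, IBP_b]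
  simp [IBP_ht1, IBP_ht2, IBP_ht3, IBP_ht4]
  linear_combination (χ (ht z)) * f4 + 2 * deriv χ (ht z) * f3

theorem thm_IBP (τ : Tor) : St_IBP τ := by
  intro u w χ pu pw hu hw hχ hc
  have two : ∀ {f : ℂ × ℂ → ℝ}, ContDiff ℝ (⊤ : ℕ∞) f → ContDiff ℝ 2 f := fun h => h.of_le
    (by norm_cast)
  have hX : ContDiff ℝ (⊤ : ℕ∞) (fun z : ℂ × ℂ => χ (ht z)) :=
    hχ.comp (Complex.imCLM.comp (ContinuousLinearMap.fst ℝ ℂ ℂ)).contDiff
  obtain ⟨R, hR⟩ := hc.isCompact.isBounded.subset_closedBall 0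
  have hs : ∀ k, IBP_Slab R (fun z => χ (ht z) * IBP_g u k z) := by
    intro k z hz
    show χ (ht z) * IBP_g u k z = 0
    have : χ (ht z) = 0 := by
      by_contra hne
      have := hR (subset_tsupport χ hne)
      rw [mem_closedBall_zero_iff, Real.norm_eq_abs] at this
      linarith
    rw [this, zero_mul]
  have hF : ∀ k, ContDiff ℝ 2 (fun z => χ (ht z) * IBP_g u k z) := fun k =>
    (two hX).mul (two (IBP_g_smooth hu k))
  have hP : ∀ k, τ.Per (fun z => χ (ht z) * IBP_g u k z) := by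
    intro k z i
    show χ (ht (z + τ.γ i)) * IBP_g u k (z + τ.γ i) = χ (ht z) * IBP_g u k z
    rw [IBP_g_per τ pu k z i]
    congr 2
    simp [ht, Tor.γ]
  have cD : ∀ {f : ℂ × ℂ → ℝ} (a b : ℂ × ℂ), ContDiff ℝ 2 f → Continuous (IBP_D b (IBP_D a f)) :=
    fun a b hf => (IBP_D_cd (m := 0) b (IBP_D_cd (m := 1) a hf (by norm_num)) (by simp)).continuous
  have L : ∀ t, χ t * τ.avg (ma u w) t = τ.avg (fun z => ∑ k, IBP_k k *
      ((χ (ht z) * IBP_g u k z) * IBP_D (IBP_b k) (IBP_D (IBP_a k) w) z)) t := by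
    intro t
    unfold Tor.avg
    rw [← integral_const_mul]
    refine integral_congr_ae (Filter.Eventually.of_forall fun x => ?_)
    simp only [IBP_ht_pt, IBP_lhs]
    rw [Finset.mul_sum]
    exact Finset.sum_congr rfl fun k _ => by ring
  have Rr : ∀ t, deriv (deriv χ) t * τ.avg (fun z => w z * lev u e3 z) t
      = τ.avg (fun z => ∑ k, IBP_k k *
      (IBP_D (IBP_b k) (IBP_D (IBP_a k) (fun z => χ (ht z) * IBP_g u k z)) z * w z)) t := by
    intro t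
    unfold Tor.avg
    rw [← integral_const_mul]
    refine integral_congr_ae (Filter.Eventually.of_forall fun x => ?_)
    have h := IBP_rhs hu hχ (τ.pt t x)
    rw [IBP_ht_pt] at h
    simp only []
    rw [mul_left_comm, ← h, Finset.mul_sum]
    exact Finset.sum_congr rfl fun k _ => by ring
  simp only [L, Rr]
  rw [IBP_sum τ (R := R) IBP_k (fun k z => (χ (ht z) * IBP_g u k z) *
      IBP_D (IBP_b k) (IBP_D (IBP_a k) w) z) (fun k => (hF k).continuous.mul (cD _ _ hw))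
      (fun k => (hs k).mul_right _),
    IBP_sum τ (R := R) IBP_k (fun k z => IBP_D (IBP_b k) (IBP_D (IBP_a k)
      (fun z => χ (ht z) * IBP_g u k z)) z * w z) (fun k => (cD _ _ (hF k)).mul hw.continuous)
      (fun k => (((hs k).D _).D _).mul_right _)]
  exact Finset.sum_congr rfl fun k _ => by rw [IBP_two τ (hF k) hw (hP k) pw (hs k)]

end Pool.Agent.KT
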