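import Pool.Agent.KT.IBP

/-!
# KT IBPC: integration by parts for the mixed Monge-Ampere operator, compact support
-/

set_option autoImplicit false

open scoped BigOperators ComplexConjugate Topology
open MeasureTheory

namespace Pool.Agent.KT

lemma IBPC_D_supp {f : ℂ × ℂ → ℝ} (v : ℂ × ℂ) (hf : HasCompactSupport f) :
    HasCompactSupport (IBP_D v f) := hf.fderiv_apply (𝕜 := ℝ) v

/-- one step -/
lemma IBPC_one {f w : ℂ × ℂ → ℝ} (hf : ContDiff ℝ (⊤ : ℕ∞) f) (hw : ContDiff ℝ (⊤ : ℕ∞) w)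
    (hs : HasCompactSupport f) (a : ℂ × ℂ) :
    ∫ z, f z * IBP_D a w z = -∫ z, IBP_D a f z * w z := by
  have cf := hf.continuous
  have cw := hw.continuous
  have cfa := (IBP_D_smooth a hf).continuous
  have cwa := (IBP_D_smooth a hw).continuous
  have _i : (volume : Measure (ℂ × ℂ)).IsAddHaarMeasure := by
    rw [Measure.volume_eq_prod]; infer_instance
  exact integral_mul_fderiv_eq_neg_fderiv_mul_of_integrable (v := a)
    ((cfa.mul cw).integrable_of_hasCompactSupport ((IBPC_D_supp a hs).mul_right))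
    ((cf.mul cwa).integrable_of_hasCompactSupport (hs.mul_right))
    ((cf.mul cw).integrable_of_hasCompactSupport (hs.mul_right))
    (fun x _ => (hf.differentiable (by simp)).differentiableAt)
    (fun x _ => (hw.differentiable (by simp)).differentiableAt)

/-- moving two derivatives -/
lemma IBPC_two {f w : ℂ × ℂ → ℝ} (hf : ContDiff ℝ (⊤ : ℕ∞) f) (hw : ContDiff ℝ (⊤ : ℕ∞) w)
    (hs : HasCompactSupport f) (a b : ℂ × ℂ) :
    ∫ z, f z * IBP_D b (IBP_D a w) z = ∫ z, IBP_D b (IBP_D a f) z * w z := by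
  rw [IBPC_one hf (IBP_D_smooth a hw) hs b,
    IBPC_one (IBP_D_smooth b hf) hw (IBPC_D_supp b hs) a, neg_neg,
    IBP_D_comm a b (hf.of_le (by norm_cast))]

/-- the four third order identities -/
lemma IBPC_three {u : ℂ × ℂ → ℝ} (hu : ContDiff ℝ (⊤ : ℕ∞) u) (z : ℂ × ℂ) :
    (IBP_D e3 (lev u e1) z - IBP_D e1 (fun z => d2 u e1 e3 z + d2 u e2 e4 z) z
      + IBP_D e2 (fun z => d2 u e1 e4 z - d2 u e2 e3 z) z = 0) ∧
    (IBP_D e4 (lev u e1) z - IBP_D e2 (fun z => d2 u e1 e3 z + d2 u e2 e4 z) z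
      - IBP_D e1 (fun z => d2 u e1 e4 z - d2 u e2 e3 z) z = 0) ∧
    (IBP_D e1 (lev u e3) z - IBP_D e3 (fun z => d2 u e1 e3 z + d2 u e2 e4 z) z
      - IBP_D e4 (fun z => d2 u e1 e4 z - d2 u e2 e3 z) z = 0) := by
  have two : ∀ {f : ℂ × ℂ → ℝ}, ContDiff ℝ (⊤ : ℕ∞) f → ContDiff ℝ 2 f := fun h => h.of_le
    (by norm_cast)
  have df : ∀ {f : ℂ × ℂ → ℝ}, ContDiff ℝ (⊤ : ℕ∞) f → Differentiable ℝ f := fun h =>
    h.differentiable (by simp)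
  have hs : ∀ v, ContDiff ℝ (⊤ : ℕ∞) (IBP_D v u) := fun v => IBP_D_smooth v hu
  have hs2 : ∀ v w, ContDiff ℝ (⊤ : ℕ∞) (IBP_D w (IBP_D v u)) := fun v w => IBP_D_smooth w (hs v)
  have e1' : lev u e1 = fun z => IBP_D e1 (IBP_D e1 u) z + IBP_D e2 (IBP_D e2 u) z := by
    funext z; simp only [lev, IBP_mi1]; rfl
  have e3' : lev u e3 = fun z => IBP_D e3 (IBP_D e3 u) z + IBP_D e4 (IBP_D e4 u) z := by
    funext z; simp only [lev, IBP_mi3]; rfl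
  have b1 : (fun z => d2 u e1 e3 z + d2 u e2 e4 z)
      = fun z => IBP_D e3 (IBP_D e1 u) z + IBP_D e4 (IBP_D e2 u) z := rfl
  have b2 : (fun z => d2 u e1 e4 z - d2 u e2 e3 z)
      = fun z => IBP_D e4 (IBP_D e1 u) z - IBP_D e3 (IBP_D e2 u) z := rfl
  have Dadd : ∀ (v : ℂ × ℂ) {f g : ℂ × ℂ → ℝ}, ContDiff ℝ (⊤ : ℕ∞) f → ContDiff ℝ (⊤ : ℕ∞) g →
      IBP_D v (fun z => f z + g z) z = IBP_D v f z + IBP_D v g z := fun v f g hf hg => by
    rw [IBP_D_add v (df hf) (df hg)]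
  have Dsub : ∀ (v : ℂ × ℂ) {f g : ℂ × ℂ → ℝ}, ContDiff ℝ (⊤ : ℕ∞) f → ContDiff ℝ (⊤ : ℕ∞) g →
      IBP_D v (fun z => f z - g z) z = IBP_D v f z - IBP_D v g z := fun v f g hf hg => by
    rw [IBP_D_sub v (df hf) (df hg)]
  have c : ∀ (a b : ℂ × ℂ), IBP_D a (IBP_D b u) = IBP_D b (IBP_D a u) := fun a b =>
    IBP_D_comm a b (two hu)
  have c' : ∀ (a b v : ℂ × ℂ), IBP_D a (IBP_D b (IBP_D v u)) = IBP_D b (IBP_D a (IBP_D v u)) :=
    fun a b v => IBP_D_comm a b (two (hs v))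
  rw [e1', e3', b1, b2]
  refine ⟨?_, ?_, ?_⟩
  · rw [Dadd _ (hs2 _ _) (hs2 _ _), Dadd _ (hs2 _ _) (hs2 _ _), Dsub _ (hs2 _ _) (hs2 _ _)]
    rw [c' e3 e1 e1, c e3 e1, c' e3 e2 e2, c' e2 e4 e1, c e2 e1, c' e4 e1 e2, ← c e3 e1]
    ring
  · rw [Dadd _ (hs2 _ _) (hs2 _ _), Dadd _ (hs2 _ _) (hs2 _ _), Dsub _ (hs2 _ _) (hs2 _ _)]
    rw [c' e4 e1 e1, c' e4 e2 e2, c' e2 e3 e1, c e2 e1, c' e3 e1 e2]
    ring
  · rw [Dadd _ (hs2 _ _) (hs2 _ _), Dadd _ (hs2 _ _) (hs2 _ _), Dsub _ (hs2 _ _) (hs2 _ _)]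
    rw [c' e1 e3 e3, c e1 e3, c' e1 e4 e4, c e1 e4, c' e4 e3 e2]
    ring

lemma IBPC_ma_comm (f g : ℂ × ℂ → ℝ) (z : ℂ × ℂ) : ma f g z = ma g f z := by
  unfold ma; ring

lemma IBPC_rhs {u χ : ℂ × ℂ → ℝ} (hu : ContDiff ℝ (⊤ : ℕ∞) u)
    (hχ : ContDiff ℝ (⊤ : ℕ∞) χ) (z : ℂ × ℂ) :
    (∑ k, IBP_k k * IBP_D (IBP_b k) (IBP_D (IBP_a k) (fun z => χ z * IBP_g u k z)) z)
      = ma u χ z := by
  have two : ∀ {f : ℂ × ℂ → ℝ}, ContDiff ℝ (⊤ : ℕ∞) f → ContDiff ℝ 2 f := fun h => h.of_le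
    (by norm_cast)
  simp only [IBP_D_D_mul _ _ (two hχ) (two (IBP_g_smooth hu _))]
  rw [IBP_lhs, Fin.sum_univ_eight, Fin.sum_univ_eight]
  have f4 := IBP_four hu z
  have f3 := IBP_three hu z
  obtain ⟨g1, g2, g3⟩ := IBPC_three hu z
  simp only [IBP_k, IBP_g, IBP_a, IBP_b]
  simp
  linear_combination (χ z) * f4 + 2 * IBP_D e2 χ z * f3 + 2 * IBP_D e3 χ z * g1
    + 2 * IBP_D e4 χ z * g2 + 2 * IBP_D e1 χ z * g3

theorem thm_IBPC : St_IBPC := by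
  intro u w χ hu hw hχ hc
  have cD : ∀ {f : ℂ × ℂ → ℝ} (a b : ℂ × ℂ), ContDiff ℝ (⊤ : ℕ∞) f →
      Continuous (IBP_D b (IBP_D a f)) :=
    fun a b hf => (IBP_D_smooth b (IBP_D_smooth a hf)).continuous
  have hF : ∀ k, ContDiff ℝ (⊤ : ℕ∞) (fun z => χ z * IBP_g w k z) := fun k =>
    hχ.mul (IBP_g_smooth hw k)
  have hs : ∀ k, HasCompactSupport (fun z => χ z * IBP_g w k z) := fun k => hc.mul_right
  have L : ∀ z, χ z * ma u w z = ∑ k, IBP_k k *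
      ((χ z * IBP_g w k z) * IBP_D (IBP_b k) (IBP_D (IBP_a k) u) z) := by
    intro z
    rw [IBPC_ma_comm, IBP_lhs, Finset.mul_sum]
    exact Finset.sum_congr rfl fun k _ => by ring
  have Rr : ∀ z, u z * ma χ w z = ∑ k, IBP_k k *
      (IBP_D (IBP_b k) (IBP_D (IBP_a k) (fun z => χ z * IBP_g w k z)) z * u z) := by
    intro z
    rw [IBPC_ma_comm, ← IBPC_rhs hw hχ, Finset.mul_sum]
    exact Finset.sum_congr rfl fun k _ => by ring
  have i1 : ∀ k, Integrable (fun z => (χ z * IBP_g w k z) * IBP_D (IBP_b k) (IBP_D (IBP_a k) u) z) :=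
    fun k => ((hF k).continuous.mul (cD _ _ hu)).integrable_of_hasCompactSupport (hs k).mul_right
  have i2 : ∀ k, Integrable (fun z => IBP_D (IBP_b k) (IBP_D (IBP_a k)
      (fun z => χ z * IBP_g w k z)) z * u z) :=
    fun k => ((cD _ _ (hF k)).mul hu.continuous).integrable_of_hasCompactSupport
      ((IBPC_D_supp _ (IBPC_D_supp _ (hs k))).mul_right)
  simp only [L, Rr]
  rw [integral_finsetSum _ fun k _ => (i1 k).const_mul _,
    integral_finsetSum _ fun k _ => (i2 k).const_mul _]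
  refine Finset.sum_congr rfl fun k _ => ?_
  rw [integral_const_mul, integral_const_mul, IBPC_two (hF k) hu (hs k)]

end Pool.Agent.KT
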