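import Pool.Agent.KT.St

/-!
KT [ISO]: common zeros are isolated (helper50).
-/

set_option autoImplicit false

open scoped BigOperators ComplexConjugate Topology
open Filter

namespace Pool.Agent.KT

/-- the common zeros -/
def ISO_Z {ι : Type} (f : ι → ℂ × ℂ → ℂ) : Set (ℂ × ℂ) := {z | ∀ j, f j z = 0}

theorem ISO_closed {ι : Type} {f : ι → ℂ × ℂ → ℂ} (hf : ∀ j, Differentiable ℂ (f j)) :
    IsClosed (ISO_Z f) := by
  unfold ISO_Z
  rw [Set.ofPred_forall]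
  exact isClosed_iInter fun j => isClosed_eq (hf j).continuous continuous_const

/-- the periods of the zero set -/
def ISO_inv {ι : Type} (f : ι → ℂ × ℂ → ℂ) : AddSubgroup (ℂ × ℂ) where
  carrier := {g | ∀ z, z + g ∈ ISO_Z f ↔ z ∈ ISO_Z f}
  zero_mem' := by
    intro z
    rw [add_zero]
  add_mem' := by
    intro a b ha hb z
    rw [← add_assoc, hb (z + a), ha z]
  neg_mem' := by
    intro a ha z
    have h := ha (z + -a)
    rw [neg_add_cancel_right] at h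
    exact h.symm

theorem ISO_mem_inv {ι : Type} {f : ι → ℂ × ℂ → ℂ} {τ : Tor}
    (h : ∀ j z i, f j (z + τ.γ i) = 0 ↔ f j z = 0) (i : Fin 3) : τ.γ i ∈ ISO_inv f := by
  intro z
  unfold ISO_Z
  rw [Set.mem_ofPred_eq, Set.mem_ofPred_eq]
  exact forall_congr' fun j => h j z i

/-- the non-isolated common zeros -/
def ISO_D {ι : Type} (f : ι → ℂ × ℂ → ℂ) : Set (ℂ × ℂ) := derivedSet (ISO_Z f)

theorem ISO_D_iff {ι : Type} {f : ι → ℂ × ℂ → ℂ} (p : ℂ × ℂ) :
    p ∈ ISO_D f ↔ ∃ᶠ z in 𝓝 p, z ≠ p ∧ z ∈ ISO_Z f := by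
  unfold ISO_D
  rw [mem_derivedSet, accPt_iff_frequently]

theorem ISO_D_sub {ι : Type} {f : ι → ℂ × ℂ → ℂ} (hf : ∀ j, Differentiable ℂ (f j)) :
    ISO_D f ⊆ ISO_Z f := by
  intro p hp
  rw [ISO_D_iff] at hp
  have h1 : p ∈ closure (ISO_Z f) := mem_closure_iff_frequently.2 (hp.mono fun z hz => hz.2)
  rwa [(ISO_closed hf).closure_eq] at h1

theorem ISO_D_inv {ι : Type} {f : ι → ℂ × ℂ → ℂ} {g : ℂ × ℂ} (hg : g ∈ ISO_inv f) (p : ℂ × ℂ) :
    p + g ∈ ISO_D f ↔ p ∈ ISO_D f := by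
  rw [ISO_D_iff, ISO_D_iff, ← map_add_right_nhds g p, frequently_map]
  apply Filter.frequently_congr
  apply Filter.Eventually.of_forall
  intro z
  rw [hg z]
  constructor
  · rintro ⟨h1, h2⟩
    exact ⟨fun h => h1 (by rw [h]), h2⟩
  · rintro ⟨h1, h2⟩
    exact ⟨fun h => h1 (add_right_cancel h), h2⟩

theorem ISO_pt_cont (τ : Tor) : Continuous fun q : ℝ × (Fin 3 → ℝ) => τ.pt q.1 q.2 := by
  unfold Tor.pt
  apply Continuous.add
  · fun_prop
  · apply continuous_finsetSum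
    intro i _
    fun_prop

/-- real coordinates -/
theorem ISO_coord (τ : Tor) (z : ℂ × ℂ) : ∃ x : Fin 3 → ℝ, z = τ.pt (ht z) x := by
  have hcard : Fintype.card (Fin 3) = Module.finrank ℝ (ℝ × ℂ) := by
    rw [Module.finrank_prod, Complex.finrank_real_complex]
    simp
  have hspan := τ.li.span_eq_top_of_card_eq_finrank' hcard
  have h1 : ((z.1.re, z.2) : ℝ × ℂ) ∈ Submodule.span ℝ (Set.range fun i =>
      ((τ.a i, τ.b i) : ℝ × ℂ)) := by
    rw [hspan]; trivial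
  obtain ⟨x, hx⟩ := (Submodule.mem_span_range_iff_exists_fun ℝ).1 h1
  refine ⟨x, ?_⟩
  have e1 : ∑ i, x i * τ.a i = z.1.re := by
    have := congrArg Prod.fst hx
    simpa [Prod.fst_sum] using this
  have e2 : ∑ i, (x i : ℂ) * τ.b i = z.2 := by
    have := congrArg Prod.snd hx
    simpa [Prod.snd_sum] using this
  unfold Tor.pt Tor.γ ht
  apply Prod.ext
  · rw [Prod.fst_add, Prod.fst_sum]
    show z.1 = (z.1.im : ℂ) * Complex.I + ∑ i, (x i : ℂ) * (τ.a i : ℂ)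
    have e3 : ∑ i, (x i : ℂ) * (τ.a i : ℂ) = (z.1.re : ℂ) := by
      rw [← e1]; push_cast; rfl
    rw [e3, add_comm]
    exact (Complex.re_add_im z.1).symm
  · rw [Prod.snd_add, Prod.snd_sum]
    show z.2 = 0 + ∑ i, (x i : ℂ) * τ.b i
    rw [zero_add, e2]

theorem ISO_ht_pt (τ : Tor) (t : ℝ) (x : Fin 3 → ℝ) : ht (τ.pt t x) = t := by
  unfold ht Tor.pt Tor.γ
  rw [Prod.fst_add, Prod.fst_sum, Complex.add_im, Complex.im_sum]
  simp

/-- reduction to the cube -/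
theorem ISO_reduce (τ : Tor) {ι : Type} {f : ι → ℂ × ℂ → ℂ}
    (h : ∀ j z i, f j (z + τ.γ i) = 0 ↔ f j z = 0) (z : ℂ × ℂ) :
    ∃ x ∈ Tor.cube, ∃ g ∈ ISO_inv f, τ.pt (ht z) x + g = z := by
  obtain ⟨x, hx⟩ := ISO_coord τ z
  let y : Fin 3 → ℝ := fun i => x i - round (x i)
  let g : ℂ × ℂ := ∑ i, (round (x i)) • τ.γ i
  refine ⟨y, ?_, g, ?_, ?_⟩
  · unfold Tor.cube
    rw [Set.mem_Icc]
    constructor
    · intro i
      have := abs_le.1 (abs_sub_round (x i))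
      exact this.1
    · intro i
      have := abs_le.1 (abs_sub_round (x i))
      exact this.2
  · exact AddSubgroup.sum_mem _ fun i _ => AddSubgroup.zsmul_mem _ (ISO_mem_inv h i) _
  · conv_rhs => rw [hx]
    unfold Tor.pt
    rw [add_assoc]
    congr 1
    rw [← Finset.sum_add_distrib]
    apply Finset.sum_congr rfl
    intro i _
    apply Prod.ext
    · simp only [Prod.fst_add, zsmul_eq_mul, y, Prod.fst_mul, Prod.fst_intCast]
      push_cast
      ring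
    · simp only [Prod.snd_add, zsmul_eq_mul, y, Prod.snd_mul, Prod.snd_intCast]
      push_cast
      ring

/-- case 1 -/
theorem ISO_case1 (τ : Tor) {ι : Type} {f : ι → ℂ × ℂ → ℂ} (hf : ∀ j, Differentiable ℂ (f j))
    (h : ∀ j z i, f j (z + τ.γ i) = 0 ↔ f j z = 0) (p : ℂ × ℂ) (hp : ∀ j w, f j (p.1, w) = 0)
    (j : ι) (z : ℂ × ℂ) : f j z = 0 := by
  let A : AddSubgroup ℝ := {
    carrier := {a | ∃ b : ℂ, (((a : ℂ), b) : ℂ × ℂ) ∈ ISO_inv f}
    zero_mem' := ⟨0, by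
      have : (((0 : ℝ) : ℂ), (0 : ℂ)) = (0 : ℂ × ℂ) := by simp
      rw [this]; exact (ISO_inv f).zero_mem⟩
    add_mem' := by
      rintro a a' ⟨b, hb⟩ ⟨b', hb'⟩
      refine ⟨b + b', ?_⟩
      have := (ISO_inv f).add_mem hb hb'
      have e : (((a + a' : ℝ) : ℂ), b + b') = ((a : ℂ), b) + ((a' : ℂ), b') := by
        rw [Prod.mk_add_mk]; push_cast; rfl
      rw [e]; exact this
    neg_mem' := by
      rintro a ⟨b, hb⟩
      refine ⟨-b, ?_⟩
      have := (ISO_inv f).neg_mem hb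
      have e : (((-a : ℝ) : ℂ), -b) = -((a : ℂ), b) := by
        rw [Prod.neg_mk]; push_cast; rfl
      rw [e]; exact this }
  have hA : AddSubgroup.closure (Set.range τ.a) ≤ A := by
    rw [AddSubgroup.closure_le]
    rintro _ ⟨i, rfl⟩
    exact ⟨τ.b i, ISO_mem_inv h i⟩
  have hS : ∀ a : ℝ, ∀ j w, f j (p.1 + a, w) = 0 := by
    have hcl : IsClosed {a : ℝ | ∀ j w, f j (p.1 + a, w) = 0} := by
      rw [Set.ofPred_forall]
      apply isClosed_iInter
      intro j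
      rw [Set.ofPred_forall]
      apply isClosed_iInter
      intro w
      apply isClosed_eq _ continuous_const
      exact (hf j).continuous.comp (by fun_prop)
    have hsub : ((AddSubgroup.closure (Set.range τ.a) : AddSubgroup ℝ) : Set ℝ) ⊆
        {a : ℝ | ∀ j w, f j (p.1 + a, w) = 0} := by
      intro a ha j w
      obtain ⟨b, hb⟩ := hA ha
      have h1 : (p.1, w - b) ∈ ISO_Z f := fun j => hp j _
      have h2 := (hb (p.1, w - b)).2 h1
      rw [Prod.mk_add_mk, sub_add_cancel] at h2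
      exact h2 j
    have := closure_minimal hsub hcl
    rw [τ.dense.closure_eq] at this
    intro a
    exact this (Set.mem_univ a)
  have hg : Differentiable ℂ fun z₁ : ℂ => f j (z₁, z.2) :=
    (hf j).comp (by fun_prop)
  have hana : AnalyticOnNhd ℂ (fun z₁ : ℂ => f j (z₁, z.2)) Set.univ :=
    fun w _ => hg.analyticAt w
  have hu : Tendsto (fun n : ℕ => p.1 + (((1 / ((n : ℝ) + 1) : ℝ)) : ℂ)) atTop (𝓝[≠] p.1) := by
    rw [tendsto_nhdsWithin_iff]
    constructor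
    · have h1 : Tendsto (fun n : ℕ => (1 / ((n : ℝ) + 1) : ℝ)) atTop (𝓝 0) :=
        tendsto_one_div_add_atTop_nhds_zero_nat
      have h2 : Tendsto (fun n : ℕ => (((1 / ((n : ℝ) + 1) : ℝ)) : ℂ)) atTop (𝓝 ((0 : ℝ) : ℂ)) :=
        (Complex.continuous_ofReal.tendsto 0).comp h1
      have h3 := h2.const_add p.1
      simpa using h3
    · apply Filter.Eventually.of_forall
      intro n
      rw [Set.mem_compl_iff, Set.mem_singleton_iff]
      intro h1
      have h2 : (((1 / ((n : ℝ) + 1) : ℝ)) : ℂ) = 0 := by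
        have := h1
        exact add_eq_left.1 this
      have h3 : (1 / ((n : ℝ) + 1) : ℝ) = 0 := by exact_mod_cast h2
      have h4 : (0 : ℝ) < 1 / ((n : ℝ) + 1) := by positivity
      linarith
  have hfr : ∃ᶠ z₁ in 𝓝[≠] p.1, f j (z₁, z.2) = 0 := by
    apply hu.frequently
    apply Filter.Frequently.of_forall
    intro n
    exact hS _ j z.2
  have := hana.eqOn_zero_of_preconnected_of_frequently_eq_zero isPreconnected_univ
    (Set.mem_univ p.1) hfr (Set.mem_univ z.1)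
  exact this

/-- case 2 -/
theorem ISO_case2 {ι : Type} [Fintype ι] (hL : St_ISOL) {f : ι → ℂ × ℂ → ℂ}
    (hf : ∀ j, Differentiable ℂ (f j)) (p : ℂ × ℂ) (hp : p ∈ ISO_D f)
    (hw : ∃ j w, f j (p.1, w) ≠ 0) (t : ℝ) (ht : ht p < t) :
    ∃ q ∈ ISO_D f, Pool.Agent.KT.ht p < Pool.Agent.KT.ht q ∧ Pool.Agent.KT.ht q ≤ t := by
  have hfr : ∃ᶠ z in 𝓝[≠] p, ∀ j, f j z = 0 := by
    rw [ISO_D_iff] at hp
    rw [frequently_nhdsWithin_iff]
    exact hp.mono fun z hz => ⟨hz.2, hz.1⟩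
  have h1 := hL ι f hf p hfr hw 1 one_pos
  have h2 := eventually_eventually_nhds.2 h1
  have h3 : Tendsto (fun η : ℝ => p.1 + (η : ℂ) * Complex.I) (𝓝[>] 0) (𝓝 p.1) := by
    have h4 : Continuous fun η : ℝ => p.1 + (η : ℂ) * Complex.I := by fun_prop
    have h5 := h4.tendsto 0
    simp only [Complex.ofReal_zero, zero_mul, add_zero] at h5
    exact h5.mono_left nhdsWithin_le_nhds
  have h4 := h3.eventually h2
  have h5 : ∀ᶠ η : ℝ in 𝓝[>] 0, η < t - Pool.Agent.KT.ht p :=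
    nhdsWithin_le_nhds (Iio_mem_nhds (by linarith))
  have h6 : ∀ᶠ η : ℝ in 𝓝[>] 0, 0 < η := eventually_mem_nhdsWithin
  obtain ⟨η, h7, h8, h9⟩ := (h4.and (h5.and h6)).exists
  set z₁ : ℂ := p.1 + (η : ℂ) * Complex.I with hz₁
  have him : z₁.im = p.1.im + η := by
    rw [hz₁]; simp
  let u : ℕ → ℂ := fun n => z₁ + (((1 / ((n : ℝ) + 1) : ℝ)) : ℂ)
  have hu1 : Tendsto u atTop (𝓝 z₁) := by
    have h1 : Tendsto (fun n : ℕ => (1 / ((n : ℝ) + 1) : ℝ)) atTop (𝓝 0) :=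
      tendsto_one_div_add_atTop_nhds_zero_nat
    have h2 : Tendsto (fun n : ℕ => (((1 / ((n : ℝ) + 1) : ℝ)) : ℂ)) atTop (𝓝 ((0 : ℝ) : ℂ)) :=
      (Complex.continuous_ofReal.tendsto 0).comp h1
    have h3 := h2.const_add z₁
    simpa [u] using h3
  have hu2 : ∀ n, u n ≠ z₁ := by
    intro n h1
    have h2 : (((1 / ((n : ℝ) + 1) : ℝ)) : ℂ) = 0 := add_eq_left.1 h1
    have h3 : (1 / ((n : ℝ) + 1) : ℝ) = 0 := by exact_mod_cast h2
    have h4 : (0 : ℝ) < 1 / ((n : ℝ) + 1) := by positivity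
    linarith
  obtain ⟨N, hN⟩ := eventually_atTop.1 (hu1.eventually h7)
  have hN' : ∀ n, ∃ z₂ : ℂ, ‖z₂ - p.2‖ < 1 ∧ ∀ j, f j (u (n + N), z₂) = 0 :=
    fun n => hN (n + N) (Nat.le_add_left _ _)
  choose w hw1 hw2 using hN'
  obtain ⟨w₀, _, φ, hφ, hlim⟩ := (isCompact_closedBall p.2 1).tendsto_subseq
    (x := w) (fun n => by rw [Metric.mem_closedBall, dist_eq_norm]; exact (hw1 n).le)
  refine ⟨(z₁, w₀), ?_, ?_, ?_⟩
  · rw [ISO_D_iff]
    have hu3 : Tendsto (fun n => u (φ n + N)) atTop (𝓝 z₁) :=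
      hu1.comp ((tendsto_add_atTop_nat N).comp hφ.tendsto_atTop)
    have h10 : Tendsto (fun n => (u (φ n + N), w (φ n))) atTop (𝓝 (z₁, w₀)) :=
      hu3.prodMk_nhds hlim
    apply h10.frequently
    apply Filter.Frequently.of_forall
    intro n
    refine ⟨fun h => hu2 _ (congrArg Prod.fst h), fun j => hw2 _ j⟩
  · show p.1.im < z₁.im
    rw [him]; linarith
  · show z₁.im ≤ t
    rw [him]
    have : η < t - p.1.im := h8
    linarith

theorem thm_ISO (τ : Tor) (hL : St_ISOL) : St_ISO τ := by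
  intro ι _ f hf h t₁ t₂ ht12 hno p hp1 hp2
  by_contra hcon
  have hpD : p ∈ ISO_D f := by
    rw [ISO_D_iff]
    have h1 : ∃ᶠ z in 𝓝[≠] p, ∀ j, f j z = 0 := by
      intro h2
      apply hcon
      exact h2.mono fun z hz => not_forall.1 hz
    rw [frequently_nhdsWithin_iff] at h1
    exact h1.mono fun z hz => ⟨hz.2, hz.1⟩
  -- the compact set
  let K : Set (ℂ × ℂ) := (fun q : ℝ × (Fin 3 → ℝ) => τ.pt q.1 q.2) ''
    (Set.Icc t₁ t₂ ×ˢ Tor.cube)
  have hK : IsCompact K := by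
    apply IsCompact.image _ (ISO_pt_cont τ)
    exact isCompact_Icc.prod isCompact_Icc
  have hKD : IsCompact (ISO_D f ∩ K) := by
    apply hK.inter_left
    exact isClosed_derivedSet _
  have hred : ∀ z ∈ ISO_D f, t₁ ≤ ht z → ht z ≤ t₂ → ∃ z' ∈ ISO_D f ∩ K, ht z' = ht z := by
    intro z hz h1 h2
    obtain ⟨x, hx, g, hg, hxg⟩ := ISO_reduce τ h z
    refine ⟨τ.pt (ht z) x, ⟨?_, ?_⟩, ISO_ht_pt _ _ _⟩
    · rw [← ISO_D_inv hg, hxg]
      exact hz
    · exact ⟨(ht z, x), ⟨⟨h1, h2⟩, hx⟩, rfl⟩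
  obtain ⟨p', hp', -⟩ := hred p hpD hp1.le hp2.le
  have hhc : Continuous (ht : ℂ × ℂ → ℝ) := by
    unfold ht
    exact Complex.continuous_im.comp continuous_fst
  obtain ⟨m, hm, hmax⟩ := hKD.exists_isMaxOn ⟨p', hp'⟩ hhc.continuousOn
  have hmZ : m ∈ ISO_Z f := ISO_D_sub hf hm.1
  have hmt : t₁ ≤ ht m ∧ ht m ≤ t₂ := by
    obtain ⟨⟨t, x⟩, ⟨h1, _⟩, h2⟩ := hm.2
    have h3 : ht m = t := by
      rw [← h2]
      exact ISO_ht_pt _ _ _
    rw [h3]
    exact h1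
  have hmt2 : ht m < t₂ := by
    rcases lt_or_eq_of_le hmt.2 with h1 | h1
    · exact h1
    · obtain ⟨j, hj⟩ := hno m (Or.inr h1)
      exact absurd (hmZ j) hj
  by_cases hcase : ∃ j w, f j (m.1, w) ≠ 0
  · obtain ⟨q, hq, hq1, hq2⟩ := ISO_case2 hL hf m hm.1 hcase t₂ hmt2
    obtain ⟨q', hq', hq3⟩ := hred q hq (hmt.1.trans hq1.le) hq2
    have := hmax hq'
    rw [Set.mem_ofPred_eq, hq3] at this
    linarith
  · push Not at hcase
    obtain ⟨j, hj⟩ := hno (((t₁ : ℂ) * Complex.I), 0) (Or.inl (by unfold ht; simp))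
    exact hj (ISO_case1 τ hf h m hcase j _)

end Pool.Agent.KT
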