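import Pool.Agent.KT.St
import Pool.Agent.Squeeze.Smooth

/-!
# KT: a common zero which is not isolated extends to the neighbouring vertical lines

Let `F` be one of the functions, not identically zero on the vertical line through the point.  The
moments `∮ g w ^ k F_w / F` over a small circle are holomorphic in the base; they are the moments
of the zeros of `F`, with their multiplicities.  The Hankel determinant of these moments, of size the
maximal number of different zeros, is not identically zero for `g = 1`, and vanishes identically for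
every combination `g` of the given functions.
-/

set_option autoImplicit false

open Metric Set Filter MeasureTheory Topology
open scoped Real Interval

namespace Pool.Agent.KT

/-- circle integrals depending on a parameter -/
private lemma ISOL_par {K : ℂ × ℂ → ℂ} {Ω : Set (ℂ × ℂ)} (hΩ : IsOpen Ω)
    (hK : DifferentiableOn ℂ K Ω) {a c : ℂ} {ρ r : ℝ} (hr : 0 ≤ r)
    (hsub : closedBall a ρ ×ˢ sphere c r ⊆ Ω) :
    DifferentiableOn ℂ (fun z => ∮ w in C(c, r), K (z, w)) (ball a ρ) := by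
  intro z₀ hz₀
  have hK' : DifferentiableOn ℂ (fun x => fderiv ℂ K x (1, 0)) Ω :=
    Squeeze.differentiableOn_fderiv_apply hK hΩ (1, 0)
  have hcomp : IsCompact (closedBall a ρ ×ˢ sphere c r) :=
    (isCompact_closedBall a ρ).prod (isCompact_sphere c r)
  obtain ⟨C, hC⟩ := hcomp.exists_bound_of_continuousOn (hK'.continuousOn.mono hsub)
  have hmem : ∀ z ∈ ball a ρ, ∀ θ : ℝ, (z, circleMap c r θ) ∈ closedBall a ρ ×ˢ sphere c r :=
    fun z hz θ => ⟨ball_subset_closedBall hz, circleMap_mem_sphere c hr θ⟩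
  have hcd : Continuous fun θ : ℝ => deriv (circleMap c r) θ := by
    simp only [deriv_circleMap]
    fun_prop
  have hcont : ∀ {L : ℂ × ℂ → ℂ}, ContinuousOn L Ω → ∀ z ∈ ball a ρ,
      Continuous fun θ : ℝ => deriv (circleMap c r) θ • L (z, circleMap c r θ) := by
    intro L hL z hz
    refine hcd.smul ?_
    rw [← continuousOn_univ]
    refine hL.comp (by fun_prop) fun θ _ => hsub (hmem z hz θ)
  have hd := (intervalIntegral.hasDerivAt_integral_of_dominated_loc_of_deriv_le (𝕜 := ℂ)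
    (F := fun z θ => deriv (circleMap c r) θ • K (z, circleMap c r θ))
    (F' := fun z θ => deriv (circleMap c r) θ • fderiv ℂ K (z, circleMap c r θ) (1, 0))
    (a := 0) (b := 2 * π) (μ := volume) (bound := fun _ => |r| * C) (x₀ := z₀)
    (s := ball a ρ) (isOpen_ball.mem_nhds hz₀) ?_ ?_ ?_ ?_ ?_ ?_).2
  · exact hd.differentiableAt.differentiableWithinAt
  · filter_upwards [isOpen_ball.mem_nhds hz₀] with z hz
    exact (hcont hK.continuousOn z hz).aestronglyMeasurable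
  · exact (hcont hK.continuousOn z₀ hz₀).intervalIntegrable _ _
  · exact (hcont hK'.continuousOn z₀ hz₀).aestronglyMeasurable
  · refine Eventually.of_forall fun θ _ z hz => ?_
    rw [norm_smul]
    refine mul_le_mul (le_of_eq ?_) (hC _ (hmem z hz θ)) (norm_nonneg _) (abs_nonneg _)
    rw [deriv_circleMap]
    simp
  · exact continuous_const.intervalIntegrable _ _
  · refine Eventually.of_forall fun θ _ z hz => ?_
    have h1 : HasFDerivAt K (fderiv ℂ K (z, circleMap c r θ)) (z, circleMap c r θ) :=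
      ((hK _ (hsub (hmem z hz θ))).differentiableAt
        (hΩ.mem_nhds (hsub (hmem z hz θ)))).hasFDerivAt
    have h2 : HasDerivAt (fun z : ℂ => (z, circleMap c r θ)) ((1 : ℂ), (0 : ℂ)) z :=
      (hasDerivAt_id z).prodMk (hasDerivAt_const z _)
    have h3 := h1.comp_hasDerivAt z h2
    exact h3.const_smul (deriv (circleMap c r) θ)

/-- removal of a zero -/
private lemma ISOL_fac {F : ℂ → ℂ} (hF : Differentiable ℂ F) {ζ : ℂ} (h0 : F ζ = 0)
    (hne : ∃ w, F w ≠ 0) :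
    ∃ (k : ℕ) (F₁ : ℂ → ℂ), Differentiable ℂ F₁ ∧ F₁ ζ ≠ 0 ∧
      ∀ w, F w = (w - ζ) ^ (k + 1) * F₁ w := by
  obtain ⟨q, hq⟩ := hF.analyticAt ζ
  have hq0 : q ≠ 0 := by
    intro h
    have h1 := hq.locally_zero_iff.2 h
    have h2 : AnalyticOnNhd ℂ F univ := fun z _ => hF.analyticAt z
    obtain ⟨w, hw⟩ := hne
    exact hw (h2.eqOn_zero_of_preconnected_of_eventuallyEq_zero isPreconnected_univ
      (mem_univ ζ) h1 (mem_univ w))
  have h1 := hq.iterate_dslope_fslope_ne_zero hq0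
  have h2 := fun w => hq.eq_pow_order_mul_iterate_dslope w
  have hd : ∀ n : ℕ, Differentiable ℂ ((Function.swap dslope ζ)^[n] F) := by
    intro n
    induction n with
    | zero => exact hF
    | succ n ih =>
      rw [Function.iterate_succ_apply']
      have h3 := (Complex.differentiableOn_dslope (f := (Function.swap dslope ζ)^[n] F)
        (s := univ) (c := ζ) univ_mem).2 ih.differentiableOn
      exact differentiableOn_univ.1 h3
  cases hn : q.order with
  | zero =>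
    exfalso
    rw [hn] at h1 h2
    have h3 := h2 ζ
    simp only [pow_zero, one_smul, Function.iterate_zero, id] at h1 h3
    exact h1 h0
  | succ k =>
    rw [hn] at h1 h2
    exact ⟨k, _, hd (k + 1), h1, fun w => by rw [h2 w, smul_eq_mul]⟩

/-- the zeros in a closed disc are finite in number -/
private lemma ISOL_fin {F : ℂ → ℂ} (hF : Differentiable ℂ F) (hne : ∃ w, F w ≠ 0) (c : ℂ) (r : ℝ) :
    {w | w ∈ closedBall c r ∧ F w = 0}.Finite := by
  by_contra hinf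
  obtain ⟨x, hx, hacc⟩ := Set.Infinite.exists_accPt_of_subset_isCompact hinf
    (isCompact_closedBall c r) (fun w hw => hw.1)
  rw [accPt_iff_frequently_nhdsNE] at hacc
  have h2 : AnalyticOnNhd ℂ F univ := fun z _ => hF.analyticAt z
  obtain ⟨w, hw⟩ := hne
  exact hw (h2.eqOn_zero_of_preconnected_of_frequently_eq_zero isPreconnected_univ
    (mem_univ x) (hacc.mono fun y hy => hy.2) (mem_univ w))

private lemma ISOL_arg_aux {c : ℂ} {r : ℝ} (hr : 0 < r) (Z₀ : Finset ℂ) :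
    ∀ F : ℂ → ℂ, Differentiable ℂ F → (∀ w ∈ sphere c r, F w ≠ 0) →
    (∀ w ∈ closedBall c r, F w = 0 → w ∈ Z₀) →
    ∃ (Z : Finset ℂ) (m : ℂ → ℕ), (∀ w ∈ Z, w ∈ ball c r ∧ F w = 0 ∧ 1 ≤ m w) ∧
      (∀ w ∈ closedBall c r, F w = 0 → w ∈ Z) ∧
      ∀ G : ℂ → ℂ, Differentiable ℂ G → (∮ w in C(c, r), G w * (deriv F w / F w)) =
        2 * π * Complex.I * ∑ ζ ∈ Z, (m ζ : ℂ) * G ζ := by
  classical
  induction Z₀ using Finset.induction_on with
  | empty =>
    intro F hF hs hz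
    refine ⟨∅, fun _ => 0, by simp, fun w hw h => by simpa using hz w hw h, fun G hG => ?_⟩
    rw [Finset.sum_empty, mul_zero]
    have hne : ∀ w ∈ closedBall c r, F w ≠ 0 := fun w hw h => by simpa using hz w hw h
    have hdF : Differentiable ℂ (deriv F) := by
      have := (hF.contDiff (n := 2))
      exact ((contDiff_succ_iff_deriv (n := 1)).1 this).2.2.differentiable (by simp)
    have hd : DifferentiableOn ℂ (fun w => G w * (deriv F w / F w)) (closedBall c r) :=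
      hG.differentiableOn.mul (hdF.differentiableOn.div hF.differentiableOn hne)
    exact (DiffContOnCl.circleIntegral_eq_zero hr.le
      (DifferentiableOn.diffContOnCl (by rwa [closure_ball c hr.ne'])))
  | insert ζ Z₀ hζ ih =>
    intro F hF hs hz
    by_cases h0 : ζ ∈ closedBall c r ∧ F ζ = 0
    · obtain ⟨hζb, hζ0⟩ := h0
      have hsne : (sphere c r).Nonempty := NormedSpace.sphere_nonempty.2 hr.le
      have hne : ∃ w, F w ≠ 0 := ⟨hsne.some, hs _ hsne.some_mem⟩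
      obtain ⟨k, F₁, hF₁, h1, hfac⟩ := ISOL_fac hF hζ0 hne
      have hζball : ζ ∈ ball c r := by
        rcases eq_or_lt_of_le (mem_closedBall.1 hζb) with h | h
        · exact absurd hζ0 (hs ζ (mem_sphere.2 h))
        · exact mem_ball.2 h
      have hs₁ : ∀ w ∈ sphere c r, F₁ w ≠ 0 := by
        intro w hw h
        exact hs w hw (by rw [hfac, h, mul_zero])
      have hz₁ : ∀ w ∈ closedBall c r, F₁ w = 0 → w ∈ Z₀ := by
        intro w hw h
        rcases Finset.mem_insert.1 (hz w hw (by rw [hfac, h, mul_zero])) with h2 | h2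
        · rw [h2] at h
          exact absurd h h1
        · exact h2
      obtain ⟨Z, m, hZ1, hZ2, hZ3⟩ := ih F₁ hF₁ hs₁ hz₁
      have hζZ : ζ ∉ Z := fun h => h1 (hZ1 ζ h).2.1
      refine ⟨insert ζ Z, Function.update m ζ (k + 1), ?_, ?_, ?_⟩
      · intro w hw
        rcases Finset.mem_insert.1 hw with h | h
        · rw [h, Function.update_self]
          exact ⟨hζball, hζ0, by omega⟩
        · have hne' : w ≠ ζ := fun h' => hζZ (h' ▸ h)
          rw [Function.update_of_ne hne']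
          obtain ⟨a1, a2, a3⟩ := hZ1 w h
          exact ⟨a1, by rw [hfac, a2, mul_zero], a3⟩
      · intro w hw h
        rw [hfac] at h
        rcases mul_eq_zero.1 h with h2 | h2
        · exact Finset.mem_insert.2 (Or.inl (sub_eq_zero.1 (pow_eq_zero_iff (by omega) |>.1 h2)))
        · exact Finset.mem_insert.2 (Or.inr (hZ2 w hw h2))
      · intro G hG
        have hdF : Differentiable ℂ (deriv F₁) := by
          have := (hF₁.contDiff (n := 2))
          exact ((contDiff_succ_iff_deriv (n := 1)).1 this).2.2.differentiable (by simp)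
        have e1 : (∮ w in C(c, r), G w * (deriv F w / F w)) =
            ∮ w in C(c, r), (((k + 1 : ℕ) : ℂ) * ((w - ζ)⁻¹ • G w) + G w * (deriv F₁ w / F₁ w)) := by
          refine circleIntegral.integral_congr hr.le fun w hw => ?_
          have hwζ : w - ζ ≠ 0 := by
            intro h
            rw [sub_eq_zero] at h
            rw [h] at hw
            exact hs ζ hw hζ0
          have hFw : F = fun w => (w - ζ) ^ (k + 1) * F₁ w := funext hfac
          have hder : deriv F w = ((k + 1 : ℕ) : ℂ) * (w - ζ) ^ k * F₁ w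
              + (w - ζ) ^ (k + 1) * deriv F₁ w := by
            have h3 : HasDerivAt (fun w => (w - ζ) ^ (k + 1) * F₁ w)
                ((((k + 1 : ℕ) : ℂ) * (w - ζ) ^ k * 1) * F₁ w
                  + (w - ζ) ^ (k + 1) * deriv F₁ w) w := by
              have h4 : HasDerivAt (fun w => (w - ζ) ^ (k + 1))
                  (((k + 1 : ℕ) : ℂ) * (w - ζ) ^ k * 1) w :=
                ((hasDerivAt_id w).sub_const ζ).fun_pow (k + 1)
              exact h4.mul (hF₁ w).hasDerivAt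
            rw [hFw, h3.deriv, mul_one]
          have hF₁w := hs₁ w hw
          rw [hder, hfac, smul_eq_mul]
          field_simp
          ring
        have hcs : ∀ {L : ℂ → ℂ}, ContinuousOn L (sphere c r) → CircleIntegrable L c r :=
          fun hL => hL.circleIntegrable hr.le
        have i1 : CircleIntegrable (fun w => ((k + 1 : ℕ) : ℂ) * ((w - ζ)⁻¹ • G w)) c r := by
          have hc1 : ContinuousOn (fun w : ℂ => w - ζ) (sphere c r) := by fun_prop
          refine hcs (continuousOn_const.mul (ContinuousOn.smul (hc1.inv₀ ?_)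
            hG.continuous.continuousOn))
          intro w hw h
          rw [sub_eq_zero] at h
          rw [h] at hw
          exact hs ζ hw hζ0
        have i2 : CircleIntegrable (fun w => G w * (deriv F₁ w / F₁ w)) c r := by
          refine hcs (hG.continuous.continuousOn.mul (ContinuousOn.div hdF.continuous.continuousOn
            hF₁.continuous.continuousOn hs₁))
        rw [e1, circleIntegral.integral_add i1 i2, hZ3 G hG]
        have e2 : (∮ w in C(c, r), ((k + 1 : ℕ) : ℂ) * ((w - ζ)⁻¹ • G w)) =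
            ((k + 1 : ℕ) : ℂ) * (2 * π * Complex.I * G ζ) := by
          have h5 := (hG.diffContOnCl (s := ball c r)).circleIntegral_sub_inv_smul hζball
          rw [← smul_eq_mul (2 * π * Complex.I : ℂ), ← h5,
            ← circleIntegral.integral_const_mul]
        rw [e2, Finset.sum_insert hζZ, Function.update_self]
        have e3 : ∑ x ∈ Z, ((Function.update m ζ (k + 1) x : ℕ) : ℂ) * G x
            = ∑ x ∈ Z, ((m x : ℕ) : ℂ) * G x := by
          refine Finset.sum_congr rfl fun x hx => ?_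
          rw [Function.update_of_ne (fun h' : x = ζ => hζZ (h' ▸ hx))]
        rw [e3]
        ring
    · refine ih F hF hs fun w hw h => ?_
      rcases Finset.mem_insert.1 (hz w hw h) with h2 | h2
      · exact absurd ⟨h2 ▸ hw, h2 ▸ h⟩ h0
      · exact h2

/-- the argument principle with weights -/
private lemma ISOL_arg {c : ℂ} {r : ℝ} (hr : 0 < r) {F : ℂ → ℂ} (hF : Differentiable ℂ F)
    (hs : ∀ w ∈ sphere c r, F w ≠ 0) :
    ∃ (Z : Finset ℂ) (m : ℂ → ℕ), (∀ w ∈ Z, w ∈ ball c r ∧ F w = 0 ∧ 1 ≤ m w) ∧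
      (∀ w ∈ closedBall c r, F w = 0 → w ∈ Z) ∧
      ∀ G : ℂ → ℂ, Differentiable ℂ G → (∮ w in C(c, r), G w * (deriv F w / F w)) =
        2 * π * Complex.I * ∑ ζ ∈ Z, (m ζ : ℂ) * G ζ := by
  have hsne : (sphere c r).Nonempty := NormedSpace.sphere_nonempty.2 hr.le
  have hfin := ISOL_fin hF ⟨hsne.some, hs _ hsne.some_mem⟩ c r
  refine ISOL_arg_aux hr hfin.toFinset F hF hs fun w hw h => ?_
  rw [Set.Finite.mem_toFinset]
  exact ⟨hw, h⟩

/-- the moment matrix -/
private noncomputable def ISOL_H (Z : Finset ℂ) (μ g : ℂ → ℂ) (d : ℕ) : Matrix (Fin d) (Fin d) ℂ :=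
  Matrix.of fun a b => ∑ ζ ∈ Z, μ ζ * (g ζ * ζ ^ ((a : ℕ) + (b : ℕ)))

/-- the polynomial with given coefficients -/
private noncomputable def ISOL_q {d : ℕ} (v : Fin d → ℂ) : Polynomial ℂ :=
  ∑ b : Fin d, Polynomial.C (v b) * Polynomial.X ^ (b : ℕ)

private lemma ISOL_q_eval {d : ℕ} (v : Fin d → ℂ) (ζ : ℂ) :
    (ISOL_q v).eval ζ = ∑ b : Fin d, v b * ζ ^ (b : ℕ) := by
  simp [ISOL_q, Polynomial.eval_finsetSum]

private lemma ISOL_q_coeff {d : ℕ} (v : Fin d → ℂ) (b : Fin d) : (ISOL_q v).coeff b = v b := by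
  classical
  simp only [ISOL_q, Polynomial.finsetSum_coeff, Polynomial.coeff_C_mul, Polynomial.coeff_X_pow]
  rw [Finset.sum_eq_single b]
  · simp
  · intro a _ ha
    rw [if_neg (fun h => ha (Fin.ext h.symm)), mul_zero]
  · simp

private lemma ISOL_q_deg {d : ℕ} (v : Fin d → ℂ) (hd : 0 < d) : (ISOL_q v).natDegree < d := by
  refine lt_of_le_of_lt (Polynomial.natDegree_sum_le_of_forall_le (n := d - 1) _ _ ?_) (by omega)
  intro b _
  refine (Polynomial.natDegree_C_mul_X_pow_le _ _).trans ?_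
  have := b.2
  omega

/-- every polynomial of small degree arises -/
private lemma ISOL_q_surj {d : ℕ} {p : Polynomial ℂ} (hp : p.natDegree < d) (ζ : ℂ) :
    p.eval ζ = ∑ b : Fin d, p.coeff b * ζ ^ (b : ℕ) := by
  rw [Polynomial.eval_eq_sum_range' hp, Finset.sum_range]

private lemma ISOL_mulVec {Z : Finset ℂ} {μ g : ℂ → ℂ} {d : ℕ} (v : Fin d → ℂ) (a : Fin d) :
    (ISOL_H Z μ g d).mulVec v a = ∑ ζ ∈ Z, (μ ζ * (g ζ * (ISOL_q v).eval ζ)) * ζ ^ (a : ℕ) := by
  simp only [Matrix.mulVec, dotProduct, ISOL_H, Matrix.of_apply, ISOL_q_eval, Finset.sum_mul,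
    Finset.mul_sum]
  rw [Finset.sum_comm]
  refine Finset.sum_congr rfl fun ζ _ => Finset.sum_congr rfl fun b _ => ?_
  rw [pow_add]
  ring

/-- the product over the other nodes -/
private noncomputable def ISOL_p (Z : Finset ℂ) (ζ₀ : ℂ) : Polynomial ℂ :=
  ∏ ζ ∈ Z.erase ζ₀, (Polynomial.X - Polynomial.C ζ)

private lemma ISOL_p_deg {Z : Finset ℂ} {ζ₀ : ℂ} (h : ζ₀ ∈ Z) {d : ℕ} (hd : Z.card ≤ d) :
    (ISOL_p Z ζ₀).natDegree < d := by
  rw [ISOL_p, Polynomial.natDegree_prod_of_monic _ _ (fun ζ _ => Polynomial.monic_X_sub_C ζ)]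
  simp only [Polynomial.natDegree_X_sub_C, Finset.sum_const, smul_eq_mul, mul_one]
  rw [Finset.card_erase_of_mem h]
  have := Finset.card_pos.2 ⟨ζ₀, h⟩
  omega

private lemma ISOL_p_self {Z : Finset ℂ} {ζ₀ : ℂ} : (ISOL_p Z ζ₀).eval ζ₀ ≠ 0 := by
  rw [ISOL_p, Polynomial.eval_prod, Finset.prod_ne_zero_iff]
  intro ζ hζ
  simp only [Polynomial.eval_sub, Polynomial.eval_X, Polynomial.eval_C]
  exact sub_ne_zero.2 (Finset.ne_of_mem_erase hζ).symm

private lemma ISOL_p_other {Z : Finset ℂ} {ζ₀ ζ : ℂ} (h : ζ ∈ Z) (hne : ζ ≠ ζ₀) :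
    (ISOL_p Z ζ₀).eval ζ = 0 := by
  rw [ISOL_p, Polynomial.eval_prod]
  exact Finset.prod_eq_zero (Finset.mem_erase.2 ⟨hne, h⟩) (by simp)

/-- Vandermonde -/
private lemma ISOL_vdm {Z : Finset ℂ} {d : ℕ} (hd : Z.card ≤ d) {x : ℂ → ℂ}
    (hx : ∀ a : Fin d, ∑ ζ ∈ Z, x ζ * ζ ^ (a : ℕ) = 0) : ∀ ζ ∈ Z, x ζ = 0 := by
  intro ζ₀ hζ₀
  have h1 : ∑ ζ ∈ Z, x ζ * (ISOL_p Z ζ₀).eval ζ = 0 := by
    have h2 : ∀ ζ ∈ Z, x ζ * (ISOL_p Z ζ₀).eval ζ =
        ∑ a : Fin d, (ISOL_p Z ζ₀).coeff a * (x ζ * ζ ^ (a : ℕ)) := by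
      intro ζ _
      rw [ISOL_q_surj (ISOL_p_deg hζ₀ hd) ζ, Finset.mul_sum]
      refine Finset.sum_congr rfl fun a _ => ?_
      ring
    rw [Finset.sum_congr rfl h2, Finset.sum_comm]
    refine Finset.sum_eq_zero fun a _ => ?_
    rw [← Finset.mul_sum, hx a, mul_zero]
  rw [Finset.sum_eq_single ζ₀ (fun ζ hζ hne => by rw [ISOL_p_other hζ hne, mul_zero])
    (fun h => absurd hζ₀ h)] at h1
  exact (mul_eq_zero.1 h1).resolve_right ISOL_p_self

private lemma ISOL_linA {Z : Finset ℂ} {μ g : ℂ → ℂ} {d : ℕ} (hd : Z.card ≤ d)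
    (hμ : ∀ ζ ∈ Z, μ ζ ≠ 0) (h1 : (ISOL_H Z μ (fun _ => 1) d).det ≠ 0)
    (hg : (ISOL_H Z μ g d).det = 0) : ∃ ζ ∈ Z, g ζ = 0 := by
  by_contra hcon
  push Not at hcon
  obtain ⟨v, hv0, hv⟩ := Matrix.exists_mulVec_eq_zero_iff.2 hg
  have h2 : ∀ ζ ∈ Z, μ ζ * (g ζ * (ISOL_q v).eval ζ) = 0 := by
    refine ISOL_vdm hd fun a => ?_
    rw [← ISOL_mulVec, hv, Pi.zero_apply]
  have h3 : ∀ ζ ∈ Z, (ISOL_q v).eval ζ = 0 := fun ζ hζ =>
    (mul_eq_zero.1 ((mul_eq_zero.1 (h2 ζ hζ)).resolve_left (hμ ζ hζ))).resolve_left (hcon ζ hζ)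
  apply h1
  refine Matrix.exists_mulVec_eq_zero_iff.1 ⟨v, hv0, ?_⟩
  funext a
  rw [ISOL_mulVec, Pi.zero_apply]
  exact Finset.sum_eq_zero fun ζ hζ => by rw [h3 ζ hζ]; ring

private lemma ISOL_linB {Z : Finset ℂ} {μ g : ℂ → ℂ} {d : ℕ} (hd : Z.card ≤ d) {ζ₀ : ℂ}
    (hζ₀ : ζ₀ ∈ Z) (h0 : g ζ₀ = 0) : (ISOL_H Z μ g d).det = 0 := by
  have hq : ∀ ζ, (ISOL_q (fun b : Fin d => (ISOL_p Z ζ₀).coeff b)).eval ζ =
      (ISOL_p Z ζ₀).eval ζ := by
    intro ζ
    rw [ISOL_q_eval, ← ISOL_q_surj (ISOL_p_deg hζ₀ hd)]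
  refine Matrix.exists_mulVec_eq_zero_iff.1 ⟨fun b => (ISOL_p Z ζ₀).coeff b, ?_, ?_⟩
  · intro h
    have h1 := hq ζ₀
    rw [h, ISOL_q_eval] at h1
    simp only [Pi.zero_apply, zero_mul, Finset.sum_const_zero] at h1
    exact ISOL_p_self h1.symm
  · funext a
    rw [ISOL_mulVec, Pi.zero_apply]
    refine Finset.sum_eq_zero fun ζ hζ => ?_
    rcases eq_or_ne ζ ζ₀ with h | h
    · rw [h, h0]; ring
    · rw [hq, ISOL_p_other hζ h]; ring

private lemma ISOL_linC {Z : Finset ℂ} {μ : ℂ → ℂ} (hμ : ∀ ζ ∈ Z, μ ζ ≠ 0) :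
    (ISOL_H Z μ (fun _ => 1) Z.card).det ≠ 0 := by
  intro h
  obtain ⟨v, hv0, hv⟩ := Matrix.exists_mulVec_eq_zero_iff.2 h
  have h2 : ∀ ζ ∈ Z, μ ζ * (1 * (ISOL_q v).eval ζ) = 0 := by
    refine ISOL_vdm le_rfl fun a => ?_
    have := ISOL_mulVec (Z := Z) (μ := μ) (g := fun _ => 1) v a
    rw [hv, Pi.zero_apply] at this
    exact this.symm
  have h3 : ∀ ζ ∈ Z, (ISOL_q v).eval ζ = 0 := fun ζ hζ => by
    have := (mul_eq_zero.1 (h2 ζ hζ)).resolve_left (hμ ζ hζ)
    rwa [one_mul] at this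
  have hpos : 0 < Z.card := by
    rcases Nat.eq_zero_or_pos Z.card with h0 | h0
    · exfalso
      apply hv0
      funext b
      have := b.2
      omega
    · exact h0
  have h4 : ISOL_q v = 0 := by
    by_contra hne
    have h5 : Z ⊆ (ISOL_q v).roots.toFinset := by
      intro ζ hζ
      rw [Multiset.mem_toFinset, Polynomial.mem_roots hne]
      exact h3 ζ hζ
    have h6 := (Finset.card_le_card h5).trans ((Multiset.toFinset_card_le _).trans
      (Polynomial.card_roots' _))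
    exact absurd (ISOL_q_deg v hpos) (not_lt.2 h6)
  apply hv0
  funext b
  rw [Pi.zero_apply, ← ISOL_q_coeff v b, h4, Polynomial.coeff_zero]

/-- the moments along the circle -/
private noncomputable def ISOL_J (F : ℂ × ℂ → ℂ) (c : ℂ) (r : ℝ) (g : ℂ × ℂ → ℂ) (z : ℂ) : ℂ :=
  ∮ w in C(c, r), g (z, w) * (fderiv ℂ F (z, w) (0, 1) / F (z, w))

private lemma ISOL_J_diff {F g : ℂ × ℂ → ℂ} (hF : Differentiable ℂ F) (hg : Differentiable ℂ g)
    {a c : ℂ} {ρ r : ℝ} (hr : 0 ≤ r) (hne : ∀ z ∈ closedBall a ρ, ∀ w ∈ sphere c r, F (z, w) ≠ 0) :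
    DifferentiableOn ℂ (ISOL_J F c r g) (ball a ρ) := by
  have hΩ : IsOpen {x : ℂ × ℂ | F x ≠ 0} := isOpen_ne_fun hF.continuous continuous_const
  refine ISOL_par (K := fun x => g x * (fderiv ℂ F x (0, 1) / F x)) hΩ ?_ hr ?_
  · have h1 : DifferentiableOn ℂ (fun x => fderiv ℂ F x (0, 1)) {x : ℂ × ℂ | F x ≠ 0} :=
      Squeeze.differentiableOn_fderiv_apply hF.differentiableOn hΩ (0, 1)
    intro x hx
    have h2 : DifferentiableAt ℂ (fun y => (F y)⁻¹) x :=
      (differentiableAt_inv hx).comp x (hF x)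
    simp only [div_eq_mul_inv]
    exact (hg x).differentiableWithinAt.fun_mul ((h1 x hx).fun_mul h2.differentiableWithinAt)
  · rintro ⟨z, w⟩ ⟨hz, hw⟩
    exact hne z hz w hw

private lemma ISOL_slice {F : ℂ × ℂ → ℂ} (hF : Differentiable ℂ F) (z : ℂ) :
    Differentiable ℂ fun w => F (z, w) := by
  intro w
  exact DifferentiableAt.comp w (hF (z, w)) (by fun_prop)

private lemma ISOL_slice_deriv {F : ℂ × ℂ → ℂ} (hF : Differentiable ℂ F) (z w : ℂ) :
    deriv (fun w => F (z, w)) w = fderiv ℂ F (z, w) (0, 1) := by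
  have h1 : HasDerivAt (fun w : ℂ => (z, w)) ((0 : ℂ), (1 : ℂ)) w :=
    (hasDerivAt_const w z).prodMk (hasDerivAt_id w)
  exact ((hF (z, w)).hasFDerivAt.comp_hasDerivAt w h1).deriv

/-- the zeros over a point -/
private structure ISOL_Z (F : ℂ × ℂ → ℂ) (c : ℂ) (r : ℝ) (z : ℂ) where
  /-- the zeros -/
  Z : Finset ℂ
  /-- the multiplicities -/
  m : ℂ → ℕ
  h1 : ∀ w ∈ Z, w ∈ ball c r ∧ F (z, w) = 0 ∧ 1 ≤ m w
  h2 : ∀ w ∈ closedBall c r, F (z, w) = 0 → w ∈ Z
  h3 : ∀ g : ℂ × ℂ → ℂ, Differentiable ℂ g → ISOL_J F c r g z =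
    2 * π * Complex.I * ∑ ζ ∈ Z, (m ζ : ℂ) * g (z, ζ)

private lemma ISOL_exZ {F : ℂ × ℂ → ℂ} (hF : Differentiable ℂ F) {c : ℂ} {r : ℝ} (hr : 0 < r) {z : ℂ}
    (hs : ∀ w ∈ sphere c r, F (z, w) ≠ 0) : Nonempty (ISOL_Z F c r z) := by
  obtain ⟨Z, m, a1, a2, a3⟩ := ISOL_arg hr (ISOL_slice hF z) hs
  refine ⟨⟨Z, m, a1, a2, fun g hg => ?_⟩⟩
  rw [← a3 (fun w => g (z, w)) (ISOL_slice hg z), ISOL_J]
  simp only [ISOL_slice_deriv hF]

/-- the determinant of the moments -/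
private noncomputable def ISOL_D (F : ℂ × ℂ → ℂ) (c : ℂ) (r : ℝ) (d : ℕ) (g : ℂ × ℂ → ℂ) (z : ℂ) : ℂ :=
  (Matrix.of fun a b : Fin d => ISOL_J F c r (fun x => g x * x.2 ^ ((a : ℕ) + (b : ℕ))) z).det

private lemma ISOL_D_diff {F g : ℂ × ℂ → ℂ} (hF : Differentiable ℂ F) (hg : Differentiable ℂ g)
    {a c : ℂ} {ρ r : ℝ} (hr : 0 ≤ r) (hne : ∀ z ∈ closedBall a ρ, ∀ w ∈ sphere c r, F (z, w) ≠ 0)
    (d : ℕ) : DifferentiableOn ℂ (ISOL_D F c r d g) (ball a ρ) := by
  unfold ISOL_D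
  simp only [Matrix.det_apply]
  refine DifferentiableOn.fun_sum fun σ _ => ?_
  refine DifferentiableOn.const_smul ?_ _
  refine DifferentiableOn.fun_finsetProd fun i _ => ?_
  simp only [Matrix.of_apply]
  exact ISOL_J_diff hF (by fun_prop) hr hne

private lemma ISOL_D_eq {F g : ℂ × ℂ → ℂ} (hg : Differentiable ℂ g) {c : ℂ} {r : ℝ} {z : ℂ}
    (S : ISOL_Z F c r z) (d : ℕ) :
    ISOL_D F c r d g z =
      (ISOL_H S.Z (fun ζ => 2 * π * Complex.I * (S.m ζ : ℂ)) (fun ζ => g (z, ζ)) d).det := by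
  unfold ISOL_D ISOL_H
  congr 1
  ext a b
  simp only [Matrix.of_apply]
  rw [S.h3 _ (by fun_prop), Finset.mul_sum]
  refine Finset.sum_congr rfl fun ζ _ => ?_
  ring

private lemma ISOL_mu {F : ℂ × ℂ → ℂ} {c : ℂ} {r : ℝ} {z : ℂ} (S : ISOL_Z F c r z) :
    ∀ ζ ∈ S.Z, (2 * π * Complex.I * (S.m ζ : ℂ)) ≠ 0 := by
  intro ζ hζ
  refine mul_ne_zero Complex.two_pi_I_ne_zero ?_
  have := (S.h1 ζ hζ).2.2
  exact Nat.cast_ne_zero.2 (by omega)

private lemma ISOL_card {F : ℂ × ℂ → ℂ} {c : ℂ} {r : ℝ} {z : ℂ} (S : ISOL_Z F c r z) :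
    (S.Z.card : ℝ) ≤ ‖ISOL_J F c r (fun _ => 1) z‖ := by
  have h1 : ((∑ ζ ∈ S.Z, S.m ζ : ℕ) : ℂ) = ∑ ζ ∈ S.Z, (S.m ζ : ℂ) * 1 := by
    push_cast
    simp
  rw [S.h3 _ (by fun_prop), ← h1, norm_mul, Complex.norm_natCast]
  have h2 : S.Z.card ≤ ∑ ζ ∈ S.Z, S.m ζ := by
    have := Finset.card_nsmul_le_sum S.Z S.m 1 (fun ζ hζ => (S.h1 ζ hζ).2.2)
    simpa using this
  have h3 : (S.Z.card : ℝ) ≤ ((∑ ζ ∈ S.Z, S.m ζ : ℕ) : ℝ) := by exact_mod_cast h2
  have h4 : (1 : ℝ) ≤ ‖(2 * π * Complex.I : ℂ)‖ := by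
    have := Real.pi_gt_three
    simp only [norm_mul, Complex.norm_I, Complex.norm_real, Real.norm_eq_abs, mul_one]
    rw [abs_of_pos Real.pi_pos]
    have h5 : ‖(2 : ℂ)‖ = 2 := by simp
    rw [h5]
    linarith
  have h6 : (0 : ℝ) ≤ ((∑ ζ ∈ S.Z, S.m ζ : ℕ) : ℝ) := by positivity
  nlinarith

/-- the core: everything over a disc -/
private lemma ISOL_core {ι : Type} [Fintype ι] (f : ι → ℂ × ℂ → ℂ)
    (hf : ∀ j, Differentiable ℂ (f j)) {F : ℂ × ℂ → ℂ} {j₀ : ι} (hF0 : f j₀ = F)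
    {a c : ℂ} {ρ r : ℝ} (hρ : 0 < ρ) (hr : 0 < r)
    (hne : ∀ z ∈ closedBall a ρ, ∀ w ∈ sphere c r, F (z, w) ≠ 0)
    (hfr : ∃ᶠ z in 𝓝[≠] a, ∃ w ∈ ball c r, ∀ j, f j (z, w) = 0) :
    ∀ z ∈ ball a (ρ / 2), ∃ w ∈ closedBall c r, ∀ j, f j (z, w) = 0 := by
  classical
  have hF : Differentiable ℂ F := hF0 ▸ hf j₀
  have hex : ∀ z ∈ closedBall a ρ, Nonempty (ISOL_Z F c r z) := fun z hz => ISOL_exZ hF hr (hne z hz)
  have hsub : ball a (ρ / 2) ⊆ closedBall a ρ :=
    ball_subset_closedBall.trans (closedBall_subset_closedBall (by linarith))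
  have hne' : ∀ z ∈ closedBall a (ρ / 2), ∀ w ∈ sphere c r, F (z, w) ≠ 0 := fun z hz =>
    hne z (closedBall_subset_closedBall (by linarith) hz)
  -- the bound for the number of zeros
  obtain ⟨B, hB⟩ : ∃ B : ℝ, ∀ z ∈ ball a (ρ / 2), ‖ISOL_J F c r (fun _ => 1) z‖ ≤ B := by
    have h1 := (ISOL_J_diff (g := fun _ => 1) hF (by fun_prop) hr.le hne).continuousOn.mono
      (closedBall_subset_ball (show ρ / 2 < ρ by linarith))
    obtain ⟨B, hB⟩ := (isCompact_closedBall a (ρ / 2)).exists_bound_of_continuousOn h1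
    exact ⟨B, fun z hz => hB z (ball_subset_closedBall hz)⟩
  -- the maximal number of zeros
  obtain ⟨d, ⟨zs, hzs, Ss, hSs⟩, hmax⟩ : ∃ d : ℕ,
      (∃ z ∈ ball a (ρ / 2), ∃ S : ISOL_Z F c r z, S.Z.card = d) ∧
      ∀ z ∈ ball a (ρ / 2), ∀ S : ISOL_Z F c r z, S.Z.card ≤ d := by
    set T : Set ℕ := {n | ∃ z ∈ ball a (ρ / 2), ∃ S : ISOL_Z F c r z, S.Z.card = n} with hT
    have hTne : T.Nonempty := by
      have ha : a ∈ ball a (ρ / 2) := mem_ball_self (by linarith)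
      exact ⟨_, a, ha, (hex a (hsub ha)).some, rfl⟩
    have hTb : BddAbove T := by
      refine ⟨⌈B⌉₊, ?_⟩
      rintro n ⟨z, hz, S, rfl⟩
      have h1 := (ISOL_card S).trans (hB z hz)
      exact_mod_cast h1.trans (Nat.le_ceil B)
    refine ⟨sSup T, Nat.sSup_mem hTne hTb, fun z hz S => le_csSup hTb ⟨z, hz, S, rfl⟩⟩
  have hpre : IsPreconnected (ball a (ρ / 2)) := (convex_ball a (ρ / 2)).isPreconnected
  have han : ∀ g : ℂ × ℂ → ℂ, Differentiable ℂ g →
      AnalyticOnNhd ℂ (ISOL_D F c r d g) (ball a (ρ / 2)) := fun g hg =>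
    (ISOL_D_diff hF hg hr.le hne' d).analyticOnNhd isOpen_ball
  -- the combinations vanish
  have hvan : ∀ y : ι → ℂ, ∀ z ∈ ball a (ρ / 2), ISOL_D F c r d (fun x => ∑ j, y j * f j x) z = 0 := by
    intro y z hz
    have hg : Differentiable ℂ (fun x => ∑ j, y j * f j x) := by
      refine Differentiable.fun_sum fun j _ => (hf j).const_mul (y j)
    refine (han _ hg).eqOn_zero_of_preconnected_of_frequently_eq_zero hpre
      (mem_ball_self (by linarith)) ?_ hz
    have hev : ∀ᶠ z in 𝓝[≠] a, z ∈ ball a (ρ / 2) :=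
      mem_nhdsWithin_of_mem_nhds (ball_mem_nhds a (by linarith))
    refine (hfr.and_eventually hev).mono ?_
    rintro z ⟨⟨w, hw, hw0⟩, hz⟩
    obtain ⟨S⟩ := hex z (hsub hz)
    rw [ISOL_D_eq hg S]
    refine ISOL_linB (hmax z hz S) (S.h2 w (ball_subset_closedBall hw) ?_) ?_
    · rw [← hF0]
      exact hw0 j₀
    · exact Finset.sum_eq_zero fun j _ => by rw [hw0 j, mul_zero]
  -- common zeros where the number is maximal
  have hcom : ∀ z ∈ ball a (ρ / 2), ISOL_D F c r d (fun _ => 1) z ≠ 0 →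
      ∃ w ∈ closedBall c r, ∀ j, f j (z, w) = 0 := by
    intro z hz hD
    obtain ⟨S⟩ := hex z (hsub hz)
    rw [ISOL_D_eq (by fun_prop) S] at hD
    let e := Fintype.equivFin ι
    let P : ℂ → Polynomial ℂ := fun ζ =>
      ∑ j, Polynomial.C (f j (z, ζ)) * Polynomial.X ^ (e j : ℕ)
    have hP : ∏ ζ ∈ S.Z, P ζ = 0 := by
      refine Polynomial.funext fun t => ?_
      rw [Polynomial.eval_prod, Polynomial.eval_zero]
      have hg : Differentiable ℂ (fun x => ∑ j, t ^ (e j : ℕ) * f j x) := by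
        refine Differentiable.fun_sum fun j _ => (hf j).const_mul _
      have h1 := hvan (fun j => t ^ (e j : ℕ)) z hz
      rw [ISOL_D_eq hg S] at h1
      obtain ⟨ζ, hζ, h0⟩ := ISOL_linA (hmax z hz S) (ISOL_mu S) hD h1
      refine Finset.prod_eq_zero hζ ?_
      simp only [P, Polynomial.eval_finsetSum, Polynomial.eval_mul, Polynomial.eval_C,
        Polynomial.eval_pow, Polynomial.eval_X]
      rw [← h0]
      exact Finset.sum_congr rfl fun j _ => mul_comm _ _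
    obtain ⟨ζ, hζ, hPζ⟩ := Finset.prod_eq_zero_iff.1 hP
    refine ⟨ζ, ball_subset_closedBall (S.h1 ζ hζ).1, fun j => ?_⟩
    have h2 : (P ζ).coeff (e j : ℕ) = f j (z, ζ) := by
      simp only [P, Polynomial.finsetSum_coeff, Polynomial.coeff_C_mul, Polynomial.coeff_X_pow]
      rw [Finset.sum_eq_single j]
      · simp
      · intro i _ hi
        rw [if_neg (fun h => hi (e.injective (Fin.ext h.symm))), mul_zero]
      · simp
    rw [← h2, hPζ, Polynomial.coeff_zero]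
  -- the set is closed
  have hcl : IsClosed {z : ℂ | ∃ w ∈ closedBall c r, ∀ j, f j (z, w) = 0} := by
    rw [← isSeqClosed_iff_isClosed]
    intro u x hu hux
    choose w hw hw0 using hu
    obtain ⟨w', hw', φ, hφ, hφw⟩ := (isCompact_closedBall c r).tendsto_subseq hw
    refine ⟨w', hw', fun j => ?_⟩
    have h1 : Tendsto (fun n => f j (u (φ n), w (φ n))) atTop (𝓝 (f j (x, w'))) := by
      have h2 := (hux.comp hφ.tendsto_atTop).prodMk_nhds hφw
      exact ((hf j).continuous.tendsto (x, w')).comp h2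
    have h3 : (fun n => f j (u (φ n), w (φ n))) = fun _ => 0 := funext fun n => hw0 (φ n) j
    rw [h3] at h1
    exact (tendsto_nhds_unique tendsto_const_nhds h1).symm
  -- density
  intro z hz
  have hfreq : ∃ᶠ x in 𝓝 z, ISOL_D F c r d (fun _ => 1) x ≠ 0 := by
    intro hcon
    simp only [not_not] at hcon
    have h1 := (han _ (by fun_prop)).eqOn_zero_of_preconnected_of_eventuallyEq_zero hpre hz hcon hzs
    rw [Pi.zero_apply, ISOL_D_eq (by fun_prop) Ss, ← hSs] at h1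
    exact ISOL_linC (ISOL_mu Ss) h1
  have hmem : ∃ᶠ x in 𝓝 z, x ∈ {z : ℂ | ∃ w ∈ closedBall c r, ∀ j, f j (z, w) = 0} := by
    refine (hfreq.and_eventually (isOpen_ball.mem_nhds hz)).mono ?_
    rintro x ⟨hx1, hx2⟩
    exact hcom x hx2 hx1
  exact hcl.closure_subset (mem_closure_iff_frequently.2 hmem)

theorem thm_ISOL : St_ISOL := by
  intro ι _ f hf p hfr hex ε hε
  obtain ⟨j₀, w₀, hw₀⟩ := hex
  have hs := ISOL_slice (hf j₀) p.1
  have han : AnalyticOnNhd ℂ (fun w => f j₀ (p.1, w)) univ := fun z _ => hs.analyticAt z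
  -- isolated zeros on the vertical line
  have h1 : ∀ᶠ w in 𝓝[≠] p.2, f j₀ (p.1, w) ≠ 0 := by
    by_contra hcon
    have h2 : ∃ᶠ w in 𝓝[≠] p.2, f j₀ (p.1, w) = 0 :=
      (Filter.not_eventually.1 hcon).mono fun w hw => not_not.1 hw
    exact hw₀ (han.eqOn_zero_of_preconnected_of_frequently_eq_zero isPreconnected_univ
      (mem_univ p.2) h2 (mem_univ w₀))
  rw [eventually_nhdsWithin_iff, Metric.eventually_nhds_iff] at h1
  obtain ⟨δ, hδ, h1⟩ := h1
  set r := min δ ε / 2 with hrdef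
  have hr : 0 < r := by have := lt_min hδ hε; positivity
  have hrδ : r < δ := by have := min_le_left δ ε; linarith
  have hrε : r < ε := by have := min_le_right δ ε; linarith
  have h2 : ∀ w, w ≠ p.2 → dist w p.2 ≤ r → f j₀ (p.1, w) ≠ 0 := fun w hw hd =>
    h1 (lt_of_le_of_lt hd hrδ) hw
  -- the circle
  have h3 : ∀ᶠ z in 𝓝 p.1, ∀ w ∈ sphere p.2 r, f j₀ (z, w) ≠ 0 := by
    refine (isCompact_sphere p.2 r).eventually_forall_of_forall_eventually fun w hw => ?_
    have hw0 : f j₀ (p.1, w) ≠ 0 := by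
      refine h2 w ?_ (mem_sphere.1 hw).le
      intro h
      rw [h, mem_sphere, dist_self] at hw
      exact hr.ne hw
    exact (hf j₀).continuous.continuousAt.eventually_ne hw0
  obtain ⟨ρ, hρ, h4⟩ := Metric.nhds_basis_closedBall.mem_iff.1 h3
  -- the projections of the common zeros
  have h5 : ∃ᶠ z in 𝓝[≠] p.1, ∃ w ∈ ball p.2 r, ∀ j, f j (z, w) = 0 := by
    intro hcon
    rw [eventually_nhdsWithin_iff] at hcon
    have h6 : ∀ᶠ z in 𝓝 p, z.1 ∈ ({p.1} : Set ℂ)ᶜ → ¬ ∃ w ∈ ball p.2 r, ∀ j, f j (z.1, w) = 0 :=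
      continuous_fst.continuousAt.eventually hcon
    have h7 : ∀ᶠ z in 𝓝 p, z.2 ∈ ball p.2 r :=
      continuous_snd.continuousAt.eventually (ball_mem_nhds p.2 hr)
    have h8 : ∀ᶠ z in 𝓝[≠] p, z ≠ p := eventually_mem_nhdsWithin
    obtain ⟨z, hz, ⟨h9, h10⟩, h11⟩ := (hfr.and_eventually
      (((h6.and h7).filter_mono nhdsWithin_le_nhds).and h8)).exists
    have h12 : z.1 = p.1 := by
      by_contra hne
      exact h9 hne ⟨z.2, h10, hz⟩
    have h13 : z.2 ≠ p.2 := fun h => h11 (Prod.ext h12 h)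
    refine h2 z.2 h13 (mem_ball.1 h10).le ?_
    rw [← h12]
    exact hz j₀
  have h6 := ISOL_core f hf (j₀ := j₀) rfl hρ hr (fun z hz => h4 hz) h5
  filter_upwards [ball_mem_nhds p.1 (show 0 < ρ / 2 by positivity)] with z hz
  obtain ⟨w, hw, hw0⟩ := h6 z hz
  refine ⟨w, ?_, hw0⟩
  rw [← dist_eq_norm]
  exact lt_of_le_of_lt (mem_closedBall.1 hw) hrε

end Pool.Agent.KT
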