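import Pool.Agent.KT.St

/-!
# KT: the fundamental identity
-/

set_option autoImplicit false

open scoped BigOperators ComplexConjugate Topology
open MeasureTheory

namespace Pool.Agent.KT

private theorem KEY_two : (2 : WithTop ℕ∞) ≤ ((⊤ : ℕ∞) : WithTop ℕ∞) := by
  have h : ((2 : ℕ∞) : WithTop ℕ∞) ≤ ((⊤ : ℕ∞) : WithTop ℕ∞) := WithTop.coe_le_coe.2 le_top
  exact h

private theorem KEY_four {f g h k : ℝ → ℝ} (hf : Integrable f) (hg : Integrable g)
    (hh : Integrable h) (hk : Integrable k) :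
    ∫ t, (f t + g t + h t + k t) = (∫ t, f t) + (∫ t, g t) + (∫ t, h t) + ∫ t, k t := by
  have h1 : Integrable fun t => f t + g t := hf.add hg
  have h2 : Integrable fun t => f t + g t + h t := h1.add hh
  rw [integral_add h2 hk, integral_add h1 hh, integral_add hf hg]

/-! ### second derivatives -/

private theorem KEY_dv {f : ℂ × ℂ → ℝ} (hf : ContDiff ℝ 2 f) (v : ℂ × ℂ) :
    ContDiff ℝ 1 (fun z => fderiv ℝ f z v) :=
  (hf.fderiv_right (m := 1) (by norm_num)).clm_apply contDiff_const

private theorem KEY_d2c {f : ℂ × ℂ → ℝ} (hf : ContDiff ℝ 2 f) (v w : ℂ × ℂ) :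
    Continuous (d2 f v w) :=
  ((KEY_dv hf v).continuous_fderiv one_ne_zero).clm_apply continuous_const

private theorem KEY_levc {f : ℂ × ℂ → ℝ} (hf : ContDiff ℝ 2 f) (v : ℂ × ℂ) :
    Continuous (lev f v) :=
  (KEY_d2c hf v v).add (KEY_d2c hf (mi v) (mi v))

private theorem KEY_mac {f g : ℂ × ℂ → ℝ} (hf : ContDiff ℝ 2 f) (hg : ContDiff ℝ 2 g) :
    Continuous (ma f g) := by
  have a1 := KEY_levc hf e1
  have a2 := KEY_levc hf e3
  have a3 := KEY_levc hg e1
  have a4 := KEY_levc hg e3
  have b1 := KEY_d2c hf e1 e3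
  have b2 := KEY_d2c hf e2 e4
  have b3 := KEY_d2c hf e1 e4
  have b4 := KEY_d2c hf e2 e3
  have c1 := KEY_d2c hg e1 e3
  have c2 := KEY_d2c hg e2 e4
  have c3 := KEY_d2c hg e1 e4
  have c4 := KEY_d2c hg e2 e3
  exact ((a1.mul a4).add (a2.mul a3)).sub (continuous_const.mul
    (((b1.add b2).mul (c1.add c2)).add ((b3.sub b4).mul (c3.sub c4))))

private theorem KEY_d2_add {f g : ℂ × ℂ → ℝ} (hf : ContDiff ℝ 2 f) (hg : ContDiff ℝ 2 g) (c : ℝ)
    (v w z : ℂ × ℂ) : d2 (fun z => f z + c * g z) v w z = d2 f v w z + c * d2 g v w z := by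
  have h1 : (fun z => fderiv ℝ (fun z => f z + c * g z) z v) =
      fun z => fderiv ℝ f z v + c * fderiv ℝ g z v := by
    funext z
    have h := ((hf.differentiable (by norm_num)) z).hasFDerivAt.add
      (((hg.differentiable (by norm_num)) z).hasFDerivAt.const_mul c)
    have h' : fderiv ℝ (fun z => f z + c * g z) z = fderiv ℝ f z + c • fderiv ℝ g z := h.fderiv
    rw [h']
    rfl
  have h := (((KEY_dv hf v).differentiable (by norm_num)) z).hasFDerivAt.add
    ((((KEY_dv hg v).differentiable (by norm_num)) z).hasFDerivAt.const_mul c)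
  unfold d2
  rw [h1]
  have h' : fderiv ℝ (fun z => fderiv ℝ f z v + c * fderiv ℝ g z v) z =
    fderiv ℝ (fun z => fderiv ℝ f z v) z + c • fderiv ℝ (fun z => fderiv ℝ g z v) z := h.fderiv
  rw [h']
  rfl

private theorem KEY_lev_plus (hN : St_NSQ) {f : ℂ × ℂ → ℝ} (hf : ContDiff ℝ 2 f) (κ : ℝ)
    (v z : ℂ × ℂ) : lev (plus κ f) v z = lev f v z + κ * (4 * nsq v) := by
  have hq : ContDiff ℝ 2 nsq := hN.1.of_le KEY_two
  have h1 := hN.2.1 v z
  have e : plus κ f = fun z => f z + κ * nsq z := rfl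
  rw [← h1]
  unfold lev
  rw [e, KEY_d2_add hf hq, KEY_d2_add hf hq]
  ring

private theorem KEY_ma_plus (hN : St_NSQ) {f g : ℂ × ℂ → ℝ} (hf : ContDiff ℝ 2 f)
    (hg : ContDiff ℝ 2 g) (κ : ℝ) (z : ℂ × ℂ) :
    ma (plus κ f) (plus κ g) z = ma f g z + 4 * κ * (lev g e1 z + lev g e3 z) +
      4 * κ * (lev f e1 z + lev f e3 z) + 32 * κ ^ 2 := by
  have hq : ContDiff ℝ 2 nsq := hN.1.of_le KEY_two
  have n1 : nsq e1 = 1 := by simp [nsq, e1]
  have n3 : nsq e3 = 1 := by simp [nsq, e3]
  have h1 := hN.2.2.1 g z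
  have h2 := hN.2.2.2 f z
  have h3 := hN.2.2.1 nsq z
  rw [hN.2.1, hN.2.1, n1, n3] at h3
  have l1 : ∀ (f : ℂ × ℂ → ℝ), ContDiff ℝ 2 f → ∀ v w, d2 (plus κ f) v w z =
      d2 f v w z + κ * d2 nsq v w z := fun f hf v w => KEY_d2_add hf hq κ v w z
  have l2 : ∀ (f : ℂ × ℂ → ℝ), ContDiff ℝ 2 f → ∀ v, lev (plus κ f) v z =
      lev f v z + κ * lev nsq v z := by
    intro f hf v
    unfold lev
    rw [l1 f hf, l1 f hf]
    ring
  unfold ma at h1 h2 h3 ⊢
  rw [l1 f hf, l1 f hf, l1 f hf, l1 f hf, l1 g hg, l1 g hg, l1 g hg, l1 g hg, l2 f hf, l2 f hf,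
    l2 g hg, l2 g hg]
  linear_combination κ * h1 + κ * h2 + κ ^ 2 * h3

/-! ### mean values -/

private theorem KEY_ptc (τ : Tor) (t : ℝ) : Continuous (τ.pt t) := by
  unfold Tor.pt
  fun_prop

private theorem KEY_int (τ : Tor) {f : ℂ × ℂ → ℝ} (hf : Continuous f) (t : ℝ) :
    Integrable (fun x => f (τ.pt t x)) (volume.restrict Tor.cube) :=
  ((hf.comp (KEY_ptc τ t)).continuousOn.integrableOn_compact isCompact_Icc)

private theorem KEY_avg_add (τ : Tor) {f g : ℂ × ℂ → ℝ} (hf : Continuous f) (hg : Continuous g)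
    (c t : ℝ) : τ.avg (fun z => f z + c * g z) t = τ.avg f t + c * τ.avg g t := by
  unfold Tor.avg
  rw [integral_add (KEY_int τ hf t) ((KEY_int τ hg t).const_mul c), integral_const_mul]

private theorem KEY_avg_const (τ : Tor) (c t : ℝ) : τ.avg (fun _ => c) t = c := by
  unfold Tor.avg Tor.cube
  rw [setIntegral_const, smul_eq_mul]
  have h : volume.real (Set.Icc (fun _ : Fin 3 => -(1 / 2 : ℝ)) fun _ => 1 / 2) = 1 := by
    unfold Measure.real
    rw [Real.volume_Icc_pi]
    norm_num
  rw [h, one_mul]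

/-- integration by parts against a function with compact support -/
private theorem KEY_parts {χ g : ℝ → ℝ} (hχ : ContDiff ℝ (⊤ : ℕ∞) χ) (hc : HasCompactSupport χ)
    (hg : ContDiff ℝ 2 g) : ∫ t, χ t * deriv (deriv g) t = ∫ t, deriv (deriv χ) t * g t := by
  have hχ1 : ContDiff ℝ (⊤ : ℕ∞) (deriv χ) := by
    have := hχ
    rw [contDiff_infty_iff_deriv] at this
    exact this.2
  have hχ2 : ContDiff ℝ (⊤ : ℕ∞) (deriv (deriv χ)) := by
    have := hχ1
    rw [contDiff_infty_iff_deriv] at this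
    exact this.2
  have hg1 : ContDiff ℝ 1 (deriv g) := by
    have h2 : ContDiff ℝ (1 + 1) g := hg.of_le (by norm_num)
    rw [contDiff_succ_iff_deriv] at h2
    exact h2.2.2
  have hg2 : Continuous (deriv (deriv g)) := hg1.continuous_deriv le_rfl
  have hc1 : HasCompactSupport (deriv χ) := hc.deriv
  have hc2 : HasCompactSupport (deriv (deriv χ)) := hc1.deriv
  have d0 : ∀ x, HasDerivAt χ (deriv χ x) x := fun x =>
    ((hχ.differentiable (by simp)) x).hasDerivAt
  have d1 : ∀ x, HasDerivAt (deriv χ) (deriv (deriv χ) x) x := fun x =>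
    ((hχ1.differentiable (by simp)) x).hasDerivAt
  have g0 : ∀ x, HasDerivAt g (deriv g x) x := fun x =>
    ((hg.differentiable (by norm_num)) x).hasDerivAt
  have g1 : ∀ x, HasDerivAt (deriv g) (deriv (deriv g) x) x := fun x =>
    ((hg1.differentiable (by norm_num)) x).hasDerivAt
  have i1 : Integrable (χ * deriv (deriv g)) :=
    (hχ.continuous.mul hg2).integrable_of_hasCompactSupport hc.mul_right
  have i2 : Integrable (deriv χ * deriv g) :=
    (hχ1.continuous.mul hg1.continuous).integrable_of_hasCompactSupport hc1.mul_right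
  have i3 : Integrable (χ * deriv g) :=
    (hχ.continuous.mul hg1.continuous).integrable_of_hasCompactSupport hc.mul_right
  have i4 : Integrable (deriv (deriv χ) * g) :=
    (hχ2.continuous.mul hg.continuous).integrable_of_hasCompactSupport hc2.mul_right
  have i5 : Integrable (deriv χ * g) :=
    (hχ1.continuous.mul hg.continuous).integrable_of_hasCompactSupport hc1.mul_right
  rw [integral_mul_deriv_eq_deriv_mul_of_integrable (fun x _ => d0 x) (fun x _ => g1 x) i1 i2 i3,
    integral_mul_deriv_eq_deriv_mul_of_integrable (fun x _ => d1 x) (fun x _ => g0 x) i2 i4 i5,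
    neg_neg]

theorem thm_KEY (τ : Tor) (hI : St_IBP τ) (hN : St_NSQ) (hM : St_MEAN τ) : St_KEY τ := by
  intro u w χ κ pu pw hu hw hχ hc
  have hu2 : ContDiff ℝ 2 u := hu.of_le KEY_two
  have n1 : nsq e1 = 1 := by simp [nsq, e1]
  have n3 : nsq e3 = 1 := by simp [nsq, e3]
  obtain ⟨hMc, hMm⟩ := hM
  obtain ⟨au2, -, au1, -, au3⟩ := hMm u pu hu2
  obtain ⟨aw2, -, aw1, -, aw3⟩ := hMm w pw hw
  have hlev : lev (plus κ u) e3 = fun z => lev u e3 z + κ * (fun _ => (4 : ℝ)) z := by
    funext z
    rw [KEY_lev_plus hN hu2, n3, mul_one]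
  refine ⟨fun t => ?_, ?_⟩
  · rw [hlev, KEY_avg_add τ (KEY_levc hu2 e3) continuous_const, KEY_avg_const, au3]
    ring
  · have hav : ∀ t, τ.avg (ma (plus κ u) (plus κ w)) t = τ.avg (ma u w) t +
        4 * κ * deriv (deriv (τ.avg w)) t + 4 * κ * deriv (deriv (τ.avg u)) t + 32 * κ ^ 2 := by
      intro t
      have e : ma (plus κ u) (plus κ w) = fun z => (fun z => (fun z => (fun z =>
          (fun z => ma u w z + 4 * κ * lev w e1 z) z + 4 * κ * lev w e3 z) z +
          4 * κ * lev u e1 z) z + 4 * κ * lev u e3 z) z + 32 * κ ^ 2 * (fun _ => (1 : ℝ)) z := by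
        funext z
        rw [KEY_ma_plus hN hu2 hw]
        ring
      have c0 := KEY_mac hu2 hw
      have c1 : Continuous fun z => ma u w z + 4 * κ * lev w e1 z :=
        c0.add (continuous_const.mul (KEY_levc hw e1))
      have c2 : Continuous fun z => (fun z => ma u w z + 4 * κ * lev w e1 z) z +
          4 * κ * lev w e3 z := c1.add (continuous_const.mul (KEY_levc hw e3))
      have c3 : Continuous fun z => (fun z => (fun z => ma u w z + 4 * κ * lev w e1 z) z +
          4 * κ * lev w e3 z) z + 4 * κ * lev u e1 z :=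
        c2.add (continuous_const.mul (KEY_levc hu2 e1))
      have c4 : Continuous fun z => (fun z => (fun z => (fun z => ma u w z +
          4 * κ * lev w e1 z) z + 4 * κ * lev w e3 z) z + 4 * κ * lev u e1 z) z +
          4 * κ * lev u e3 z := c3.add (continuous_const.mul (KEY_levc hu2 e3))
      rw [e, KEY_avg_add τ c4 continuous_const, KEY_avg_add τ c3 (KEY_levc hu2 e3),
        KEY_avg_add τ c2 (KEY_levc hu2 e1), KEY_avg_add τ c1 (KEY_levc hw e3),
        KEY_avg_add τ c0 (KEY_levc hw e1), KEY_avg_const, au3, aw3, au1, aw1]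
      ring
    have hwl : Continuous fun z => w z * lev u e3 z :=
      hw.continuous.mul (KEY_levc hu2 e3)
    have hav2 : ∀ t, τ.avg (fun z => w z * lev (plus κ u) e3 z) t =
        τ.avg (fun z => w z * lev u e3 z) t + 4 * κ * τ.avg w t := by
      intro t
      have e : (fun z => w z * lev (plus κ u) e3 z) = fun z => (fun z => w z * lev u e3 z) z +
          4 * κ * w z := by
        funext z
        rw [KEY_lev_plus hN hu2, n3]
        ring
      rw [e, KEY_avg_add τ hwl hw.continuous]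
    -- integrability
    have hχc := hχ.continuous
    have hχ1 : ContDiff ℝ (⊤ : ℕ∞) (deriv χ) := by
      have := hχ
      rw [contDiff_infty_iff_deriv] at this
      exact this.2
    have hχ2 : Continuous (deriv (deriv χ)) := by
      have := hχ1
      rw [contDiff_infty_iff_deriv] at this
      exact this.2.continuous
    have hc2 : HasCompactSupport (deriv (deriv χ)) := hc.deriv.deriv
    have gd : ∀ {g : ℝ → ℝ}, ContDiff ℝ 2 g → Continuous (deriv (deriv g)) := by
      intro g hg
      have h2 : ContDiff ℝ (1 + 1) g := hg.of_le (by norm_num)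
      rw [contDiff_succ_iff_deriv] at h2
      exact h2.2.2.continuous_deriv le_rfl
    have I : ∀ {g : ℝ → ℝ}, Continuous g → Integrable fun t => χ t * g t := fun hg =>
      (hχc.mul hg).integrable_of_hasCompactSupport hc.mul_right
    have I2 : ∀ {g : ℝ → ℝ}, Continuous g → Integrable fun t => deriv (deriv χ) t * g t :=
      fun hg => (hχ2.mul hg).integrable_of_hasCompactSupport hc2.mul_right
    have cma := hMc (ma u w) (KEY_mac hu2 hw)
    have cw := hMc w hw.continuous
    have cwl := hMc _ hwl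
    have iχ : Integrable χ := hχc.integrable_of_hasCompactSupport hc
    have L : ∫ t, χ t * τ.avg (ma (plus κ u) (plus κ w)) t =
        (∫ t, χ t * τ.avg (ma u w) t) + 4 * κ * (∫ t, χ t * deriv (deriv (τ.avg w)) t) +
        4 * κ * (∫ t, χ t * deriv (deriv (τ.avg u)) t) + 32 * κ ^ 2 * ∫ t, χ t := by
      rw [← integral_const_mul, ← integral_const_mul, ← integral_const_mul,
        ← KEY_four (I cma) ((I (gd aw2)).const_mul _) ((I (gd au2)).const_mul _)
          (iχ.const_mul _)]
      refine integral_congr_ae (Filter.Eventually.of_forall fun t => ?_)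
      show χ t * τ.avg (ma (plus κ u) (plus κ w)) t = χ t * τ.avg (ma u w) t +
        4 * κ * (χ t * deriv (deriv (τ.avg w)) t) + 4 * κ * (χ t * deriv (deriv (τ.avg u)) t) +
        32 * κ ^ 2 * χ t
      rw [hav]
      ring
    have R : ∫ t, deriv (deriv χ) t * τ.avg (fun z => w z * lev (plus κ u) e3 z) t =
        (∫ t, deriv (deriv χ) t * τ.avg (fun z => w z * lev u e3 z) t) +
        4 * κ * ∫ t, deriv (deriv χ) t * τ.avg w t := by
      rw [← integral_const_mul, ← integral_add (I2 cwl) ((I2 cw).const_mul _)]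
      refine integral_congr_ae (Filter.Eventually.of_forall fun t => ?_)
      show deriv (deriv χ) t * τ.avg (fun z => w z * lev (plus κ u) e3 z) t =
        deriv (deriv χ) t * τ.avg (fun z => w z * lev u e3 z) t +
        4 * κ * (deriv (deriv χ) t * τ.avg w t)
      rw [hav2]
      ring
    rw [L, R, hI u w χ pu pw hu hw hχ hc, KEY_parts hχ hc aw2, KEY_parts hχ hc au2]

end Pool.Agent.KT
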