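import Pool.Agent.KT.St
import Pool.Agent.Squeeze.Smooth

/-!
# KT, module LOG: logarithms of sums of squares are plurisubharmonic
-/

set_option autoImplicit false

open scoped BigOperators ComplexConjugate

namespace Pool.Agent.KT

/-- entire functions are smooth -/
theorem LOG_smooth {f : ℂ × ℂ → ℂ} (hf : Differentiable ℂ f) : ContDiff ℝ (⊤ : ℕ∞) f := by
  rw [contDiff_infty]
  intro n
  have := Pool.Agent.Squeeze.contDiffOn_of_differentiableOn isOpen_univ n hf.differentiableOn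
  exact (contDiffOn_univ.1 this).restrict_scalars ℝ

/-- nonnegative functions whose logarithm is plurisubharmonic -/
structure LOG_Good (φ : ℂ × ℂ → ℝ) : Prop where
  sm : ContDiff ℝ (⊤ : ℕ∞) φ
  nn : ∀ z, 0 ≤ φ z
  lv : ∀ z v, 0 ≤ lev φ v z
  gr : ∀ z v, d1 φ v z ^ 2 + d1 φ (mi v) z ^ 2 ≤ φ z * lev φ v z

theorem LOG_diff {φ : ℂ × ℂ → ℝ} (h : ContDiff ℝ (⊤ : ℕ∞) φ) : Differentiable ℝ φ :=
  h.differentiable (by simp)

theorem LOG_diff1 {φ : ℂ × ℂ → ℝ} (h : ContDiff ℝ (⊤ : ℕ∞) φ) (v : ℂ × ℂ) :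
    Differentiable ℝ (fun z => fderiv ℝ φ z v) := by
  have h1 : ContDiff ℝ (⊤ : ℕ∞) (fun z => fderiv ℝ φ z v) :=
    (h.fderiv_right (m := (⊤ : ℕ∞)) (by simp)).clm_apply contDiff_const
  exact h1.differentiable (by simp)

theorem LOG_add {φ ψ : ℂ × ℂ → ℝ} (h : LOG_Good φ) (h' : LOG_Good ψ) :
    LOG_Good (fun z => φ z + ψ z) := by
  have e1 : ∀ v z, d1 (fun z => φ z + ψ z) v z = d1 φ v z + d1 ψ v z := by
    intro v z
    unfold d1
    rw [fderiv_fun_add (LOG_diff h.sm z) (LOG_diff h'.sm z)]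
    rfl
  have e2 : ∀ v w z, d2 (fun z => φ z + ψ z) v w z = d2 φ v w z + d2 ψ v w z := by
    intro v w z
    unfold d2
    have : (fun z => fderiv ℝ (fun z => φ z + ψ z) z v) =
        fun z => fderiv ℝ φ z v + fderiv ℝ ψ z v := funext fun z => e1 v z
    rw [this, fderiv_fun_add (LOG_diff1 h.sm v z) (LOG_diff1 h'.sm v z)]
    rfl
  have e3 : ∀ v z, lev (fun z => φ z + ψ z) v z = lev φ v z + lev ψ v z := by
    intro v z
    unfold lev
    rw [e2, e2]
    ring
  refine ⟨h.sm.add h'.sm, fun z => add_nonneg (h.nn z) (h'.nn z), fun z v => ?_, fun z v => ?_⟩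
  · rw [e3]
    exact add_nonneg (h.lv z v) (h'.lv z v)
  · rw [e1, e1, e3]
    have a1 := h.gr z v
    have a2 := h'.gr z v
    have b1 := h.nn z
    have b2 := h'.nn z
    have c1 := h.lv z v
    have c2 := h'.lv z v
    set a := d1 φ v z
    set b := d1 ψ v z
    set c := d1 φ (mi v) z
    set d := d1 ψ (mi v) z
    set P := φ z
    set Q := ψ z
    set p := lev φ v z
    set q := lev ψ v z
    have h1 : (2 * (a * b + c * d)) ^ 2 ≤ (P * q + Q * p) ^ 2 := by
      have h2 : (a * b + c * d) ^ 2 ≤ (a ^ 2 + c ^ 2) * (b ^ 2 + d ^ 2) := by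
        nlinarith [sq_nonneg (a * d - b * c)]
      have h3 : (a ^ 2 + c ^ 2) * (b ^ 2 + d ^ 2) ≤ (P * p) * (Q * q) :=
        mul_le_mul a1 a2 (by positivity) (by positivity)
      nlinarith [sq_nonneg (P * q - Q * p)]
    have h4 : 2 * (a * b + c * d) ≤ P * q + Q * p :=
      le_of_sq_le_sq h1 (by positivity)
    nlinarith

theorem LOG_zero : LOG_Good (fun _ => 0) := by
  have e1 : ∀ v z, d1 (fun _ => 0) v z = 0 := by
    intro v z
    simp [d1]
  have e3 : ∀ v z, lev (fun _ => 0) v z = 0 := by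
    intro v z
    simp [lev, d2]
  refine ⟨contDiff_const, fun z => le_refl _, fun z v => ?_, fun z v => ?_⟩
  · rw [e3]
  · rw [e1, e1, e3]
    simp

theorem LOG_sum {ι : Type} (s : Finset ι) (φ : ι → ℂ × ℂ → ℝ) (h : ∀ i, LOG_Good (φ i)) :
    LOG_Good (fun z => ∑ i ∈ s, φ i z) := by
  classical
  induction s using Finset.induction_on with
  | empty =>
    simp only [Finset.sum_empty]
    exact LOG_zero
  | insert i s hi ih =>
    simp only [Finset.sum_insert hi]
    exact LOG_add (h i) ih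

theorem LOG_mi (v : ℂ × ℂ) : mi v = Complex.I • v := rfl

theorem LOG_sq {f : ℂ × ℂ → ℂ} (hf : Differentiable ℂ f) : LOG_Good (fun z => ‖f z‖ ^ 2) := by
  have hd : ∀ z, HasFDerivAt f ((fderiv ℂ f z).restrictScalars ℝ) z := fun z =>
    (hf z).hasFDerivAt.restrictScalars ℝ
  have hα : ∀ v, Differentiable ℂ (fun z => fderiv ℂ f z v) := fun v =>
    differentiableOn_univ.1 (Pool.Agent.Squeeze.differentiableOn_fderiv_apply
      hf.differentiableOn isOpen_univ v)
  have hd2 : ∀ v z, HasFDerivAt (fun z => fderiv ℂ f z v)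
      ((fderiv ℂ (fun z => fderiv ℂ f z v) z).restrictScalars ℝ) z := fun v z =>
    (hα v z).hasFDerivAt.restrictScalars ℝ
  have e1 : ∀ v z, d1 (fun z => ‖f z‖ ^ 2) v z = 2 * inner ℝ (f z) (fderiv ℂ f z v) := by
    intro v z
    unfold d1
    rw [(hd z).norm_sq.fderiv]
    simp
    ring
  have e2 : ∀ v w z, d2 (fun z => ‖f z‖ ^ 2) v w z =
      2 * (inner ℝ (f z) (fderiv ℂ (fun z => fderiv ℂ f z v) z w) +
        inner ℝ (fderiv ℂ f z w) (fderiv ℂ f z v)) := by
    intro v w z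
    unfold d2
    have h1 : (fun z => fderiv ℝ (fun z => ‖f z‖ ^ 2) z v) =
        fun z => 2 * inner ℝ (f z) (fderiv ℂ f z v) := funext fun z => e1 v z
    rw [h1, (((hd z).inner ℝ (hd2 v z)).const_mul 2).fderiv]
    simp
  have e3 : ∀ v z, lev (fun z => ‖f z‖ ^ 2) v z = 4 * ‖fderiv ℂ f z v‖ ^ 2 := by
    intro v z
    unfold lev
    rw [e2, e2]
    have h1 : fderiv ℂ f z (mi v) = Complex.I * fderiv ℂ f z v := by
      rw [LOG_mi, map_smul, smul_eq_mul]
    have h2 : fderiv ℂ (fun z => fderiv ℂ f z (mi v)) z (mi v) =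
        - fderiv ℂ (fun z => fderiv ℂ f z v) z v := by
      have h3 : (fun z => fderiv ℂ f z (mi v)) = fun z => Complex.I * fderiv ℂ f z v := by
        funext z
        rw [LOG_mi, map_smul, smul_eq_mul]
      rw [h3, fderiv_const_mul (hα v z), LOG_mi]
      rw [map_smul, smul_apply, smul_smul, Complex.I_mul_I, neg_one_smul]
    rw [h1, h2, inner_neg_right, real_inner_self_eq_norm_sq, real_inner_self_eq_norm_sq, norm_mul,
      Complex.norm_I, one_mul]
    ring
  refine ⟨(LOG_smooth hf).norm_sq ℝ, fun z => by positivity, fun z v => ?_, fun z v => ?_⟩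
  · rw [e3]
    positivity
  · rw [e1, e1, e3]
    have h1 : fderiv ℂ f z (mi v) = Complex.I * fderiv ℂ f z v := by
      rw [LOG_mi, map_smul, smul_eq_mul]
    rw [h1]
    apply le_of_eq
    simp only [Complex.inner, Complex.sq_norm, Complex.normSq_apply]
    simp
    ring

theorem LOG_exp (κ η : ℝ) (hκ : 0 ≤ κ) :
    LOG_Good (fun z => η ^ 2 * Real.exp (2 * κ * nsq z)) := by
  let B : ℂ × ℂ → ℂ × ℂ → ℝ := fun z v => inner ℝ z.1 v.1 + inner ℝ z.2 v.2
  have hB1 : ∀ v z w, fderiv ℝ (fun z => B z v) z w = B w v := by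
    intro v z w
    have h1 : HasFDerivAt (fun z : ℂ × ℂ => B z v)
        (((fderivInnerCLM ℝ (z.1, v.1)).comp ((ContinuousLinearMap.fst ℝ ℂ ℂ).prod 0)) +
          ((fderivInnerCLM ℝ (z.2, v.2)).comp ((ContinuousLinearMap.snd ℝ ℂ ℂ).prod 0))) z :=
      ((hasFDerivAt_fst).inner ℝ (hasFDerivAt_const v.1 z)).add
        ((hasFDerivAt_snd).inner ℝ (hasFDerivAt_const v.2 z))
    rw [h1.fderiv]
    simp [B]
  have hnd : ∀ z, HasFDerivAt nsq (2 • ((innerSL ℝ z.1).comp (ContinuousLinearMap.fst ℝ ℂ ℂ)) +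
      2 • ((innerSL ℝ z.2).comp (ContinuousLinearMap.snd ℝ ℂ ℂ))) z := by
    intro z
    exact (hasFDerivAt_fst.norm_sq).add (hasFDerivAt_snd.norm_sq)
  have hns : ContDiff ℝ (⊤ : ℕ∞) nsq :=
    (contDiff_fst.norm_sq ℝ).add (contDiff_snd.norm_sq ℝ)
  have hsm : ContDiff ℝ (⊤ : ℕ∞) (fun z => η ^ 2 * Real.exp (2 * κ * nsq z)) :=
    contDiff_const.mul (Real.contDiff_exp.comp (contDiff_const.mul hns))
  have hBd : ∀ v, Differentiable ℝ (fun z => B z v) := by
    intro v
    exact (differentiable_fst.inner ℝ (differentiable_const _)).add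
      (differentiable_snd.inner ℝ (differentiable_const _))
  have e1 : ∀ v z, d1 (fun z => η ^ 2 * Real.exp (2 * κ * nsq z)) v z =
      4 * κ * (B z v * (η ^ 2 * Real.exp (2 * κ * nsq z))) := by
    intro v z
    unfold d1
    have h1 := (((hnd z).const_mul (2 * κ)).exp.const_mul (η ^ 2)).fderiv
    rw [h1]
    simp [B]
    ring
  have e2 : ∀ v w z, d2 (fun z => η ^ 2 * Real.exp (2 * κ * nsq z)) v w z =
      4 * κ * (B w v * (η ^ 2 * Real.exp (2 * κ * nsq z)) +
        B z v * (4 * κ * (B z w * (η ^ 2 * Real.exp (2 * κ * nsq z))))) := by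
    intro v w z
    have h0 := e1 w z
    unfold d2
    unfold d1 at e1 h0
    have h1 : (fun z => fderiv ℝ (fun z => η ^ 2 * Real.exp (2 * κ * nsq z)) z v) =
        fun z => 4 * κ * (B z v * (η ^ 2 * Real.exp (2 * κ * nsq z))) := funext fun z => e1 v z
    rw [h1, fderiv_const_mul ((hBd v z).fun_mul (LOG_diff hsm z)), fderiv_fun_mul (hBd v z)
      (LOG_diff hsm z), ← h0, ← hB1 v z w]
    simp
    ring
  have e3 : ∀ v z, lev (fun z => η ^ 2 * Real.exp (2 * κ * nsq z)) v z =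
      8 * κ * nsq v * (η ^ 2 * Real.exp (2 * κ * nsq z)) +
      16 * κ ^ 2 * (B z v ^ 2 + B z (mi v) ^ 2) * (η ^ 2 * Real.exp (2 * κ * nsq z)) := by
    intro v z
    unfold lev
    rw [e2, e2]
    have h1 : B v v = nsq v := by
      simp only [B, nsq, real_inner_self_eq_norm_sq]
    have h2 : B (mi v) (mi v) = nsq v := by
      simp only [B, nsq, mi, real_inner_self_eq_norm_sq, norm_mul, Complex.norm_I, one_mul]
    rw [h1, h2]
    ring
  have hnv : ∀ v, 0 ≤ nsq v := fun v => by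
    unfold nsq
    positivity
  refine ⟨hsm, fun z => by positivity, fun z v => ?_, fun z v => ?_⟩
  · rw [e3]
    have := hnv v
    positivity
  · rw [e1, e1, e3]
    have h1 := hnv v
    set P := η ^ 2 * Real.exp (2 * κ * nsq z) with hP
    have h2 : 0 ≤ 8 * κ * nsq v * P ^ 2 := by positivity
    nlinarith

theorem LOG_log {h : ℂ × ℂ → ℝ} (hg : LOG_Good h) (hp : ∀ z, 0 < h z) :
    Psh ⊤ (fun z => Real.log (h z)) := by
  have hd : ∀ z, HasFDerivAt h (fderiv ℝ h z) z := fun z => (LOG_diff hg.sm z).hasFDerivAt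
  have hsm : ContDiff ℝ (⊤ : ℕ∞) (fun z => Real.log (h z)) :=
    hg.sm.log fun z => (hp z).ne'
  have e1 : ∀ v z, fderiv ℝ (fun z => Real.log (h z)) z v = (h z)⁻¹ * fderiv ℝ h z v := by
    intro v z
    rw [((hd z).log (hp z).ne').fderiv]
    simp
  have e2 : ∀ v w z, d2 (fun z => Real.log (h z)) v w z =
      (h z)⁻¹ * d2 h v w z - (h z ^ 2)⁻¹ * (d1 h w z * d1 h v z) := by
    intro v w z
    unfold d2 d1
    have h1 : (fun z => fderiv ℝ (fun z => Real.log (h z)) z v) =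
        fun z => (h z)⁻¹ * fderiv ℝ h z v := funext fun z => e1 v z
    have h2 : HasFDerivAt (fun z => (h z)⁻¹) (-(h z ^ 2)⁻¹ • fderiv ℝ h z) z :=
      (hasDerivAt_inv (hp z).ne').comp_hasFDerivAt z (hd z)
    rw [h1, (h2.fun_mul (LOG_diff1 hg.sm v z).hasFDerivAt).fderiv]
    simp
    ring
  refine ⟨hsm, fun z v => ?_⟩
  have e3 : lev (fun z => Real.log (h z)) v z =
      (h z ^ 2)⁻¹ * (h z * lev h v z - (d1 h v z ^ 2 + d1 h (mi v) z ^ 2)) := by
    unfold lev
    rw [e2, e2]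
    have := (hp z).ne'
    field_simp
    ring
  rw [e3]
  have := hg.gr z v
  have := hp z
  exact mul_nonneg (by positivity) (by linarith)

theorem thm_LOG : St_LOG := by
  intro ι _ f κ η hf hκ hη
  have h1 : LOG_Good (fun z => (∑ j, ‖f j z‖ ^ 2) + η ^ 2 * Real.exp (2 * κ * nsq z)) :=
    LOG_add (LOG_sum Finset.univ (fun j z => ‖f j z‖ ^ 2) fun j => LOG_sq (hf j))
      (LOG_exp κ η hκ)
  exact LOG_log h1 fun z => by positivity

end Pool.Agent.KT
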