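import Pool.Agent.KT.St

/-!
# KT, module LOW: lower bounds for the means
-/

set_option autoImplicit false

open scoped BigOperators ComplexConjugate Topology
open MeasureTheory

namespace Pool.Agent.KT

/-! ### polydiscs -/

/-- the polydisc -/
private def LOW_P (r : ℝ) : Set (ℂ × ℂ) :=
  Metric.closedBall (0 : ℂ) r ×ˢ Metric.closedBall (0 : ℂ) r

private theorem LOW_P_compact (r : ℝ) : IsCompact (LOW_P r) :=
  (isCompact_closedBall _ _).prod (isCompact_closedBall _ _)

private theorem LOW_P_meas (r : ℝ) : MeasurableSet (LOW_P r) :=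
  (LOW_P_compact r).isClosed.measurableSet

private theorem LOW_P_vol {r : ℝ} (hr : 0 < r) :
    (volume (LOW_P r)).toReal = (Real.pi * r ^ 2) ^ 2 := by
  unfold LOW_P
  rw [Measure.volume_eq_prod, Measure.prod_prod, Complex.volume_closedBall, ENNReal.toReal_mul,
    ENNReal.toReal_mul, ENNReal.toReal_pow, ENNReal.toReal_ofReal hr.le]
  simp only [ENNReal.coe_toReal, NNReal.coe_real_pi]
  ring

private theorem LOW_int {f : ℂ × ℂ → ℝ} (hf : Continuous f) (r : ℝ) (z : ℂ × ℂ) :
    IntegrableOn (fun a => f (z + a)) (LOW_P r) :=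
  (hf.comp (continuous_const.add continuous_id)).continuousOn.integrableOn_compact
    (LOW_P_compact r)

private theorem LOW_pav_eq (r : ℝ) (f : ℂ × ℂ → ℝ) (z : ℂ × ℂ) :
    pav r f z = 1 / (Real.pi * r ^ 2) ^ 2 * ∫ a in LOW_P r, f (z + a) := rfl

private theorem LOW_pav_const {r : ℝ} (hr : 0 < r) (c : ℝ) (z : ℂ × ℂ) :
    pav r (fun _ => c) z = c := by
  have h := LOW_P_vol hr
  have hpos : 0 < (Real.pi * r ^ 2) ^ 2 := by positivity
  rw [LOW_pav_eq, setIntegral_const, measureReal_def, h, smul_eq_mul]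
  field_simp

private theorem LOW_pav_mono {r : ℝ} (hr : 0 < r) {f g : ℂ × ℂ → ℝ} (hf : Continuous f)
    (hg : Continuous g) {z : ℂ × ℂ} (h : ∀ a ∈ LOW_P r, f (z + a) ≤ g (z + a)) :
    pav r f z ≤ pav r g z := by
  rw [LOW_pav_eq, LOW_pav_eq]
  refine mul_le_mul_of_nonneg_left ?_ (by positivity)
  exact setIntegral_mono_on (LOW_int hf r z) (LOW_int hg r z) (LOW_P_meas r) h

private theorem LOW_pav_add {r : ℝ} {f g : ℂ × ℂ → ℝ} (hf : Continuous f)
    (hg : Continuous g) (z : ℂ × ℂ) :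
    pav r (fun z => f z + g z) z = pav r f z + pav r g z := by
  rw [LOW_pav_eq, LOW_pav_eq, LOW_pav_eq, ← mul_add, integral_add (LOW_int hf r z) (LOW_int hg r z)]

private theorem LOW_pav_smul {r : ℝ} (c : ℝ) (f : ℂ × ℂ → ℝ) (z : ℂ × ℂ) :
    pav r (fun z => c * f z) z = c * pav r f z := by
  rw [LOW_pav_eq, LOW_pav_eq, integral_const_mul]
  ring

/-- comparison of polydisc means -/
private theorem LOW_pav_cmp {r R : ℝ} (hr : 0 < r) (hR : 0 < R) {f : ℂ × ℂ → ℝ}
    (hf : Continuous f) {z z₀ : ℂ × ℂ} (h0 : ∀ a ∈ LOW_P R, 0 ≤ f (z₀ + a))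
    (h : ∀ a ∈ LOW_P r, a + (z - z₀) ∈ LOW_P R) :
    r ^ 4 * pav r f z ≤ R ^ 4 * pav R f z₀ := by
  have hinv : (volume : Measure (ℂ × ℂ)).IsAddRightInvariant := by
    rw [Measure.volume_eq_prod]
    infer_instance
  have h1 : ∫ a in LOW_P r, f (z + a) ≤ ∫ a in LOW_P R, f (z₀ + a) := by
    rw [← integral_indicator (LOW_P_meas r), ← integral_indicator (LOW_P_meas R),
      ← integral_sub_right_eq_self _ (z - z₀)]
    refine integral_mono ?_ ?_ ?_
    · exact ((integrable_indicator_iff (LOW_P_meas r)).mpr (LOW_int hf r z)).comp_sub_right _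
    · exact (integrable_indicator_iff (LOW_P_meas R)).mpr (LOW_int hf R z₀)
    · intro b
      simp only
      by_cases hb : b - (z - z₀) ∈ LOW_P r
      · have hb' : b ∈ LOW_P R := by
          have := h _ hb
          rwa [sub_add_cancel] at this
        rw [Set.indicator_of_mem hb, Set.indicator_of_mem hb']
        have : z + (b - (z - z₀)) = z₀ + b := by ring
        rw [this]
      · rw [Set.indicator_of_notMem hb]
        exact Set.indicator_nonneg (fun a ha => h0 a ha) b
  rw [LOW_pav_eq, LOW_pav_eq]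
  have e1 : r ^ 4 * (1 / (Real.pi * r ^ 2) ^ 2 * ∫ a in LOW_P r, f (z + a)) =
      1 / Real.pi ^ 2 * ∫ a in LOW_P r, f (z + a) := by
    field_simp
  have e2 : R ^ 4 * (1 / (Real.pi * R ^ 2) ^ 2 * ∫ a in LOW_P R, f (z₀ + a)) =
      1 / Real.pi ^ 2 * ∫ a in LOW_P R, f (z₀ + a) := by
    field_simp
  rw [e1, e2]
  exact mul_le_mul_of_nonneg_left h1 (by positivity)

/-! ### the real torus -/

variable (τ : Tor)

private theorem LOW_ht_pt (t : ℝ) (x : Fin 3 → ℝ) : ht (τ.pt t x) = t := by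
  simp [ht, Tor.pt, Tor.γ, Fin.sum_univ_three]

private theorem LOW_pt_cont (t : ℝ) : Continuous (τ.pt t) := by
  unfold Tor.pt
  fun_prop

private theorem LOW_cube_compact : IsCompact (Tor.cube) := isCompact_Icc

private theorem LOW_cube_vol : (volume Tor.cube).toReal = 1 := by
  rw [Tor.cube, Real.volume_Icc_pi]
  norm_num

private theorem LOW_avg_int {f : ℂ × ℂ → ℝ} (hf : Continuous f) (t : ℝ) :
    IntegrableOn (fun x => f (τ.pt t x)) Tor.cube :=
  (hf.comp (LOW_pt_cont τ t)).continuousOn.integrableOn_compact LOW_cube_compact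

private theorem LOW_avg_const (c : ℝ) (t : ℝ) : τ.avg (fun _ => c) t = c := by
  rw [Tor.avg, setIntegral_const, measureReal_def, LOW_cube_vol, one_smul]

private theorem LOW_avg_mono {f g : ℂ × ℂ → ℝ} (hf : Continuous f) (hg : Continuous g) (t : ℝ)
    (h : ∀ x ∈ Tor.cube, f (τ.pt t x) ≤ g (τ.pt t x)) : τ.avg f t ≤ τ.avg g t :=
  setIntegral_mono_on (LOW_avg_int τ hf t) (LOW_avg_int τ hg t)
    LOW_cube_compact.isClosed.measurableSet h

private theorem LOW_avg_sub {f g : ℂ × ℂ → ℝ} (hf : Continuous f) (hg : Continuous g) (t : ℝ) :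
    τ.avg (fun z => f z - g z) t = τ.avg f t - τ.avg g t :=
  integral_sub (LOW_avg_int τ hf t) (LOW_avg_int τ hg t)

private theorem LOW_avg_add {f g : ℂ × ℂ → ℝ} (hf : Continuous f) (hg : Continuous g) (t : ℝ) :
    τ.avg (fun z => f z + g z) t = τ.avg f t + τ.avg g t :=
  integral_add (LOW_avg_int τ hf t) (LOW_avg_int τ hg t)

/-- every point is equivalent to one with coordinates in the cube -/
private theorem LOW_coord {f : ℂ × ℂ → ℝ} (hf : τ.Per f) (z : ℂ × ℂ) :
    ∃ x ∈ Tor.cube, f (τ.pt (ht z) x) = f z := by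
  have h1 : Submodule.span ℝ (Set.range fun i => ((τ.a i, τ.b i) : ℝ × ℂ)) = ⊤ :=
    τ.li.span_eq_top_of_card_eq_finrank' (by
      rw [Module.finrank_prod, Complex.finrank_real_complex, Module.finrank_self]
      rfl)
  have h2 : ((z.1.re, z.2) : ℝ × ℂ) ∈
      Submodule.span ℝ (Set.range fun i => ((τ.a i, τ.b i) : ℝ × ℂ)) := h1 ▸ Submodule.mem_top
  obtain ⟨x, hx⟩ := (Submodule.mem_span_range_iff_exists_fun ℝ).mp h2
  have h3 : τ.pt (ht z) x = z := by
    rw [Fin.sum_univ_three] at hx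
    have hx1 := congrArg Prod.fst hx
    have hx2 := congrArg Prod.snd hx
    simp only [Prod.smul_mk, Prod.mk_add_mk, smul_eq_mul, Complex.real_smul] at hx1 hx2
    refine Prod.ext ?_ ?_
    · simp only [Tor.pt, Fin.sum_univ_three, Tor.γ, Prod.fst_add, ht]
      refine Complex.ext ?_ ?_
      · simp
        linarith
      · simp
    · simp only [Tor.pt, Fin.sum_univ_three, Tor.γ, Prod.snd_add, ht, zero_add]
      exact hx2
  -- the group of periods
  have h4 : ∀ (n : Fin 3 → ℤ) (w : ℂ × ℂ), f (w + ∑ i, n i • τ.γ i) = f w := by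
    have h5 : ∀ (i : Fin 3) (m : ℤ) (w : ℂ × ℂ), f (w + m • τ.γ i) = f w := by
      intro i m
      induction m using Int.induction_on with
      | zero => intro w; simp
      | succ m ih =>
        intro w
        rw [add_smul, one_smul, ← add_assoc, hf]
        exact ih w
      | pred m ih =>
        intro w
        rw [← hf (w + (-(m : ℤ) - 1) • τ.γ i) i, add_assoc]
        have : (-(m : ℤ) - 1) • τ.γ i + τ.γ i = (-(m : ℤ)) • τ.γ i := by
          rw [sub_smul, one_smul, sub_add_cancel]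
        rw [this]
        exact ih w
    intro n w
    rw [Fin.sum_univ_three, ← add_assoc, ← add_assoc, h5, h5, h5]
  refine ⟨fun i => x i - round (x i), ⟨fun i => ?_, fun i => ?_⟩, ?_⟩
  · have := abs_le.mp (abs_sub_round (x i))
    linarith [this.1]
  · have := abs_le.mp (abs_sub_round (x i))
    linarith [this.2]
  · conv_rhs => rw [← h3]
    rw [← h4 (fun i => round (x i)) (τ.pt (ht z) fun i => x i - round (x i))]
    congr 1
    simp only [Tor.pt, Fin.sum_univ_three]
    refine Prod.ext ?_ ?_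
    · simp
      ring
    · simp
      ring

/-- the size of the cube -/
private noncomputable def LOW_R : ℝ := ∑ i, (‖(τ.γ i).1‖ + ‖(τ.γ i).2‖)

private theorem LOW_R_nonneg : 0 ≤ LOW_R τ := Finset.sum_nonneg fun i _ => by positivity

private theorem LOW_dist {x y : Fin 3 → ℝ} (hx : x ∈ Tor.cube) (hy : y ∈ Tor.cube) (t : ℝ) :
    τ.pt t x - τ.pt t y ∈ LOW_P (LOW_R τ) := by
  have h1 : ∀ i, |x i - y i| ≤ 1 := fun i => by
    have h2 := hx.1 i
    have h3 := hx.2 i
    have h4 := hy.1 i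
    have h5 := hy.2 i
    simp only at h2 h3 h4 h5
    rw [abs_le]
    constructor <;> linarith
  have h2 : τ.pt t x - τ.pt t y =
      ∑ i, (((x i - y i : ℝ) : ℂ) * (τ.γ i).1, ((x i - y i : ℝ) : ℂ) * (τ.γ i).2) := by
    simp only [Tor.pt, Fin.sum_univ_three]
    refine Prod.ext ?_ ?_
    · simp
      ring
    · simp
      ring
  rw [h2]
  refine ⟨?_, ?_⟩
  · rw [Metric.mem_closedBall, dist_zero_right, Prod.fst_sum]
    refine (norm_sum_le _ _).trans (Finset.sum_le_sum fun i _ => ?_)
    simp only [norm_mul, Complex.norm_real, Real.norm_eq_abs]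
    have := mul_le_mul_of_nonneg_right (h1 i) (norm_nonneg (τ.γ i).1)
    linarith [norm_nonneg (τ.γ i).2]
  · rw [Metric.mem_closedBall, dist_zero_right, Prod.snd_sum]
    refine (norm_sum_le _ _).trans (Finset.sum_le_sum fun i _ => ?_)
    simp only [norm_mul, Complex.norm_real, Real.norm_eq_abs]
    have := mul_le_mul_of_nonneg_right (h1 i) (norm_nonneg (τ.γ i).2)
    linarith [norm_nonneg (τ.γ i).1]

/-! ### the main estimates -/

private theorem LOW_ht_P {r : ℝ} {a : ℂ × ℂ} (ha : a ∈ LOW_P r) : |ht a| ≤ r := by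
  have h1 : ‖a.1‖ ≤ r := by
    have := ha.1
    rwa [Metric.mem_closedBall, dist_zero_right] at this
  exact (Complex.abs_im_le_norm a.1).trans h1

private theorem LOW_first (hS : St_SUB) (hA : St_PAV τ) (hM : St_MEAN τ) (hN : St_NSQ)
    {κ Y G : ℝ} {u : ℂ × ℂ → ℝ} {z₀ : ℂ × ℂ} (hκ : 1 ≤ κ) (hY : 2 * (LOW_R τ + 1) ≤ Y)
    (hG : 0 ≤ G) (hper : τ.Per u) (hu : ContDiff ℝ (⊤ : ℕ∞) u) (hpsh : Psh ⊤ (plus κ u))
    (hle : ∀ z, |ht z| ≤ Y → u z ≤ κ) (hz₀ : |ht z₀| ≤ Y / 32) (hGz : -G ≤ u z₀) :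
    ∃ t', |t' - ht z₀| ≤ 1 ∧
      -((LOW_R τ + 1) ^ 4 * (1 + (LOW_R τ + 1) ^ 2) * (G + κ)) ≤ τ.avg u t' := by
  set R := LOW_R τ + 1 with hR
  have hR1 : 1 ≤ R := by linarith [LOW_R_nonneg τ]
  have hR0 : 0 < R := by linarith
  obtain ⟨x₀, hx₀, hux⟩ := LOW_coord τ hper z₀
  set t₀ := ht z₀ with ht₀
  set z := τ.pt t₀ x₀ with hz
  let f : ℂ × ℂ → ℝ := fun z => κ - u z
  have huc : Continuous u := hu.continuous
  have hfc : Continuous f := continuous_const.sub huc
  have hfs : ContDiff ℝ (⊤ : ℕ∞) f := contDiff_const.sub hu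
  have hfper : τ.Per f := fun z i => by
    show κ - u (z + τ.γ i) = κ - u z
    rw [hper z i]
  have hqc : Continuous nsq := hN.1.continuous
  -- upper bound for the large polydisc mean
  have h1 : pav R f z ≤ κ * R ^ 2 + κ + G := by
    have h2 : plus κ u z ≤ pav R (plus κ u) z :=
      hS _ ⟨hpsh.1.of_le (by exact_mod_cast le_top), hpsh.2⟩ R hR0 z
    have h3 : pav R (fun z => plus κ u z + f z) z = pav R (plus κ u) z + pav R f z :=
      LOW_pav_add (by unfold plus; exact huc.add (continuous_const.mul hqc)) hfc z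
    have h4 : (fun z => plus κ u z + f z) = fun z => κ * nsq z + κ := by
      funext z
      show u z + κ * nsq z + (κ - u z) = _
      ring
    have h5 : pav R (fun z => κ * nsq z + κ) z = κ * (nsq z + R ^ 2) + κ := by
      rw [LOW_pav_add (f := fun z => κ * nsq z) (g := fun _ => κ) (continuous_const.mul hqc)
        continuous_const, LOW_pav_smul, LOW_pav_const hR0, hA.2.1 R z hR0]
    rw [h4, h5] at h3
    have h6 : plus κ u z = u z + κ * nsq z := rfl
    rw [h6, hux] at h2
    nlinarith [h2, h3, hGz]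
  -- comparison with the small means
  have h2 : ∀ x ∈ Tor.cube, pav 1 f (τ.pt t₀ x) ≤ R ^ 4 * pav R f z := by
    intro x hx
    have h3 := LOW_pav_cmp (r := 1) (R := R) one_pos hR0 hfc (z := τ.pt t₀ x) (z₀ := z) ?_ ?_
    · simpa using h3
    · intro a ha
      have h4 : |ht (z + a)| ≤ Y := by
        have h5 : ht (z + a) = t₀ + ht a := by
          show (z + a).1.im = _
          rw [Prod.fst_add, Complex.add_im]
          have : z.1.im = t₀ := LOW_ht_pt τ t₀ x₀
          rw [this]
          rfl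
        rw [h5]
        have h6 := LOW_ht_P ha
        have h7 := abs_add_le t₀ (ht a)
        linarith
      have := hle _ h4
      show 0 ≤ κ - u (z + a)
      linarith
    · intro a ha
      have h4 := LOW_dist τ hx hx₀ t₀
      refine ⟨?_, ?_⟩
      · have h5 := ha.1
        have h6 := h4.1
        rw [Metric.mem_closedBall, dist_zero_right] at h5 h6 ⊢
        refine (norm_add_le _ _).trans ?_
        have h7 : ‖(τ.pt t₀ x - z).1‖ ≤ LOW_R τ := h6
        linarith
      · have h5 := ha.2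
        have h6 := h4.2
        rw [Metric.mem_closedBall, dist_zero_right] at h5 h6 ⊢
        refine (norm_add_le _ _).trans ?_
        have h7 : ‖(τ.pt t₀ x - z).2‖ ≤ LOW_R τ := h6
        linarith
  have h3 : τ.avg (pav 1 f) t₀ ≤ R ^ 4 * pav R f z := by
    have h4 := LOW_avg_mono τ (f := pav 1 f) (g := fun _ => R ^ 4 * pav R f z)
      (hA.1 1 f one_pos hfs).1.continuous continuous_const t₀ h2
    rwa [LOW_avg_const] at h4
  rw [hA.2.2.2 1 f one_pos hfc hfper t₀] at h3
  -- the minimum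
  have hac : Continuous (τ.avg f) := hM.1 f hfc
  obtain ⟨t', ht', hmin⟩ := (isCompact_Icc (a := t₀ - 1) (b := t₀ + 1)).exists_isMinOn
    ⟨t₀, by constructor <;> linarith⟩ hac.continuousOn
  have h5 : τ.avg f t' ≤ pav 1 (fun z => τ.avg f (ht z)) ((t₀ : ℂ) * Complex.I, 0) := by
    have h6 := LOW_pav_mono (r := 1) one_pos (f := fun _ => τ.avg f t')
      (g := fun z => τ.avg f (ht z)) (z := ((t₀ : ℂ) * Complex.I, 0)) continuous_const
      (hac.comp (Complex.continuous_im.comp continuous_fst)) ?_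
    · rwa [LOW_pav_const one_pos] at h6
    · intro a ha
      refine hmin ?_
      have h7 : ht (((t₀ : ℂ) * Complex.I, (0 : ℂ)) + a) = t₀ + ht a := by
        simp [ht]
      rw [h7]
      have h8 := abs_le.mp (LOW_ht_P ha)
      constructor <;> linarith [h8.1, h8.2]
  refine ⟨t', abs_le.mpr ⟨by linarith [ht'.1], by linarith [ht'.2]⟩, ?_⟩
  have h6 : τ.avg f t' = κ - τ.avg u t' := by
    have := LOW_avg_sub τ (f := fun _ => κ) (g := u) continuous_const huc t'
    rw [LOW_avg_const] at this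
    exact this
  have hR4 : 0 ≤ R ^ 4 := by positivity
  have h7 : R ^ 4 * pav R f z ≤ R ^ 4 * (κ * R ^ 2 + κ + G) := mul_le_mul_of_nonneg_left h1 hR4
  have h8 : R ^ 4 * (κ * R ^ 2 + κ + G) ≤ R ^ 4 * (1 + R ^ 2) * (G + κ) := by
    rw [mul_assoc]
    refine mul_le_mul_of_nonneg_left ?_ hR4
    nlinarith [mul_nonneg (sq_nonneg R) hG]
  linarith

private theorem LOW_two : ((1 : WithTop ℕ∞) + 1) ≤ ((⊤ : ℕ∞) : WithTop ℕ∞) := by
  have h : ((1 + 1 : ℕ∞) : WithTop ℕ∞) ≤ ((⊤ : ℕ∞) : WithTop ℕ∞) := WithTop.coe_le_coe.mpr le_top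
  exact h

private theorem LOW_lev {u : ℂ × ℂ → ℝ} (hu : ContDiff ℝ (⊤ : ℕ∞) u) (hN : St_NSQ) (κ : ℝ)
    (v z : ℂ × ℂ) : lev (plus κ u) v z = lev u v z + 4 * κ * nsq v := by
  have hd2 : ∀ v w z : ℂ × ℂ, d2 (plus κ u) v w z = d2 u v w z + κ * d2 nsq v w z := by
    intro v w z
    have hu1 : Differentiable ℝ u := hu.differentiable (by simp)
    have hq1 : Differentiable ℝ nsq := hN.1.differentiable (by simp)
    have h1 : (fun z => fderiv ℝ (plus κ u) z v) =
        fun z => fderiv ℝ u z v + κ * fderiv ℝ nsq z v := by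
      funext z
      have h2 : fderiv ℝ (plus κ u) z = fderiv ℝ u z + κ • fderiv ℝ nsq z := by
        unfold plus
        exact ((hu1 z).hasFDerivAt.add ((hq1 z).hasFDerivAt.const_mul κ)).fderiv
      rw [h2]
      rfl
    have hu2 : Differentiable ℝ (fun z => fderiv ℝ u z v) := by
      have h3 : ContDiff ℝ 1 (fderiv ℝ u) := hu.fderiv_right (m := 1) LOW_two
      exact (h3.clm_apply contDiff_const).differentiable (by simp)
    have hq2 : Differentiable ℝ (fun z => fderiv ℝ nsq z v) := by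
      have h3 : ContDiff ℝ 1 (fderiv ℝ nsq) :=
        hN.1.fderiv_right (m := 1) LOW_two
      exact (h3.clm_apply contDiff_const).differentiable (by simp)
    have h4 : fderiv ℝ (fun z => fderiv ℝ u z v + κ * fderiv ℝ nsq z v) z =
        fderiv ℝ (fun z => fderiv ℝ u z v) z + κ • fderiv ℝ (fun z => fderiv ℝ nsq z v) z :=
      ((hu2 z).hasFDerivAt.add ((hq2 z).hasFDerivAt.const_mul κ)).fderiv
    unfold d2
    rw [h1, h4]
    rfl
  have h := hN.2.1 v z
  unfold lev at h ⊢
  rw [hd2, hd2]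
  linarith [congrArg (fun x => κ * x) h]

private theorem LOW_lev_cont {u : ℂ × ℂ → ℝ} (hu : ContDiff ℝ (⊤ : ℕ∞) u) (v : ℂ × ℂ) :
    Continuous (lev u v) := by
  have hd2 : ∀ v w : ℂ × ℂ, Continuous (d2 u v w) := by
    intro v w
    have h3 : ContDiff ℝ 1 (fderiv ℝ u) := hu.fderiv_right (m := 1) LOW_two
    have h4 : ContDiff ℝ 1 (fun z => fderiv ℝ u z v) := h3.clm_apply contDiff_const
    have h5 : Continuous (fderiv ℝ (fun z => fderiv ℝ u z v)) := h4.continuous_fderiv (by simp)
    exact h5.clm_apply continuous_const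
  exact (hd2 v v).add (hd2 (mi v) (mi v))

private theorem LOW_convex (hM : St_MEAN τ) (hN : St_NSQ) {κ : ℝ} {u : ℂ × ℂ → ℝ}
    (hper : τ.Per u) (hu : ContDiff ℝ (⊤ : ℕ∞) u) (hpsh : Psh ⊤ (plus κ u)) :
    ConvexOn ℝ Set.univ (fun t => τ.avg u t + 2 * κ * t ^ 2) := by
  have hu2 : ContDiff ℝ 2 u := hu.of_le (by rw [← one_add_one_eq_two]; exact LOW_two)
  obtain ⟨h1, h2, h3, -⟩ := hM.2 u hper hu2
  have hd1 : Differentiable ℝ (τ.avg u) := h1.differentiable (by simp)
  have hd2 : Differentiable ℝ (deriv (τ.avg u)) := by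
    have h4 : ContDiff ℝ 1 (deriv (τ.avg u)) := by
      have : ContDiff ℝ (1 + 1) (τ.avg u) := by
        have h5 : (1 : WithTop ℕ∞) + 1 = 2 := one_add_one_eq_two
        rwa [h5]
      exact (contDiff_succ_iff_deriv.mp this).2.2
    exact h4.differentiable (by simp)
  have g1 : deriv (fun t => τ.avg u t + 2 * κ * t ^ 2) =
      fun t => deriv (τ.avg u) t + 4 * κ * t := by
    funext t
    have h5 : HasDerivAt (fun t : ℝ => 2 * κ * t ^ 2) (4 * κ * t) t := by
      have := ((hasDerivAt_pow 2 t).const_mul (2 * κ))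
      refine this.congr_deriv ?_
      push_cast
      ring
    exact ((hd1 t).hasDerivAt.add h5).deriv
  refine convexOn_of_deriv2_nonneg' convex_univ ?_ ?_ ?_
  · exact (hd1.add (by fun_prop)).differentiableOn
  · rw [g1]
    exact (hd2.add (by fun_prop)).differentiableOn
  · intro t _
    have g2 : deriv^[2] (fun t => τ.avg u t + 2 * κ * t ^ 2) t =
        deriv (deriv (τ.avg u)) t + 4 * κ := by
      show deriv (deriv (fun t => τ.avg u t + 2 * κ * t ^ 2)) t = _
      rw [g1]
      have h5 : HasDerivAt (fun t : ℝ => 4 * κ * t) (4 * κ) t := by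
        simpa using (hasDerivAt_id t).const_mul (4 * κ)
      exact ((hd2 t).hasDerivAt.add h5).deriv
    rw [g2, h3 t]
    have h6 : ∀ z, -(4 * κ) ≤ lev u e1 z := by
      intro z
      have h7 := hpsh.2 z e1
      rw [LOW_lev hu hN κ e1 z] at h7
      have h8 : nsq e1 = 1 := by simp [nsq, e1]
      rw [h8] at h7
      linarith
    have h9 : Continuous (lev u e1) := LOW_lev_cont hu e1
    have h10 := LOW_avg_mono τ (f := fun _ => -(4 * κ)) (g := lev u e1) continuous_const h9 t
      fun x _ => h6 _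
    rw [LOW_avg_const] at h10
    linarith

/-- three points of a convex function -/
private theorem LOW_three {N : ℝ → ℝ} (hN : ConvexOn ℝ Set.univ N) {x s y : ℝ} (h1 : x ≤ s)
    (h2 : s ≤ y) : (y - x) * N s ≤ (y - s) * N x + (s - x) * N y := by
  rcases eq_or_lt_of_le (h1.trans h2) with h3 | h3
  · have h4 : s = x := le_antisymm (by linarith) h1
    subst h4
    rw [← h3]
    simp
  · have h4 : 0 < y - x := by linarith
    have h5 := hN.2 (Set.mem_univ x) (Set.mem_univ y)
      (div_nonneg (by linarith : (0 : ℝ) ≤ y - s) h4.le)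
      (div_nonneg (by linarith : (0 : ℝ) ≤ s - x) h4.le) (by field_simp; ring)
    have h6 : ((y - s) / (y - x)) • x + ((s - x) / (y - x)) • y = s := by
      simp only [smul_eq_mul]
      field_simp
      ring
    rw [h6] at h5
    have h7 := mul_le_mul_of_nonneg_left h5 h4.le
    simp only [smul_eq_mul] at h7
    have h8 : (y - x) * ((y - s) / (y - x) * N x + (s - x) / (y - x) * N y) =
        (y - s) * N x + (s - x) * N y := by
      field_simp
    linarith

theorem thm_LOW (hS : St_SUB) (hA : St_PAV τ) (hM : St_MEAN τ) (hN : St_NSQ) : St_LOW τ := by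
  set R := LOW_R τ + 1 with hR
  have hR1 : 1 ≤ R := by linarith [LOW_R_nonneg τ]
  set C₁ := R ^ 4 * (1 + R ^ 2) with hC₁
  have hC₁0 : 0 ≤ C₁ := by positivity
  refine ⟨3 * (C₁ + 3) + 2, max 32 (2 * R), by positivity, by positivity, ?_⟩
  intro κ Y G u z₀ hκ hY hG hper hu hpsh hle hz₀ hGz
  have hY32 : 32 ≤ Y := (le_max_left _ _).trans hY
  have hY2 : 2 * R ≤ Y := (le_max_right _ _).trans hY
  obtain ⟨t', ht', hlow⟩ := LOW_first τ hS hA hM hN hκ hY2 hG hper hu hpsh hle hz₀ hGz
  have ht'' : |t'| ≤ Y / 16 := by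
    have h1 : |t'| ≤ |t' - ht z₀| + |ht z₀| := by
      have := abs_add_le (t' - ht z₀) (ht z₀)
      rwa [sub_add_cancel] at this
    linarith
  have hGκ : 0 ≤ G + κ := by linarith
  refine ⟨⟨t', ht'', ?_⟩, ?_⟩
  · have : C₁ * (G + κ) ≤ (3 * (C₁ + 3) + 2) * (G + κ) :=
      mul_le_mul_of_nonneg_right (by linarith) hGκ
    linarith
  · intro t ht
    have hconv := LOW_convex τ hM hN hper hu hpsh
    have huc : Continuous u := hu.continuous
    set N : ℝ → ℝ := fun t => τ.avg u t + 2 * κ * t ^ 2 with hNdef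
    have hNt' : -(C₁ * (G + κ)) ≤ N t' := by
      have : 0 ≤ 2 * κ * t' ^ 2 := by positivity
      show _ ≤ τ.avg u t' + 2 * κ * t' ^ 2
      linarith
    have hNB : ∀ s, |s| = Y → N s ≤ κ + 2 * κ * Y ^ 2 := by
      intro s hs
      have h1 : τ.avg u s ≤ κ := by
        have h2 := LOW_avg_mono τ (f := u) (g := fun _ => κ) huc continuous_const s
          fun x _ => hle _ (by rw [LOW_ht_pt]; exact hs.le)
        rwa [LOW_avg_const] at h2
      have h2 : s ^ 2 = Y ^ 2 := by rw [← hs, sq_abs]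
      show τ.avg u s + 2 * κ * s ^ 2 ≤ _
      rw [h2]
      linarith
    have hY0 : 0 < Y := by linarith
    have hB0 : 0 ≤ κ + 2 * κ * Y ^ 2 := by positivity
    have hX0 : 0 ≤ C₁ * (G + κ) := mul_nonneg hC₁0 hGκ
    have ht1 := (abs_le.mp ht'').1
    have ht2 := (abs_le.mp ht'').2
    have hYY : |Y| = Y := abs_of_pos hY0
    have hYm : |(-Y)| = Y := by rw [abs_neg, hYY]
    have key : -(32 / 15 * (C₁ * (G + κ) + (κ + 2 * κ * Y ^ 2))) ≤ N t := by
      generalize C₁ * (G + κ) = X at hNt' hX0 ⊢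
      generalize κ + 2 * κ * Y ^ 2 = B at hNB hB0 ⊢
      generalize N = N at hNB hNt' hconv ⊢
      by_contra hneg
      push Not at hneg
      have hNneg : N t < 0 := by
        have : 0 ≤ 32 / 15 * (X + B) := by positivity
        linarith
      have h13 := mul_lt_mul_of_pos_left hneg hY0
      rcases le_total t' t with h | h
      · have h1 := LOW_three hconv (x := -Y) (s := t') (y := t) (by linarith) h
        have h2 := hNB (-Y) hYm
        have h3 : (t - -Y) * N t' ≥ -(2 * Y * X) := by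
          have h5 : 0 ≤ t - -Y := by linarith
          have h6 : t - -Y ≤ 2 * Y := by linarith [ht.2]
          have h8 := mul_le_mul_of_nonneg_left hNt' h5
          have h9 := mul_le_mul_of_nonneg_right h6 hX0
          linarith
        have h4 : (t - t') * N (-Y) ≤ 2 * Y * B := by
          have h5 : 0 ≤ t - t' := by linarith
          have h6 : t - t' ≤ 2 * Y := by linarith [ht.2]
          have h8 := mul_le_mul_of_nonneg_left h2 h5
          have h9 := mul_le_mul_of_nonneg_right h6 hB0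
          linarith
        have h7 : (t' - -Y) * N t ≤ 15 / 16 * Y * N t :=
          mul_le_mul_of_nonpos_right (by linarith) hNneg.le
        linarith
      · have h1 := LOW_three hconv (x := t) (s := t') (y := Y) h (by linarith)
        have h2 := hNB Y hYY
        have h3 : (Y - t) * N t' ≥ -(2 * Y * X) := by
          have h5 : 0 ≤ Y - t := by linarith [ht.2]
          have h6 : Y - t ≤ 2 * Y := by linarith [ht.1]
          have h8 := mul_le_mul_of_nonneg_left hNt' h5
          have h9 := mul_le_mul_of_nonneg_right h6 hX0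
          linarith
        have h4 : (t' - t) * N Y ≤ 2 * Y * B := by
          have h5 : 0 ≤ t' - t := by linarith
          have h6 : t' - t ≤ 2 * Y := by linarith [ht.1]
          have h8 := mul_le_mul_of_nonneg_left h2 h5
          have h9 := mul_le_mul_of_nonneg_right h6 hB0
          linarith
        have h7 : (Y - t') * N t ≤ 15 / 16 * Y * N t :=
          mul_le_mul_of_nonpos_right (by linarith) hNneg.le
        linarith
    have h8 : 2 * κ * t ^ 2 ≤ 2 * κ * Y ^ 2 := by
      have : t ^ 2 ≤ Y ^ 2 := sq_le_sq' (by linarith [ht.1]) ht.2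
      exact mul_le_mul_of_nonneg_left this (by linarith)
    have h9 : N t = τ.avg u t + 2 * κ * t ^ 2 := rfl
    have h10 : κ ≤ κ * Y ^ 2 := by
      have : 1 ≤ Y ^ 2 := by nlinarith
      nlinarith
    have h11 : C₁ * (G + κ) ≤ C₁ * (G + κ * Y ^ 2) :=
      mul_le_mul_of_nonneg_left (by linarith) hC₁0
    have h12 : 0 ≤ C₁ * (G + κ * Y ^ 2) := mul_nonneg hC₁0 (by positivity)
    have h13 : 0 ≤ κ * Y ^ 2 := by positivity
    have h14 : (3 * (C₁ + 3) + 2) * (G + κ * Y ^ 2) =
        3 * (C₁ * (G + κ * Y ^ 2)) + 11 * G + 11 * (κ * Y ^ 2) := by ring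
    rw [h14]
    linarith

end Pool.Agent.KT
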