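import Pool.Agent.KT.St

/-!
# KT: positivity of the mixed Monge-Ampere operator
-/

set_option autoImplicit false

open scoped BigOperators ComplexConjugate

namespace Pool.Agent.KT

private theorem MAP_d2 {f : ℂ × ℂ → ℝ} (hf : ContDiff ℝ ((2 : ℕ∞) : WithTop ℕ∞) f)
    (z v w : ℂ × ℂ) : d2 f v w z = fderiv ℝ (fderiv ℝ f) z w v := by
  have hd : DifferentiableAt ℝ (fderiv ℝ f) z := by
    have h1 : ContDiff ℝ 1 (fderiv ℝ f) := hf.fderiv_right (m := 1) (by norm_num)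
    exact h1.differentiable one_ne_zero z
  have h2 : HasFDerivAt (fun z => fderiv ℝ f z v)
      ((ContinuousLinearMap.apply ℝ ℝ v).comp (fderiv ℝ (fderiv ℝ f) z)) z :=
    (ContinuousLinearMap.apply ℝ ℝ v).hasFDerivAt.comp z hd.hasFDerivAt
  rw [d2, h2.fderiv]
  rfl

private theorem MAP_symm {f : ℂ × ℂ → ℝ} (hf : ContDiff ℝ ((2 : ℕ∞) : WithTop ℕ∞) f)
    (z v w : ℂ × ℂ) : fderiv ℝ (fderiv ℝ f) z w v = fderiv ℝ (fderiv ℝ f) z v w :=
  (hf.contDiffAt (x := z)).isSymmSndFDerivAt (by simp) w v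

/-- the Levi form at the vector `(s, p + i q)` -/
private theorem MAP_lev {f : ℂ × ℂ → ℝ} (hf : ContDiff ℝ ((2 : ℕ∞) : WithTop ℕ∞) f)
    (z : ℂ × ℂ) (s p q : ℝ) : lev f (s • e1 + p • e3 + q • e4) z =
      s ^ 2 * lev f e1 z + (p ^ 2 + q ^ 2) * lev f e3 z +
        2 * s * p * (d2 f e1 e3 z + d2 f e2 e4 z) +
        2 * s * q * (d2 f e1 e4 z - d2 f e2 e3 z) := by
  have m1 : mi e1 = e2 := by simp [mi, e1, e2]
  have m3 : mi e3 = e4 := by simp [mi, e3, e4]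
  have m : mi (s • e1 + p • e3 + q • e4) = s • e2 + p • e4 + (-q) • e3 := by
    refine Prod.ext ?_ ?_
    · simp [mi, e1, e2, e3, e4]
      ring
    · simp [mi, e1, e2, e3, e4]
      ring_nf
      rw [Complex.I_sq]
      ring
  rw [lev, lev, lev, m, m1, m3]
  simp only [MAP_d2 hf, map_add, map_smul, add_apply, smul_apply, smul_eq_mul]
  rw [MAP_symm hf z e3 e1, MAP_symm hf z e4 e1, MAP_symm hf z e4 e3, MAP_symm hf z e4 e2,
    MAP_symm hf z e3 e2]
  ring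

/-- Cauchy-Schwarz for the Levi form -/
private theorem MAP_cs {f : ℂ × ℂ → ℝ} (hf : Psh 2 f) (z : ℂ × ℂ) :
    (d2 f e1 e3 z + d2 f e2 e4 z) ^ 2 + (d2 f e1 e4 z - d2 f e2 e3 z) ^ 2 ≤
      lev f e1 z * lev f e3 z := by
  have h0 := hf.2 z e1
  have h1 := hf.2 z e3
  have h := fun s p q : ℝ => hf.2 z (s • e1 + p • e3 + q • e4)
  simp only [MAP_lev hf.1] at h
  generalize lev f e1 z = a at h0 h ⊢
  generalize lev f e3 z = d at h1 h ⊢
  generalize d2 f e1 e3 z + d2 f e2 e4 z = b at h ⊢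
  generalize d2 f e1 e4 z - d2 f e2 e3 z = c at h ⊢
  by_contra hlt
  push Not at hlt
  have hpos : 0 < b ^ 2 + c ^ 2 := lt_of_le_of_lt (mul_nonneg h0 h1) hlt
  rcases h1.eq_or_lt with hd | hd
  · have h2 := h 1 (-((a + 1) / (b ^ 2 + c ^ 2)) * b) (-((a + 1) / (b ^ 2 + c ^ 2)) * c)
    rw [← hd] at h2
    have h3 : 2 * 1 * (-((a + 1) / (b ^ 2 + c ^ 2)) * b) * b +
        2 * 1 * (-((a + 1) / (b ^ 2 + c ^ 2)) * c) * c = -(2 * (a + 1)) := by
      field_simp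
      ring
    nlinarith
  · have h2 := h d (-b) (-c)
    nlinarith

theorem thm_MAP : St_MAP := by
  intro f g hf hg z
  have hf1 := MAP_cs hf z
  have hg1 := MAP_cs hg z
  have a0 := hf.2 z e1
  have a1 := hf.2 z e3
  have a2 := hg.2 z e1
  have a3 := hg.2 z e3
  rw [ma]
  generalize lev f e1 z = a at *
  generalize lev f e3 z = d at *
  generalize d2 f e1 e3 z + d2 f e2 e4 z = b at *
  generalize d2 f e1 e4 z - d2 f e2 e3 z = c at *
  generalize lev g e1 z = a' at *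
  generalize lev g e3 z = d' at *
  generalize d2 g e1 e3 z + d2 g e2 e4 z = b' at *
  generalize d2 g e1 e4 z - d2 g e2 e3 z = c' at *
  have k1 : (b ^ 2 + c ^ 2) * (b' ^ 2 + c' ^ 2) ≤ (a * d) * (a' * d') :=
    mul_le_mul hf1 hg1 (by positivity) (by positivity)
  have k2 : (2 * (b * b' + c * c')) ^ 2 ≤ (a * d' + d * a') ^ 2 := by
    nlinarith [sq_nonneg (b * c' - c * b'), sq_nonneg (a * d' - d * a')]
  have k3 := (abs_le_of_sq_le_sq' k2 (by positivity)).2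
  linarith

end Pool.Agent.KT
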