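import Pool.Agent.KT.St

/-!
# KT, module MASS: the mass at the pole
-/

set_option autoImplicit false

open scoped BigOperators ComplexConjugate Topology
open MeasureTheory Filter

namespace Pool.Agent.KT

/-! ### calculus -/

theorem MASS_two_le : (2 : WithTop ℕ∞) ≤ (((⊤ : ℕ∞) : WithTop ℕ∞)) :=
  WithTop.coe_le_coe.mpr (le_top : (2 : ℕ∞) ≤ ⊤)

theorem MASS_d1_contDiff {f : ℂ × ℂ → ℝ} (hf : ContDiff ℝ 2 f) (v : ℂ × ℂ) :
    ContDiff ℝ 1 (fun z => fderiv ℝ f z v) := by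
  have h : ContDiff ℝ 1 (fderiv ℝ f) := hf.fderiv_right (by norm_num)
  exact h.clm_apply contDiff_const

theorem MASS_d2_continuous {f : ℂ × ℂ → ℝ} (hf : ContDiff ℝ 2 f) (v w : ℂ × ℂ) :
    Continuous (d2 f v w) := by
  have h := MASS_d1_contDiff hf v
  have h1 : Continuous (fderiv ℝ (fun z => fderiv ℝ f z v)) := h.continuous_fderiv (by norm_num)
  exact h1.clm_apply continuous_const

theorem MASS_lev_continuous {f : ℂ × ℂ → ℝ} (hf : ContDiff ℝ 2 f) (v : ℂ × ℂ) :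
    Continuous (lev f v) :=
  (MASS_d2_continuous hf v v).add (MASS_d2_continuous hf (mi v) (mi v))

theorem MASS_ma_continuous {f g : ℂ × ℂ → ℝ} (hf : ContDiff ℝ 2 f) (hg : ContDiff ℝ 2 g) :
    Continuous (ma f g) := by
  unfold ma
  have a1 := MASS_lev_continuous hf e1
  have a2 := MASS_lev_continuous hf e3
  have a3 := MASS_lev_continuous hg e1
  have a4 := MASS_lev_continuous hg e3
  have b1 := MASS_d2_continuous hf e1 e3
  have b2 := MASS_d2_continuous hf e2 e4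
  have b3 := MASS_d2_continuous hf e1 e4
  have b4 := MASS_d2_continuous hf e2 e3
  have c1 := MASS_d2_continuous hg e1 e3
  have c2 := MASS_d2_continuous hg e2 e4
  have c3 := MASS_d2_continuous hg e1 e4
  have c4 := MASS_d2_continuous hg e2 e3
  fun_prop

theorem MASS_d2_const_mul {f : ℂ × ℂ → ℝ} (hf : ContDiff ℝ 2 f) (c : ℝ) (v w z : ℂ × ℂ) :
    d2 (fun z => c * f z) v w z = c * d2 f v w z := by
  have hd : Differentiable ℝ f := hf.differentiable (by norm_num)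
  have hd1 : Differentiable ℝ (fun z => fderiv ℝ f z v) :=
    (MASS_d1_contDiff hf v).differentiable (by norm_num)
  unfold d2
  have e : (fun z => fderiv ℝ (fun z => c * f z) z v) = fun z => c * fderiv ℝ f z v := by
    funext z
    rw [fderiv_const_mul (hd z)]
    rfl
  rw [e, fderiv_const_mul (hd1 z)]
  rfl

theorem MASS_lev_const_mul {f : ℂ × ℂ → ℝ} (hf : ContDiff ℝ 2 f) (c : ℝ) (v z : ℂ × ℂ) :
    lev (fun z => c * f z) v z = c * lev f v z := by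
  unfold lev
  rw [MASS_d2_const_mul hf, MASS_d2_const_mul hf]
  ring

theorem MASS_ma_const_mul {f g : ℂ × ℂ → ℝ} (hg : ContDiff ℝ 2 g) (c : ℝ) (z : ℂ × ℂ) :
    ma f (fun z => c * g z) z = c * ma f g z := by
  unfold ma
  rw [MASS_lev_const_mul hg, MASS_lev_const_mul hg, MASS_d2_const_mul hg, MASS_d2_const_mul hg,
    MASS_d2_const_mul hg, MASS_d2_const_mul hg]
  ring

theorem MASS_d2_congr {f g : ℂ × ℂ → ℝ} {z : ℂ × ℂ} (h : f =ᶠ[𝓝 z] g) (v w : ℂ × ℂ) :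
    d2 f v w z = d2 g v w z := by
  unfold d2
  have h1 : (fun z => fderiv ℝ f z v) =ᶠ[𝓝 z] fun z => fderiv ℝ g z v := by
    have h2 : fderiv ℝ f =ᶠ[𝓝 z] fderiv ℝ g := h.fderiv
    filter_upwards [h2] with y hy
    rw [hy]
  rw [h1.fderiv_eq]

theorem MASS_ma_congr {f g g' : ℂ × ℂ → ℝ} {z : ℂ × ℂ} (h : g =ᶠ[𝓝 z] g') :
    ma f g z = ma f g' z := by
  unfold ma lev
  simp only [MASS_d2_congr h]

/-- second derivatives do not see affine functions -/
theorem MASS_d2_shift {f : ℂ × ℂ → ℝ} (hf : ContDiff ℝ 2 f) {γ : ℂ × ℂ} (l : (ℂ × ℂ) →L[ℝ] ℝ) (c : ℝ)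
    (h : ∀ z, f (z + γ) = f z + l z + c) (v w z : ℂ × ℂ) : d2 f v w (z + γ) = d2 f v w z := by
  have hd : Differentiable ℝ f := hf.differentiable (by norm_num)
  have h1 : ∀ y, fderiv ℝ f (y + γ) = fderiv ℝ f y + l := by
    intro y
    rw [← fderiv_comp_add_right (𝕜 := ℝ) (f := f) γ]
    have e : (fun z => f (z + γ)) = fun z => f z + l z + c := funext h
    rw [e, fderiv_add_const, fderiv_fun_add (hd y) l.differentiableAt, l.fderiv]
  unfold d2
  rw [← fderiv_comp_add_right (𝕜 := ℝ) (f := fun z => fderiv ℝ f z v) γ]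
  have e : (fun x => fderiv ℝ f (x + γ) v) = fun x => fderiv ℝ f x v + l v := by
    funext x
    rw [h1]
    rfl
  rw [e, fderiv_add_const]

/-! ### quasi-periodic functions -/

theorem MASS_nsq_nonneg (z : ℂ × ℂ) : 0 ≤ nsq z := by unfold nsq; positivity

theorem MASS_nsq_add (z w : ℂ × ℂ) : nsq (z + w) = nsq z + 2 * (ip z w).re + nsq w := by
  unfold nsq ip
  simp only [Prod.fst_add, Prod.snd_add, Complex.sq_norm, Complex.normSq_apply, Complex.add_re,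
    Complex.add_im, Complex.mul_re, Complex.conj_re, Complex.conj_im]
  ring

/-- the real linear form `2 Re <z, w>` -/
noncomputable def MASS_lin (c : ℝ) (w : ℂ × ℂ) : (ℂ × ℂ) →L[ℝ] ℝ :=
  LinearMap.toContinuousLinearMap
    { toFun := fun z => c * (2 * (ip z w).re)
      map_add' := by
        intro x y
        unfold ip
        simp only [Prod.fst_add, Prod.snd_add, Complex.add_re, Complex.mul_re, Complex.add_im,
          Complex.conj_re, Complex.conj_im]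
        ring
      map_smul' := by
        intro r x
        unfold ip
        simp only [Prod.smul_fst, Prod.smul_snd, Complex.add_re, Complex.mul_re, Complex.conj_re,
          Complex.conj_im, Complex.real_smul, Complex.ofReal_re, Complex.ofReal_im, Complex.mul_im,
          smul_eq_mul, RingHom.id_apply]
        ring }

theorem MASS_lin_apply (c : ℝ) (w z : ℂ × ℂ) : MASS_lin c w z = c * (2 * (ip z w).re) := rfl

theorem MASS_sec {τ : Tor} {κ : ℝ} {F : ℂ × ℂ → ℂ} (hF : τ.Sec κ F) (z : ℂ × ℂ) (i : Fin 3) :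
    ‖F (z + τ.γ i)‖ ^ 2 = Real.exp (2 * κ * (nsq (z + τ.γ i) - nsq z)) * ‖F z‖ ^ 2 := by
  obtain ⟨c, hc, h⟩ := hF.quasi i
  rw [h z, norm_mul, norm_mul, hc, one_mul, Complex.norm_exp, mul_pow, ← Real.exp_nat_mul]
  congr 2
  rw [MASS_nsq_add]
  have e : ((2 : ℂ) * κ * (ip z (τ.γ i) + nsq (τ.γ i) / 2)).re =
      2 * κ * ((ip z (τ.γ i)).re + nsq (τ.γ i) / 2) := by
    have e1 : ((2 : ℂ) * κ * (ip z (τ.γ i) + nsq (τ.γ i) / 2)) =
        ((2 * κ : ℝ) : ℂ) * (ip z (τ.γ i) + ((nsq (τ.γ i) / 2 : ℝ) : ℂ)) := by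
      push_cast
      ring
    rw [e1, Complex.re_ofReal_mul, Complex.add_re, Complex.ofReal_re]
  rw [e]
  push_cast
  ring

theorem MASS_arg_pos {ι : Type} [Fintype ι] (f : ι → ℂ × ℂ → ℂ) (κ η : ℝ) (hη : 0 < η) (z : ℂ × ℂ) :
    0 < ∑ j, ‖f j z‖ ^ 2 + η ^ 2 * Real.exp (2 * κ * nsq z) := by
  have h1 : 0 ≤ ∑ j, ‖f j z‖ ^ 2 := Finset.sum_nonneg fun j _ => by positivity
  have h2 : 0 < η ^ 2 * Real.exp (2 * κ * nsq z) := by positivity
  linarith

theorem MASS_lgs_shift {τ : Tor} {ι : Type} [Fintype ι] {f : ι → ℂ × ℂ → ℂ} {κ η : ℝ}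
    (hf : ∀ j, τ.Sec κ (f j)) (hη : 0 < η) (z : ℂ × ℂ) (i : Fin 3) :
    lgs f κ η (z + τ.γ i) = lgs f κ η z + 2 * κ * (nsq (z + τ.γ i) - nsq z) := by
  unfold lgs
  have e : ∑ j, ‖f j (z + τ.γ i)‖ ^ 2 + η ^ 2 * Real.exp (2 * κ * nsq (z + τ.γ i)) =
      Real.exp (2 * κ * (nsq (z + τ.γ i) - nsq z)) *
        (∑ j, ‖f j z‖ ^ 2 + η ^ 2 * Real.exp (2 * κ * nsq z)) := by
    rw [mul_add, Finset.mul_sum]
    congr 1
    · exact Finset.sum_congr rfl fun j _ => MASS_sec (hf j) z i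
    · have : Real.exp (2 * κ * nsq (z + τ.γ i)) =
          Real.exp (2 * κ * (nsq (z + τ.γ i) - nsq z)) * Real.exp (2 * κ * nsq z) := by
        rw [← Real.exp_add]
        congr 1
        ring
      rw [this]
      ring
  rw [e, Real.log_mul (Real.exp_pos _).ne' (MASS_arg_pos f κ η hη z).ne', Real.log_exp]
  ring

theorem MASS_uu_eq (F : ℂ × ℂ → ℂ) (κ η : ℝ) :
    uu F κ η = fun z => 1 / 2 * lgs (fun _ : Unit => F) κ η z := by
  funext z
  unfold uu lgs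
  simp

theorem MASS_psh_const_mul {n : ℕ∞} (hn : (2 : WithTop ℕ∞) ≤ (n : WithTop ℕ∞)) {f : ℂ × ℂ → ℝ} (hf : Psh n f)
    {c : ℝ} (hc : 0 ≤ c) : Psh n (fun z => c * f z) := by
  refine ⟨contDiff_const.mul hf.1, fun z v => ?_⟩
  rw [MASS_lev_const_mul (hf.1.of_le hn)]
  exact mul_nonneg hc (hf.2 z v)

theorem MASS_psh_two {f : ℂ × ℂ → ℝ} (hf : Psh ⊤ f) : Psh 2 f :=
  ⟨hf.1.of_le (by exact_mod_cast (le_top : (2 : ℕ∞) ≤ ⊤)), hf.2⟩

theorem MASS_norm_le {z : ℂ × ℂ} {r : ℝ} (hr : 0 ≤ r) (h : nsq z ≤ r ^ 2) : ‖z‖ ≤ r := by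
  unfold nsq at h
  rw [Prod.norm_def]
  refine max_le ?_ ?_
  · exact abs_le_of_sq_le_sq' (by nlinarith [sq_nonneg ‖z.2‖]) hr |>.2
  · exact abs_le_of_sq_le_sq' (by nlinarith [sq_nonneg ‖z.1‖]) hr |>.2

theorem MASS_nsq_smul (t : ℝ) (z : ℂ × ℂ) : nsq (t • z) = t ^ 2 * nsq z := by
  unfold nsq
  rw [Prod.smul_fst, Prod.smul_snd, norm_smul, norm_smul, mul_pow, mul_pow, Real.norm_eq_abs, sq_abs]
  ring

theorem MASS_nsq_zero : nsq 0 = 0 := by unfold nsq; simp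

/-- an equality on the open ball extends to the closed ball -/
theorem MASS_closed {g h : ℂ × ℂ → ℝ} (hg : Continuous g) (hh : Continuous h) {r : ℝ} (hr : 0 < r)
    (he : ∀ z, nsq z < r ^ 2 → g z = h z) : ∀ z, nsq z ≤ r ^ 2 → g z = h z := by
  intro z hz
  have h1 : Tendsto (fun t : ℝ => g (t • z)) (𝓝[<] 1) (𝓝 (g z)) := by
    have : Tendsto (fun t : ℝ => g (t • z)) (𝓝 1) (𝓝 (g ((1 : ℝ) • z))) :=
      (hg.comp (continuous_id.smul continuous_const)).tendsto 1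
    rw [one_smul] at this
    exact this.mono_left nhdsWithin_le_nhds
  have h2 : Tendsto (fun t : ℝ => h (t • z)) (𝓝[<] 1) (𝓝 (h z)) := by
    have : Tendsto (fun t : ℝ => h (t • z)) (𝓝 1) (𝓝 (h ((1 : ℝ) • z))) :=
      (hh.comp (continuous_id.smul continuous_const)).tendsto 1
    rw [one_smul] at this
    exact this.mono_left nhdsWithin_le_nhds
  have h3 : (fun t : ℝ => g (t • z)) =ᶠ[𝓝[<] 1] fun t : ℝ => h (t • z) := by
    have h4 : Set.Ioo (0 : ℝ) 1 ∈ 𝓝[<] (1 : ℝ) := Ioo_mem_nhdsLT (by norm_num)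
    filter_upwards [h4] with t ht
    apply he
    rw [MASS_nsq_smul]
    have h5 : t ^ 2 < 1 := by nlinarith [ht.1, ht.2]
    have h6 := MASS_nsq_nonneg z
    have h7 : 0 < r ^ 2 := by positivity
    calc t ^ 2 * nsq z ≤ t ^ 2 * r ^ 2 := mul_le_mul_of_nonneg_left hz (sq_nonneg t)
      _ < 1 * r ^ 2 := mul_lt_mul_of_pos_right h5 h7
      _ = r ^ 2 := one_mul _
  exact tendsto_nhds_unique h1 (h2.congr' h3.symm)

/-- **MASS**: the mass at the pole -/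
theorem thm_MASS (τ : Tor) (hG : St_GLUE τ) (hR : St_RAD) (hB : St_BALL τ) (hM : St_MAP)
    (hL : St_LOG) (hN : St_NSQ) : St_MASS τ := by
  intro κ T T' T'' ε F ι _ f hκ hT hT'' hTT hε hF hF0 hV hf hfV hiso
  obtain ⟨rG, hrG, hglue⟩ := hG
  obtain ⟨hvol, rB, hrB, hball⟩ := hB
  have hnsq : ContDiff ℝ (⊤ : ℕ∞) nsq := hN.1
  have hnc : Continuous nsq := hnsq.continuous
  have hfc : ∀ j, Continuous (f j) := fun j => (hf j).entire.continuous
  have hT' : 0 < T' := hT''.trans hTT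
  -- the radii
  rw [eventually_nhdsWithin_iff, Metric.eventually_nhds_iff] at hiso
  obtain ⟨ρ, hρ, hiso⟩ := hiso
  obtain ⟨r₃, hr₃⟩ : ∃ r₃, r₃ = min rG (ρ / 2) := ⟨_, rfl⟩
  have hr₃0 : 0 < r₃ := by rw [hr₃]; exact lt_min hrG (by linarith)
  have hr₃G : r₃ ≤ rG := by rw [hr₃]; exact min_le_left _ _
  have hr₃ρ : r₃ < ρ := by
    have : r₃ ≤ ρ / 2 := by rw [hr₃]; exact min_le_right _ _
    linarith
  obtain ⟨r₂, hr₂⟩ : ∃ r₂, r₂ = r₃ / 2 := ⟨_, rfl⟩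
  have hr₂0 : 0 < r₂ := by rw [hr₂]; linarith
  have hr₂₃ : r₂ < r₃ := by rw [hr₂]; linarith
  -- the annulus
  have hA : IsCompact {z : ℂ × ℂ | r₂ ^ 2 ≤ nsq z ∧ nsq z ≤ r₃ ^ 2} := by
    apply Metric.isCompact_of_isClosed_isBounded
    · exact (isClosed_le continuous_const hnc).inter (isClosed_le hnc continuous_const)
    · refine (Metric.isBounded_closedBall (x := (0 : ℂ × ℂ)) (r := r₃)).subset fun z hz => ?_
      rw [mem_closedBall_zero_iff]
      exact MASS_norm_le hr₃0.le hz.2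
  have hPc : Continuous (fun z => ∑ j, ‖f j z‖ ^ 2) :=
    continuous_finsetSum _ fun j _ => (hfc j).norm.pow 2
  obtain ⟨m, hm0, hm⟩ := hA.exists_forall_le' (f := fun z => ∑ j, ‖f j z‖ ^ 2) (a := 0)
    hPc.continuousOn (by
      intro z hz
      have hz0 : z ≠ 0 := by
        intro h
        have h1 := hz.1
        rw [h, MASS_nsq_zero] at h1
        have : 0 < r₂ ^ 2 := by positivity
        linarith
      have hzd : dist z 0 < ρ := by
        rw [dist_zero_right]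
        exact (MASS_norm_le hr₃0.le hz.2).trans_lt hr₃ρ
      obtain ⟨j, hj⟩ := hiso hzd hz0
      exact Finset.sum_pos' (fun i _ => by positivity) ⟨j, Finset.mem_univ j, by positivity⟩)
  obtain ⟨N, hNdef⟩ : ∃ N : ℝ, N = T'' / 2 * Real.log (r₃ ^ 2 + 1) + 1 - 1 / 4 * Real.log m := ⟨_, rfl⟩
  -- vanishing at the origin
  choose K hK0 hK using hfV
  have hKall : ∀ᶠ z in 𝓝[≠] (0 : ℂ × ℂ), ∀ j, ‖f j z‖ ≤ K j * nsq z ^ (2 * T' / 2) :=
    eventually_all.mpr hK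
  rw [eventually_nhdsWithin_iff, Metric.eventually_nhds_iff] at hKall
  obtain ⟨ρ', hρ', hKρ⟩ := hKall
  have hf0 : ∀ j, ‖f j 0‖ ≤ K j * nsq 0 ^ (2 * T' / 2) := by
    intro j
    have c1 : Tendsto (fun z => ‖f j z‖) (𝓝[≠] (0 : ℂ × ℂ)) (𝓝 ‖f j 0‖) :=
      ((hfc j).norm.tendsto 0).mono_left nhdsWithin_le_nhds
    have c2 : Continuous (fun z => K j * nsq z ^ (2 * T' / 2)) :=
      continuous_const.mul (hnc.rpow_const fun z => Or.inr (by linarith))
    have c3 : Tendsto (fun z => K j * nsq z ^ (2 * T' / 2)) (𝓝[≠] (0 : ℂ × ℂ))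
        (𝓝 (K j * nsq 0 ^ (2 * T' / 2))) := (c2.tendsto 0).mono_left nhdsWithin_le_nhds
    exact le_of_tendsto_of_tendsto c1 c3 (hK j)
  obtain ⟨KK, hKK⟩ : ∃ KK : ℝ, KK = ∑ j, K j ^ 2 := ⟨_, rfl⟩
  have hKK0 : 0 ≤ KK := by rw [hKK]; exact Finset.sum_nonneg fun j _ => sq_nonneg _
  have hsum : ∀ z : ℂ × ℂ, ‖z‖ < ρ' → ∑ j, ‖f j z‖ ^ 2 ≤ KK * nsq z ^ (2 * T') := by
    intro z hz
    rw [hKK, Finset.sum_mul]
    refine Finset.sum_le_sum fun j _ => ?_
    have h1 : ‖f j z‖ ≤ K j * nsq z ^ (2 * T' / 2) := by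
      by_cases hz0 : z = 0
      · rw [hz0]; exact hf0 j
      · exact hKρ (by rwa [dist_zero_right]) hz0 j
    have h2 : (K j * nsq z ^ (2 * T' / 2)) ^ 2 = K j ^ 2 * nsq z ^ (2 * T') := by
      rw [mul_pow, ← Real.rpow_mul_natCast (MASS_nsq_nonneg z)]
      congr 2
      push_cast
      ring
    rw [← h2]
    exact pow_le_pow_left₀ (norm_nonneg _) h1 2
  -- the choice of the small radius
  obtain ⟨q, hq⟩ : ∃ q : ℝ, q = 1 / 2 * Real.exp (-(4 * (N + 1))) := ⟨_, rfl⟩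
  have hq0 : 0 < q := by rw [hq]; positivity
  obtain ⟨r₁, hr₁0, hr₁min, hr₁q⟩ : ∃ r₁ : ℝ, 0 < r₁ ∧ r₁ < min r₂ (min ρ' rB) ∧
      KK * (r₁ ^ 2) ^ (2 * (T' - T'')) < q := by
    have c1 : Continuous (fun r : ℝ => KK * (r ^ 2) ^ (2 * (T' - T''))) :=
      continuous_const.mul ((continuous_id.pow 2).rpow_const fun r => Or.inr (by linarith))
    have c2 : ∀ᶠ r in 𝓝 (0 : ℝ), KK * (r ^ 2) ^ (2 * (T' - T'')) < q := by
      have h0 : KK * ((0 : ℝ) ^ 2) ^ (2 * (T' - T'')) < q := by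
        have : ((0 : ℝ) ^ 2) ^ (2 * (T' - T'')) = 0 := by
          rw [zero_pow two_ne_zero]
          exact Real.zero_rpow (by linarith)
        rw [this, mul_zero]
        exact hq0
      exact (c1.tendsto 0).eventually_lt_const h0
    have c3 : Set.Ioo (0 : ℝ) (min r₂ (min ρ' rB)) ∈ 𝓝[>] (0 : ℝ) :=
      Ioo_mem_nhdsGT (lt_min hr₂0 (lt_min hρ' hrB))
    obtain ⟨r, h1, h2⟩ := ((c2.filter_mono nhdsWithin_le_nhds).and c3).exists
    exact ⟨r, h2.1, h2.2, h1⟩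
  have hr₁₂ : r₁ < r₂ := hr₁min.trans_le (min_le_left _ _)
  have hr₁ρ : r₁ < ρ' := hr₁min.trans_le ((min_le_right _ _).trans (min_le_left _ _))
  have hr₁B : r₁ < rB := hr₁min.trans_le ((min_le_right _ _).trans (min_le_right _ _))
  -- the local mass
  obtain ⟨η₀, hη₀, hrad⟩ := hR F κ T r₁ (ε / T'') hF.entire hF0 (by linarith) hT hV hr₁0
    (div_pos hε hT'')
  refine ⟨η₀, hη₀, fun η hη hηη => ?_⟩
  obtain ⟨δ₀, hδ₀, hrad⟩ := hrad η hη hηη
  obtain ⟨δ, hδdef⟩ : ∃ δ : ℝ, δ = min (δ₀ / 2) 1 := ⟨_, rfl⟩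
  have hδ : 0 < δ := by rw [hδdef]; exact lt_min (by linarith) one_pos
  have hδ1 : δ ≤ 1 := by rw [hδdef]; exact min_le_right _ _
  have hδδ : δ < δ₀ := by
    have : δ ≤ δ₀ / 2 := by rw [hδdef]; exact min_le_left _ _
    linarith
  have hmass := hrad δ hδ hδδ
  obtain ⟨X, hX⟩ : ∃ X : ℝ, X = q * (δ ^ 2) ^ (2 * T'') * Real.exp (-(4 * κ * r₁ ^ 2)) := ⟨_, rfl⟩
  have hX0 : 0 < X := by rw [hX]; positivity
  obtain ⟨η', hη'def⟩ : ∃ η' : ℝ, η' = min 1 (Real.sqrt X) := ⟨_, rfl⟩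
  have hη' : 0 < η' := by rw [hη'def]; exact lt_min one_pos (Real.sqrt_pos.mpr hX0)
  have hη'1 : η' ≤ 1 := by rw [hη'def]; exact min_le_left _ _
  have hη'X : η' ^ 2 ≤ X := by
    have h1 : η' ≤ Real.sqrt X := by rw [hη'def]; exact min_le_right _ _
    calc η' ^ 2 ≤ Real.sqrt X ^ 2 := pow_le_pow_left₀ hη'.le h1 2
      _ = X := Real.sq_sqrt hX0.le
  -- the function on the torus
  obtain ⟨w₀, hw₀⟩ : ∃ w₀ : ℂ × ℂ → ℝ, w₀ = fun z => 1 / 4 * lgs f (2 * κ) η' z - κ * nsq z := ⟨_, rfl⟩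
  have hplus : plus κ w₀ = fun z => 1 / 4 * lgs f (2 * κ) η' z := by
    funext z
    rw [hw₀]
    unfold plus
    ring
  have hlgs : Psh ⊤ (lgs f (2 * κ) η') :=
    hL ι f (2 * κ) η' (fun j => (hf j).entire) (by linarith) hη'
  have hpsh₀ : Psh ⊤ (plus κ w₀) := by
    rw [hplus]
    exact MASS_psh_const_mul MASS_two_le hlgs (by norm_num)
  have hsm₀ : ContDiff ℝ (⊤ : ℕ∞) w₀ := by
    rw [hw₀]
    exact (contDiff_const.mul hlgs.1).sub (contDiff_const.mul hnsq)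
  have hper₀ : τ.Per w₀ := by
    intro z i
    rw [hw₀]
    show 1 / 4 * lgs f (2 * κ) η' (z + τ.γ i) - κ * nsq (z + τ.γ i) =
      1 / 4 * lgs f (2 * κ) η' z - κ * nsq z
    rw [MASS_lgs_shift hf hη' z i]
    ring
  have hin : ∀ z, nsq z ≤ r₁ ^ 2 → plus κ w₀ z + N ≤ T'' * lpole δ z - 1 := by
    intro z hz
    rw [hplus]
    show 1 / 4 * lgs f (2 * κ) η' z + N ≤ T'' * lpole δ z - 1
    have hs0 := MASS_nsq_nonneg z
    have hδ2 : 0 < δ ^ 2 := by positivity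
    have hpos : 0 < nsq z + δ ^ 2 := by linarith
    have hzρ : ‖z‖ < ρ' := (MASS_norm_le hr₁0.le hz).trans_lt hr₁ρ
    have i1 : ∑ j, ‖f j z‖ ^ 2 ≤ q * (nsq z + δ ^ 2) ^ (2 * T'') := by
      have e1 : nsq z ^ (2 * T') = nsq z ^ (2 * (T' - T'')) * nsq z ^ (2 * T'') := by
        rw [← Real.rpow_add_of_nonneg hs0 (by linarith) (by linarith)]
        congr 1
        ring
      have e2 : nsq z ^ (2 * (T' - T'')) ≤ (r₁ ^ 2) ^ (2 * (T' - T'')) :=
        Real.rpow_le_rpow hs0 hz (by linarith)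
      have e3 : nsq z ^ (2 * T'') ≤ (nsq z + δ ^ 2) ^ (2 * T'') :=
        Real.rpow_le_rpow hs0 (by linarith) (by linarith)
      have e4 : 0 ≤ nsq z ^ (2 * T'') := Real.rpow_nonneg hs0 _
      calc ∑ j, ‖f j z‖ ^ 2 ≤ KK * nsq z ^ (2 * T') := hsum z hzρ
        _ = KK * nsq z ^ (2 * (T' - T'')) * nsq z ^ (2 * T'') := by rw [e1]; ring
        _ ≤ KK * (r₁ ^ 2) ^ (2 * (T' - T'')) * nsq z ^ (2 * T'') :=
            mul_le_mul_of_nonneg_right (mul_le_mul_of_nonneg_left e2 hKK0) e4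
        _ ≤ q * nsq z ^ (2 * T'') := mul_le_mul_of_nonneg_right hr₁q.le e4
        _ ≤ q * (nsq z + δ ^ 2) ^ (2 * T'') := mul_le_mul_of_nonneg_left e3 hq0.le
    have i2 : η' ^ 2 * Real.exp (2 * (2 * κ) * nsq z) ≤ q * (nsq z + δ ^ 2) ^ (2 * T'') := by
      have e1 : Real.exp (2 * (2 * κ) * nsq z) ≤ Real.exp (4 * κ * r₁ ^ 2) := by
        apply Real.exp_le_exp.mpr
        have := mul_le_mul_of_nonneg_left hz (show (0 : ℝ) ≤ 4 * κ by linarith)
        linarith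
      have e3 : (δ ^ 2) ^ (2 * T'') ≤ (nsq z + δ ^ 2) ^ (2 * T'') :=
        Real.rpow_le_rpow hδ2.le (by linarith) (by linarith)
      calc η' ^ 2 * Real.exp (2 * (2 * κ) * nsq z) ≤ X * Real.exp (4 * κ * r₁ ^ 2) :=
            mul_le_mul hη'X e1 (Real.exp_pos _).le hX0.le
        _ = q * (δ ^ 2) ^ (2 * T'') := by
            rw [hX, mul_assoc, ← Real.exp_add]
            simp
        _ ≤ q * (nsq z + δ ^ 2) ^ (2 * T'') := mul_le_mul_of_nonneg_left e3 hq0.le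
    have i3 : ∑ j, ‖f j z‖ ^ 2 + η' ^ 2 * Real.exp (2 * (2 * κ) * nsq z) ≤
        Real.exp (-(4 * (N + 1))) * (nsq z + δ ^ 2) ^ (2 * T'') := by
      have e : Real.exp (-(4 * (N + 1))) = q + q := by rw [hq]; ring
      rw [e, add_mul]
      exact add_le_add i1 i2
    have i4 : lgs f (2 * κ) η' z ≤ -(4 * (N + 1)) + 2 * T'' * Real.log (nsq z + δ ^ 2) := by
      unfold lgs
      refine (Real.log_le_log (MASS_arg_pos f (2 * κ) η' hη' z) i3).trans (le_of_eq ?_)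
      rw [Real.log_mul (Real.exp_pos _).ne' (Real.rpow_pos_of_pos hpos _).ne', Real.log_exp,
        Real.log_rpow hpos]
    unfold lpole
    linarith
  have hann : ∀ z, r₂ ^ 2 ≤ nsq z → nsq z ≤ r₃ ^ 2 → T'' * lpole δ z + 1 ≤ plus κ w₀ z + N := by
    intro z hz1 hz2
    rw [hplus]
    show T'' * lpole δ z + 1 ≤ 1 / 4 * lgs f (2 * κ) η' z + N
    have hs0 := MASS_nsq_nonneg z
    have i1 : Real.log m ≤ lgs f (2 * κ) η' z := by
      unfold lgs
      apply Real.log_le_log hm0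
      have h1 : m ≤ ∑ j, ‖f j z‖ ^ 2 := hm z ⟨hz1, hz2⟩
      have h2 : 0 ≤ η' ^ 2 * Real.exp (2 * (2 * κ) * nsq z) := by positivity
      linarith
    have i2 : Real.log (nsq z + δ ^ 2) ≤ Real.log (r₃ ^ 2 + 1) := by
      apply Real.log_le_log
      · positivity
      · have : δ ^ 2 ≤ 1 := by nlinarith
        linarith
    have i3 : T'' / 2 * Real.log (nsq z + δ ^ 2) ≤ T'' / 2 * Real.log (r₃ ^ 2 + 1) :=
      mul_le_mul_of_nonneg_left i2 (by linarith)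
    unfold lpole
    rw [hNdef]
    linarith
  obtain ⟨w, hwper, hwC, hwpsh, hwfar, hwnear⟩ := hglue κ T'' δ N r₁ r₂ r₃ w₀ (by linarith) hT''.le hδ
    hr₁0 hr₁₂ hr₂₃ hr₃G hper₀ hsm₀ hpsh₀ hin hann
  refine ⟨η', N, w, hη', hη'1, hwper, hwC, hwpsh, ?_, ?_⟩
  · intro z hz
    rw [hwfar z hz, hw₀]
  intro χ hχ hχc hχ0 hχ1
  -- the two potentials
  have huu : Psh ⊤ (uu F κ η) := by
    rw [MASS_uu_eq]
    exact MASS_psh_const_mul MASS_two_le
      (hL Unit (fun _ => F) κ η (fun _ => hF.entire) (by linarith) hη) (by norm_num)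
  have huu2 := MASS_psh_two huu
  have huuC : ContDiff ℝ 2 (uu F κ η) := huu2.1
  have hwpC : ContDiff ℝ 2 (plus κ w) := hwpsh.1
  have huushift : ∀ z i, uu F κ η (z + τ.γ i) =
      uu F κ η z + MASS_lin κ (τ.γ i) z + κ * nsq (τ.γ i) := by
    intro z i
    rw [MASS_uu_eq, MASS_lin_apply]
    show 1 / 2 * lgs (fun _ : Unit => F) κ η (z + τ.γ i) =
      1 / 2 * lgs (fun _ : Unit => F) κ η z + κ * (2 * (ip z (τ.γ i)).re) + κ * nsq (τ.γ i)
    rw [MASS_lgs_shift (fun _ => hF) hη z i, MASS_nsq_add]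
    ring
  have hwshift : ∀ z i, plus κ w (z + τ.γ i) =
      plus κ w z + MASS_lin κ (τ.γ i) z + κ * nsq (τ.γ i) := by
    intro z i
    rw [MASS_lin_apply]
    unfold plus
    rw [hwper z i, MASS_nsq_add]
    ring
  have hgc : Continuous (ma (uu F κ η) (plus κ w)) := MASS_ma_continuous huuC hwpC
  have hgper : τ.Per (ma (uu F κ η) (plus κ w)) := by
    intro z i
    have d1' := fun v v' => MASS_d2_shift huuC (MASS_lin κ (τ.γ i)) (κ * nsq (τ.γ i))
      (fun z => huushift z i) v v' z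
    have d2' := fun v v' => MASS_d2_shift hwpC (MASS_lin κ (τ.γ i)) (κ * nsq (τ.γ i))
      (fun z => hwshift z i) v v' z
    unfold ma lev
    simp only [d1', d2']
  have hg0 : ∀ z, 0 ≤ ma (uu F κ η) (plus κ w) z := hM _ _ huu2 hwpsh
  have hbl := hball (ma (uu F κ η) (plus κ w)) χ hgc hgper hg0 hχ.continuous hχc hχ0 hχ1 r₁ hr₁0
    hr₁B.le
  refine le_trans ?_ hbl
  -- near the origin
  have hlp : ContDiff ℝ 2 (lpole δ) := by
    unfold lpole
    have h1 : ContDiff ℝ 2 nsq := hnsq.of_le MASS_two_le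
    refine contDiff_const.mul ((h1.add contDiff_const).log fun z => ?_)
    have := MASS_nsq_nonneg z
    positivity
  have hmc : Continuous (fun z => T'' * ma (uu F κ η) (lpole δ) z) :=
    continuous_const.mul (MASS_ma_continuous huuC hlp)
  have heq : ∀ z, nsq z ≤ r₁ ^ 2 →
      ma (uu F κ η) (plus κ w) z = T'' * ma (uu F κ η) (lpole δ) z := by
    refine MASS_closed hgc hmc hr₁0 fun z hz => ?_
    have h1 : plus κ w =ᶠ[𝓝 z] fun z => T'' * lpole δ z := by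
      have h2 : {y : ℂ × ℂ | nsq y < r₁ ^ 2} ∈ 𝓝 z := (isOpen_lt hnc continuous_const).mem_nhds hz
      filter_upwards [h2] with y hy
      exact hwnear y (le_of_lt hy)
    rw [MASS_ma_congr h1, MASS_ma_const_mul hlp]
  have hms : MeasurableSet {z : ℂ × ℂ | nsq z ≤ r₁ ^ 2} :=
    (isClosed_le hnc continuous_const).measurableSet
  rw [setIntegral_congr_fun hms (fun z hz => heq z hz), integral_const_mul]
  have h1 := mul_le_mul_of_nonneg_left hmass hT''.le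
  have h2 : T'' * (4 * Real.pi ^ 2 * T - ε / T'') = 4 * Real.pi ^ 2 * T * T'' - ε := by
    field_simp
  rw [← h2]
  exact h1

end Pool.Agent.KT
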