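import Pool.Agent.KT.St

/-!
# KT, module MEAN: the mean value over the real torus as a function of the height
-/

set_option autoImplicit false

open scoped BigOperators ComplexConjugate Topology
open MeasureTheory

namespace Pool.Agent.KT

section

variable (τ : Tor)

/-- the linear part of `pt` -/
noncomputable def MEAN_L : (Fin 3 → ℝ) →L[ℝ] ℂ × ℂ :=
  ∑ i, (ContinuousLinearMap.proj i : (Fin 3 → ℝ) →L[ℝ] ℝ).smulRight (τ.γ i)

theorem MEAN_L_apply (x : Fin 3 → ℝ) : MEAN_L τ x = ∑ i, x i • τ.γ i := by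
  unfold MEAN_L
  rw [_root_.sum_apply]
  rfl

theorem MEAN_pt (t : ℝ) (x : Fin 3 → ℝ) : τ.pt t x = t • e2 + MEAN_L τ x := by
  rw [MEAN_L_apply]
  unfold Tor.pt e2
  have h1 : (((t : ℂ) * Complex.I, 0) : ℂ × ℂ) = t • (Complex.I, 0) := by
    ext <;> simp
  have h2 : ∀ i, (((x i : ℂ) * (τ.γ i).1, (x i : ℂ) * (τ.γ i).2) : ℂ × ℂ) = x i • τ.γ i := by
    intro i
    ext <;> simp
  rw [h1]
  simp only [h2]

theorem MEAN_cont : Continuous fun p : ℝ × (Fin 3 → ℝ) => τ.pt p.1 p.2 := by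
  have h : (fun p : ℝ × (Fin 3 → ℝ) => τ.pt p.1 p.2) = fun p => p.1 • e2 + MEAN_L τ p.2 := by
    funext p
    exact MEAN_pt τ p.1 p.2
  rw [h]
  exact (continuous_fst.smul continuous_const).add ((MEAN_L τ).continuous.comp continuous_snd)

theorem MEAN_cont' (t : ℝ) : Continuous (τ.pt t) :=
  (MEAN_cont τ).comp (continuous_const.prodMk continuous_id)

theorem MEAN_cube : IsCompact Tor.cube := isCompact_Icc

theorem MEAN_int {f : ℂ × ℂ → ℝ} (hf : Continuous f) (t : ℝ) :
    IntegrableOn (fun x => f (τ.pt t x)) Tor.cube :=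
  (hf.comp (MEAN_cont' τ t)).continuousOn.integrableOn_compact MEAN_cube

theorem MEAN_avg_cont {f : ℂ × ℂ → ℝ} (hf : Continuous f) : Continuous (τ.avg f) := by
  unfold Tor.avg
  exact continuous_parametric_integral_of_continuous (f := fun t x => f (τ.pt t x))
    (hf.comp (MEAN_cont τ)) MEAN_cube

theorem MEAN_d1_cont {g : ℂ × ℂ → ℝ} (hg : ContDiff ℝ 1 g) (v : ℂ × ℂ) :
    Continuous (d1 g v) := by
  unfold d1
  exact (hg.continuous_fderiv one_ne_zero).clm_apply continuous_const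

theorem MEAN_d1_c1 {g : ℂ × ℂ → ℝ} (hg : ContDiff ℝ 2 g) (v : ℂ × ℂ) :
    ContDiff ℝ 1 (d1 g v) := by
  unfold d1
  exact (hg.fderiv_right (m := 1) (by norm_num)).clm_apply contDiff_const

theorem MEAN_d1_per {g : ℂ × ℂ → ℝ} (hg : τ.Per g) (v : ℂ × ℂ) : τ.Per (d1 g v) := by
  intro z i
  unfold d1
  have h1 : (fun z => g (z + τ.γ i)) = g := by
    funext z
    exact hg z i
  have h2 := fderiv_comp_add_right (𝕜 := ℝ) (f := g) (x := z) (τ.γ i)
  rw [h1] at h2
  rw [← h2]

/-- derivative with respect to the height -/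
theorem MEAN_deriv {g : ℂ × ℂ → ℝ} (hg : ContDiff ℝ 1 g) (t₀ : ℝ) :
    HasDerivAt (τ.avg g) (τ.avg (d1 g e2) t₀) t₀ := by
  have hd := MEAN_d1_cont hg e2
  have hcont : Continuous fun p : ℝ × (Fin 3 → ℝ) => d1 g e2 (τ.pt p.1 p.2) :=
    hd.comp (MEAN_cont τ)
  obtain ⟨C, hC⟩ := ((isCompact_closedBall t₀ (1 : ℝ)).prod MEAN_cube).exists_bound_of_continuousOn
    hcont.continuousOn
  have h := hasDerivAt_integral_of_dominated_loc_of_deriv_le
    (μ := (volume : Measure (Fin 3 → ℝ)).restrict Tor.cube) (s := Metric.ball t₀ 1) (x₀ := t₀)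
    (F := fun t x => g (τ.pt t x)) (F' := fun t x => d1 g e2 (τ.pt t x)) (bound := fun _ => C)
    (Metric.ball_mem_nhds t₀ one_pos)
    (Filter.Eventually.of_forall fun t =>
      ((hg.continuous.comp (MEAN_cont' τ t)).aestronglyMeasurable))
    (MEAN_int τ hg.continuous t₀) ((hd.comp (MEAN_cont' τ t₀)).aestronglyMeasurable)
    ?_ ?_ ?_
  · exact h.2
  · refine (ae_restrict_iff' measurableSet_Icc).2 (Filter.Eventually.of_forall fun x hx t ht => ?_)
    exact hC (t, x) ⟨Metric.ball_subset_closedBall ht, hx⟩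
  · exact (continuousOn_const (c := C)).integrableOn_compact MEAN_cube
  · refine Filter.Eventually.of_forall fun x t _ => ?_
    have h1 : HasDerivAt (fun t : ℝ => τ.pt t x) e2 t := by
      have h2 : (fun t : ℝ => τ.pt t x) = fun t => t • e2 + MEAN_L τ x := by
        funext t
        exact MEAN_pt τ t x
      rw [h2]
      have h3 := ((hasDerivAt_id t).smul_const e2).add_const (MEAN_L τ x)
      rw [one_smul] at h3
      exact h3
    have h4 : HasFDerivAt g (fderiv ℝ g (τ.pt t x)) (τ.pt t x) :=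
      ((hg.differentiable one_ne_zero) _).hasFDerivAt
    exact h4.comp_hasDerivAt t h1

/-- means of derivatives in the directions of the periods -/
theorem MEAN_zero {g : ℂ × ℂ → ℝ} (hg : ContDiff ℝ 1 g) (hp : τ.Per g) (i : Fin 3) (t : ℝ) :
    τ.avg (d1 g (τ.γ i)) t = 0 := by
  classical
  have hd := MEAN_d1_cont hg (τ.γ i)
  have hG : ∀ x, HasFDerivAt (fun x => g (τ.pt t x))
      ((fderiv ℝ g (τ.pt t x)).comp (MEAN_L τ)) x := by
    intro x
    have h1 : HasFDerivAt (fun x => τ.pt t x) (MEAN_L τ) x := by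
      have h2 : (fun x => τ.pt t x) = fun x => t • e2 + MEAN_L τ x := by
        funext x
        exact MEAN_pt τ t x
      rw [h2]
      exact (MEAN_L τ).hasFDerivAt.const_add _
    exact ((hg.differentiable one_ne_zero) _).hasFDerivAt.comp x h1
  have hLi : MEAN_L τ (Pi.single i 1) = τ.γ i := by
    rw [MEAN_L_apply, Finset.sum_eq_single i]
    · rw [Pi.single_eq_same, one_smul]
    · intro j _ hj
      rw [Pi.single_eq_of_ne hj, zero_smul]
    · intro h
      exact absurd (Finset.mem_univ i) h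
  have h := integral_divergence_of_hasFDerivAt_off_countable' (n := 2)
    (a := fun _ : Fin 3 => -(1 / 2 : ℝ)) (b := fun _ => 1 / 2) (fun _ => by norm_num)
    (fun j x => if j = i then g (τ.pt t x) else 0)
    (fun j x => if j = i then (fderiv ℝ g (τ.pt t x)).comp (MEAN_L τ) else 0)
    ∅ Set.countable_empty ?_ ?_ ?_
  · have e1 : ∀ x : Fin 3 → ℝ, ∑ j : Fin 3, (if j = i then
        (fderiv ℝ g (τ.pt t x)).comp (MEAN_L τ) else 0) (Pi.single j 1) =
        d1 g (τ.γ i) (τ.pt t x) := by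
      intro x
      rw [Finset.sum_eq_single i]
      · rw [if_pos rfl, ContinuousLinearMap.comp_apply, hLi]
        rfl
      · intro j _ hj
        rw [if_neg hj]
        rfl
      · intro h
        exact absurd (Finset.mem_univ i) h
    simp only [e1] at h
    have e2' : τ.avg (d1 g (τ.γ i)) t = ∫ x in Set.Icc (fun _ : Fin 3 => -(1 / 2 : ℝ))
        (fun _ => 1 / 2), d1 g (τ.γ i) (τ.pt t x) := rfl
    rw [e2', h]
    refine Finset.sum_eq_zero fun j _ => ?_
    by_cases hj : j = i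
    · subst hj
      rw [sub_eq_zero]
      congr 1
      funext x
      rw [if_pos rfl, if_pos rfl]
      have e3 : (j.insertNth (1 / 2 : ℝ) x : Fin 3 → ℝ) =
          j.insertNth (-(1 / 2) : ℝ) x + Pi.single j 1 := by
        funext k
        refine Fin.succAboveCases j ?_ (fun l => ?_) k
        · rw [Pi.add_apply, Fin.insertNth_apply_same, Fin.insertNth_apply_same,
            Pi.single_eq_same]
          norm_num
        · rw [Pi.add_apply, Fin.insertNth_apply_succAbove, Fin.insertNth_apply_succAbove,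
            Pi.single_eq_of_ne (Fin.succAbove_ne j l), add_zero]
      have e4 : τ.pt t (j.insertNth (1 / 2 : ℝ) x : Fin 3 → ℝ) =
          τ.pt t (j.insertNth (-(1 / 2) : ℝ) x : Fin 3 → ℝ) + τ.γ j := by
        rw [MEAN_pt, MEAN_pt, e3, map_add, hLi, add_assoc]
      show g (τ.pt t (j.insertNth (1 / 2 : ℝ) x : Fin 3 → ℝ)) =
        g (τ.pt t (j.insertNth (-(1 / 2) : ℝ) x : Fin 3 → ℝ))
      rw [e4, hp]
    · simp only [if_neg hj]
      simp
  · intro j
    by_cases hj : j = i
    · simp only [if_pos hj]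
      exact (hg.continuous.comp (MEAN_cont' τ t)).continuousOn
    · simp only [if_neg hj]
      exact continuousOn_const
  · intro x _ j
    by_cases hj : j = i
    · simp only [if_pos hj]
      exact hG x
    · simp only [if_neg hj]
      exact hasFDerivAt_const _ _
  · have e1 : ∀ x : Fin 3 → ℝ, ∑ j : Fin 3, (if j = i then
        (fderiv ℝ g (τ.pt t x)).comp (MEAN_L τ) else 0) (Pi.single j 1) =
        d1 g (τ.γ i) (τ.pt t x) := by
      intro x
      rw [Finset.sum_eq_single i]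
      · rw [if_pos rfl, ContinuousLinearMap.comp_apply, hLi]
        rfl
      · intro j _ hj
        rw [if_neg hj]
        rfl
      · intro h
        exact absurd (Finset.mem_univ i) h
    simp only [e1]
    exact MEAN_int τ hd t

/-- horizontal directions are real combinations of the periods -/
theorem MEAN_span (r : ℝ) (c : ℂ) : ∃ k : Fin 3 → ℝ, ((r : ℂ), c) = ∑ i, k i • τ.γ i := by
  have hcard : Fintype.card (Fin 3) = Module.finrank ℝ (ℝ × ℂ) := by
    rw [Module.finrank_prod, Module.finrank_self, Complex.finrank_real_complex]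
    rfl
  let b := basisOfLinearIndependentOfCardEqFinrank τ.li hcard
  have h0 := b.sum_repr (r, c)
  obtain ⟨k, hk⟩ : ∃ k : Fin 3 → ℝ, k = fun i => b.repr (r, c) i := ⟨_, rfl⟩
  have h2 : ∀ i, b i = (τ.a i, τ.b i) := by
    intro i
    rw [show b = basisOfLinearIndependentOfCardEqFinrank τ.li hcard from rfl,
      coe_basisOfLinearIndependentOfCardEqFinrank]
  have h1 : ∑ i, k i • ((τ.a i, τ.b i) : ℝ × ℂ) = (r, c) := by
    rw [← h0]
    refine Finset.sum_congr rfl fun i _ => ?_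
    rw [h2, hk]
  refine ⟨k, ?_⟩
  have h3 := congrArg Prod.fst h1
  have h4 := congrArg Prod.snd h1
  rw [Prod.fst_sum] at h3
  rw [Prod.snd_sum] at h4
  simp only [Prod.smul_fst, Prod.smul_snd] at h3 h4
  ext
  · rw [Prod.fst_sum]
    simp only [Prod.smul_fst, Tor.γ]
    rw [← h3]
    push_cast
    simp
  · rw [Prod.snd_sum]
    simp only [Prod.smul_snd, Tor.γ]
    rw [← h4]

theorem MEAN_hor {g : ℂ × ℂ → ℝ} (hg : ContDiff ℝ 1 g) (hp : τ.Per g) (r : ℝ) (c : ℂ) (t : ℝ) :
    τ.avg (d1 g ((r : ℂ), c)) t = 0 := by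
  obtain ⟨k, hk⟩ := MEAN_span τ r c
  have h1 : ∀ z, d1 g ((r : ℂ), c) z = ∑ i, k i * d1 g (τ.γ i) z := by
    intro z
    unfold d1
    rw [hk, map_sum]
    refine Finset.sum_congr rfl fun i _ => ?_
    rw [map_smul, smul_eq_mul]
  have h2 : τ.avg (d1 g ((r : ℂ), c)) t = ∑ i, k i * τ.avg (d1 g (τ.γ i)) t := by
    unfold Tor.avg
    simp only [h1]
    rw [integral_finsetSum]
    · refine Finset.sum_congr rfl fun i _ => ?_
      rw [integral_const_mul]
    · intro i _
      exact (MEAN_int τ (MEAN_d1_cont hg (τ.γ i)) t).const_mul (k i)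
  rw [h2]
  refine Finset.sum_eq_zero fun i _ => ?_
  rw [MEAN_zero τ hg hp i t, mul_zero]

end

theorem thm_MEAN (τ : Tor) : St_MEAN τ := by
  refine ⟨fun f hf => MEAN_avg_cont τ hf, fun u hp hu => ?_⟩
  have hu1 : ContDiff ℝ 1 u := hu.of_le (by norm_num)
  have h1 : ∀ v, ContDiff ℝ 1 (d1 u v) := fun v => MEAN_d1_c1 hu v
  have hd : ∀ v, d1 (d1 u v) v = d2 u v v := fun v => rfl
  have hdc : ∀ v w, Continuous (d2 u v w) := fun v w => MEAN_d1_cont (h1 v) w
  have hD1 : deriv (τ.avg u) = τ.avg (d1 u e2) := by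
    funext t
    exact (MEAN_deriv τ hu1 t).deriv
  have hD2 : deriv (τ.avg (d1 u e2)) = τ.avg (d2 u e2 e2) := by
    funext t
    exact (MEAN_deriv τ (h1 e2) t).deriv
  have hz1 : ∀ t, τ.avg (d2 u e1 e1) t = 0 := by
    intro t
    have h := MEAN_hor τ (h1 e1) (MEAN_d1_per τ hp e1) 1 0 t
    rw [Complex.ofReal_one] at h
    exact h
  have hz3 : ∀ t, τ.avg (d2 u e3 e3) t = 0 := by
    intro t
    have h := MEAN_hor τ (h1 e3) (MEAN_d1_per τ hp e3) 0 1 t
    rw [Complex.ofReal_zero] at h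
    exact h
  have hz4 : ∀ t, τ.avg (d2 u e4 e4) t = 0 := by
    intro t
    have h := MEAN_hor τ (h1 e4) (MEAN_d1_per τ hp e4) 0 Complex.I t
    rw [Complex.ofReal_zero] at h
    exact h
  have hm1 : mi e1 = e2 := by
    unfold mi e1 e2
    simp
  have hm3 : mi e3 = e4 := by
    unfold mi e3 e4
    simp
  have hl1 : ∀ t, τ.avg (lev u e1) t = τ.avg (d2 u e1 e1) t + τ.avg (d2 u e2 e2) t := by
    intro t
    unfold Tor.avg lev
    rw [hm1]
    exact integral_add (MEAN_int τ (hdc e1 e1) t) (MEAN_int τ (hdc e2 e2) t)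
  have hl3 : ∀ t, τ.avg (lev u e3) t = τ.avg (d2 u e3 e3) t + τ.avg (d2 u e4 e4) t := by
    intro t
    unfold Tor.avg lev
    rw [hm3]
    exact integral_add (MEAN_int τ (hdc e3 e3) t) (MEAN_int τ (hdc e4 e4) t)
  refine ⟨?_, fun t => ?_, fun t => ?_, fun t => ?_, fun t => ?_⟩
  · have hc1 : ContDiff ℝ 1 (τ.avg (d1 u e2)) := by
      rw [contDiff_one_iff_deriv]
      refine ⟨fun t => (MEAN_deriv τ (h1 e2) t).differentiableAt, ?_⟩
      rw [hD2]
      exact MEAN_avg_cont τ (hdc e2 e2)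
    have h2 : ContDiff ℝ (1 + 1) (τ.avg u) := by
      rw [contDiff_succ_iff_deriv]
      refine ⟨fun t => (MEAN_deriv τ hu1 t).differentiableAt, fun h => ?_, ?_⟩
      · exact absurd h (by simp)
      · rw [hD1]
        exact hc1
    have h3 : (1 + 1 : WithTop ℕ∞) = 2 := by norm_num
    rw [h3] at h2
    exact h2
  · rw [hD1]
  · rw [hD1, hD2, hl1, hz1, zero_add]
  · rw [hD1, hD2]
  · rw [hl3, hz3, hz4, add_zero]

end Pool.Agent.KT
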