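import Pool.Agent.KT.St

/-!
# KT: comparison for an ordinary differential inequality
-/

set_option autoImplicit false

open scoped BigOperators ComplexConjugate Topology
open MeasureTheory

namespace Pool.Agent.KT

theorem thm_ODE : St_ODE := by
  intro k Y v w hk hY hv hv0 hw hw0 hode
  -- the two primitives
  set P : ℝ → ℝ := fun t => ∫ s in (-Y)..t, Real.exp (k * s) * w s with hP
  set Q : ℝ → ℝ := fun t => ∫ s in t..Y, Real.exp (-(k * s)) * w s with hQ
  have cP : Continuous fun s => Real.exp (k * s) * w s := by fun_prop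
  have cQ : Continuous fun s => Real.exp (-(k * s)) * w s := by fun_prop
  have dP : ∀ t, HasDerivAt P (Real.exp (k * t) * w t) t := fun t =>
    intervalIntegral.integral_hasDerivAt_right (cP.intervalIntegrable _ _)
      (cP.stronglyMeasurableAtFilter _ _) cP.continuousAt
  have dQ : ∀ t, HasDerivAt Q (-(Real.exp (-(k * t)) * w t)) t := fun t =>
    intervalIntegral.integral_hasDerivAt_left (cQ.intervalIntegrable _ _)
      (cQ.stronglyMeasurableAtFilter _ _) cQ.continuousAt
  have dE : ∀ t, HasDerivAt (fun t => Real.exp (k * t)) (Real.exp (k * t) * k) t := fun t => by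
    have h := ((hasDerivAt_id t).const_mul k).exp
    simpa using h
  have dE' : ∀ t, HasDerivAt (fun t => Real.exp (-(k * t))) (Real.exp (-(k * t)) * (-k)) t :=
    fun t => by
    have h := ((hasDerivAt_id t).const_mul k).neg.exp
    simpa using h
  have hEE : ∀ t, Real.exp (k * t) * Real.exp (-(k * t)) = 1 := fun t => by
    rw [← Real.exp_add]
    simp
  set c : ℝ := v Y + v (-Y) with hc
  have hc0 : 0 ≤ c := add_nonneg (hv0 _) (hv0 _)
  -- the comparison function
  set b : ℝ → ℝ := fun t => c * (Real.exp (-(k * (Y - t))) + Real.exp (-(k * (Y + t)))) +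
    1 / (2 * k) * (Real.exp (-(k * t)) * P t + Real.exp (k * t) * Q t) with hb
  have d1 : ∀ t, HasDerivAt b (c * (k * Real.exp (-(k * (Y - t))) - k * Real.exp (-(k * (Y + t)))) +
      1 / 2 * (Real.exp (k * t) * Q t - Real.exp (-(k * t)) * P t)) t := by
    intro t
    have h1 : HasDerivAt (fun t => Real.exp (-(k * (Y - t)))) (k * Real.exp (-(k * (Y - t)))) t := by
      have h := (((hasDerivAt_id t).const_sub Y).const_mul k).neg.exp
      refine h.congr_deriv ?_
      simp
      ring
    have h2 : HasDerivAt (fun t => Real.exp (-(k * (Y + t))))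
        (-(k * Real.exp (-(k * (Y + t))))) t := by
      have h := (((hasDerivAt_id t).const_add Y).const_mul k).neg.exp
      refine h.congr_deriv ?_
      simp
      ring
    have h3 := ((h1.add h2).const_mul c).add
      ((((dE' t).mul (dP t)).add ((dE t).mul (dQ t))).const_mul (1 / (2 * k)))
    refine h3.congr_deriv ?_
    have h4 := hEE t
    field_simp
    linear_combination 0 * h4
  have d2 : ∀ t, HasDerivAt (fun t => c * (k * Real.exp (-(k * (Y - t))) -
      k * Real.exp (-(k * (Y + t)))) +
      1 / 2 * (Real.exp (k * t) * Q t - Real.exp (-(k * t)) * P t)) (k ^ 2 * b t - w t) t := by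
    intro t
    have h1 : HasDerivAt (fun t => Real.exp (-(k * (Y - t)))) (k * Real.exp (-(k * (Y - t)))) t := by
      have h := (((hasDerivAt_id t).const_sub Y).const_mul k).neg.exp
      refine h.congr_deriv ?_
      simp
      ring
    have h2 : HasDerivAt (fun t => Real.exp (-(k * (Y + t))))
        (-(k * Real.exp (-(k * (Y + t))))) t := by
      have h := (((hasDerivAt_id t).const_add Y).const_mul k).neg.exp
      refine h.congr_deriv ?_
      simp
      ring
    have h3 := (((h1.const_mul k).sub (h2.const_mul k)).const_mul c).add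
      ((((dE t).mul (dQ t)).sub ((dE' t).mul (dP t))).const_mul (1 / 2))
    refine h3.congr_deriv ?_
    have h4 := hEE t
    rw [hb]
    field_simp
    linear_combination (-2 * w t) * h4
  -- the value of the comparison function
  have hbt : ∀ t ∈ Set.Icc (-Y) Y, b t =
      c * (Real.exp (-(k * (Y - t))) + Real.exp (-(k * (Y + t)))) +
        1 / (2 * k) * ∫ s in (-Y)..Y, Real.exp (-(k * |t - s|)) * w s := by
    intro t ht
    have cI : Continuous fun s => Real.exp (-(k * |t - s|)) * w s := by fun_prop
    have h1 : ∫ s in (-Y)..t, Real.exp (-(k * |t - s|)) * w s = Real.exp (-(k * t)) * P t := by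
      rw [hP, ← intervalIntegral.integral_const_mul]
      refine intervalIntegral.integral_congr fun s hs => ?_
      rw [Set.uIcc_of_le ht.1] at hs
      show Real.exp (-(k * |t - s|)) * w s = Real.exp (-(k * t)) * (Real.exp (k * s) * w s)
      rw [abs_of_nonneg (sub_nonneg.2 hs.2), ← mul_assoc, ← Real.exp_add]
      congr 2
      ring
    have h2 : ∫ s in t..Y, Real.exp (-(k * |t - s|)) * w s = Real.exp (k * t) * Q t := by
      rw [hQ, ← intervalIntegral.integral_const_mul]
      refine intervalIntegral.integral_congr fun s hs => ?_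
      rw [Set.uIcc_of_le ht.2] at hs
      show Real.exp (-(k * |t - s|)) * w s = Real.exp (k * t) * (Real.exp (-(k * s)) * w s)
      rw [abs_of_nonpos (sub_nonpos.2 hs.1), ← mul_assoc, ← Real.exp_add]
      congr 2
      ring
    rw [← intervalIntegral.integral_add_adjacent_intervals (cI.intervalIntegrable _ _)
      (cI.intervalIntegrable _ _) (b := t), h1, h2]
  -- nonnegative parts
  have hI0 : ∀ t, 0 ≤ ∫ s in (-Y)..Y, Real.exp (-(k * |t - s|)) * w s := fun t =>
    intervalIntegral.integral_nonneg (by linarith) fun s _ =>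
      mul_nonneg (Real.exp_pos _).le (hw0 s)
  have hvd : Differentiable ℝ v := hv.differentiable (by norm_num)
  have hvd' : Differentiable ℝ (deriv v) := by
    have h : ContDiff ℝ 1 (deriv v) := by
      have h1 : ContDiff ℝ (1 + 1) v := by
        rw [one_add_one_eq_two]
        exact hv
      exact (contDiff_succ_iff_deriv.1 h1).2.2
    exact h.differentiable (by norm_num)
  set D : ℝ → ℝ := fun t => v t - b t with hD
  have hDd : ∀ t, HasDerivAt D (deriv v t - (c * (k * Real.exp (-(k * (Y - t))) -
      k * Real.exp (-(k * (Y + t)))) +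
      1 / 2 * (Real.exp (k * t) * Q t - Real.exp (-(k * t)) * P t))) t := fun t =>
    (hvd t).hasDerivAt.sub (d1 t)
  have hDd' : deriv D = fun t => deriv v t - (c * (k * Real.exp (-(k * (Y - t))) -
      k * Real.exp (-(k * (Y + t)))) +
      1 / 2 * (Real.exp (k * t) * Q t - Real.exp (-(k * t)) * P t)) := by
    funext t
    exact (hDd t).deriv
  have hDD : ∀ t, deriv (deriv D) t = deriv (deriv v) t - (k ^ 2 * b t - w t) := fun t => by
    rw [hDd']
    exact ((hvd' t).hasDerivAt.sub (d2 t)).deriv
  have hDc : Continuous D := continuous_iff_continuousAt.2 fun t => (hDd t).continuousAt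
  obtain ⟨t0, ht0, hmax⟩ := (isCompact_Icc (a := -Y) (b := Y)).exists_isMaxOn
    ⟨0, by constructor <;> linarith⟩ hDc.continuousOn
  have hD0 : D t0 ≤ 0 := by
    by_contra hpos
    push Not at hpos
    have hYY : D Y ≤ 0 := by
      have h1 := hbt Y ⟨by linarith, le_rfl⟩
      have h2 : 0 ≤ 1 / (2 * k) * ∫ s in (-Y)..Y, Real.exp (-(k * |Y - s|)) * w s :=
        mul_nonneg (by positivity) (hI0 Y)
      have h3 : c ≤ c * (Real.exp (-(k * (Y - Y))) + Real.exp (-(k * (Y + Y)))) := by
        have h4 : 1 ≤ Real.exp (-(k * (Y - Y))) + Real.exp (-(k * (Y + Y))) := by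
          rw [sub_self, mul_zero, neg_zero, Real.exp_zero]
          have := Real.exp_pos (-(k * (Y + Y)))
          linarith
        nlinarith
      have h5 := hv0 (-Y)
      show v Y - b Y ≤ 0
      linarith
    have hYY' : D (-Y) ≤ 0 := by
      have h1 := hbt (-Y) ⟨le_rfl, by linarith⟩
      have h2 : 0 ≤ 1 / (2 * k) * ∫ s in (-Y)..Y, Real.exp (-(k * |-Y - s|)) * w s :=
        mul_nonneg (by positivity) (hI0 (-Y))
      have h3 : c ≤ c * (Real.exp (-(k * (Y - -Y))) + Real.exp (-(k * (Y + -Y)))) := by
        have h4 : 1 ≤ Real.exp (-(k * (Y - -Y))) + Real.exp (-(k * (Y + -Y))) := by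
          rw [add_neg_cancel, mul_zero, neg_zero, Real.exp_zero]
          have := Real.exp_pos (-(k * (Y - -Y)))
          linarith
        nlinarith
      have h5 := hv0 Y
      show v (-Y) - b (-Y) ≤ 0
      linarith
    have h1 : t0 ≠ Y := fun h => by
      rw [h] at hpos
      linarith
    have h2 : t0 ≠ -Y := fun h => by
      rw [h] at hpos
      linarith
    have h3 : t0 ∈ Set.Ioo (-Y) Y := ⟨lt_of_le_of_ne ht0.1 (Ne.symm h2), lt_of_le_of_ne ht0.2 h1⟩
    have h4 : IsLocalMax D t0 := hmax.isLocalMax (Icc_mem_nhds h3.1 h3.2)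
    have h5 : 0 < deriv (deriv D) t0 := by
      rw [hDD]
      have h6 := hode t0 ht0
      have h7 : 0 < k ^ 2 * (v t0 - b t0) := mul_pos (by positivity) hpos
      linarith
    have h8 : IsLocalMin D t0 := isLocalMin_of_deriv_deriv_pos h5 h4.deriv_eq_zero hDc.continuousAt
    have h9 : D =ᶠ[𝓝 t0] fun _ => D t0 := by
      filter_upwards [h4, h8] with t h10 h11
      exact le_antisymm h10 h11
    have h12 : deriv D =ᶠ[𝓝 t0] deriv fun _ => D t0 := h9.deriv
    have h13 : deriv (deriv D) t0 = 0 := by
      rw [h12.deriv_eq]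
      simp
    linarith
  intro t ht
  have h1 : D t ≤ D t0 := hmax ht
  have h2 := hbt t ht
  have h3 : v t - b t ≤ 0 := h1.trans hD0
  linarith

end Pool.Agent.KT
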