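import Pool.Agent.KT.St

/-!
# KT: polydisc means of smooth functions
-/

set_option autoImplicit false

open scoped BigOperators ComplexConjugate Topology Pointwise ContDiff
open MeasureTheory

namespace Pool.Agent.KT

/-! ### differentiation under the integral -/

private theorem PAV_hasFDerivAt {E' : Type} [NormedAddCommGroup E'] [NormedSpace ℝ E']
    {F : ℂ × ℂ → E'} (hF : ContDiff ℝ 1 F) {K : Set (ℂ × ℂ)} (hK : IsCompact K) (z : ℂ × ℂ) :
    HasFDerivAt (fun z => ∫ a in K, F (z + a)) (∫ a in K, fderiv ℝ F (z + a)) z := by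
  have hc : Continuous (fderiv ℝ F) := hF.continuous_fderiv one_ne_zero
  have hK' : IsCompact (Metric.closedBall z 1 + K) := (isCompact_closedBall z 1).add hK
  obtain ⟨C, hC⟩ := hK'.exists_bound_of_continuousOn hc.continuousOn
  refine hasFDerivAt_integral_of_dominated_of_fderiv_le (s := Metric.ball z 1)
    (bound := fun _ => C) (F' := fun z a => fderiv ℝ F (z + a))
    (Metric.ball_mem_nhds z one_pos) ?_ ?_ ?_ ?_ ?_ ?_
  · exact Filter.Eventually.of_forall fun x =>
      (hF.continuous.comp (continuous_const.add continuous_id)).aestronglyMeasurable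
  · exact (hF.continuous.comp (continuous_const.add continuous_id)).continuousOn.integrableOn_compact
      hK
  · exact (hc.comp (continuous_const.add continuous_id)).aestronglyMeasurable
  · exact (ae_restrict_iff' hK.measurableSet).mpr (Filter.Eventually.of_forall fun a ha x hx =>
      hC _ (Set.add_mem_add (Metric.ball_subset_closedBall hx) ha))
  · exact integrableOn_const hK.measure_lt_top.ne
  · refine Filter.Eventually.of_forall fun a x hx => ?_
    have h1 : HasFDerivAt F (fderiv ℝ F (x + a)) (x + a) :=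
      ((hF.differentiable one_ne_zero) (x + a)).hasFDerivAt
    have h2 : HasFDerivAt (fun y : ℂ × ℂ => y + a) (ContinuousLinearMap.id ℝ (ℂ × ℂ)) x :=
      (hasFDerivAt_id x).add_const a
    have h3 := h1.comp x h2
    rwa [ContinuousLinearMap.comp_id] at h3

private theorem PAV_contDiff_nat (n : ℕ) : ∀ {E' : Type} [NormedAddCommGroup E']
    [NormedSpace ℝ E'] {F : ℂ × ℂ → E'}, ContDiff ℝ n F → ∀ {K : Set (ℂ × ℂ)}, IsCompact K →
    ContDiff ℝ n (fun z => ∫ a in K, F (z + a)) := by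
  induction n with
  | zero =>
    intro E' _ _ F hF K hK
    have h1 := hF.continuous
    rw [Nat.cast_zero, contDiff_zero]
    exact continuous_parametric_integral_of_continuous (f := fun z a => F (z + a))
      (h1.comp (continuous_fst.add continuous_snd)) hK
  | succ n ih =>
    intro E' _ _ F hF K hK
    have h1 : ContDiff ℝ 1 F := hF.of_le (by exact_mod_cast (by omega : 1 ≤ n + 1))
    rw [Nat.cast_succ, contDiff_succ_iff_hasFDerivAt]
    refine ⟨fun z => ∫ a in K, fderiv ℝ F (z + a), ih ?_ hK, fun z => PAV_hasFDerivAt h1 hK z⟩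
    rw [Nat.cast_succ, contDiff_succ_iff_fderiv] at hF
    exact hF.2.2

private theorem PAV_contDiff {F : ℂ × ℂ → ℝ} (hF : ContDiff ℝ (⊤ : ℕ∞) F) {K : Set (ℂ × ℂ)}
    (hK : IsCompact K) : ContDiff ℝ (⊤ : ℕ∞) (fun z => ∫ a in K, F (z + a)) := by
  rw [contDiff_infty]
  intro n
  exact PAV_contDiff_nat n (hF.of_le (by exact_mod_cast le_top)) hK

private theorem PAV_cpt (r : ℝ) :
    IsCompact (Metric.closedBall (0 : ℂ) r ×ˢ Metric.closedBall (0 : ℂ) r) :=
  (isCompact_closedBall 0 r).prod (isCompact_closedBall 0 r)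

private theorem PAV_smooth (r : ℝ) {f : ℂ × ℂ → ℝ} (hf : ContDiff ℝ (⊤ : ℕ∞) f) :
    ContDiff ℝ (⊤ : ℕ∞) (pav r f) :=
  contDiff_const.mul (PAV_contDiff hf (PAV_cpt r))

private theorem PAV_d1 (r : ℝ) {f : ℂ × ℂ → ℝ} (hf : ContDiff ℝ (⊤ : ℕ∞) f) (v z : ℂ × ℂ) :
    d1 (pav r f) v z = pav r (d1 f v) z := by
  have h1 : ContDiff ℝ 1 f := hf.of_le (by exact_mod_cast le_top)
  have h2 := (PAV_hasFDerivAt h1 (PAV_cpt r) z).const_mul (1 / (Real.pi * r ^ 2) ^ 2)
  have h3 : fderiv ℝ (pav r f) z = (1 / (Real.pi * r ^ 2) ^ 2) •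
      ∫ a in Metric.closedBall (0 : ℂ) r ×ˢ Metric.closedBall (0 : ℂ) r, fderiv ℝ f (z + a) :=
    h2.fderiv
  unfold d1 pav
  rw [show (fun z => 1 / (Real.pi * r ^ 2) ^ 2 *
    ∫ a in Metric.closedBall (0 : ℂ) r ×ˢ Metric.closedBall (0 : ℂ) r, f (z + a)) = pav r f from
    rfl, h3]
  rw [_root_.smul_apply, ContinuousLinearMap.integral_apply, smul_eq_mul]
  exact ((h1.continuous_fderiv one_ne_zero).comp
    (continuous_const.add continuous_id)).continuousOn.integrableOn_compact (PAV_cpt r)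

private theorem PAV_d1_smooth {f : ℂ × ℂ → ℝ} (hf : ContDiff ℝ (⊤ : ℕ∞) f) (v : ℂ × ℂ) :
    ContDiff ℝ (⊤ : ℕ∞) (d1 f v) := by
  have h1 : ContDiff ℝ (⊤ : ℕ∞) (fderiv ℝ f) := (contDiff_infty_iff_fderiv.mp hf).2
  exact h1.clm_apply contDiff_const

private theorem PAV_d2 (r : ℝ) {f : ℂ × ℂ → ℝ} (hf : ContDiff ℝ (⊤ : ℕ∞) f) (v w z : ℂ × ℂ) :
    d2 (pav r f) v w z = pav r (d2 f v w) z := by
  have h1 : (fun z => fderiv ℝ (pav r f) z v) = pav r (d1 f v) := by
    funext z
    exact PAV_d1 r hf v z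
  have h2 : d2 (pav r f) v w z = d1 (pav r (d1 f v)) w z := by
    unfold d2 d1
    rw [h1]
    rfl
  rw [h2, PAV_d1 r (PAV_d1_smooth hf v) w z]
  rfl

private theorem PAV_per (τ : Tor) (r : ℝ) {f : ℂ × ℂ → ℝ} (hf : τ.Per f) : τ.Per (pav r f) := by
  intro z i
  unfold pav
  congr 1
  refine integral_congr_ae (Filter.Eventually.of_forall fun a => ?_)
  show f (z + τ.γ i + a) = f (z + a)
  rw [add_right_comm, hf]

/-! ### the second moment -/

private theorem PAV_vol {r : ℝ} (hr : 0 < r) :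
    ∫ _a in Metric.closedBall (0 : ℂ) r, (1 : ℝ) = Real.pi * r ^ 2 := by
  rw [setIntegral_const, smul_eq_mul, mul_one, Measure.real, Complex.volume_closedBall,
    ENNReal.toReal_mul, ENNReal.toReal_pow, ENNReal.toReal_ofReal hr.le, ENNReal.coe_toReal,
    NNReal.coe_real_pi, mul_comm]

private theorem PAV_m2 {r : ℝ} (hr : 0 < r) :
    ∫ a in Metric.closedBall (0 : ℂ) r, ‖a‖ ^ 2 = Real.pi * r ^ 4 / 2 := by
  have h1 : ∫ a in Metric.closedBall (0 : ℂ) r, ‖a‖ ^ 2 =
      ∫ a : ℂ, (Set.Iic r).indicator (fun y : ℝ => y ^ 2) ‖a‖ := by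
    rw [← integral_indicator Metric.isClosed_closedBall.measurableSet]
    refine integral_congr_ae (Filter.Eventually.of_forall fun a => ?_)
    by_cases h : ‖a‖ ≤ r
    · simp [Set.indicator, h]
    · simp [Set.indicator, h]
  have h2 := integral_fun_norm_addHaar (volume : Measure ℂ)
    ((Set.Iic r).indicator (fun y : ℝ => y ^ 2))
  have h3 : (volume : Measure ℂ).real (Metric.ball 0 1) = Real.pi := by
    rw [Measure.real, Complex.volume_ball]
    simp
  have h4 : ∫ y in Set.Ioi (0 : ℝ), y ^ 1 • (Set.Iic r).indicator (fun y : ℝ => y ^ 2) y =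
      r ^ 4 / 4 := by
    have h5 : ∫ y in Set.Ioi (0 : ℝ), y ^ 1 • (Set.Iic r).indicator (fun y : ℝ => y ^ 2) y =
        ∫ y in Set.Ioc (0 : ℝ) r, y ^ 3 := by
      rw [← integral_indicator measurableSet_Ioi, ← integral_indicator measurableSet_Ioc]
      refine integral_congr_ae (Filter.Eventually.of_forall fun y => ?_)
      by_cases h6 : 0 < y
      · by_cases h7 : y ≤ r
        · simp [Set.indicator, h6, h7]
          ring
        · simp [Set.indicator, h6, h7]
      · simp [Set.indicator, h6]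
    rw [h5, ← intervalIntegral.integral_of_le hr.le, integral_pow]
    norm_num
  rw [h1, h2, Complex.finrank_real_complex, h3]
  norm_num at h4 ⊢
  rw [h4]
  ring

private theorem PAV_neg (r : ℝ) (g : ℂ → ℝ) :
    ∫ a in Metric.closedBall (0 : ℂ) r, g (-a) = ∫ a in Metric.closedBall (0 : ℂ) r, g a := by
  rw [← integral_indicator Metric.isClosed_closedBall.measurableSet,
    ← integral_indicator Metric.isClosed_closedBall.measurableSet,
    ← integral_neg_eq_self ((Metric.closedBall (0 : ℂ) r).indicator fun a => g a)]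
  refine integral_congr_ae (Filter.Eventually.of_forall fun a => ?_)
  by_cases h : ‖a‖ ≤ r
  · simp [Set.indicator, h]
  · simp [Set.indicator, h]

private theorem PAV_int {K : Set ℂ} (hK : IsCompact K) {g : ℂ → ℝ} (hg : Continuous g) :
    IntegrableOn g K := hg.continuousOn.integrableOn_compact hK

private theorem PAV_m2z {r : ℝ} (hr : 0 < r) (z : ℂ) :
    ∫ a in Metric.closedBall (0 : ℂ) r, ‖z + a‖ ^ 2 =
      Real.pi * r ^ 2 * ‖z‖ ^ 2 + Real.pi * r ^ 4 / 2 := by
  have hK := isCompact_closedBall (0 : ℂ) r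
  have h1 := PAV_neg r (fun a => ‖z + a‖ ^ 2)
  have h2 : ∫ a in Metric.closedBall (0 : ℂ) r, (‖z + a‖ ^ 2 + ‖z + -a‖ ^ 2) =
      (∫ a in Metric.closedBall (0 : ℂ) r, ‖z + a‖ ^ 2) +
        ∫ a in Metric.closedBall (0 : ℂ) r, ‖z + -a‖ ^ 2 :=
    integral_add (PAV_int hK (by fun_prop)) (PAV_int hK (by fun_prop))
  have h3 : ∫ a in Metric.closedBall (0 : ℂ) r, (‖z + a‖ ^ 2 + ‖z + -a‖ ^ 2) =
      ∫ a in Metric.closedBall (0 : ℂ) r, (2 * ‖z‖ ^ 2 * 1 + 2 * ‖a‖ ^ 2) := by
    refine integral_congr_ae (Filter.Eventually.of_forall fun a => ?_)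
    have h4 := parallelogram_law_with_norm ℝ z a
    simp only
    rw [← sub_eq_add_neg]
    nlinarith [h4]
  have h4 : ∫ a in Metric.closedBall (0 : ℂ) r, (2 * ‖z‖ ^ 2 * 1 + 2 * ‖a‖ ^ 2) =
      2 * ‖z‖ ^ 2 * (Real.pi * r ^ 2) + 2 * (Real.pi * r ^ 4 / 2) := by
    rw [integral_add (PAV_int hK (by fun_prop)) (PAV_int hK (by fun_prop)),
      integral_const_mul, integral_const_mul, PAV_vol hr, PAV_m2 hr]
  rw [h3, h4, h1] at h2
  linarith

private theorem PAV_nsq {r : ℝ} (hr : 0 < r) (z : ℂ × ℂ) : pav r nsq z = nsq z + r ^ 2 := by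
  have hK := isCompact_closedBall (0 : ℂ) r
  have h0 : ∫ a in Metric.closedBall (0 : ℂ) r ×ˢ Metric.closedBall (0 : ℂ) r, nsq (z + a) =
      (∫ a in Metric.closedBall (0 : ℂ) r ×ˢ Metric.closedBall (0 : ℂ) r,
        (fun a => ‖z.1 + a‖ ^ 2) a.1 * (fun _ => (1 : ℝ)) a.2) +
      ∫ a in Metric.closedBall (0 : ℂ) r ×ˢ Metric.closedBall (0 : ℂ) r,
        (fun _ => (1 : ℝ)) a.1 * (fun a => ‖z.2 + a‖ ^ 2) a.2 := by
    rw [← integral_add]
    · refine integral_congr_ae (Filter.Eventually.of_forall fun a => ?_)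
      simp [nsq]
    · exact (Continuous.continuousOn (by fun_prop)).integrableOn_compact (hK.prod hK)
    · exact (Continuous.continuousOn (by fun_prop)).integrableOn_compact (hK.prod hK)
  have h1 := setIntegral_prod_mul (μ := (volume : Measure ℂ)) (ν := (volume : Measure ℂ))
    (fun a : ℂ => ‖z.1 + a‖ ^ 2) (fun _ : ℂ => (1 : ℝ)) (Metric.closedBall (0 : ℂ) r)
    (Metric.closedBall (0 : ℂ) r)
  have h2 := setIntegral_prod_mul (μ := (volume : Measure ℂ)) (ν := (volume : Measure ℂ))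
    (fun _ : ℂ => (1 : ℝ)) (fun a : ℂ => ‖z.2 + a‖ ^ 2) (Metric.closedBall (0 : ℂ) r)
    (Metric.closedBall (0 : ℂ) r)
  rw [← Measure.volume_eq_prod] at h1 h2
  unfold pav
  rw [h0, h1, h2, PAV_m2z hr, PAV_m2z hr, PAV_vol hr]
  have hpi := Real.pi_pos
  unfold nsq
  field_simp
  ring

/-! ### periodic functions -/

private theorem PAV_inv (h : (Fin 3 → ℝ) → ℝ) (hh : ∀ x i, h (x + Pi.single i 1) = h x)
    (g : Submodule.span ℤ (Set.range (Pi.basisFun ℝ (Fin 3)))) (x : Fin 3 → ℝ) :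
    h (g +ᵥ x) = h x := by
  obtain ⟨g, hg⟩ := g
  change h (g + x) = h x
  revert x
  refine Submodule.span_induction (p := fun g _ => ∀ x, h (g + x) = h x) ?_ ?_ ?_ ?_ hg
  · rintro _ ⟨i, rfl⟩ x
    rw [add_comm, Pi.basisFun_apply]
    exact hh x i
  · intro x
    rw [zero_add]
  · intro a b _ _ ha hb x
    rw [add_assoc, ha, hb]
  · intro m a _ ha x
    have h1 : ∀ n : ℕ, ∀ x, h (n • a + x) = h x := by
      intro n
      induction n with
      | zero => intro x; simp
      | succ n ih =>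
        intro x
        rw [succ_nsmul, add_assoc, ih, ha]
    rcases Int.eq_nat_or_neg m with ⟨n, rfl | rfl⟩
    · rw [natCast_zsmul]
      exact h1 n x
    · rw [neg_smul, natCast_zsmul]
      have := h1 n (-(n • a) + x)
      rw [← this]
      congr 1
      abel

private theorem PAV_cubeper (h : (Fin 3 → ℝ) → ℝ) (hh : ∀ x i, h (x + Pi.single i 1) = h x)
    (x₀ : Fin 3 → ℝ) : ∫ x in Tor.cube, h (x₀ + x) = ∫ x in Tor.cube, h x := by
  have hD := ZSpan.isAddFundamentalDomain (Pi.basisFun ℝ (Fin 3)) (volume : Measure (Fin 3 → ℝ))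
  set D := ZSpan.fundamentalDomain (Pi.basisFun ℝ (Fin 3)) with hDdef
  have hinst : VAddInvariantMeasure (Submodule.span ℤ (Set.range (Pi.basisFun ℝ (Fin 3))))
      (Fin 3 → ℝ) volume :=
    inferInstanceAs <| VAddInvariantMeasure
      (Submodule.span ℤ (Set.range (Pi.basisFun ℝ (Fin 3)))).toAddSubgroup (Fin 3 → ℝ) volume
  have hv : ∀ v : Fin 3 → ℝ, IsAddFundamentalDomain
      (Submodule.span ℤ (Set.range (Pi.basisFun ℝ (Fin 3)))) (v +ᵥ D) volume := fun v =>
    hD.vadd_of_comm v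
  have hv2 : ∀ v w : Fin 3 → ℝ, ∫ x in v +ᵥ D, h x = ∫ x in w +ᵥ D, h x := fun v w =>
    (hv v).setIntegral_eq (hv w) (PAV_inv h hh)
  have him : ∀ (w : Fin 3 → ℝ) (g : (Fin 3 → ℝ) → ℝ), ∫ x in w +ᵥ D, g x = ∫ x in D, g (w + x) :=
    fun w g => (measurePreserving_add_left volume w).setIntegral_image_emb
      (measurableEmbedding_addLeft w) g D
  have hcube : Tor.cube =ᵐ[volume] ((fun _ => -(1 / 2) : Fin 3 → ℝ) +ᵥ D) := by
    have h1 : ((fun _ => -(1 / 2) : Fin 3 → ℝ) +ᵥ D) =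
        Set.pi Set.univ fun _ : Fin 3 => Set.Ico (-(1 / 2) : ℝ) (1 / 2) := by
      ext x
      rw [Set.mem_vadd_set]
      constructor
      · rintro ⟨y, hy, rfl⟩ i -
        have h2 := hy i
        rw [Pi.basisFun_repr] at h2
        simp only [vadd_eq_add, Pi.add_apply, Set.mem_Ico] at h2 ⊢
        constructor <;> linarith [h2.1, h2.2]
      · intro hx
        refine ⟨fun i => 1 / 2 + x i, fun i => ?_, ?_⟩
        · have h2 := hx i (Set.mem_univ i)
          rw [Pi.basisFun_repr]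
          simp only [Set.mem_Ico] at h2 ⊢
          constructor <;> linarith [h2.1, h2.2]
        · funext i
          simp
    rw [h1]
    exact Measure.univ_pi_Ico_ae_eq_Icc.symm
  rw [setIntegral_congr_set hcube, setIntegral_congr_set hcube, him, ← hv2 (x₀ + fun _ => -(1 / 2)),
    him]
  refine integral_congr_ae (Filter.Eventually.of_forall fun a => ?_)
  show h (x₀ + (_ + a)) = h (x₀ + _ + a)
  rw [add_assoc]

/-! ### coordinates -/

private theorem PAV_rank : Fintype.card (Fin 3) = Module.finrank ℝ (ℝ × ℂ) := by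
  rw [Module.finrank_prod, Module.finrank_self, Complex.finrank_real_complex, Fintype.card_fin]

private noncomputable def PAVB (τ : Tor) : Module.Basis (Fin 3) ℝ (ℝ × ℂ) :=
  basisOfLinearIndependentOfCardEqFinrank τ.li PAV_rank

private noncomputable def PAVy (τ : Tor) (z : ℂ × ℂ) : Fin 3 → ℝ :=
  (PAVB τ).equivFun (z.1.re, z.2)

private theorem PAV_pt_fst (τ : Tor) (t : ℝ) (x : Fin 3 → ℝ) :
    (τ.pt t x).1 = (t : ℂ) * Complex.I + ((∑ i, x i * τ.a i : ℝ) : ℂ) := by
  unfold Tor.pt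
  rw [Prod.fst_add, Prod.fst_sum]
  simp [Tor.γ]

private theorem PAV_pt_snd (τ : Tor) (t : ℝ) (x : Fin 3 → ℝ) :
    (τ.pt t x).2 = ∑ i, (x i : ℂ) * τ.b i := by
  unfold Tor.pt
  rw [Prod.snd_add, Prod.snd_sum]
  simp [Tor.γ]

private theorem PAV_ht_pt (τ : Tor) (t : ℝ) (x : Fin 3 → ℝ) : ht (τ.pt t x) = t := by
  unfold ht
  rw [PAV_pt_fst, Complex.add_im, Complex.ofReal_im]
  simp

private theorem PAV_re_pt (τ : Tor) (t : ℝ) (x : Fin 3 → ℝ) :
    (τ.pt t x).1.re = ∑ i, x i * τ.a i := by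
  rw [PAV_pt_fst, Complex.add_re, Complex.ofReal_re]
  simp

private theorem PAV_y_pt (τ : Tor) (t : ℝ) (x : Fin 3 → ℝ) : PAVy τ (τ.pt t x) = x := by
  unfold PAVy
  have h1 : ((τ.pt t x).1.re, (τ.pt t x).2) = (PAVB τ).equivFun.symm x := by
    rw [Module.Basis.equivFun_symm_apply]
    refine Prod.ext ?_ ?_
    · rw [Prod.fst_sum, PAV_re_pt]
      simp [PAVB]
    · rw [Prod.snd_sum, PAV_pt_snd]
      simp [PAVB]
  rw [h1, LinearEquiv.apply_symm_apply]

private theorem PAV_pt_y (τ : Tor) (z : ℂ × ℂ) : τ.pt (ht z) (PAVy τ z) = z := by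
  have h1 := (PAVB τ).sum_equivFun (z.1.re, z.2)
  have h2 : ∑ i, PAVy τ z i * τ.a i = z.1.re := by
    have := congrArg Prod.fst h1
    rw [Prod.fst_sum] at this
    simpa [PAVB, PAVy] using this
  have h3 : ∑ i, (PAVy τ z i : ℂ) * τ.b i = z.2 := by
    have := congrArg Prod.snd h1
    rw [Prod.snd_sum] at this
    simpa [PAVB, PAVy] using this
  refine Prod.ext ?_ ?_
  · rw [PAV_pt_fst, h2]
    refine Complex.ext ?_ ?_
    · simp
    · simp [ht]
  · rw [PAV_pt_snd, h3]

private theorem PAV_pt_add (τ : Tor) (t s : ℝ) (x y : Fin 3 → ℝ) :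
    τ.pt (t + s) (x + y) = τ.pt t x + τ.pt s y := by
  refine Prod.ext ?_ ?_
  · rw [Prod.fst_add, PAV_pt_fst, PAV_pt_fst, PAV_pt_fst]
    simp only [Pi.add_apply, add_mul, Finset.sum_add_distrib, Complex.ofReal_add]
    ring
  · rw [Prod.snd_add, PAV_pt_snd, PAV_pt_snd, PAV_pt_snd]
    simp only [Pi.add_apply, add_mul, Finset.sum_add_distrib, Complex.ofReal_add]

private theorem PAV_pt_smul (τ : Tor) (c t : ℝ) (x : Fin 3 → ℝ) :
    τ.pt (c * t) (c • x) = c • τ.pt t x := by
  refine Prod.ext ?_ ?_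
  · rw [Prod.smul_fst, PAV_pt_fst, PAV_pt_fst, Complex.real_smul]
    push_cast
    rw [mul_add, Finset.mul_sum]
    simp only [Pi.smul_apply, smul_eq_mul, Complex.ofReal_mul]
    congr 1
    · ring
    · exact Finset.sum_congr rfl fun i _ => by ring
  · rw [Prod.smul_snd, PAV_pt_snd, PAV_pt_snd, Complex.real_smul, Finset.mul_sum]
    simp only [Pi.smul_apply, smul_eq_mul, Complex.ofReal_mul]
    exact Finset.sum_congr rfl fun i _ => by ring

private theorem PAV_pt_single (τ : Tor) (t : ℝ) (x : Fin 3 → ℝ) (i : Fin 3) :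
    τ.pt t (x + Pi.single i 1) = τ.pt t x + τ.γ i := by
  have h1 : τ.pt 0 (Pi.single i 1) = τ.γ i := by
    refine Prod.ext ?_ ?_
    · rw [PAV_pt_fst]
      simp [Pi.single_apply, Tor.γ]
    · rw [PAV_pt_snd, Finset.sum_eq_single i]
      · simp [Tor.γ]
      · intro j _ hj
        simp [hj]
      · simp
  have h2 := PAV_pt_add τ t 0 x (Pi.single i 1)
  rwa [add_zero, h1] at h2

/-- the coordinates -/
private noncomputable def PAVe (τ : Tor) : (ℝ × (Fin 3 → ℝ)) ≃ₗ[ℝ] (ℂ × ℂ) where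
  toFun p := τ.pt p.1 p.2
  map_add' p q := PAV_pt_add τ p.1 q.1 p.2 q.2
  map_smul' c p := PAV_pt_smul τ c p.1 p.2
  invFun z := (ht z, PAVy τ z)
  left_inv p := Prod.ext (PAV_ht_pt τ p.1 p.2) (PAV_y_pt τ p.1 p.2)
  right_inv z := PAV_pt_y τ z

private theorem PAV_pt_cont (τ : Tor) : Continuous fun p : ℝ × (Fin 3 → ℝ) => τ.pt p.1 p.2 :=
  (PAVe τ).toLinearMap.continuous_of_finiteDimensional

private theorem PAV_y_cont (τ : Tor) : Continuous (PAVy τ) :=
  continuous_snd.comp (PAVe τ).symm.toLinearMap.continuous_of_finiteDimensional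

/-! ### the mean values -/

private theorem PAV_avg_add (τ : Tor) {f : ℂ × ℂ → ℝ} (hf : τ.Per f) (t : ℝ) (y : Fin 3 → ℝ) :
    ∫ x in Tor.cube, f (τ.pt t (y + x)) = τ.avg f t :=
  PAV_cubeper (fun x => f (τ.pt t x)) (fun x i => by
    show f (τ.pt t (x + Pi.single i 1)) = f (τ.pt t x)
    rw [PAV_pt_single, hf]) y

private theorem PAV_add_pt (τ : Tor) (z : ℂ × ℂ) (t : ℝ) (x : Fin 3 → ℝ) :
    z + τ.pt t x = τ.pt (ht z + t) (PAVy τ z + x) := by
  rw [PAV_pt_add, PAV_pt_y]

private theorem PAV_cube_cpt : IsCompact Tor.cube := isCompact_Icc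

private theorem PAV_cube_meas : MeasurableSet Tor.cube := isClosed_Icc.measurableSet

private theorem PAV_avg_cont (τ : Tor) {f : ℂ × ℂ → ℝ} (hf : Continuous f) :
    Continuous (τ.avg f) :=
  continuous_parametric_integral_of_continuous (f := fun t x => f (τ.pt t x))
    (hf.comp (PAV_pt_cont τ)) PAV_cube_cpt

private theorem PAV_four (τ : Tor) (r : ℝ) {f : ℂ × ℂ → ℝ} (hc : Continuous f) (hf : τ.Per f)
    (t : ℝ) : τ.avg (pav r f) t =
      pav r (fun z => τ.avg f (ht z)) ((t : ℂ) * Complex.I, 0) := by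
  have h1 : ∫ x in Tor.cube, (∫ a in Metric.closedBall (0 : ℂ) r ×ˢ Metric.closedBall (0 : ℂ) r,
      f (τ.pt t x + a)) = ∫ a in Metric.closedBall (0 : ℂ) r ×ˢ Metric.closedBall (0 : ℂ) r,
        (∫ x in Tor.cube, f (τ.pt t x + a)) := by
    refine integral_integral_swap ?_
    rw [Measure.prod_restrict]
    refine ContinuousOn.integrableOn_compact (PAV_cube_cpt.prod (PAV_cpt r))
      (Continuous.continuousOn ?_)
    have h2 : Continuous fun p : (Fin 3 → ℝ) × (ℂ × ℂ) => τ.pt t p.1 :=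
      (PAV_pt_cont τ).comp (continuous_const.prodMk continuous_fst)
    exact hc.comp (h2.add continuous_snd)
  have h3 : ∀ a : ℂ × ℂ, ∫ x in Tor.cube, f (τ.pt t x + a) =
      τ.avg f (ht (((t : ℂ) * Complex.I, 0) + a)) := by
    intro a
    have h4 : ht (((t : ℂ) * Complex.I, 0) + a) = ht a + t := by
      simp [ht, add_comm]
    rw [h4, ← PAV_avg_add τ hf (ht a + t) (PAVy τ a)]
    refine integral_congr_ae (Filter.Eventually.of_forall fun x => ?_)
    show f (τ.pt t x + a) = f (τ.pt (ht a + t) (PAVy τ a + x))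
    rw [← PAV_add_pt, add_comm]
  show ∫ x in Tor.cube, (1 / (Real.pi * r ^ 2) ^ 2 *
    ∫ a in Metric.closedBall (0 : ℂ) r ×ˢ Metric.closedBall (0 : ℂ) r, f (τ.pt t x + a)) = _
  rw [integral_const_mul, h1]
  unfold pav
  congr 1
  exact integral_congr_ae (Filter.Eventually.of_forall fun a => h3 a)

private theorem PAV_cover (N : ℕ) (h : (Fin 3 → ℝ) → ℝ) (hc : Continuous h) (h0 : ∀ x, 0 ≤ h x)
    (hh : ∀ x i, h (x + Pi.single i 1) = h x) :
    ∫ x in Set.Icc (fun _ : Fin 3 => -(N : ℝ)) (fun _ => (N : ℝ)), h x ≤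
      (Fintype.piFinset (fun _ : Fin 3 => Finset.Icc (-(N + 1 : ℤ)) (N + 1))).card *
        ∫ x in Tor.cube, h x := by
  set S := Fintype.piFinset (fun _ : Fin 3 => Finset.Icc (-(N + 1 : ℤ)) (N + 1)) with hS
  have h1 : ∀ y : Fin 3 → ℝ, Integrable (Tor.cube.indicator fun x => h (y + x)) := by
    intro y
    rw [integrable_indicator_iff PAV_cube_meas]
    exact (Continuous.continuousOn (hc.comp (continuous_const.add continuous_id))).integrableOn_compact
      PAV_cube_cpt
  have h2 : ∀ y : Fin 3 → ℝ, Integrable fun x => (Tor.cube.indicator fun x => h (y + x)) (x - y) :=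
    fun y => (h1 y).comp_sub_right y
  have h3 : ∀ y : Fin 3 → ℝ, ∫ x, (Tor.cube.indicator fun x => h (y + x)) (x - y) =
      ∫ x in Tor.cube, h x := by
    intro y
    rw [integral_sub_right_eq_self (fun x => (Tor.cube.indicator fun x => h (y + x)) x),
      integral_indicator PAV_cube_meas]
    exact PAV_cubeper h hh y
  have h4 : ∫ x in Set.Icc (fun _ : Fin 3 => -(N : ℝ)) (fun _ => (N : ℝ)), h x ≤
      ∫ x, ∑ k ∈ S, (Tor.cube.indicator fun x => h ((fun i => (k i : ℝ)) + x))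
        (x - fun i => (k i : ℝ)) := by
    rw [← integral_indicator isClosed_Icc.measurableSet]
    refine integral_mono ?_ (integrable_finsetSum S fun k _ => h2 _) ?_
    · rw [integrable_indicator_iff isClosed_Icc.measurableSet]
      exact hc.continuousOn.integrableOn_compact isCompact_Icc
    · intro x
      have h5 : ∀ k ∈ S, 0 ≤ (Tor.cube.indicator fun x => h ((fun i => (k i : ℝ)) + x))
          (x - fun i => (k i : ℝ)) := fun k _ => Set.indicator_nonneg (fun _ _ => h0 _) _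
      by_cases hx : x ∈ Set.Icc (fun _ : Fin 3 => -(N : ℝ)) (fun _ => (N : ℝ))
      · rw [Set.indicator_of_mem hx]
        have hk : (fun i => round (x i)) ∈ S := by
          rw [hS, Fintype.mem_piFinset]
          intro i
          have h6 := abs_sub_round (x i)
          have h7 := hx.1 i
          have h8 := hx.2 i
          rw [abs_le] at h6
          simp only at h7 h8
          rw [Finset.mem_Icc]
          constructor
          · have : (-(N + 1 : ℤ) : ℝ) < (round (x i) : ℝ) + 1 := by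
              push_cast
              linarith [h6.1, h6.2]
            have h9 : (-(N + 1 : ℤ)) < round (x i) + 1 := by exact_mod_cast this
            omega
          · have : (round (x i) : ℝ) < (((N : ℤ) + 1 : ℤ) : ℝ) + 1 := by
              push_cast
              linarith [h6.1, h6.2]
            have h9 : round (x i) < ((N : ℤ) + 1) + 1 := by exact_mod_cast this
            omega
        refine le_trans ?_ (Finset.single_le_sum h5 hk)
        rw [Set.indicator_of_mem]
        · rw [add_sub_cancel]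
        · constructor
          · intro i
            have h6 := abs_sub_round (x i)
            rw [abs_le] at h6
            exact h6.1
          · intro i
            have h6 := abs_sub_round (x i)
            rw [abs_le] at h6
            exact h6.2
      · rw [Set.indicator_of_notMem hx]
        exact Finset.sum_nonneg h5
  refine h4.trans ?_
  rw [integral_finsetSum S fun k _ => h2 _]
  simp only [h3]
  rw [Finset.sum_const, nsmul_eq_mul]

private theorem PAV_change (τ : Tor) : ∃ c : ℝ, 0 ≤ c ∧ ∀ (g : ℂ × ℂ → ℝ) (K : Set (ℂ × ℂ)),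
    ∫ a in K, g a = c * ∫ p in {p : ℝ × (Fin 3 → ℝ) | τ.pt p.1 p.2 ∈ K}, g (τ.pt p.1 p.2) := by
  set e := (PAVe τ).symm.toContinuousLinearEquiv with he
  have hv3 : (volume : Measure (ℂ × ℂ)).IsAddHaarMeasure :=
    Measure.prod.instIsAddHaarMeasure volume volume
  have hm : (Measure.map e (volume : Measure (ℂ × ℂ))).IsAddHaarMeasure :=
    e.isAddHaarMeasure_map volume
  have hv : (volume : Measure (Fin 3 → ℝ)).IsAddHaarMeasure := inferInstance
  have hv2 : (volume : Measure (ℝ × (Fin 3 → ℝ))).IsAddHaarMeasure :=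
    Measure.prod.instIsAddHaarMeasure volume volume
  set c := Measure.addHaarScalarFactor (Measure.map e (volume : Measure (ℂ × ℂ)))
    (volume : Measure (ℝ × (Fin 3 → ℝ))) with hc
  have h1 : Measure.map e (volume : Measure (ℂ × ℂ)) = c • volume :=
    Measure.isAddLeftInvariant_eq_smul _ _
  have hme : Measurable e := e.continuous.measurable
  have hmp : MeasurePreserving e (volume : Measure (ℂ × ℂ))
      (Measure.map e (volume : Measure (ℂ × ℂ))) := ⟨hme, rfl⟩
  refine ⟨c, c.2, fun g K => ?_⟩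
  have h2 := hmp.setIntegral_preimage_emb e.toHomeomorph.measurableEmbedding
    (fun p => g (τ.pt p.1 p.2)) {p : ℝ × (Fin 3 → ℝ) | τ.pt p.1 p.2 ∈ K}
  have h3 : ∀ a : ℂ × ℂ, τ.pt (e a).1 (e a).2 = a := fun a => PAV_pt_y τ a
  have h4 : e ⁻¹' {p : ℝ × (Fin 3 → ℝ) | τ.pt p.1 p.2 ∈ K} = K := by
    ext a
    show τ.pt (e a).1 (e a).2 ∈ K ↔ a ∈ K
    rw [h3]
  rw [h4, h1] at h2
  simp only [h3] at h2
  rw [h2, Measure.restrict_smul, integral_smul_nnreal_measure]
  rfl

private theorem PAV_three (τ : Tor) (r : ℝ) (hr : 0 < r) (hr1 : r ≤ 1) : ∃ C : ℝ, 0 ≤ C ∧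
    ∀ f : ℂ × ℂ → ℝ, Continuous f → τ.Per f →
    (∀ z, 0 ≤ f z) → ∀ z, pav r f z ≤ C * ∫ t in (ht z - 1)..(ht z + 1), τ.avg f t := by
  obtain ⟨c, hc0, hc⟩ := PAV_change τ
  obtain ⟨R, hR⟩ := (PAV_cpt r).exists_bound_of_continuousOn (PAV_y_cont τ).continuousOn
  obtain ⟨N, hN⟩ := exists_nat_ge R
  set m : ℕ := (Fintype.piFinset (fun _ : Fin 3 => Finset.Icc (-(N + 1 : ℤ)) (N + 1))).card with hm
  have hpos : 0 ≤ 1 / (Real.pi * r ^ 2) ^ 2 := by positivity
  refine ⟨1 / (Real.pi * r ^ 2) ^ 2 * (c * m), by positivity, fun f hf hper h0 z => ?_⟩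
  have hsub : {p : ℝ × (Fin 3 → ℝ) | τ.pt p.1 p.2 ∈
      Metric.closedBall (0 : ℂ) r ×ˢ Metric.closedBall (0 : ℂ) r} ⊆
      Set.Icc (-1 : ℝ) 1 ×ˢ Set.Icc (fun _ : Fin 3 => -(N : ℝ)) (fun _ => (N : ℝ)) := by
    rintro ⟨t, x⟩ hp
    have h1 := hR _ hp
    simp only at h1
    rw [PAV_y_pt] at h1
    have h2 : ∀ i, |x i| ≤ N := fun i => ((norm_le_pi_norm x i).trans h1).trans hN
    have h3 : |t| ≤ 1 := by
      have h4 := hp.1
      rw [mem_closedBall_zero_iff] at h4
      have h5 := Complex.abs_im_le_norm (τ.pt t x).1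
      have h6 := PAV_ht_pt τ t x
      unfold ht at h6
      rw [h6] at h5
      exact h5.trans (h4.trans hr1)
    exact ⟨abs_le.mp h3, fun i => (abs_le.mp (h2 i)).1, fun i => (abs_le.mp (h2 i)).2⟩
  have hcont : Continuous fun p : ℝ × (Fin 3 → ℝ) => f (z + τ.pt p.1 p.2) :=
    hf.comp (continuous_const.add (PAV_pt_cont τ))
  have hcpt : IsCompact (Set.Icc (-1 : ℝ) 1 ×ˢ
      Set.Icc (fun _ : Fin 3 => -(N : ℝ)) (fun _ => (N : ℝ))) := isCompact_Icc.prod isCompact_Icc
  have h1 : ∫ p in {p : ℝ × (Fin 3 → ℝ) | τ.pt p.1 p.2 ∈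
      Metric.closedBall (0 : ℂ) r ×ˢ Metric.closedBall (0 : ℂ) r}, f (z + τ.pt p.1 p.2) ≤
      ∫ p in Set.Icc (-1 : ℝ) 1 ×ˢ Set.Icc (fun _ : Fin 3 => -(N : ℝ)) (fun _ => (N : ℝ)),
        f (z + τ.pt p.1 p.2) := by
    refine setIntegral_mono_set (hcont.continuousOn.integrableOn_compact hcpt) ?_ ?_
    · exact Filter.Eventually.of_forall fun p => h0 _
    · exact hsub.eventuallyLE
  have h2 : ∫ p in Set.Icc (-1 : ℝ) 1 ×ˢ Set.Icc (fun _ : Fin 3 => -(N : ℝ)) (fun _ => (N : ℝ)),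
        f (z + τ.pt p.1 p.2) =
      ∫ t in Set.Icc (-1 : ℝ) 1, ∫ x in Set.Icc (fun _ : Fin 3 => -(N : ℝ)) (fun _ => (N : ℝ)),
        f (z + τ.pt t x) := by
    rw [Measure.volume_eq_prod]
    refine setIntegral_prod _ ?_
    rw [← Measure.volume_eq_prod]
    exact hcont.continuousOn.integrableOn_compact hcpt
  have h3 : ∫ t in Set.Icc (-1 : ℝ) 1,
      ∫ x in Set.Icc (fun _ : Fin 3 => -(N : ℝ)) (fun _ => (N : ℝ)), f (z + τ.pt t x) ≤
      ∫ t in Set.Icc (-1 : ℝ) 1, m * τ.avg f (ht z + t) := by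
    refine setIntegral_mono ?_ ?_ ?_
    · refine ContinuousOn.integrableOn_compact isCompact_Icc (Continuous.continuousOn ?_)
      exact continuous_parametric_integral_of_continuous (f := fun t x => f (z + τ.pt t x))
        hcont isCompact_Icc
    · refine ContinuousOn.integrableOn_compact isCompact_Icc (Continuous.continuousOn ?_)
      exact continuous_const.mul ((PAV_avg_cont τ hf).comp (continuous_const.add continuous_id))
    · intro t
      simp only
      have h4 := PAV_cover N (fun x => f (τ.pt (ht z + t) (PAVy τ z + x))) (by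
          have : Continuous fun x : Fin 3 → ℝ => τ.pt (ht z + t) (PAVy τ z + x) :=
            (PAV_pt_cont τ).comp (continuous_const.prodMk (continuous_const.add continuous_id))
          exact hf.comp this) (fun x => h0 _) (fun x i => by
          show f (τ.pt (ht z + t) (PAVy τ z + (x + Pi.single i 1))) = _
          rw [← add_assoc, PAV_pt_single, hper])
      rw [PAV_avg_add τ hper] at h4
      simpa only [PAV_add_pt] using h4
  have h5 : ∫ t in Set.Icc (-1 : ℝ) 1, m * τ.avg f (ht z + t) =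
      m * ∫ t in (ht z - 1)..(ht z + 1), τ.avg f t := by
    rw [integral_const_mul, integral_Icc_eq_integral_Ioc,
      ← intervalIntegral.integral_of_le (by norm_num : (-1 : ℝ) ≤ 1),
      intervalIntegral.integral_comp_add_left (fun t => τ.avg f t)]
    rfl
  have h6 : pav r f z = 1 / (Real.pi * r ^ 2) ^ 2 *
      (c * ∫ p in {p : ℝ × (Fin 3 → ℝ) | τ.pt p.1 p.2 ∈
        Metric.closedBall (0 : ℂ) r ×ˢ Metric.closedBall (0 : ℂ) r}, f (z + τ.pt p.1 p.2)) := by
    unfold pav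
    rw [hc (fun a => f (z + a))]
  rw [h6, mul_assoc, mul_assoc]
  refine mul_le_mul_of_nonneg_left (mul_le_mul_of_nonneg_left ?_ hc0) hpos
  rw [← h5]
  exact h1.trans (h2.le.trans h3)

theorem thm_PAV (τ : Tor) : St_PAV τ :=
  ⟨fun r _ _ hf => ⟨PAV_smooth r hf, fun v z => PAV_d1 r hf v z,
      fun v w z => PAV_d2 r hf v w z, fun hper => PAV_per τ r hper⟩,
    fun _ z hr => PAV_nsq hr z, fun r hr hr1 => PAV_three τ r hr hr1,
    fun r _ _ hc hper t => PAV_four τ r hc hper t⟩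

end Pool.Agent.KT
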