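import Pool.Agent.KT.St

set_option autoImplicit false

/-!
# KT / POI: Poincare inequality on the real torus
-/

namespace Pool.Agent.KT

open MeasureTheory

/-! ### one variable -/

/-- the mean over the unit interval -/
noncomputable def POI_J (f : ℝ → ℝ) : ℝ := ∫ x in (-(1 / 2) : ℝ)..(1 / 2), f x

theorem POI_cJ {X : Type*} [TopologicalSpace X] {f : X → ℝ → ℝ}
    (hf : Continuous (Function.uncurry f)) : Continuous fun x => POI_J (f x) :=
  intervalIntegral.continuous_parametric_intervalIntegral_of_continuous' hf _ _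

theorem POI_mono {f g : ℝ → ℝ} (hf : Continuous f) (hg : Continuous g)
    (h : ∀ x ∈ Set.Icc (-(1 / 2) : ℝ) (1 / 2), f x ≤ g x) : POI_J f ≤ POI_J g :=
  intervalIntegral.integral_mono_on (by norm_num) (hf.intervalIntegrable _ _)
    (hg.intervalIntegrable _ _) h

theorem POI_const (c : ℝ) : POI_J (fun _ => c) = c := by
  unfold POI_J
  rw [intervalIntegral.integral_const]
  norm_num

theorem POI_add {f g : ℝ → ℝ} (hf : Continuous f) (hg : Continuous g) :
    POI_J (fun x => f x + g x) = POI_J f + POI_J g :=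
  intervalIntegral.integral_add (hf.intervalIntegrable _ _) (hg.intervalIntegrable _ _)

theorem POI_sub {f g : ℝ → ℝ} (hf : Continuous f) (hg : Continuous g) :
    POI_J (fun x => f x - g x) = POI_J f - POI_J g :=
  intervalIntegral.integral_sub (hf.intervalIntegrable _ _) (hg.intervalIntegrable _ _)

theorem POI_nn {f : ℝ → ℝ} (h : ∀ x, 0 ≤ f x) : 0 ≤ POI_J f :=
  intervalIntegral.integral_nonneg (by norm_num) fun x _ => h x

theorem POI_dev {h : ℝ → ℝ} (hh : Continuous h) (m : ℝ) :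
    POI_J (fun x => (h x - m) ^ 2) = POI_J (fun x => h x ^ 2) - 2 * m * POI_J h + m ^ 2 := by
  have e : (fun x => (h x - m) ^ 2) = fun x => (h x ^ 2 - 2 * m * h x) + m ^ 2 := by
    funext x
    ring
  rw [e, POI_add (by fun_prop) (by fun_prop), POI_sub (by fun_prop) (by fun_prop), POI_const]
  have : POI_J (fun x => 2 * m * h x) = 2 * m * POI_J h :=
    intervalIntegral.integral_const_mul _ _
  rw [this]

theorem POI_sq {f : ℝ → ℝ} (hf : Continuous f) : POI_J f ^ 2 ≤ POI_J fun x => f x ^ 2 := by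
  have h := POI_dev hf (POI_J f)
  have h2 : 0 ≤ POI_J (fun x => (f x - POI_J f) ^ 2) := POI_nn fun x => sq_nonneg _
  nlinarith

theorem POI_var {h : ℝ → ℝ} (hh : Continuous h) {E : ℝ}
    (hE : ∀ x ∈ Set.Icc (-(1 / 2) : ℝ) (1 / 2), ∀ y ∈ Set.Icc (-(1 / 2) : ℝ) (1 / 2),
      (h x - h y) ^ 2 ≤ E) : POI_J (fun x => h x ^ 2) ≤ POI_J h ^ 2 + E := by
  have h1 := POI_dev hh (POI_J h)
  have h2 : POI_J (fun x => (h x - POI_J h) ^ 2) ≤ POI_J fun _ => E := by
    refine POI_mono (by fun_prop) continuous_const fun x hx => ?_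
    have e : h x - POI_J h = POI_J fun y => h x - h y := by
      rw [POI_sub continuous_const hh, POI_const]
    rw [e]
    refine (POI_sq (by fun_prop)).trans ?_
    refine (POI_mono (by fun_prop) continuous_const fun y hy => hE x hx y hy).trans ?_
    rw [POI_const]
  rw [POI_const] at h2
  nlinarith

theorem POI_path {G D : ℝ → ℝ} (hD : Continuous D) (h : ∀ s, HasDerivAt G (D s) s) {x y : ℝ}
    (hx : x ∈ Set.Icc (-(1 / 2) : ℝ) (1 / 2)) (hy : y ∈ Set.Icc (-(1 / 2) : ℝ) (1 / 2)) :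
    (G x - G y) ^ 2 ≤ POI_J fun s => D s ^ 2 := by
  have key : ∀ x ∈ Set.Icc (-(1 / 2) : ℝ) (1 / 2), ∀ y ∈ Set.Icc (-(1 / 2) : ℝ) (1 / 2), y ≤ x →
      |G x - G y| ≤ POI_J fun s => |D s| := by
    intro x hx y hy hyx
    rw [← intervalIntegral.integral_eq_sub_of_hasDerivAt (fun s _ => h s)
      (hD.intervalIntegrable _ _)]
    refine (intervalIntegral.abs_integral_le_integral_abs hyx).trans ?_
    unfold POI_J
    refine intervalIntegral.integral_mono_interval hy.1 hyx hx.2 ?_ (hD.abs.intervalIntegrable _ _)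
    exact Filter.Eventually.of_forall fun s => abs_nonneg _
  have h2 : |G x - G y| ≤ POI_J fun s => |D s| := by
    rcases le_total y x with hyx | hyx
    · exact key x hx y hy hyx
    · rw [abs_sub_comm]
      exact key y hy x hx hyx
  have h3 := POI_sq hD.abs
  simp only [sq_abs] at h3
  refine le_trans ?_ h3
  rw [← sq_abs (G x - G y)]
  exact pow_le_pow_left₀ (abs_nonneg _) h2 2

/-! ### three variables -/

theorem POI_swap {F : ℝ → ℝ → ℝ} (hF : Continuous (Function.uncurry F)) :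
    (POI_J fun x => POI_J fun y => F x y) = POI_J fun y => POI_J fun x => F x y := by
  unfold POI_J
  refine MeasureTheory.intervalIntegral_intervalIntegral_swap ?_
  have h : IntegrableOn (Function.uncurry F)
      (Set.Icc (-(1 / 2) : ℝ) (1 / 2) ×ˢ Set.Icc (-(1 / 2) : ℝ) (1 / 2)) :=
    hF.continuousOn.integrableOn_compact (isCompact_Icc.prod isCompact_Icc)
  have h2 := h.mono_set (Set.prod_mono Set.Ioc_subset_Icc_self Set.Ioc_subset_Icc_self)
  rw [Set.uIoc_of_le (by norm_num)]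
  exact h2

theorem POI_3 {G D0 D1 D2 : ℝ → ℝ → ℝ → ℝ}
    (hG : Continuous fun p : ℝ × ℝ × ℝ => G p.1 p.2.1 p.2.2)
    (c0 : Continuous fun p : ℝ × ℝ × ℝ => D0 p.1 p.2.1 p.2.2)
    (c1 : Continuous fun p : ℝ × ℝ × ℝ => D1 p.1 p.2.1 p.2.2)
    (c2 : Continuous fun p : ℝ × ℝ × ℝ => D2 p.1 p.2.1 p.2.2)
    (h0 : ∀ a b c, HasDerivAt (fun s => G s b c) (D0 a b c) a)
    (h1 : ∀ a b c, HasDerivAt (fun s => G a s c) (D1 a b c) b)
    (h2 : ∀ a b c, HasDerivAt (fun s => G a b s) (D2 a b c) c)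
    (hz : (POI_J fun a => POI_J fun b => POI_J fun c => G a b c) = 0) :
    (POI_J fun a => POI_J fun b => POI_J fun c => G a b c ^ 2) ≤
      (POI_J fun a => POI_J fun b => POI_J fun c => D0 a b c ^ 2) +
      (POI_J fun a => POI_J fun b => POI_J fun c => D1 a b c ^ 2) +
      (POI_J fun a => POI_J fun b => POI_J fun c => D2 a b c ^ 2) := by
  -- continuity of the means
  have g3 : ∀ a b, Continuous fun c => G a b c := fun a b =>
    hG.comp (by fun_prop : Continuous fun c : ℝ => ((a, b, c) : ℝ × ℝ × ℝ))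
  have g2 : Continuous fun p : ℝ × ℝ => POI_J fun c => G p.1 p.2 c :=
    POI_cJ (hG.comp (by fun_prop :
      Continuous fun q : (ℝ × ℝ) × ℝ => ((q.1.1, q.1.2, q.2) : ℝ × ℝ × ℝ)))
  have g2' : ∀ a, Continuous fun b => POI_J fun c => G a b c := fun a =>
    g2.comp (by fun_prop : Continuous fun b : ℝ => ((a, b) : ℝ × ℝ))
  have g1 : Continuous fun a => POI_J fun b => POI_J fun c => G a b c := POI_cJ g2
  have k3 : ∀ {K : ℝ → ℝ → ℝ → ℝ}, (Continuous fun p : ℝ × ℝ × ℝ => K p.1 p.2.1 p.2.2) →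
      Continuous fun p : ℝ × ℝ => POI_J fun c => K p.1 p.2 c := fun hK =>
    POI_cJ (hK.comp (by fun_prop :
      Continuous fun q : (ℝ × ℝ) × ℝ => ((q.1.1, q.1.2, q.2) : ℝ × ℝ × ℝ)))
  have k2 : ∀ {K : ℝ → ℝ → ℝ → ℝ}, (Continuous fun p : ℝ × ℝ × ℝ => K p.1 p.2.1 p.2.2) →
      ∀ a, Continuous fun b => POI_J fun c => K a b c := fun hK a =>
    (k3 hK).comp (by fun_prop : Continuous fun b : ℝ => ((a, b) : ℝ × ℝ))
  have k1 : ∀ {K : ℝ → ℝ → ℝ → ℝ}, (Continuous fun p : ℝ × ℝ × ℝ => K p.1 p.2.1 p.2.2) →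
      Continuous fun a => POI_J fun b => POI_J fun c => K a b c := fun hK => POI_cJ (k3 hK)
  have sG : Continuous fun p : ℝ × ℝ × ℝ => G p.1 p.2.1 p.2.2 ^ 2 := hG.pow 2
  have s0 : Continuous fun p : ℝ × ℝ × ℝ => D0 p.1 p.2.1 p.2.2 ^ 2 := c0.pow 2
  have s1 : Continuous fun p : ℝ × ℝ × ℝ => D1 p.1 p.2.1 p.2.2 ^ 2 := c1.pow 2
  have s2 : Continuous fun p : ℝ × ℝ × ℝ => D2 p.1 p.2.1 p.2.2 ^ 2 := c2.pow 2
  -- innermost variable
  have A : ∀ a b, (POI_J fun c => G a b c ^ 2) ≤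
      (POI_J fun c => G a b c) ^ 2 + POI_J fun c => D2 a b c ^ 2 := by
    intro a b
    refine POI_var (g3 a b) fun x hx y hy => ?_
    exact POI_path (c2.comp (by fun_prop : Continuous fun c : ℝ => ((a, b, c) : ℝ × ℝ × ℝ)))
      (fun s => h2 a b s) hx hy
  -- middle variable
  have B : ∀ a, (POI_J fun b => (POI_J fun c => G a b c) ^ 2) ≤
      (POI_J fun b => POI_J fun c => G a b c) ^ 2 +
        POI_J fun b => POI_J fun c => D1 a b c ^ 2 := by
    intro a
    refine POI_var (g2' a) fun x hx y hy => ?_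
    rw [← POI_sub (g3 a x) (g3 a y)]
    refine (POI_sq ((g3 a x).sub (g3 a y))).trans ?_
    rw [POI_swap (F := fun b c => D1 a b c ^ 2)
      (s1.comp (by fun_prop : Continuous fun q : ℝ × ℝ => ((a, q.1, q.2) : ℝ × ℝ × ℝ)))]
    refine POI_mono (((g3 a x).sub (g3 a y)).pow 2) (POI_cJ (f := fun c b => D1 a b c ^ 2)
      (s1.comp (by fun_prop : Continuous fun q : ℝ × ℝ => ((a, q.2, q.1) : ℝ × ℝ × ℝ))))
      fun c _ => ?_
    exact POI_path (c1.comp (by fun_prop : Continuous fun b : ℝ => ((a, b, c) : ℝ × ℝ × ℝ)))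
      (fun s => h1 a s c) hx hy
  -- outermost variable
  have C : (POI_J fun a => (POI_J fun b => POI_J fun c => G a b c) ^ 2) ≤
      (POI_J fun a => POI_J fun b => POI_J fun c => G a b c) ^ 2 +
        POI_J fun a => POI_J fun b => POI_J fun c => D0 a b c ^ 2 := by
    refine POI_var g1 fun x hx y hy => ?_
    rw [← POI_sub (g2' x) (g2' y)]
    refine (POI_sq ((g2' x).sub (g2' y))).trans ?_
    rw [POI_swap (F := fun a b => POI_J fun c => D0 a b c ^ 2)
      (k3 (K := fun a b c => D0 a b c ^ 2) s0)]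
    have k3' : Continuous fun q : ℝ × ℝ => POI_J fun c => D0 q.2 q.1 c ^ 2 :=
      (k3 (K := fun a b c => D0 a b c ^ 2) s0).comp continuous_swap
    refine POI_mono (((g2' x).sub (g2' y)).pow 2)
      (POI_cJ (f := fun b a => POI_J fun c => D0 a b c ^ 2) k3') fun b _ => ?_
    show ((POI_J fun c => G x b c) - POI_J fun c => G y b c) ^ 2 ≤ _
    rw [← POI_sub (g3 x b) (g3 y b)]
    refine (POI_sq ((g3 x b).sub (g3 y b))).trans ?_
    rw [POI_swap (F := fun a c => D0 a b c ^ 2)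
      (s0.comp (by fun_prop : Continuous fun q : ℝ × ℝ => ((q.1, b, q.2) : ℝ × ℝ × ℝ)))]
    refine POI_mono (((g3 x b).sub (g3 y b)).pow 2) (POI_cJ (f := fun c a => D0 a b c ^ 2)
      (s0.comp (by fun_prop : Continuous fun q : ℝ × ℝ => ((q.2, b, q.1) : ℝ × ℝ × ℝ))))
      fun c _ => ?_
    exact POI_path (c0.comp (by fun_prop : Continuous fun a : ℝ => ((a, b, c) : ℝ × ℝ × ℝ)))
      (fun s => h0 s b c) hx hy
  rw [hz] at C
  have m1 : Continuous fun a => POI_J fun b => (POI_J fun c => G a b c) ^ 2 :=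
    POI_cJ (f := fun a b => (POI_J fun c => G a b c) ^ 2) (g2.pow 2)
  have q1 : Continuous fun a => (POI_J fun b => POI_J fun c => G a b c) ^ 2 := g1.pow 2
  have q2 : ∀ a, Continuous fun b => (POI_J fun c => G a b c) ^ 2 := fun a => (g2' a).pow 2
  have u2 := k1 (K := fun a b c => D2 a b c ^ 2) s2
  have u1 := k1 (K := fun a b c => D1 a b c ^ 2) s1
  have uG := k1 (K := fun a b c => G a b c ^ 2) sG
  have A2 : (POI_J fun a => POI_J fun b => POI_J fun c => G a b c ^ 2) ≤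
      (POI_J fun a => POI_J fun b => (POI_J fun c => G a b c) ^ 2) +
        POI_J fun a => POI_J fun b => POI_J fun c => D2 a b c ^ 2 := by
    rw [← POI_add m1 u2]
    refine POI_mono uG (m1.add u2) fun a _ => ?_
    have v2 := k2 (K := fun a b c => D2 a b c ^ 2) s2 a
    have vG := k2 (K := fun a b c => G a b c ^ 2) sG a
    rw [← POI_add (q2 a) v2]
    exact POI_mono vG ((q2 a).add v2) fun b _ => A a b
  have B2 : (POI_J fun a => POI_J fun b => (POI_J fun c => G a b c) ^ 2) ≤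
      (POI_J fun a => (POI_J fun b => POI_J fun c => G a b c) ^ 2) +
        POI_J fun a => POI_J fun b => POI_J fun c => D1 a b c ^ 2 := by
    rw [← POI_add q1 u1]
    exact POI_mono m1 (q1.add u1) fun a _ => B a
  linarith

/-! ### the cube -/

/-- the coordinates -/
noncomputable def POI_e : (Fin 3 → ℝ) ≃ᵐ ℝ × ℝ × ℝ :=
  (MeasurableEquiv.piFinSuccAbove (fun _ : Fin 3 => ℝ) 0).trans
    (MeasurableEquiv.prodCongr (MeasurableEquiv.refl ℝ) (MeasurableEquiv.finTwoArrow (α := ℝ)))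

theorem POI_e_apply (u : Fin 3 → ℝ) : POI_e u = (u 0, u 1, u 2) := rfl

theorem POI_mp : MeasurePreserving POI_e volume volume :=
  ((MeasurePreserving.id (volume : Measure ℝ)).prod (volume_preserving_finTwoArrow ℝ)).comp
    (volume_preserving_piFinSuccAbove (fun _ : Fin 3 => ℝ) 0)

theorem POI_Icc (f : ℝ → ℝ) : ∫ x in Set.Icc (-(1 / 2) : ℝ) (1 / 2), f x = POI_J f := by
  unfold POI_J
  rw [intervalIntegral.integral_of_le (by norm_num), integral_Icc_eq_integral_Ioc]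

theorem POI_vec (u : Fin 3 → ℝ) : ![u 0, u 1, u 2] = u := by
  ext i
  fin_cases i <;> rfl

theorem POI_cvec : Continuous fun q : ℝ × ℝ × ℝ => ![q.1, q.2.1, q.2.2] := by
  refine continuous_pi fun i => ?_
  fin_cases i
  · exact continuous_fst
  · exact continuous_snd.fst
  · exact continuous_snd.snd

theorem POI_iter (F : (Fin 3 → ℝ) → ℝ) (hF : Continuous F) :
    ∫ x in Tor.cube, F x = POI_J fun a => POI_J fun b => POI_J fun c => F ![a, b, c] := by
  have hc : Tor.cube = POI_e ⁻¹' (Set.Icc (-(1 / 2) : ℝ) (1 / 2) ×ˢ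
      (Set.Icc (-(1 / 2) : ℝ) (1 / 2) ×ˢ Set.Icc (-(1 / 2) : ℝ) (1 / 2))) := by
    ext u
    rw [Set.mem_preimage, POI_e_apply]
    unfold Tor.cube
    simp only [Set.mem_Icc, Pi.le_def, Fin.forall_fin_succ, Set.mem_prod, IsEmpty.forall_iff,
      and_true]
    constructor
    · rintro ⟨⟨h1, h2, h3⟩, h4, h5, h6⟩
      exact ⟨⟨h1, h4⟩, ⟨h2, h5⟩, h3, h6⟩
    · rintro ⟨⟨h1, h4⟩, ⟨h2, h5⟩, h3, h6⟩
      exact ⟨⟨h1, h2, h3⟩, h4, h5, h6⟩
  have hf : ∀ u, F u = (fun q : ℝ × ℝ × ℝ => F ![q.1, q.2.1, q.2.2]) (POI_e u) := by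
    intro u
    simp only [POI_e_apply, POI_vec]
  have hcont : Continuous fun q : ℝ × ℝ × ℝ => F ![q.1, q.2.1, q.2.2] := hF.comp POI_cvec
  have h1 := POI_mp.setIntegral_preimage_emb POI_e.measurableEmbedding
    (fun q : ℝ × ℝ × ℝ => F ![q.1, q.2.1, q.2.2]) (Set.Icc (-(1 / 2) : ℝ) (1 / 2) ×ˢ
      (Set.Icc (-(1 / 2) : ℝ) (1 / 2) ×ˢ Set.Icc (-(1 / 2) : ℝ) (1 / 2)))
  rw [← hc] at h1
  rw [show F = fun u => (fun q : ℝ × ℝ × ℝ => F ![q.1, q.2.1, q.2.2]) (POI_e u) from funext hf,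
    h1, Measure.volume_eq_prod, setIntegral_prod _ ?_]
  · rw [POI_Icc]
    congr 1
    funext a
    rw [Measure.volume_eq_prod, setIntegral_prod _ ?_, POI_Icc]
    · congr 1
      funext b
      rw [POI_Icc]
      rfl
    · rw [← Measure.volume_eq_prod]
      exact (hcont.comp (by fun_prop : Continuous fun q : ℝ × ℝ =>
        ((a, q.1, q.2) : ℝ × ℝ × ℝ))).continuousOn.integrableOn_compact
        (isCompact_Icc.prod isCompact_Icc)
  · rw [← Measure.volume_eq_prod]
    exact hcont.continuousOn.integrableOn_compact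
      (isCompact_Icc.prod (isCompact_Icc.prod isCompact_Icc))

/-! ### the inequality -/

theorem POI_pt (τ : Tor) (t : ℝ) (x : Fin 3 → ℝ) :
    τ.pt t x = ((t : ℂ) * Complex.I, 0) + (x 0 • τ.γ 0 + x 1 • τ.γ 1 + x 2 • τ.γ 2) := by
  unfold Tor.pt
  rw [Fin.sum_univ_three]
  rfl

theorem POI_pt3 (τ : Tor) (t a b c : ℝ) :
    τ.pt t ![a, b, c] = ((t : ℂ) * Complex.I, 0) + (a • τ.γ 0 + b • τ.γ 1 + c • τ.γ 2) :=
  POI_pt τ t _

theorem POI_cpt (τ : Tor) (t : ℝ) : Continuous fun x : Fin 3 → ℝ => τ.pt t x := by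
  have h : (fun x : Fin 3 → ℝ => τ.pt t x) = fun x =>
      ((t : ℂ) * Complex.I, 0) + (x 0 • τ.γ 0 + x 1 • τ.γ 1 + x 2 • τ.γ 2) :=
    funext fun x => POI_pt τ t x
  rw [h]
  fun_prop

theorem POI_gam (τ : Tor) (i : Fin 3) :
    τ.γ i = τ.a i • e1 + (τ.b i).re • e3 + (τ.b i).im • e4 := by
  unfold Tor.γ e1 e3 e4
  ext <;> simp

theorem POI_d1 (τ : Tor) (g : ℂ × ℂ → ℝ) (i : Fin 3) (z : ℂ × ℂ) :
    d1 g (τ.γ i) z = τ.a i * d1 g e1 z + (τ.b i).re * d1 g e3 z + (τ.b i).im * d1 g e4 z := by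
  unfold d1
  rw [POI_gam]
  simp

theorem thm_POI (τ : Tor) : St_POI τ := by
  set N : Fin 3 → ℝ := fun i => τ.a i ^ 2 + (τ.b i).re ^ 2 + (τ.b i).im ^ 2 with hN
  have hN0 : ∀ i, 0 ≤ N i := fun i => by positivity
  refine ⟨1 / (N 0 + N 1 + N 2 + 1), by have := hN0 0; have := hN0 1; have := hN0 2; positivity, ?_⟩
  intro g _ hg t hz
  have hgc : Continuous g := hg.continuous
  have hd : ∀ v, Continuous fun z => d1 g v z := fun v => by
    unfold d1
    exact (hg.continuous_fderiv one_ne_zero).clm_apply continuous_const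
  have hav : ∀ f : ℂ × ℂ → ℝ, Continuous f → τ.avg f t =
      POI_J fun a => POI_J fun b => POI_J fun c => f (τ.pt t ![a, b, c]) := fun f hf =>
    POI_iter _ (hf.comp (POI_cpt τ t))
  have hcp : Continuous fun p : ℝ × ℝ × ℝ => τ.pt t ![p.1, p.2.1, p.2.2] :=
    (POI_cpt τ t).comp POI_cvec
  have hder : ∀ (x v : ℂ × ℂ) (s : ℝ) (w : ℝ → ℂ × ℂ), w s = x → HasDerivAt w v s →
      HasDerivAt (fun s => g (w s)) (d1 g v x) s := by
    intro x v s w hx hw
    subst hx
    exact ((hg.differentiable one_ne_zero) (w s)).hasFDerivAt.comp_hasDerivAt s hw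
  have key := POI_3 (G := fun a b c => g (τ.pt t ![a, b, c]))
    (D0 := fun a b c => d1 g (τ.γ 0) (τ.pt t ![a, b, c]))
    (D1 := fun a b c => d1 g (τ.γ 1) (τ.pt t ![a, b, c]))
    (D2 := fun a b c => d1 g (τ.γ 2) (τ.pt t ![a, b, c]))
    (hgc.comp hcp) ((hd _).comp hcp) ((hd _).comp hcp) ((hd _).comp hcp)
    (fun a b c => hder _ _ a (fun s => τ.pt t ![s, b, c]) rfl (by
      simp only [POI_pt3]
      have h1 : HasDerivAt (fun s : ℝ => s • τ.γ 0) (τ.γ 0) a := by
        simpa using (hasDerivAt_id a).smul_const (τ.γ 0)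
      exact ((h1.add_const _).add_const _).const_add _))
    (fun a b c => hder _ _ b (fun s => τ.pt t ![a, s, c]) rfl (by
      simp only [POI_pt3]
      have h1 : HasDerivAt (fun s : ℝ => s • τ.γ 1) (τ.γ 1) b := by
        simpa using (hasDerivAt_id b).smul_const (τ.γ 1)
      exact ((h1.const_add _).add_const _).const_add _))
    (fun a b c => hder _ _ c (fun s => τ.pt t ![a, b, s]) rfl (by
      simp only [POI_pt3]
      have h1 : HasDerivAt (fun s : ℝ => s • τ.γ 2) (τ.γ 2) c := by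
        simpa using (hasDerivAt_id c).smul_const (τ.γ 2)
      exact (h1.const_add _).const_add _))
    (by rw [← hav g hgc]; exact hz)
  rw [← hav (fun z => g z ^ 2) (hgc.pow 2), ← hav (fun z => d1 g (τ.γ 0) z ^ 2) ((hd _).pow 2),
    ← hav (fun z => d1 g (τ.γ 1) z ^ 2) ((hd _).pow 2),
    ← hav (fun z => d1 g (τ.γ 2) z ^ 2) ((hd _).pow 2)] at key
  set S : ℂ × ℂ → ℝ := fun z => d1 g e1 z ^ 2 + d1 g e3 z ^ 2 + d1 g e4 z ^ 2 with hS
  have hSc : Continuous S := (((hd _).pow 2).add ((hd _).pow 2)).add ((hd _).pow 2)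
  have hle : ∀ i, τ.avg (fun z => d1 g (τ.γ i) z ^ 2) t ≤ N i * τ.avg S t := by
    intro i
    unfold Tor.avg
    rw [← integral_const_mul]
    refine setIntegral_mono_on ?_ ?_ ?_ fun x _ => ?_
    · exact (((hd _).comp (POI_cpt τ t)).pow 2).continuousOn.integrableOn_compact isCompact_Icc
    · exact (((hSc.comp (POI_cpt τ t))).const_smul (N i)).continuousOn.integrableOn_compact
        isCompact_Icc
    · exact measurableSet_Icc
    · simp only [POI_d1, hS, hN]
      nlinarith [sq_nonneg (τ.a i * d1 g e3 (τ.pt t x) - (τ.b i).re * d1 g e1 (τ.pt t x)),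
        sq_nonneg (τ.a i * d1 g e4 (τ.pt t x) - (τ.b i).im * d1 g e1 (τ.pt t x)),
        sq_nonneg ((τ.b i).re * d1 g e4 (τ.pt t x) - (τ.b i).im * d1 g e3 (τ.pt t x))]
  have hS0 : 0 ≤ τ.avg S t := by
    unfold Tor.avg
    exact integral_nonneg fun x => by simp only [hS]; positivity
  have h0 := hle 0
  have h1 := hle 1
  have h2 := hle 2
  have hpos : 0 < N 0 + N 1 + N 2 + 1 := by
    have := hN0 0
    have := hN0 1
    have := hN0 2
    positivity
  rw [div_mul_eq_mul_div, one_mul, div_le_iff₀ hpos]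
  nlinarith

end Pool.Agent.KT
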