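import Pool.Agent.KT.St

/-!
# KT / RAD: the local mass
-/

set_option autoImplicit false

open scoped BigOperators ComplexConjugate Topology
open MeasureTheory

namespace Pool.Agent.KT

/-! ### radial integrals -/

private theorem RAD_circ (h : ℝ → ℝ) :
    ∫ w : ℂ, h (‖w‖ ^ 2) = Real.pi * ∫ s in Set.Ioi (0 : ℝ), h s := by
  have h1 := integral_fun_norm_addHaar (volume : Measure ℂ) (fun y => h (y ^ 2))
  have h2 : Module.finrank ℝ ℂ = 2 := Complex.finrank_real_complex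
  have h3 : (volume : Measure ℂ).real (Metric.ball 0 1) = Real.pi := by
    simp [Measure.real, Complex.volume_ball]
  have h4 := integral_comp_rpow_Ioi_of_pos (g := h) (p := 2) two_pos
  rw [h1, h2, h3, ← h4]
  have h5 : ∫ x in Set.Ioi (0 : ℝ), ((2 : ℝ) * x ^ ((2 : ℝ) - 1)) • h (x ^ (2 : ℝ)) =
      ∫ x in Set.Ioi (0 : ℝ), 2 * (x ^ (2 - 1) • h (x ^ 2)) := by
    refine setIntegral_congr_fun measurableSet_Ioi fun x hx => ?_
    have e1 : (2 : ℝ) - 1 = 1 := by norm_num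
    have e2 : x ^ (2 : ℝ) = x ^ (2 : ℕ) := by exact_mod_cast Real.rpow_natCast x 2
    simp only [e1, e2, Real.rpow_one, smul_eq_mul]
    ring
  rw [h5, integral_const_mul]
  simp only [nsmul_eq_mul, smul_eq_mul, Nat.cast_ofNat]
  ring

private theorem RAD_nsq_cont : Continuous nsq := by
  unfold nsq
  fun_prop

private theorem RAD_nsq_nonneg (z : ℂ × ℂ) : 0 ≤ nsq z := by
  unfold nsq
  positivity

private theorem RAD_cpt (R : ℝ) : IsCompact {z : ℂ × ℂ | nsq z ≤ R} := by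
  refine IsCompact.of_isClosed_subset (isCompact_closedBall (0 : ℂ × ℂ) (Real.sqrt R))
    (isClosed_le RAD_nsq_cont continuous_const) ?_
  intro z hz
  have hz' : ‖z.1‖ ^ 2 + ‖z.2‖ ^ 2 ≤ R := hz
  rw [mem_closedBall_zero_iff, Prod.norm_def, max_le_iff]
  constructor
  · apply Real.le_sqrt_of_sq_le
    nlinarith [sq_nonneg ‖z.2‖]
  · apply Real.le_sqrt_of_sq_le
    nlinarith [sq_nonneg ‖z.1‖]

/-- the data of a cut-off function -/
private structure RAD_Chi (χ : ℝ → ℝ) (a b : ℝ) : Prop where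
  a0 : 0 < a
  ab : a < b
  sm : ContDiff ℝ (⊤ : ℕ∞) χ
  anti : Antitone χ
  one : ∀ s, s ≤ a → χ s = 1
  zero : ∀ s, b ≤ s → χ s = 0

namespace RAD_Chi

variable {χ : ℝ → ℝ} {a b : ℝ}

private theorem dc (h : RAD_Chi χ a b) : Continuous (deriv χ) :=
  h.sm.continuous_deriv (by simp)

private theorem d_lt (h : RAD_Chi χ a b) {s : ℝ} (hs : s < a) : deriv χ s = 0 := by
  have h1 : χ =ᶠ[𝓝 s] fun _ => (1 : ℝ) := by
    filter_upwards [Iio_mem_nhds hs] with t ht
    exact h.one t (le_of_lt ht)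
  rw [h1.deriv_eq]
  simp

private theorem d_gt (h : RAD_Chi χ a b) {s : ℝ} (hs : b < s) : deriv χ s = 0 := by
  have h1 : χ =ᶠ[𝓝 s] fun _ => (0 : ℝ) := by
    filter_upwards [Ioi_mem_nhds hs] with t ht
    exact h.zero t (le_of_lt ht)
  rw [h1.deriv_eq]
  simp

private theorem d_nonpos (h : RAD_Chi χ a b) (s : ℝ) : deriv χ s ≤ 0 :=
  h.anti.deriv_nonpos

/-- the weight -/
private noncomputable def om (χ : ℝ → ℝ) (a : ℝ) (s : ℝ) : ℝ := -deriv χ s / max s a

private theorem om_cont (h : RAD_Chi χ a b) : Continuous (om χ a) := by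
  unfold om
  refine h.dc.neg.div (continuous_id.max continuous_const) fun s => ?_
  exact (lt_of_lt_of_le h.a0 (le_max_right _ _)).ne'

private theorem om_nonneg (h : RAD_Chi χ a b) (s : ℝ) : 0 ≤ om χ a s :=
  div_nonneg (neg_nonneg.2 (h.d_nonpos s)) (h.a0.le.trans (le_max_right _ _))

private theorem om_gt (h : RAD_Chi χ a b) {s : ℝ} (hs : b < s) : om χ a s = 0 := by
  unfold om
  rw [h.d_gt hs]
  simp

private theorem om_mul (h : RAD_Chi χ a b) (s : ℝ) : s * om χ a s = -deriv χ s := by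
  unfold om
  rcases lt_or_ge s a with hs | hs
  · rw [h.d_lt hs]
    simp
  · rw [max_eq_left hs]
    have : s ≠ 0 := (h.a0.trans_le hs).ne'
    field_simp

private theorem om_lt (h : RAD_Chi χ a b) {s : ℝ} (hs : s < a) : om χ a s = 0 := by
  unfold om
  rw [h.d_lt hs]
  simp

private theorem om_cs (h : RAD_Chi χ a b) : HasCompactSupport (om χ a) := by
  refine HasCompactSupport.intro (isCompact_Icc (a := a) (b := b)) fun s hs => ?_
  rw [Set.mem_Icc, not_and_or, not_le, not_le] at hs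
  rcases hs with hs | hs
  · exact h.om_lt hs
  · exact h.om_gt hs

private theorem int_Ioi (h : RAD_Chi χ a b) (t : ℝ) :
    ∫ s in Set.Ioi t, om χ a s = ∫ s in t..b, om χ a s := by
  have hi : Integrable (om χ a) := h.om_cont.integrable_of_hasCompactSupport h.om_cs
  have h0 : ∫ s in Set.Ioi b, om χ a s = 0 :=
    setIntegral_eq_zero_of_forall_eq_zero fun s hs => h.om_gt hs
  rw [← intervalIntegral.integral_interval_add_Ioi (hi.integrableOn) (hi.integrableOn) (b := b),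
    h0, add_zero]

private theorem int_H (h : RAD_Chi χ a b) :
    ∫ t in Set.Ioi (0 : ℝ), (∫ s in t..b, om χ a s) = 1 := by
  set H : ℝ → ℝ := fun t => ∫ s in t..b, om χ a s with hH
  have hd : ∀ t, HasDerivAt H (-om χ a t) t := by
    intro t
    exact intervalIntegral.integral_hasDerivAt_left
      (h.om_cont.intervalIntegrable _ _) (h.om_cont.stronglyMeasurableAtFilter _ _)
      h.om_cont.continuousAt
  have hHc : Continuous H := by
    rw [continuous_iff_continuousAt]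
    exact fun t => (hd t).continuousAt
  have hH0 : ∀ t, b ≤ t → H t = 0 := by
    intro t ht
    rw [hH]
    simp only
    rw [← h.int_Ioi]
    exact setIntegral_eq_zero_of_forall_eq_zero fun s hs => h.om_gt (ht.trans_lt hs)
  have hb : (0 : ℝ) < b := h.a0.trans h.ab
  have hs : HasCompactSupport fun t => H t * (if 0 ≤ t then (1 : ℝ) else 0) := by
    refine HasCompactSupport.intro (isCompact_Icc (a := (0 : ℝ)) (b := b)) fun s hs => ?_
    rw [Set.mem_Icc, not_and_or, not_le, not_le] at hs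
    rcases hs with hs | hs
    · simp [not_le.2 hs]
    · rw [hH0 s hs.le, zero_mul]
  have hdis : Set.Ioi (0 : ℝ) = Set.Ioc 0 b ∪ Set.Ioi b := (Set.Ioc_union_Ioi_eq_Ioi hb.le).symm
  have h1 : ∫ t in Set.Ioi (0 : ℝ), H t = ∫ t in Set.Ioc 0 b, H t := by
    rw [hdis, setIntegral_union Set.Ioc_disjoint_Ioi_same measurableSet_Ioi
      (hHc.integrableOn_Ioc)]
    · have h0 : ∫ s in Set.Ioi b, H s = 0 :=
        setIntegral_eq_zero_of_forall_eq_zero fun s hs => hH0 s (le_of_lt hs)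
      rw [h0, add_zero]
    · have h2 : IntegrableOn (fun _ : ℝ => (0 : ℝ)) (Set.Ioi b) := integrableOn_zero
      exact h2.congr_fun (fun s hs => (hH0 s (le_of_lt hs)).symm) measurableSet_Ioi
  rw [h1, ← intervalIntegral.integral_of_le hb.le]
  have hQ : ∀ t ∈ Set.uIcc 0 b, HasDerivAt (fun t => t * H t - χ t) (H t) t := by
    intro t _
    have h2 := ((hasDerivAt_id t).mul (hd t)).sub (h.sm.differentiable (by simp) t).hasDerivAt
    have h3 : 1 * H t + id t * -om χ a t - deriv χ t = H t := by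
      have h4 := h.om_mul t
      simp only [id]
      linarith
    rw [h3] at h2
    exact h2
  rw [intervalIntegral.integral_eq_sub_of_hasDerivAt hQ (hHc.intervalIntegrable _ _),
    hH0 b le_rfl, h.zero b le_rfl, h.one 0 h.a0.le]
  ring

private theorem int_om (h : RAD_Chi χ a b) :
    Integrable (fun z : ℂ × ℂ => om χ a (nsq z)) ∧
      ∫ z : ℂ × ℂ, om χ a (nsq z) = Real.pi ^ 2 := by
  have hi : Integrable (fun z : ℂ × ℂ => om χ a (nsq z)) := by
    refine (h.om_cont.comp RAD_nsq_cont).integrable_of_hasCompactSupport ?_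
    refine HasCompactSupport.intro (RAD_cpt b) fun z hz => ?_
    exact h.om_gt (not_le.1 hz)
  refine ⟨hi, ?_⟩
  have h1 : ∫ z : ℂ × ℂ, om χ a (nsq z) = ∫ x : ℂ, ∫ y : ℂ, om χ a (nsq (x, y)) :=
    integral_prod _ hi
  rw [h1]
  have h2 : ∀ x : ℂ, ∫ y : ℂ, om χ a (nsq (x, y)) =
      Real.pi * ∫ s in (‖x‖ ^ 2)..b, om χ a s := by
    intro x
    have h3 := RAD_circ fun s => om χ a (‖x‖ ^ 2 + s)
    have h4 : ∫ s in Set.Ioi (0 : ℝ), om χ a (‖x‖ ^ 2 + s) =
        ∫ s in Set.Ioi (‖x‖ ^ 2), om χ a s := by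
      have h5 := (measurePreserving_add_left (volume : Measure ℝ) (‖x‖ ^ 2)).setIntegral_preimage_emb
        (measurableEmbedding_addLeft (‖x‖ ^ 2)) (om χ a) (Set.Ioi (‖x‖ ^ 2))
      have h6 : (fun s => ‖x‖ ^ 2 + s) ⁻¹' Set.Ioi (‖x‖ ^ 2) = Set.Ioi (0 : ℝ) := by
        ext s
        simp
      rw [h6] at h5
      exact h5
    rw [h4, h.int_Ioi] at h3
    exact h3
  simp_rw [h2]
  rw [RAD_circ fun t => Real.pi * ∫ s in t..b, om χ a s, integral_const_mul, h.int_H]
  ring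

/-- the weight of the mass formula -/
private noncomputable def mm (χ : ℝ → ℝ) (δ : ℝ) (z : ℂ × ℂ) : ℝ :=
  8 * (-deriv χ (nsq z)) / (nsq z + δ ^ 2)

private theorem mm_cont (h : RAD_Chi χ a b) {δ : ℝ} (hδ : 0 < δ) : Continuous (mm χ δ) := by
  unfold mm
  refine (continuous_const.mul (h.dc.comp RAD_nsq_cont).neg).div
    (RAD_nsq_cont.add continuous_const) fun z => ?_
  have := RAD_nsq_nonneg z
  positivity

private theorem mm_nonneg (h : RAD_Chi χ a b) (δ : ℝ) (z : ℂ × ℂ) : 0 ≤ mm χ δ z := by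
  unfold mm
  have h1 := h.d_nonpos (nsq z)
  have h2 := RAD_nsq_nonneg z
  refine div_nonneg (by linarith) (by positivity)

private theorem mm_le (h : RAD_Chi χ a b) (δ : ℝ) (z : ℂ × ℂ) :
    mm χ δ z ≤ 8 * om χ a (nsq z) := by
  unfold mm om
  have h1 := h.d_nonpos (nsq z)
  rcases lt_or_ge (nsq z) a with hs | hs
  · rw [h.d_lt hs]
    simp
  · rw [max_eq_left hs, ← mul_div_assoc]
    have h2 : 0 < nsq z := h.a0.trans_le hs
    exact div_le_div_of_nonneg_left (by linarith) h2 (by nlinarith [sq_nonneg δ])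

private theorem le_mm (h : RAD_Chi χ a b) {δ : ℝ} (hδ : 0 < δ) (z : ℂ × ℂ) :
    8 * (a / (a + δ ^ 2)) * om χ a (nsq z) ≤ mm χ δ z := by
  unfold mm om
  have h1 := h.d_nonpos (nsq z)
  rcases lt_or_ge (nsq z) a with hs | hs
  · rw [h.d_lt hs]
    simp
  · rw [max_eq_left hs]
    have h2 : 0 < nsq z := h.a0.trans_le hs
    have h3 := h.a0
    have h4 : 8 * (a / (a + δ ^ 2)) * (-deriv χ (nsq z) / nsq z) =
        (8 * -deriv χ (nsq z)) * (a / ((a + δ ^ 2) * nsq z)) := by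
      field_simp
    rw [h4, div_eq_mul_one_div (8 * -deriv χ (nsq z)) (nsq z + δ ^ 2)]
    refine mul_le_mul_of_nonneg_left ?_ (by linarith)
    rw [div_le_div_iff₀ (by positivity) (by positivity)]
    nlinarith [mul_le_mul_of_nonneg_right hs (sq_nonneg δ)]

private theorem mm_zero (h : RAD_Chi χ a b) (δ : ℝ) {z : ℂ × ℂ} (hz : b < nsq z ∨ nsq z < a) :
    mm χ δ z = 0 := by
  unfold mm
  rcases hz with hz | hz
  · rw [h.d_gt hz]
    simp
  · rw [h.d_lt hz]
    simp

private theorem mm_cs (h : RAD_Chi χ a b) (δ : ℝ) : HasCompactSupport (mm χ δ) := by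
  refine HasCompactSupport.intro (RAD_cpt b) fun z hz => ?_
  exact h.mm_zero δ (Or.inl (not_le.1 hz))

private theorem mm_int (h : RAD_Chi χ a b) {δ : ℝ} (hδ : 0 < δ) : Integrable (mm χ δ) :=
  (h.mm_cont hδ).integrable_of_hasCompactSupport (h.mm_cs δ)

private theorem J_le (h : RAD_Chi χ a b) {δ : ℝ} (hδ : 0 < δ) :
    ∫ z, mm χ δ z ≤ 8 * Real.pi ^ 2 := by
  obtain ⟨h1, h2⟩ := h.int_om
  rw [← h2, ← integral_const_mul]
  exact integral_mono (h.mm_int hδ) (h1.const_mul 8) fun z => h.mm_le δ z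

private theorem le_J (h : RAD_Chi χ a b) {δ : ℝ} (hδ : 0 < δ) :
    8 * (a / (a + δ ^ 2)) * Real.pi ^ 2 ≤ ∫ z, mm χ δ z := by
  obtain ⟨h1, h2⟩ := h.int_om
  rw [← h2, ← integral_const_mul]
  exact integral_mono (h1.const_mul _) (h.mm_int hδ) fun z => h.le_mm hδ z

private theorem J_tendsto (h : RAD_Chi χ a b) :
    Filter.Tendsto (fun δ => ∫ z, mm χ δ z) (𝓝[>] 0) (𝓝 (8 * Real.pi ^ 2)) := by
  have h1 : Filter.Tendsto (fun δ : ℝ => 8 * (a / (a + δ ^ 2)) * Real.pi ^ 2) (𝓝[>] 0)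
      (𝓝 (8 * Real.pi ^ 2)) := by
    have h2 : ContinuousAt (fun δ : ℝ => 8 * (a / (a + δ ^ 2)) * Real.pi ^ 2) 0 := by
      have h3 : a + (0 : ℝ) ^ 2 ≠ 0 := by
        have := h.a0
        positivity
      have h4 : ContinuousAt (fun δ : ℝ => a / (a + δ ^ 2)) 0 :=
        continuousAt_const.div (by fun_prop) h3
      exact (continuousAt_const.mul h4).mul continuousAt_const
    have h5 := h2.tendsto.mono_left (nhdsWithin_le_nhds (s := Set.Ioi (0 : ℝ)))
    have h6 : 8 * (a / (a + (0 : ℝ) ^ 2)) * Real.pi ^ 2 = 8 * Real.pi ^ 2 := by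
      rw [zero_pow two_ne_zero, add_zero, div_self h.a0.ne', mul_one]
    rw [h6] at h5
    exact h5
  refine tendsto_of_tendsto_of_tendsto_of_le_of_le' h1 tendsto_const_nhds ?_ ?_
  · filter_upwards [self_mem_nhdsWithin] with δ hδ
    exact h.le_J hδ
  · filter_upwards [self_mem_nhdsWithin] with δ hδ
    exact h.J_le hδ

end RAD_Chi

/-! ### the function `U` -/

private theorem RAD_psh (hL : St_LOG) {F : ℂ × ℂ → ℂ} (hF : Differentiable ℂ F) {κ η : ℝ}
    (hκ : 0 ≤ κ) (hη : 0 < η) : Psh ⊤ (uu F κ η) := by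
  have e : uu F κ η = fun z => (1 / 2 : ℝ) * lgs (fun _ : Unit => F) κ η z := by
    funext z
    unfold uu lgs
    simp
  obtain ⟨h1, h2⟩ := hL Unit (fun _ => F) κ η (fun _ => hF) hκ hη
  set g := lgs (fun _ : Unit => F) κ η with hg
  have h3 : ∀ v w z, d2 (fun z => (1 / 2 : ℝ) * g z) v w z = 1 / 2 * d2 g v w z := by
    intro v w z
    unfold d2
    have hd : ∀ y, fderiv ℝ (fun z => (1 / 2 : ℝ) * g z) y v = 1 / 2 * fderiv ℝ g y v := by
      intro y
      rw [fderiv_const_mul (h1.differentiable (by simp) y)]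
      simp
    have hd2 : DifferentiableAt ℝ (fun y => fderiv ℝ g y v) z :=
      ((h1.fderiv_right (m := 1) (WithTop.coe_le_coe.2 le_top)).clm_apply
        contDiff_const).differentiable one_ne_zero z
    simp_rw [hd]
    rw [fderiv_const_mul hd2]
    simp
  refine ⟨by rw [e]; exact contDiff_const.mul h1, fun z v => ?_⟩
  rw [e]
  unfold lev
  rw [h3, h3]
  have := h2 z v
  unfold lev at this
  linarith

private theorem RAD_arg_pos (F : ℂ × ℂ → ℂ) (κ : ℝ) {η : ℝ} (hη : 0 < η) (z : ℂ × ℂ) :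
    0 < ‖F z‖ ^ 2 + η ^ 2 * Real.exp (2 * κ * nsq z) := by positivity

private theorem RAD_uu_le (F : ℂ × ℂ → ℂ) (κ : ℝ) {η : ℝ} (hη : 0 < η) (hη1 : η ≤ 1)
    (z : ℂ × ℂ) : uu F κ η z ≤ uu F κ 1 z := by
  unfold uu
  refine mul_le_mul_of_nonneg_left ?_ (by norm_num)
  refine Real.log_le_log (RAD_arg_pos F κ hη z) ?_
  have h1 : η ^ 2 ≤ 1 ^ 2 := by nlinarith
  have h2 := Real.exp_pos (2 * κ * nsq z)
  nlinarith

private theorem RAD_le_uu {F : ℂ × ℂ → ℂ} (κ : ℝ) {η : ℝ} (hη : 0 < η) {z : ℂ × ℂ}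
    (hz : F z ≠ 0) : Real.log ‖F z‖ ≤ uu F κ η z := by
  unfold uu
  have h1 : 0 < ‖F z‖ := norm_pos_iff.2 hz
  have h2 : Real.log ‖F z‖ = 1 / 2 * Real.log (‖F z‖ ^ 2) := by
    rw [Real.log_pow]
    push_cast
    ring
  rw [h2]
  refine mul_le_mul_of_nonneg_left ?_ (by norm_num)
  refine Real.log_le_log (by positivity) ?_
  have h3 := Real.exp_pos (2 * κ * nsq z)
  have h4 : 0 ≤ η ^ 2 * Real.exp (2 * κ * nsq z) := by positivity
  linarith

/-- uniform lower bound for the integrals of `U` -/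
private theorem RAD_low (hL : St_LOG) (hS : St_SUB) {F : ℂ × ℂ → ℂ} (hF : Differentiable ℂ F)
    (hne : ∃ z, F z ≠ 0) {κ r : ℝ} (hκ : 0 ≤ κ) (hr : 0 < r) :
    ∃ C' : ℝ, ∀ (η Cm : ℝ) (m : ℂ × ℂ → ℝ), 0 < η → η ≤ 1 → 0 ≤ Cm → Continuous m →
      (∀ z, 0 ≤ m z) → (∀ z, m z ≤ Cm) → (∀ z, r ^ 2 < nsq z → m z = 0) →
      -(Cm * C') ≤ ∫ z, uu F κ η z * m z := by
  obtain ⟨z1, hz1⟩ := hne
  set R : ℝ := ‖z1.1‖ + ‖z1.2‖ + r with hR
  have hR0 : 0 < R := by positivity
  set P : Set (ℂ × ℂ) := Metric.closedBall (0 : ℂ) R ×ˢ Metric.closedBall (0 : ℂ) R with hP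
  have hPc : IsCompact P := (isCompact_closedBall _ _).prod (isCompact_closedBall _ _)
  have hV : Continuous fun a => uu F κ 1 (z1 + a) :=
    (RAD_psh hL hF hκ one_pos).1.continuous.comp (continuous_const.add continuous_id)
  obtain ⟨C0, hC0⟩ := (hPc.image hV).bddAbove
  set CU := max C0 0 with hCU
  have hCU0 : 0 ≤ CU := le_max_right _ _
  refine ⟨CU * (volume : Measure (ℂ × ℂ)).real P - (Real.pi * R ^ 2) ^ 2 * Real.log ‖F z1‖, ?_⟩
  intro η Cm m hη hη1 hCm hmc hm0 hm1 hmz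
  have hU := RAD_psh hL hF hκ hη
  have hUc : Continuous fun a => uu F κ η (z1 + a) :=
    hU.1.continuous.comp (continuous_const.add continuous_id)
  have hmc' : Continuous fun a => m (z1 + a) := hmc.comp (continuous_const.add continuous_id)
  have hUle : ∀ a ∈ P, uu F κ η (z1 + a) ≤ CU := fun a ha =>
    (RAD_uu_le F κ hη hη1 _).trans ((hC0 ⟨a, ha, rfl⟩).trans (le_max_left _ _))
  have hoff : ∀ a, a ∉ P → uu F κ η (z1 + a) * m (z1 + a) = 0 := by
    intro a ha
    rw [hmz (z1 + a), mul_zero]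
    by_contra h1
    rw [not_lt] at h1
    apply ha
    have h2 : ‖z1.1 + a.1‖ ^ 2 + ‖z1.2 + a.2‖ ^ 2 ≤ r ^ 2 := h1
    have h3 : ‖z1.1 + a.1‖ ≤ r := by
      refine abs_le_of_sq_le_sq' ?_ hr.le |>.2
      nlinarith [sq_nonneg ‖z1.2 + a.2‖]
    have h4 : ‖z1.2 + a.2‖ ≤ r := by
      refine abs_le_of_sq_le_sq' ?_ hr.le |>.2
      nlinarith [sq_nonneg ‖z1.1 + a.1‖]
    have h5 : ‖a.1‖ ≤ ‖z1.1 + a.1‖ + ‖z1.1‖ := by
      have := norm_sub_le (z1.1 + a.1) z1.1
      rwa [add_sub_cancel_left] at this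
    have h6 : ‖a.2‖ ≤ ‖z1.2 + a.2‖ + ‖z1.2‖ := by
      have := norm_sub_le (z1.2 + a.2) z1.2
      rwa [add_sub_cancel_left] at this
    have h7 := norm_nonneg z1.1
    have h8 := norm_nonneg z1.2
    refine ⟨?_, ?_⟩
    · rw [mem_closedBall_zero_iff]
      linarith
    · rw [mem_closedBall_zero_iff]
      linarith
  have hinv : (volume : Measure (ℂ × ℂ)).IsAddLeftInvariant := by
    rw [Measure.volume_eq_prod]
    infer_instance
  have e1 : ∫ z, uu F κ η z * m z = ∫ a in P, uu F κ η (z1 + a) * m (z1 + a) := by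
    rw [setIntegral_eq_integral_of_forall_compl_eq_zero hoff]
    exact (integral_add_left_eq_self (fun z => uu F κ η z * m z) z1).symm
  have e2 : ∫ a in P, -(Cm * (CU - uu F κ η (z1 + a))) ≤
      ∫ a in P, uu F κ η (z1 + a) * m (z1 + a) := by
    refine setIntegral_mono_on ?_ ?_ hPc.measurableSet fun a ha => ?_
    · exact ((continuous_const.mul (continuous_const.sub hUc)).neg).continuousOn.integrableOn_compact
        hPc
    · exact (hUc.mul hmc').continuousOn.integrableOn_compact hPc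
    · have h1 := hUle a ha
      have h2 := hm0 (z1 + a)
      have h3 := hm1 (z1 + a)
      nlinarith [mul_nonneg hCU0 h2, mul_le_mul_of_nonneg_right h3 (sub_nonneg.2 h1)]
  have hUi : IntegrableOn (fun a => uu F κ η (z1 + a)) P :=
    hUc.continuousOn.integrableOn_compact hPc
  have hci : IntegrableOn (fun _ : ℂ × ℂ => CU) P :=
    continuous_const.continuousOn.integrableOn_compact hPc
  have e3 : ∫ a in P, -(Cm * (CU - uu F κ η (z1 + a))) =
      -(Cm * (CU * (volume : Measure (ℂ × ℂ)).real P - ∫ a in P, uu F κ η (z1 + a))) := by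
    rw [integral_neg, integral_const_mul, integral_sub hci hUi, setIntegral_const]
    simp only [smul_eq_mul]
    ring
  have e4 : (Real.pi * R ^ 2) ^ 2 * Real.log ‖F z1‖ ≤ ∫ a in P, uu F κ η (z1 + a) := by
    have h1 : uu F κ η z1 ≤ pav R (uu F κ η) z1 :=
      hS _ ⟨hU.1.of_le (by exact_mod_cast le_top), hU.2⟩ R hR0 z1
    unfold pav at h1
    have h2 := RAD_le_uu (F := F) κ hη hz1
    have h3 : 0 < (Real.pi * R ^ 2) ^ 2 := by
      have := Real.pi_pos
      positivity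
    have h4 := mul_le_mul_of_nonneg_left (h2.trans h1) h3.le
    rw [← mul_assoc, mul_one_div_cancel h3.ne', one_mul] at h4
    exact h4
  rw [e1]
  refine le_trans ?_ e2
  rw [e3]
  have h5 := mul_le_mul_of_nonneg_left e4 hCm
  nlinarith

/-- upper bound for the growth at the origin -/
private theorem RAD_van {F : ℂ × ℂ → ℂ} {T : ℝ} (hv : VanO T F) :
    ∃ K ρ : ℝ, 1 ≤ K ∧ 0 < ρ ∧ ∀ z : ℂ × ℂ, 0 < nsq z → nsq z < ρ →
      ‖F z‖ ≤ K * nsq z ^ (T / 2) := by
  obtain ⟨K, hK, hev⟩ := hv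
  rw [eventually_nhdsWithin_iff, Metric.eventually_nhds_iff] at hev
  obtain ⟨e, he, h1⟩ := hev
  refine ⟨K + 1, e ^ 2, by linarith, by positivity, fun z hz0 hz => ?_⟩
  have h2 : z ≠ 0 := by
    rintro rfl
    simp [nsq] at hz0
  have h3 : dist z 0 < e := by
    rw [dist_zero_right, Prod.norm_def, max_lt_iff]
    have h4 : ‖z.1‖ ^ 2 + ‖z.2‖ ^ 2 < e ^ 2 := hz
    constructor
    · exact lt_of_pow_lt_pow_left₀ 2 he.le (by nlinarith [sq_nonneg ‖z.2‖])
    · exact lt_of_pow_lt_pow_left₀ 2 he.le (by nlinarith [sq_nonneg ‖z.1‖])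
  refine (h1 h3 h2).trans ?_
  have h5 : 0 ≤ nsq z ^ (T / 2) := Real.rpow_nonneg hz0.le _
  nlinarith

private theorem RAD_nsq_smul (s : ℝ) (z : ℂ × ℂ) : nsq (s • z) = s ^ 2 * nsq z := by
  unfold nsq
  simp only [Prod.smul_fst, Prod.smul_snd, norm_smul, Real.norm_eq_abs, mul_pow, sq_abs]
  ring

theorem thm_RAD (hR : St_RADI) (hS : St_SUB) (hM : St_MAP) (hL : St_LOG) : St_RAD := by
  intro F κ T r ε hF hne hκ hT hv hr hε
  have _hM := hM
  obtain ⟨K, ρ, hK, hρ, hgr⟩ := RAD_van hv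
  obtain ⟨C', hC'⟩ := RAD_low hL hS hF hne hκ hr
  have hKpos : 0 < K := by linarith
  -- the cut-off function
  set a := r ^ 2 / 4 with ha
  set b := r ^ 2 / 2 with hb
  have hr2 : 0 < r ^ 2 := by positivity
  have ha0 : 0 < a := by positivity
  have hab : a < b := by rw [ha, hb]; linarith
  have hb0 : 0 < b := ha0.trans hab
  have hbr : b ≤ r ^ 2 := by rw [hb]; linarith
  set χ : ℝ → ℝ := fun s => Real.smoothTransition ((b - s) / (b - a)) with hχ
  have hba : 0 < b - a := sub_pos.2 hab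
  have hχd : RAD_Chi χ a b := by
    refine ⟨ha0, hab, ?_, ?_, ?_, ?_⟩
    · exact Real.smoothTransition.contDiff.comp ((contDiff_const.sub contDiff_id).div_const _)
    · intro s t hst
      refine Real.smoothTransition.monotone ?_
      exact div_le_div_of_nonneg_right (by linarith) hba.le
    · intro s hs
      refine Real.smoothTransition.one_of_one_le ?_
      rw [one_le_div hba]
      linarith
    · intro s hs
      refine Real.smoothTransition.zero_of_nonpos ?_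
      exact div_nonpos_of_nonpos_of_nonneg (by linarith) hba.le
  obtain ⟨X, hX⟩ := hχd.om_cont.bounded_above_of_compact_support hχd.om_cs
  have hX0 : 0 ≤ X := (norm_nonneg _).trans (hX 0)
  set Cm := 8 * X with hCm
  have hCm0 : 0 ≤ Cm := by positivity
  have hmm1 : ∀ δ z, RAD_Chi.mm χ δ z ≤ Cm := by
    intro δ z
    refine (hχd.mm_le δ z).trans ?_
    have h1 := (le_abs_self _).trans (hX (nsq z))
    rw [hCm]
    linarith
  -- the parameter sigma
  set c1 := Real.log K + T / 2 * Real.log b with hc1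
  set A0 := Cm * C' + 8 * Real.pi ^ 2 * c1 with hA0
  obtain ⟨ℓ, hℓ0, hℓ1, hℓ2⟩ : ∃ ℓ : ℝ, 0 < ℓ ∧ Real.exp (-ℓ) * b < ρ ∧ A0 / ℓ < ε / 4 := by
    have h1 : Filter.Tendsto (fun ℓ : ℝ => Real.exp (-ℓ) * b) Filter.atTop (𝓝 (0 * b)) :=
      (Real.tendsto_exp_neg_atTop_nhds_zero).mul_const b
    rw [zero_mul] at h1
    have h2 : Filter.Tendsto (fun ℓ : ℝ => A0 / ℓ) Filter.atTop (𝓝 0) :=
      tendsto_const_nhds.div_atTop Filter.tendsto_id
    have h3 := (Filter.eventually_gt_atTop (0 : ℝ)).and ((h1.eventually_lt_const hρ).and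
      (h2.eventually_lt_const (show (0 : ℝ) < ε / 4 by positivity)))
    exact h3.exists
  set σ := Real.exp (-ℓ) with hσ
  have hσ0 : 0 < σ := Real.exp_pos _
  have hσ1 : σ < 1 := by
    rw [hσ, Real.exp_lt_one_iff]
    linarith
  have hlog : Real.log (1 / σ) = ℓ := by
    rw [one_div, Real.log_inv, hσ, Real.log_exp, neg_neg]
  -- the upper bound
  set Q := K ^ 2 * (σ * b) ^ T with hQ
  have hσb : 0 < σ * b := mul_pos hσ0 hb0
  have hQ0 : 0 < Q := by
    have := Real.rpow_pos_of_pos hσb T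
    positivity
  set Λ : ℝ → ℝ := fun η => 1 / 2 * Real.log (Q + η ^ 2 * Real.exp (2 * κ * (σ * b))) with hΛ
  have hΛ0 : Λ 0 = c1 - T / 2 * ℓ := by
    rw [hΛ]
    simp only
    rw [zero_pow two_ne_zero, zero_mul, add_zero, hQ,
      Real.log_mul (by positivity) (Real.rpow_pos_of_pos hσb T).ne', Real.log_pow,
      Real.log_rpow hσb, Real.log_mul hσ0.ne' hb0.ne', hσ, Real.log_exp, hc1]
    push_cast
    ring
  have hΛc : ContinuousAt Λ 0 := by
    refine continuousAt_const.mul (ContinuousAt.log ?_ ?_)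
    · fun_prop
    · rw [zero_pow two_ne_zero, zero_mul, add_zero]
      exact hQ0.ne'
  have hΛle : ∀ η, 0 < η → ∀ δ z, uu F κ η (Real.sqrt σ • z) * RAD_Chi.mm χ δ z ≤
      Λ η * RAD_Chi.mm χ δ z := by
    intro η hη δ z
    by_cases hz : b < nsq z ∨ nsq z < a
    · rw [hχd.mm_zero δ hz, mul_zero, mul_zero]
    · rw [not_or, not_lt, not_lt] at hz
      refine mul_le_mul_of_nonneg_right ?_ (hχd.mm_nonneg δ z)
      have h1 : nsq (Real.sqrt σ • z) = σ * nsq z := by
        rw [RAD_nsq_smul, Real.sq_sqrt hσ0.le]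
      have h2 : 0 < nsq z := ha0.trans_le hz.2
      have h3 : nsq (Real.sqrt σ • z) ≤ σ * b := by
        rw [h1]
        exact mul_le_mul_of_nonneg_left hz.1 hσ0.le
      have h4 : 0 < nsq (Real.sqrt σ • z) := by
        rw [h1]
        positivity
      have h5 := hgr _ h4 (h3.trans_lt hℓ1)
      rw [hΛ]
      unfold uu
      refine mul_le_mul_of_nonneg_left ?_ (by norm_num)
      refine Real.log_le_log (RAD_arg_pos F κ hη _) (add_le_add ?_ ?_)
      · have h6 : nsq (Real.sqrt σ • z) ^ (T / 2) ≤ (σ * b) ^ (T / 2) :=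
          Real.rpow_le_rpow h4.le h3 (by linarith)
        have h7 : ‖F (Real.sqrt σ • z)‖ ≤ K * (σ * b) ^ (T / 2) :=
          h5.trans (mul_le_mul_of_nonneg_left h6 hKpos.le)
        have h8 : (K * (σ * b) ^ (T / 2)) ^ 2 = Q := by
          rw [hQ, mul_pow, ← Real.rpow_natCast ((σ * b) ^ (T / 2)), ← Real.rpow_mul hσb.le]
          congr 2
          push_cast
          ring
        rw [← h8]
        exact pow_le_pow_left₀ (norm_nonneg _) h7 2
      · refine mul_le_mul_of_nonneg_left ?_ (sq_nonneg η)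
        refine Real.exp_le_exp.2 ?_
        exact mul_le_mul_of_nonneg_left h3 (by linarith)
  -- the mass
  have main : ∀ η, 0 < η → η ≤ 1 → ∀ δ, 0 < δ →
      (-(Cm * C') - Λ η * ∫ z, RAD_Chi.mm χ δ z) / ℓ ≤
        ∫ z in {z : ℂ × ℂ | nsq z ≤ r ^ 2}, ma (uu F κ η) (lpole δ) z := by
    intro η hη hη1 δ hδ
    have hU := RAD_psh hL hF hκ hη
    have h1 := hR (uu F κ η) χ a b r δ σ hU hχd.sm hχd.anti ha0 hab hbr hχd.one hχd.zero hδ
      hσ0 hσ1
    rw [hlog] at h1
    refine le_trans ?_ h1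
    refine div_le_div_of_nonneg_right ?_ hℓ0.le
    have hUc : Continuous (uu F κ η) := hU.1.continuous
    have hUc' : Continuous fun z : ℂ × ℂ => uu F κ η (Real.sqrt σ • z) :=
      hUc.comp (continuous_const_smul _)
    have hmc := hχd.mm_cont hδ
    have hi1 : Integrable fun z => uu F κ η z * RAD_Chi.mm χ δ z :=
      (hUc.mul hmc).integrable_of_hasCompactSupport (hχd.mm_cs δ).mul_left
    have hi2 : Integrable fun z => uu F κ η (Real.sqrt σ • z) * RAD_Chi.mm χ δ z :=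
      (hUc'.mul hmc).integrable_of_hasCompactSupport (hχd.mm_cs δ).mul_left
    have h2 : ∫ z, (uu F κ η z - uu F κ η (Real.sqrt σ • z)) *
        (8 * (-deriv χ (nsq z)) / (nsq z + δ ^ 2)) =
        (∫ z, uu F κ η z * RAD_Chi.mm χ δ z) -
          ∫ z, uu F κ η (Real.sqrt σ • z) * RAD_Chi.mm χ δ z := by
      rw [← integral_sub hi1 hi2]
      refine integral_congr_ae (Filter.Eventually.of_forall fun z => ?_)
      simp only [RAD_Chi.mm]
      ring
    rw [h2]
    have h3 := hC' η Cm (RAD_Chi.mm χ δ) hη hη1 hCm0 hmc (hχd.mm_nonneg δ) (hmm1 δ)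
      fun z hz => hχd.mm_zero δ (Or.inl (hbr.trans_lt hz))
    have h4 : ∫ z, uu F κ η (Real.sqrt σ • z) * RAD_Chi.mm χ δ z ≤
        Λ η * ∫ z, RAD_Chi.mm χ δ z := by
      rw [← integral_const_mul]
      exact integral_mono hi2 ((hχd.mm_int hδ).const_mul _) fun z => hΛle η hη δ z
    linarith
  -- the choice of eta
  have hG : ContinuousAt (fun η => (-(Cm * C') - Λ η * (8 * Real.pi ^ 2)) / ℓ) 0 :=
    (continuousAt_const.sub (hΛc.mul continuousAt_const)).div_const ℓ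
  have hG0 : 4 * Real.pi ^ 2 * T - ε / 2 < (-(Cm * C') - Λ 0 * (8 * Real.pi ^ 2)) / ℓ := by
    have h1 : (-(Cm * C') - Λ 0 * (8 * Real.pi ^ 2)) / ℓ = 4 * Real.pi ^ 2 * T - A0 / ℓ := by
      rw [hΛ0, hA0]
      field_simp
      ring
    rw [h1]
    linarith
  have hev := (hG.tendsto.eventually_const_lt hG0).filter_mono
    (nhdsWithin_le_nhds (s := Set.Ioi (0 : ℝ)))
  rw [eventually_nhdsWithin_iff, Metric.eventually_nhds_iff] at hev
  obtain ⟨η₁, hη₁, hη₁'⟩ := hev
  refine ⟨min η₁ 1, lt_min hη₁ one_pos, fun η hη hη2 => ?_⟩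
  have hη3 : η < η₁ := hη2.trans_le (min_le_left _ _)
  have hη4 : η ≤ 1 := hη2.le.trans (min_le_right _ _)
  have hgη := hη₁' (y := η) (by rw [dist_zero_right, Real.norm_eq_abs, abs_of_pos hη]; exact hη3) hη
  -- the choice of delta
  have hD : Filter.Tendsto (fun δ => (-(Cm * C') - Λ η * ∫ z, RAD_Chi.mm χ δ z) / ℓ) (𝓝[>] 0)
      (𝓝 ((-(Cm * C') - Λ η * (8 * Real.pi ^ 2)) / ℓ)) :=
    (tendsto_const_nhds.sub (tendsto_const_nhds.mul hχd.J_tendsto)).div_const ℓ
  have hev2 := hD.eventually_const_lt hgη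
  rw [eventually_nhdsWithin_iff, Metric.eventually_nhds_iff] at hev2
  obtain ⟨δ₁, hδ₁, hδ₁'⟩ := hev2
  refine ⟨δ₁, hδ₁, fun δ hδ hδ2 => ?_⟩
  have hgδ := hδ₁' (y := δ) (by rw [dist_zero_right, Real.norm_eq_abs, abs_of_pos hδ]; exact hδ2) hδ
  have h9 := main η hη hη4 δ hδ
  linarith

end Pool.Agent.KT
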