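import Pool.Agent.KT.St

/-!
# KT, RADI: the mass in a ball and the growth of the radial means
-/

set_option autoImplicit false

open scoped BigOperators ComplexConjugate Topology
open MeasureTheory

namespace Pool.Agent.KT

/-! ### radial functions -/

/-- the derivative of `nsq` -/
noncomputable def RADI_D (z : ℂ × ℂ) : ℂ × ℂ →L[ℝ] ℝ :=
  (2 * z.1.re) • (Complex.reCLM.comp (ContinuousLinearMap.fst ℝ ℂ ℂ)) +
  (2 * z.1.im) • (Complex.imCLM.comp (ContinuousLinearMap.fst ℝ ℂ ℂ)) +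
  (2 * z.2.re) • (Complex.reCLM.comp (ContinuousLinearMap.snd ℝ ℂ ℂ)) +
  (2 * z.2.im) • (Complex.imCLM.comp (ContinuousLinearMap.snd ℝ ℂ ℂ))

theorem RADI_D_apply (z v : ℂ × ℂ) :
    RADI_D z v = 2 * z.1.re * v.1.re + 2 * z.1.im * v.1.im + 2 * z.2.re * v.2.re +
      2 * z.2.im * v.2.im := by
  simp [RADI_D]

theorem RADI_D_symm (z v : ℂ × ℂ) : RADI_D z v = RADI_D v z := by
  rw [RADI_D_apply, RADI_D_apply]; ring

theorem RADI_nsq (z : ℂ × ℂ) : nsq z = z.1.re ^ 2 + z.1.im ^ 2 + z.2.re ^ 2 + z.2.im ^ 2 := by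
  unfold nsq
  rw [Complex.sq_norm, Complex.sq_norm, Complex.normSq_apply, Complex.normSq_apply]
  ring

theorem RADI_nsq_nonneg (z : ℂ × ℂ) : 0 ≤ nsq z := by
  rw [RADI_nsq]; positivity

theorem RADI_nsq_deriv (z : ℂ × ℂ) : HasFDerivAt nsq (RADI_D z) z := by
  have h1 : HasFDerivAt (fun z : ℂ × ℂ => z.1.re)
      (Complex.reCLM.comp (ContinuousLinearMap.fst ℝ ℂ ℂ)) z :=
    (Complex.reCLM.comp (ContinuousLinearMap.fst ℝ ℂ ℂ)).hasFDerivAt
  have h2 : HasFDerivAt (fun z : ℂ × ℂ => z.1.im)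
      (Complex.imCLM.comp (ContinuousLinearMap.fst ℝ ℂ ℂ)) z :=
    (Complex.imCLM.comp (ContinuousLinearMap.fst ℝ ℂ ℂ)).hasFDerivAt
  have h3 : HasFDerivAt (fun z : ℂ × ℂ => z.2.re)
      (Complex.reCLM.comp (ContinuousLinearMap.snd ℝ ℂ ℂ)) z :=
    (Complex.reCLM.comp (ContinuousLinearMap.snd ℝ ℂ ℂ)).hasFDerivAt
  have h4 : HasFDerivAt (fun z : ℂ × ℂ => z.2.im)
      (Complex.imCLM.comp (ContinuousLinearMap.snd ℝ ℂ ℂ)) z :=
    (Complex.imCLM.comp (ContinuousLinearMap.snd ℝ ℂ ℂ)).hasFDerivAt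
  have h : HasFDerivAt (fun z : ℂ × ℂ => z.1.re ^ 2 + z.1.im ^ 2 + z.2.re ^ 2 + z.2.im ^ 2)
      (RADI_D z) z := by
    refine ((((h1.pow 2).add (h2.pow 2)).add (h3.pow 2)).add (h4.pow 2)).congr_fderiv ?_
    refine ContinuousLinearMap.ext fun v => ?_
    rw [RADI_D_apply]
    simp
  have e : nsq = fun z : ℂ × ℂ => z.1.re ^ 2 + z.1.im ^ 2 + z.2.re ^ 2 + z.2.im ^ 2 :=
    funext RADI_nsq
  rw [e]
  exact h

theorem RADI_D_deriv (v z : ℂ × ℂ) : HasFDerivAt (fun z => RADI_D z v) (RADI_D v) z := by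
  have e : (fun z => RADI_D z v) = fun z => RADI_D v z := funext fun z => RADI_D_symm z v
  rw [e]
  exact (RADI_D v).hasFDerivAt

theorem RADI_d2 (f f1 f2 : ℝ → ℝ) (h1 : ∀ s, 0 ≤ s → HasDerivAt f (f1 s) s)
    (h2 : ∀ s, 0 ≤ s → HasDerivAt f1 (f2 s) s) (v w z : ℂ × ℂ) :
    d2 (fun z => f (nsq z)) v w z =
      f2 (nsq z) * RADI_D z v * RADI_D z w + f1 (nsq z) * RADI_D w v := by
  unfold d2
  have e : (fun z => fderiv ℝ (fun z => f (nsq z)) z v) = fun z => f1 (nsq z) * RADI_D z v := by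
    funext z
    have h := (h1 (nsq z) (RADI_nsq_nonneg z)).comp_hasFDerivAt z (RADI_nsq_deriv z)
    have h' : HasFDerivAt (fun z => f (nsq z)) (f1 (nsq z) • RADI_D z) z := h
    rw [h'.fderiv]
    simp
  rw [e]
  have h := ((h2 (nsq z) (RADI_nsq_nonneg z)).comp_hasFDerivAt z (RADI_nsq_deriv z)).mul
    (RADI_D_deriv v z)
  have h' : HasFDerivAt (fun z => f1 (nsq z) * RADI_D z v)
      (f1 (nsq z) • RADI_D v + RADI_D z v • (f2 (nsq z) • RADI_D z)) z := h
  rw [h'.fderiv]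
  simp only [ContinuousLinearMap.add_apply, ContinuousLinearMap.smul_apply, smul_eq_mul]
  rw [RADI_D_symm v w]
  ring

theorem RADI_ma (f f1 f2 g g1 g2 : ℝ → ℝ) (h1 : ∀ s, 0 ≤ s → HasDerivAt f (f1 s) s)
    (h2 : ∀ s, 0 ≤ s → HasDerivAt f1 (f2 s) s) (k1 : ∀ s, 0 ≤ s → HasDerivAt g (g1 s) s)
    (k2 : ∀ s, 0 ≤ s → HasDerivAt g1 (g2 s) s) (z : ℂ × ℂ) :
    ma (fun z => f (nsq z)) (fun z => g (nsq z)) z =
      16 * (f2 (nsq z) * g1 (nsq z) * nsq z + f1 (nsq z) * g2 (nsq z) * nsq z +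
        2 * (f1 (nsq z) * g1 (nsq z))) := by
  unfold ma lev
  simp only [RADI_d2 f f1 f2 h1 h2, RADI_d2 g g1 g2 k1 k2]
  generalize f2 (nsq z) = F2
  generalize f1 (nsq z) = F1
  generalize g2 (nsq z) = G2
  generalize g1 (nsq z) = G1
  rw [RADI_nsq]
  simp only [RADI_D_apply, e1, e2, e3, e4, mi, Complex.one_re, Complex.one_im, Complex.zero_re,
    Complex.zero_im, Complex.I_re, Complex.I_im, mul_one, mul_zero, Complex.mul_re, Complex.mul_im]
  ring

/-! ### differentiation under the integral -/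

theorem RADI_dui (K : Set (ℂ × ℂ)) (hK : IsCompact K) (f f' : ℝ → ℂ × ℂ → ℝ)
    (hf : Continuous (Function.uncurry f)) (hf' : Continuous (Function.uncurry f'))
    (hd : ∀ t z, HasDerivAt (fun t => f t z) (f' t z) t) (t₀ : ℝ) :
    HasDerivAt (fun t => ∫ z in K, f t z) (∫ z in K, f' t₀ z) t₀ := by
  have hc : ∀ t, Continuous (f t) := fun t => hf.comp (Continuous.prodMk_right t)
  have hc' : ∀ t, Continuous (f' t) := fun t => hf'.comp (Continuous.prodMk_right t)
  obtain ⟨C, hC⟩ := ((isCompact_closedBall t₀ 1).prod hK).exists_bound_of_continuousOn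
    (f := Function.uncurry f') hf'.continuousOn
  refine (hasDerivAt_integral_of_dominated_loc_of_deriv_le (μ := volume.restrict K)
    (s := Metric.ball t₀ 1) (bound := fun _ => C) (Metric.ball_mem_nhds t₀ one_pos) ?_ ?_ ?_ ?_ ?_
    ?_).2
  · exact Filter.Eventually.of_forall fun t => (hc t).aestronglyMeasurable
  · exact (hc t₀).continuousOn.integrableOn_compact hK
  · exact (hc' t₀).aestronglyMeasurable
  · refine (ae_restrict_iff' hK.measurableSet).2 (Filter.Eventually.of_forall fun z hz t ht => ?_)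
    exact hC (t, z) ⟨Metric.ball_subset_closedBall ht, hz⟩
  · exact integrableOn_const hK.measure_lt_top.ne
  · exact Filter.Eventually.of_forall fun z t _ => hd t z

/-- `nsq ≤ c` is compact -/
theorem RADI_compact (c : ℝ) : IsCompact {z : ℂ × ℂ | nsq z ≤ c} := by
  have hcont : Continuous nsq := by
    unfold nsq
    fun_prop
  refine Metric.isCompact_of_isClosed_isBounded (isClosed_le hcont continuous_const) ?_
  refine (Metric.isBounded_closedBall (x := (0 : ℂ × ℂ)) (r := |c| + 1)).subset fun z hz => ?_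
  have hz' : nsq z ≤ c := hz
  rw [mem_closedBall_zero_iff, Prod.norm_def]
  unfold nsq at hz'
  have h1 := sq_nonneg ‖z.1‖
  have h2 := sq_nonneg ‖z.2‖
  have h3 := le_abs_self c
  have h4 := abs_nonneg c
  refine max_le ?_ ?_
  · nlinarith [norm_nonneg z.1]
  · nlinarith [norm_nonneg z.2]

theorem RADI_nsq_cont : Continuous nsq := by
  unfold nsq
  fun_prop

/-! ### the operators `E` and `E'` -/

/-- radial derivative -/
noncomputable def RADI_E (U : ℂ × ℂ → ℝ) (y : ℂ × ℂ) : ℝ := fderiv ℝ U y y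

/-- angular derivative -/
noncomputable def RADI_R (U : ℂ × ℂ → ℝ) (y : ℂ × ℂ) : ℝ := fderiv ℝ U y (mi y)

/-- multiplication by `i` as a linear map -/
noncomputable def RADI_J : ℂ × ℂ →L[ℝ] ℂ × ℂ :=
  ((Complex.I • (ContinuousLinearMap.fst ℂ ℂ ℂ)).restrictScalars ℝ).prod
    ((Complex.I • (ContinuousLinearMap.snd ℂ ℂ ℂ)).restrictScalars ℝ)

theorem RADI_J_apply (z : ℂ × ℂ) : RADI_J z = mi z := by
  simp [RADI_J, mi]

theorem RADI_mi_mi (z : ℂ × ℂ) : mi (mi z) = -z := by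
  unfold mi
  refine Prod.ext ?_ ?_
  · show Complex.I * (Complex.I * z.1) = -z.1
    rw [← mul_assoc, Complex.I_mul_I]; ring
  · show Complex.I * (Complex.I * z.2) = -z.2
    rw [← mul_assoc, Complex.I_mul_I]; ring

theorem RADI_E_smooth {U : ℂ × ℂ → ℝ} (hU : ContDiff ℝ (⊤ : ℕ∞) U) :
    ContDiff ℝ (⊤ : ℕ∞) (RADI_E U) := by
  have h : ContDiff ℝ (⊤ : ℕ∞) (fderiv ℝ U) := hU.fderiv_right (by simp)
  exact h.clm_apply contDiff_id

theorem RADI_R_smooth {U : ℂ × ℂ → ℝ} (hU : ContDiff ℝ (⊤ : ℕ∞) U) :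
    ContDiff ℝ (⊤ : ℕ∞) (RADI_R U) := by
  have h : ContDiff ℝ (⊤ : ℕ∞) (fderiv ℝ U) := hU.fderiv_right (by simp)
  have e : RADI_R U = fun y => fderiv ℝ U y (RADI_J y) := by
    funext y
    rw [RADI_J_apply]
    rfl
  rw [e]
  exact h.clm_apply RADI_J.contDiff

theorem RADI_EE_RR {U : ℂ × ℂ → ℝ} (hU : ContDiff ℝ (⊤ : ℕ∞) U) (y : ℂ × ℂ) :
    RADI_E (RADI_E U) y + RADI_R (RADI_R U) y = lev U y y := by
  have h : ContDiff ℝ (⊤ : ℕ∞) (fderiv ℝ U) := hU.fderiv_right (by simp)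
  have hd : HasFDerivAt (fderiv ℝ U) (fderiv ℝ (fderiv ℝ U) y) y :=
    (h.differentiable (by simp) y).hasFDerivAt
  have h2 : ∀ v w, d2 U v w y = fderiv ℝ (fderiv ℝ U) y w v := by
    intro v w
    unfold d2
    have := hd.clm_apply (hasFDerivAt_const v y)
    rw [this.fderiv]
    simp
  have hE : RADI_E (RADI_E U) y = fderiv ℝ (fderiv ℝ U) y y y + fderiv ℝ U y y := by
    unfold RADI_E
    have := hd.clm_apply (hasFDerivAt_id y)
    rw [show (fun y => fderiv ℝ U y y) = fun y => fderiv ℝ U y (id y) from rfl, this.fderiv]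
    simp [add_comm]
  have hR : RADI_R (RADI_R U) y = fderiv ℝ (fderiv ℝ U) y (mi y) (mi y) - fderiv ℝ U y y := by
    have e : RADI_R U = fun y => fderiv ℝ U y (RADI_J y) := by
      funext y
      rw [RADI_J_apply]
      rfl
    rw [e]
    unfold RADI_R
    have := hd.clm_apply RADI_J.hasFDerivAt
    rw [this.fderiv]
    simp only [ContinuousLinearMap.add_apply, ContinuousLinearMap.comp_apply, 
      ContinuousLinearMap.flip_apply, RADI_J_apply, RADI_mi_mi, map_neg]
    ring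
  rw [hE, hR]
  unfold lev
  rw [h2, h2]
  ring

/-! ### scaling and rotation -/

/-- derivative of the dilated means -/
theorem RADI_scale {G : ℂ × ℂ → ℝ} (hG : ContDiff ℝ (⊤ : ℕ∞) G) (K : Set (ℂ × ℂ))
    (hK : IsCompact K) (M : ℂ × ℂ → ℝ) (hM : Continuous M) (t₀ : ℝ) :
    HasDerivAt (fun t => ∫ z in K, G (Real.exp (t / 2) • z) * M z)
      (∫ z in K, 1 / 2 * RADI_E G (Real.exp (t₀ / 2) • z) * M z) t₀ := by
  have hc : Continuous (fun p : ℝ × (ℂ × ℂ) => Real.exp (p.1 / 2) • p.2) :=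
    (Real.continuous_exp.comp (continuous_fst.div_const 2)).smul continuous_snd
  refine RADI_dui K hK (fun t z => G (Real.exp (t / 2) • z) * M z)
    (fun t z => 1 / 2 * RADI_E G (Real.exp (t / 2) • z) * M z) ?_ ?_ ?_ t₀
  · exact (hG.continuous.comp hc).mul (hM.comp continuous_snd)
  · exact (continuous_const.mul ((RADI_E_smooth hG).continuous.comp hc)).mul
      (hM.comp continuous_snd)
  · intro t z
    have h1 : HasDerivAt (fun t : ℝ => Real.exp (t / 2)) (Real.exp (t / 2) * (1 / 2)) t :=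
      ((hasDerivAt_id t).div_const 2).exp
    have h2 := h1.smul_const z
    have h3 := ((hG.differentiable (by simp)) (Real.exp (t / 2) • z)).hasFDerivAt.comp_hasDerivAt t h2
    have h4 := h3.mul_const (M z)
    refine h4.congr_deriv ?_
    unfold RADI_E
    rw [mul_comm (Real.exp (t / 2)) (1 / 2), mul_smul, map_smul, smul_eq_mul]

/-- multiplication by a complex number -/
noncomputable def RADI_rot (u : ℂ) (z : ℂ × ℂ) : ℂ × ℂ := (u * z.1, u * z.2)

theorem RADI_rot_mp (u : Circle) : MeasurePreserving (RADI_rot (u : ℂ)) := by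
  have h : MeasurePreserving (rotation u) := (rotation u).measurePreserving
  have h2 : MeasurePreserving (Prod.map (rotation u) (rotation u))
      ((volume : Measure ℂ).prod volume) ((volume : Measure ℂ).prod volume) := h.prod h
  have e : RADI_rot (u : ℂ) = Prod.map (rotation u) (rotation u) := by
    funext z
    exact Prod.ext (rotation_apply u z.1).symm (rotation_apply u z.2).symm
  rw [e]
  exact h2

theorem RADI_rot_emb (u : Circle) : MeasurableEmbedding (RADI_rot (u : ℂ)) := by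
  have e : RADI_rot (u : ℂ) = ((rotation u).toHomeomorph.prodCongr (rotation u).toHomeomorph) := by
    funext z
    exact Prod.ext (rotation_apply u z.1).symm (rotation_apply u z.2).symm
  rw [e]
  exact Homeomorph.measurableEmbedding _

theorem RADI_rot_integral (u : Circle) (f : ℂ × ℂ → ℝ) :
    ∫ z, f (RADI_rot (u : ℂ) z) = ∫ z, f z :=
  (RADI_rot_mp u).integral_comp (RADI_rot_emb u) f

theorem RADI_rot_nsq (u : Circle) (z : ℂ × ℂ) : nsq (RADI_rot (u : ℂ) z) = nsq z := by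
  unfold nsq RADI_rot
  simp only [norm_mul, Circle.norm_coe, one_mul]

/-- angular derivatives integrate to zero -/
theorem RADI_R_int {G : ℂ × ℂ → ℝ} (hG : ContDiff ℝ (⊤ : ℕ∞) G) (c : ℝ) (m : ℝ → ℝ)
    (hm : Continuous fun z : ℂ × ℂ => m (nsq z)) (b : ℝ) (hb : ∀ s, b < s → m s = 0) :
    ∫ z in {z : ℂ × ℂ | nsq z ≤ b}, RADI_R G (c • z) * m (nsq z) = 0 := by
  set K : Set (ℂ × ℂ) := {z : ℂ × ℂ | nsq z ≤ b} with hKdef
  have hK : IsCompact K := RADI_compact b
  have hH : Continuous (fun p : ℝ × (ℂ × ℂ) => c • RADI_rot (Complex.exp (p.1 * Complex.I)) p.2) := by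
    unfold RADI_rot
    fun_prop
  have key : HasDerivAt (fun t : ℝ => ∫ z in K,
      G (c • RADI_rot (Complex.exp (t * Complex.I)) z) * m (nsq z))
      (∫ z in K, RADI_R G (c • RADI_rot (Complex.exp ((0 : ℝ) * Complex.I)) z) * m (nsq z)) 0 := by
    refine RADI_dui K hK (fun t z => G (c • RADI_rot (Complex.exp (t * Complex.I)) z) * m (nsq z))
      (fun t z => RADI_R G (c • RADI_rot (Complex.exp (t * Complex.I)) z) * m (nsq z)) ?_ ?_ ?_ 0
    · exact (hG.continuous.comp hH).mul (hm.comp continuous_snd)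
    · exact ((RADI_R_smooth hG).continuous.comp hH).mul (hm.comp continuous_snd)
    · intro t z
      have h0 : HasDerivAt (fun t : ℝ => Complex.exp (t * Complex.I))
          (Complex.exp (t * Complex.I) * (1 * Complex.I)) t :=
        ((Complex.ofRealCLM.hasDerivAt (x := t)).mul_const Complex.I).cexp
      have h1 : HasDerivAt (fun t : ℝ => RADI_rot (Complex.exp (t * Complex.I)) z)
          (mi (RADI_rot (Complex.exp (t * Complex.I)) z)) t := by
        have h := (h0.mul_const z.1).prodMk (h0.mul_const z.2)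
        refine h.congr_deriv ?_
        unfold mi RADI_rot
        refine Prod.ext ?_ ?_
        · show Complex.exp (t * Complex.I) * (1 * Complex.I) * z.1 = _
          ring
        · show Complex.exp (t * Complex.I) * (1 * Complex.I) * z.2 = _
          ring
      have h2 := h1.const_smul c
      have h3 := ((hG.differentiable (by simp))
        (c • RADI_rot (Complex.exp (t * Complex.I)) z)).hasFDerivAt.comp_hasDerivAt t h2
      have h4 := h3.mul_const (m (nsq z))
      refine h4.congr_deriv ?_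
      unfold RADI_R
      have h5 : c • mi (RADI_rot (Complex.exp (t * Complex.I)) z) =
          mi (c • RADI_rot (Complex.exp (t * Complex.I)) z) := by
        rw [← RADI_J_apply, ← RADI_J_apply, map_smul]
      rw [h5]
  have hconst : (fun t : ℝ => ∫ z in K,
      G (c • RADI_rot (Complex.exp (t * Complex.I)) z) * m (nsq z)) =
      fun _ => ∫ z, G (c • z) * m (nsq z) := by
    funext t
    have h1 : ∫ z in K, G (c • RADI_rot (Complex.exp (t * Complex.I)) z) * m (nsq z) =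
        ∫ z, G (c • RADI_rot (Complex.exp (t * Complex.I)) z) * m (nsq z) := by
      refine setIntegral_eq_integral_of_forall_compl_eq_zero fun z hz => ?_
      rw [hb (nsq z) (not_le.1 hz), mul_zero]
    rw [h1]
    have h2 := RADI_rot_integral (Circle.exp t) (fun z => G (c • z) * m (nsq z))
    rw [← h2]
    refine integral_congr_ae (Filter.Eventually.of_forall fun z => ?_)
    show _ = G (c • RADI_rot (Circle.exp t : ℂ) z) * m (nsq (RADI_rot (Circle.exp t : ℂ) z))
    rw [RADI_rot_nsq, Circle.coe_exp]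
  rw [hconst] at key
  have h0 := key.unique (hasDerivAt_const (0 : ℝ) (∫ z, G (c • z) * m (nsq z)))
  have h6 : ∀ z, RADI_rot (Complex.exp ((0 : ℝ) * Complex.I)) z = z := by
    intro z
    unfold RADI_rot
    simp
  simp only [h6] at h0
  exact h0

/-! ### the weight -/

section weight

/-- the weight `-16 χ' l'` -/
noncomputable def RADI_m (χ : ℝ → ℝ) (δ s : ℝ) : ℝ := 8 * (-deriv χ s) / (s + δ ^ 2)

/-- its derivative -/
noncomputable def RADI_m1 (χ : ℝ → ℝ) (δ s : ℝ) : ℝ :=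
  (8 * (-deriv (deriv χ) s) * (s + δ ^ 2) - 8 * (-deriv χ s)) / (s + δ ^ 2) ^ 2

variable {χ : ℝ → ℝ} {b δ : ℝ} (hχ : ContDiff ℝ (⊤ : ℕ∞) χ) (hδ : 0 < δ)

include hχ

theorem RADI_chi1 : ContDiff ℝ (⊤ : ℕ∞) (deriv χ) := (contDiff_infty_iff_deriv.1 hχ).2

theorem RADI_chi2 : ContDiff ℝ (⊤ : ℕ∞) (deriv (deriv χ)) :=
  (contDiff_infty_iff_deriv.1 (RADI_chi1 hχ)).2

theorem RADI_chi_d (s : ℝ) : HasDerivAt χ (deriv χ s) s :=
  ((hχ.differentiable (by simp)) s).hasDerivAt

theorem RADI_chi_dd (s : ℝ) : HasDerivAt (deriv χ) (deriv (deriv χ) s) s :=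
  (((RADI_chi1 hχ).differentiable (by simp)) s).hasDerivAt

include hδ

theorem RADI_m_cont {X : Type*} [TopologicalSpace X] (g : X → ℝ) (hg : Continuous g)
    (h0 : ∀ x, 0 ≤ g x) : Continuous fun x => RADI_m χ δ (g x) := by
  unfold RADI_m
  refine (continuous_const.mul ((RADI_chi1 hχ).continuous.comp hg).neg).div
    (hg.add continuous_const) fun x => ?_
  have := h0 x
  positivity

theorem RADI_m1_cont {X : Type*} [TopologicalSpace X] (g : X → ℝ) (hg : Continuous g)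
    (h0 : ∀ x, 0 ≤ g x) : Continuous fun x => RADI_m1 χ δ (g x) := by
  unfold RADI_m1
  refine (((continuous_const.mul ((RADI_chi2 hχ).continuous.comp hg).neg).mul
    (hg.add continuous_const)).sub
    (continuous_const.mul ((RADI_chi1 hχ).continuous.comp hg).neg)).div
    ((hg.add continuous_const).pow 2) fun x => ?_
  have := h0 x
  positivity

theorem RADI_m_deriv (s : ℝ) (hs : 0 ≤ s) : HasDerivAt (RADI_m χ δ) (RADI_m1 χ δ s) s := by
  have h1 : HasDerivAt (fun s => 8 * (-deriv χ s)) (8 * (-deriv (deriv χ) s)) s :=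
    ((RADI_chi_dd hχ s).neg).const_mul 8
  have h2 : HasDerivAt (fun s : ℝ => s + δ ^ 2) 1 s := (hasDerivAt_id s).add_const _
  have h3 : s + δ ^ 2 ≠ 0 := by positivity
  refine (h1.div h2 h3).congr_deriv ?_
  unfold RADI_m1
  rw [mul_one]

theorem RADI_m_nonneg (hanti : Antitone χ) (s : ℝ) (hs : 0 ≤ s) : 0 ≤ RADI_m χ δ s := by
  unfold RADI_m
  have h1 : deriv χ s ≤ 0 := hanti.deriv_nonpos
  have h2 : 0 < s + δ ^ 2 := by positivity
  refine div_nonneg ?_ h2.le
  linarith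

omit hχ hδ in
theorem RADI_chi1_zero (hχ0 : ∀ s, b ≤ s → χ s = 0) (s : ℝ) (hs : b < s) : deriv χ s = 0 := by
  have h : χ =ᶠ[𝓝 s] fun _ => 0 := by
    filter_upwards [lt_mem_nhds hs] with x hx
    exact hχ0 x hx.le
  rw [h.deriv_eq, deriv_const]

omit hχ hδ in
theorem RADI_chi2_zero (hχ0 : ∀ s, b ≤ s → χ s = 0) (s : ℝ) (hs : b < s) :
    deriv (deriv χ) s = 0 := by
  have h : deriv χ =ᶠ[𝓝 s] fun _ => 0 := by
    filter_upwards [lt_mem_nhds hs] with x hx
    exact RADI_chi1_zero hχ0 x hx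
  rw [h.deriv_eq, deriv_const]

omit hχ hδ in
theorem RADI_m_zero (hχ0 : ∀ s, b ≤ s → χ s = 0) (s : ℝ) (hs : b < s) : RADI_m χ δ s = 0 := by
  unfold RADI_m
  rw [RADI_chi1_zero hχ0 s hs]
  simp

omit hχ hδ in
theorem RADI_m1_zero (hχ0 : ∀ s, b ≤ s → χ s = 0) (s : ℝ) (hs : b < s) : RADI_m1 χ δ s = 0 := by
  unfold RADI_m1
  rw [RADI_chi1_zero hχ0 s hs, RADI_chi2_zero hχ0 s hs]
  simp

omit hχ in
theorem RADI_l1 (s : ℝ) (hs : 0 ≤ s) :
    HasDerivAt (fun s => 1 / 2 * Real.log (s + δ ^ 2)) (1 / 2 * (1 / (s + δ ^ 2))) s := by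
  have h2 : HasDerivAt (fun s : ℝ => s + δ ^ 2) 1 s := (hasDerivAt_id s).add_const _
  have h3 : s + δ ^ 2 ≠ 0 := by positivity
  exact (h2.log h3).const_mul _

omit hχ in
theorem RADI_l2 (s : ℝ) (hs : 0 ≤ s) :
    HasDerivAt (fun s => 1 / 2 * (1 / (s + δ ^ 2))) (-(1 / 2 * (1 / (s + δ ^ 2) ^ 2))) s := by
  have h2 : HasDerivAt (fun s : ℝ => s + δ ^ 2) 1 s := (hasDerivAt_id s).add_const _
  have h3 : s + δ ^ 2 ≠ 0 := by positivity
  have h4 := (h2.inv h3).const_mul (1 / 2)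
  have e : (fun s : ℝ => 1 / 2 * (1 / (s + δ ^ 2))) = fun s => 1 / 2 * (s + δ ^ 2)⁻¹ := by
    funext s
    rw [one_div (s + δ ^ 2)]
  rw [e]
  refine h4.congr_deriv ?_
  ring

/-- the Monge-Ampere operator of the cut-off function and the pole -/
theorem RADI_ma_chi (z : ℂ × ℂ) :
    ma (fun z => χ (nsq z)) (lpole δ) z =
      -(2 * RADI_m χ δ (nsq z) + nsq z * RADI_m1 χ δ (nsq z)) := by
  have h := RADI_ma χ (deriv χ) (deriv (deriv χ)) (fun s => 1 / 2 * Real.log (s + δ ^ 2))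
    (fun s => 1 / 2 * (1 / (s + δ ^ 2))) (fun s => -(1 / 2 * (1 / (s + δ ^ 2) ^ 2)))
    (fun s _ => RADI_chi_d hχ s) (fun s _ => RADI_chi_dd hχ s) (RADI_l1 hδ) (RADI_l2 hδ) z
  have e : lpole δ = fun z => 1 / 2 * Real.log (nsq z + δ ^ 2) := rfl
  rw [e, h]
  unfold RADI_m RADI_m1
  have h3 : nsq z + δ ^ 2 ≠ 0 := by
    have := RADI_nsq_nonneg z
    positivity
  field_simp
  ring

end weight

/-! ### convexity -/

theorem RADI_conv {U : ℂ × ℂ → ℝ} (hU : Psh ⊤ U) (m : ℝ → ℝ)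
    (hm : Continuous fun z : ℂ × ℂ => m (nsq z)) (hm0 : ∀ s, 0 ≤ s → 0 ≤ m s) (b : ℝ)
    (hb : ∀ s, b < s → m s = 0) (t₀ : ℝ) (ht₀ : t₀ < 0) :
    (∫ z in {z : ℂ × ℂ | nsq z ≤ b}, U z * m (nsq z)) -
      (∫ z in {z : ℂ × ℂ | nsq z ≤ b}, U (Real.exp (t₀ / 2) • z) * m (nsq z)) ≤
      (-t₀) * ∫ z in {z : ℂ × ℂ | nsq z ≤ b}, 1 / 2 * RADI_E U z * m (nsq z) := by
  have hU1 : ContDiff ℝ (⊤ : ℕ∞) U := hU.1
  have hE := RADI_E_smooth hU1
  have hEE := RADI_E_smooth hE
  have hR := RADI_R_smooth hU1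
  have hRR := RADI_R_smooth hR
  set K : Set (ℂ × ℂ) := {z : ℂ × ℂ | nsq z ≤ b} with hKdef
  have hK : IsCompact K := RADI_compact b
  set φ : ℝ → ℝ := fun t => ∫ z in K, U (Real.exp (t / 2) • z) * m (nsq z) with hφdef
  set ψ : ℝ → ℝ := fun t => ∫ z in K, RADI_E U (Real.exp (t / 2) • z) * m (nsq z) with hψdef
  have hφ : ∀ t, HasDerivAt φ (1 / 2 * ψ t) t := by
    intro t
    have h := RADI_scale hU1 K hK (fun z => m (nsq z)) hm t
    refine h.congr_deriv ?_
    rw [hψdef, ← integral_const_mul]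
    refine integral_congr_ae (Filter.Eventually.of_forall fun z => ?_)
    show _ = _
    ring
  have hψ : ∀ t, HasDerivAt ψ
      (∫ z in K, 1 / 2 * RADI_E (RADI_E U) (Real.exp (t / 2) • z) * m (nsq z)) t :=
    fun t => RADI_scale hE K hK (fun z => m (nsq z)) hm t
  have hψ0 : ∀ t, 0 ≤ deriv ψ t := by
    intro t
    rw [(hψ t).deriv]
    set c := Real.exp (t / 2) with hc
    have hcont : Continuous fun z : ℂ × ℂ => c • z := continuous_const_smul c
    have h1 := RADI_R_int hR c m hm b hb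
    have i1 : IntegrableOn (fun z => RADI_E (RADI_E U) (c • z) * m (nsq z)) K :=
      ((hEE.continuous.comp hcont).mul hm).continuousOn.integrableOn_compact hK
    have i2 : IntegrableOn (fun z => RADI_R (RADI_R U) (c • z) * m (nsq z)) K :=
      ((hRR.continuous.comp hcont).mul hm).continuousOn.integrableOn_compact hK
    have h2 : ∫ z in K, 1 / 2 * RADI_E (RADI_E U) (c • z) * m (nsq z) =
        1 / 2 * ∫ z in K, (RADI_E (RADI_E U) (c • z) * m (nsq z) +
          RADI_R (RADI_R U) (c • z) * m (nsq z)) := by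
      rw [integral_add i1 i2, h1, add_zero, ← integral_const_mul]
      refine integral_congr_ae (Filter.Eventually.of_forall fun z => ?_)
      show _ = _
      ring
    rw [h2]
    refine mul_nonneg (by norm_num) (integral_nonneg fun z => ?_)
    show 0 ≤ RADI_E (RADI_E U) (c • z) * m (nsq z) + RADI_R (RADI_R U) (c • z) * m (nsq z)
    rw [← add_mul, RADI_EE_RR hU1]
    exact mul_nonneg (hU.2 _ _) (hm0 _ (RADI_nsq_nonneg z))
  have hmono : Monotone ψ := monotone_of_deriv_nonneg (fun t => (hψ t).differentiableAt) hψ0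
  obtain ⟨c, hc, hc2⟩ := exists_hasDerivAt_eq_slope φ (fun t => 1 / 2 * ψ t) ht₀
    (fun t _ => (hφ t).continuousAt.continuousWithinAt) (fun t _ => hφ t)
  have h3 : ψ c ≤ ψ 0 := hmono hc.2.le
  have hφ0 : φ 0 = ∫ z in K, U z * m (nsq z) := by
    rw [hφdef]
    simp
  have hψ00 : 1 / 2 * ψ 0 = ∫ z in K, 1 / 2 * RADI_E U z * m (nsq z) := by
    rw [hψdef, ← integral_const_mul]
    refine integral_congr_ae (Filter.Eventually.of_forall fun z => ?_)
    show 1 / 2 * (RADI_E U (Real.exp (0 / 2) • z) * m (nsq z)) = _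
    rw [zero_div, Real.exp_zero, one_smul]
    ring
  rw [← hφ0, ← hψ00]
  have h4 : φ 0 - φ t₀ = (-t₀) * (1 / 2 * ψ c) := by
    have h5 : (0 : ℝ) - t₀ ≠ 0 := by linarith
    have h6 := (eq_div_iff h5).1 hc2
    rw [← h6]
    ring
  show φ 0 - φ t₀ ≤ _
  rw [h4]
  refine mul_le_mul_of_nonneg_left ?_ (by linarith)
  linarith

/-- the derivative at zero of the dilated means, computed on the weight -/
theorem RADI_at_zero {U : ℂ × ℂ → ℝ} (hU : ContDiff ℝ (⊤ : ℕ∞) U) {χ : ℝ → ℝ} {b δ : ℝ}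
    (hχ : ContDiff ℝ (⊤ : ℕ∞) χ) (hδ : 0 < δ) (hb : 0 < b) (hχ0 : ∀ s, b ≤ s → χ s = 0) :
    ∫ z in {z : ℂ × ℂ | nsq z ≤ b}, 1 / 2 * RADI_E U z * RADI_m χ δ (nsq z) =
      ∫ z, U z * ma (fun z => χ (nsq z)) (lpole δ) z := by
  set K : Set (ℂ × ℂ) := {z : ℂ × ℂ | nsq z ≤ b} with hKdef
  have hK : IsCompact K := RADI_compact b
  have hm : Continuous fun z : ℂ × ℂ => RADI_m χ δ (nsq z) :=
    RADI_m_cont hχ hδ nsq RADI_nsq_cont RADI_nsq_nonneg
  have h1 := RADI_scale hU K hK (fun z => RADI_m χ δ (nsq z)) hm 0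
  set K' : Set (ℂ × ℂ) := {z : ℂ × ℂ | nsq z ≤ 3 * b} with hK'def
  have hK' : IsCompact K' := RADI_compact (3 * b)
  have hg : Continuous fun p : ℝ × (ℂ × ℂ) => Real.exp (-p.1) * nsq p.2 :=
    (Real.continuous_exp.comp continuous_fst.neg).mul (RADI_nsq_cont.comp continuous_snd)
  have hg0 : ∀ p : ℝ × (ℂ × ℂ), 0 ≤ Real.exp (-p.1) * nsq p.2 := fun p =>
    mul_nonneg (Real.exp_pos _).le (RADI_nsq_nonneg _)
  have hUc : Continuous fun p : ℝ × (ℂ × ℂ) => U p.2 := hU.continuous.comp continuous_snd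
  have hec : Continuous fun p : ℝ × (ℂ × ℂ) => Real.exp (-(2 * p.1)) :=
    Real.continuous_exp.comp (continuous_const.mul continuous_fst).neg
  have hmc := RADI_m_cont hχ hδ _ hg hg0
  have hm1c := RADI_m1_cont hχ hδ _ hg hg0
  have h2 : HasDerivAt (fun t : ℝ => ∫ z in K',
      U z * (Real.exp (-(2 * t)) * RADI_m χ δ (Real.exp (-t) * nsq z)))
      (∫ z in K', U z * (Real.exp (-(2 * 0)) * (-2) * RADI_m χ δ (Real.exp (-0) * nsq z) +
        Real.exp (-(2 * 0)) * (RADI_m1 χ δ (Real.exp (-0) * nsq z) *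
          (Real.exp (-0) * (-1) * nsq z)))) 0 := by
    refine RADI_dui K' hK'
      (fun t z => U z * (Real.exp (-(2 * t)) * RADI_m χ δ (Real.exp (-t) * nsq z)))
      (fun t z => U z * (Real.exp (-(2 * t)) * (-2) * RADI_m χ δ (Real.exp (-t) * nsq z) +
        Real.exp (-(2 * t)) * (RADI_m1 χ δ (Real.exp (-t) * nsq z) *
          (Real.exp (-t) * (-1) * nsq z)))) ?_ ?_ ?_ 0
    · exact hUc.mul (hec.mul hmc)
    · refine hUc.mul (((hec.mul continuous_const).mul hmc).add (hec.mul (hm1c.mul ?_)))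
      exact ((Real.continuous_exp.comp continuous_fst.neg).mul continuous_const).mul
        (RADI_nsq_cont.comp continuous_snd)
    · intro t z
      have k1 : HasDerivAt (fun t : ℝ => Real.exp (-(2 * t))) (Real.exp (-(2 * t)) * (-2)) t := by
        have := (((hasDerivAt_id t).const_mul 2).neg).exp
        simpa using this
      have k2 : HasDerivAt (fun t : ℝ => Real.exp (-t) * nsq z)
          (Real.exp (-t) * (-1) * nsq z) t :=
        ((hasDerivAt_id t).neg.exp).mul_const (nsq z)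
      have k3 := (RADI_m_deriv hχ hδ (Real.exp (-t) * nsq z) (hg0 (t, z))).comp t k2
      exact (k1.mul k3).const_mul (U z)
  have h3 : (fun t : ℝ => ∫ z in K, U (Real.exp (t / 2) • z) * RADI_m χ δ (nsq z)) =ᶠ[𝓝 0]
      fun t : ℝ => ∫ z in K',
        U z * (Real.exp (-(2 * t)) * RADI_m χ δ (Real.exp (-t) * nsq z)) := by
    filter_upwards [Metric.ball_mem_nhds (0 : ℝ) one_pos] with t ht
    have ht1 : t < 1 := (abs_lt.1 (by simpa using ht)).2
    have a1 : ∫ z in K, U (Real.exp (t / 2) • z) * RADI_m χ δ (nsq z) =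
        ∫ z, U (Real.exp (t / 2) • z) * RADI_m χ δ (nsq z) := by
      refine setIntegral_eq_integral_of_forall_compl_eq_zero fun z hz => ?_
      rw [RADI_m_zero hχ0 (nsq z) (not_le.1 hz), mul_zero]
    have a2 : ∫ z in K', U z * (Real.exp (-(2 * t)) * RADI_m χ δ (Real.exp (-t) * nsq z)) =
        ∫ z, U z * (Real.exp (-(2 * t)) * RADI_m χ δ (Real.exp (-t) * nsq z)) := by
      refine setIntegral_eq_integral_of_forall_compl_eq_zero fun z hz => ?_
      have hz' : 3 * b < nsq z := not_le.1 hz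
      have : b < Real.exp (-t) * nsq z := by
        have e1 : Real.exp t < 3 :=
          (Real.exp_lt_exp.2 ht1).trans Real.exp_one_lt_three
        have e2 : Real.exp (-t) * Real.exp t = 1 := by
          rw [← Real.exp_add]; simp
        have e3 := Real.exp_pos (-t)
        have e4 : 1 < Real.exp (-t) * 3 := by
          rw [← e2]
          exact mul_lt_mul_of_pos_left e1 e3
        calc b < (Real.exp (-t) * 3) * b := by nlinarith
          _ = Real.exp (-t) * (3 * b) := by ring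
          _ < Real.exp (-t) * nsq z := mul_lt_mul_of_pos_left hz' e3
      rw [RADI_m_zero hχ0 _ this, mul_zero, mul_zero]
    rw [a1, a2]
    haveI hHaar : (volume : Measure (ℂ × ℂ)).IsAddHaarMeasure := by
      rw [Measure.volume_eq_prod]
      infer_instance
    have a3 := MeasureTheory.Measure.integral_comp_smul (volume : Measure (ℂ × ℂ))
      (fun y => U y * RADI_m χ δ (Real.exp (-t) * nsq y)) (Real.exp (t / 2))
    have a4 : ∀ z : ℂ × ℂ, Real.exp (-t) * nsq (Real.exp (t / 2) • z) = nsq z := by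
      intro z
      have : nsq (Real.exp (t / 2) • z) = Real.exp t * nsq z := by
        unfold nsq
        simp only [Prod.smul_fst, Prod.smul_snd, norm_smul, mul_pow, Real.norm_eq_abs, sq_abs]
        have : Real.exp (t / 2) ^ 2 = Real.exp t := by
          rw [← Real.exp_nat_mul]
          congr 1
          push_cast
          ring
        rw [this]
        ring
      rw [this, ← mul_assoc, ← Real.exp_add]
      simp
    simp only [a4] at a3
    rw [a3]
    have a5 : Module.finrank ℝ (ℂ × ℂ) = 4 := by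
      rw [Module.finrank_prod, Complex.finrank_real_complex]
    have a6 : |(Real.exp (t / 2) ^ Module.finrank ℝ (ℂ × ℂ))⁻¹| = Real.exp (-(2 * t)) := by
      rw [a5, ← Real.exp_nat_mul, ← Real.exp_neg, abs_of_pos (Real.exp_pos _)]
      congr 1
      push_cast
      ring
    rw [a6, smul_eq_mul, ← integral_const_mul]
    refine integral_congr_ae (Filter.Eventually.of_forall fun z => ?_)
    show _ = _
    ring
  have h4 := (h1.congr_of_eventuallyEq h3.symm).unique h2
  have h5 : ∫ z in K, 1 / 2 * RADI_E U (Real.exp (0 / 2) • z) * RADI_m χ δ (nsq z) =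
      ∫ z in K, 1 / 2 * RADI_E U z * RADI_m χ δ (nsq z) := by
    simp
  rw [← h5, h4]
  have h6 : ∀ z : ℂ × ℂ, U z * (Real.exp (-(2 * 0)) * (-2) * RADI_m χ δ (Real.exp (-0) * nsq z) +
        Real.exp (-(2 * 0)) * (RADI_m1 χ δ (Real.exp (-0) * nsq z) *
          (Real.exp (-0) * (-1) * nsq z))) = U z * ma (fun z => χ (nsq z)) (lpole δ) z := by
    intro z
    rw [RADI_ma_chi hχ hδ]
    simp only [mul_zero, neg_zero, Real.exp_zero, one_mul]
    ring
  simp only [h6]
  refine setIntegral_eq_integral_of_forall_compl_eq_zero fun z hz => ?_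
  have hz' : 3 * b < nsq z := not_le.1 hz
  have hz2 : b < nsq z := by linarith
  rw [RADI_ma_chi hχ hδ, RADI_m_zero hχ0 _ hz2, RADI_m1_zero hχ0 _ hz2]
  simp

/-! ### the theorem -/

theorem RADI_d2_cont {f : ℂ × ℂ → ℝ} (hf : ContDiff ℝ (⊤ : ℕ∞) f) (v w : ℂ × ℂ) :
    Continuous (d2 f v w) := by
  have h : ContDiff ℝ (⊤ : ℕ∞) (fderiv ℝ f) := hf.fderiv_right (by simp)
  have h1 : ContDiff ℝ (⊤ : ℕ∞) (fun z => fderiv ℝ f z v) := h.clm_apply contDiff_const
  have h2 : ContDiff ℝ (⊤ : ℕ∞) (fderiv ℝ (fun z => fderiv ℝ f z v)) := h1.fderiv_right (by simp)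
  exact (h2.clm_apply contDiff_const).continuous

theorem RADI_ma_cont {f g : ℂ × ℂ → ℝ} (hf : ContDiff ℝ (⊤ : ℕ∞) f)
    (hg : ContDiff ℝ (⊤ : ℕ∞) g) : Continuous (ma f g) := by
  have h := RADI_d2_cont hf
  have k := RADI_d2_cont hg
  have hl : ∀ v, Continuous (lev f v) := fun v => (h v v).add (h (mi v) (mi v))
  have kl : ∀ v, Continuous (lev g v) := fun v => (k v v).add (k (mi v) (mi v))
  exact (((hl e1).mul (kl e3)).add ((hl e3).mul (kl e1))).sub (continuous_const.mul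
    ((((h e1 e3).add (h e2 e4)).mul ((k e1 e3).add (k e2 e4))).add
      (((h e1 e4).sub (h e2 e3)).mul ((k e1 e4).sub (k e2 e3)))))

theorem RADI_d2_smul {f : ℂ × ℂ → ℝ} (hf : ContDiff ℝ (⊤ : ℕ∞) f) (c : ℝ) (v w z : ℂ × ℂ) :
    d2 (fun z => c * f z) v w z = c * d2 f v w z := by
  have h : ContDiff ℝ (⊤ : ℕ∞) (fderiv ℝ f) := hf.fderiv_right (by simp)
  have h1 : ContDiff ℝ (⊤ : ℕ∞) (fun z => fderiv ℝ f z v) := h.clm_apply contDiff_const
  unfold d2
  have e : (fun z => fderiv ℝ (fun z => c * f z) z v) = fun z => c * fderiv ℝ f z v := by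
    funext z
    rw [fderiv_const_mul ((hf.differentiable (by simp)) z)]
    rfl
  rw [e, fderiv_const_mul ((h1.differentiable (by simp)) z)]
  rfl

theorem RADI_lpole (hL : St_LOG) {δ : ℝ} (hδ : 0 < δ) : Psh ⊤ (lpole δ) := by
  have h := hL (Fin 2) ![Prod.fst, Prod.snd] 0 δ (by
    intro j
    fin_cases j
    · exact differentiable_fst
    · exact differentiable_snd) le_rfl hδ
  have e : lpole δ = fun z => 1 / 2 * lgs ![Prod.fst, Prod.snd] 0 δ z := by
    funext z
    unfold lpole lgs nsq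
    rw [Fin.sum_univ_two]
    simp
  rw [e]
  refine ⟨contDiff_const.mul h.1, fun z v => ?_⟩
  unfold lev
  rw [RADI_d2_smul h.1, RADI_d2_smul h.1, ← mul_add]
  exact mul_nonneg (by norm_num) (h.2 z v)

theorem RADI_psh2 {f : ℂ × ℂ → ℝ} (hf : Psh ⊤ f) : Psh 2 f := by
  refine ⟨hf.1.of_le ?_, hf.2⟩
  exact_mod_cast le_top

theorem thm_RADI (hI : St_IBPC) (hM : St_MAP) (hN : St_NSQ) (hL : St_LOG) : St_RADI := by
  intro U χ a b r δ σ hU hχ hanti ha hab hbr hχ1 hχ0 hδ hσ hσ1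
  have hb : 0 < b := ha.trans hab
  have hU1 : ContDiff ℝ (⊤ : ℕ∞) U := hU.1
  have hPL := RADI_lpole hL hδ
  have hL1 : ContDiff ℝ (⊤ : ℕ∞) (lpole δ) := hPL.1
  have hm : Continuous fun z : ℂ × ℂ => RADI_m χ δ (nsq z) :=
    RADI_m_cont hχ hδ nsq RADI_nsq_cont RADI_nsq_nonneg
  have hχ0s : ContDiff ℝ (⊤ : ℕ∞) fun z : ℂ × ℂ => χ (nsq z) := hχ.comp hN.1
  have hc01 : ∀ s, 0 ≤ χ s := fun s => by
    rcases le_total s b with h | h
    · rw [← hχ0 b le_rfl]
      exact hanti h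
    · rw [hχ0 s h]
  have hc1 : ∀ s, χ s ≤ 1 := fun s => by
    rcases le_total s a with h | h
    · rw [hχ1 s h]
    · rw [← hχ1 a le_rfl]
      exact hanti h
  have hsupp : HasCompactSupport fun z : ℂ × ℂ => χ (nsq z) :=
    HasCompactSupport.intro (RADI_compact b) fun z hz => hχ0 _ (le_of_lt (not_le.1 hz))
  have hma : ∀ z, 0 ≤ ma U (lpole δ) z := hM U (lpole δ) (RADI_psh2 hU) (RADI_psh2 hPL)
  have hmac : Continuous (ma U (lpole δ)) := RADI_ma_cont hU1 hL1
  set K' : Set (ℂ × ℂ) := {z : ℂ × ℂ | nsq z ≤ r ^ 2} with hK'def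
  have hK' : IsCompact K' := RADI_compact (r ^ 2)
  have h1 := hI U (lpole δ) (fun z => χ (nsq z)) hU1 hL1 hχ0s hsupp
  have h2 : ∫ z, χ (nsq z) * ma U (lpole δ) z ≤ ∫ z in K', ma U (lpole δ) z := by
    have h3 : ∫ z, χ (nsq z) * ma U (lpole δ) z = ∫ z in K', χ (nsq z) * ma U (lpole δ) z := by
      refine (setIntegral_eq_integral_of_forall_compl_eq_zero fun z hz => ?_).symm
      have hz' : r ^ 2 < nsq z := not_le.1 hz
      rw [hχ0 _ (by linarith), zero_mul]
    rw [h3]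
    refine integral_mono ?_ ?_ fun z => ?_
    · exact ((hχ0s.continuous.mul hmac).continuousOn.integrableOn_compact hK')
    · exact hmac.continuousOn.integrableOn_compact hK'
    · show χ (nsq z) * ma U (lpole δ) z ≤ ma U (lpole δ) z
      exact mul_le_of_le_one_left (hma z) (hc1 _)
  have hlog : Real.log σ < 0 := Real.log_neg hσ hσ1
  have h4 := RADI_conv hU (RADI_m χ δ) hm (RADI_m_nonneg hχ hδ hanti) b
    (RADI_m_zero hχ0) (Real.log σ) hlog
  rw [RADI_at_zero hU1 hχ hδ hb hχ0, ← h1] at h4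
  have h5 : Real.exp (Real.log σ / 2) = Real.sqrt σ := by
    rw [Real.exp_half, Real.exp_log hσ]
  rw [h5] at h4
  have h6 : Real.log (1 / σ) = -Real.log σ := by
    rw [one_div, Real.log_inv]
  rw [h6, div_le_iff₀ (by linarith)]
  set K : Set (ℂ × ℂ) := {z : ℂ × ℂ | nsq z ≤ b} with hKdef
  have hK : IsCompact K := RADI_compact b
  have h7 : ∫ z, (U z - U (Real.sqrt σ • z)) * (8 * (-deriv χ (nsq z)) / (nsq z + δ ^ 2)) =
      (∫ z in K, U z * RADI_m χ δ (nsq z)) -
        ∫ z in K, U (Real.sqrt σ • z) * RADI_m χ δ (nsq z) := by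
    have i1 : IntegrableOn (fun z => U z * RADI_m χ δ (nsq z)) K :=
      (hU1.continuous.mul hm).continuousOn.integrableOn_compact hK
    have i2 : IntegrableOn (fun z : ℂ × ℂ => U (Real.sqrt σ • z) * RADI_m χ δ (nsq z)) K :=
      ((hU1.continuous.comp (continuous_const_smul (Real.sqrt σ))).mul
        hm).continuousOn.integrableOn_compact hK
    rw [← integral_sub i1 i2]
    have h8 : ∫ z, (U z - U (Real.sqrt σ • z)) * (8 * (-deriv χ (nsq z)) / (nsq z + δ ^ 2)) =
        ∫ z in K, (U z - U (Real.sqrt σ • z)) * (8 * (-deriv χ (nsq z)) / (nsq z + δ ^ 2)) := by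
      refine (setIntegral_eq_integral_of_forall_compl_eq_zero fun z hz => ?_).symm
      have h9 := RADI_m_zero (δ := δ) hχ0 (nsq z) (not_le.1 hz)
      unfold RADI_m at h9
      rw [h9, mul_zero]
    rw [h8]
    refine integral_congr_ae (Filter.Eventually.of_forall fun z => ?_)
    show (U z - U (Real.sqrt σ • z)) * (8 * (-deriv χ (nsq z)) / (nsq z + δ ^ 2)) =
      U z * RADI_m χ δ (nsq z) - U (Real.sqrt σ • z) * RADI_m χ δ (nsq z)
    unfold RADI_m
    ring
  rw [h7]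
  refine h4.trans ?_
  rw [mul_comm]
  exact mul_le_mul_of_nonneg_right h2 (by linarith)

end Pool.Agent.KT
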