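import Pool.Agent.KT.St

/-!
# KT: selection of a slab of small mass
-/

set_option autoImplicit false

open scoped BigOperators ComplexConjugate Topology
open MeasureTheory

namespace Pool.Agent.KT

private theorem SEL_swap (F : ℝ → ℝ → ℝ) (hF : Continuous (Function.uncurry F)) (a b c d : ℝ) :
    ∫ x in a..b, ∫ y in c..d, F x y = ∫ y in c..d, ∫ x in a..b, F x y := by
  refine intervalIntegral_intervalIntegral_swap ?_
  exact (hF.continuousOn.integrableOn_compact (isCompact_uIcc.prod isCompact_uIcc)).mono_set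
    (Set.prod_mono Set.uIoc_subset_uIcc Set.uIoc_subset_uIcc)

private theorem SEL_exp (y : ℝ) (hy : 0 ≤ y) : Real.exp (-y) ≤ 2 * (1 / (1 + y ^ 2)) := by
  have h1 := Real.quadratic_le_exp_of_nonneg hy
  have h2 : (1 + y ^ 2) / 2 ≤ Real.exp y := by nlinarith
  rw [Real.exp_neg, ← div_eq_mul_one_div, inv_eq_one_div,
    div_le_div_iff₀ (Real.exp_pos y) (by positivity)]
  linarith

/-- the mass of the kernel -/
private theorem SEL_ker (c : ℝ) (hc : 0 < c) (a b t : ℝ) (hab : a ≤ b) :
    ∫ s in a..b, Real.exp (-(c * |t - s|)) ≤ 2 * Real.pi / c := by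
  have h1 : ∫ s in a..b, Real.exp (-(c * |t - s|)) ≤
      ∫ s in a..b, 2 * (1 / (1 + (c * s - c * t) ^ 2)) := by
    refine intervalIntegral.integral_mono_on hab ?_ ?_ fun s _ => ?_
    · exact (by fun_prop : Continuous fun s : ℝ => Real.exp (-(c * |t - s|))).intervalIntegrable _ _
    · refine Continuous.intervalIntegrable ?_ _ _
      refine continuous_const.mul (continuous_const.div (by fun_prop) fun s => ?_)
      positivity
    · have h2 := SEL_exp (c * |t - s|) (by positivity)
      have h3 : (c * |t - s|) ^ 2 = (c * s - c * t) ^ 2 := by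
        rw [mul_pow, sq_abs]
        ring
      rwa [h3] at h2
  refine h1.trans ?_
  rw [intervalIntegral.integral_const_mul,
    intervalIntegral.integral_comp_mul_sub (fun x => 1 / (1 + x ^ 2)) hc.ne',
    integral_one_div_one_add_sq, smul_eq_mul]
  have h4 := Real.arctan_lt_pi_div_two (c * b - c * t)
  have h5 := Real.neg_pi_div_two_lt_arctan (c * a - c * t)
  rw [mul_div_assoc, div_eq_inv_mul]
  refine mul_le_mul_of_nonneg_left ?_ (by norm_num)
  exact mul_le_mul_of_nonneg_left (by linarith) (by positivity)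

/-- a point at which the weighted mass is small -/
private theorem SEL_pt (k C₁ κ Y : ℝ) (hk : 0 < k) (hC : 0 ≤ C₁) (hκ : 0 < κ) (hY : 0 < Y)
    (m : ℝ → ℝ) (hm : Continuous m) (hm0 : ∀ t, 0 ≤ m t)
    (hmass : (∫ t in (-(3 / 4 * Y))..(3 / 4 * Y), m t) ≤ C₁ * κ * Y) (a b : ℝ)
    (hab : b - a = Y / 8) :
    ∃ t₀ ∈ Set.Icc a b, ∫ t in (-(3 / 4 * Y))..(3 / 4 * Y),
      Real.exp (-(k / 2 * |t - t₀|)) * m t ≤ (32 * Real.pi * C₁ / k + 1) * κ := by
  have hc : 0 < k / 2 := by positivity
  have hab' : a ≤ b := by linarith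
  by_contra hcon
  push Not at hcon
  have hcont : Continuous (Function.uncurry fun s t : ℝ => Real.exp (-(k / 2 * |t - s|)) * m t) := by
    refine Continuous.mul ?_ (hm.comp continuous_snd)
    exact (by fun_prop : Continuous fun p : ℝ × ℝ => Real.exp (-(k / 2 * |p.2 - p.1|)))
  have hΦ : Continuous fun s : ℝ => ∫ t in (-(3 / 4 * Y))..(3 / 4 * Y),
      Real.exp (-(k / 2 * |t - s|)) * m t :=
    intervalIntegral.continuous_parametric_intervalIntegral_of_continuous' hcont _ _
  have h1 : ((32 * Real.pi * C₁ / k + 1) * κ) * (Y / 8) ≤ ∫ s in a..b,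
      ∫ t in (-(3 / 4 * Y))..(3 / 4 * Y), Real.exp (-(k / 2 * |t - s|)) * m t := by
    have h2 : ∫ _ in a..b, (32 * Real.pi * C₁ / k + 1) * κ ≤ ∫ s in a..b,
        ∫ t in (-(3 / 4 * Y))..(3 / 4 * Y), Real.exp (-(k / 2 * |t - s|)) * m t :=
      intervalIntegral.integral_mono_on hab' (by simp) (hΦ.intervalIntegrable _ _)
        fun s hs => (hcon s hs).le
    rw [intervalIntegral.integral_const, hab, smul_eq_mul] at h2
    linarith
  rw [SEL_swap _ hcont] at h1
  have h3 : ∫ t in (-(3 / 4 * Y))..(3 / 4 * Y), ∫ s in a..b,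
      Real.exp (-(k / 2 * |t - s|)) * m t ≤
      ∫ t in (-(3 / 4 * Y))..(3 / 4 * Y), 2 * Real.pi / (k / 2) * m t := by
    refine intervalIntegral.integral_mono_on (by linarith) ?_
      ((continuous_const.mul hm).intervalIntegrable _ _) fun t _ => ?_
    · refine Continuous.intervalIntegrable ?_ _ _
      exact intervalIntegral.continuous_parametric_intervalIntegral_of_continuous'
        (f := fun t s : ℝ => Real.exp (-(k / 2 * |t - s|)) * m t)
        ((by fun_prop : Continuous fun p : ℝ × ℝ => Real.exp (-(k / 2 * |p.1 - p.2|))).mul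
          (hm.comp continuous_fst)) _ _
    · rw [intervalIntegral.integral_mul_const]
      exact mul_le_mul_of_nonneg_right (SEL_ker (k / 2) hc a b t hab') (hm0 t)
  rw [intervalIntegral.integral_const_mul] at h3
  have h4 : 2 * Real.pi / (k / 2) * ∫ t in (-(3 / 4 * Y))..(3 / 4 * Y), m t ≤
      2 * Real.pi / (k / 2) * (C₁ * κ * Y) :=
    mul_le_mul_of_nonneg_left hmass (by positivity)
  have h5 : ((32 * Real.pi * C₁ / k + 1) * κ) * (Y / 8) =
      2 * Real.pi / (k / 2) * (C₁ * κ * Y) + κ * (Y / 8) := by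
    field_simp
    ring
  have h6 : 0 < κ * (Y / 8) := by positivity
  linarith

/-- the estimates at such a point -/
private theorem SEL_est (k K κ Y : ℝ) (hk : 0 < k) (hY : 4 ≤ Y)
    (m : ℝ → ℝ) (hm : Continuous m) (hm0 : ∀ t, 0 ≤ m t) (t₀ : ℝ)
    (h : ∫ t in (-(3 / 4 * Y))..(3 / 4 * Y), Real.exp (-(k / 2 * |t - t₀|)) * m t ≤ K * κ) :
    (∀ t ∈ Set.Icc (-(Y / 2)) (Y / 2), (∫ s in (t - 1)..(t + 1), m s) ≤
      Real.exp (k / 2) * (K * κ) * Real.exp (k * |t - t₀| / 2)) ∧
    (∫ t in (-(Y / 2))..(Y / 2),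
      Real.exp (-(k * |t - t₀|)) * (∫ s in (t - 1)..(t + 1), m s) ^ 2) ≤
      2 * Real.exp k * (K * κ) ^ 2 := by
  set g : ℝ → ℝ := fun s => Real.exp (-(k / 2 * |s - t₀|)) * m s with hg
  have hgc : Continuous g :=
    (by fun_prop : Continuous fun s : ℝ => Real.exp (-(k / 2 * |s - t₀|))).mul hm
  have hg0 : ∀ s, 0 ≤ g s := fun s => mul_nonneg (Real.exp_pos _).le (hm0 s)
  have hsub : ∀ a b : ℝ, -(3 / 4 * Y) ≤ a → a ≤ b → b ≤ 3 / 4 * Y → ∫ s in a..b, g s ≤ K * κ := by
    intro a b h1 h2 h3
    refine (intervalIntegral.integral_mono_interval h1 h2 h3 ?_ (hgc.intervalIntegrable _ _)).trans h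
    exact Filter.Eventually.of_forall hg0
  -- comparison of the two masses
  have hcmp : ∀ t, ∫ s in (t - 1)..(t + 1), m s ≤
      Real.exp (k / 2) * Real.exp (k / 2 * |t - t₀|) * ∫ s in (t - 1)..(t + 1), g s := by
    intro t
    rw [← intervalIntegral.integral_const_mul]
    refine intervalIntegral.integral_mono_on (by linarith) (hm.intervalIntegrable _ _)
      ((continuous_const.mul hgc).intervalIntegrable _ _) fun s hs => ?_
    have h1 : |s - t₀| ≤ 1 + |t - t₀| := by
      have h2 : |s - t| ≤ 1 := abs_le.2 ⟨by linarith [hs.1], by linarith [hs.2]⟩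
      have h3 := abs_sub_le s t t₀
      linarith
    have h4 : 1 ≤ Real.exp (k / 2) * Real.exp (k / 2 * |t - t₀|) *
        Real.exp (-(k / 2 * |s - t₀|)) := by
      rw [← Real.exp_add, ← Real.exp_add]
      refine Real.one_le_exp ?_
      nlinarith
    rw [hg]
    simp only
    rw [← mul_assoc]
    exact le_mul_of_one_le_left (hm0 s) h4
  constructor
  · intro t ht
    refine (hcmp t).trans ?_
    have h1 := hsub (t - 1) (t + 1) (by linarith [ht.1]) (by linarith) (by linarith [ht.2])
    have h2 : Real.exp (k * |t - t₀| / 2) = Real.exp (k / 2 * |t - t₀|) := by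
      congr 1
      ring
    rw [h2, mul_assoc, mul_assoc, mul_comm (K * κ)]
    exact mul_le_mul_of_nonneg_left (mul_le_mul_of_nonneg_left h1 (Real.exp_pos _).le)
      (Real.exp_pos _).le
  · -- the double integral
    have hrep : ∀ (f : ℝ → ℝ) (t : ℝ), ∫ s in (t - 1)..(t + 1), f s =
        ∫ x in (-1 : ℝ)..1, f (t + x) := by
      intro f t
      rw [intervalIntegral.integral_comp_add_left, ← sub_eq_add_neg]
    have hcd : ∀ f : ℝ → ℝ, Continuous f → Continuous fun t => ∫ s in (t - 1)..(t + 1), f s := by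
      intro f hf
      simp only [hrep]
      exact intervalIntegral.continuous_parametric_intervalIntegral_of_continuous'
        (f := fun t x : ℝ => f (t + x)) (hf.comp continuous_add) _ _
    have hD0 : ∀ t, 0 ≤ ∫ s in (t - 1)..(t + 1), g s := fun t =>
      intervalIntegral.integral_nonneg (by linarith) fun s _ => hg0 s
    have hM0 : ∀ t, 0 ≤ ∫ s in (t - 1)..(t + 1), m s := fun t =>
      intervalIntegral.integral_nonneg (by linarith) fun s _ => hm0 s
    have h1 : ∫ t in (-(Y / 2))..(Y / 2),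
        Real.exp (-(k * |t - t₀|)) * (∫ s in (t - 1)..(t + 1), m s) ^ 2 ≤
        ∫ t in (-(Y / 2))..(Y / 2), Real.exp k * (K * κ) * ∫ s in (t - 1)..(t + 1), g s := by
      refine intervalIntegral.integral_mono_on (by linarith) ?_ ?_ fun t ht => ?_
      · refine Continuous.intervalIntegrable ?_ _ _
        exact (by fun_prop : Continuous fun t : ℝ => Real.exp (-(k * |t - t₀|))).mul
          ((hcd m hm).pow 2)
      · exact (continuous_const.mul (hcd g hgc)).intervalIntegrable _ _
      · have h2 := hcmp t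
        have h3 := hsub (t - 1) (t + 1) (by linarith [ht.1]) (by linarith) (by linarith [ht.2])
        have h4 : (∫ s in (t - 1)..(t + 1), m s) ^ 2 ≤
            (Real.exp (k / 2) * Real.exp (k / 2 * |t - t₀|) * ∫ s in (t - 1)..(t + 1), g s) ^ 2 :=
          pow_le_pow_left₀ (hM0 t) h2 2
        have h5 : Real.exp (-(k * |t - t₀|)) *
            (Real.exp (k / 2) * Real.exp (k / 2 * |t - t₀|) * ∫ s in (t - 1)..(t + 1), g s) ^ 2 =
            Real.exp k * (∫ s in (t - 1)..(t + 1), g s) * ∫ s in (t - 1)..(t + 1), g s := by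
          have h6 : Real.exp (-(k * |t - t₀|)) * (Real.exp (k / 2) * Real.exp (k / 2 * |t - t₀|)) ^ 2
              = Real.exp k := by
            rw [← Real.exp_add, ← Real.exp_nat_mul, ← Real.exp_add]
            congr 1
            push_cast
            ring
          rw [mul_pow, ← mul_assoc, h6]
          ring
        refine (mul_le_mul_of_nonneg_left h4 (Real.exp_pos _).le).trans ?_
        rw [h5]
        exact mul_le_mul_of_nonneg_right (mul_le_mul_of_nonneg_left h3 (Real.exp_pos _).le) (hD0 t)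
    refine h1.trans ?_
    rw [intervalIntegral.integral_const_mul]
    have hKκ : 0 ≤ K * κ := by
      refine le_trans ?_ h
      exact intervalIntegral.integral_nonneg (by linarith) fun s _ => hg0 s
    have h7 : ∫ t in (-(Y / 2))..(Y / 2), ∫ s in (t - 1)..(t + 1), g s ≤ 2 * (K * κ) := by
      simp only [hrep]
      rw [SEL_swap (fun t x : ℝ => g (t + x)) (hgc.comp continuous_add)]
      have h8 : ∫ x in (-1 : ℝ)..1, ∫ t in (-(Y / 2))..(Y / 2), g (t + x) ≤
          ∫ _ in (-1 : ℝ)..1, K * κ := by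
        refine intervalIntegral.integral_mono_on (by norm_num) ?_ (by simp) fun x hx => ?_
        · refine Continuous.intervalIntegrable ?_ _ _
          exact intervalIntegral.continuous_parametric_intervalIntegral_of_continuous'
            (f := fun x t : ℝ => g (t + x)) (hgc.comp (continuous_snd.add continuous_fst)) _ _
        · rw [intervalIntegral.integral_comp_add_right]
          exact hsub _ _ (by linarith [hx.1]) (by linarith) (by linarith [hx.2])
      refine h8.trans (le_of_eq ?_)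
      rw [intervalIntegral.integral_const, smul_eq_mul]
      ring
    calc Real.exp k * (K * κ) * ∫ t in (-(Y / 2))..(Y / 2), ∫ s in (t - 1)..(t + 1), g s
        ≤ Real.exp k * (K * κ) * (2 * (K * κ)) :=
          mul_le_mul_of_nonneg_left h7 (mul_nonneg (Real.exp_pos _).le hKκ)
      _ = 2 * Real.exp k * (K * κ) ^ 2 := by ring

theorem thm_SEL : St_SEL := by
  intro k C₁ hk hC
  obtain ⟨K, hK⟩ : ∃ K : ℝ, K = 32 * Real.pi * C₁ / k + 1 := ⟨_, rfl⟩
  have hK0 : 0 ≤ K := by
    rw [hK]
    positivity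
  refine ⟨Real.exp (k / 2) * K + 2 * Real.exp k * K ^ 2, 4, by positivity, by norm_num, ?_⟩
  intro κ Y m hκ hY hm hm0 hmass
  obtain ⟨t₁, ht₁, h1⟩ := SEL_pt k C₁ κ Y hk hC hκ (by linarith) m hm hm0 hmass (Y / 8) (Y / 4)
    (by ring)
  obtain ⟨t₂, ht₂, h2⟩ := SEL_pt k C₁ κ Y hk hC hκ (by linarith) m hm hm0 hmass (-(Y / 4))
    (-(Y / 8)) (by ring)
  refine ⟨t₁, ht₁, t₂, ht₂, fun t₀ ht₀ => ?_⟩
  have h3 : ∫ t in (-(3 / 4 * Y))..(3 / 4 * Y), Real.exp (-(k / 2 * |t - t₀|)) * m t ≤ K * κ := by
    rw [hK]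
    rcases ht₀ with rfl | ht₀
    · exact h1
    · rw [Set.mem_singleton_iff] at ht₀
      subst ht₀
      exact h2
  obtain ⟨ha, hb⟩ := SEL_est k K κ Y hk hY m hm hm0 t₀ h3
  constructor
  · intro t ht
    refine (ha t ht).trans ?_
    refine mul_le_mul_of_nonneg_right ?_ (Real.exp_pos _).le
    rw [← mul_assoc]
    refine mul_le_mul_of_nonneg_right ?_ hκ.le
    have : 0 ≤ 2 * Real.exp k * K ^ 2 := by positivity
    linarith
  · refine hb.trans ?_
    rw [mul_pow, ← mul_assoc]
    refine mul_le_mul_of_nonneg_right ?_ (by positivity)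
    have : 0 ≤ Real.exp (k / 2) * K := by positivity
    linarith

end Pool.Agent.KT
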