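import Pool.Agent.KT.St

/-!
# KT: the good slabs (module SLAB).  helper91.
-/

set_option autoImplicit false

open scoped BigOperators ComplexConjugate Topology
open MeasureTheory

namespace Pool.Agent.KT

/-! ### the mean value over the polydisc -/

/-- the mean value over the polydisc -/
private noncomputable def SLAB_Av (r : ℝ) (h : ℂ × ℂ → ℝ) : ℝ :=
  1 / (Real.pi * r ^ 2) ^ 2 *
    ∫ a in Metric.closedBall (0 : ℂ) r ×ˢ Metric.closedBall (0 : ℂ) r, h a

private theorem SLAB_cpt (r : ℝ) :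
    IsCompact (Metric.closedBall (0 : ℂ) r ×ˢ Metric.closedBall (0 : ℂ) r) :=
  (isCompact_closedBall _ _).prod (isCompact_closedBall _ _)

private theorem SLAB_int {r : ℝ} {h : ℂ × ℂ → ℝ} (hc : Continuous h) :
    IntegrableOn h (Metric.closedBall (0 : ℂ) r ×ˢ Metric.closedBall (0 : ℂ) r) :=
  hc.continuousOn.integrableOn_compact (SLAB_cpt r)

private theorem SLAB_vol {r : ℝ} (hr : 0 < r) :
    (volume : Measure (ℂ × ℂ)).real (Metric.closedBall (0 : ℂ) r ×ˢ Metric.closedBall (0 : ℂ) r) =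
      (Real.pi * r ^ 2) ^ 2 := by
  have h1 : (volume : Measure ℂ).real (Metric.closedBall (0 : ℂ) r) = Real.pi * r ^ 2 := by
    rw [Measure.real, Complex.volume_closedBall, ENNReal.toReal_mul, ENNReal.toReal_pow,
      ENNReal.toReal_ofReal hr.le]
    rw [mul_comm]
    rfl
  have h2 := measureReal_prod_prod (μ := (volume : Measure ℂ)) (ν := (volume : Measure ℂ))
    (Metric.closedBall (0 : ℂ) r) (Metric.closedBall (0 : ℂ) r)
  rw [h1] at h2
  rw [Measure.volume_eq_prod, h2]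
  ring

private theorem SLAB_Av_add (r : ℝ) {h h' : ℂ × ℂ → ℝ} (hc : Continuous h) (hc' : Continuous h') :
    SLAB_Av r (fun a => h a + h' a) = SLAB_Av r h + SLAB_Av r h' := by
  unfold SLAB_Av
  rw [integral_add (SLAB_int hc) (SLAB_int hc'), mul_add]

private theorem SLAB_Av_mul (r c : ℝ) (h : ℂ × ℂ → ℝ) :
    SLAB_Av r (fun a => c * h a) = c * SLAB_Av r h := by
  unfold SLAB_Av
  rw [integral_const_mul]
  ring

private theorem SLAB_Av_const {r : ℝ} (hr : 0 < r) (c : ℝ) : SLAB_Av r (fun _ => c) = c := by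
  unfold SLAB_Av
  rw [setIntegral_const, SLAB_vol hr, smul_eq_mul]
  have : (Real.pi * r ^ 2) ^ 2 ≠ 0 := by positivity
  field_simp

private theorem SLAB_Av_mono {r : ℝ} {h h' : ℂ × ℂ → ℝ} (hc : Continuous h) (hc' : Continuous h')
    (hh : ∀ a : ℂ × ℂ, ‖a.1‖ ≤ r → ‖a.2‖ ≤ r → h a ≤ h' a) : SLAB_Av r h ≤ SLAB_Av r h' := by
  unfold SLAB_Av
  refine mul_le_mul_of_nonneg_left ?_ (by positivity)
  refine setIntegral_mono_on (SLAB_int hc) (SLAB_int hc')
    (Metric.isClosed_closedBall.measurableSet.prod Metric.isClosed_closedBall.measurableSet) ?_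
  rintro a ⟨h1, h2⟩
  exact hh a (mem_closedBall_zero_iff.1 h1) (mem_closedBall_zero_iff.1 h2)

private theorem SLAB_Av_neg (r : ℝ) (h : ℂ × ℂ → ℝ) :
    SLAB_Av r (fun a => h (-a)) = SLAB_Av r h := by
  unfold SLAB_Av
  congr 1
  have h0 : MeasurePreserving (fun a : ℂ × ℂ => -a) volume volume :=
    (Measure.measurePreserving_neg (volume : Measure ℂ)).prod
      (Measure.measurePreserving_neg (volume : Measure ℂ))
  have h1 := h0.setIntegral_preimage_emb
    (MeasurableEquiv.neg (ℂ × ℂ)).measurableEmbedding h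
    (Metric.closedBall (0 : ℂ) r ×ˢ Metric.closedBall (0 : ℂ) r)
  rw [← h1]
  congr 2
  ext a
  simp only [Set.mem_prod, mem_closedBall_zero_iff, Set.mem_preimage, Prod.fst_neg, Prod.snd_neg,
    norm_neg]

private theorem SLAB_Av_sq {r : ℝ} (hr : 0 < r) {h : ℂ × ℂ → ℝ} (hc : Continuous h) :
    SLAB_Av r h ^ 2 ≤ SLAB_Av r fun a => h a ^ 2 := by
  set l := SLAB_Av r h with hl
  have h1 : 0 ≤ SLAB_Av r fun a => h a ^ 2 + (-(2 * l) * h a + l ^ 2) := by
    have h2 := SLAB_Av_mono (r := r) (h := fun _ => 0)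
      (h' := fun a => h a ^ 2 + (-(2 * l) * h a + l ^ 2)) continuous_const
      (by fun_prop) (fun a _ _ => by nlinarith [sq_nonneg (h a - l)])
    rwa [SLAB_Av_const hr] at h2
  rw [SLAB_Av_add r (by fun_prop) (by fun_prop), SLAB_Av_add r (by fun_prop) (by fun_prop),
    SLAB_Av_mul, SLAB_Av_const hr, ← hl] at h1
  nlinarith

private theorem SLAB_Av_exists {r : ℝ} (hr : 0 < r) {h : ℂ × ℂ → ℝ} (hc : Continuous h) {c : ℝ}
    (hh : c ≤ SLAB_Av r h) : ∃ a : ℂ × ℂ, ‖a.1‖ ≤ r ∧ ‖a.2‖ ≤ r ∧ c ≤ h a := by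
  by_contra hcon
  push Not at hcon
  -- the maximum
  obtain ⟨a0, ha0, hmax⟩ := (SLAB_cpt r).exists_isMaxOn
    ⟨(0 : ℂ × ℂ), by simp [hr.le], by simp [hr.le]⟩ hc.continuousOn
  have h1 : SLAB_Av r h ≤ h a0 := by
    have h2 := SLAB_Av_mono (r := r) hc (h' := fun _ => h a0) continuous_const
      (fun a h1 h2 => hmax ⟨mem_closedBall_zero_iff.2 h1, mem_closedBall_zero_iff.2 h2⟩)
    rwa [SLAB_Av_const hr] at h2
  have h3 := hcon a0 (mem_closedBall_zero_iff.1 ha0.1) (mem_closedBall_zero_iff.1 ha0.2)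
  linarith

/-! ### the mean value over the torus -/

private theorem SLAB_ht (τ : Tor) (t : ℝ) (x : Fin 3 → ℝ) : ht (τ.pt t x) = t := by
  unfold ht Tor.pt
  rw [Prod.fst_add, Prod.fst_sum, Complex.add_im, Complex.im_sum]
  have h1 : ∑ i, (((x i : ℂ) * (τ.γ i).1, (x i : ℂ) * (τ.γ i).2) : ℂ × ℂ).1.im = 0 := by
    refine Finset.sum_eq_zero fun i _ => ?_
    show ((x i : ℂ) * (τ.a i : ℂ)).im = 0
    rw [← Complex.ofReal_mul, Complex.ofReal_im]
  rw [h1]
  simp

private theorem SLAB_pt_cont (τ : Tor) (t : ℝ) : Continuous (τ.pt t) := by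
  unfold Tor.pt
  fun_prop

private theorem SLAB_ccpt : IsCompact Tor.cube := isCompact_Icc

private theorem SLAB_cvol : (volume : Measure (Fin 3 → ℝ)).real Tor.cube = 1 := by
  unfold Tor.cube
  rw [Measure.real, Real.volume_Icc_pi]
  norm_num

private theorem SLAB_cint (τ : Tor) (t : ℝ) {f : ℂ × ℂ → ℝ} (hc : Continuous f) :
    IntegrableOn (fun x => f (τ.pt t x)) Tor.cube :=
  (hc.comp (SLAB_pt_cont τ t)).continuousOn.integrableOn_compact SLAB_ccpt

private theorem SLAB_avg_ht (τ : Tor) (φ : ℝ → ℝ) (t : ℝ) : τ.avg (fun z => φ (ht z)) t = φ t := by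
  unfold Tor.avg
  simp only [SLAB_ht]
  rw [setIntegral_const, SLAB_cvol, one_smul]

private theorem SLAB_avg_const (τ : Tor) (c t : ℝ) : τ.avg (fun _ => c) t = c :=
  SLAB_avg_ht τ (fun _ => c) t

private theorem SLAB_avg_add (τ : Tor) (t : ℝ) {f g : ℂ × ℂ → ℝ} (hf : Continuous f)
    (hg : Continuous g) : τ.avg (fun z => f z + g z) t = τ.avg f t + τ.avg g t := by
  unfold Tor.avg
  exact integral_add (SLAB_cint τ t hf) (SLAB_cint τ t hg)

private theorem SLAB_avg_mono (τ : Tor) (t : ℝ) {f g : ℂ × ℂ → ℝ} (hf : Continuous f)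
    (hg : Continuous g) (h : ∀ z, ht z = t → f z ≤ g z) : τ.avg f t ≤ τ.avg g t := by
  unfold Tor.avg
  exact setIntegral_mono_on (SLAB_cint τ t hf) (SLAB_cint τ t hg) measurableSet_Icc
    fun x _ => h _ (SLAB_ht τ t x)

private theorem SLAB_ht_cont : Continuous ht := Complex.continuous_im.comp continuous_fst

private theorem SLAB_ht_per (τ : Tor) : τ.Per ht := by
  intro z i
  show (z.1 + (τ.a i : ℂ)).im = z.1.im
  rw [Complex.add_im, Complex.ofReal_im, add_zero]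


/-! ### calculus -/

private theorem SLAB_two : (2 : WithTop ℕ∞) ≤ ((⊤ : ℕ∞) : WithTop ℕ∞) :=
  WithTop.coe_le_coe.2 (le_top : (2 : ℕ∞) ≤ ⊤)

private theorem SLAB_d1 {f : ℂ × ℂ → ℝ} {n : ℕ∞} (hf : ContDiff ℝ (n + 1 : ℕ∞) f) (v : ℂ × ℂ) :
    ContDiff ℝ n (fun z => fderiv ℝ f z v) :=
  (hf.fderiv_right (m := n) (by norm_cast)).clm_apply contDiff_const

private theorem SLAB_d2_cont {f : ℂ × ℂ → ℝ} (hf : ContDiff ℝ 2 f) (v w : ℂ × ℂ) :
    Continuous (d2 f v w) := by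
  have h1 : ContDiff ℝ 1 (fun z => fderiv ℝ f z v) :=
    (hf.fderiv_right (m := 1) (by norm_num)).clm_apply contDiff_const
  exact (h1.continuous_fderiv (by norm_num)).clm_apply continuous_const

private theorem SLAB_lev_cont {f : ℂ × ℂ → ℝ} (hf : ContDiff ℝ 2 f) (v : ℂ × ℂ) :
    Continuous (lev f v) := (SLAB_d2_cont hf v v).add (SLAB_d2_cont hf (mi v) (mi v))

private theorem SLAB_d2_plus (hN : ContDiff ℝ 2 nsq) {u : ℂ × ℂ → ℝ} (hu : ContDiff ℝ 2 u) (κ : ℝ)
    (v w z : ℂ × ℂ) : d2 (plus κ u) v w z = d2 u v w z + κ * d2 nsq v w z := by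
  have hd : ∀ f : ℂ × ℂ → ℝ, ContDiff ℝ 2 f → Differentiable ℝ f := fun f hf =>
    hf.differentiable (by norm_num)
  have hd' : ∀ f : ℂ × ℂ → ℝ, ContDiff ℝ 2 f → Differentiable ℝ (fun z => fderiv ℝ f z v) := by
    intro f hf
    have h1 : ContDiff ℝ 1 (fun z => fderiv ℝ f z v) :=
      (hf.fderiv_right (m := 1) (by norm_num)).clm_apply contDiff_const
    exact h1.differentiable (by norm_num)
  have h1 : (fun z => fderiv ℝ (plus κ u) z v) = fun z => fderiv ℝ u z v + κ * fderiv ℝ nsq z v := by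
    funext z
    have h2 : fderiv ℝ (plus κ u) z = fderiv ℝ u z + κ • fderiv ℝ nsq z := by
      have h3 : plus κ u = fun z => u z + κ * nsq z := rfl
      rw [h3]
      rw [fderiv_fun_add (hd u hu z) ((hd nsq hN z).const_mul κ), fderiv_const_mul (hd nsq hN z)]
    rw [h2]
    rfl
  unfold d2
  rw [h1, fderiv_fun_add (hd' u hu z) ((hd' nsq hN z).const_mul κ), fderiv_const_mul (hd' nsq hN z)]
  rfl

private theorem SLAB_lev_plus (hN : St_NSQ) {u : ℂ × ℂ → ℝ} (hu : ContDiff ℝ 2 u) (κ : ℝ)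
    (v z : ℂ × ℂ) : lev (plus κ u) v z = lev u v z + 4 * κ * nsq v := by
  have h2 : ContDiff ℝ 2 nsq := hN.1.of_le SLAB_two
  have h3 := hN.2.1 v z
  unfold lev at h3 ⊢
  rw [SLAB_d2_plus h2 hu, SLAB_d2_plus h2 hu]
  linear_combination κ * h3

/-! ### convexity -/

section cvx

variable {M : ℝ → ℝ} {κ : ℝ}

/-- the derivative of the convex function -/
private noncomputable def SLAB_P (M : ℝ → ℝ) (κ t : ℝ) : ℝ := deriv M t + 8 * κ * t

private theorem SLAB_hd (hM : ContDiff ℝ 2 M) (t : ℝ) :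
    HasDerivAt (fun t => M t + 4 * κ * t ^ 2) (SLAB_P M κ t) t := by
  have h1 : HasDerivAt M (deriv M t) t :=
    (hM.differentiable (by norm_num) t).hasDerivAt
  have h2 : HasDerivAt (fun t : ℝ => 4 * κ * t ^ 2) (4 * κ * (2 * t)) t := by
    have := (hasDerivAt_pow 2 t).const_mul (4 * κ)
    simpa using this
  have h3 := h1.add h2
  refine h3.congr_deriv ?_
  unfold SLAB_P
  ring

private theorem SLAB_hd2 (hM : ContDiff ℝ 2 M) (t : ℝ) :
    HasDerivAt (SLAB_P M κ) (deriv (deriv M) t + 8 * κ) t := by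
  have hM1 : ContDiff ℝ 1 (deriv M) := ContDiff.deriv' (by exact_mod_cast hM)
  have h1 : HasDerivAt (deriv M) (deriv (deriv M) t) t :=
    (hM1.differentiable (by norm_num) t).hasDerivAt
  have h2 : HasDerivAt (fun t : ℝ => 8 * κ * t) (8 * κ) t := by
    have := (hasDerivAt_id t).const_mul (8 * κ)
    simpa using this
  exact h1.add h2

private theorem SLAB_Pmono (hM : ContDiff ℝ 2 M) (h0 : ∀ t, 0 ≤ deriv (deriv M) t + 8 * κ) :
    Monotone (SLAB_P M κ) :=
  monotone_of_deriv_nonneg (fun t => (SLAB_hd2 hM t).differentiableAt) fun t => by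
    rw [(SLAB_hd2 hM t).deriv]
    exact h0 t

private theorem SLAB_int_m (hM : ContDiff ℝ 2 M) {m : ℝ → ℝ} (hmc : Continuous m)
    (hm : ∀ t, m t = deriv (deriv M) t + 8 * κ) (a b : ℝ) :
    ∫ t in a..b, m t = SLAB_P M κ b - SLAB_P M κ a := by
  refine intervalIntegral.integral_eq_sub_of_hasDerivAt (fun t _ => ?_)
    (hmc.intervalIntegrable a b)
  rw [hm]
  exact SLAB_hd2 hM t

private theorem SLAB_mvt (hM : ContDiff ℝ 2 M) (h0 : ∀ t, 0 ≤ deriv (deriv M) t + 8 * κ)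
    {a b : ℝ} (hab : a ≤ b) :
    (b - a) * SLAB_P M κ a ≤ (M b + 4 * κ * b ^ 2) - (M a + 4 * κ * a ^ 2) ∧
    (M b + 4 * κ * b ^ 2) - (M a + 4 * κ * a ^ 2) ≤ (b - a) * SLAB_P M κ b := by
  rcases hab.eq_or_lt with rfl | hab
  · simp
  · obtain ⟨c, hc, h1⟩ := exists_hasDerivAt_eq_slope (fun t => M t + 4 * κ * t ^ 2) (SLAB_P M κ) hab
      (fun t _ => (SLAB_hd hM t).continuousAt.continuousWithinAt) (fun t _ => SLAB_hd hM t)
    have h2 : 0 < b - a := sub_pos.2 hab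
    have h3 : (M b + 4 * κ * b ^ 2) - (M a + 4 * κ * a ^ 2) = (b - a) * SLAB_P M κ c := by
      rw [h1]
      field_simp
    rw [h3]
    have h4 := SLAB_Pmono hM h0 hc.1.le
    have h5 := SLAB_Pmono hM h0 hc.2.le
    exact ⟨mul_le_mul_of_nonneg_left h4 h2.le, mul_le_mul_of_nonneg_left h5 h2.le⟩

/-- the second difference -/
private theorem SLAB_sd (hM : ContDiff ℝ 2 M) (hκ : 0 ≤ κ)
    (h0 : ∀ t, 0 ≤ deriv (deriv M) t + 8 * κ) {t s : ℝ} (hs : 0 ≤ s) :
    |M (t + s) + M (t - s) - 2 * M t| ≤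
      s * (SLAB_P M κ (t + s) - SLAB_P M κ (t - s)) + 8 * κ * s ^ 2 := by
  obtain ⟨h1, h2⟩ := SLAB_mvt hM h0 (show t ≤ t + s by linarith)
  obtain ⟨h3, h4⟩ := SLAB_mvt hM h0 (show t - s ≤ t by linarith)
  have h5 : 0 ≤ s * (SLAB_P M κ (t + s) - SLAB_P M κ (t - s)) :=
    mul_nonneg hs (sub_nonneg.2 (SLAB_Pmono hM h0 (by linarith)))
  have h6 : 0 ≤ κ * s ^ 2 := by positivity
  have h7 : t + s - t = s := by ring
  have h8 : t - (t - s) = s := by ring
  rw [h7] at h1 h2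
  rw [h8] at h3 h4
  rw [abs_le]
  constructor
  · nlinarith
  · nlinarith

private theorem SLAB_sd' (hM : ContDiff ℝ 2 M) (hκ : 0 ≤ κ)
    (h0 : ∀ t, 0 ≤ deriv (deriv M) t + 8 * κ) (t s : ℝ) :
    |M (t + s) + M (t - s) - 2 * M t| ≤
      |s| * (SLAB_P M κ (t + |s|) - SLAB_P M κ (t - |s|)) + 8 * κ * s ^ 2 := by
  have h := SLAB_sd hM hκ h0 (t := t) (abs_nonneg s)
  rw [sq_abs] at h
  rcases abs_cases s with ⟨h1, -⟩ | ⟨h1, -⟩
  · rw [h1] at h ⊢
    exact h
  · rw [h1] at h ⊢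
    have h2 : M (t + -s) + M (t - -s) = M (t + s) + M (t - s) := by
      rw [sub_neg_eq_add, ← sub_eq_add_neg]
      ring
    rw [h2] at h
    exact h

end cvx


/-! ### the estimates -/

/-- the total mass -/
private theorem SLAB_tot {M : ℝ → ℝ} {κ Y C₁ : ℝ} (hM : ContDiff ℝ 2 M) (hκ : 1 ≤ κ) (hY : 1 ≤ Y)
    (h0 : ∀ t, 0 ≤ deriv (deriv M) t + 8 * κ) (hup : ∀ t ∈ Set.Icc (-Y) Y, M t ≤ κ)
    (hlo : ∀ t ∈ Set.Icc (-Y) Y, -(C₁ * κ * Y ^ 2) ≤ M t) :
    SLAB_P M κ (3 / 4 * Y) - SLAB_P M κ (-(3 / 4 * Y)) ≤ 8 * (C₁ + 5) * κ * Y := by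
  have h1 := (SLAB_mvt hM h0 (show 3 / 4 * Y ≤ Y by linarith)).1
  have h2 := (SLAB_mvt hM h0 (show -Y ≤ -(3 / 4 * Y) by linarith)).2
  have h3 := hup Y ⟨by linarith, le_refl _⟩
  have h4 := hup (-Y) ⟨le_refl _, by linarith⟩
  have h5 := hlo (3 / 4 * Y) ⟨by linarith, by linarith⟩
  have h6 := hlo (-(3 / 4 * Y)) ⟨by linarith, by linarith⟩
  have h7 : (Y - 3 / 4 * Y) * SLAB_P M κ (3 / 4 * Y) ≤ κ * Y ^ 2 * (C₁ + 5) := by
    have h8 : κ ≤ κ * Y ^ 2 := le_mul_of_one_le_right (by linarith) (one_le_pow₀ hY)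
    have h9 : 0 ≤ 4 * κ * (3 / 4 * Y) ^ 2 := by positivity
    linarith
  have h7' : -((-(3 / 4 * Y) - -Y) * SLAB_P M κ (-(3 / 4 * Y))) ≤ κ * Y ^ 2 * (C₁ + 5) := by
    have h8 : κ ≤ κ * Y ^ 2 := le_mul_of_one_le_right (by linarith) (one_le_pow₀ hY)
    have h9 : 0 ≤ 4 * κ * (-(3 / 4 * Y)) ^ 2 := by positivity
    nlinarith
  have h10 : Y / 4 * (SLAB_P M κ (3 / 4 * Y) - SLAB_P M κ (-(3 / 4 * Y))) ≤
      Y / 4 * (8 * (C₁ + 5) * κ * Y) := by
    linarith
  exact le_of_mul_le_mul_left h10 (by linarith)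

/-- bounds for the polydisc means -/
private theorem SLAB_bd {τ : Tor} {r κ Y C₁ CP : ℝ} {u : ℂ × ℂ → ℝ} (hr : 0 < r) (hr8 : r ≤ 1 / 8)
    (hκ : 1 ≤ κ) (hY : 4 ≤ Y) (hC₁ : 0 ≤ C₁) (hCP : 0 ≤ CP)
    (hm : ∀ f : ℂ × ℂ → ℝ, Continuous f → Continuous (τ.avg f))
    (hP : ∀ f : ℂ × ℂ → ℝ, Continuous f → τ.Per f →
      (∀ z, 0 ≤ f z) → ∀ z, pav r f z ≤ CP * ∫ t in (ht z - 1)..(ht z + 1), τ.avg f t)
    (hc : Continuous u) (hper : τ.Per u) (hup : ∀ z, |ht z| ≤ Y → u z ≤ κ)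
    (hlo : ∀ t ∈ Set.Icc (-Y) Y, -(C₁ * κ * Y ^ 2) ≤ τ.avg u t) (z : ℂ × ℂ) (hz : |ht z| ≤ Y / 2) :
    -((1 + 2 * CP * (1 + C₁)) * κ * Y ^ 2) ≤ pav r u z ∧
      pav r u z ≤ (1 + 2 * CP * (1 + C₁)) * κ * Y ^ 2 := by
  have hY2 : 1 ≤ Y ^ 2 := by nlinarith
  have hκY : κ ≤ κ * Y ^ 2 := by nlinarith
  have hcz : Continuous fun a : ℂ × ℂ => u (z + a) := hc.comp (continuous_const.add continuous_id)
  obtain ⟨hz1, hz2⟩ := abs_le.1 hz
  constructor
  · have hf : Continuous fun z => max (κ - u z) 0 := (continuous_const.sub hc).max continuous_const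
    have h1 := hP (fun z => max (κ - u z) 0) hf (fun z i => by
      show max (κ - u (z + τ.γ i)) 0 = max (κ - u z) 0
      rw [hper z i]) (fun z => le_max_right _ _) z
    have h2 : κ - pav r u z ≤ pav r (fun z => max (κ - u z) 0) z := by
      have h3 := SLAB_Av_mono (r := r) (h := fun a => κ + (-1) * u (z + a))
        (h' := fun a => max (κ - u (z + a)) 0) (by fun_prop)
        (hf.comp (continuous_const.add continuous_id))
        (fun a _ _ => by
          have := le_max_left (κ - u (z + a)) 0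
          linarith)
      rw [SLAB_Av_add r continuous_const (by fun_prop), SLAB_Av_mul, SLAB_Av_const hr] at h3
      have h4 : SLAB_Av r (fun a => u (z + a)) = pav r u z := rfl
      rw [h4] at h3
      have h5 : SLAB_Av r (fun a => max (κ - u (z + a)) 0) =
        pav r (fun z => max (κ - u z) 0) z := rfl
      rw [h5] at h3
      linarith
    have h3 : ∫ t in (ht z - 1)..(ht z + 1), τ.avg (fun z => max (κ - u z) 0) t ≤
        ∫ _t in (ht z - 1)..(ht z + 1), (1 + C₁) * κ * Y ^ 2 := by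
      refine intervalIntegral.integral_mono_on (by linarith) ((hm _ hf).intervalIntegrable _ _)
        intervalIntegrable_const fun t ht' => ?_
      have h4 : τ.avg (fun z => max (κ - u z) 0) t ≤ τ.avg (fun z => κ + (-1) * u z) t := by
        refine SLAB_avg_mono τ t hf (by fun_prop) fun z' hz' => ?_
        have h5 := hup z' (by rw [hz', abs_le]; constructor <;> linarith [ht'.1, ht'.2])
        rw [max_eq_left (by linarith)]
        linarith
      have h5 : τ.avg (fun z => κ + (-1) * u z) t = κ - τ.avg u t := by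
        rw [SLAB_avg_add τ t continuous_const (by fun_prop), SLAB_avg_const]
        have h6 : τ.avg (fun z => (-1) * u z) t = (-1) * τ.avg u t := by
          unfold Tor.avg
          exact integral_const_mul _ _
        rw [h6]
        ring
      have h6 := hlo t ⟨by linarith [ht'.1], by linarith [ht'.2]⟩
      rw [h5] at h4
      nlinarith
    rw [intervalIntegral.integral_const, smul_eq_mul] at h3
    have h4 : CP * ∫ t in (ht z - 1)..(ht z + 1), τ.avg (fun z => max (κ - u z) 0) t ≤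
        CP * ((ht z + 1 - (ht z - 1)) * ((1 + C₁) * κ * Y ^ 2)) := mul_le_mul_of_nonneg_left h3 hCP
    have h5 : 0 ≤ κ * Y ^ 2 := by positivity
    nlinarith
  · have h1 := SLAB_Av_mono (r := r) (h := fun a => u (z + a)) (h' := fun _ => κ) hcz
      continuous_const (fun a ha _ => hup _ (by
        have h2 : ht (z + a) = ht z + a.1.im := Complex.add_im _ _
        have h3 := (Complex.abs_im_le_norm a.1).trans ha
        rw [h2]
        obtain ⟨h4, h5⟩ := abs_le.1 h3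
        rw [abs_le]
        constructor <;> linarith))
    rw [SLAB_Av_const hr] at h1
    have h2 : pav r u z ≤ κ := h1
    have h5 : 0 ≤ 2 * CP * (1 + C₁) * (κ * Y ^ 2) := by positivity
    nlinarith

/-- the exponential factor of the boundary term -/
private theorem SLAB_exp {k Y : ℝ} (hk : 0 < k) (hY : 0 ≤ Y) :
    Y ^ 4 * Real.exp (-(k * (Y / 4 - 4))) ≤ 6144 / k ^ 4 * Real.exp (4 * k) := by
  have h1 := Real.pow_div_factorial_le_exp (k * Y / 4) (by positivity) 4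
  have h2 : ((Nat.factorial 4 : ℕ) : ℝ) = 24 := by norm_num [Nat.factorial]
  rw [h2] at h1
  have h3 : -(k * (Y / 4 - 4)) = 4 * k + -(k * Y / 4) := by ring
  rw [h3, Real.exp_add]
  have h4 : Y ^ 4 * Real.exp (-(k * Y / 4)) ≤ 6144 / k ^ 4 := by
    rw [Real.exp_neg, ← div_eq_mul_inv, div_le_div_iff₀ (Real.exp_pos _) (by positivity)]
    have h5 : Y ^ 4 * k ^ 4 = 6144 * ((k * Y / 4) ^ 4 / 24) := by ring
    rw [h5]
    exact mul_le_mul_of_nonneg_left h1 (by norm_num)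
  calc Y ^ 4 * (Real.exp (4 * k) * Real.exp (-(k * Y / 4)))
      = (Y ^ 4 * Real.exp (-(k * Y / 4))) * Real.exp (4 * k) := by ring
    _ ≤ _ := mul_le_mul_of_nonneg_right h4 (Real.exp_pos _).le


/-- the variance near the chosen height -/
private theorem SLAB_V (hO : St_ODE) {k CV CS B κ Y t₀ t : ℝ} {V J : ℝ → ℝ} (hk : 0 < k)
    (hCV : 0 ≤ CV) (hB : 0 ≤ B) (hY : 16 ≤ Y) (hV : ContDiff ℝ 2 V)
    (hV0 : ∀ t, 0 ≤ V t) (hJ : Continuous J)
    (hode : ∀ t, k ^ 2 * V t - CV * J t ^ 2 ≤ deriv (deriv V) t)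
    (hb1 : V (Y / 2) ≤ B * (κ ^ 2 * Y ^ 4)) (hb2 : V (-(Y / 2)) ≤ B * (κ ^ 2 * Y ^ 4))
    (hS : (∫ t in (-(Y / 2))..(Y / 2), Real.exp (-(k * |t - t₀|)) * J t ^ 2) ≤ CS * κ ^ 2)
    (ht₀ : |t₀| ≤ Y / 4) (ht : |t - t₀| ≤ 4) :
    V t ≤ (4 * B * (6144 / k ^ 4 * Real.exp (4 * k)) +
      1 / (2 * k) * (Real.exp (4 * k) * CV * CS)) * κ ^ 2 := by
  obtain ⟨h1, h2⟩ := abs_le.1 ht₀
  obtain ⟨h3, h4⟩ := abs_le.1 ht
  have h5 := hO k (Y / 2) V (fun t => CV * J t ^ 2) hk (by linarith) hV hV0 (by fun_prop)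
    (fun t => mul_nonneg hCV (sq_nonneg _)) (fun t _ => hode t) t ⟨by linarith, by linarith⟩
  have h6 : (V (Y / 2) + V (-(Y / 2))) * (Real.exp (-(k * (Y / 2 - t))) +
      Real.exp (-(k * (Y / 2 + t)))) ≤ 4 * B * (6144 / k ^ 4 * Real.exp (4 * k)) * κ ^ 2 := by
    have e1 : Real.exp (-(k * (Y / 2 - t))) ≤ Real.exp (-(k * (Y / 4 - 4))) :=
      Real.exp_le_exp.2 (neg_le_neg (mul_le_mul_of_nonneg_left (by linarith) hk.le))
    have e2 : Real.exp (-(k * (Y / 2 + t))) ≤ Real.exp (-(k * (Y / 4 - 4))) :=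
      Real.exp_le_exp.2 (neg_le_neg (mul_le_mul_of_nonneg_left (by linarith) hk.le))
    have e3 := SLAB_exp hk (show 0 ≤ Y by linarith)
    have e4 : V (Y / 2) + V (-(Y / 2)) ≤ 2 * (B * (κ ^ 2 * Y ^ 4)) := by linarith
    have e5 : 0 ≤ B * κ ^ 2 := by positivity
    calc (V (Y / 2) + V (-(Y / 2))) * (Real.exp (-(k * (Y / 2 - t))) +
          Real.exp (-(k * (Y / 2 + t))))
        ≤ (2 * (B * (κ ^ 2 * Y ^ 4))) * (2 * Real.exp (-(k * (Y / 4 - 4)))) :=
          mul_le_mul e4 (by linarith) (by positivity) (by positivity)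
      _ = 4 * (B * κ ^ 2) * (Y ^ 4 * Real.exp (-(k * (Y / 4 - 4)))) := by ring
      _ ≤ 4 * (B * κ ^ 2) * (6144 / k ^ 4 * Real.exp (4 * k)) :=
          mul_le_mul_of_nonneg_left e3 (by positivity)
      _ = _ := by ring
  have h7 : ∫ s in (-(Y / 2))..(Y / 2), Real.exp (-(k * |t - s|)) * (CV * J s ^ 2) ≤
      Real.exp (4 * k) * CV * CS * κ ^ 2 := by
    have e1 : ∫ s in (-(Y / 2))..(Y / 2), Real.exp (-(k * |t - s|)) * (CV * J s ^ 2) ≤
        ∫ s in (-(Y / 2))..(Y / 2), Real.exp (4 * k) * CV *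
          (Real.exp (-(k * |s - t₀|)) * J s ^ 2) := by
      refine intervalIntegral.integral_mono_on (by linarith)
        (Continuous.intervalIntegrable (by fun_prop) _ _)
        (Continuous.intervalIntegrable (by fun_prop) _ _) fun s _ => ?_
      have e2 : Real.exp (-(k * |t - s|)) ≤ Real.exp (4 * k) * Real.exp (-(k * |s - t₀|)) := by
        rw [← Real.exp_add]
        refine Real.exp_le_exp.2 ?_
        have e3 : |s - t₀| ≤ |t - s| + 4 := by
          have e4 := abs_sub_le s t t₀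
          rw [abs_sub_comm s t] at e4
          linarith
        nlinarith
      have e5 : 0 ≤ CV * J s ^ 2 := mul_nonneg hCV (sq_nonneg _)
      calc Real.exp (-(k * |t - s|)) * (CV * J s ^ 2)
          ≤ (Real.exp (4 * k) * Real.exp (-(k * |s - t₀|))) * (CV * J s ^ 2) :=
            mul_le_mul_of_nonneg_right e2 e5
        _ = _ := by ring
    rw [intervalIntegral.integral_const_mul] at e1
    have e6 : 0 ≤ Real.exp (4 * k) * CV := by positivity
    calc _ ≤ _ := e1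
      _ ≤ Real.exp (4 * k) * CV * (CS * κ ^ 2) := mul_le_mul_of_nonneg_left hS e6
      _ = _ := by ring
  have h8 : 1 / (2 * k) * ∫ s in (-(Y / 2))..(Y / 2), Real.exp (-(k * |t - s|)) * (CV * J s ^ 2) ≤
      1 / (2 * k) * (Real.exp (4 * k) * CV * CS * κ ^ 2) :=
    mul_le_mul_of_nonneg_left h7 (by positivity)
  calc V t ≤ _ := h5
    _ ≤ 4 * B * (6144 / k ^ 4 * Real.exp (4 * k)) * κ ^ 2 +
        1 / (2 * k) * (Real.exp (4 * k) * CV * CS * κ ^ 2) := add_le_add h6 h8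
    _ = _ := by ring

/-- the mean value over the polydisc of a function of the height -/
private theorem SLAB_pht {r κ C₂ t₁ : ℝ} {φ : ℝ → ℝ} (hr : 0 < r) (hφ : Continuous φ)
    (z : ℂ × ℂ) (hz : ht z = t₁)
    (h : ∀ s, |s| ≤ r → |φ (t₁ + s) + φ (t₁ - s) - 2 * φ t₁| ≤ C₂ * κ) :
    |pav r (fun z => φ (ht z)) z - φ t₁| ≤ C₂ * κ / 2 := by
  have hh : ∀ a : ℂ × ℂ, ht (z + a) = t₁ + a.1.im := by
    intro a
    rw [← hz]
    exact Complex.add_im _ _
  have hi : Continuous fun a : ℂ × ℂ => a.1.im := SLAB_ht_cont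
  have h1 : pav r (fun z => φ (ht z)) z = SLAB_Av r fun a => φ (t₁ + a.1.im) := by
    show SLAB_Av r (fun a => φ (ht (z + a))) = _
    simp only [hh]
  have h2 : SLAB_Av r (fun a => φ (t₁ + a.1.im)) = SLAB_Av r fun a => φ (t₁ - a.1.im) := by
    rw [← SLAB_Av_neg r fun a => φ (t₁ + a.1.im)]
    simp only [Prod.fst_neg, Complex.neg_im, ← sub_eq_add_neg]
  have hc1 : Continuous fun a : ℂ × ℂ => φ (t₁ + a.1.im) := hφ.comp (continuous_const.add hi)
  have hc2 : Continuous fun a : ℂ × ℂ => φ (t₁ - a.1.im) := hφ.comp (continuous_const.sub hi)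
  have h3 : 2 * pav r (fun z => φ (ht z)) z =
      SLAB_Av r fun a => φ (t₁ + a.1.im) + φ (t₁ - a.1.im) := by
    rw [SLAB_Av_add r hc1 hc2, ← h2, h1]
    ring
  have h4 : ∀ a : ℂ × ℂ, ‖a.1‖ ≤ r → ‖a.2‖ ≤ r →
      |φ (t₁ + a.1.im) + φ (t₁ - a.1.im) - 2 * φ t₁| ≤ C₂ * κ := fun a ha _ =>
    h _ ((Complex.abs_im_le_norm a.1).trans ha)
  have h5 : SLAB_Av r (fun a => φ (t₁ + a.1.im) + φ (t₁ - a.1.im)) ≤ 2 * φ t₁ + C₂ * κ := by
    rw [← SLAB_Av_const hr (2 * φ t₁ + C₂ * κ)]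
    exact SLAB_Av_mono (hc1.add hc2) continuous_const fun a ha hb => by
      have := (abs_le.1 (h4 a ha hb)).2
      linarith
  have h6 : 2 * φ t₁ - C₂ * κ ≤ SLAB_Av r (fun a => φ (t₁ + a.1.im) + φ (t₁ - a.1.im)) := by
    rw [← SLAB_Av_const hr (2 * φ t₁ - C₂ * κ)]
    exact SLAB_Av_mono continuous_const (hc1.add hc2) fun a ha hb => by
      have := (abs_le.1 (h4 a ha hb)).1
      linarith
  rw [abs_le]
  constructor <;> linarith


private theorem SLAB_sub (hS : St_SUB) (hA : ∀ r z, 0 < r → pav r nsq z = nsq z + r ^ 2)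
    (hN : Continuous nsq) {κ r : ℝ} {u : ℂ × ℂ → ℝ} (hc : Continuous u) (hr : 0 < r)
    (hp : Psh 2 (plus κ u)) (z : ℂ × ℂ) : u z ≤ pav r u z + κ * r ^ 2 := by
  have h1 := hS _ hp r hr z
  have h2 : pav r (plus κ u) z = pav r u z + κ * pav r nsq z := by
    show SLAB_Av r (fun a => u (z + a) + κ * nsq (z + a)) =
      SLAB_Av r (fun a => u (z + a)) + κ * SLAB_Av r (fun a => nsq (z + a))
    rw [SLAB_Av_add r (by fun_prop) (by fun_prop), SLAB_Av_mul]
  rw [h2, hA r z hr] at h1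
  have h3 : plus κ u z = u z + κ * nsq z := rfl
  rw [h3] at h1
  nlinarith

/-- SLAB: the good slabs -/
theorem thm_SLAB (τ : Tor) (hV : St_VODE τ) (hSel : St_SEL) (hO : St_ODE) (hA : St_PAV τ)
    (hS : St_SUB) (hM : St_MEAN τ) (hN : St_NSQ) : St_SLAB τ := by
  intro r C₁ hr hr8 hC₁
  obtain ⟨k, CV, hk, hCV, hVo⟩ := hV r hr (by linarith)
  obtain ⟨CP, hCP, hPav⟩ := hA.2.2.1 r hr (by linarith)
  obtain ⟨CS, YS, hCS, hYS, hSe⟩ := hSel k (8 * (C₁ + 5)) hk (by linarith)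
  obtain ⟨A, hAd⟩ : ∃ A, A = 1 + 2 * CP * (1 + C₁) := ⟨_, rfl⟩
  obtain ⟨Cv, hCv⟩ : ∃ Cv, Cv = 4 * (4 * A ^ 2) * (6144 / k ^ 4 * Real.exp (4 * k)) +
      1 / (2 * k) * (Real.exp (4 * k) * CV * CS) := ⟨_, rfl⟩
  obtain ⟨C₂, hC₂⟩ : ∃ C₂, C₂ = 2 * (4 * (CS * Real.exp (3 * k / 2))) + 32 := ⟨_, rfl⟩
  obtain ⟨Q, hQ⟩ : ∃ Q, Q = (1 + 2 * CP * Cv) + C₂ := ⟨_, rfl⟩
  have hA1 : 1 ≤ A := by
    rw [hAd]
    have : 0 ≤ 2 * CP * (1 + C₁) := by positivity
    linarith
  have hCv0 : 0 ≤ Cv := by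
    rw [hCv]
    positivity
  have hC₂0 : 0 ≤ C₂ := by
    rw [hC₂]
    positivity
  have hQ0 : 0 ≤ Q := by
    rw [hQ]
    positivity
  refine ⟨2 * Q + C₂ + 1, max YS 16, by linarith, by positivity, ?_⟩
  intro κ Y u hκ hYm hper hu hpsh hup hlo
  have hY : 16 ≤ Y := (le_max_right _ _).trans hYm
  have hYS' : YS ≤ Y := (le_max_left _ _).trans hYm
  have hκ0 : 0 ≤ κ := by linarith
  have huc : Continuous u := hu.continuous
  have hu2 : ContDiff ℝ 2 u := hu.of_le SLAB_two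
  have hN2 : Continuous nsq := hN.1.continuous
  obtain ⟨hMc, -, hMd, -, hM3⟩ := hM.2 u hper hu2
  have hMcont : Continuous (τ.avg u) := hMc.continuous
  -- the mass
  have hlp : ∀ v, Continuous (lev (plus κ u) v) := by
    intro v
    have h1 : lev (plus κ u) v = fun z => lev u v z + 4 * κ * nsq v :=
      funext fun z => SLAB_lev_plus hN hu2 κ v z
    rw [h1]
    exact (SLAB_lev_cont hu2 v).add continuous_const
  obtain ⟨m, hmd⟩ : ∃ m, m = τ.avg (fun z => lev (plus κ u) e1 z + lev (plus κ u) e3 z) := ⟨_, rfl⟩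
  have hmc : Continuous m := by
    rw [hmd]
    exact hM.1 _ ((hlp _).add (hlp _))
  have hm0 : ∀ t, 0 ≤ m t := by
    intro t
    rw [hmd, ← SLAB_avg_const τ 0 t]
    exact SLAB_avg_mono τ t continuous_const ((hlp _).add (hlp _)) fun z _ =>
      add_nonneg (hpsh.2 z e1) (hpsh.2 z e3)
  have hm : ∀ t, m t = deriv (deriv (τ.avg u)) t + 8 * κ := by
    intro t
    have h1 : (fun z => lev (plus κ u) e1 z + lev (plus κ u) e3 z) =
        fun z => lev u e1 z + (lev u e3 z + 8 * κ) := by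
      funext z
      rw [SLAB_lev_plus hN hu2, SLAB_lev_plus hN hu2]
      have h2 : nsq e1 = 1 := by simp [nsq, e1]
      have h3 : nsq e3 = 1 := by simp [nsq, e3]
      rw [h2, h3]
      ring
    rw [hmd, h1, SLAB_avg_add τ t (f := lev u e1) (g := fun z => lev u e3 z + 8 * κ)
      (SLAB_lev_cont hu2 _) ((SLAB_lev_cont hu2 _).add continuous_const),
      SLAB_avg_add τ t (f := lev u e3) (g := fun _ => 8 * κ) (SLAB_lev_cont hu2 _)
      continuous_const, SLAB_avg_const, hM3 t, hMd t, zero_add]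
  have h0 : ∀ t, 0 ≤ deriv (deriv (τ.avg u)) t + 8 * κ := fun t => by
    rw [← hm t]
    exact hm0 t
  have hMup : ∀ t ∈ Set.Icc (-Y) Y, τ.avg u t ≤ κ := by
    intro t ht'
    have h1 := SLAB_avg_mono τ t huc (g := fun _ => κ) continuous_const fun z hz => hup z (by
      rw [hz, abs_le]
      exact ht')
    rwa [SLAB_avg_const] at h1
  have hint : ∀ a b, ∫ t in a..b, m t = SLAB_P (τ.avg u) κ b - SLAB_P (τ.avg u) κ a :=
    SLAB_int_m hMc hmc hm
  have hPm : Monotone (SLAB_P (τ.avg u) κ) := SLAB_Pmono hMc h0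
  have htot : (∫ t in (-(3 / 4 * Y))..(3 / 4 * Y), m t) ≤ 8 * (C₁ + 5) * κ * Y := by
    rw [hint]
    exact SLAB_tot hMc hκ (by linarith) h0 hMup hlo
  obtain ⟨t₁, ht₁, t₂, ht₂, hts⟩ := hSe κ Y m (by linarith) hYS' hmc hm0 htot
  refine ⟨t₁, ht₁, t₂, ht₂, fun t₀ ht₀ => ?_⟩
  obtain ⟨hs1, hs2⟩ := hts t₀ ht₀
  have habs : |t₀| ≤ Y / 4 := by
    rcases ht₀ with rfl | ht₀
    · rw [abs_le]
      exact ⟨by linarith [ht₁.1], ht₁.2⟩
    · have ht₀ : t₀ = t₂ := ht₀
      rw [ht₀, abs_le]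
      exact ⟨by linarith [ht₂.1], by linarith [ht₂.2]⟩
  obtain ⟨ha1, ha2⟩ := abs_le.1 habs
  -- second differences
  have hP8 : SLAB_P (τ.avg u) κ (t₀ + 4) - SLAB_P (τ.avg u) κ (t₀ - 4) ≤
      4 * (CS * Real.exp (3 * k / 2)) * κ := by
    have key : ∀ c, |c| ≤ 3 → SLAB_P (τ.avg u) κ (t₀ + c + 1) - SLAB_P (τ.avg u) κ (t₀ + c - 1) ≤
        CS * κ * Real.exp (3 * k / 2) := by
      intro c hc
      obtain ⟨hc1, hc2⟩ := abs_le.1 hc
      have h1 := hs1 (t₀ + c) ⟨by linarith, by linarith⟩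
      rw [hint] at h1
      refine h1.trans (mul_le_mul_of_nonneg_left (Real.exp_le_exp.2 ?_) (by positivity))
      have h2 : t₀ + c - t₀ = c := by ring
      rw [h2]
      nlinarith
    have k1 := key (-3) (by norm_num)
    have k2 := key (-1) (by norm_num)
    have k3 := key 1 (by norm_num)
    have k4 := key 3 (by norm_num)
    have e1 : t₀ + -3 + 1 = t₀ + -1 - 1 := by ring
    have e2 : t₀ + -1 + 1 = t₀ + 1 - 1 := by ring
    have e3 : t₀ + 1 + 1 = t₀ + 3 - 1 := by ring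
    have e4 : t₀ + 3 + 1 = t₀ + 4 := by ring
    have e5 : t₀ + -3 - 1 = t₀ - 4 := by ring
    rw [e1, e5] at k1
    rw [e2] at k2
    rw [e3] at k3
    rw [e4] at k4
    linarith
  have hsd : ∀ t s, |t - t₀| + |s| ≤ 4 → |s| ≤ 2 →
      |τ.avg u (t + s) + τ.avg u (t - s) - 2 * τ.avg u t| ≤ C₂ * κ := by
    intro t s h1 h2
    have h3 := SLAB_sd' hMc hκ0 h0 t s
    obtain ⟨h4, h5⟩ := abs_le.1 (show |t - t₀| ≤ 4 - |s| by linarith)
    have h6 : SLAB_P (τ.avg u) κ (t + |s|) ≤ SLAB_P (τ.avg u) κ (t₀ + 4) := hPm (by linarith)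
    have h7 : SLAB_P (τ.avg u) κ (t₀ - 4) ≤ SLAB_P (τ.avg u) κ (t - |s|) := hPm (by linarith)
    have h8 : 0 ≤ 4 * (CS * Real.exp (3 * k / 2)) * κ := by positivity
    have h9 : |s| * (SLAB_P (τ.avg u) κ (t + |s|) - SLAB_P (τ.avg u) κ (t - |s|)) ≤
        2 * (4 * (CS * Real.exp (3 * k / 2)) * κ) :=
      mul_le_mul h2 (by linarith) (sub_nonneg.2 (hPm (by linarith [abs_nonneg s]))) (by norm_num)
    have h10 : s ^ 2 ≤ 4 := by
      rw [← sq_abs]
      nlinarith [abs_nonneg s]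
    have h11 : 8 * κ * s ^ 2 ≤ 32 * κ := by nlinarith
    rw [hC₂]
    linarith
  -- the polydisc means
  obtain ⟨hW1, -, -, hW4⟩ := hA.1 r u hr hu
  have hWc : Continuous (pav r u) := hW1.continuous
  have hWper : τ.Per (pav r u) := hW4 hper
  have hFc : Continuous (τ.avg (pav r u)) := hM.1 _ hWc
  have hgc : Continuous fun z => pav r u z - τ.avg (pav r u) (ht z) :=
    hWc.sub (hFc.comp SLAB_ht_cont)
  obtain ⟨hV2, hVi⟩ := hVo κ u hκ0 hper hu hpsh
  obtain ⟨V, hVd⟩ : ∃ V, V = τ.avg (fun z => (pav r u z - τ.avg (pav r u) (ht z)) ^ 2) := ⟨_, rfl⟩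
  rw [← hVd, ← hmd] at hVi
  rw [← hVd] at hV2
  have hV0 : ∀ t, 0 ≤ V t := by
    intro t
    rw [hVd, ← SLAB_avg_const τ 0 t]
    exact SLAB_avg_mono τ t continuous_const (hgc.pow 2) fun z _ => sq_nonneg _
  have hbd := SLAB_bd (τ := τ) hr hr8 hκ (show 4 ≤ Y by linarith) hC₁ hCP hM.1 hPav huc hper hup hlo
  rw [← hAd] at hbd
  have hVb : ∀ t, |t| ≤ Y / 2 → V t ≤ (4 * A ^ 2) * (κ ^ 2 * Y ^ 4) := by
    intro t ht'
    have h1 : τ.avg (pav r u) t ≤ A * κ * Y ^ 2 := by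
      rw [← SLAB_avg_const τ (A * κ * Y ^ 2) t]
      exact SLAB_avg_mono τ t hWc continuous_const fun z hz => (hbd z (by rw [hz]; exact ht')).2
    have h2 : -(A * κ * Y ^ 2) ≤ τ.avg (pav r u) t := by
      rw [← SLAB_avg_const τ (-(A * κ * Y ^ 2)) t]
      exact SLAB_avg_mono τ t continuous_const hWc fun z hz => (hbd z (by rw [hz]; exact ht')).1
    rw [hVd, ← SLAB_avg_const τ ((4 * A ^ 2) * (κ ^ 2 * Y ^ 4)) t]
    refine SLAB_avg_mono τ t (hgc.pow 2) continuous_const fun z hz => ?_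
    obtain ⟨h3, h4⟩ := hbd z (by rw [hz]; exact ht')
    rw [hz]
    have h5 : (4 * A ^ 2) * (κ ^ 2 * Y ^ 4) = (2 * (A * κ * Y ^ 2)) ^ 2 := by ring
    rw [h5]
    exact sq_le_sq' (by linarith) (by linarith)
  have hJ : Continuous fun t => ∫ s in (t - 1)..(t + 1), m s := by
    have h1 : (fun t => ∫ s in (t - 1)..(t + 1), m s) = fun t =>
        SLAB_P (τ.avg u) κ (t + 1) - SLAB_P (τ.avg u) κ (t - 1) := funext fun t => hint _ _
    have h2 : Continuous (SLAB_P (τ.avg u) κ) :=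
      continuous_iff_continuousAt.2 fun t => (SLAB_hd2 hMc t).continuousAt
    rw [h1]
    exact (h2.comp (continuous_id.add continuous_const)).sub
      (h2.comp (continuous_id.sub continuous_const))
  have hVt : ∀ t, |t - t₀| ≤ 4 → V t ≤ Cv * κ ^ 2 := by
    intro t ht'
    rw [hCv]
    exact SLAB_V hO hk hCV (by positivity) hY hV2 hV0 hJ hVi
      (hVb _ (by rw [abs_of_nonneg (by linarith)])) (hVb _ (by
        rw [abs_neg, abs_of_nonneg (by linarith)])) hs2 habs ht'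
  -- the oscillating part
  have hg : ∀ z, |ht z - t₀| ≤ 3 →
      |pav r (fun z => pav r u z - τ.avg (pav r u) (ht z)) z| ≤ (1 + 2 * CP * Cv) * κ := by
    intro z hz
    obtain ⟨hz1, hz2⟩ := abs_le.1 hz
    have h1 : pav r (fun z => pav r u z - τ.avg (pav r u) (ht z)) z ^ 2 ≤
        pav r (fun z => (pav r u z - τ.avg (pav r u) (ht z)) ^ 2) z :=
      SLAB_Av_sq (h := fun a => pav r u (z + a) - τ.avg (pav r u) (ht (z + a))) hr
        (hgc.comp (continuous_const.add continuous_id))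
    have h2 := hPav (fun z => (pav r u z - τ.avg (pav r u) (ht z)) ^ 2) (hgc.pow 2) (fun z i => by
      show (pav r u (z + τ.γ i) - τ.avg (pav r u) (ht (z + τ.γ i))) ^ 2 = _
      rw [hWper z i, SLAB_ht_per τ z i]) (fun z => sq_nonneg _) z
    rw [← hVd] at h2
    have h3 : ∫ t in (ht z - 1)..(ht z + 1), V t ≤ ∫ _t in (ht z - 1)..(ht z + 1), Cv * κ ^ 2 :=
      intervalIntegral.integral_mono_on (by linarith) (hV2.continuous.intervalIntegrable _ _)
        intervalIntegrable_const fun t ht' => hVt t (by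
          rw [abs_le]
          exact ⟨by linarith [ht'.1], by linarith [ht'.2]⟩)
    rw [intervalIntegral.integral_const, smul_eq_mul] at h3
    have h4 : CP * ∫ t in (ht z - 1)..(ht z + 1), V t ≤
        CP * ((ht z + 1 - (ht z - 1)) * (Cv * κ ^ 2)) := mul_le_mul_of_nonneg_left h3 hCP
    have h5 : CP * ((ht z + 1 - (ht z - 1)) * (Cv * κ ^ 2)) = 2 * CP * Cv * κ ^ 2 := by ring
    refine abs_le_of_sq_le_sq ?_ (by positivity)
    have h6 : 0 ≤ 2 * CP * Cv := by positivity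
    have h7 : 2 * CP * Cv * κ ^ 2 ≤ ((1 + 2 * CP * Cv) * κ) ^ 2 := by
      rw [mul_pow]
      exact mul_le_mul_of_nonneg_right (by nlinarith) (sq_nonneg _)
    linarith
  -- the means
  have hF : ∀ t, |t - t₀| ≤ 3 → |τ.avg (pav r u) t - τ.avg u t| ≤ C₂ * κ / 2 := by
    intro t ht'
    rw [hA.2.2.2 r u hr huc hper t]
    refine SLAB_pht hr hMcont _ ?_ fun s hs => hsd t s (by linarith) (by linarith)
    show ((t : ℂ) * Complex.I).im = t
    simp
  have hWW : ∀ z, |ht z - t₀| ≤ 2 → |pav r (pav r u) z - τ.avg u (ht z)| ≤ Q * κ := by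
    intro z hz
    obtain ⟨hz1, hz2⟩ := abs_le.1 hz
    have h1 : pav r (pav r u) z = pav r (fun z => pav r u z - τ.avg (pav r u) (ht z)) z +
        pav r (fun z => τ.avg (pav r u) (ht z)) z := by
      have h2 := SLAB_Av_add r (h := fun a => pav r u (z + a) - τ.avg (pav r u) (ht (z + a)))
        (h' := fun a => τ.avg (pav r u) (ht (z + a)))
        (hgc.comp (continuous_const.add continuous_id))
        ((hFc.comp SLAB_ht_cont).comp (continuous_const.add continuous_id))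
      simp only [sub_add_cancel] at h2
      exact h2
    have h2 := hg z (by linarith)
    have h3 : |pav r (fun z => τ.avg u (ht z)) z - τ.avg u (ht z)| ≤ C₂ * κ / 2 :=
      SLAB_pht hr hMcont z rfl fun s hs => hsd _ s (by linarith) (by linarith)
    have hht : ∀ a : ℂ × ℂ, ‖a.1‖ ≤ r → |ht (z + a) - t₀| ≤ 3 := by
      intro a ha
      have e1 : ht (z + a) = ht z + a.1.im := Complex.add_im _ _
      obtain ⟨e2, e3⟩ := abs_le.1 ((Complex.abs_im_le_norm a.1).trans ha)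
      rw [e1, abs_le]
      constructor <;> linarith
    have hc1 : Continuous fun a : ℂ × ℂ => τ.avg (pav r u) (ht (z + a)) :=
      (hFc.comp SLAB_ht_cont).comp (continuous_const.add continuous_id)
    have hc2 : Continuous fun a : ℂ × ℂ => τ.avg u (ht (z + a)) :=
      (hMcont.comp SLAB_ht_cont).comp (continuous_const.add continuous_id)
    have h4 : pav r (fun z => τ.avg (pav r u) (ht z)) z ≤
        pav r (fun z => τ.avg u (ht z)) z + C₂ * κ / 2 := by
      have e1 := SLAB_Av_mono (r := r) (h' := fun a => τ.avg u (ht (z + a)) + C₂ * κ / 2) hc1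
        (hc2.add continuous_const) fun a ha _ => by
          have := (abs_le.1 (hF _ (hht a ha))).2
          linarith
      rw [SLAB_Av_add r hc2 continuous_const, SLAB_Av_const hr] at e1
      exact e1
    have h5 : pav r (fun z => τ.avg u (ht z)) z ≤
        pav r (fun z => τ.avg (pav r u) (ht z)) z + C₂ * κ / 2 := by
      have e1 := SLAB_Av_mono (r := r) (h' := fun a => τ.avg (pav r u) (ht (z + a)) + C₂ * κ / 2)
        hc2 (hc1.add continuous_const) fun a ha _ => by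
          have := (abs_le.1 (hF _ (hht a ha))).1
          linarith
      rw [SLAB_Av_add r hc1 continuous_const, SLAB_Av_const hr] at e1
      exact e1
    obtain ⟨h6, h7⟩ := abs_le.1 h2
    obtain ⟨h8, h9⟩ := abs_le.1 h3
    rw [h1, hQ, abs_le]
    constructor <;> linarith
  have hpsh2 : Psh 2 (plus κ u) := ⟨hpsh.1.of_le SLAB_two, hpsh.2⟩
  have hsub : ∀ z, u z ≤ pav r u z + κ * r ^ 2 :=
    SLAB_sub hS hA.2.1 hN2 huc hr hpsh2
  refine ⟨fun z hz => ?_, fun z hz => ?_, fun t s h1 h2 => ?_⟩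
  · have h1 := hsub z
    have h2 : pav r u z ≤ pav r (pav r u) z + κ * r ^ 2 := by
      have e0 : Continuous fun a : ℂ × ℂ => pav r u (z + a) :=
        hWc.comp (continuous_const.add continuous_id)
      have e1 := SLAB_Av_mono (r := r) (h := fun a => u (z + a))
        (h' := fun a => pav r u (z + a) + κ * r ^ 2)
        (huc.comp (continuous_const.add continuous_id)) (e0.add continuous_const)
        fun a _ _ => hsub _
      rw [SLAB_Av_add r e0 continuous_const, SLAB_Av_const hr] at e1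
      exact e1
    have h3 := (abs_le.1 (hWW z hz)).2
    have h4 : r ^ 2 ≤ 1 / 4 := by nlinarith
    have h5 : κ * r ^ 2 ≤ κ * (1 / 4) := mul_le_mul_of_nonneg_left h4 hκ0
    have h6 : 0 ≤ Q * κ := by positivity
    have h7 : 0 ≤ C₂ * κ := by positivity
    nlinarith
  · have h3 := (abs_le.1 (hWW z hz)).1
    have hcW1 : Continuous fun b : ℂ × ℂ => pav r u (z + b) :=
      hWc.comp (continuous_const.add continuous_id)
    have hcW2 : Continuous fun b : ℂ × ℂ => pav r u (z - b) :=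
      hWc.comp (continuous_const.sub continuous_id)
    have h4 : SLAB_Av r (fun b => pav r u (z + b) + pav r u (z - b)) = 2 * pav r (pav r u) z := by
      rw [SLAB_Av_add r hcW1 hcW2]
      have e1 : SLAB_Av r (fun b => pav r u (z - b)) = SLAB_Av r fun b => pav r u (z + b) := by
        rw [← SLAB_Av_neg r fun b => pav r u (z + b)]
        simp only [← sub_eq_add_neg]
      rw [e1]
      show _ = 2 * SLAB_Av r (fun b => pav r u (z + b))
      ring
    obtain ⟨b, hb1, hb2, hb3⟩ := SLAB_Av_exists hr (hcW1.add hcW2)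
      (show 2 * τ.avg u (ht z) - (2 * Q + C₂ + 1) * κ ≤
        SLAB_Av r (fun b => pav r u (z + b) + pav r u (z - b)) by
        rw [h4]
        have h6 : 0 ≤ Q * κ := by positivity
        have h7 : 0 ≤ C₂ * κ := by positivity
        nlinarith)
    have hcu1 : Continuous fun a : ℂ × ℂ => u (z + b + a) :=
      huc.comp (continuous_const.add continuous_id)
    have hcu2 : Continuous fun a : ℂ × ℂ => u (z - b - a) :=
      huc.comp (continuous_const.sub continuous_id)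
    have h5 : SLAB_Av r (fun a => u (z + b + a) + u (z - b - a)) =
        pav r u (z + b) + pav r u (z - b) := by
      rw [SLAB_Av_add r hcu1 hcu2]
      have e1 : SLAB_Av r (fun a => u (z - b - a)) = pav r u (z - b) := by
        show _ = SLAB_Av r (fun a => u (z - b + a))
        rw [← SLAB_Av_neg r fun a => u (z - b + a)]
        simp only [← sub_eq_add_neg]
      rw [e1]
      rfl
    obtain ⟨a, ha1, ha2, ha3⟩ := SLAB_Av_exists hr (hcu1.add hcu2) (hb3.trans_eq h5.symm)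
    refine ⟨b + a, ?_, ?_, ?_⟩
    · exact (norm_add_le _ _).trans (by linarith)
    · exact (norm_add_le _ _).trans (by linarith)
    · rw [← add_assoc, ← sub_sub]
      exact ha3
  · have h3 := hsd t s (by linarith) h2
    have h6 : 0 ≤ Q * κ := by positivity
    nlinarith

end Pool.Agent.KT
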