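import Pool.Agent.KT.St

/-!
# KT: sub mean value property for polydiscs

`φ (s, θ) = f (z + s b)`, `b = e^{iθ} v`; `A = ∂_s φ`, `E = D f (i b)`: `∂_s A = B`, `∂_θ E = s C - A`,
`B + C = lev f b ≥ 0`, so `s ∫ A dθ = ∫∫ (A + σ B) = ∫∫ σ (B + C) - ∫∫ ∂_θ E ≥ 0`.
-/

set_option autoImplicit false

open scoped BigOperators ComplexConjugate Topology
open MeasureTheory

namespace Pool.Agent.KT

/-- the rotated vector -/
private noncomputable def SUB_b (v : ℂ × ℂ) (θ : ℝ) : ℂ × ℂ := Complex.exp (θ * Complex.I) • v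

private theorem SUB_db (v : ℂ × ℂ) (θ : ℝ) :
    HasDerivAt (SUB_b v) (Complex.I • SUB_b v θ) θ := by
  have h1 : HasDerivAt (fun θ : ℝ => Complex.exp (θ * Complex.I))
      (Complex.exp (θ * Complex.I) * Complex.I) θ := by
    have h2 : HasDerivAt (fun θ : ℝ => (θ : ℂ) * Complex.I) Complex.I θ := by
      have h3 := (Complex.ofRealCLM.hasDerivAt (x := θ)).mul_const Complex.I
      simpa using h3
    exact h2.cexp
  have h4 := h1.smul_const v
  refine h4.congr_deriv ?_
  rw [SUB_b, smul_smul, mul_comm]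

private theorem SUB_cb (v : ℂ × ℂ) : Continuous (SUB_b v) :=
  continuous_iff_continuousAt.2 fun θ => (SUB_db v θ).continuousAt

private theorem SUB_swap (F : ℝ → ℝ → ℝ) (hF : Continuous F.uncurry) (a b c d : ℝ) :
    ∫ x in a..b, ∫ y in c..d, F x y = ∫ y in c..d, ∫ x in a..b, F x y := by
  refine intervalIntegral_intervalIntegral_swap ?_
  have h1 : IntegrableOn F.uncurry (Set.uIcc a b ×ˢ Set.uIcc c d) :=
    hF.continuousOn.integrableOn_compact (isCompact_uIcc.prod isCompact_uIcc)
  exact h1.mono_set (Set.prod_mono Set.uIoc_subset_uIcc Set.uIoc_subset_uIcc)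

private theorem SUB_circle (f : ℂ × ℂ → ℝ) (hf : Psh 2 f) (z v : ℂ × ℂ) :
    2 * Real.pi * f z ≤ ∫ θ in (0 : ℝ)..2 * Real.pi, f (z + SUB_b v θ) := by
  have hf2 : ContDiff ℝ 2 f := hf.1
  have hfd : Differentiable ℝ f := hf2.differentiable (by norm_num)
  have hf1 : ContDiff ℝ 1 (fderiv ℝ f) := hf2.fderiv_right (by norm_num)
  have hfd1 : Differentiable ℝ (fderiv ℝ f) := hf1.differentiable (by norm_num)
  have c0 : Continuous f := hf2.continuous
  have c1 : Continuous (fderiv ℝ f) := hf1.continuous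
  have c2 : Continuous (fderiv ℝ (fderiv ℝ f)) := hf1.continuous_fderiv (by norm_num)
  set b := SUB_b v with hb
  have cb : Continuous b := SUB_cb v
  -- second derivatives
  have hd2 : ∀ x y, d2 f x x y = fderiv ℝ (fderiv ℝ f) y x x := by
    intro x y
    have h1 : HasFDerivAt (fun z => fderiv ℝ f z x)
        ((ContinuousLinearMap.apply ℝ ℝ x).comp (fderiv ℝ (fderiv ℝ f) y)) y :=
      (ContinuousLinearMap.apply ℝ ℝ x).hasFDerivAt.comp y (hfd1 y).hasFDerivAt
    show fderiv ℝ (fun z => fderiv ℝ f z x) y x = _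
    rw [h1.fderiv]
    rfl
  -- the functions
  set g : ℝ → ℝ → ℂ × ℂ := fun s θ => z + s • b θ with hg
  set A : ℝ → ℝ → ℝ := fun s θ => fderiv ℝ f (g s θ) (b θ) with hA
  set B : ℝ → ℝ → ℝ := fun s θ => fderiv ℝ (fderiv ℝ f) (g s θ) (b θ) (b θ) with hB
  set C : ℝ → ℝ → ℝ := fun s θ => fderiv ℝ (fderiv ℝ f) (g s θ) (Complex.I • b θ) (Complex.I • b θ)
    with hC
  set E : ℝ → ℝ → ℝ := fun s θ => fderiv ℝ f (g s θ) (Complex.I • b θ) with hE
  have cg : Continuous g.uncurry := by
    show Continuous fun p : ℝ × ℝ => z + p.1 • b p.2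
    fun_prop
  have cb2 : Continuous fun p : ℝ × ℝ => b p.2 := cb.comp continuous_snd
  have cib2 : Continuous fun p : ℝ × ℝ => Complex.I • b p.2 :=
    (continuous_const_smul Complex.I).comp cb2
  have cA : Continuous A.uncurry := (c1.comp cg).clm_apply cb2
  have cE : Continuous E.uncurry := (c1.comp cg).clm_apply cib2
  have cB : Continuous B.uncurry := ((c2.comp cg).clm_apply cb2).clm_apply cb2
  have cC : Continuous C.uncurry := ((c2.comp cg).clm_apply cib2).clm_apply cib2
  have hL : ∀ s θ, 0 ≤ B s θ + C s θ := by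
    intro s θ
    have h1 := hf.2 (g s θ) (b θ)
    have h2 : lev f (b θ) (g s θ) = B s θ + C s θ := by
      show d2 f (b θ) (b θ) (g s θ) + d2 f (mi (b θ)) (mi (b θ)) (g s θ) = _
      rw [hd2, hd2]
      rfl
    rw [← h2]
    exact h1
  -- derivatives
  have dgs : ∀ s θ, HasDerivAt (fun s => g s θ) (b θ) s := by
    intro s θ
    have h1 := ((hasDerivAt_id s).smul_const (b θ)).const_add z
    exact h1.congr_deriv (one_smul ℝ _)
  have dgt : ∀ s θ, HasDerivAt (fun θ => g s θ) (s • (Complex.I • b θ)) θ := by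
    intro s θ
    exact ((SUB_db v θ).const_smul s).const_add z
  have dφ : ∀ s θ, HasDerivAt (fun s => f (g s θ)) (A s θ) s := fun s θ =>
    (hfd (g s θ)).hasFDerivAt.comp_hasDerivAt s (dgs s θ)
  have dA : ∀ s θ, HasDerivAt (fun s => A s θ) (B s θ) s := by
    intro s θ
    have h1 : HasDerivAt (fun s => fderiv ℝ f (g s θ)) (fderiv ℝ (fderiv ℝ f) (g s θ) (b θ)) s :=
      (hfd1 (g s θ)).hasFDerivAt.comp_hasDerivAt s (dgs s θ)
    have h2 := h1.clm_apply (hasDerivAt_const s (b θ))
    refine h2.congr_deriv ?_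
    simp [hB]
  have dsA : ∀ s θ, HasDerivAt (fun s => s * A s θ) (A s θ + s * B s θ) s := by
    intro s θ
    have h1 := (hasDerivAt_id s).mul (dA s θ)
    exact h1.congr_deriv (by simp)
  have dE : ∀ s θ, HasDerivAt (fun θ => E s θ) (s * C s θ - A s θ) θ := by
    intro s θ
    have h1 : HasDerivAt (fun θ => fderiv ℝ f (g s θ))
        (fderiv ℝ (fderiv ℝ f) (g s θ) (s • (Complex.I • b θ))) θ :=
      (hfd1 (g s θ)).hasFDerivAt.comp_hasDerivAt θ (dgt s θ)
    have h2 : HasDerivAt (fun θ => Complex.I • b θ) (-b θ) θ := by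
      have h3 := (SUB_db v θ).const_smul Complex.I
      refine h3.congr_deriv ?_
      rw [smul_smul, Complex.I_mul_I, neg_one_smul]
    have h4 := h1.clm_apply h2
    refine h4.congr_deriv ?_
    simp [hC, hA, sub_eq_add_neg]
  -- continuity in one variable
  have cA1 : ∀ θ, Continuous fun s => A s θ := fun θ => cA.comp (Continuous.prodMk_left θ)
  have cB1 : ∀ θ, Continuous fun s => B s θ := fun θ => cB.comp (Continuous.prodMk_left θ)
  have cA2 : ∀ s, Continuous fun θ => A s θ := fun s => cA.comp (Continuous.prodMk_right s)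
  have cB2 : ∀ s, Continuous fun θ => B s θ := fun s => cB.comp (Continuous.prodMk_right s)
  have cC2 : ∀ s, Continuous fun θ => C s θ := fun s => cC.comp (Continuous.prodMk_right s)
  have hpi : (0 : ℝ) ≤ 2 * Real.pi := by positivity
  -- periodicity
  have hper : ∀ s, E s (2 * Real.pi) = E s 0 := by
    intro s
    have h1 : b (2 * Real.pi) = b 0 := by
      show Complex.exp (((2 * Real.pi : ℝ) : ℂ) * Complex.I) • v = Complex.exp (((0 : ℝ) : ℂ) * Complex.I) • v
      have h2 : ((2 * Real.pi : ℝ) : ℂ) * Complex.I = 2 * Real.pi * Complex.I := by push_cast; ring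
      rw [h2, Complex.exp_two_pi_mul_I]
      simp
    show fderiv ℝ f (z + s • b (2 * Real.pi)) (Complex.I • b (2 * Real.pi)) =
      fderiv ℝ f (z + s • b 0) (Complex.I • b 0)
    rw [h1]
  -- the mean of A
  have hAmean : ∀ s, 0 < s → 0 ≤ ∫ θ in (0 : ℝ)..2 * Real.pi, A s θ := by
    intro s hs
    have h1 : ∀ θ, s * A s θ = ∫ σ in (0 : ℝ)..s, (A σ θ + σ * B σ θ) := by
      intro θ
      have h2 := intervalIntegral.integral_eq_sub_of_hasDerivAt (a := 0) (b := s)
        (fun σ _ => dsA σ θ) (((cA1 θ).add (continuous_id.mul (cB1 θ))).intervalIntegrable _ _)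
      rw [zero_mul, sub_zero] at h2
      exact h2.symm
    have h3 : s * ∫ θ in (0 : ℝ)..2 * Real.pi, A s θ =
        ∫ σ in (0 : ℝ)..s, ∫ θ in (0 : ℝ)..2 * Real.pi, (A σ θ + σ * B σ θ) := by
      rw [← intervalIntegral.integral_const_mul, SUB_swap (fun σ θ => A σ θ + σ * B σ θ)]
      · exact intervalIntegral.integral_congr fun θ _ => h1 θ
      · exact cA.add (continuous_fst.mul cB)
    have h4 : ∀ σ ∈ Set.Icc 0 s, 0 ≤ ∫ θ in (0 : ℝ)..2 * Real.pi, (A σ θ + σ * B σ θ) := by
      intro σ hσ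
      have h5 : ∫ θ in (0 : ℝ)..2 * Real.pi, (σ * C σ θ - A σ θ) = 0 := by
        rw [intervalIntegral.integral_eq_sub_of_hasDerivAt (fun θ _ => dE σ θ)
          ((((cC2 σ).const_mul σ).sub (cA2 σ)).intervalIntegrable _ _), hper, sub_self]
      have h6 : ∫ θ in (0 : ℝ)..2 * Real.pi, (A σ θ + σ * B σ θ) =
          ∫ θ in (0 : ℝ)..2 * Real.pi, σ * (B σ θ + C σ θ) := by
        have h7 : ∫ θ in (0 : ℝ)..2 * Real.pi, σ * (B σ θ + C σ θ) =
            (∫ θ in (0 : ℝ)..2 * Real.pi, (A σ θ + σ * B σ θ)) +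
              ∫ θ in (0 : ℝ)..2 * Real.pi, (σ * C σ θ - A σ θ) := by
          have i1 : Continuous fun θ => A σ θ + σ * B σ θ := (cA2 σ).add ((cB2 σ).const_mul σ)
          have i2 : Continuous fun θ => σ * C σ θ - A σ θ := ((cC2 σ).const_mul σ).sub (cA2 σ)
          rw [← intervalIntegral.integral_add (i1.intervalIntegrable _ _)
            (i2.intervalIntegrable _ _)]
          refine intervalIntegral.integral_congr fun θ _ => ?_
          show σ * (B σ θ + C σ θ) = A σ θ + σ * B σ θ + (σ * C σ θ - A σ θ)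
          ring
        rw [h7, h5, add_zero]
      rw [h6]
      exact intervalIntegral.integral_nonneg hpi fun θ _ => mul_nonneg hσ.1 (hL σ θ)
    have h8 : 0 ≤ s * ∫ θ in (0 : ℝ)..2 * Real.pi, A s θ := by
      rw [h3]
      exact intervalIntegral.integral_nonneg hs.le h4
    exact nonneg_of_mul_nonneg_right h8 hs
  -- integration in s
  have h1 : ∀ θ, f (z + b θ) - f z = ∫ s in (0 : ℝ)..1, A s θ := by
    intro θ
    have h2 := intervalIntegral.integral_eq_sub_of_hasDerivAt (a := 0) (b := 1)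
      (fun s _ => dφ s θ) ((cA1 θ).intervalIntegrable _ _)
    rw [h2]
    simp [hg]
  have h3 : ∫ θ in (0 : ℝ)..2 * Real.pi, (f (z + b θ) - f z) =
      ∫ s in (0 : ℝ)..1, ∫ θ in (0 : ℝ)..2 * Real.pi, A s θ := by
    rw [SUB_swap A cA]
    exact intervalIntegral.integral_congr fun θ _ => h1 θ
  have h4 : 0 ≤ ∫ s in (0 : ℝ)..1, ∫ θ in (0 : ℝ)..2 * Real.pi, A s θ := by
    rw [intervalIntegral.integral_of_le zero_le_one]
    exact setIntegral_nonneg measurableSet_Ioc fun s hs => hAmean s hs.1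
  have h5 : Continuous fun θ => f (z + b θ) := c0.comp (continuous_const.add cb)
  rw [← h3, intervalIntegral.integral_sub (h5.intervalIntegrable _ _)
    (continuous_const.intervalIntegrable _ _), intervalIntegral.integral_const, sub_zero,
    smul_eq_mul] at h4
  linarith

private theorem SUB_rot (g : ℂ → ℝ) (r θ : ℝ) :
    ∫ a in Metric.closedBall (0 : ℂ) r, g (Complex.exp (θ * Complex.I) * a) =
      ∫ a in Metric.closedBall (0 : ℂ) r, g a := by
  set u : Circle := Circle.exp θ with hudef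
  have h1 : MeasurePreserving (rotation u) (volume : Measure ℂ) volume :=
    (rotation u).measurePreserving
  have h2 : MeasurableEmbedding (rotation u) :=
    (rotation u).toHomeomorph.measurableEmbedding
  have h3 := h1.setIntegral_preimage_emb h2 g (Metric.closedBall (0 : ℂ) r)
  have h4 : (rotation u) ⁻¹' Metric.closedBall (0 : ℂ) r = Metric.closedBall (0 : ℂ) r := by
    ext a
    rw [Set.mem_preimage, Metric.mem_closedBall, Metric.mem_closedBall, dist_zero_right,
      dist_zero_right, LinearIsometryEquiv.norm_map]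
  rw [h4] at h3
  rw [← h3]
  refine setIntegral_congr_fun measurableSet_closedBall fun a _ => ?_
  show g (Complex.exp (θ * Complex.I) * a) = g (rotation u a)
  rw [rotation_apply, hudef, Circle.coe_exp]

private theorem SUB_vol (r : ℝ) (hr : 0 < r) :
    (volume : Measure ℂ).real (Metric.closedBall (0 : ℂ) r) = Real.pi * r ^ 2 := by
  rw [Measure.real, Complex.volume_closedBall]
  rw [ENNReal.toReal_mul, ENNReal.toReal_pow, ENNReal.toReal_ofReal hr.le]
  simp [mul_comm]

private theorem SUB_disc (f : ℂ × ℂ → ℝ) (hf : Psh 2 f) (r : ℝ) (hr : 0 < r) (c e : ℂ × ℂ) :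
    Real.pi * r ^ 2 * f c ≤ ∫ a in Metric.closedBall (0 : ℂ) r, f (c + a • e) := by
  have c0 : Continuous f := hf.1.continuous
  have hpi : (0 : ℝ) < 2 * Real.pi := by positivity
  have hF : Continuous fun p : ℝ × ℂ => f (c + (Complex.exp (p.1 * Complex.I) * p.2) • e) := by
    fun_prop
  -- the rotated integrals
  have h1 : ∫ θ in (0 : ℝ)..2 * Real.pi, ∫ a in Metric.closedBall (0 : ℂ) r,
      f (c + (Complex.exp (θ * Complex.I) * a) • e) =
      2 * Real.pi * ∫ a in Metric.closedBall (0 : ℂ) r, f (c + a • e) := by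
    have h2 : ∀ θ : ℝ, ∫ a in Metric.closedBall (0 : ℂ) r,
        f (c + (Complex.exp (θ * Complex.I) * a) • e) =
        ∫ a in Metric.closedBall (0 : ℂ) r, f (c + a • e) := fun θ =>
      SUB_rot (fun a => f (c + a • e)) r θ
    simp only [h2]
    rw [intervalIntegral.integral_const, sub_zero, smul_eq_mul]
  have h3 : ∫ θ in (0 : ℝ)..2 * Real.pi, ∫ a in Metric.closedBall (0 : ℂ) r,
      f (c + (Complex.exp (θ * Complex.I) * a) • e) =
      ∫ a in Metric.closedBall (0 : ℂ) r, ∫ θ in (0 : ℝ)..2 * Real.pi,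
        f (c + (Complex.exp (θ * Complex.I) * a) • e) := by
    refine intervalIntegral_integral_swap ?_
    rw [Measure.prod_restrict]
    have h4 : IntegrableOn (fun p : ℝ × ℂ => f (c + (Complex.exp (p.1 * Complex.I) * p.2) • e))
        (Set.uIcc 0 (2 * Real.pi) ×ˢ Metric.closedBall (0 : ℂ) r) :=
      hF.continuousOn.integrableOn_compact (isCompact_uIcc.prod (isCompact_closedBall _ _))
    exact h4.mono_set (Set.prod_mono Set.uIoc_subset_uIcc Set.Subset.rfl)
  have h5 : ∫ _a in Metric.closedBall (0 : ℂ) r, 2 * Real.pi * f c ≤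
      ∫ a in Metric.closedBall (0 : ℂ) r, ∫ θ in (0 : ℝ)..2 * Real.pi,
        f (c + (Complex.exp (θ * Complex.I) * a) • e) := by
    refine setIntegral_mono_on ?_ ?_ measurableSet_closedBall fun a _ => ?_
    · exact continuousOn_const.integrableOn_compact (isCompact_closedBall _ _)
    · have h6 : Continuous fun a : ℂ => ∫ θ in (0 : ℝ)..2 * Real.pi,
          f (c + (Complex.exp (θ * Complex.I) * a) • e) := by
        refine intervalIntegral.continuous_parametric_intervalIntegral_of_continuous' ?_ _ _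
        show Continuous fun p : ℂ × ℝ => f (c + (Complex.exp (p.2 * Complex.I) * p.1) • e)
        fun_prop
      exact h6.continuousOn.integrableOn_compact (isCompact_closedBall _ _)
    · have h7 := SUB_circle f hf c (a • e)
      refine h7.trans (le_of_eq ?_)
      refine intervalIntegral.integral_congr fun θ _ => ?_
      show f (c + Complex.exp (θ * Complex.I) • (a • e)) = _
      rw [smul_smul]
  rw [setIntegral_const, SUB_vol r hr, smul_eq_mul, ← h3, h1] at h5
  nlinarith

theorem thm_SUB : St_SUB := by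
  intro f hf r hr z
  have c0 : Continuous f := hf.1.continuous
  have hpr : 0 < Real.pi * r ^ 2 := by positivity
  set D := Metric.closedBall (0 : ℂ) r with hD
  have hDc : IsCompact D := isCompact_closedBall _ _
  have h1 : ∫ a in D ×ˢ D, f (z + a) = ∫ x in D, ∫ y in D, f (z + (x, y)) := by
    rw [Measure.volume_eq_prod]
    refine setIntegral_prod (fun a => f (z + a)) ?_
    exact (c0.comp (continuous_const.add continuous_id)).continuousOn.integrableOn_compact
      (hDc.prod hDc)
  have h2 : ∀ x, Real.pi * r ^ 2 * f (z + x • ((1 : ℂ), (0 : ℂ))) ≤ ∫ y in D, f (z + (x, y)) := by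
    intro x
    have h3 := SUB_disc f hf r hr (z + x • ((1 : ℂ), (0 : ℂ))) ((0 : ℂ), (1 : ℂ))
    refine h3.trans (le_of_eq ?_)
    refine setIntegral_congr_fun measurableSet_closedBall fun y _ => ?_
    show f (z + x • ((1 : ℂ), (0 : ℂ)) + y • ((0 : ℂ), (1 : ℂ))) = f (z + (x, y))
    congr 1
    rw [add_assoc]
    congr 1
    simp
  have h4 : ∫ x in D, Real.pi * r ^ 2 * f (z + x • ((1 : ℂ), (0 : ℂ))) ≤
      ∫ x in D, ∫ y in D, f (z + (x, y)) := by
    refine setIntegral_mono_on ?_ ?_ measurableSet_closedBall fun x _ => h2 x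
    · have h5 : Continuous fun x : ℂ => Real.pi * r ^ 2 * f (z + x • ((1 : ℂ), (0 : ℂ))) := by
        fun_prop
      exact h5.continuousOn.integrableOn_compact hDc
    · have h6 : IntegrableOn (fun a : ℂ × ℂ => f (z + a)) (D ×ˢ D) (volume.prod volume) :=
        (c0.comp (continuous_const.add continuous_id)).continuousOn.integrableOn_compact
          (hDc.prod hDc)
      rw [IntegrableOn, ← Measure.prod_restrict] at h6
      exact h6.integral_prod_left
  have h7 := SUB_disc f hf r hr z ((1 : ℂ), (0 : ℂ))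
  rw [integral_const_mul] at h4
  have h8 := mul_le_mul_of_nonneg_left h7 hpr.le
  have h9 : (Real.pi * r ^ 2) ^ 2 * f z ≤ ∫ a in D ×ˢ D, f (z + a) := by
    rw [h1]
    calc (Real.pi * r ^ 2) ^ 2 * f z = Real.pi * r ^ 2 * (Real.pi * r ^ 2 * f z) := by ring
      _ ≤ _ := h8.trans h4
  unfold pav
  rw [one_div, ← div_eq_inv_mul, le_div_iff₀ (by positivity)]
  linarith

end Pool.Agent.KT
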