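import Pool.Agent.KT.POI
import Pool.Agent.KT.MEAN

set_option autoImplicit false

/-!
# KT / VODE: differential inequality for the variance of the polydisc means
-/

namespace Pool.Agent.KT

open MeasureTheory

/-! ### calculus -/

theorem VODE_mul {p q : ℂ × ℂ → ℝ} (hp : Differentiable ℝ p) (hq : Differentiable ℝ q)
    (v z : ℂ × ℂ) : d1 (fun z => p z * q z) v z = p z * d1 q v z + q z * d1 p v z := by
  unfold d1
  rw [fderiv_fun_mul (hp z) (hq z)]
  simp

theorem VODE_cmul {p : ℂ × ℂ → ℝ} (c : ℝ) (hp : Differentiable ℝ p) (v z : ℂ × ℂ) :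
    d1 (fun z => c * p z) v z = c * d1 p v z := by
  unfold d1
  rw [fderiv_const_mul (hp z)]
  simp

theorem VODE_add {p q : ℂ × ℂ → ℝ} (hp : Differentiable ℝ p) (hq : Differentiable ℝ q)
    (v z : ℂ × ℂ) : d1 (fun z => p z + q z) v z = d1 p v z + d1 q v z := by
  unfold d1
  rw [fderiv_fun_add (hp z) (hq z)]
  simp

theorem VODE_sub {p q : ℂ × ℂ → ℝ} (hp : Differentiable ℝ p) (hq : Differentiable ℝ q)
    (v z : ℂ × ℂ) : d1 (fun z => p z - q z) v z = d1 p v z - d1 q v z := by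
  unfold d1
  rw [fderiv_fun_sub (hp z) (hq z)]
  simp

theorem VODE_d1sq {g : ℂ × ℂ → ℝ} (hg : Differentiable ℝ g) (v : ℂ × ℂ) :
    d1 (fun z => g z ^ 2) v = fun z => 2 * (g z * d1 g v z) := by
  funext z
  have h : (fun z => g z ^ 2) = fun z => g z * g z := by
    funext z
    ring
  rw [h, VODE_mul hg hg]
  ring

theorem VODE_d1d {g : ℂ × ℂ → ℝ} (hg : ContDiff ℝ 2 g) (v : ℂ × ℂ) : Differentiable ℝ (d1 g v) :=
  (MEAN_d1_c1 hg v).differentiable one_ne_zero

theorem VODE_dif {g : ℂ × ℂ → ℝ} (hg : ContDiff ℝ 2 g) : Differentiable ℝ g :=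
  hg.differentiable two_ne_zero

theorem VODE_d2sq {g : ℂ × ℂ → ℝ} (hg : ContDiff ℝ 2 g) (v z : ℂ × ℂ) :
    d2 (fun z => g z ^ 2) v v z = 2 * (d1 g v z ^ 2 + g z * d2 g v v z) := by
  have h1 : d2 (fun z => g z ^ 2) v v z = d1 (d1 (fun z => g z ^ 2) v) v z := rfl
  have h2 : d2 g v v z = d1 (d1 g v) v z := rfl
  have hd : Differentiable ℝ fun z => g z * d1 g v z := (VODE_dif hg).mul (VODE_d1d hg v)
  rw [h1, VODE_d1sq (VODE_dif hg), VODE_cmul 2 hd, VODE_mul (VODE_dif hg) (VODE_d1d hg v), h2]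
  ring

theorem VODE_levsq {g : ℂ × ℂ → ℝ} (hg : ContDiff ℝ 2 g) (v z : ℂ × ℂ) :
    lev (fun z => g z ^ 2) v z =
      2 * d1 g v z ^ 2 + 2 * d1 g (mi v) z ^ 2 + 2 * (g z * lev g v z) := by
  unfold lev
  rw [VODE_d2sq hg, VODE_d2sq hg]
  ring

/-- the height as a linear map -/
noncomputable def VODE_H : ℂ × ℂ →L[ℝ] ℝ := Complex.imCLM.comp (ContinuousLinearMap.fst ℝ ℂ ℂ)

theorem VODE_H_apply (z : ℂ × ℂ) : VODE_H z = ht z := rfl

theorem VODE_htd {A : ℝ → ℝ} (hA : Differentiable ℝ A) (v z : ℂ × ℂ) :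
    d1 (fun z => A (ht z)) v z = deriv A (ht z) * ht v := by
  unfold d1
  have h1 : HasFDerivAt (fun z => A (ht z)) (deriv A (ht z) • VODE_H) z :=
    (hA (ht z)).hasDerivAt.comp_hasFDerivAt z (VODE_H.hasFDerivAt (x := z))
  rw [h1.fderiv]
  simp [VODE_H_apply]

theorem VODE_htc {n : WithTop ℕ∞} {A : ℝ → ℝ} (hA : ContDiff ℝ n A) :
    ContDiff ℝ n fun z : ℂ × ℂ => A (ht z) :=
  hA.comp VODE_H.contDiff

theorem VODE_ht2 {A : ℝ → ℝ} (hA : ContDiff ℝ 2 A) (v w z : ℂ × ℂ) :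
    d2 (fun z => A (ht z)) v w z = deriv (deriv A) (ht z) * (ht w * ht v) := by
  have hA1 : ContDiff ℝ 1 (deriv A) := by
    have h2 : ContDiff ℝ (1 + 1) A := by
      have h3 : (1 + 1 : WithTop ℕ∞) = 2 := by norm_num
      rw [h3]
      exact hA
    exact (contDiff_succ_iff_deriv.1 h2).2.2
  have h1 : d2 (fun z => A (ht z)) v w z = d1 (d1 (fun z => A (ht z)) v) w z := rfl
  have h2 : d1 (fun z => A (ht z)) v = fun z => ht v * deriv A (ht z) := by
    funext z
    rw [VODE_htd (hA.differentiable two_ne_zero)]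
    ring
  rw [h1, h2, VODE_cmul, VODE_htd (hA1.differentiable one_ne_zero)]
  · ring
  · exact (VODE_htc hA1).differentiable one_ne_zero

theorem VODE_d2sub {p q : ℂ × ℂ → ℝ} (hp : ContDiff ℝ 2 p) (hq : ContDiff ℝ 2 q)
    (v w z : ℂ × ℂ) : d2 (fun z => p z - q z) v w z = d2 p v w z - d2 q v w z := by
  have h1 : d2 (fun z => p z - q z) v w z = d1 (d1 (fun z => p z - q z) v) w z := rfl
  have h2 : d1 (fun z => p z - q z) v = fun z => d1 p v z - d1 q v z := by
    funext z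
    exact VODE_sub (VODE_dif hp) (VODE_dif hq) v z
  rw [h1, h2, VODE_sub (VODE_d1d hp v) (VODE_d1d hq v)]
  rfl

theorem VODE_d2add {p q : ℂ × ℂ → ℝ} (hp : ContDiff ℝ 2 p) (hq : ContDiff ℝ 2 q)
    (v w z : ℂ × ℂ) : d2 (fun z => p z + q z) v w z = d2 p v w z + d2 q v w z := by
  have h1 : d2 (fun z => p z + q z) v w z = d1 (d1 (fun z => p z + q z) v) w z := rfl
  have h2 : d1 (fun z => p z + q z) v = fun z => d1 p v z + d1 q v z := by
    funext z
    exact VODE_add (VODE_dif hp) (VODE_dif hq) v z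
  rw [h1, h2, VODE_add (VODE_d1d hp v) (VODE_d1d hq v)]
  rfl

theorem VODE_d2cmul {p : ℂ × ℂ → ℝ} (c : ℝ) (hp : ContDiff ℝ 2 p)
    (v w z : ℂ × ℂ) : d2 (fun z => c * p z) v w z = c * d2 p v w z := by
  have h1 : d2 (fun z => c * p z) v w z = d1 (d1 (fun z => c * p z) v) w z := rfl
  have h2 : d1 (fun z => c * p z) v = fun z => c * d1 p v z := by
    funext z
    exact VODE_cmul c (VODE_dif hp) v z
  rw [h1, h2, VODE_cmul c (VODE_d1d hp v)]
  rfl

theorem VODE_d2c {g : ℂ × ℂ → ℝ} (hg : ContDiff ℝ 2 g) (v w : ℂ × ℂ) : Continuous (d2 g v w) :=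
  MEAN_d1_cont (MEAN_d1_c1 hg v) w

theorem VODE_levc {g : ℂ × ℂ → ℝ} (hg : ContDiff ℝ 2 g) (v : ℂ × ℂ) : Continuous (lev g v) := by
  unfold lev
  exact (VODE_d2c hg v v).add (VODE_d2c hg (mi v) (mi v))

theorem VODE_levper (τ : Tor) {g : ℂ × ℂ → ℝ} (hg : τ.Per g) (v : ℂ × ℂ) : τ.Per (lev g v) := by
  intro z i
  unfold lev
  have h1 := MEAN_d1_per τ (MEAN_d1_per τ hg v) v z i
  have h2 := MEAN_d1_per τ (MEAN_d1_per τ hg (mi v)) (mi v) z i
  have e1 : ∀ (w z : ℂ × ℂ), d2 g w w z = d1 (d1 g w) w z := fun w z => rfl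
  rw [e1, e1, e1, e1, h1, h2]

/-! ### means -/

theorem VODE_pavadd {f g : ℂ × ℂ → ℝ} (hf : Continuous f) (hg : Continuous g) (r : ℝ)
    (z : ℂ × ℂ) : pav r (fun z => f z + g z) z = pav r f z + pav r g z := by
  have hc : IsCompact (Metric.closedBall (0 : ℂ) r ×ˢ Metric.closedBall (0 : ℂ) r) :=
    (isCompact_closedBall 0 r).prod (isCompact_closedBall 0 r)
  have ha : Continuous fun a : ℂ × ℂ => z + a := continuous_const.add continuous_id
  have h1 : IntegrableOn (fun a => f (z + a))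
      (Metric.closedBall (0 : ℂ) r ×ˢ Metric.closedBall (0 : ℂ) r) :=
    (hf.comp ha).continuousOn.integrableOn_compact hc
  have h2 : IntegrableOn (fun a => g (z + a))
      (Metric.closedBall (0 : ℂ) r ×ˢ Metric.closedBall (0 : ℂ) r) :=
    (hg.comp ha).continuousOn.integrableOn_compact hc
  have h3 : (∫ a in Metric.closedBall (0 : ℂ) r ×ˢ Metric.closedBall (0 : ℂ) r,
      (f (z + a) + g (z + a))) =
      (∫ a in Metric.closedBall (0 : ℂ) r ×ˢ Metric.closedBall (0 : ℂ) r, f (z + a)) +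
      ∫ a in Metric.closedBall (0 : ℂ) r ×ˢ Metric.closedBall (0 : ℂ) r, g (z + a) :=
    integral_add h1 h2
  unfold pav
  rw [h3]
  ring

theorem VODE_htpt (τ : Tor) (t : ℝ) (x : Fin 3 → ℝ) : ht (τ.pt t x) = t := by
  rw [MEAN_pt, ← VODE_H_apply, map_add, MEAN_L_apply, map_sum, map_smul]
  have h1 : VODE_H e2 = 1 := by simp [VODE_H, e2]
  have h2 : ∀ i, VODE_H (x i • τ.γ i) = 0 := by
    intro i
    rw [map_smul]
    simp [VODE_H, Tor.γ]
  rw [h1]
  simp [h2]

theorem VODE_avgadd (τ : Tor) {f g : ℂ × ℂ → ℝ} (hf : Continuous f) (hg : Continuous g) (t : ℝ) :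
    τ.avg (fun z => f z + g z) t = τ.avg f t + τ.avg g t :=
  integral_add (MEAN_int τ hf t) (MEAN_int τ hg t)

theorem VODE_avgsub (τ : Tor) {f g : ℂ × ℂ → ℝ} (hf : Continuous f) (hg : Continuous g) (t : ℝ) :
    τ.avg (fun z => f z - g z) t = τ.avg f t - τ.avg g t :=
  integral_sub (MEAN_int τ hf t) (MEAN_int τ hg t)

theorem VODE_avgcmul (τ : Tor) (f : ℂ × ℂ → ℝ) (c t : ℝ) :
    τ.avg (fun z => c * f z) t = c * τ.avg f t :=
  integral_const_mul _ _

theorem VODE_avgmono (τ : Tor) {f g : ℂ × ℂ → ℝ} (hf : Continuous f) (hg : Continuous g) {t : ℝ}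
    (h : ∀ z, ht z = t → f z ≤ g z) : τ.avg f t ≤ τ.avg g t :=
  setIntegral_mono_on (MEAN_int τ hf t) (MEAN_int τ hg t) measurableSet_Icc fun x _ =>
    h _ (VODE_htpt τ t x)

theorem VODE_avgconst (τ : Tor) (c t : ℝ) : τ.avg (fun _ => c) t = c := by
  unfold Tor.avg
  rw [POI_iter (fun _ => c) continuous_const]
  simp only [POI_const]

theorem VODE_avgcongr (τ : Tor) {f g : ℂ × ℂ → ℝ} {t : ℝ} (h : ∀ z, ht z = t → f z = g z) :
    τ.avg f t = τ.avg g t :=
  setIntegral_congr_fun measurableSet_Icc fun x _ => h _ (VODE_htpt τ t x)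

theorem VODE_hts : ht e1 = 0 ∧ ht e2 = 1 ∧ ht e3 = 0 ∧ ht e4 = 0 := by
  refine ⟨?_, ?_, ?_, ?_⟩ <;> simp [ht, e1, e2, e3, e4]

theorem VODE_mi : mi e1 = e2 ∧ mi e3 = e4 := by
  constructor
  · simp [mi, e1, e2]
  · simp [mi, e3, e4]

theorem VODE_htper (τ : Tor) (z : ℂ × ℂ) (i : Fin 3) : ht (z + τ.γ i) = ht z := by
  simp [ht, Tor.γ]

theorem thm_VODE (τ : Tor) (hP : St_POI τ) (hA : St_PAV τ) (hM : St_MEAN τ) (hN : St_NSQ) :
    St_VODE τ := by
  obtain ⟨kP, hkP, hPoi⟩ := hP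
  obtain ⟨hA1, hA2, hA3, -⟩ := hA
  obtain ⟨hNs, hNl, -, -⟩ := hN
  intro r hr hr4
  obtain ⟨C0, hC0, hpav3⟩ := hA3 r hr (by linarith)
  refine ⟨Real.sqrt kP, C0 ^ 2 / kP, Real.sqrt_pos.2 hkP, by positivity, ?_⟩
  intro κ u hκ hper hu hpsh
  have hsq : Real.sqrt kP ^ 2 = kP := Real.sq_sqrt hkP.le
  -- the polydisc mean
  obtain ⟨hPs, -, hPd2, hPper⟩ := hA1 r u hr hu
  have hPp : τ.Per (pav r u) := hPper hper
  have h2t : (2 : WithTop ℕ∞) ≤ ((⊤ : ℕ∞) : WithTop ℕ∞) := by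
    have h : (2 : WithTop ℕ∞) = ((2 : ℕ∞) : WithTop ℕ∞) := rfl
    rw [h]
    exact WithTop.coe_le_coe.2 le_top
  have hP2 : ContDiff ℝ 2 (pav r u) := hPs.of_le h2t
  have hu2 : ContDiff ℝ 2 u := hu.of_le h2t
  obtain ⟨hAc, -, hAd, -, hAz⟩ := hM.2 (pav r u) hPp hP2
  set P := pav r u with hPdef
  set A := τ.avg P with hAdef
  set g : ℂ × ℂ → ℝ := fun z => P z - A (ht z) with hgdef
  have hAh : ContDiff ℝ 2 fun z : ℂ × ℂ => A (ht z) := VODE_htc hAc
  have hg2 : ContDiff ℝ 2 g := hP2.sub hAh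
  have hgp : τ.Per g := by
    intro z i
    simp only [hgdef, VODE_htper]
    rw [hPp z i]
  have hgs : ContDiff ℝ 2 fun z => g z ^ 2 := hg2.pow 2
  have hgsp : τ.Per fun z => g z ^ 2 := fun z i => by
    show g (z + τ.γ i) ^ 2 = g z ^ 2
    rw [hgp z i]
  obtain ⟨hv2, -, hvd, -, hvz⟩ := hM.2 (fun z => g z ^ 2) hgsp hgs
  refine ⟨hv2, fun t => ?_⟩
  -- the density
  set W := plus κ u with hWdef
  have hW : ContDiff ℝ (⊤ : ℕ∞) W := hpsh.1
  have hW2 : ContDiff ℝ 2 W := hW.of_le h2t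
  set f : ℂ × ℂ → ℝ := fun z => lev W e1 z + lev W e3 z with hfdef
  have hfc : Continuous f := (VODE_levc hW2 e1).add (VODE_levc hW2 e3)
  have hN2 : ContDiff ℝ 2 nsq := hNs.of_le h2t
  have hlevW : ∀ v z, lev W v z = lev u v z + κ * lev nsq v z := by
    intro v z
    have e : W = fun z => u z + κ * nsq z := rfl
    have hk : ContDiff ℝ 2 fun z => κ * nsq z := contDiff_const.mul hN2
    unfold lev
    rw [e, VODE_d2add hu2 hk, VODE_d2add hu2 hk, VODE_d2cmul κ hN2, VODE_d2cmul κ hN2]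
    ring
  have hn1 : nsq e1 = 1 := by simp [nsq, e1]
  have hn3 : nsq e3 = 1 := by simp [nsq, e3]
  have hfu : ∀ z, f z = (lev u e1 z + lev u e3 z) + 8 * κ := by
    intro z
    simp only [hfdef]
    rw [hlevW, hlevW, hNl, hNl, hn1, hn3]
    ring
  have hfp : τ.Per f := by
    intro z i
    rw [hfu, hfu, VODE_levper τ hper e1 z i, VODE_levper τ hper e3 z i]
  have hf0 : ∀ z, 0 ≤ f z := fun z => add_nonneg (hpsh.2 z e1) (hpsh.2 z e3)
  have hpf := hpav3 f hfc hfp hf0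
  set m : ℝ := ∫ s in (t - 1)..(t + 1), τ.avg f s with hmdef
  -- the Laplacian of `P`
  have hpavW : ∀ z, pav r W z = P z + κ * (nsq z + r ^ 2) := by
    intro z
    have e : W = fun z => u z + κ * nsq z := rfl
    have hk : Continuous fun z => κ * nsq z := continuous_const.mul hN2.continuous
    rw [e, VODE_pavadd hu2.continuous hk, ← hPdef]
    have e2 : pav r (fun z => κ * nsq z) z = κ * pav r nsq z := by
      unfold pav
      rw [integral_const_mul]
      ring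
    rw [e2, hA2 r z hr]
  have hlevpav : ∀ v z, pav r (lev W v) z = lev P v z + κ * lev nsq v z := by
    intro v z
    obtain ⟨hWs, -, hWd2, -⟩ := hA1 r W hr hW
    have e1 : pav r (lev W v) z = pav r (d2 W v v) z + pav r (d2 W (mi v) (mi v)) z :=
      VODE_pavadd (VODE_d2c hW2 v v) (VODE_d2c hW2 (mi v) (mi v)) r z
    rw [e1, ← hWd2, ← hWd2]
    have e3 : pav r W = fun z => P z + κ * (nsq z + r ^ 2) := funext hpavW
    have hk1 : ContDiff ℝ 2 fun z => nsq z + r ^ 2 := hN2.add contDiff_const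
    have hk : ContDiff ℝ 2 fun z => κ * (nsq z + r ^ 2) := contDiff_const.mul hk1
    have e4 : ∀ w, d2 (fun z => nsq z + r ^ 2) w w z = d2 nsq w w z := by
      intro w
      rw [VODE_d2add hN2 contDiff_const]
      have : d2 (fun _ : ℂ × ℂ => r ^ 2) w w z = 0 := by
        unfold d2
        simp
      rw [this, add_zero]
    rw [e3, VODE_d2add hP2 hk, VODE_d2add hP2 hk, VODE_d2cmul κ hk1, VODE_d2cmul κ hk1, e4, e4]
    unfold lev
    ring
  have hpavf : ∀ z, pav r f z = (lev P e1 z + lev P e3 z) + 8 * κ := by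
    intro z
    have e1' : pav r f z = pav r (lev W e1) z + pav r (lev W e3) z :=
      VODE_pavadd (VODE_levc hW2 e1) (VODE_levc hW2 e3) r z
    rw [e1', hlevpav, hlevpav, hNl, hNl, hn1, hn3]
    ring
  have hpavc : Continuous (pav r f) := by
    have e : pav r f = fun z => (lev P e1 z + lev P e3 z) + 8 * κ := funext hpavf
    rw [e]
    exact ((VODE_levc hP2 e1).add (VODE_levc hP2 e3)).add continuous_const
  have hA2' : deriv (deriv A) t = τ.avg (pav r f) t - 8 * κ := by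
    have e1' : τ.avg (pav r f) t = τ.avg (fun z => (lev P e1 z + lev P e3 z) + 8 * κ) t := by
      rw [funext hpavf]
    have e2' : τ.avg (fun z => (lev P e1 z + lev P e3 z) + 8 * κ) t =
        τ.avg (fun z => lev P e1 z + lev P e3 z) t + τ.avg (fun _ => 8 * κ) t :=
      VODE_avgadd τ (f := fun z => lev P e1 z + lev P e3 z) (g := fun _ => 8 * κ)
        ((VODE_levc hP2 e1).add (VODE_levc hP2 e3)) continuous_const t
    have e3' : τ.avg (fun z => lev P e1 z + lev P e3 z) t =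
        τ.avg (lev P e1) t + τ.avg (lev P e3) t :=
      VODE_avgadd τ (VODE_levc hP2 e1) (VODE_levc hP2 e3) t
    rw [e1', e2', e3', VODE_avgconst, hAd, hAz]
    ring
  -- the Laplacian of `g`
  have hlap : ∀ z, ht z = t → lev g e1 z + lev g e3 z = pav r f z - τ.avg (pav r f) t := by
    intro z hz
    have e : ∀ v, d2 g v v z = d2 P v v z - deriv (deriv A) t * (ht v * ht v) := by
      intro v
      rw [hgdef, VODE_d2sub hP2 hAh, VODE_ht2 hAc, hz]
    obtain ⟨t1, t2, t3, t4⟩ := VODE_hts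
    have eP : lev P e1 z + lev P e3 z = pav r f z - 8 * κ := by
      rw [hpavf]
      ring
    have h1 : lev g e1 z = lev P e1 z - deriv (deriv A) t := by
      unfold lev
      rw [e, e, VODE_mi.1, t1, t2]
      ring
    have h3 : lev g e3 z = lev P e3 z := by
      unfold lev
      rw [e, e, VODE_mi.2, t3, t4]
      ring
    rw [h1, h3, hA2']
    linarith
  have hm0 : ∀ z, ht z = t → 0 ≤ pav r f z ∧ pav r f z ≤ C0 * m := by
    intro z hz
    refine ⟨?_, ?_⟩
    · unfold pav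
      refine mul_nonneg (by positivity) (integral_nonneg fun a => hf0 _)
    · have := hpf z
      rw [hz] at this
      exact this
  have hav0 : 0 ≤ τ.avg (pav r f) t := by
    have := VODE_avgmono τ (t := t) continuous_const hpavc fun z hz => (hm0 z hz).1
    rwa [VODE_avgconst] at this
  have hav1 : τ.avg (pav r f) t ≤ C0 * m := by
    have := VODE_avgmono τ (t := t) hpavc continuous_const fun z hz => (hm0 z hz).2
    rwa [VODE_avgconst] at this
  have hlap2 : ∀ z, ht z = t → (lev g e1 z + lev g e3 z) ^ 2 ≤ (C0 * m) ^ 2 := by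
    intro z hz
    rw [hlap z hz]
    have := hm0 z hz
    exact sq_le_sq' (by linarith) (by linarith)
  -- the mean of `g` is zero
  have hg0 : τ.avg g t = 0 := by
    have e : τ.avg g t = τ.avg P t - τ.avg (fun z => A (ht z)) t :=
      VODE_avgsub τ hP2.continuous hAh.continuous t
    have e' : τ.avg (fun z => A (ht z)) t = τ.avg (fun _ => A t) t :=
      VODE_avgcongr τ fun z hz => by rw [hz]
    rw [e, e', VODE_avgconst]
    exact sub_self _
  have hpoi := hPoi g hgp (hg2.of_le one_le_two) t hg0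
  -- second derivative of the variance
  have hd1c : ∀ v, Continuous (d1 g v) := fun v => MEAN_d1_cont (hg2.of_le one_le_two) v
  have hgc : Continuous g := hg2.continuous
  set S : ℂ × ℂ → ℝ := fun z => d1 g e1 z ^ 2 + d1 g e3 z ^ 2 + d1 g e4 z ^ 2 with hSdef
  have hSc : Continuous S := (((hd1c e1).pow 2).add ((hd1c e3).pow 2)).add ((hd1c e4).pow 2)
  have hv : τ.avg (fun z => 2 * S z - (kP * g z ^ 2 + (C0 * m) ^ 2 / kP)) t ≤
      deriv (deriv (τ.avg fun z => g z ^ 2)) t := by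
    have e : deriv (deriv (τ.avg fun z => g z ^ 2)) t =
        τ.avg (fun z => lev (fun z => g z ^ 2) e1 z + lev (fun z => g z ^ 2) e3 z) t := by
      have q3 : τ.avg (fun z => lev (fun z => g z ^ 2) e1 z + lev (fun z => g z ^ 2) e3 z) t =
          τ.avg (lev (fun z => g z ^ 2) e1) t + τ.avg (lev (fun z => g z ^ 2) e3) t :=
        VODE_avgadd τ (VODE_levc hgs e1) (VODE_levc hgs e3) t
      rw [q3, hvz, hvd, add_zero]
    rw [e]
    refine VODE_avgmono τ ?_ ((VODE_levc hgs e1).add (VODE_levc hgs e3)) fun z hz => ?_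
    · exact (continuous_const.mul hSc).sub ((continuous_const.mul (hgc.pow 2)).add
        continuous_const)
    · show _ ≤ lev (fun z => g z ^ 2) e1 z + lev (fun z => g z ^ 2) e3 z
      rw [VODE_levsq hg2, VODE_levsq hg2, VODE_mi.1, VODE_mi.2]
      have h1 := hlap2 z hz
      set L := lev g e1 z + lev g e3 z with hL
      have h2 : 0 ≤ kP * g z ^ 2 + 2 * (g z * L) + L ^ 2 / kP := by
        have : kP * g z ^ 2 + 2 * (g z * L) + L ^ 2 / kP = (kP * g z + L) ^ 2 / kP := by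
          field_simp
          ring
        rw [this]
        positivity
      have h3 : L ^ 2 / kP ≤ (C0 * m) ^ 2 / kP := div_le_div_of_nonneg_right h1 hkP.le
      have h4 : 0 ≤ d1 g e2 z ^ 2 := sq_nonneg _
      have h5 : 2 * (g z * lev g e1 z) + 2 * (g z * lev g e3 z) = 2 * (g z * L) := by
        rw [hL]
        ring
      simp only [hSdef]
      linarith
  have hv' : τ.avg (fun z => 2 * S z - (kP * g z ^ 2 + (C0 * m) ^ 2 / kP)) t =
      2 * τ.avg S t - (kP * τ.avg (fun z => g z ^ 2) t + (C0 * m) ^ 2 / kP) := by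
    have q1 : τ.avg (fun z => 2 * S z - (kP * g z ^ 2 + (C0 * m) ^ 2 / kP)) t =
        τ.avg (fun z => 2 * S z) t - τ.avg (fun z => kP * g z ^ 2 + (C0 * m) ^ 2 / kP) t :=
      VODE_avgsub τ (f := fun z => 2 * S z) (g := fun z => kP * g z ^ 2 + (C0 * m) ^ 2 / kP)
        (continuous_const.mul hSc)
        ((continuous_const.mul (hgc.pow 2)).add continuous_const) t
    have q2 : τ.avg (fun z => kP * g z ^ 2 + (C0 * m) ^ 2 / kP) t =
        τ.avg (fun z => kP * g z ^ 2) t + τ.avg (fun _ => (C0 * m) ^ 2 / kP) t :=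
      VODE_avgadd τ (f := fun z => kP * g z ^ 2) (g := fun _ => (C0 * m) ^ 2 / kP)
        (continuous_const.mul (hgc.pow 2)) continuous_const t
    rw [q1, q2, VODE_avgcmul τ S 2 t, VODE_avgcmul τ (fun z => g z ^ 2) kP t, VODE_avgconst]
  rw [hv'] at hv
  rw [hsq]
  have hfin : C0 ^ 2 / kP * m ^ 2 = (C0 * m) ^ 2 / kP := by ring
  show kP * τ.avg (fun z => g z ^ 2) t - C0 ^ 2 / kP * m ^ 2 ≤ _
  rw [hfin]
  linarith

end Pool.Agent.KT
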