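import Pool.Agent.KT.SCH2
import Pool.Agent.KT.BALL
import Pool.Agent.KT.BLOW
import Pool.Agent.KT.BSEC
import Pool.Agent.KT.BUP
import Pool.Agent.KT.CHI
import Pool.Agent.KT.COEF
import Pool.Agent.KT.GLUE
import Pool.Agent.KT.IBP
import Pool.Agent.KT.IBPC
import Pool.Agent.KT.ISO
import Pool.Agent.KT.ISOL
import Pool.Agent.KT.KEY
import Pool.Agent.KT.LOG
import Pool.Agent.KT.LOW
import Pool.Agent.KT.MAP
import Pool.Agent.KT.MASS
import Pool.Agent.KT.MEAN
import Pool.Agent.KT.NSQ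
import Pool.Agent.KT.ODE
import Pool.Agent.KT.PAV
import Pool.Agent.KT.POI
import Pool.Agent.KT.RAD
import Pool.Agent.KT.RADI
import Pool.Agent.KT.SEL
import Pool.Agent.KT.SLAB
import Pool.Agent.KT.SUB
import Pool.Agent.KT.VODE

/-!
# KT: the sharp Schwarz lemma, all ingredients
-/

set_option autoImplicit false

namespace Pool.Agent.KT

/-- **Lemma S**: the sharp Schwarz lemma on the toroidal group -/
theorem thm_S (τ : Tor) : St_S τ :=
  SCH_S {
    slab := thm_SLAB τ (thm_VODE τ (thm_POI τ) (thm_PAV τ) (thm_MEAN τ) thm_NSQ) thm_SEL thm_ODE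
      (thm_PAV τ) thm_SUB (thm_MEAN τ) thm_NSQ
    low := thm_LOW (τ := τ) thm_SUB (thm_PAV τ) (thm_MEAN τ) thm_NSQ
    bsec := thm_BSEC τ thm_COEF
    bup := thm_BUP
    blow := thm_BLOW
    iso := thm_ISO τ thm_ISOL
    mass := thm_MASS τ (thm_GLUE τ thm_LOG thm_NSQ)
      (thm_RAD (thm_RADI thm_IBPC thm_MAP thm_NSQ thm_LOG) thm_SUB thm_MAP thm_LOG) (thm_BALL (τ := τ))
      thm_MAP thm_LOG thm_NSQ
    key := thm_KEY τ (thm_IBP τ) thm_NSQ (thm_MEAN τ)
    chi := thm_CHI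
    log := thm_LOG
    mean := thm_MEAN τ
    nsq := thm_NSQ
    ball := thm_BALL (τ := τ) }

end Pool.Agent.KT
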