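import Pool.Agent.KT.St

/-!
# KT: elementary lemmas for the assembly of the Schwarz lemma
-/

set_option autoImplicit false

open scoped BigOperators ComplexConjugate Topology
open MeasureTheory

namespace Pool.Agent.KT

lemma BAS_nsq_nonneg (z : ℂ × ℂ) : 0 ≤ nsq z := by unfold nsq; positivity

lemma BAS_nsq_add (z w : ℂ × ℂ) : nsq (z + w) = nsq z + 2 * (ip z w).re + nsq w := by
  unfold nsq ip
  simp only [Prod.fst_add, Prod.snd_add, Complex.add_re, Complex.mul_re, Complex.conj_re,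
    Complex.conj_im, ← Complex.normSq_eq_norm_sq, Complex.normSq_apply, Complex.add_im]
  ring

lemma BAS_nsq_sub (z w : ℂ × ℂ) : nsq (z - w) = nsq z - 2 * (ip z w).re + nsq w := by
  unfold nsq ip
  simp only [Prod.fst_sub, Prod.snd_sub, Complex.add_re, Complex.mul_re, Complex.conj_re,
    Complex.conj_im, ← Complex.normSq_eq_norm_sq, Complex.normSq_apply, Complex.sub_re,
    Complex.sub_im]
  ring

lemma BAS_continuous_nsq : Continuous nsq := by unfold nsq; fun_prop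

lemma BAS_continuous_ht : Continuous ht := by
  unfold ht; exact Complex.continuous_im.comp continuous_fst

lemma BAS_ht_add (z w : ℂ × ℂ) : ht (z + w) = ht z + ht w := by simp [ht]

lemma BAS_ht_sub (z w : ℂ × ℂ) : ht (z - w) = ht z - ht w := by simp [ht]

lemma BAS_abs_ht_le (z : ℂ × ℂ) : |ht z| ≤ ‖z.1‖ := Complex.abs_im_le_norm _

lemma BAS_ht_γ (τ : Tor) (i : Fin 3) : ht (τ.γ i) = 0 := by simp [ht, Tor.γ]

lemma BAS_nrm_nonneg (κ : ℝ) (F : ℂ × ℂ → ℂ) (z : ℂ × ℂ) : 0 ≤ nrm κ F z := by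
  unfold nrm; positivity

/-- the norm of a section is periodic -/
lemma BAS_nrm_per {τ : Tor} {κ : ℝ} {F : ℂ × ℂ → ℂ} (hF : τ.Sec κ F) : τ.Per (nrm κ F) := by
  intro z i
  obtain ⟨c, hc, h⟩ := hF.quasi i
  unfold nrm
  rw [h z, norm_mul, norm_mul, hc, one_mul, Complex.norm_exp, BAS_nsq_add]
  have : (2 * (κ : ℂ) * (ip z (τ.γ i) + (nsq (τ.γ i) : ℂ) / 2)).re =
      2 * κ * (ip z (τ.γ i)).re + κ * nsq (τ.γ i) := by
    have h1 : (2 * (κ : ℂ) * (ip z (τ.γ i) + (nsq (τ.γ i) : ℂ) / 2)) =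
      ((2 * κ : ℝ) : ℂ) * ip z (τ.γ i) + ((κ * nsq (τ.γ i) : ℝ) : ℂ) := by
      push_cast; ring
    rw [h1, Complex.add_re, Complex.re_ofReal_mul, Complex.ofReal_re]
  rw [this, mul_comm (Real.exp _) (‖F z‖), mul_assoc, ← Real.exp_add]
  congr 2
  ring

lemma BAS_sec_zero_iff {τ : Tor} {κ : ℝ} {F : ℂ × ℂ → ℂ} (hF : τ.Sec κ F) (z : ℂ × ℂ) (i : Fin 3) :
    F (z + τ.γ i) = 0 ↔ F z = 0 := by
  obtain ⟨c, hc, h⟩ := hF.quasi i
  have hc0 : c ≠ 0 := by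
    rintro rfl
    simp at hc
  rw [h z]
  simp [hc0, Complex.exp_ne_zero]

lemma BAS_sec_smul {τ : Tor} {κ : ℝ} {F : ℂ × ℂ → ℂ} (hF : τ.Sec κ F) (a : ℂ) :
    τ.Sec κ (fun z => a * F z) := by
  refine ⟨hF.entire.const_mul a, fun i => ?_⟩
  obtain ⟨c, hc, h⟩ := hF.quasi i
  exact ⟨c, hc, fun z => by rw [h z]; ring⟩

lemma BAS_nrm_smul (κ : ℝ) (F : ℂ × ℂ → ℂ) (a : ℂ) (z : ℂ × ℂ) :
    nrm κ (fun z => a * F z) z = ‖a‖ * nrm κ F z := by
  unfold nrm; rw [norm_mul]; ring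

lemma BAS_vanO_smul {T : ℝ} {F : ℂ × ℂ → ℂ} (hF : VanO T F) (a : ℂ) :
    VanO T (fun z => a * F z) := by
  obtain ⟨K, hK, h⟩ := hF
  refine ⟨‖a‖ * K, by positivity, ?_⟩
  filter_upwards [h] with z hz
  rw [norm_mul, mul_assoc]
  gcongr

lemma BAS_nsq_lt_one : ∀ᶠ z in nhdsWithin (0 : ℂ × ℂ) {0}ᶜ, nsq z ≤ 1 := by
  have h1 : ∀ᶠ z in nhds (0 : ℂ × ℂ), nsq z < 1 := by
    have : nsq (0 : ℂ × ℂ) < 1 := by simp [nsq]
    exact BAS_continuous_nsq.continuousAt.eventually_lt continuousAt_const this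
  exact (h1.filter_mono nhdsWithin_le_nhds).mono fun z hz => hz.le

lemma BAS_nsq_pos {z : ℂ × ℂ} (hz : z ≠ 0) : 0 < nsq z := by
  unfold nsq
  rcases z with ⟨a, b⟩
  by_cases ha : a = 0
  · have hb : b ≠ 0 := by
      rintro rfl
      exact hz (by rw [ha]; rfl)
    have : 0 < ‖b‖ := norm_pos_iff.mpr hb
    positivity
  · have : 0 < ‖a‖ := norm_pos_iff.mpr ha
    positivity

lemma BAS_vanO_mono {T T' : ℝ} {F : ℂ × ℂ → ℂ} (hF : VanO T F) (h : T' ≤ T) : VanO T' F := by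
  obtain ⟨K, hK, hF⟩ := hF
  refine ⟨K, hK, ?_⟩
  filter_upwards [hF, BAS_nsq_lt_one, self_mem_nhdsWithin] with z hz h1 h0
  refine hz.trans ?_
  gcongr ?_ * ?_
  exact Real.rpow_le_rpow_of_exponent_ge (BAS_nsq_pos h0) h1 (by linarith)

/-! ### the function `½ log (nrm² + η²)` -/

/-- the periodic function of a section -/
noncomputable def BAS_u (F : ℂ × ℂ → ℂ) (κ η : ℝ) (z : ℂ × ℂ) : ℝ := uu F κ η z - κ * nsq z

lemma BAS_u_eq (F : ℂ × ℂ → ℂ) (κ : ℝ) {η : ℝ} (hη : 0 < η) (z : ℂ × ℂ) :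
    BAS_u F κ η z = 1 / 2 * Real.log (nrm κ F z ^ 2 + η ^ 2) := by
  unfold BAS_u uu nrm
  have h1 : ‖F z‖ ^ 2 + η ^ 2 * Real.exp (2 * κ * nsq z) =
      Real.exp (2 * κ * nsq z) * ((‖F z‖ * Real.exp (-(κ * nsq z))) ^ 2 + η ^ 2) := by
    have h2 : Real.exp (2 * κ * nsq z) * Real.exp (-(κ * nsq z)) ^ 2 = 1 := by
      rw [← Real.exp_nat_mul, ← Real.exp_add]
      rw [show 2 * κ * nsq z + ((2 : ℕ) : ℝ) * -(κ * nsq z) = 0 by push_cast; ring, Real.exp_zero]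
    calc ‖F z‖ ^ 2 + η ^ 2 * Real.exp (2 * κ * nsq z)
        = ‖F z‖ ^ 2 * (Real.exp (2 * κ * nsq z) * Real.exp (-(κ * nsq z)) ^ 2) +
          η ^ 2 * Real.exp (2 * κ * nsq z) := by rw [h2, mul_one]
      _ = _ := by ring
  have h3 : 0 < (‖F z‖ * Real.exp (-(κ * nsq z))) ^ 2 + η ^ 2 := by positivity
  rw [h1, Real.log_mul (Real.exp_pos _).ne' h3.ne', Real.log_exp]
  ring

lemma BAS_plus_u (F : ℂ × ℂ → ℂ) (κ η : ℝ) : plus κ (BAS_u F κ η) = uu F κ η := by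
  funext z
  simp [plus, BAS_u]

lemma BAS_u_per {τ : Tor} {κ : ℝ} {F : ℂ × ℂ → ℂ} (hF : τ.Sec κ F) {η : ℝ} (hη : 0 < η) :
    τ.Per (BAS_u F κ η) := by
  intro z i
  rw [BAS_u_eq F κ hη, BAS_u_eq F κ hη, BAS_nrm_per hF z i]

lemma BAS_uu_eq (F : ℂ × ℂ → ℂ) (κ η : ℝ) (z : ℂ × ℂ) :
    uu F κ η z = 1 / 2 * lgs (fun _ : Unit => F) κ η z := by
  simp [uu, lgs]

lemma BAS_lev_smul (c : ℝ) (f : ℂ × ℂ → ℝ) (v z : ℂ × ℂ) :
    lev (fun z => c * f z) v z = c * lev f v z := by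
  have h1 : ∀ (f : ℂ × ℂ → ℝ) (v z : ℂ × ℂ),
      fderiv ℝ (fun z => c * f z) z v = c * fderiv ℝ f z v := by
    intro f v z
    have h2 : (fun z => c * f z) = c • f := rfl
    rw [h2, fderiv_const_smul_field]
    simp
  unfold lev d2
  simp only [h1]
  ring

lemma BAS_psh_smul {n : ℕ∞} {f : ℂ × ℂ → ℝ} (hf : Psh n f) {c : ℝ} (hc : 0 ≤ c) :
    Psh n (fun z => c * f z) := by
  refine ⟨contDiff_const.mul hf.1, fun z v => ?_⟩
  rw [BAS_lev_smul]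
  exact mul_nonneg hc (hf.2 z v)

lemma BAS_uu_psh (hLOG : St_LOG) {F : ℂ × ℂ → ℂ} (hF : Differentiable ℂ F) {κ η : ℝ} (hκ : 0 ≤ κ)
    (hη : 0 < η) : Psh ⊤ (uu F κ η) := by
  have h1 : uu F κ η = fun z => 1 / 2 * lgs (fun _ : Unit => F) κ η z := by
    funext z; exact BAS_uu_eq F κ η z
  rw [h1]
  exact BAS_psh_smul (hLOG Unit (fun _ => F) κ η (fun _ => hF) hκ hη) (by norm_num)

lemma BAS_u_smooth (hLOG : St_LOG) (hN : St_NSQ) {F : ℂ × ℂ → ℂ} (hF : Differentiable ℂ F)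
    {κ η : ℝ} (hκ : 0 ≤ κ) (hη : 0 < η) : ContDiff ℝ (⊤ : ℕ∞) (BAS_u F κ η) :=
  (BAS_uu_psh hLOG hF hκ hη).1.sub (contDiff_const.mul hN.1)

/-! ### mean values -/

lemma BAS_ht_pt (τ : Tor) (t : ℝ) (x : Fin 3 → ℝ) : ht (τ.pt t x) = t := by
  unfold ht Tor.pt
  rw [Prod.fst_add, Complex.add_im, Prod.fst_sum, Complex.im_sum]
  simp [Tor.γ]

lemma BAS_continuous_pt (τ : Tor) (t : ℝ) : Continuous (τ.pt t) := by
  unfold Tor.pt
  fun_prop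

lemma BAS_cube_compact : IsCompact Tor.cube := isCompact_Icc

lemma BAS_cube_vol : volume.real Tor.cube = 1 := by
  unfold Tor.cube Measure.real
  rw [Real.volume_Icc_pi]
  norm_num

lemma BAS_intOn (τ : Tor) {f : ℂ × ℂ → ℝ} (hf : Continuous f) (t : ℝ) :
    IntegrableOn (fun x => f (τ.pt t x)) Tor.cube :=
  (hf.comp (BAS_continuous_pt τ t)).continuousOn.integrableOn_compact BAS_cube_compact

lemma BAS_avg_mono (τ : Tor) {f g : ℂ × ℂ → ℝ} (hf : Continuous f) (hg : Continuous g) (t : ℝ)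
    (h : ∀ z, ht z = t → f z ≤ g z) : τ.avg f t ≤ τ.avg g t :=
  integral_mono (BAS_intOn τ hf t) (BAS_intOn τ hg t) fun x => h _ (BAS_ht_pt τ t x)

lemma BAS_avg_const (τ : Tor) (c t : ℝ) : τ.avg (fun _ => c) t = c := by
  unfold Tor.avg
  rw [integral_const, measureReal_restrict_apply_univ, BAS_cube_vol]
  simp

lemma BAS_avg_mul (τ : Tor) (c : ℝ) (f : ℂ × ℂ → ℝ) (t : ℝ) :
    τ.avg (fun z => c * f z) t = c * τ.avg f t := by
  unfold Tor.avg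
  exact integral_const_mul _ _

end Pool.Agent.KT
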