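import Pool.Agent.KT.DefsB
import Pool.Agent.Helper8.SVGeneral
import Pool.Agent.Helper8.AlgPoly

/-!
KT, bridge 0: from complex data with algebraic coefficients to integral data (helper8).
-/

set_option autoImplicit false

open scoped BigOperators
open MvPolynomial NumberField
open Pool.Agent.Helper8 (dd dds Van)

namespace Pool.Agent.KT

/-- the data with algebraic numbers in place of the integers of a number field -/
structure DatC (τ : Tor) where
  ι : Type
  [fι : Fintype ι]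
  [dι : DecidableEq ι]
  P : Fin 2 → ι → MvPolynomial ι ℂ
  P_alg : ∀ b i m, IsAlgebraic ℚ ((P b i).coeff m)
  dir : Fin 2 → ℂ × ℂ
  dir_span : ∀ v : ℂ × ℂ, ∃ c : Fin 2 → ℂ, v = ∑ i, c i • dir i
  h : ℂ × ℂ → ℂ
  u : ι → ℂ × ℂ → ℂ
  h_zero : h 0 ≠ 0
  u_ent : ∀ i, Differentiable ℂ (u i)
  u_val : ∀ i, IsAlgebraic ℚ (u i 0 / h 0)
  u_der : ∀ z, h z ≠ 0 → ∀ b i, dd (dir b) (fun z => u i z / h z) z =
    eval (fun j => u j z / h z) (P b i)
  h_ent : Differentiable ℂ h
  cc : Fin 3 → ℂ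
  cc_norm : ∀ i, ‖cc i‖ = 1
  h_quasi : ∀ i z, h (z + τ.γ i) = cc i * τ.ml (Real.pi / 2) i z * h z
  y : Fin 2 → ι
  y_quasi : ∀ j i z, u (y j) (z + τ.γ i) = cc i * τ.ml (Real.pi / 2) i z * u (y j) z
  y_ind : ∀ R : MvPolynomial (Fin 2) ℂ,
    (∀ z, h z ≠ 0 → eval (fun i => u (y i) z / h z) R = 0) → R = 0
  X : ℂ
  X_tr : Transcendental ℚ X
  q : ι → Polynomial ℂ
  q_alg : ∀ i n, IsAlgebraic ℚ ((q i).coeff n)
  S_quasi : ∀ i z, ∑ j, (q j).eval X * u j (z + τ.γ i) =
    cc i * τ.ml (Real.pi / 2) i z * ∑ j, (q j).eval X * u j z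
  m : ℂ × ℂ
  m_ht : ht m ≠ 0
  β : ℂ
  β_ne : β ≠ 0
  e : ℂ × ℂ → ℂ
  e_norm : ∀ z, ‖e z‖ = Real.exp (Real.pi / 2 * (nsq (z + m) - nsq z))
  h_mul : ∀ z, h (z + m) = e z * h z
  y_mul : ∀ i z, u (y i) (z + m) = e z * u (y i) z
  S_mul : ∀ z, ∑ i, (q i).eval X * u i (z + m) =
    e z * ((∑ i, (q i).eval X * u i z) + β * h z)

attribute [instance] DatC.fι DatC.dι

theorem DatC.toDat {τ : Tor} (A : DatC τ) : Nonempty (Dat τ) := by
  classical
  set S : Set ℂ := (⋃ s : Fin 2 × A.ι, (fun m => (A.P s.1 s.2).coeff m) ''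
    ((A.P s.1 s.2).support : Set (A.ι →₀ ℕ))) ∪ Set.range (fun i => A.u i 0 / A.h 0) ∪
      (⋃ i : A.ι, (fun n => (A.q i).coeff n) '' ((A.q i).support : Set ℕ)) with hS
  have hSfin : Finite S := by
    apply Set.Finite.to_subtype
    apply Set.Finite.union
    · apply Set.Finite.union
      · exact Set.finite_iUnion fun i => (Finset.finite_toSet _).image _
      · exact Set.finite_range _
    · exact Set.finite_iUnion fun i => (Finset.finite_toSet _).image _
  obtain ⟨K, hK, D, hD0, hlift⟩ := Helper8.exists_numberField S (by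
    rintro c ((hc | hc) | hc)
    · obtain ⟨i, hi⟩ := Set.mem_iUnion.mp hc
      obtain ⟨m, _, rfl⟩ := hi
      exact A.P_alg i.1 i.2 m
    · obtain ⟨i, rfl⟩ := hc
      exact A.u_val i
    · obtain ⟨i, hi⟩ := Set.mem_iUnion.mp hc
      obtain ⟨m, _, rfl⟩ := hi
      exact A.q_alg i m)
  set em : K →+* ℂ := algebraMap K ℂ with hem
  set ψ : 𝓞 K →+* ℂ := em.comp (algebraMap (𝓞 K) K) with hψ
  have hcoef : ∀ b i m, ∃ c : 𝓞 K, ψ c = D * (A.P b i).coeff m := by
    intro b i m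
    by_cases hm : m ∈ (A.P b i).support
    · exact hlift _ (Or.inl (Or.inl (Set.mem_iUnion.mpr ⟨(b, i), ⟨m, hm, rfl⟩⟩)))
    · exact ⟨0, by rw [notMem_support_iff.mp hm]; simp⟩
  choose cf hcf using hcoef
  have hx : ∀ i, ∃ x : 𝓞 K, ψ x = D * (A.u i 0 / A.h 0) := fun i =>
    hlift _ (Or.inl (Or.inr ⟨i, rfl⟩))
  choose x hx using hx
  have hqc : ∀ i n, ∃ c : 𝓞 K, ψ c = D * (A.q i).coeff n := by
    intro i n
    by_cases hn : n ∈ (A.q i).support
    · exact hlift _ (Or.inr (Set.mem_iUnion.mpr ⟨i, ⟨n, hn, rfl⟩⟩))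
    · exact ⟨0, by rw [Polynomial.notMem_support_iff.mp hn]; simp⟩
  choose qf hqf using hqc
  obtain ⟨r, hr⟩ : ∃ r : ℕ, ∀ b i, (A.P b i).totalDegree ≤ r := by
    refine ⟨∑ s : Fin 2 × A.ι, (A.P s.1 s.2).totalDegree, fun b i => ?_⟩
    exact Finset.single_le_sum (f := fun s : Fin 2 × A.ι => (A.P s.1 s.2).totalDegree)
      (fun _ _ => Nat.zero_le _) (Finset.mem_univ (b, i))
  set P' : Fin 2 → A.ι → MvPolynomial A.ι (𝓞 K) := fun b i =>
    ∑ m ∈ (A.P b i).support, monomial m (cf b i m * (D : 𝓞 K) ^ (r - m.degree)) with hP'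
  have hDC : (D : ℂ) ≠ 0 := by exact_mod_cast hD0
  have hPP' : ∀ b i (y : A.ι → ℂ), eval₂ ψ (fun k => D * y k) (P' b i) =
      D * (D : ℂ) ^ r * eval y (A.P b i) := by
    intro b i y
    rw [hP', eval₂_sum, eval_eq', Finset.mul_sum]
    apply Finset.sum_congr rfl
    intro m hm
    rw [eval₂_monomial, map_mul, map_pow, map_natCast, hcf, Finsupp.prod_fintype _ _ (by simp)]
    have h1 : m.degree ≤ r := (le_totalDegree hm).trans (hr b i)
    have h2 : (D : ℂ) ^ r = (D : ℂ) ^ (r - m.degree) * (D : ℂ) ^ m.degree := by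
      rw [← pow_add]; congr 1; omega
    have h3 : (D : ℂ) ^ m.degree = ∏ k, (D : ℂ) ^ (m k) := by
      rw [Finset.prod_pow_eq_pow_sum, Finsupp.degree_eq_sum]
    rw [h2, h3]
    simp only [mul_pow, Finset.prod_mul_distrib]
    ring
  set δ : ℂ := (D : ℂ) ^ r with hδ
  have hδ0 : δ ≠ 0 := pow_ne_zero _ hDC
  set q' : A.ι → Polynomial (𝓞 K) := fun i =>
    ∑ n ∈ (A.q i).support, Polynomial.monomial n (qf i n) with hq'
  have hqq' : ∀ i, (q' i).eval₂ ψ A.X = D * (A.q i).eval A.X := by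
    intro i
    rw [hq', Polynomial.eval₂_finsetSum, Polynomial.eval_eq_sum, Polynomial.sum_def,
      Finset.mul_sum]
    refine Finset.sum_congr rfl fun n _ => ?_
    rw [Polynomial.eval₂_monomial, hqf]
    ring
  have hSS : ∀ z, ∑ j, (q' j).eval₂ ψ A.X * ((D : ℂ) * A.u j z) =
      (D : ℂ) ^ 2 * ∑ j, (A.q j).eval A.X * A.u j z := by
    intro z
    rw [Finset.mul_sum]
    refine Finset.sum_congr rfl fun j _ => ?_
    rw [hqq']
    ring
  refine ⟨{
    K := K
    fK := inferInstance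
    nK := hK
    em := em
    ι := A.ι
    P := P'
    val := x
    dir := fun b => δ • A.dir b
    dir_span := ?_
    h := A.h
    u := fun i z => D * A.u i z
    h_zero := A.h_zero
    u_ent := fun i => (A.u_ent i).const_mul _
    u_val := ?_
    u_der := ?_
    h_ent := A.h_ent
    cc := A.cc
    cc_norm := A.cc_norm
    h_quasi := A.h_quasi
    y := A.y
    y_quasi := ?_
    y_ind := ?_
    X := A.X
    X_tr := A.X_tr
    q := q'
    S_quasi := ?_
    m := A.m
    m_ht := A.m_ht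
    β := (D : ℂ) ^ 2 * A.β
    β_ne := mul_ne_zero (pow_ne_zero _ hDC) A.β_ne
    e := A.e
    e_norm := A.e_norm
    h_mul := A.h_mul
    y_mul := ?_
    S_mul := ?_ }⟩
  · intro v
    obtain ⟨c, hc⟩ := A.dir_span v
    refine ⟨fun i => c i / δ, ?_⟩
    rw [hc]
    apply Finset.sum_congr rfl
    intro i _
    rw [smul_smul]
    congr 1
    field_simp
  · intro i
    have := hx i
    rw [hψ] at this
    simp only [RingHom.comp_apply] at this
    rw [this]; ring
  · intro z hz b i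
    have h4 : (fun z => (D : ℂ) * A.u i z / A.h z) = fun z => (D : ℂ) * (A.u i z / A.h z) := by
      ext z; rw [mul_div_assoc]
    have h5 : eval₂ (em.comp (algebraMap (𝓞 K) K)) (fun j => (D : ℂ) * A.u j z / A.h z)
        (P' b i) = δ * (D * eval (fun j => A.u j z / A.h z) (A.P b i)) := by
      have h6 := hPP' b i (fun j => A.u j z / A.h z)
      have h7 : (fun j => (D : ℂ) * A.u j z / A.h z) =
          fun k => (D : ℂ) * (A.u k z / A.h z) := by
        ext k; rw [mul_div_assoc]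
      rw [h7, ← hψ, h6]; ring
    rw [h4, h5, ← A.u_der z hz b i]
    have h8 : DifferentiableAt ℂ (fun z => A.u i z / A.h z) z := by
      simp only [div_eq_mul_inv]
      exact (A.u_ent i z).mul ((A.h_ent z).inv hz)
    unfold dd
    rw [fderiv_const_mul h8, map_smul, smul_eq_mul]
    rfl
  · intro j i z
    rw [A.y_quasi]; ring
  · intro R hR
    set R' : MvPolynomial (Fin 2) ℂ :=
      bind₁ (fun i => MvPolynomial.C (D : ℂ) * MvPolynomial.X i) R with hR'
    have h1 : ∀ y : Fin 2 → ℂ, eval y R' = eval (fun i => D * y i) R := by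
      intro y
      have e : ∀ (y : Fin 2 → ℂ) (p : MvPolynomial (Fin 2) ℂ),
        eval y p = eval₂Hom (RingHom.id ℂ) y p := fun _ _ => rfl
      rw [hR', e, MvPolynomial.eval₂Hom_bind₁, e]
      congr 1
      refine congrArg _ (funext fun i => ?_)
      rw [← e, map_mul, eval_C, eval_X]
    have h2 : R' = 0 := by
      refine A.y_ind R' fun z hz => ?_
      rw [h1]
      have h3 := hR z hz
      have h4 : (fun i => (D : ℂ) * (A.u (A.y i) z / A.h z)) =
          fun i => (D : ℂ) * A.u (A.y i) z / A.h z := by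
        funext i
        rw [mul_div_assoc]
      rw [h4]
      exact h3
    refine MvPolynomial.funext fun y => ?_
    have h3 := h1 (fun i => (D : ℂ)⁻¹ * y i)
    rw [h2, map_zero] at h3
    have h4 : (fun i => (D : ℂ) * ((D : ℂ)⁻¹ * y i)) = y := by
      funext i
      rw [← mul_assoc, mul_inv_cancel₀ hDC, one_mul]
    rw [h4] at h3
    rw [← h3, map_zero]
  · intro i z
    show ∑ j, (q' j).eval₂ ψ A.X * ((D : ℂ) * A.u j (z + τ.γ i)) =
      A.cc i * τ.ml (Real.pi / 2) i z * ∑ j, (q' j).eval₂ ψ A.X * ((D : ℂ) * A.u j z)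
    rw [hSS, hSS, A.S_quasi]
    ring
  · intro i z
    rw [A.y_mul]; ring
  · intro z
    show ∑ j, (q' j).eval₂ ψ A.X * ((D : ℂ) * A.u j (z + A.m)) =
      A.e z * ((∑ j, (q' j).eval₂ ψ A.X * ((D : ℂ) * A.u j z)) + (D : ℂ) ^ 2 * A.β * A.h z)
    rw [hSS, hSS, A.S_mul]
    ring

end Pool.Agent.KT
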