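import Pool.Agent.KT.Defs
import Pool.Agent.Helper7.Periods
import Pool.Agent.Helper8.SysPer

/-!
KT, bridge 1: no complex line contains a lattice if the Hodge endomorphisms are scalars (helper8).
-/

set_option autoImplicit false

open scoped ComplexConjugate
open Pool.Agent.GPC Pool.Agent.Helper7

namespace Pool.Agent.KT

/-- All endomorphisms of the rational Hodge structure `H_1(A)` are scalars. -/
def HodgeScalar (A : AbVar) : Prop :=
  ∀ f : A.H1 → A.H1, IsLinearMap ℂ f → (∀ v, A.IsBetti v → A.IsBetti (f v)) →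
    (∀ v, A.IsFil v → A.IsFil (f v)) → ∃ c : ℂ, ∀ v, f v = c • v

variable {A : AbVar}

theorem herm_self_im (v : Fin A.g → ℂ) : (hermForm A.H v v).im = 0 := by
  have h := hermForm_symm A.H A.H_herm v v
  exact Complex.conj_eq_iff_im.1 h.symm

theorem herm_self (v : Fin A.g → ℂ) : hermForm A.H v v = ((hermForm A.H v v).re : ℂ) := by
  apply Complex.ext
  · rfl
  · rw [herm_self_im, Complex.ofReal_im]

/-- the polarisation on `F^0` and a complex line -/
theorem pol_fil {u : A.H1} (hu : A.IsFil u) (t : ℂ) (v : Fin A.g → ℂ) :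
    A.polForm u (A.period (t • v)) = t * A.polForm u (A.period v) := by
  rw [A.polForm_apply, A.polForm_apply, Finset.mul_sum]
  refine Finset.sum_congr rfl fun a _ => ?_
  have h1 : ∀ l : Fin A.g → ℂ, A.period l (.inl a) = l a := fun l => rfl
  rw [hu a, h1, h1, Pi.smul_apply, smul_eq_mul]
  ring

/-- **no complex line contains two independent periods** -/
theorem no_line (hA : HodgeScalar A) (hg : 2 ≤ A.g) {v : Fin A.g → ℂ} (hv : v ∈ A.Λ)
    (hv0 : v ≠ 0) {t : ℂ} (ht : t.im ≠ 0) (hv' : t • v ∈ A.Λ) : False := by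
  have hpos : 0 < (hermForm A.H v v).re := A.H_pos v hv0
  have hE : (hermForm A.H v (t • v)).im ≠ 0 := by
    rw [Helper7.hermForm_smul_right, herm_self, Complex.mul_im, Complex.ofReal_im,
      Complex.ofReal_re, Complex.conj_im, mul_zero, zero_add]
    exact mul_ne_zero (neg_ne_zero.2 ht) hpos.ne'
  set P : ℂ := A.polForm (A.period v) (A.period (t • v)) with hP
  have hP1 : P = 2 * Real.pi * Complex.I * ((hermForm A.H v (t • v)).im : ℂ) :=
    polForm_period A v (t • v)
  have hpi : (2 * Real.pi * Complex.I : ℂ) ≠ 0 := Complex.two_pi_I_ne_zero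
  have hP0 : P ≠ 0 := by
    rw [hP1]
    exact mul_ne_zero hpi (Complex.ofReal_ne_zero.2 hE)
  let f : A.H1 → A.H1 := fun u => P⁻¹ • (A.polForm u (A.period (t • v)) • A.period v -
    A.polForm u (A.period v) • A.period (t • v))
  have hlin : IsLinearMap ℂ f := by
    constructor
    · intro u w
      simp only [f, map_add, LinearMap.add_apply]
      module
    · intro c u
      simp only [f, map_smul, LinearMap.smul_apply, smul_eq_mul]
      module
  have hself : A.polForm (A.period v) (A.period v) = 0 := by
    rw [polForm_period, herm_self_im, Complex.ofReal_zero, mul_zero]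
  have hrat : ∀ l ∈ A.Λ, ∀ m ∈ A.Λ, ∃ r : ℚ, P⁻¹ * A.polForm (A.period l) (A.period m) = r := by
    intro l hl m hm
    obtain ⟨n, hn⟩ := A.appellHumbert.integral l hl m hm
    obtain ⟨n', hn'⟩ := A.appellHumbert.integral v hv (t • v) hv'
    refine ⟨(n : ℚ) / n', ?_⟩
    rw [hP1, polForm_period, hn, hn']
    rw [hn'] at hE
    have h0 : ((n' : ℝ) : ℂ) ≠ 0 := Complex.ofReal_ne_zero.2 hE
    push_cast at h0 ⊢
    field_simp
  have hbet : ∀ u, A.IsBetti u → A.IsBetti (f u) := by
    have h1 : ∀ l ∈ A.Λ, f (A.period l) ∈ A.betti := by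
      intro l hl
      obtain ⟨r, hr⟩ := hrat l hl _ hv'
      obtain ⟨r', hr'⟩ := hrat l hl _ hv
      have e : f (A.period l) = r • A.period v - r' • A.period (t • v) := by
        have e1 : ∀ (q : ℚ) (w : A.H1), q • w = (q : ℂ) • w := fun q w => by
          rw [← Rat.cast_smul_eq_qsmul ℂ]
        rw [e1, e1, ← hr, ← hr']
        simp only [f]
        module
      rw [e]
      exact Submodule.sub_mem _
        (Submodule.smul_mem _ _ (Submodule.subset_span ⟨v, hv, rfl⟩))
        (Submodule.smul_mem _ _ (Submodule.subset_span ⟨_, hv', rfl⟩))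
    intro u hu
    rw [isBetti_iff] at hu ⊢
    induction hu using Submodule.span_induction with
    | mem x hx =>
      obtain ⟨l, hl, rfl⟩ := hx
      exact h1 l hl
    | zero =>
      rw [hlin.map_zero]
      exact Submodule.zero_mem _
    | add x y _ _ hx hy =>
      rw [hlin.map_add]
      exact Submodule.add_mem _ hx hy
    | smul r x _ hx =>
      have e1 : ∀ w : A.H1, r • w = (r : ℂ) • w := fun w => by
        rw [← Rat.cast_smul_eq_qsmul ℂ]
      rw [e1, hlin.map_smul, ← e1]
      exact Submodule.smul_mem _ _ hx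
  have hfil : ∀ u, A.IsFil u → A.IsFil (f u) := by
    intro u hu a
    show P⁻¹ * (A.polForm u (A.period (t • v)) * v a -
      A.polForm u (A.period v) * (t * v a)) = 0
    rw [pol_fil hu]
    ring
  obtain ⟨c, hc⟩ := hA f hlin hbet hfil
  -- the image has dimension at most two
  have hfv : f (A.period v) = A.period v := by
    simp only [f]
    rw [hself, zero_smul, sub_zero, ← hP, smul_smul, inv_mul_cancel₀ hP0, one_smul]
  have hvne : A.period v ≠ 0 := by
    intro h0
    apply hv0
    funext a
    exact congrFun h0 (.inl a)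
  have hc1 : c = 1 := by
    have h1 := hc (A.period v)
    rw [hfv] at h1
    have h2 : (c - 1) • A.period v = 0 := by rw [sub_smul, one_smul, ← h1, sub_self]
    rcases smul_eq_zero.1 h2 with h3 | h3
    · exact sub_eq_zero.1 h3
    · exact absurd h3 hvne
  have hspan : Submodule.span ℂ (Set.range ![A.period v, A.period (t • v)]) = ⊤ := by
    rw [eq_top_iff]
    intro u _
    have h1 := hc u
    rw [hc1, one_smul] at h1
    rw [← h1]
    refine Submodule.smul_mem _ _ (Submodule.sub_mem _ (Submodule.smul_mem _ _ ?_)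
      (Submodule.smul_mem _ _ ?_))
    · exact Submodule.subset_span ⟨0, rfl⟩
    · exact Submodule.subset_span ⟨1, rfl⟩
  have h1 := finrank_range_le_card (R := ℂ) ![A.period v, A.period (t • v)]
  have h2 : Module.finrank ℂ A.H1 = A.g + A.g := by
    rw [Module.finrank_fintype_fun_eq_card, Fintype.card_sum, Fintype.card_fin]
  unfold Set.finrank at h1
  rw [hspan, finrank_top, h2, Fintype.card_fin] at h1
  omega

end Pool.Agent.KT
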