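import Pool.Agent.KT.Br1

/-!
KT, bridge 2: coordinates and the toroidal group (helper8).
-/

set_option autoImplicit false

open scoped ComplexConjugate BigOperators
open Pool.Agent.GPC Pool.Agent.Helper7

namespace Pool.Agent.KT

/-! ### a unitary coordinate system -/

theorem ip_self (z : ℂ × ℂ) : ip z z = (nsq z : ℂ) := by
  unfold ip nsq
  rw [Complex.mul_conj, Complex.mul_conj, Complex.normSq_eq_norm_sq, Complex.normSq_eq_norm_sq]
  push_cast
  rfl

theorem nsq_eq_zero {z : ℂ × ℂ} (h : nsq z = 0) : z = 0 := by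
  unfold nsq at h
  have h1 : ‖z.1‖ ^ 2 = 0 := by nlinarith [sq_nonneg ‖z.1‖, sq_nonneg ‖z.2‖]
  have h2 : ‖z.2‖ ^ 2 = 0 := by nlinarith [sq_nonneg ‖z.1‖, sq_nonneg ‖z.2‖]
  exact Prod.ext (norm_eq_zero.1 (pow_eq_zero_iff two_ne_zero |>.1 h1))
    (norm_eq_zero.1 (pow_eq_zero_iff two_ne_zero |>.1 h2))

variable {A : AbVar}

theorem exists_unit (v : Fin A.g → ℂ) (hv : v ≠ 0) : ∃ r : ℝ, 0 < r ∧
    hermForm A.H ((r : ℂ) • v) ((r : ℂ) • v) = 1 := by
  have hpos : 0 < (hermForm A.H v v).re := A.H_pos v hv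
  refine ⟨1 / Real.sqrt (hermForm A.H v v).re, by positivity, ?_⟩
  rw [Helper7.hermForm_smul_left, Helper7.hermForm_smul_right, Complex.conj_ofReal, herm_self]
  have h1 : Real.sqrt (hermForm A.H v v).re * Real.sqrt (hermForm A.H v v).re =
      (hermForm A.H v v).re := Real.mul_self_sqrt hpos.le
  have h2 : Real.sqrt (hermForm A.H v v).re ≠ 0 := (Real.sqrt_pos.2 hpos).ne'
  norm_cast
  field_simp
  rw [sq, h1]

/-- unitary coordinates, the first vector is a positive multiple of `lam` -/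
theorem exists_coord (hg : A.g = 2) (lam : Fin A.g → ℂ) (hl : lam ≠ 0) :
    ∃ (Ψ : (ℂ × ℂ) ≃ₗ[ℂ] (Fin A.g → ℂ)) (r : ℝ), 0 < r ∧ Ψ (1, 0) = (r : ℂ) • lam ∧
      ∀ z w, hermForm A.H (Ψ z) (Ψ w) = ip z w := by
  obtain ⟨r, hr, hr1⟩ := exists_unit lam hl
  set b₁ : Fin A.g → ℂ := (r : ℂ) • lam with hb₁
  let L : (Fin A.g → ℂ) →ₗ[ℂ] ℂ :=
    { toFun := fun z => hermForm A.H z b₁
      map_add' := fun z z' => Helper7.hermForm_add_left _ _ _ _
      map_smul' := fun c z => Helper7.hermForm_smul_left _ _ _ _ }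
  have hfin : Module.finrank ℂ (Fin A.g → ℂ) = 2 := by
    rw [Module.finrank_fintype_fun_eq_card, Fintype.card_fin, hg]
  have hker : LinearMap.ker L ≠ ⊥ := by
    refine L.ker_ne_bot_of_finrank_lt ?_
    rw [hfin, Module.finrank_self]
    exact one_lt_two
  obtain ⟨w, hw, hw0⟩ := Submodule.exists_mem_ne_zero_of_ne_bot hker
  have hw1 : hermForm A.H w b₁ = 0 := hw
  obtain ⟨s, hs, hs1⟩ := exists_unit w hw0
  set b₂ : Fin A.g → ℂ := (s : ℂ) • w with hb₂
  have h21 : hermForm A.H b₂ b₁ = 0 := by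
    rw [hb₂, Helper7.hermForm_smul_left, hw1, mul_zero]
  have h12 : hermForm A.H b₁ b₂ = 0 := by
    rw [hermForm_symm A.H A.H_herm b₂ b₁, h21, map_zero]
  let Ψ₀ : (ℂ × ℂ) →ₗ[ℂ] (Fin A.g → ℂ) :=
    { toFun := fun z => z.1 • b₁ + z.2 • b₂
      map_add' := fun z z' => by
        simp only [Prod.fst_add, Prod.snd_add]
        module
      map_smul' := fun c z => by
        simp only [Prod.smul_fst, Prod.smul_snd, smul_eq_mul, RingHom.id_apply]
        module }
  have hherm : ∀ z w, hermForm A.H (Ψ₀ z) (Ψ₀ w) = ip z w := by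
    intro z w
    show hermForm A.H (z.1 • b₁ + z.2 • b₂) (w.1 • b₁ + w.2 • b₂) = _
    rw [Helper7.hermForm_add_left, Helper7.hermForm_add_right, Helper7.hermForm_add_right]
    simp only [Helper7.hermForm_smul_left, Helper7.hermForm_smul_right]
    rw [hr1, hs1, h12, h21]
    unfold ip
    ring
  have hinj : Function.Injective Ψ₀ := by
    rw [injective_iff_map_eq_zero]
    intro z hz
    have h1 := hherm z z
    rw [hz, ip_self] at h1
    have h2 : hermForm A.H (0 : Fin A.g → ℂ) 0 = 0 := by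
      simp [hermForm]
    rw [h2] at h1
    exact nsq_eq_zero (by exact_mod_cast h1.symm)
  have hdim : Module.finrank ℂ (ℂ × ℂ) = Module.finrank ℂ (Fin A.g → ℂ) := by
    rw [hfin, Module.finrank_prod, Module.finrank_self]
  refine ⟨Ψ₀.linearEquivOfInjective hinj hdim, r, hr, ?_, hherm⟩
  show Ψ₀ (1, 0) = b₁
  show (1 : ℂ) • b₁ + (0 : ℂ) • b₂ = b₁
  rw [one_smul, zero_smul, add_zero]

/-! ### lattice vectors -/

theorem exists_rel (k : Fin 3 → ℤ) : ∃ c c' : Fin 3 → ℤ, ∑ i, c i * k i = 0 ∧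
    ∑ i, c' i * k i = 0 ∧ c ≠ 0 ∧ ∀ r : ℝ, ∃ i, (c' i : ℝ) ≠ r * c i := by
  by_cases h0 : k 0 = 0
  · by_cases h1 : k 1 = 0 ∧ k 2 = 0
    · refine ⟨![1, 0, 0], ![0, 1, 0], ?_, ?_, ?_, ?_⟩
      · simp [Fin.sum_univ_three, h0]
      · simp [Fin.sum_univ_three, h1.1]
      · intro h
        have := congrFun h 0
        simp at this
      · intro r
        refine ⟨1, ?_⟩
        simp
    · refine ⟨![1, 0, 0], ![0, k 2, -k 1], ?_, ?_, ?_, ?_⟩
      · simp [Fin.sum_univ_three, h0]
      · simp [Fin.sum_univ_three]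
        ring
      · intro h
        have := congrFun h 0
        simp at this
      · intro r
        by_cases h2 : k 1 = 0
        · refine ⟨1, ?_⟩
          have h3 : k 2 ≠ 0 := fun h => h1 ⟨h2, h⟩
          simpa using h3
        · refine ⟨2, ?_⟩
          simpa using h2
  · refine ⟨![k 1, -k 0, 0], ![k 2, 0, -k 0], ?_, ?_, ?_, ?_⟩
    · simp [Fin.sum_univ_three]
      ring
    · simp [Fin.sum_univ_three]
      ring
    · intro h
      have := congrFun h 1
      simp at this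
      exact h0 this
    · intro r
      refine ⟨2, ?_⟩
      simpa using h0

/-- three independent lattice vectors orthogonal to `lam`, and a fourth one which is not -/
theorem exists_vec (hg : A.g = 2) (lam : Fin A.g → ℂ) (hl : lam ∈ A.Λ) (hl0 : lam ≠ 0) :
    ∃ (g : Fin 3 → (Fin A.g → ℂ)) (m : Fin A.g → ℂ), (∀ i, g i ∈ A.Λ) ∧ m ∈ A.Λ ∧
      LinearIndependent ℝ g ∧ (∀ i, (hermForm A.H lam (g i)).im = 0) ∧
      (hermForm A.H lam m).im ≠ 0 := by
  classical
  have hsp : Submodule.span ℝ (A.Λ : Set (Fin A.g → ℂ)) = ⊤ := A.lattice.spans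
  obtain ⟨f, hf1, hf2, hf3⟩ := Submodule.exists_fun_fin_finrank_span_eq ℝ
    (A.Λ : Set (Fin A.g → ℂ))
  have hd : Module.finrank ℝ (Submodule.span ℝ (A.Λ : Set (Fin A.g → ℂ))) = 4 := by
    rw [hsp, finrank_top, Module.finrank_pi_fintype]
    simp [hg, Complex.finrank_real_complex]
  set l : Fin 4 → (Fin A.g → ℂ) := fun i => f (Fin.cast hd.symm i) with hldef
  have hlmem : ∀ i, l i ∈ A.Λ := fun i => hf1 _
  have hli : LinearIndependent ℝ l := hf3.comp _ (Fin.cast_injective hd.symm)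
  have hspl : Submodule.span ℝ (Set.range l) = ⊤ := by
    rw [← hsp, ← hf2]
    congr 1
    exact (Fin.castOrderIso hd.symm).surjective.range_comp f
  choose n hn using fun i => A.appellHumbert.integral lam hl (l i) (hlmem i)
  let T : (Fin A.g → ℂ) →ₗ[ℝ] ℝ :=
    { toFun := fun x => (hermForm A.H lam x).im
      map_add' := fun x y => by rw [Helper7.hermForm_add_right, Complex.add_im]
      map_smul' := fun c x => by
        have h1 : c • x = (c : ℂ) • x := by
          funext a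
          simp
        rw [h1, Helper7.hermForm_smul_right, Complex.conj_ofReal, Complex.im_ofReal_mul]
        rfl }
  have hT : ∀ i, T (l i) = n i := hn
  have hn0 : ∃ j, n j ≠ 0 := by
    by_contra hcon
    push Not at hcon
    have h1 : T = 0 := by
      apply LinearMap.ext_on_range (v := l) hspl
      intro i
      rw [hT, hcon i]
      simp
    have h2 : T (Complex.I • lam) = 0 := by rw [h1]; rfl
    have h3 : T (Complex.I • lam) = (hermForm A.H lam (Complex.I • lam)).im := rfl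
    rw [h3, Helper7.hermForm_smul_right, herm_self, Complex.conj_I, neg_mul, Complex.neg_im,
      Complex.I_mul_im, Complex.ofReal_re] at h2
    have := A.H_pos lam hl0
    linarith
  obtain ⟨j, hj⟩ := hn0
  set σ : Equiv.Perm (Fin 4) := Equiv.swap j (Fin.last 3) with hσ
  have hσl : σ (Fin.last 3) = j := Equiv.swap_apply_right _ _
  set l' : Fin 4 → (Fin A.g → ℂ) := fun i => l (σ i) with hl'
  have hli' : LinearIndependent ℝ l' := hli.comp _ σ.injective
  set n' : Fin 4 → ℤ := fun i => n (σ i) with hn'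
  have hn3 : n' (Fin.last 3) ≠ 0 := by
    show n (σ (Fin.last 3)) ≠ 0
    rw [hσl]
    exact hj
  have hT' : ∀ i, T (l' i) = n' i := fun i => hT _
  refine ⟨fun i => n' (Fin.last 3) • l' i.castSucc - n' i.castSucc • l' (Fin.last 3),
    l' (Fin.last 3), ?_, hlmem _, ?_, ?_, ?_⟩
  · intro i
    exact A.Λ.sub_mem (A.Λ.smul_mem _ (hlmem _)) (A.Λ.smul_mem _ (hlmem _))
  · rw [Fintype.linearIndependent_iff]
    intro c hc i
    have h1 : ∑ i : Fin 4, (Fin.snoc (α := fun _ => ℝ) (fun i : Fin 3 => c i * n' (Fin.last 3))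
        (-∑ i : Fin 3, c i * n' i.castSucc) : Fin 4 → ℝ) i • l' i = 0 := by
      rw [Fin.sum_univ_castSucc]
      simp only [Fin.snoc_castSucc, Fin.snoc_last]
      rw [← hc, neg_smul, Finset.sum_smul, ← sub_eq_add_neg, ← Finset.sum_sub_distrib]
      refine Finset.sum_congr rfl fun i _ => ?_
      rw [smul_sub, mul_smul, mul_smul]
      simp only [Int.cast_smul_eq_zsmul]
    have h2 := Fintype.linearIndependent_iff.1 hli' _ h1 i.castSucc
    rw [Fin.snoc_castSucc] at h2
    rcases mul_eq_zero.1 h2 with h3 | h3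
    · exact h3
    · exact absurd (Int.cast_eq_zero.1 h3) hn3
  · intro i
    show T (n' (Fin.last 3) • l' i.castSucc - n' i.castSucc • l' (Fin.last 3)) = 0
    rw [map_sub, map_zsmul, map_zsmul, hT', hT', zsmul_eq_mul, zsmul_eq_mul]
    ring
  · show T (l' (Fin.last 3)) ≠ 0
    rw [hT']
    exact Int.cast_ne_zero.2 hn3

/-! ### the toroidal group -/

/-- the geometric data -/
structure Geo (A : AbVar) (lam : Fin A.g → ℂ) where
  Ψ : (ℂ × ℂ) ≃ₗ[ℂ] (Fin A.g → ℂ)
  herm : ∀ z w, hermForm A.H (Ψ z) (Ψ w) = ip z w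
  τ : Tor
  g : Fin 3 → (Fin A.g → ℂ)
  g_mem : ∀ i, g i ∈ A.Λ
  g_eq : ∀ i, Ψ (τ.γ i) = g i
  g_E : ∀ i, (hermForm A.H lam (g i)).im = 0
  m : Fin A.g → ℂ
  m_mem : m ∈ A.Λ
  m_E : (hermForm A.H lam m).im ≠ 0
  m_ht : ht (Ψ.symm m) ≠ 0

theorem ip_e1 (z : ℂ × ℂ) : ip z (1, 0) = z.1 := by
  unfold ip
  simp

theorem exists_geo (hA : HodgeScalar A) (hg : A.g = 2) (lam : Fin A.g → ℂ) (hl : lam ∈ A.Λ)
    (hl0 : lam ≠ 0) : Nonempty (Geo A lam) := by
  obtain ⟨Ψ, r, hr, hΨ1, hherm⟩ := exists_coord hg lam hl0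
  obtain ⟨g, m, hgm, hmm, hgli, hgE, hmE⟩ := exists_vec hg lam hl hl0
  have hfst : ∀ x, (Ψ.symm x).1 = r * hermForm A.H x lam := by
    intro x
    have h1 := hherm (Ψ.symm x) (1, 0)
    rw [Ψ.apply_symm_apply, hΨ1, Helper7.hermForm_smul_right, Complex.conj_ofReal, ip_e1] at h1
    exact h1.symm
  have him : ∀ x, (Ψ.symm x).1.im = -(r * (hermForm A.H lam x).im) := by
    intro x
    rw [hfst, Complex.im_ofReal_mul, hermForm_symm A.H A.H_herm lam x, Complex.conj_im]
    ring
  set a : Fin 3 → ℝ := fun i => (Ψ.symm (g i)).1.re with ha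
  set b : Fin 3 → ℂ := fun i => (Ψ.symm (g i)).2 with hb
  have hab : ∀ i, (((a i : ℂ), b i) : ℂ × ℂ) = Ψ.symm (g i) := by
    intro i
    refine Prod.ext ?_ rfl
    apply Complex.ext
    · rfl
    · show (0 : ℝ) = (Ψ.symm (g i)).1.im
      rw [him, hgE, mul_zero, neg_zero]
  let J : (ℝ × ℂ) →ₗ[ℝ] (Fin A.g → ℂ) :=
    { toFun := fun x => Ψ ((x.1 : ℂ), x.2)
      map_add' := fun x y => by
        rw [← map_add]
        congr 1
        simp
      map_smul' := fun c x => by
        have h1 : (((c • x).1 : ℝ) : ℂ) = (c : ℂ) * (x.1 : ℂ) := by simp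
        have h2 : (c • x).2 = (c : ℂ) * x.2 := by simp
        have h3 : ((((c • x).1 : ℝ) : ℂ), (c • x).2) = (c : ℂ) • (((x.1 : ℂ), x.2) : ℂ × ℂ) := by
          rw [h1, h2]
          rfl
        rw [h3, map_smul]
        funext i
        simp }
  have hJ : (fun i => J (a i, b i)) = g := by
    funext i
    show Ψ ((a i : ℂ), b i) = g i
    rw [hab, Ψ.apply_symm_apply]
  have hli : LinearIndependent ℝ (fun i => ((a i, b i) : ℝ × ℂ)) := by
    apply LinearIndependent.of_comp J
    have : (J ∘ fun i => ((a i, b i) : ℝ × ℂ)) = g := hJ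
    rw [this]
    exact hgli
  have hdense : Dense ((AddSubgroup.closure (Set.range a) : AddSubgroup ℝ) : Set ℝ) := by
    rcases AddSubgroup.dense_or_cyclic (AddSubgroup.closure (Set.range a)) with h | ⟨α, hα⟩
    · exact h
    exfalso
    have hk : ∀ i, ∃ k : ℤ, k • α = a i := by
      intro i
      have h1 : a i ∈ AddSubgroup.closure (Set.range a) := AddSubgroup.subset_closure ⟨i, rfl⟩
      rw [hα] at h1
      exact AddSubgroup.mem_closure_singleton.1 h1
    choose k hk using hk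
    obtain ⟨c, c', hc, hc', hc0, hcr⟩ := exists_rel k
    have hfst0 : ∀ c : Fin 3 → ℤ, ∑ i, c i * k i = 0 → (Ψ.symm (∑ i, c i • g i)).1 = 0 := by
      intro c hc
      rw [map_sum]
      have h1 : (∑ i, Ψ.symm (c i • g i)).1 = ∑ i, (c i : ℂ) * (a i : ℂ) := by
        rw [Prod.fst_sum]
        refine Finset.sum_congr rfl fun i _ => ?_
        rw [map_zsmul, ← hab]
        simp
      rw [h1]
      have h2 : ∑ i, (c i : ℂ) * (a i : ℂ) = (((∑ i, c i * k i : ℤ) : ℝ) * α : ℝ) := by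
        push_cast
        rw [Finset.sum_mul]
        refine Finset.sum_congr rfl fun i _ => ?_
        rw [← hk i, zsmul_eq_mul]
        push_cast
        ring
      rw [h2, hc]
      simp
    set v := ∑ i, c i • g i with hv
    set v' := ∑ i, c' i • g i with hv'
    have hvm : v ∈ A.Λ := A.Λ.sum_mem fun i _ => A.Λ.smul_mem _ (hgm i)
    have hvm' : v' ∈ A.Λ := A.Λ.sum_mem fun i _ => A.Λ.smul_mem _ (hgm i)
    have hv1 := hfst0 c hc
    have hv1' := hfst0 c' hc'
    have hreal : ∀ c : Fin 3 → ℤ, ∑ i, c i • g i = ∑ i, (c i : ℝ) • g i := fun c =>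
      Finset.sum_congr rfl fun i _ => (Int.cast_smul_eq_zsmul ℝ _ _).symm
    have hv0 : v ≠ 0 := by
      intro h0
      rw [hv, hreal] at h0
      have h1 := Fintype.linearIndependent_iff.1 hgli _ h0
      apply hc0
      funext i
      exact Int.cast_eq_zero.1 (h1 i)
    have hs : (Ψ.symm v).2 ≠ 0 := by
      intro h0
      apply hv0
      have h1 : Ψ.symm v = 0 := Prod.ext hv1 h0
      rw [← Ψ.apply_symm_apply v, h1, map_zero]
    set t : ℂ := (Ψ.symm v').2 / (Ψ.symm v).2 with ht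
    have htv : t • v = v' := by
      apply Ψ.symm.injective
      rw [map_smul]
      refine Prod.ext ?_ ?_
      · show t * (Ψ.symm v).1 = (Ψ.symm v').1
        rw [hv1, hv1', mul_zero]
      · show t * (Ψ.symm v).2 = (Ψ.symm v').2
        rw [ht, div_mul_cancel₀ _ hs]
    have htim : t.im ≠ 0 := by
      intro h0
      have h1 : t = (t.re : ℂ) := Complex.ext rfl (by rw [h0, Complex.ofReal_im])
      obtain ⟨i, hi⟩ := hcr t.re
      apply hi
      have h2 : ∑ i, ((c' i : ℝ) - t.re * c i) • g i = 0 := by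
        have h3 : v' = t.re • v := by
          rw [← htv]
          nth_rewrite 1 [h1]
          funext j
          simp
        rw [hv, hv', hreal, hreal, Finset.smul_sum] at h3
        simp only [sub_smul, mul_smul]
        rw [Finset.sum_sub_distrib, h3, sub_self]
      have h3 := Fintype.linearIndependent_iff.1 hgli _ h2 i
      linarith
    refine no_line hA (by rw [hg]) hvm hv0 htim ?_
    rw [htv]
    exact hvm'
  refine ⟨{
    Ψ := Ψ
    herm := hherm
    τ := ⟨a, b, hli, hdense⟩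
    g := g
    g_mem := hgm
    g_eq := ?_
    g_E := hgE
    m := m
    m_mem := hmm
    m_E := hmE
    m_ht := ?_ }⟩
  · intro i
    show Ψ ((a i : ℂ), b i) = g i
    rw [hab, Ψ.apply_symm_apply]
  · show (Ψ.symm m).1.im ≠ 0
    rw [him]
    exact neg_ne_zero.2 (mul_ne_zero hr.ne' hmE)

end Pool.Agent.KT
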