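import Pool.Agent.KT.Br2

/-!
KT, bridge 3: the system of functions (helper8).
-/

set_option autoImplicit false

open scoped ComplexConjugate BigOperators
open MvPolynomial Pool.Agent.GPC Pool.Agent.Helper7
open Pool.Agent.Helper8 (dd dds)

namespace Pool.Agent.KT

variable (A : AbVar)

/-- index set -/
abbrev IV : Type := A.Idx ⊕ Fin A.g

/-- the inclusion of the Lie algebra -/
noncomputable def emb : (Fin A.g → ℂ) →L[ℂ] A.H1 :=
  ContinuousLinearMap.pi fun j => Sum.elim
    (fun a => ContinuousLinearMap.proj (R := ℂ) (φ := fun _ : Fin A.g => ℂ) a) (fun _ => 0) j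

theorem emb_inl (z : Fin A.g → ℂ) (a : Fin A.g) : emb A z (.inl a) = z a := rfl

theorem emb_inr (z : Fin A.g → ℂ) (a : Fin A.g) : emb A z (.inr a) = 0 := rfl

theorem zz_emb (z : Fin A.g → ℂ) : A.zz (emb A z) = z := rfl

/-- numerators -/
noncomputable def uV : IV A → (Fin A.g → ℂ) → ℂ
  | .inl s => fun z => A.uu s (emb A z)
  | .inr a => fun z => z a * A.θ A.i0 z

/-- the denominator -/
noncomputable def hV (z : Fin A.g → ℂ) : ℂ := A.θ A.i0 z

/-- differential equations -/
noncomputable def PV (v : Fin A.g → ℂ) : IV A → MvPolynomial (IV A) ℂ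
  | .inl s => rename Sum.inl (A.PP (emb A v) s)
  | .inr a => C (v a)

theorem PV_alg (v : Fin A.g → ℂ) (hv : ∀ a, IsAlgebraic ℚ (v a)) (s : IV A) :
    AlgPoly (PV A v s) := by
  rcases s with s | a
  · refine AlgPoly.rename _ (A.PP_alg _ ?_ s)
    intro j
    rcases j with a | a
    · exact hv a
    · exact isAlgebraic_zero
  · exact AlgPoly.C (hv a)

theorem hV_diff : Differentiable ℂ (hV A) := fun z => (A.analyticAt_theta A.i0 z).differentiableAt

theorem uV_diff (s : IV A) : Differentiable ℂ (uV A s) := by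
  intro z
  rcases s with s | a
  · exact ((A.analyticAt_uu s (emb A z)).differentiableAt).comp z (emb A).differentiableAt
  · have h1 : DifferentiableAt ℂ (fun z : Fin A.g → ℂ => z a) z :=
      (ContinuousLinearMap.proj (R := ℂ) (φ := fun _ : Fin A.g => ℂ) a).differentiableAt
    exact h1.mul (hV_diff A z)

theorem dd_uV (v : Fin A.g → ℂ) (s : IV A) {z : Fin A.g → ℂ} (hz : hV A z ≠ 0) :
    dd v (fun z => uV A s z / hV A z) z = eval (fun s => uV A s z / hV A z) (PV A v s) := by
  rcases s with s | a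
  · have h1 : (fun z => uV A (.inl s) z / hV A z) = fun z => A.ff s (emb A z) := rfl
    have h2 : AnalyticAt ℂ (A.ff s) (emb A z) := by
      unfold AbVar.ff
      exact (A.analyticAt_uu s _).div (A.analyticAt_hh _) hz
    rw [h1, dd_comp (emb A) h2.differentiableAt, A.dd_ff (emb A v) s (w := emb A z) hz]
    show _ = eval _ (rename Sum.inl (A.PP (emb A v) s))
    rw [eval_rename]
    rfl
  · have hev : (fun z => uV A (.inr a) z / hV A z) =ᶠ[nhds z] fun z => z a := by
      have hne : ∀ᶠ y in nhds z, hV A y ≠ 0 := (hV_diff A).continuous.continuousAt.eventually_ne hz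
      filter_upwards [hne] with y hy
      show y a * hV A y / hV A y = y a
      rw [mul_div_cancel_right₀ _ hy]
    have h1 : dd v (fun z => uV A (.inr a) z / hV A z) z = dd v (fun z : Fin A.g → ℂ => z a) z := by
      unfold dd
      rw [hev.fderiv_eq]
    rw [h1]
    have h2 : HasFDerivAt (fun z : Fin A.g → ℂ => z a)
        (ContinuousLinearMap.proj (R := ℂ) (φ := fun _ : Fin A.g => ℂ) a) z :=
      (ContinuousLinearMap.proj (R := ℂ) (φ := fun _ : Fin A.g => ℂ) a).hasFDerivAt
    unfold dd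
    rw [h2.fderiv]
    show v a = eval _ (C (v a))
    rw [eval_C]

theorem uV_val (s : IV A) : IsAlgebraic ℚ (uV A s 0 / hV A 0) := by
  rcases s with s | a
  · have h1 : uV A (.inl s) 0 / hV A 0 = A.ff s 0 := by
      show A.uu s (emb A 0) / A.θ A.i0 0 = A.uu s 0 / A.θ A.i0 (A.zz 0)
      rw [map_zero, map_zero]
    rw [h1]
    exact A.ff_zero_isAlgebraic s
  · have h1 : uV A (.inr a) 0 / hV A 0 = 0 := by
      show (0 : ℂ) * _ / _ = 0
      rw [zero_mul, zero_div]
    rw [h1]
    exact isAlgebraic_zero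

theorem uV_theta {l : Fin A.g → ℂ} (hl : l ∈ A.Λ) (k : Fin (A.N + 1)) (z : Fin A.g → ℂ) :
    uV A (.inl (.inl k)) (z + l) = A.mulf l z * uV A (.inl (.inl k)) z := A.theta_add hl k z

theorem uV_zeta {l : Fin A.g → ℂ} (hl : l ∈ A.Λ) (a : Fin A.g) (z : Fin A.g → ℂ) :
    uV A (.inl (.inr a)) (z + l) =
      A.mulf l z * (uV A (.inl (.inr a)) z + A.eta l a * hV A z) := by
  show pd a (A.θ A.i0) (z + l) - (A.kap a + 0) * A.θ A.i0 (z + l) =
    A.mulf l z * (pd a (A.θ A.i0) z - (A.kap a + 0) * A.θ A.i0 z + A.eta l a * A.θ A.i0 z)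
  rw [A.theta_add hl, A.pd_add hl]
  ring

theorem uV_z {l : Fin A.g → ℂ} (hl : l ∈ A.Λ) (a : Fin A.g) (z : Fin A.g → ℂ) :
    uV A (.inr a) (z + l) = A.mulf l z * (uV A (.inr a) z + l a * hV A z) := by
  show (z a + l a) * A.θ A.i0 (z + l) = A.mulf l z * (z a * A.θ A.i0 z + l a * A.θ A.i0 z)
  rw [A.theta_add hl]
  ring

/-- coefficients of the linear combination -/
def qV (r : Fin A.g ⊕ Fin A.g → ℂ) : IV A → ℂ
  | .inl (.inl _) => 0
  | .inl (.inr a) => r (.inl a)
  | .inr a => -r (.inr a)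

theorem SV_add (r : Fin A.g ⊕ Fin A.g → ℂ) {l : Fin A.g → ℂ} (hl : l ∈ A.Λ) (z : Fin A.g → ℂ) :
    ∑ s, qV A r s * uV A s (z + l) = A.mulf l z * ((∑ s, qV A r s * uV A s z) +
      A.polForm r (A.period l) * hV A z) := by
  rw [Fintype.sum_sum_type, Fintype.sum_sum_type, Fintype.sum_sum_type, Fintype.sum_sum_type,
    A.polForm_apply]
  simp only [qV, zero_mul, Finset.sum_const_zero, zero_add]
  have h1 : ∀ a, r (.inl a) * uV A (.inl (.inr a)) (z + l) =
      A.mulf l z * (r (.inl a) * uV A (.inl (.inr a)) z) +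
        A.mulf l z * ((r (.inl a) * A.period l (.inr a)) * hV A z) := by
    intro a
    rw [uV_zeta A hl]
    show _ = A.mulf l z * _ + A.mulf l z * ((r (.inl a) * A.eta l a) * hV A z)
    ring
  have h2 : ∀ a, -r (.inr a) * uV A (.inr a) (z + l) =
      A.mulf l z * (-r (.inr a) * uV A (.inr a) z) +
        A.mulf l z * (-(A.period l (.inl a) * r (.inr a)) * hV A z) := by
    intro a
    rw [uV_z A hl]
    show _ = A.mulf l z * _ + A.mulf l z * (-(l a * r (.inr a)) * hV A z)
    ring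
  rw [Finset.sum_congr rfl fun a _ => h1 a, Finset.sum_congr rfl fun a _ => h2 a,
    Finset.sum_add_distrib, Finset.sum_add_distrib, ← Finset.mul_sum, ← Finset.mul_sum,
    ← Finset.mul_sum, ← Finset.mul_sum, ← Finset.sum_mul, ← Finset.sum_mul,
    Finset.sum_sub_distrib, Finset.sum_neg_distrib]
  ring

end Pool.Agent.KT
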