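import Pool.Agent.KT.Br3
import Pool.Agent.Helper8.SVArith

/-!
KT, bridge 4: two algebraically independent functions (helper8).
-/

set_option autoImplicit false

open scoped ComplexConjugate BigOperators Topology
open MvPolynomial Pool.Agent.GPC Pool.Agent.Helper7 Filter
open Pool.Agent.Helper8 (dd dds)

namespace Pool.Agent.KT

variable (A : AbVar)

/-- quotients of theta functions -/
noncomputable def fq (j : Fin (A.N + 1)) (z : Fin A.g → ℂ) : ℂ := A.θ j z / A.θ A.i0 z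

theorem fq_an (j : Fin (A.N + 1)) : AnalyticAt ℂ (fq A j) 0 :=
  (A.analyticAt_theta j 0).div (A.analyticAt_theta A.i0 0) A.i0_ne

theorem fq_der (j : Fin (A.N + 1)) (v : Fin A.g → ℂ) :
    A.θ A.i0 0 * fderiv ℂ (A.θ j) 0 v =
      A.θ j 0 * fderiv ℂ (A.θ A.i0) 0 v + A.θ A.i0 0 ^ 2 * fderiv ℂ (fq A j) 0 v := by
  have hev : A.θ j =ᶠ[𝓝 0] fun z => fq A j z * A.θ A.i0 z := by
    have hne : ∀ᶠ y in 𝓝 (0 : Fin A.g → ℂ), A.θ A.i0 y ≠ 0 :=
      (A.analyticAt_theta A.i0 0).continuousAt.eventually_ne A.i0_ne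
    filter_upwards [hne] with y hy
    unfold fq
    rw [div_mul_cancel₀ _ hy]
  have h1 : fderiv ℂ (A.θ j) 0 v = fderiv ℂ (fun z => fq A j z * A.θ A.i0 z) 0 v := by
    rw [hev.fderiv_eq]
  rw [h1, fderiv_fun_mul (fq_an A j).differentiableAt (A.analyticAt_theta A.i0 0).differentiableAt]
  simp only [_root_.add_apply, _root_.smul_apply, smul_eq_mul]
  have h2 : A.θ j 0 = fq A j 0 * A.θ A.i0 0 := by
    unfold fq
    rw [div_mul_cancel₀ _ A.i0_ne]
  rw [h2]
  ring

theorem fq_imm (v : Fin A.g → ℂ) (h : ∀ j, fderiv ℂ (fq A j) 0 v = 0) : v = 0 := by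
  apply A.embedding.immersive 0 v
  intro i j
  have e : ∀ k, ∑ a, v a * pd a (A.θ k) 0 = fderiv ℂ (A.θ k) 0 v := fun k =>
    (fderiv_eq_sum_pd _ _ _).symm
  rw [e, e]
  have hi := fq_der A i v
  have hj := fq_der A j v
  rw [h, mul_zero, add_zero] at hi hj
  have h0 := A.i0_ne
  apply mul_left_cancel₀ h0
  linear_combination A.θ i 0 * hj - A.θ j 0 * hi

theorem exists_two (hg : A.g = 2) : ∃ y : Fin 2 → Fin (A.N + 1),
    ∀ v : Fin A.g → ℂ, (∀ i, fderiv ℂ (fq A (y i)) 0 v = 0) → v = 0 := by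
  have hfin : Module.finrank ℂ (Fin A.g → ℂ) = 2 := by
    rw [Module.finrank_fintype_fun_eq_card, Fintype.card_fin, hg]
  have hnt : ∃ v : Fin A.g → ℂ, v ≠ 0 := by
    refine ⟨fun _ => 1, fun h => ?_⟩
    have := congrFun h ⟨0, by omega⟩
    exact one_ne_zero this
  obtain ⟨v₀, hv₀⟩ := hnt
  obtain ⟨j, hj⟩ : ∃ j, fderiv ℂ (fq A j) 0 v₀ ≠ 0 := by
    by_contra h
    push Not at h
    exact hv₀ (fq_imm A v₀ h)
  set L : (Fin A.g → ℂ) →ₗ[ℂ] ℂ := (fderiv ℂ (fq A j) 0).toLinearMap with hL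
  have hker : LinearMap.ker L ≠ ⊥ := by
    refine L.ker_ne_bot_of_finrank_lt ?_
    rw [hfin, Module.finrank_self]
    exact one_lt_two
  obtain ⟨v₁, hv₁, hv₁0⟩ := Submodule.exists_mem_ne_zero_of_ne_bot hker
  obtain ⟨k, hk⟩ : ∃ k, fderiv ℂ (fq A k) 0 v₁ ≠ 0 := by
    by_contra h
    push Not at h
    exact hv₁0 (fq_imm A v₁ h)
  have hrange : Module.finrank ℂ (LinearMap.range L) = 1 := by
    have h1 : LinearMap.range L = ⊤ := by
      rw [LinearMap.range_eq_top]
      refine LinearMap.surjective_of_ne_zero ?_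
      intro h0
      apply hj
      have : L v₀ = 0 := by rw [h0]; rfl
      exact this
    rw [h1, finrank_top, Module.finrank_self]
  have hker1 : Module.finrank ℂ (LinearMap.ker L) = 1 := by
    have h1 := L.finrank_range_add_finrank_ker
    rw [hfin, hrange] at h1
    omega
  refine ⟨![j, k], fun v hv => ?_⟩
  have hvj : fderiv ℂ (fq A j) 0 v = 0 := hv 0
  have hvk : fderiv ℂ (fq A k) 0 v = 0 := hv 1
  have hvm : v ∈ LinearMap.ker L := hvj
  have h2 : (⟨v₁, hv₁⟩ : LinearMap.ker L) ≠ 0 := by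
    intro h
    exact hv₁0 (congrArg Subtype.val h)
  obtain ⟨c, hc⟩ := (finrank_eq_one_iff_of_nonzero' _ h2).1 hker1 ⟨v, hvm⟩
  have hc' : c • v₁ = v := congrArg Subtype.val hc
  rw [← hc', map_smul, smul_eq_mul] at hvk
  rcases mul_eq_zero.1 hvk with h3 | h3
  · rw [← hc', h3, zero_smul]
  · exact absurd h3 hk

/-- **algebraic independence** -/
theorem exists_ind (hg : A.g = 2) : ∃ y : Fin 2 → Fin (A.N + 1), ∀ R : MvPolynomial (Fin 2) ℂ,
    (∀ z, hV A z ≠ 0 → eval (fun i => fq A (y i) z) R = 0) → R = 0 := by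
  obtain ⟨y, hy⟩ := exists_two A hg
  refine ⟨y, fun R hR => ?_⟩
  have hfin : Module.finrank ℂ (Fin A.g → ℂ) = Module.finrank ℂ (Fin 2 → ℂ) := by
    rw [Module.finrank_fintype_fun_eq_card, Module.finrank_fintype_fun_eq_card, Fintype.card_fin,
      Fintype.card_fin, hg]
  set G : (Fin A.g → ℂ) → (Fin 2 → ℂ) := fun z i => fq A (y i) z with hG
  set G' : (Fin A.g → ℂ) →L[ℂ] (Fin 2 → ℂ) :=
    ContinuousLinearMap.pi fun i => fderiv ℂ (fq A (y i)) 0 with hG'
  have hstrict : HasStrictFDerivAt G G' 0 := by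
    rw [hasStrictFDerivAt_pi']
    intro i
    exact (fq_an A (y i)).hasStrictFDerivAt
  have hinj : Function.Injective G'.toLinearMap := by
    rw [injective_iff_map_eq_zero]
    intro v hv
    exact hy v fun i => congrFun hv i
  have hsurj : Function.Surjective G'.toLinearMap :=
    (LinearMap.injective_iff_surjective_of_finrank_eq_finrank hfin).1 hinj
  have hmap := hstrict.map_nhds_eq_of_surj (LinearMap.range_eq_top.2 hsurj)
  have hne : ∀ᶠ z in 𝓝 (0 : Fin A.g → ℂ), hV A z ≠ 0 :=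
    (A.analyticAt_theta A.i0 0).continuousAt.eventually_ne A.i0_ne
  have hev : ∀ᶠ w in 𝓝 (G 0), eval w R = 0 := by
    rw [← hmap, eventually_map]
    filter_upwards [hne] with z hz
    exact hR z hz
  have han : AnalyticOnNhd ℂ (fun w : Fin 2 → ℂ => eval w R) Set.univ := by
    intro w _
    have h1 := Helper8.analyticAt_eval₂ (RingHom.id ℂ) (fun (i : Fin 2) (w : Fin 2 → ℂ) => w i)
      (z := w) (fun i => (ContinuousLinearMap.proj (R := ℂ) (φ := fun _ : Fin 2 => ℂ) i).analyticAt w)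
      R
    exact h1
  have h0 : AnalyticOnNhd ℂ (fun _ : Fin 2 → ℂ => (0 : ℂ)) Set.univ := fun w _ => analyticAt_const
  have h1 := han.eq_of_eventuallyEq h0 hev
  refine MvPolynomial.funext fun w => ?_
  rw [map_zero]
  exact congrFun h1 w

end Pool.Agent.KT
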