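import Pool.Agent.KT.Br0
import Pool.Agent.KT.Br4

/-!
KT, bridge 5: the data for a period vector (helper8).
-/

set_option autoImplicit false

open scoped ComplexConjugate BigOperators Topology
open MvPolynomial Pool.Agent.GPC Pool.Agent.Helper7 Filter
open Pool.Agent.Helper8 (dd dds)

namespace Pool.Agent.KT

variable {A : AbVar}

/-- the quadratic exponential factor -/
noncomputable def exq (A : AbVar) (v : Fin A.g → ℂ) : ℂ := Complex.exp (-(1 / 2 * bilForm A.q v v))

theorem exq_ne (v : Fin A.g → ℂ) : exq A v ≠ 0 := Complex.exp_ne_zero _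

theorem exq_mulf (z l : Fin A.g → ℂ) : exq A (z + l) * A.mulf l z =
    A.χ l * Complex.exp (2 * ((Real.pi / 2 : ℝ) : ℂ) *
      (hermForm A.H z l + hermForm A.H l l / 2)) * exq A z := by
  unfold exq AbVar.mulf
  have h1 : bilForm A.q (z + l) (z + l) = bilForm A.q z z + 2 * bilForm A.q z l +
      bilForm A.q l l := by
    have e1 : ∀ x y w : Fin A.g → ℂ, bilForm A.q (x + y) w = bilForm A.q x w + bilForm A.q y w := by
      intro x y w
      rw [Helper7.bilForm_symm A.q A.q_symm w (x + y), Helper7.bilForm_add_right,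
        Helper7.bilForm_symm A.q A.q_symm w x, Helper7.bilForm_symm A.q A.q_symm w y]
    rw [e1, Helper7.bilForm_add_right, Helper7.bilForm_add_right,
      Helper7.bilForm_symm A.q A.q_symm z l]
    ring
  rw [h1, ← A.eta_sum, ← mul_assoc, mul_comm (Complex.exp _) (A.χ l), mul_assoc, ← Complex.exp_add,
    mul_assoc, ← Complex.exp_add]
  congr 2
  push_cast
  ring

section data

variable {lam : Fin A.g → ℂ} (G : Geo A lam)

/-- the functions on `ℂ × ℂ` -/
noncomputable def uD (s : IV A) (z : ℂ × ℂ) : ℂ := exq A (G.Ψ z) * uV A s (G.Ψ z)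

/-- the denominator on `ℂ × ℂ` -/
noncomputable def hD (z : ℂ × ℂ) : ℂ := exq A (G.Ψ z) * hV A (G.Ψ z)

/-- the continuous linear coordinate map -/
noncomputable def ΨL : (ℂ × ℂ) →L[ℂ] (Fin A.g → ℂ) := LinearMap.toContinuousLinearMap G.Ψ.toLinearMap

theorem ΨL_apply (z : ℂ × ℂ) : ΨL G z = G.Ψ z := rfl

theorem exq_diff : Differentiable ℂ (exq A) := by
  unfold exq bilForm
  have h : ∀ a : Fin A.g, Differentiable ℂ fun v : Fin A.g → ℂ => v a := fun a =>
    (ContinuousLinearMap.proj (R := ℂ) (φ := fun _ : Fin A.g => ℂ) a).differentiable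
  refine Differentiable.cexp (Differentiable.neg (Differentiable.const_mul ?_ _))
  refine Differentiable.fun_sum fun a _ => Differentiable.fun_sum fun b _ => ?_
  exact ((h a).mul_const _).mul (h b)

theorem uD_diff (s : IV A) : Differentiable ℂ (uD G s) :=
  (exq_diff.comp (ΨL G).differentiable).mul ((uV_diff A s).comp (ΨL G).differentiable)

theorem hD_diff : Differentiable ℂ (hD G) :=
  (exq_diff.comp (ΨL G).differentiable).mul ((hV_diff A).comp (ΨL G).differentiable)

theorem hD_ne {z : ℂ × ℂ} (h : hD G z ≠ 0) : hV A (G.Ψ z) ≠ 0 := right_ne_zero_of_mul h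

theorem uD_div (s : IV A) (z : ℂ × ℂ) : uD G s z / hD G z = uV A s (G.Ψ z) / hV A (G.Ψ z) :=
  mul_div_mul_left _ _ (exq_ne _)

theorem dd_uD (w : ℂ × ℂ) (s : IV A) {z : ℂ × ℂ} (hz : hD G z ≠ 0) :
    dd w (fun z => uD G s z / hD G z) z =
      eval (fun s => uD G s z / hD G z) (PV A (G.Ψ w) s) := by
  have hz' := hD_ne G hz
  have h1 : (fun z => uD G s z / hD G z) = fun z => (fun v => uV A s v / hV A v) (ΨL G z) := by
    funext z
    exact uD_div G s z
  have h2 : DifferentiableAt ℂ (fun v => uV A s v / hV A v) (ΨL G z) := by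
    simp only [div_eq_mul_inv]
    exact (uV_diff A s _).mul ((hV_diff A _).inv hz')
  rw [h1, dd_comp (ΨL G) h2]
  have h3 := dd_uV A (ΨL G w) s (z := ΨL G z) hz'
  rw [h3]
  have h4 : (fun s => uV A s (ΨL G z) / hV A (ΨL G z)) = fun s => uD G s z / hD G z := by
    funext s
    exact (uD_div G s z).symm
  rw [h4]
  rfl

/-- the multiplier -/
noncomputable def mlt (l : Fin A.g → ℂ) (z : ℂ × ℂ) : ℂ :=
  A.χ l * Complex.exp (2 * ((Real.pi / 2 : ℝ) : ℂ) *
    (ip z (G.Ψ.symm l) + nsq (G.Ψ.symm l) / 2))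

theorem exq_add {l : Fin A.g → ℂ} (z : ℂ × ℂ) :
    exq A (G.Ψ (z + G.Ψ.symm l)) * A.mulf l (G.Ψ z) = mlt G l z * exq A (G.Ψ z) := by
  rw [map_add, G.Ψ.apply_symm_apply, exq_mulf]
  unfold mlt
  have h1 : hermForm A.H (G.Ψ z) l = ip z (G.Ψ.symm l) := by
    rw [← G.herm, G.Ψ.apply_symm_apply]
  have h2 : hermForm A.H l l = (nsq (G.Ψ.symm l) : ℂ) := by
    rw [← ip_self, ← G.herm, G.Ψ.apply_symm_apply]
  rw [h1, h2]

theorem mlt_norm {l : Fin A.g → ℂ} (hl : l ∈ A.Λ) (z : ℂ × ℂ) :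
    ‖mlt G l z‖ = Real.exp (Real.pi / 2 * (nsq (z + G.Ψ.symm l) - nsq z)) := by
  unfold mlt
  rw [norm_mul, A.χ_norm l hl, one_mul, Complex.norm_exp]
  congr 1
  set w := G.Ψ.symm l
  have h1 : nsq (z + w) = nsq z + 2 * (ip z w).re + nsq w := by
    have h2 : ∀ x y : ℂ, ‖x + y‖ ^ 2 = ‖x‖ ^ 2 + 2 * (x * conj y).re + ‖y‖ ^ 2 := by
      intro x y
      rw [← Complex.normSq_eq_norm_sq, ← Complex.normSq_eq_norm_sq, ← Complex.normSq_eq_norm_sq,
        Complex.normSq_add]
      ring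
    unfold nsq ip
    rw [Prod.fst_add, Prod.snd_add, h2, h2, Complex.add_re]
    ring
  rw [h1]
  have h3 : (2 * ((Real.pi / 2 : ℝ) : ℂ) * (ip z w + (nsq w : ℂ) / 2)).re =
      2 * (Real.pi / 2) * ((ip z w).re + nsq w / 2) := by
    have h4 : (2 * ((Real.pi / 2 : ℝ) : ℂ) * (ip z w + (nsq w : ℂ) / 2)) =
        ((2 * (Real.pi / 2) : ℝ) : ℂ) * (ip z w + ((nsq w / 2 : ℝ) : ℂ)) := by
      push_cast
      ring
    rw [h4, Complex.re_ofReal_mul, Complex.add_re, Complex.ofReal_re]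
  rw [h3]
  ring

theorem hD_add {l : Fin A.g → ℂ} (hl : l ∈ A.Λ) (z : ℂ × ℂ) :
    hD G (z + G.Ψ.symm l) = mlt G l z * hD G z := by
  unfold hD
  have h1 : hV A (G.Ψ (z + G.Ψ.symm l)) = A.mulf l (G.Ψ z) * hV A (G.Ψ z) := by
    rw [map_add, G.Ψ.apply_symm_apply]
    exact A.theta_add hl A.i0 _
  rw [h1, ← mul_assoc, exq_add, mul_assoc]

theorem uD_add {l : Fin A.g → ℂ} (hl : l ∈ A.Λ) (k : Fin (A.N + 1)) (z : ℂ × ℂ) :
    uD G (.inl (.inl k)) (z + G.Ψ.symm l) = mlt G l z * uD G (.inl (.inl k)) z := by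
  unfold uD
  have h1 : uV A (.inl (.inl k)) (G.Ψ (z + G.Ψ.symm l)) =
      A.mulf l (G.Ψ z) * uV A (.inl (.inl k)) (G.Ψ z) := by
    rw [map_add, G.Ψ.apply_symm_apply]
    exact uV_theta A hl k _
  rw [h1, ← mul_assoc, exq_add, mul_assoc]

theorem SD_add (r : Fin A.g ⊕ Fin A.g → ℂ) {l : Fin A.g → ℂ} (hl : l ∈ A.Λ) (z : ℂ × ℂ) :
    ∑ s, qV A r s * uD G s (z + G.Ψ.symm l) = mlt G l z * ((∑ s, qV A r s * uD G s z) +
      A.polForm r (A.period l) * hD G z) := by
  have h1 : ∀ z, ∑ s, qV A r s * uD G s z = exq A (G.Ψ z) * ∑ s, qV A r s * uV A s (G.Ψ z) := by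
    intro z
    rw [Finset.mul_sum]
    refine Finset.sum_congr rfl fun s _ => ?_
    unfold uD
    ring
  rw [h1, h1]
  have h2 : ∑ s, qV A r s * uV A s (G.Ψ (z + G.Ψ.symm l)) = A.mulf l (G.Ψ z) *
      ((∑ s, qV A r s * uV A s (G.Ψ z)) + A.polForm r (A.period l) * hV A (G.Ψ z)) := by
    rw [map_add, G.Ψ.apply_symm_apply]
    exact SV_add A r hl _
  rw [h2, ← mul_assoc, exq_add]
  unfold hD
  ring

end data

/-- the coefficient polynomials -/
noncomputable def qP (p : Fin A.g ⊕ Fin A.g → Polynomial ℂ) : IV A → Polynomial ℂ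
  | .inl (.inl _) => 0
  | .inl (.inr a) => p (.inl a)
  | .inr a => -p (.inr a)

theorem qP_eval (p : Fin A.g ⊕ Fin A.g → Polynomial ℂ) (x : ℂ) (s : IV A) :
    (qP p s).eval x = qV A (fun j => (p j).eval x) s := by
  rcases s with (k | a) | a
  · exact Polynomial.eval_zero
  · rfl
  · exact Polynomial.eval_neg _ _

theorem exists_dat (hA : HodgeScalar A) (hg : A.g = 2) {lam : Fin A.g → ℂ} (hl : lam ∈ A.Λ)
    (hl0 : lam ≠ 0) (x c : ℂ) (hx : Transcendental ℚ x) (p : Fin A.g ⊕ Fin A.g → Polynomial ℂ)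
    (hp : ∀ s n, IsAlgebraic ℚ ((p s).coeff n)) (hper : ∀ s, A.period lam s = c * (p s).eval x) :
    ∃ τ : Tor, Nonempty (Dat τ) := by
  obtain ⟨G⟩ := exists_geo hA hg lam hl hl0
  obtain ⟨y, hy⟩ := exists_ind A hg
  have hc : c ≠ 0 := by
    rintro rfl
    apply hl0
    funext a
    have h1 := hper (.inl a)
    rw [zero_mul] at h1
    exact h1
  set r : Fin A.g ⊕ Fin A.g → ℂ := fun j => (p j).eval x with hr
  have hrp : A.period lam = c • r := by
    funext s
    exact hper s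
  have hpol : ∀ l, A.polForm r (A.period l) =
      c⁻¹ * (2 * Real.pi * Complex.I * ((hermForm A.H lam l).im : ℂ)) := by
    intro l
    rw [← polForm_period, hrp, map_smul, LinearMap.smul_apply, smul_eq_mul, ← mul_assoc,
      inv_mul_cancel₀ hc, one_mul]
  have hγ : ∀ i, G.τ.γ i = G.Ψ.symm (G.g i) := by
    intro i
    rw [← G.g_eq i, G.Ψ.symm_apply_apply]
  have hml : ∀ i z, mlt G (G.g i) z = A.χ (G.g i) * G.τ.ml (Real.pi / 2) i z := by
    intro i z
    unfold mlt Tor.ml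
    rw [hγ]
  set ed : Fin 2 → Fin A.g := fun b => Fin.cast hg.symm b with hed
  refine ⟨G.τ, DatC.toDat {
    ι := IV A
    P := fun b => PV A (Pi.single (ed b) 1)
    P_alg := ?_
    dir := fun b => G.Ψ.symm (Pi.single (ed b) 1)
    dir_span := ?_
    h := hD G
    u := uD G
    h_zero := ?_
    u_ent := uD_diff G
    u_val := ?_
    u_der := ?_
    h_ent := hD_diff G
    cc := fun i => A.χ (G.g i)
    cc_norm := fun i => A.χ_norm _ (G.g_mem i)
    h_quasi := ?_
    y := fun i => .inl (.inl (y i))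
    y_quasi := ?_
    y_ind := ?_
    X := x
    X_tr := hx
    q := qP p
    q_alg := ?_
    S_quasi := ?_
    m := G.Ψ.symm G.m
    m_ht := G.m_ht
    β := A.polForm r (A.period G.m)
    β_ne := ?_
    e := mlt G G.m
    e_norm := mlt_norm G G.m_mem
    h_mul := hD_add G G.m_mem
    y_mul := fun i z => uD_add G G.m_mem (y i) z
    S_mul := ?_ }⟩
  · intro b s m
    refine (PV_alg A _ ?_ s) m
    intro a
    by_cases h : a = ed b
    · subst h
      rw [Pi.single_eq_same]
      exact isAlgebraic_one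
    · rw [Pi.single_eq_of_ne h]
      exact isAlgebraic_zero
  · intro v
    refine ⟨fun b => G.Ψ v (ed b), ?_⟩
    apply G.Ψ.injective
    rw [map_sum]
    funext a
    rw [Finset.sum_apply]
    obtain ⟨b, rfl⟩ : ∃ b, ed b = a := ⟨Fin.cast hg a, rfl⟩
    rw [Finset.sum_eq_single b]
    · rw [map_smul, G.Ψ.apply_symm_apply, Pi.smul_apply, Pi.single_eq_same, smul_eq_mul, mul_one]
    · intro b' _ hb'
      rw [map_smul, G.Ψ.apply_symm_apply, Pi.smul_apply, Pi.single_eq_of_ne, smul_zero]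
      intro h
      exact hb' (Fin.cast_injective hg.symm h).symm
    · intro h
      exact absurd (Finset.mem_univ _) h
  · refine mul_ne_zero (exq_ne _) ?_
    rw [map_zero]
    exact A.i0_ne
  · intro s
    rw [uD_div, map_zero]
    exact uV_val A s
  · intro z hz b s
    rw [dd_uD G _ s hz, G.Ψ.apply_symm_apply]
  · intro i z
    rw [hγ, hD_add G (G.g_mem i), hml]
  · intro j i z
    rw [hγ, uD_add G (G.g_mem i), hml]
  · intro R hR
    refine hy R fun v hv => ?_
    have h1 := hR (G.Ψ.symm v) (by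
      unfold hD
      rw [G.Ψ.apply_symm_apply]
      exact mul_ne_zero (exq_ne _) hv)
    have h2 : (fun i => uD G (.inl (.inl (y i))) (G.Ψ.symm v) / hD G (G.Ψ.symm v)) =
        fun i => fq A (y i) v := by
      funext i
      rw [uD_div, G.Ψ.apply_symm_apply]
      rfl
    rw [h2] at h1
    exact h1
  · intro s n
    rcases s with (k | a) | a
    · show IsAlgebraic ℚ ((0 : Polynomial ℂ).coeff n)
      rw [Polynomial.coeff_zero]
      exact isAlgebraic_zero
    · exact hp _ _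
    · show IsAlgebraic ℚ ((-p (.inr a)).coeff n)
      rw [Polynomial.coeff_neg]
      exact (hp _ _).neg
  · intro i z
    simp only [qP_eval]
    rw [hγ, SD_add G r (G.g_mem i), hpol, G.g_E i, hml, Complex.ofReal_zero, mul_zero, mul_zero,
      zero_mul, add_zero]
  · rw [hpol]
    exact mul_ne_zero (inv_ne_zero hc) (mul_ne_zero Complex.two_pi_I_ne_zero
      (Complex.ofReal_ne_zero.2 G.m_E))
  · intro z
    simp only [qP_eval]
    exact SD_add G r G.m_mem z

end Pool.Agent.KT
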