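import Mathlib

/-!
# KT: definitions for the sharp Schwarz lemma on a toroidal group of dimension two

Paper: KT_helper31.md.  The toroidal group is `ℂ² / Γ`, where `Γ` is a lattice in `ℝ × ℂ`; the height
of a point `z` is `Im z₁`.
-/

set_option autoImplicit false

open scoped BigOperators ComplexConjugate

namespace Pool.Agent.KT

/-- the square of the Hermitian norm -/
noncomputable def nsq (z : ℂ × ℂ) : ℝ := ‖z.1‖ ^ 2 + ‖z.2‖ ^ 2

/-- the Hermitian product -/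
noncomputable def ip (z w : ℂ × ℂ) : ℂ := z.1 * conj w.1 + z.2 * conj w.2

/-- the height -/
def ht (z : ℂ × ℂ) : ℝ := z.1.im

/-- multiplication by `i` -/
noncomputable def mi (v : ℂ × ℂ) : ℂ × ℂ := (Complex.I * v.1, Complex.I * v.2)

/-- the real basis -/
def e1 : ℂ × ℂ := (1, 0)
/-- the real basis -/
noncomputable def e2 : ℂ × ℂ := (Complex.I, 0)
/-- the real basis -/
def e3 : ℂ × ℂ := (0, 1)
/-- the real basis -/
noncomputable def e4 : ℂ × ℂ := (0, Complex.I)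

/-- directional derivative -/
noncomputable def d1 (f : ℂ × ℂ → ℝ) (v z : ℂ × ℂ) : ℝ := fderiv ℝ f z v

/-- second directional derivative -/
noncomputable def d2 (f : ℂ × ℂ → ℝ) (v w z : ℂ × ℂ) : ℝ := fderiv ℝ (fun z => fderiv ℝ f z v) z w

/-- four times the Levi form -/
noncomputable def lev (f : ℂ × ℂ → ℝ) (v z : ℂ × ℂ) : ℝ := d2 f v v z + d2 f (mi v) (mi v) z

/-- the polarised Monge-Ampere operator (sixteen times the mixed discriminant) -/
noncomputable def ma (f g : ℂ × ℂ → ℝ) (z : ℂ × ℂ) : ℝ :=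
  lev f e1 z * lev g e3 z + lev f e3 z * lev g e1 z
    - 2 * ((d2 f e1 e3 z + d2 f e2 e4 z) * (d2 g e1 e3 z + d2 g e2 e4 z)
      + (d2 f e1 e4 z - d2 f e2 e3 z) * (d2 g e1 e4 z - d2 g e2 e3 z))

/-- plurisubharmonic function of class `C^n` -/
def Psh (n : ℕ∞) (f : ℂ × ℂ → ℝ) : Prop := ContDiff ℝ n f ∧ ∀ z v, 0 ≤ lev f v z

/-- A lattice in `ℝ × ℂ`, given by a basis, such that the group generated by the first coordinates
is dense. -/
structure Tor where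
  /-- first coordinates -/
  a : Fin 3 → ℝ
  /-- second coordinates -/
  b : Fin 3 → ℂ
  li : LinearIndependent ℝ (fun i => ((a i, b i) : ℝ × ℂ))
  dense : Dense ((AddSubgroup.closure (Set.range a) : AddSubgroup ℝ) : Set ℝ)

namespace Tor

variable (τ : Tor)

/-- the basis of the lattice in `ℂ²` -/
noncomputable def γ (i : Fin 3) : ℂ × ℂ := ((τ.a i : ℂ), τ.b i)

/-- periodic functions -/
def Per {X : Type*} (f : ℂ × ℂ → X) : Prop := ∀ z i, f (z + τ.γ i) = f z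

/-- the point with real coordinates `x` and height `t` -/
noncomputable def pt (t : ℝ) (x : Fin 3 → ℝ) : ℂ × ℂ :=
  ((t : ℂ) * Complex.I, 0) + ∑ i, ((x i : ℂ) * (τ.γ i).1, (x i : ℂ) * (τ.γ i).2)

/-- the unit cube -/
def cube : Set (Fin 3 → ℝ) := Set.Icc (fun _ => -(1 / 2)) (fun _ => 1 / 2)

/-- the mean value over the real torus at the height `t` -/
noncomputable def avg (f : ℂ × ℂ → ℝ) (t : ℝ) : ℝ :=
  ∫ x in cube, f (τ.pt t x)

/-- the covolume of the lattice -/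
noncomputable def vol : ℝ :=
  |Matrix.det (fun i j : Fin 3 => ![τ.a i, (τ.b i).re, (τ.b i).im] j)|

/-- Entire functions with the factor of automorphy of `2 κ |z|²`. -/
structure Sec (κ : ℝ) (F : ℂ × ℂ → ℂ) : Prop where
  entire : Differentiable ℂ F
  quasi : ∀ i, ∃ c : ℂ, ‖c‖ = 1 ∧ ∀ z, F (z + τ.γ i) =
    c * Complex.exp (2 * κ * (ip z (τ.γ i) + nsq (τ.γ i) / 2)) * F z

end Tor

/-- the norm of a section -/
noncomputable def nrm (κ : ℝ) (F : ℂ × ℂ → ℂ) (z : ℂ × ℂ) : ℝ := ‖F z‖ * Real.exp (-(κ * nsq z))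

/-- vanishing of order at least `T` (real) at the origin -/
def VanO (T : ℝ) (F : ℂ × ℂ → ℂ) : Prop :=
  ∃ K : ℝ, 0 ≤ K ∧ ∀ᶠ z in nhdsWithin (0 : ℂ × ℂ) {0}ᶜ, ‖F z‖ ≤ K * nsq z ^ (T / 2)

/-- the smooth plurisubharmonic function of a family of holomorphic functions -/
noncomputable def lgs {ι : Type} [Fintype ι] (f : ι → ℂ × ℂ → ℂ) (κ η : ℝ) (z : ℂ × ℂ) : ℝ :=
  Real.log (∑ j, ‖f j z‖ ^ 2 + η ^ 2 * Real.exp (2 * κ * nsq z))

/-- `½ log (|F|² + η² e^{2 κ |z|²})` -/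
noncomputable def uu (F : ℂ × ℂ → ℂ) (κ η : ℝ) (z : ℂ × ℂ) : ℝ :=
  1 / 2 * Real.log (‖F z‖ ^ 2 + η ^ 2 * Real.exp (2 * κ * nsq z))

/-- the function `f + κ |z|²` -/
noncomputable def plus (κ : ℝ) (f : ℂ × ℂ → ℝ) (z : ℂ × ℂ) : ℝ := f z + κ * nsq z

/-- the mean value over the polydisc of radius `r` with centre `z` -/
noncomputable def pav (r : ℝ) (f : ℂ × ℂ → ℝ) (z : ℂ × ℂ) : ℝ :=
  1 / (Real.pi * r ^ 2) ^ 2 *
    ∫ a in Metric.closedBall (0 : ℂ) r ×ˢ Metric.closedBall (0 : ℂ) r, f (z + a)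

/-- the logarithmic pole -/
noncomputable def lpole (δ : ℝ) (z : ℂ × ℂ) : ℝ := 1 / 2 * Real.log (nsq z + δ ^ 2)

end Pool.Agent.KT
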