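import Pool.Agent.KT.Defs
import Pool.Agent.Helper8.SVMain

/-!
# KT: definitions of part B (the auxiliary function)
-/

set_option autoImplicit false

open scoped BigOperators
open MvPolynomial NumberField
open Pool.Agent.Helper8 (dd dds Van)

namespace Pool.Agent.KT

/-- the exponential part of the multiplier -/
noncomputable def Tor.ml (τ : Tor) (κ : ℝ) (i : Fin 3) (z : ℂ × ℂ) : ℂ :=
  Complex.exp (2 * κ * (ip z (τ.γ i) + nsq (τ.γ i) / 2))

/-- A system of meromorphic functions `u i / h` on `ℂ²`, with algebraic values at the origin, closed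
under two independent derivations over the integers of a number field; the entire functions `h`,
`u (y 0)`, `u (y 1)` and the linear combination `S = ∑ q_i(X) u_i`, `X` a transcendental number, have
the same multipliers for the lattice; `u (y 0) / h` and `u (y 1) / h` are algebraically independent;
`S / h` is changed by the non-zero constant `β` under the translation by `m`, while `h`, `u (y i)`
have the same multiplier for `m`. -/
structure Dat (τ : Tor) where
  /-- the number field -/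
  K : Type
  [fK : Field K]
  [nK : NumberField K]
  /-- its embedding -/
  em : K →+* ℂ
  /-- index set of the functions -/
  ι : Type
  [fι : Fintype ι]
  [dι : DecidableEq ι]
  /-- differential equations -/
  P : Fin 2 → ι → MvPolynomial ι (𝓞 K)
  /-- values at the origin -/
  val : ι → 𝓞 K
  /-- the directions of the derivations -/
  dir : Fin 2 → ℂ × ℂ
  dir_span : ∀ v : ℂ × ℂ, ∃ c : Fin 2 → ℂ, v = ∑ i, c i • dir i
  /-- the denominator -/
  h : ℂ × ℂ → ℂ
  /-- the numerators -/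
  u : ι → ℂ × ℂ → ℂ
  h_zero : h 0 ≠ 0
  u_ent : ∀ i, Differentiable ℂ (u i)
  u_val : ∀ i, u i 0 / h 0 = em (algebraMap (𝓞 K) K (val i))
  u_der : ∀ z, h z ≠ 0 → ∀ b i, dd (dir b) (fun z => u i z / h z) z =
    eval₂ (em.comp (algebraMap (𝓞 K) K)) (fun j => u j z / h z) (P b i)
  h_ent : Differentiable ℂ h
  /-- the semicharacter -/
  cc : Fin 3 → ℂ
  cc_norm : ∀ i, ‖cc i‖ = 1
  h_quasi : ∀ i z, h (z + τ.γ i) = cc i * τ.ml (Real.pi / 2) i z * h z
  /-- the two algebraically independent functions -/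
  y : Fin 2 → ι
  y_quasi : ∀ j i z, u (y j) (z + τ.γ i) = cc i * τ.ml (Real.pi / 2) i z * u (y j) z
  y_ind : ∀ R : MvPolynomial (Fin 2) ℂ,
    (∀ z, h z ≠ 0 → eval (fun i => u (y i) z / h z) R = 0) → R = 0
  /-- the transcendental number -/
  X : ℂ
  X_tr : Transcendental ℚ X
  /-- the coefficients of the periodic function -/
  q : ι → Polynomial (𝓞 K)
  S_quasi : ∀ i z, ∑ j, (q j).eval₂ (em.comp (algebraMap (𝓞 K) K)) X * u j (z + τ.γ i) =
    cc i * τ.ml (Real.pi / 2) i z *
      ∑ j, (q j).eval₂ (em.comp (algebraMap (𝓞 K) K)) X * u j z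
  /-- the fourth period -/
  m : ℂ × ℂ
  m_ht : ht m ≠ 0
  /-- the period of the quotient -/
  β : ℂ
  β_ne : β ≠ 0
  /-- the multiplier of the fourth period -/
  e : ℂ × ℂ → ℂ
  e_norm : ∀ z, ‖e z‖ = Real.exp (Real.pi / 2 * (nsq (z + m) - nsq z))
  h_mul : ∀ z, h (z + m) = e z * h z
  y_mul : ∀ i z, u (y i) (z + m) = e z * u (y i) z
  S_mul : ∀ z, ∑ i, (q i).eval₂ (em.comp (algebraMap (𝓞 K) K)) X * u i (z + m) =
    e z * ((∑ i, (q i).eval₂ (em.comp (algebraMap (𝓞 K) K)) X * u i z) + β * h z)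

/-- the parameter of the sections -/
noncomputable def kap (L k : ℕ) : ℝ := (2 * (L : ℝ) + (k : ℝ)) * (Real.pi / 2)

attribute [instance] Dat.fK Dat.nK Dat.fι Dat.dι

namespace Dat

variable {τ : Tor} (D : Dat τ)

/-- the embedding of the integers -/
noncomputable def ψ : 𝓞 D.K →+* ℂ := D.em.comp (algebraMap (𝓞 D.K) D.K)

/-- the numerator of the periodic function -/
noncomputable def S (z : ℂ × ℂ) : ℂ := ∑ i, (D.q i).eval₂ D.ψ D.X * D.u i z

/-- a strict bound for the degrees of the coefficients of the periodic function -/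
noncomputable def dq : ℕ := (∑ i, (D.q i).natDegree) + 1

/-- index set of the unknowns -/
abbrev Ix (L k : ℕ) : Type := (Fin 2 → Fin L) × Fin k × Fin (D.dq * k)

/-- the auxiliary function -/
noncomputable def Φ (L k : ℕ) (ξ : D.Ix L k → 𝓞 D.K) (z : ℂ × ℂ) : ℂ :=
  ∑ s : D.Ix L k, D.ψ (ξ s) * D.X ^ (s.2.2 : ℕ) *
    ((∏ i, D.u (D.y i) z ^ (s.1 i : ℕ)) * D.h z ^ (2 * L - ∑ i, (s.1 i : ℕ))) *
    (D.S z ^ (s.2.1 : ℕ) * D.h z ^ (k - (s.2.1 : ℕ)))

end Dat

/-- the translates by multiples of `m` are given by polynomials of degree `< k` -/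
def Sheet (m : ℂ × ℂ) (k : ℕ) (κ : ℝ) (F : ℂ × ℂ → ℂ) : Prop :=
  ∀ z, ∃ R : Polynomial ℂ, R.natDegree < k ∧ ∀ n : ℤ, nrm κ F (z + n • m) = ‖R.eval (n : ℂ)‖

end Pool.Agent.KT
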