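import Pool.Agent.KT.GelR

/-!
KT, part C: Gelfond's criterion (helper8).
-/

set_option autoImplicit false

open Polynomial Filter Topology

namespace Pool.Agent.KT

theorem vl_one (x : ℂ) : vl x 1 = 1 := by
  unfold vl cx
  rw [Polynomial.map_one, eval_one, norm_one]

theorem Cop.mul_right {A B D : ℤ[X]} (h : Cop A B) (h' : Cop A D) : Cop A (B * D) := by
  unfold Cop at *
  rw [Polynomial.map_mul]
  exact IsCoprime.mul_right h h'

theorem Cop.pow_left {A B : ℤ[X]} (h : Cop A B) (r : ℕ) : Cop (A ^ r) B := by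
  unfold Cop at *
  rw [Polynomial.map_pow]
  exact IsCoprime.pow_left h

theorem Cop.of_mul_left {A B D : ℤ[X]} (h : Cop (A * B) D) : Cop A D ∧ Cop B D := by
  unfold Cop at *
  rw [Polynomial.map_mul] at h
  exact ⟨h.of_mul_left_left, h.of_mul_left_right⟩

theorem cop_one (A : ℤ[X]) : Cop A 1 := by
  unfold Cop
  rw [Polynomial.map_one]
  exact isCoprime_one_right

/-- an irreducible polynomial of positive degree is coprime to the polynomials it does not divide -/
theorem cop_of_not_dvd {Q A : ℤ[X]} (hQ : Irreducible Q) (hd : 0 < Q.natDegree) (hA : ¬ Q ∣ A) :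
    Cop Q A := by
  have hp : Q.IsPrimitive := hQ.isPrimitive (by omega)
  have h1 : Irreducible (Q.map (Int.castRingHom ℚ)) :=
    (IsPrimitive.Int.irreducible_iff_irreducible_map_cast hp).1 hQ
  unfold Cop
  rw [h1.coprime_iff_not_dvd]
  intro h2
  exact hA ((IsPrimitive.Int.dvd_iff_map_cast_dvd_map_cast Q A hp).2 h2)

/-- irreducible factors of positive degree -/
theorem exists_irr_factor {A : ℤ[X]} (hd : 0 < A.natDegree) :
    ∃ Q : ℤ[X], Irreducible Q ∧ 0 < Q.natDegree ∧ Q ∣ A := by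
  have hpr : A.primPart.IsPrimitive := A.isPrimitive_primPart
  have hdeg : 0 < A.primPart.natDegree := by rw [natDegree_primPart]; exact hd
  have hnu : ¬ IsUnit A.primPart := by
    intro h
    have := natDegree_eq_zero_of_isUnit h
    omega
  have hne : A.primPart ≠ 0 := by
    intro h
    rw [h, natDegree_zero] at hdeg
    exact absurd hdeg (lt_irrefl _)
  obtain ⟨Q, hQ, hQd⟩ := WfDvdMonoid.exists_irreducible_factor hnu hne
  refine ⟨Q, hQ, ?_, hQd.trans A.primPart_dvd⟩
  by_contra h0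
  have h1 : Q.natDegree = 0 := by omega
  rw [eq_C_of_natDegree_eq_zero h1] at hQ hQd
  have h2 := (isPrimitive_iff_isUnit_of_C_dvd.1 hpr) _ hQd
  exact hQ.not_isUnit (isUnit_C.2 h2)

/-- the splitting lemma -/
theorem split_lemma (x : ℂ) (P : ℤ[X]) (hP : P ≠ 0) {d s B : ℝ} (hd1 : 1 ≤ d) (hds : d ≤ s)
    (hd : (P.natDegree : ℝ) ≤ d) (hs : MM P ≤ Real.exp s) (hB : 6 < B)
    (hx : vl x P ≤ Real.exp (-(B * (d * s)))) :
    ∃ (Q : ℤ[X]) (r : ℕ), Irreducible Q ∧ 0 < Q.natDegree ∧ 1 ≤ r ∧ Q ^ r ∣ P ∧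
      vl x (Q ^ r) ≤ Real.exp (-((B - 2) * (d * s))) := by
  have hs1 : 1 ≤ s := hd1.trans hds
  have hdsp : 1 ≤ d * s := one_le_mul_of_one_le_of_one_le hd1 hs1
  -- two coprime factors
  have key : ∀ A A' : ℤ[X], P = A * A' → Cop A A' →
      Real.exp (-(2 * (d * s))) ≤ vl x A ∨ Real.exp (-(2 * (d * s))) ≤ vl x A' := by
    intro A A' hAA hc
    have hA : A ≠ 0 := by
      rintro rfl
      rw [zero_mul] at hAA
      exact hP hAA
    have hA' : A' ≠ 0 := by
      rintro rfl
      rw [mul_zero] at hAA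
      exact hP hAA
    have h1 : (A.natDegree : ℝ) + A'.natDegree ≤ d := by
      rw [hAA, natDegree_mul hA hA', Nat.cast_add] at hd
      exact hd
    have h2 : MM A * MM A' ≤ Real.exp s := by
      rw [← MM_mul, ← hAA]
      exact hs
    have h3 := MM_one_le hA
    have h4 := MM_one_le hA'
    have h5 : MM A ≤ Real.exp s := (le_mul_of_one_le_right (by linarith) h4).trans h2
    have h6 : MM A' ≤ Real.exp s := (le_mul_of_one_le_left (by linarith) h3).trans h2
    have h7 := res_exp x hA hA' hc le_rfl le_rfl h5 h6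
    have h8 : (A.natDegree : ℝ) * A'.natDegree + s * A'.natDegree + s * A.natDegree ≤
        2 * (d * s) := by
      have e0 : (0 : ℝ) ≤ A.natDegree := Nat.cast_nonneg _
      have e1 : (0 : ℝ) ≤ A'.natDegree := Nat.cast_nonneg _
      have e2 : (A.natDegree : ℝ) * A'.natDegree ≤ d * s := by
        refine mul_le_mul (by linarith) (by linarith) e1 (by linarith)
      nlinarith
    have h9 : 1 ≤ Real.exp (2 * (d * s)) * max (vl x A) (vl x A') := by
      refine h7.trans (mul_le_mul_of_nonneg_right (Real.exp_le_exp.2 h8) ?_)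
      exact (vl_nonneg x A).trans (le_max_left _ _)
    have h10 : Real.exp (-(2 * (d * s))) ≤ max (vl x A) (vl x A') := by
      rw [Real.exp_neg, inv_le_iff_one_le_mul₀ (Real.exp_pos _), mul_comm]
      exact h9
    exact le_max_iff.1 h10
  have div : ∀ A A' : ℤ[X], P = A * A' → Real.exp (-(2 * (d * s))) ≤ vl x A' →
      vl x A ≤ Real.exp (-((B - 2) * (d * s))) := by
    intro A A' hAA h1
    have h2 : vl x A * vl x A' ≤ Real.exp (-(B * (d * s))) := by
      rw [← vl_mul, ← hAA]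
      exact hx
    have h3 : vl x A * Real.exp (-(2 * (d * s))) ≤ Real.exp (-(B * (d * s))) :=
      (mul_le_mul_of_nonneg_left h1 (vl_nonneg x A)).trans h2
    have h4 : Real.exp (-((B - 2) * (d * s))) * Real.exp (-(2 * (d * s))) =
        Real.exp (-(B * (d * s))) := by
      rw [← Real.exp_add]
      congr 1
      ring
    rw [← h4] at h3
    exact le_of_mul_le_mul_right h3 (Real.exp_pos _)
  have main : ∀ n : ℕ, ∀ A A' : ℤ[X], A.natDegree = n → P = A * A' → Cop A A' →
      vl x A ≤ Real.exp (-((B - 2) * (d * s))) →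
      ∃ (Q : ℤ[X]) (r : ℕ), Irreducible Q ∧ 0 < Q.natDegree ∧ 1 ≤ r ∧ Q ^ r ∣ P ∧
        vl x (Q ^ r) ≤ Real.exp (-((B - 2) * (d * s))) := by
    intro n
    induction n using Nat.strong_induction_on with
    | _ n ih =>
      intro A A' hn hAA hc hv
      have hA : A ≠ 0 := by
        rintro rfl
        rw [zero_mul] at hAA
        exact hP hAA
      have hv1 : vl x A < 1 := by
        refine hv.trans_lt (Real.exp_lt_one_iff.2 ?_)
        nlinarith
      have hdeg : 0 < A.natDegree := by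
        by_contra h0
        have h1 : A.natDegree = 0 := by omega
        rw [eq_C_of_natDegree_eq_zero h1] at hA hv1
        exact absurd hv1 (not_lt.2 (vl_const x _ (fun h2 => hA (by rw [h2, C_0]))))
      obtain ⟨Q, hQ, hQd, hQA⟩ := exists_irr_factor hdeg
      have hfin : FiniteMultiplicity Q A := FiniteMultiplicity.of_not_isUnit hQ.not_isUnit hA
      obtain ⟨A₂, hA₂, hnd⟩ := hfin.exists_eq_pow_mul_and_not_dvd
      set r := multiplicity Q A with hr
      have hr1 : 1 ≤ r := by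
        by_contra h0
        have h1 : r = 0 := by omega
        rw [h1, pow_zero, one_mul] at hA₂
        exact hnd (hA₂ ▸ hQA)
      have hA₂0 : A₂ ≠ 0 := by
        rintro rfl
        rw [mul_zero] at hA₂
        exact hA hA₂
      have hQ0 : Q ^ r ≠ 0 := pow_ne_zero _ hQ.ne_zero
      have hc12 : Cop (Q ^ r) A₂ := (cop_of_not_dvd hQ hQd hnd).pow_left r
      rw [hA₂] at hc
      obtain ⟨hc1, hc2⟩ := hc.of_mul_left
      have hs1' : P = Q ^ r * (A₂ * A') := by rw [hAA]; nth_rewrite 1 [hA₂]; ring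
      have hs2' : P = A₂ * (Q ^ r * A') := by rw [hs1']; ring
      by_cases hcase : Real.exp (-(2 * (d * s))) ≤ vl x (A₂ * A')
      · exact ⟨Q, r, hQ, hQd, hr1, ⟨_, hs1'⟩, div _ _ hs1' hcase⟩
      have hQv : Real.exp (-(2 * (d * s))) ≤ vl x (Q ^ r) :=
        (key _ _ hs1' (hc12.mul_right hc1)).resolve_right hcase
      by_cases hcase2 : Real.exp (-(2 * (d * s))) ≤ vl x (Q ^ r * A')
      · refine ih A₂.natDegree ?_ A₂ (Q ^ r * A') rfl hs2' (hc12.symm.mul_right hc2)
          (div _ _ hs2' hcase2)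
        rw [← hn]
        nth_rewrite 1 [hA₂]
        rw [natDegree_mul hQ0 hA₂0, natDegree_pow]
        have : 0 < r * Q.natDegree := Nat.mul_pos hr1 hQd
        omega
      · have hA₂v : Real.exp (-(2 * (d * s))) ≤ vl x A₂ :=
          (key _ _ hs2' (hc12.symm.mul_right hc2)).resolve_right hcase2
        exfalso
        have h1 : Real.exp (-(2 * (d * s))) * Real.exp (-(2 * (d * s))) ≤ vl x A := by
          nth_rewrite 1 [hA₂]
          rw [vl_mul]
          exact mul_le_mul hQv hA₂v (Real.exp_pos _).le (vl_nonneg _ _)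
        rw [← Real.exp_add] at h1
        have h2 := Real.exp_le_exp.1 (h1.trans hv)
        nlinarith
  refine main P.natDegree P 1 rfl (mul_one P).symm (cop_one P) (hx.trans ?_)
  refine Real.exp_le_exp.2 ?_
  nlinarith

theorem MM_dvd {A P : ℤ[X]} (hP : P ≠ 0) (h : A ∣ P) : MM A ≤ MM P := by
  obtain ⟨A', rfl⟩ := h
  rw [MM_mul]
  have h1 : A ≠ 0 := left_ne_zero_of_mul hP
  have h2 : A' ≠ 0 := right_ne_zero_of_mul hP
  exact le_mul_of_one_le_right (zero_le_one.trans (MM_one_le h1)) (MM_one_le h2)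

theorem vl_assoc (x : ℂ) {Q Q' : ℤ[X]} (h : Associated Q Q') : vl x Q = vl x Q' := by
  obtain ⟨u, rfl⟩ := h
  rw [vl_mul]
  obtain ⟨r, hr, hu⟩ := Polynomial.isUnit_iff.1 u.isUnit
  rw [← hu]
  have h1 : vl x (C r) = 1 := by
    unfold vl cx
    rw [map_C, eval_C, eq_intCast, Complex.norm_intCast]
    rcases Int.isUnit_iff.1 hr with rfl | rfl <;> simp
  rw [h1, mul_one]

/-- Gelfond's criterion for integral polynomials -/
theorem gel_int (x : ℂ) (hx : Transcendental ℤ x) (d s B : ℕ → ℝ) (a : ℝ) (hd1 : ∀ N, 1 ≤ d N)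
    (hdm : Monotone d) (hsm : Monotone s) (hds : ∀ N, d N ≤ s N) (hda : ∀ N, d (N + 1) ≤ a * d N)
    (hsa : ∀ N, s (N + 1) ≤ a * s N) (hs : Tendsto s atTop atTop) (hB : Tendsto B atTop atTop)
    (P : ℕ → ℤ[X]) (N₀ : ℕ) (hP0 : ∀ N, N₀ ≤ N → P N ≠ 0)
    (hPd : ∀ N, N₀ ≤ N → ((P N).natDegree : ℝ) ≤ d N)
    (hPs : ∀ N, N₀ ≤ N → MM (P N) ≤ Real.exp (s N))
    (hPx : ∀ N, N₀ ≤ N → vl x (P N) ≤ Real.exp (-(B N * (d N * s N)))) : False := by
  have ha1 : 1 ≤ a := by
    have h1 := (hdm (Nat.le_succ 0)).trans (hda 0)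
    have h2 := hd1 0
    nlinarith
  obtain ⟨N₁, hN₁⟩ := (hB.eventually_ge_atTop (3 * a + 7)).exists_forall_of_atTop
  set N₂ := max N₀ N₁ with hN₂
  have hB2 : ∀ N, N₂ ≤ N → 3 * a + 7 ≤ B N := fun N hN => hN₁ N ((le_max_right _ _).trans hN)
  have hge : ∀ N, N₂ ≤ N → N₀ ≤ N := fun N hN => (le_max_left _ _).trans hN
  have hex : ∀ N, N₂ ≤ N → ∃ (Q : ℤ[X]) (r : ℕ), Irreducible Q ∧ 0 < Q.natDegree ∧ 1 ≤ r ∧
      Q ^ r ∣ P N ∧ vl x (Q ^ r) ≤ Real.exp (-((B N - 2) * (d N * s N))) := fun N hN =>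
    split_lemma x (P N) (hP0 N (hge N hN)) (hd1 N) (hds N) (hPd N (hge N hN)) (hPs N (hge N hN))
      (by linarith [hB2 N hN]) (hPx N (hge N hN))
  choose! Q r hQ hQd hr hQP hQx using hex
  have hne : ∀ N, N₂ ≤ N → Q N ^ r N ≠ 0 := fun N hN => pow_ne_zero _ (hQ N hN).ne_zero
  have hdeg : ∀ N, N₂ ≤ N → ((Q N ^ r N).natDegree : ℝ) ≤ d N := fun N hN =>
    (Nat.cast_le.2 (natDegree_le_of_dvd (hQP N hN) (hP0 N (hge N hN)))).trans (hPd N (hge N hN))
  have hM : ∀ N, N₂ ≤ N → MM (Q N ^ r N) ≤ Real.exp (s N) := fun N hN =>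
    (MM_dvd (hP0 N (hge N hN)) (hQP N hN)).trans (hPs N (hge N hN))
  have hsucc : ∀ N, N₂ ≤ N → Associated (Q N) (Q (N + 1)) := by
    intro N hN
    have hN' : N₂ ≤ N + 1 := hN.trans (Nat.le_succ N)
    by_contra hna
    have hnd : ¬ Q N ∣ Q (N + 1) := by
      intro h
      exact hna ((hQ N hN).associated_of_dvd (hQ (N + 1) hN') h)
    have hc : Cop (Q N ^ r N) (Q (N + 1) ^ r (N + 1)) :=
      (((cop_of_not_dvd (hQ N hN) (hQd N hN) hnd).pow_left (r N)).symm.pow_left (r (N + 1))).symm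
    have h1 := res_exp x (hne N hN) (hne _ hN') hc (hdeg N hN) (hdeg _ hN') (hM N hN) (hM _ hN')
    have hd0 : 1 ≤ d N := hd1 N
    have hs0 : 1 ≤ s N := hd0.trans (hds N)
    have hdd := hdm (Nat.le_succ N)
    have hss := hsm (Nat.le_succ N)
    have hdap := hda N
    have hsap := hsa N
    have hdsN := hds N
    have hp1 : 1 ≤ d N * s N := one_le_mul_of_one_le_of_one_le hd0 hs0
    have h2 : d N * d (N + 1) + s N * d (N + 1) + s (N + 1) * d N ≤ 3 * a * (d N * s N) := by
      have e1 : d N * d (N + 1) ≤ s N * (a * d N) :=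
        mul_le_mul hdsN hdap (by linarith) (by linarith)
      have e2 : s N * d (N + 1) ≤ s N * (a * d N) := mul_le_mul_of_nonneg_left hdap (by linarith)
      have e3 : s (N + 1) * d N ≤ a * s N * d N := mul_le_mul_of_nonneg_right hsap (by linarith)
      nlinarith
    have h3 : max (vl x (Q N ^ r N)) (vl x (Q (N + 1) ^ r (N + 1))) ≤
        Real.exp (-((3 * a + 5) * (d N * s N))) := by
      refine max_le ((hQx N hN).trans (Real.exp_le_exp.2 ?_))
        ((hQx (N + 1) hN').trans (Real.exp_le_exp.2 ?_))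
      · have := hB2 N hN
        have e1 : (3 * a + 5) * (d N * s N) ≤ (B N - 2) * (d N * s N) :=
          mul_le_mul_of_nonneg_right (by linarith) (by linarith)
        linarith
      · have := hB2 (N + 1) hN'
        have e0 : d N * s N ≤ d (N + 1) * s (N + 1) :=
          mul_le_mul hdd hss (by linarith) (by linarith)
        have e1 : (3 * a + 5) * (d N * s N) ≤ (B (N + 1) - 2) * (d (N + 1) * s (N + 1)) :=
          mul_le_mul (by linarith) e0 (by linarith) (by linarith)
        linarith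
    have h4 : 1 ≤ Real.exp (3 * a * (d N * s N)) * Real.exp (-((3 * a + 5) * (d N * s N))) := by
      refine h1.trans (mul_le_mul (Real.exp_le_exp.2 h2) h3 ?_ (Real.exp_pos _).le)
      exact (vl_nonneg x _).trans (le_max_left _ _)
    rw [← Real.exp_add] at h4
    have h5 : 3 * a * (d N * s N) + -((3 * a + 5) * (d N * s N)) < 0 := by nlinarith
    exact absurd h4 (not_le.2 (Real.exp_lt_one_iff.2 h5))
  have hass : ∀ k, vl x (Q (N₂ + k)) = vl x (Q N₂) := by
    intro k
    induction k with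
    | zero => rfl
    | succ k ih =>
      rw [← ih, ← add_assoc]
      exact (vl_assoc x (hsucc (N₂ + k) (Nat.le_add_right _ _))).symm
  have hq0 : 0 < vl x (Q N₂) := by
    refine lt_of_le_of_ne (vl_nonneg x _) (Ne.symm ?_)
    intro h0
    unfold vl cx at h0
    rw [norm_eq_zero, eval_map] at h0
    apply hx
    refine ⟨Q N₂, (hQ N₂ le_rfl).ne_zero, ?_⟩
    rw [aeval_def]
    exact h0
  set q := vl x (Q N₂) with hq
  -- the final contradiction
  have hfin : ∀ N, N₂ ≤ N → s N ≤ -Real.log q := by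
    intro N hN
    obtain ⟨k, rfl⟩ := Nat.exists_eq_add_of_le hN
    have h1 := hQx (N₂ + k) hN
    rw [vl_pow, hass k] at h1
    have h2 := Real.log_le_log (pow_pos hq0 _) h1
    rw [Real.log_pow, Real.log_exp] at h2
    have hd0 : 1 ≤ d (N₂ + k) := hd1 _
    have hs0 : 1 ≤ s (N₂ + k) := hd0.trans (hds _)
    have hBk := hB2 (N₂ + k) hN
    have h3 : (r (N₂ + k) : ℝ) ≤ d (N₂ + k) := by
      refine le_trans ?_ (hdeg _ hN)
      rw [natDegree_pow]
      exact_mod_cast Nat.le_mul_of_pos_right _ (hQd _ hN)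
    have h4 : 1 ≤ (r (N₂ + k) : ℝ) := by exact_mod_cast hr _ hN
    have h5 : (B (N₂ + k) - 2) * (d (N₂ + k) * s (N₂ + k)) ≥ d (N₂ + k) * s (N₂ + k) := by
      have : 0 < d (N₂ + k) * s (N₂ + k) := by positivity
      nlinarith
    have h6 : (r (N₂ + k) : ℝ) * Real.log q ≤ -(d (N₂ + k) * s (N₂ + k)) := by linarith
    have h7 : d (N₂ + k) * s (N₂ + k) ≤ d (N₂ + k) * (-Real.log q) := by
      have hl : Real.log q < 0 := by
        by_contra h0
        push Not at h0
        have : 0 ≤ (r (N₂ + k) : ℝ) * Real.log q := mul_nonneg (by linarith) h0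
        have : 0 < d (N₂ + k) * s (N₂ + k) := by positivity
        linarith
      nlinarith
    exact le_of_mul_le_mul_left h7 (by linarith)
  obtain ⟨N₃, hN₃⟩ := (hs.eventually_gt_atTop (-Real.log q)).exists_forall_of_atTop
  have h1 := hfin (max N₂ N₃) (le_max_left _ _)
  have h2 := hN₃ (max N₂ N₃) (le_max_right _ _)
  linarith

end Pool.Agent.KT
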