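import Pool.Agent.KT.Gel

/-!
KT, part C: Gelfond's criterion for polynomials over the integers of a number field (helper8).
-/

set_option autoImplicit false

open Polynomial Filter Topology NumberField

namespace Pool.Agent.KT

section norm

variable {L : Type} [Field L] [NumberField L]

/-- the product of the conjugates -/
noncomputable def cjp (P : (𝓞 L)[X]) : L[X] :=
  ∏ g : L ≃ₐ[ℚ] L, (P.map (algebraMap (𝓞 L) L)).map (g : L →+* L)

theorem cjp_int [IsGalois ℚ L] (P : (𝓞 L)[X]) : ∃ R : ℤ[X], R.map (algebraMap ℤ L) = cjp P := by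
  have h1 : ∀ (g : L ≃ₐ[ℚ] L), (cjp P).map (g : L →+* L) = cjp P := by
    intro g
    unfold cjp
    rw [Polynomial.map_prod]
    refine Fintype.prod_equiv (Equiv.mulLeft g) _ _ fun h => ?_
    rw [Polynomial.map_map]
    rfl
  have h2 : ∀ n, IsIntegral ℤ ((cjp P).coeff n) := by
    have h3 : cjp P ∈ Polynomial.lifts (algebraMap (𝓞 L) L) := by
      unfold cjp
      refine Subsemiring.prod_mem _ fun g _ => ?_
      rw [Polynomial.lifts_iff_coeff_lifts]
      intro n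
      rw [coeff_map, coeff_map]
      have h4 : IsIntegral ℤ ((g : L →+* L) (algebraMap (𝓞 L) L (P.coeff n))) :=
        (RingOfIntegers.isIntegral_coe (P.coeff n)).map (g : L →+* L).toIntAlgHom
      exact ⟨⟨_, h4⟩, rfl⟩
    intro n
    obtain ⟨y, hy⟩ := (Polynomial.lifts_iff_coeff_lifts _).1 h3 n
    rw [← hy]
    exact RingOfIntegers.isIntegral_coe y
  have h5 : cjp P ∈ Polynomial.lifts (algebraMap ℤ L) := by
    rw [Polynomial.lifts_iff_coeff_lifts]
    intro n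
    have h6 : (cjp P).coeff n ∈ (⊥ : IntermediateField ℚ L) := by
      rw [IsGalois.mem_bot_iff_fixed]
      intro g
      have h7 := congrArg (fun q : L[X] => q.coeff n) (h1 g)
      simp only [coeff_map] at h7
      exact h7
    obtain ⟨q, hq⟩ := IntermediateField.mem_bot.1 h6
    have h8 : IsIntegral ℤ q := by
      have h9 := h2 n
      rw [← hq] at h9
      exact (isIntegral_algebraMap_iff (algebraMap ℚ L).injective).1 h9
    obtain ⟨z, hz⟩ := IsIntegrallyClosed.isIntegral_iff.1 h8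
    refine ⟨z, ?_⟩
    rw [← hq, ← hz, ← IsScalarTower.algebraMap_apply ℤ ℚ L z]
  obtain ⟨R, hR⟩ := h5
  exact ⟨R, hR⟩

/-- the conjugate of `P` in `ℂ[X]` -/
noncomputable def cjg (φ : L →+* ℂ) (P : (𝓞 L)[X]) (g : L ≃ₐ[ℚ] L) : ℂ[X] :=
  P.map ((φ.comp (g : L →+* L)).comp (algebraMap (𝓞 L) L))

theorem cx_cjp (φ : L →+* ℂ) (P : (𝓞 L)[X]) {R : ℤ[X]} (hR : R.map (algebraMap ℤ L) = cjp P) :
    cx R = ∏ g : L ≃ₐ[ℚ] L, cjg φ P g := by
  have h1 : cx R = (R.map (algebraMap ℤ L)).map φ := by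
    rw [Polynomial.map_map, show φ.comp (algebraMap ℤ L) = Int.castRingHom ℂ from RingHom.ext_int _ _]
  rw [h1, hR]
  unfold cjp cjg
  rw [Polynomial.map_prod]
  refine Finset.prod_congr rfl fun g _ => ?_
  rw [Polynomial.map_map, Polynomial.map_map]

theorem mahler_le_exp (f : ℂ[X]) {d s : ℝ} (hds : d ≤ s) (hd : (f.natDegree : ℝ) ≤ d)
    (hs : ∀ i, ‖f.coeff i‖ ≤ Real.exp s) : f.mahlerMeasure ≤ Real.exp (2 * s) := by
  refine (mahlerMeasure_le_sum_norm_coeff f).trans ?_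
  rw [Polynomial.sum_over_range _ (fun n => norm_zero)]
  calc ∑ a ∈ Finset.range (f.natDegree + 1), ‖f.coeff a‖
      ≤ ∑ _a ∈ Finset.range (f.natDegree + 1), Real.exp s := Finset.sum_le_sum fun i _ => hs i
    _ = (f.natDegree + 1) * Real.exp s := by
        rw [Finset.sum_const, Finset.card_range, nsmul_eq_mul]
        push_cast
        ring
    _ ≤ Real.exp s * Real.exp s := by
        refine mul_le_mul_of_nonneg_right ?_ (Real.exp_pos _).le
        exact (Real.add_one_le_exp _).trans (Real.exp_le_exp.2 (hd.trans hds))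
    _ = Real.exp (2 * s) := by rw [← Real.exp_add]; congr 1; ring

theorem eval_le_exp (f : ℂ[X]) (x : ℂ) {d s : ℝ} (hds : d ≤ s)
    (hd : (f.natDegree : ℝ) ≤ d) (hs : ∀ i, ‖f.coeff i‖ ≤ Real.exp s) :
    ‖f.eval x‖ ≤ Real.exp ((3 + Real.log (max 1 ‖x‖)) * s) := by
  have h1 := norm_eval_le_mahler f x
  have h2 := mahler_le_exp f hds hd hs
  have hX1 : (1 : ℝ) ≤ max 1 ‖x‖ := le_max_left _ _
  have hX0 : 0 < max 1 ‖x‖ := by linarith
  have hl : 0 ≤ Real.log (max 1 ‖x‖) := Real.log_nonneg hX1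
  have h3 : (2 : ℝ) ^ f.natDegree ≤ Real.exp s := by
    calc (2 : ℝ) ^ f.natDegree ≤ Real.exp 1 ^ f.natDegree := by
          refine pow_le_pow_left₀ zero_le_two ?_ _
          have := Real.add_one_le_exp 1
          linarith
      _ = Real.exp (f.natDegree) := by rw [← Real.exp_nat_mul, mul_one]
      _ ≤ Real.exp s := Real.exp_le_exp.2 (hd.trans hds)
  have h4 : max 1 ‖x‖ ^ f.natDegree ≤ Real.exp (Real.log (max 1 ‖x‖) * s) := by
    rw [← Real.exp_log (pow_pos hX0 f.natDegree), Real.log_pow]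
    refine Real.exp_le_exp.2 ?_
    rw [mul_comm]
    exact mul_le_mul_of_nonneg_left (hd.trans hds) hl
  calc ‖f.eval x‖ ≤ 2 ^ f.natDegree * f.mahlerMeasure * max 1 ‖x‖ ^ f.natDegree := h1
    _ ≤ Real.exp s * Real.exp (2 * s) * Real.exp (Real.log (max 1 ‖x‖) * s) := by
        refine mul_le_mul (mul_le_mul h3 h2 (mahlerMeasure_nonneg f) (Real.exp_pos _).le) h4
          (by positivity) (by positivity)
    _ = _ := by
        rw [← Real.exp_add, ← Real.exp_add]
        congr 1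
        ring

end norm

/-- Gelfond's criterion over a Galois field -/
theorem gel_gal (L : Type) [Field L] [NumberField L] [IsGalois ℚ L] (φ : L →+* ℂ) (x : ℂ)
    (hx : Transcendental ℤ x) (d s B : ℕ → ℝ) (a : ℝ) (hd1 : ∀ N, 1 ≤ d N)
    (hdm : Monotone d) (hsm : Monotone s) (hds : ∀ N, d N ≤ s N) (hda : ∀ N, d (N + 1) ≤ a * d N)
    (hsa : ∀ N, s (N + 1) ≤ a * s N) (hs : Tendsto s atTop atTop) (hB : Tendsto B atTop atTop)
    (P : ℕ → (𝓞 L)[X]) (N₀ : ℕ) (hP0 : ∀ N, N₀ ≤ N → P N ≠ 0)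
    (hPd : ∀ N, N₀ ≤ N → ((P N).natDegree : ℝ) ≤ d N)
    (hPs : ∀ N, N₀ ≤ N → ∀ (i : ℕ) (σ : L →+* ℂ),
      ‖σ (algebraMap (𝓞 L) L ((P N).coeff i))‖ ≤ Real.exp (s N))
    (hPx : ∀ N, N₀ ≤ N → ‖eval₂ (φ.comp (algebraMap (𝓞 L) L)) x (P N)‖ ≤
      Real.exp (-(B N * (d N * s N)))) : False := by
  classical
  have hex : ∀ N, ∃ R : ℤ[X], R.map (algebraMap ℤ L) = cjp (P N) := fun N => cjp_int (P N)
  choose R hR using hex
  set n : ℕ := Fintype.card (L ≃ₐ[ℚ] L) with hn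
  have hn1 : 1 ≤ n := Fintype.card_pos
  have hn1' : (1 : ℝ) ≤ n := by exact_mod_cast hn1
  set c : ℝ := 3 + Real.log (max 1 ‖x‖) with hc
  have hc0 : 0 ≤ c := by
    have : 0 ≤ Real.log (max 1 ‖x‖) := Real.log_nonneg (le_max_left _ _)
    linarith
  have hcoeff : ∀ N, N₀ ≤ N → ∀ (g : L ≃ₐ[ℚ] L) i, ‖(cjg φ (P N) g).coeff i‖ ≤ Real.exp (s N) := by
    intro N hN g i
    unfold cjg
    rw [coeff_map]
    exact hPs N hN i (φ.comp (g : L →+* L))
  have hdeg : ∀ N, N₀ ≤ N → ∀ g : L ≃ₐ[ℚ] L, ((cjg φ (P N) g).natDegree : ℝ) ≤ d N := by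
    intro N hN g
    exact (Nat.cast_le.2 natDegree_map_le).trans (hPd N hN)
  have hinj : ∀ g : L ≃ₐ[ℚ] L,
      Function.Injective ((φ.comp (g : L →+* L)).comp (algebraMap (𝓞 L) L)) := fun g =>
    (φ.comp (g : L →+* L)).injective.comp (FaithfulSMul.algebraMap_injective (𝓞 L) L)
  have hne : ∀ N, N₀ ≤ N → ∀ g : L ≃ₐ[ℚ] L, cjg φ (P N) g ≠ 0 := by
    intro N hN g h
    exact hP0 N hN ((Polynomial.map_eq_zero_iff (hinj g)).1 h)
  have hcx : ∀ N, cx (R N) = ∏ g : L ≃ₐ[ℚ] L, cjg φ (P N) g := fun N => cx_cjp φ (P N) (hR N)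
  have hR0 : ∀ N, N₀ ≤ N → R N ≠ 0 := by
    intro N hN h0
    have h1 := hcx N
    rw [h0] at h1
    have h2 : cx (0 : ℤ[X]) = 0 := Polynomial.map_zero _
    rw [h2] at h1
    exact Finset.prod_ne_zero_iff.2 (fun g _ => hne N hN g) h1.symm
  refine gel_int x hx (fun N => n * d N) (fun N => 2 * n * s N)
    (fun N => (B N - n * c) / (2 * n ^ 2)) a ?_ ?_ ?_ ?_ ?_ ?_ ?_ ?_ R N₀ hR0 ?_ ?_ ?_
  · intro N
    exact one_le_mul_of_one_le_of_one_le hn1' (hd1 N)
  · intro N M hNM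
    exact mul_le_mul_of_nonneg_left (hdm hNM) (by linarith)
  · intro N M hNM
    exact mul_le_mul_of_nonneg_left (hsm hNM) (by linarith)
  · intro N
    show (n : ℝ) * d N ≤ 2 * n * s N
    have h1 := hds N
    have h2 := hd1 N
    nlinarith
  · intro N
    show (n : ℝ) * d (N + 1) ≤ a * (n * d N)
    have h1 := hda N
    nlinarith
  · intro N
    show 2 * (n : ℝ) * s (N + 1) ≤ a * (2 * n * s N)
    have h1 := hsa N
    nlinarith
  · exact Tendsto.const_mul_atTop (by linarith) hs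
  · refine Tendsto.atTop_div_const (by positivity) ?_
    exact tendsto_atTop_add_const_right _ _ hB
  · intro N hN
    have h1 : (R N).natDegree = (cx (R N)).natDegree := (cx_deg (R N)).symm
    rw [h1, hcx N, natDegree_prod _ _ (fun g _ => hne N hN g)]
    push_cast
    calc ∑ g : L ≃ₐ[ℚ] L, ((cjg φ (P N) g).natDegree : ℝ) ≤ ∑ _g : L ≃ₐ[ℚ] L, d N :=
          Finset.sum_le_sum fun g _ => hdeg N hN g
      _ = n * d N := by rw [Finset.sum_const, Finset.card_univ, nsmul_eq_mul]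
  · intro N hN
    show MM (R N) ≤ Real.exp (2 * n * s N)
    unfold MM
    rw [hcx N]
    have h1 : (∏ g : L ≃ₐ[ℚ] L, cjg φ (P N) g).mahlerMeasure =
        ∏ g : L ≃ₐ[ℚ] L, (cjg φ (P N) g).mahlerMeasure := by
      induction (Finset.univ : Finset (L ≃ₐ[ℚ] L)) using Finset.induction_on with
      | empty => simp
      | insert g S hg ih => rw [Finset.prod_insert hg, mahlerMeasure_mul, ih, Finset.prod_insert hg]
    rw [h1]
    calc ∏ g : L ≃ₐ[ℚ] L, (cjg φ (P N) g).mahlerMeasure ≤ ∏ _g : L ≃ₐ[ℚ] L, Real.exp (2 * s N) :=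
          Finset.prod_le_prod (fun g _ => mahlerMeasure_nonneg _)
            fun g _ => mahler_le_exp _ (hds N) (hdeg N hN g) (hcoeff N hN g)
      _ = Real.exp (2 * n * s N) := by
          rw [Finset.prod_const, Finset.card_univ, ← Real.exp_nat_mul]
          congr 1
          ring
  · intro N hN
    show vl x (R N) ≤ Real.exp (-((B N - n * c) / (2 * n ^ 2) * (n * d N * (2 * n * s N))))
    have hd := hd1 N
    have hs1 : 1 ≤ s N := hd.trans (hds N)
    have h1 : vl x (R N) = ∏ g : L ≃ₐ[ℚ] L, ‖(cjg φ (P N) g).eval x‖ := by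
      unfold vl
      rw [hcx N, eval_prod, norm_prod]
    rw [h1, ← Finset.mul_prod_erase Finset.univ _ (Finset.mem_univ (1 : L ≃ₐ[ℚ] L))]
    have h2 : ‖(cjg φ (P N) 1).eval x‖ ≤ Real.exp (-(B N * (d N * s N))) := by
      refine le_trans (le_of_eq ?_) (hPx N hN)
      unfold cjg
      rw [eval_map]
      rfl
    have h3 : ∏ g ∈ Finset.univ.erase (1 : L ≃ₐ[ℚ] L), ‖(cjg φ (P N) g).eval x‖ ≤
        Real.exp (n * c * (d N * s N)) := by
      calc ∏ g ∈ Finset.univ.erase (1 : L ≃ₐ[ℚ] L), ‖(cjg φ (P N) g).eval x‖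
          ≤ ∏ _g ∈ Finset.univ.erase (1 : L ≃ₐ[ℚ] L), Real.exp (c * s N) :=
            Finset.prod_le_prod (fun g _ => norm_nonneg _)
              fun g _ => eval_le_exp _ x (hds N) (hdeg N hN g) (hcoeff N hN g)
        _ = Real.exp (((n - 1 : ℕ) : ℝ) * (c * s N)) := by
            rw [Finset.prod_const, Finset.card_erase_of_mem (Finset.mem_univ _),
              Finset.card_univ, ← Real.exp_nat_mul]
        _ ≤ Real.exp (n * c * (d N * s N)) := by
            refine Real.exp_le_exp.2 ?_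
            have e1 : ((n - 1 : ℕ) : ℝ) ≤ n := by exact_mod_cast Nat.sub_le n 1
            have e2 : 0 ≤ c * s N := by positivity
            have e3 : s N ≤ d N * s N := le_mul_of_one_le_left (by linarith) hd
            calc ((n - 1 : ℕ) : ℝ) * (c * s N) ≤ n * (c * s N) := mul_le_mul_of_nonneg_right e1 e2
              _ ≤ n * (c * (d N * s N)) := by gcongr
              _ = _ := by ring
    refine (mul_le_mul h2 h3 (Finset.prod_nonneg fun g _ => norm_nonneg _)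
      (Real.exp_pos _).le).trans ?_
    rw [← Real.exp_add]
    refine Real.exp_le_exp.2 (le_of_eq ?_)
    have : (n : ℝ) ≠ 0 := by positivity
    field_simp
    ring

/-- Gelfond's criterion -/
theorem gel_field (K : Type) [Field K] [NumberField K] (φ : K →+* ℂ) (x : ℂ)
    (hx : Transcendental ℚ x) (d s B : ℕ → ℝ) (a : ℝ) (hd1 : ∀ N, 1 ≤ d N)
    (hdm : Monotone d) (hsm : Monotone s) (hds : ∀ N, d N ≤ s N) (hda : ∀ N, d (N + 1) ≤ a * d N)
    (hsa : ∀ N, s (N + 1) ≤ a * s N) (hs : Tendsto s atTop atTop) (hB : Tendsto B atTop atTop)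
    (P : ℕ → (𝓞 K)[X]) (N₀ : ℕ) (hP0 : ∀ N, N₀ ≤ N → P N ≠ 0)
    (hPd : ∀ N, N₀ ≤ N → ((P N).natDegree : ℝ) ≤ d N)
    (hPs : ∀ N, N₀ ≤ N → ∀ (i : ℕ) (σ : K →+* ℂ),
      ‖σ (algebraMap (𝓞 K) K ((P N).coeff i))‖ ≤ Real.exp (s N))
    (hPx : ∀ N, N₀ ≤ N → ‖eval₂ (φ.comp (algebraMap (𝓞 K) K)) x (P N)‖ ≤
      Real.exp (-(B N * (d N * s N)))) : False := by
  haveI h1 : Algebra.IsAlgebraic ℚ (AlgebraicClosure K) :=
    Algebra.IsAlgebraic.trans ℚ K (AlgebraicClosure K)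
  haveI h2 : IsAlgClosure ℚ (AlgebraicClosure K) := ⟨inferInstance, h1⟩
  haveI h3 : Normal ℚ (AlgebraicClosure K) := IsAlgClosure.normal ℚ (AlgebraicClosure K)
  let E := IntermediateField.normalClosure ℚ K (AlgebraicClosure K)
  haveI h4 : Normal ℚ E := normalClosure.normal ℚ K (AlgebraicClosure K)
  haveI h5 : FiniteDimensional ℚ E := inferInstanceAs
    (FiniteDimensional ℚ (IntermediateField.normalClosure ℚ K (AlgebraicClosure K)))
  haveI h6 : NumberField E := ⟨⟩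
  haveI h7 : IsGalois ℚ E := ⟨⟩
  let alg : Algebra K E := inferInstanceAs
    (Algebra K (IntermediateField.normalClosure ℚ K (AlgebraicClosure K)))
  let ι : K →+* E := algebraMap K E
  obtain ⟨ψ, hψ⟩ : ∃ ψ : E →+* ℂ, ψ.comp ι = φ := by
    letI := φ.toAlgebra
    haveI : Algebra.IsAlgebraic K E := inferInstance
    let ψ : E →ₐ[K] ℂ := IsAlgClosed.lift
    exact ⟨ψ, ψ.comp_algebraMap⟩
  let θ : 𝓞 K →+* 𝓞 E := RingOfIntegers.mapRingHom ι
  have hθ : ∀ c : 𝓞 K, algebraMap (𝓞 E) E (θ c) = ι (algebraMap (𝓞 K) K c) := fun c => rfl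
  have hθi : Function.Injective θ := by
    intro c c' h
    have h8 := congrArg (algebraMap (𝓞 E) E) h
    rw [hθ, hθ] at h8
    exact FaithfulSMul.algebraMap_injective (𝓞 K) K (ι.injective h8)
  refine gel_gal E ψ x ?_ d s B a hd1 hdm hsm hds hda hsa hs hB (fun N => (P N).map θ) N₀ ?_ ?_ ?_ ?_
  · exact fun h => hx (h.extendScalars (algebraMap ℤ ℚ).injective_int)
  · intro N hN h
    exact hP0 N hN ((Polynomial.map_eq_zero_iff hθi).1 h)
  · intro N hN
    exact (Nat.cast_le.2 natDegree_map_le).trans (hPd N hN)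
  · intro N hN i σ
    rw [coeff_map, hθ]
    exact hPs N hN i (σ.comp ι)
  · intro N hN
    rw [eval₂_map]
    have h9 : (ψ.comp (algebraMap (𝓞 E) E)).comp θ = φ.comp (algebraMap (𝓞 K) K) := by
      ext c
      show ψ (algebraMap (𝓞 E) E (θ c)) = φ (algebraMap (𝓞 K) K c)
      rw [hθ, ← hψ]
      rfl
    rw [h9]
    exact hPx N hN

end Pool.Agent.KT
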