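import Mathlib

/-!
KT, part C: lower bounds from resultants, and the splitting lemma (helper8).
-/

set_option autoImplicit false

open Polynomial

namespace Pool.Agent.KT

/-- the image in `ℂ[X]` -/
noncomputable abbrev cx (A : ℤ[X]) : ℂ[X] := A.map (Int.castRingHom ℂ)

/-- the Mahler measure of an integral polynomial -/
noncomputable def MM (A : ℤ[X]) : ℝ := (cx A).mahlerMeasure

/-- the absolute value at the point `x` -/
noncomputable def vl (x : ℂ) (A : ℤ[X]) : ℝ := ‖(cx A).eval x‖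

/-- coprime over the rational numbers -/
def Cop (A B : ℤ[X]) : Prop :=
  IsCoprime (A.map (Int.castRingHom ℚ)) (B.map (Int.castRingHom ℚ))

theorem cx_ne {A : ℤ[X]} (h : A ≠ 0) : cx A ≠ 0 := by
  rw [Ne, Polynomial.map_eq_zero_iff (Int.castRingHom ℂ).injective_int]
  exact h

theorem cx_mul (A B : ℤ[X]) : cx (A * B) = cx A * cx B := Polynomial.map_mul _

theorem cx_deg (A : ℤ[X]) : (cx A).natDegree = A.natDegree :=
  natDegree_map_eq_of_injective (Int.castRingHom ℂ).injective_int A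

theorem MM_one_le {A : ℤ[X]} (h : A ≠ 0) : 1 ≤ MM A := one_le_mahlerMeasure_of_ne_zero h

theorem MM_mul (A B : ℤ[X]) : MM (A * B) = MM A * MM B := by
  unfold MM
  rw [cx_mul, mahlerMeasure_mul]

theorem vl_mul (x : ℂ) (A B : ℤ[X]) : vl x (A * B) = vl x A * vl x B := by
  unfold vl
  rw [cx_mul, eval_mul, norm_mul]

theorem vl_nonneg (x : ℂ) (A : ℤ[X]) : 0 ≤ vl x A := norm_nonneg _

theorem vl_pow (x : ℂ) (A : ℤ[X]) (n : ℕ) : vl x (A ^ n) = vl x A ^ n := by
  unfold vl cx
  rw [Polynomial.map_pow, eval_pow, norm_pow]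

theorem vl_const (x : ℂ) (n : ℤ) (hn : n ≠ 0) : 1 ≤ vl x (C n) := by
  unfold vl cx
  rw [map_C, eval_C]
  have h1 : ‖(Int.castRingHom ℂ) n‖ = |(n : ℝ)| := by
    rw [eq_intCast, Complex.norm_intCast]
  rw [h1]
  exact_mod_cast Int.one_le_abs hn

theorem norm_mprod (s : Multiset ℂ) : ‖s.prod‖ = (s.map fun a => ‖a‖).prod := by
  induction s using Multiset.induction_on with
  | empty => simp
  | cons a s ih => rw [Multiset.prod_cons, norm_mul, Multiset.map_cons, Multiset.prod_cons, ih]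

theorem one_le_mprod (s : Multiset ℝ) (h : ∀ a ∈ s, 1 ≤ a) : 1 ≤ s.prod := by
  induction s using Multiset.induction_on with
  | empty => simp
  | cons a s ih =>
    rw [Multiset.prod_cons]
    exact one_le_mul_of_one_le_of_one_le (h a (Multiset.mem_cons_self a s))
      (ih fun b hb => h b (Multiset.mem_cons_of_mem hb))

/-- the value in terms of the roots -/
theorem norm_eval_roots (f : ℂ[X]) (y : ℂ) :
    ‖f.eval y‖ = ‖f.leadingCoeff‖ * (f.roots.map fun a => ‖y - a‖).prod := by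
  have h := (IsAlgClosed.splits f).eq_prod_roots
  conv_lhs => rw [h]
  rw [eval_mul, eval_C, norm_mul, eval_multiset_prod, Multiset.map_map]
  congr 1
  rw [norm_mprod, Multiset.map_map]
  refine congrArg Multiset.prod (Multiset.map_congr rfl fun a _ => ?_)
  simp

/-- values at a root which is nearer than the roots of `f` -/
theorem norm_near (f : ℂ[X]) (x b : ℂ) (h : ∀ a ∈ f.roots, ‖x - b‖ ≤ ‖x - a‖) :
    ‖f.eval b‖ ≤ 2 ^ f.natDegree * ‖f.eval x‖ := by
  rw [norm_eval_roots, norm_eval_roots]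
  have h1 : (f.roots.map fun a => ‖b - a‖).prod ≤ (f.roots.map fun a => 2 * ‖x - a‖).prod := by
    refine Multiset.prod_map_le_prod_map₀ _ _ (fun a _ => norm_nonneg _) fun a ha => ?_
    have h2 : b - a = -(x - b) + (x - a) := by ring
    rw [h2]
    refine (norm_add_le _ _).trans ?_
    rw [norm_neg]
    linarith [h a ha]
  rw [Multiset.prod_map_mul, Multiset.map_const', Multiset.prod_replicate,
    ← (IsAlgClosed.splits f).natDegree_eq_card_roots] at h1
  calc ‖f.leadingCoeff‖ * (f.roots.map fun a => ‖b - a‖).prod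
      ≤ ‖f.leadingCoeff‖ * (2 ^ f.natDegree * (f.roots.map fun a => ‖x - a‖).prod) :=
        mul_le_mul_of_nonneg_left h1 (norm_nonneg _)
    _ = _ := by ring

/-- the Mahler measure bounds the values -/
theorem norm_eval_le_mahler (f : ℂ[X]) (y : ℂ) :
    ‖f.eval y‖ ≤ 2 ^ f.natDegree * f.mahlerMeasure * max 1 ‖y‖ ^ f.natDegree := by
  rw [norm_eval_roots, mahlerMeasure_eq_leadingCoeff_mul_prod_roots]
  have h1 : (f.roots.map fun a => ‖y - a‖).prod ≤
      (f.roots.map fun a => 2 * max 1 ‖y‖ * max 1 ‖a‖).prod := by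
    refine Multiset.prod_map_le_prod_map₀ _ _ (fun a _ => norm_nonneg _) fun a ha => ?_
    refine (norm_sub_le _ _).trans ?_
    have h2 : (1 : ℝ) ≤ max 1 ‖y‖ := le_max_left _ _
    have h3 : (1 : ℝ) ≤ max 1 ‖a‖ := le_max_left _ _
    have h4 : ‖y‖ ≤ max 1 ‖y‖ := le_max_right _ _
    have h5 : ‖a‖ ≤ max 1 ‖a‖ := le_max_right _ _
    nlinarith
  rw [Multiset.prod_map_mul, Multiset.map_const', Multiset.prod_replicate,
    ← (IsAlgClosed.splits f).natDegree_eq_card_roots, mul_pow] at h1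
  calc ‖f.leadingCoeff‖ * (f.roots.map fun a => ‖y - a‖).prod
      ≤ ‖f.leadingCoeff‖ * (2 ^ f.natDegree * max 1 ‖y‖ ^ f.natDegree *
        (f.roots.map fun a => max 1 ‖a‖).prod) := mul_le_mul_of_nonneg_left h1 (norm_nonneg _)
    _ = _ := by ring

/-- upper bound of the resultant -/
theorem norm_res_le (f g : ℂ[X]) (hf : 1 ≤ f.mahlerMeasure) (x b : ℂ) (hb : b ∈ g.roots)
    (h : ∀ a ∈ f.roots, ‖x - b‖ ≤ ‖x - a‖) :
    ‖g.leadingCoeff ^ f.natDegree * (g.roots.map f.eval).prod‖ ≤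
      2 ^ (f.natDegree * g.natDegree) * f.mahlerMeasure ^ g.natDegree *
        g.mahlerMeasure ^ f.natDegree * ‖f.eval x‖ := by
  obtain ⟨t, ht⟩ := Multiset.exists_cons_of_mem hb
  have hdeg : g.natDegree = Multiset.card t + 1 := by
    rw [(IsAlgClosed.splits g).natDegree_eq_card_roots, ht, Multiset.card_cons]
  rw [mahlerMeasure_eq_leadingCoeff_mul_prod_roots g, ht, Multiset.map_cons, Multiset.prod_cons,
    Multiset.map_cons, Multiset.prod_cons, norm_mul, norm_mul, norm_pow]
  have h1 := norm_near f x b h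
  have h2 : ‖(t.map f.eval).prod‖ ≤ (t.map fun y => 2 ^ f.natDegree * f.mahlerMeasure *
      max 1 ‖y‖ ^ f.natDegree).prod := by
    rw [norm_mprod, Multiset.map_map]
    exact Multiset.prod_map_le_prod_map₀ (fun a => ‖f.eval a‖) _ (fun a _ => norm_nonneg _)
      fun a _ => norm_eval_le_mahler f a
  rw [Multiset.prod_map_mul, Multiset.map_const', Multiset.prod_replicate,
    Multiset.prod_map_pow] at h2
  set a := f.natDegree with ha
  set M := f.mahlerMeasure with hM
  set T := (t.map fun y => max 1 ‖y‖).prod with hT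
  have hT1 : 1 ≤ T := by
    rw [hT]
    refine one_le_mprod _ ?_
    intro y hy
    obtain ⟨z, _, rfl⟩ := Multiset.mem_map.1 hy
    exact le_max_left _ _
  have hb1 : (1 : ℝ) ≤ max 1 ‖b‖ := le_max_left _ _
  have hT0 : 0 ≤ T := zero_le_one.trans hT1
  have hlc : 0 ≤ ‖g.leadingCoeff‖ := norm_nonneg _
  have hv : 0 ≤ ‖f.eval x‖ := norm_nonneg _
  calc ‖g.leadingCoeff‖ ^ a * (‖f.eval b‖ * ‖(t.map f.eval).prod‖)
      ≤ ‖g.leadingCoeff‖ ^ a * ((2 ^ a * ‖f.eval x‖) * ((2 ^ a * M) ^ Multiset.card t * T ^ a)) := by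
        refine mul_le_mul_of_nonneg_left (mul_le_mul h1 h2 (norm_nonneg _) ?_) (by positivity)
        positivity
    _ = 2 ^ (a * (Multiset.card t + 1)) * M ^ Multiset.card t * (‖g.leadingCoeff‖ * T) ^ a *
        ‖f.eval x‖ := by
        rw [mul_pow, mul_pow, ← pow_mul, mul_add, pow_add, mul_one]
        ring
    _ ≤ 2 ^ (a * (Multiset.card t + 1)) * M ^ (Multiset.card t + 1) *
        (‖g.leadingCoeff‖ * (max 1 ‖b‖ * T)) ^ a * ‖f.eval x‖ := by
        have e1 : M ^ Multiset.card t ≤ M ^ (Multiset.card t + 1) :=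
          pow_le_pow_right₀ hf (Nat.le_succ _)
        have e2 : T ≤ max 1 ‖b‖ * T := le_mul_of_one_le_left hT0 hb1
        gcongr
    _ = _ := by rw [hdeg]

theorem Cop.symm {A B : ℤ[X]} (h : Cop A B) : Cop B A := IsCoprime.symm h

theorem Cop.no_root {A B : ℤ[X]} (h : Cop A B) (z : ℂ) (h1 : (cx A).eval z = 0)
    (h2 : (cx B).eval z = 0) : False := by
  obtain ⟨u, w, huw⟩ := h
  have e : ∀ D : ℤ[X], eval₂ (algebraMap ℚ ℂ) z (D.map (Int.castRingHom ℚ)) = (cx D).eval z := by
    intro D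
    rw [eval₂_map, eval_map]
    congr 1
  have h3 := congrArg (eval₂ (algebraMap ℚ ℂ) z) huw
  rw [eval₂_add, eval₂_mul, eval₂_mul, e, e, h1, h2, eval₂_one, mul_zero, mul_zero, add_zero] at h3
  exact zero_ne_one h3

/-- the resultant of coprime integral polynomials is a nonzero integer -/
theorem one_le_res {A B : ℤ[X]} (hB : B ≠ 0) (h : Cop A B) :
    1 ≤ ‖(cx B).leadingCoeff ^ (cx A).natDegree * ((cx B).roots.map (cx A).eval).prod‖ := by
  have h1 := resultant_eq_prod_eval (cx B) (cx A) (cx A).natDegree le_rfl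
    (IsAlgClosed.splits (cx B))
  have hne : (cx B).leadingCoeff ^ (cx A).natDegree * ((cx B).roots.map (cx A).eval).prod ≠ 0 := by
    refine mul_ne_zero (pow_ne_zero _ (leadingCoeff_ne_zero.2 (cx_ne hB))) ?_
    refine Multiset.prod_ne_zero ?_
    intro h0
    obtain ⟨z, hz, hz0⟩ := Multiset.mem_map.1 h0
    exact h.no_root z hz0 (isRoot_of_mem_roots hz)
  rw [← h1] at hne ⊢
  have h2 : resultant (cx B) (cx A) (cx B).natDegree (cx A).natDegree =
      ((resultant B A (cx B).natDegree (cx A).natDegree : ℤ) : ℂ) := by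
    have h3 := resultant_map_map (f := B) (g := A) (m := (cx B).natDegree)
      (n := (cx A).natDegree) (Int.castRingHom ℂ)
    rw [h3, eq_intCast]
  rw [h2] at hne ⊢
  rw [Complex.norm_intCast]
  have h4 : resultant B A (cx B).natDegree (cx A).natDegree ≠ 0 := by
    intro h5
    rw [h5, Int.cast_zero] at hne
    exact hne rfl
  exact_mod_cast Int.one_le_abs h4

/-- the lower bound -/
theorem res_lower (x : ℂ) {A B : ℤ[X]} (hA : A ≠ 0) (hB : B ≠ 0) (h : Cop A B) :
    1 ≤ 2 ^ (A.natDegree * B.natDegree) * MM A ^ B.natDegree * MM B ^ A.natDegree *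
      max (vl x A) (vl x B) := by
  have hMA := MM_one_le hA
  have hMB := MM_one_le hB
  have h2 : (1 : ℝ) ≤ 2 ^ (A.natDegree * B.natDegree) := one_le_pow₀ one_le_two
  have hMA' : 1 ≤ MM A ^ B.natDegree := one_le_pow₀ hMA
  have hMB' : 1 ≤ MM B ^ A.natDegree := one_le_pow₀ hMB
  have hprod : 1 ≤ 2 ^ (A.natDegree * B.natDegree) * MM A ^ B.natDegree * MM B ^ A.natDegree := by
    have h3 := one_le_mul_of_one_le_of_one_le h2 hMA'
    exact one_le_mul_of_one_le_of_one_le h3 hMB'
  have hconst : ∀ D : ℤ[X], D ≠ 0 → D.natDegree = 0 → 1 ≤ vl x D := by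
    intro D hD h0
    rw [eq_C_of_natDegree_eq_zero h0] at hD ⊢
    exact vl_const x _ (fun h1 => hD (by rw [h1, C_0]))
  rcases Nat.eq_zero_or_pos A.natDegree with hA0 | hA0
  · exact one_le_mul_of_one_le_of_one_le hprod ((hconst A hA hA0).trans (le_max_left _ _))
  rcases Nat.eq_zero_or_pos B.natDegree with hB0 | hB0
  · exact one_le_mul_of_one_le_of_one_le hprod ((hconst B hB hB0).trans (le_max_right _ _))
  have hBr : (cx B).roots.toFinset.Nonempty := by
    rw [Multiset.toFinset_nonempty, ← Multiset.card_pos,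
      ← (IsAlgClosed.splits (cx B)).natDegree_eq_card_roots, cx_deg]
    exact hB0
  have hne : ((cx A).roots + (cx B).roots).toFinset.Nonempty := by
    obtain ⟨z, hz⟩ := hBr
    exact ⟨z, by
      rw [Multiset.mem_toFinset] at hz ⊢
      exact Multiset.mem_add.2 (Or.inr hz)⟩
  obtain ⟨b, hb, hmin⟩ := Finset.exists_min_image _ (fun y => ‖x - y‖) hne
  rw [Multiset.mem_toFinset, Multiset.mem_add] at hb
  have hminA : ∀ a ∈ (cx A).roots, ‖x - b‖ ≤ ‖x - a‖ := fun a ha =>
    hmin a (Multiset.mem_toFinset.2 (Multiset.mem_add.2 (Or.inl ha)))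
  have hminB : ∀ a ∈ (cx B).roots, ‖x - b‖ ≤ ‖x - a‖ := fun a ha =>
    hmin a (Multiset.mem_toFinset.2 (Multiset.mem_add.2 (Or.inr ha)))
  have hp0 : 0 ≤ 2 ^ (A.natDegree * B.natDegree) * MM A ^ B.natDegree * MM B ^ A.natDegree :=
    zero_le_one.trans hprod
  rcases hb with hb | hb
  · have h3 := (one_le_res hA h.symm).trans (norm_res_le (cx B) (cx A) hMB x b hb hminB)
    rw [cx_deg, cx_deg] at h3
    refine h3.trans ?_
    calc 2 ^ (B.natDegree * A.natDegree) * MM B ^ A.natDegree * MM A ^ B.natDegree * vl x B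
        = 2 ^ (A.natDegree * B.natDegree) * MM A ^ B.natDegree * MM B ^ A.natDegree * vl x B := by
          rw [mul_comm B.natDegree A.natDegree]
          ring
      _ ≤ _ := mul_le_mul_of_nonneg_left (le_max_right _ _) hp0
  · have h3 := (one_le_res hB h).trans (norm_res_le (cx A) (cx B) hMA x b hb hminA)
    rw [cx_deg, cx_deg] at h3
    exact h3.trans (mul_le_mul_of_nonneg_left (le_max_left _ _) hp0)

/-- the lower bound with exponentials -/
theorem res_exp (x : ℂ) {A B : ℤ[X]} (hA : A ≠ 0) (hB : B ≠ 0) (h : Cop A B) {a b s t : ℝ}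
    (ha : (A.natDegree : ℝ) ≤ a) (hb : (B.natDegree : ℝ) ≤ b) (hs : MM A ≤ Real.exp s)
    (ht : MM B ≤ Real.exp t) :
    1 ≤ Real.exp (a * b + s * b + t * a) * max (vl x A) (vl x B) := by
  refine (res_lower x hA hB h).trans ?_
  have hMA := MM_one_le hA
  have hMB := MM_one_le hB
  have hs0 : 0 ≤ s := by
    by_contra h0
    push Not at h0
    exact absurd (hMA.trans hs) (not_le.2 (Real.exp_lt_one_iff.2 h0))
  have ht0 : 0 ≤ t := by
    by_contra h0
    push Not at h0
    exact absurd (hMB.trans ht) (not_le.2 (Real.exp_lt_one_iff.2 h0))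
  have ha0 : 0 ≤ a := (Nat.cast_nonneg _).trans ha
  have hb0 : 0 ≤ b := (Nat.cast_nonneg _).trans hb
  have e1 : (2 : ℝ) ^ (A.natDegree * B.natDegree) ≤ Real.exp (a * b) := by
    calc (2 : ℝ) ^ (A.natDegree * B.natDegree) ≤ Real.exp 1 ^ (A.natDegree * B.natDegree) := by
          refine pow_le_pow_left₀ zero_le_two ?_ _
          have := Real.add_one_le_exp 1
          linarith
      _ = Real.exp ((A.natDegree : ℝ) * B.natDegree) := by
          rw [← Real.exp_nat_mul, mul_one, Nat.cast_mul]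
      _ ≤ Real.exp (a * b) := Real.exp_le_exp.2 (mul_le_mul ha hb (Nat.cast_nonneg _) ha0)
  have e2 : MM A ^ B.natDegree ≤ Real.exp (s * b) := by
    calc MM A ^ B.natDegree ≤ Real.exp s ^ B.natDegree :=
          pow_le_pow_left₀ (zero_le_one.trans hMA) hs _
      _ = Real.exp (B.natDegree * s) := (Real.exp_nat_mul _ _).symm
      _ ≤ Real.exp (s * b) := Real.exp_le_exp.2 (by nlinarith)
  have e3 : MM B ^ A.natDegree ≤ Real.exp (t * a) := by
    calc MM B ^ A.natDegree ≤ Real.exp t ^ A.natDegree :=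
          pow_le_pow_left₀ (zero_le_one.trans hMB) ht _
      _ = Real.exp (A.natDegree * t) := (Real.exp_nat_mul _ _).symm
      _ ≤ Real.exp (t * a) := Real.exp_le_exp.2 (by nlinarith)
  rw [Real.exp_add, Real.exp_add]
  have h0 : 0 ≤ max (vl x A) (vl x B) := (vl_nonneg x A).trans (le_max_left _ _)
  have hMA0 : 0 ≤ MM A := zero_le_one.trans hMA
  have hMB0 : 0 ≤ MM B := zero_le_one.trans hMB
  gcongr

end Pool.Agent.KT
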