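import Pool.Agent.KT.St

/-!
# KT: the function `|z|²`
-/

set_option autoImplicit false

open scoped BigOperators ComplexConjugate Topology
open MeasureTheory

namespace Pool.Agent.KT

private theorem NSQ_ns (z : ℂ) : ‖z‖ ^ 2 = z.re * z.re + z.im * z.im := by
  rw [← Complex.normSq_eq_norm_sq, Complex.normSq_apply]

private theorem NSQ_eq : nsq = fun z : ℂ × ℂ => z.1.re * z.1.re + z.1.im * z.1.im +
    (z.2.re * z.2.re + z.2.im * z.2.im) := by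
  funext z
  unfold nsq
  rw [NSQ_ns, NSQ_ns]

/-- real part of the first coordinate -/
private noncomputable def NSQ_p1 : ℂ × ℂ →L[ℝ] ℝ :=
  Complex.reCLM.comp (ContinuousLinearMap.fst ℝ ℂ ℂ)
private noncomputable def NSQ_p2 : ℂ × ℂ →L[ℝ] ℝ :=
  Complex.imCLM.comp (ContinuousLinearMap.fst ℝ ℂ ℂ)
private noncomputable def NSQ_p3 : ℂ × ℂ →L[ℝ] ℝ :=
  Complex.reCLM.comp (ContinuousLinearMap.snd ℝ ℂ ℂ)
private noncomputable def NSQ_p4 : ℂ × ℂ →L[ℝ] ℝ :=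
  Complex.imCLM.comp (ContinuousLinearMap.snd ℝ ℂ ℂ)

private theorem NSQ_fd (z v : ℂ × ℂ) : fderiv ℝ nsq z v =
    2 * (z.1.re * v.1.re + z.1.im * v.1.im + (z.2.re * v.2.re + z.2.im * v.2.im)) := by
  have h1 : HasFDerivAt (fun z : ℂ × ℂ => z.1.re) NSQ_p1 z := NSQ_p1.hasFDerivAt
  have h2 : HasFDerivAt (fun z : ℂ × ℂ => z.1.im) NSQ_p2 z := NSQ_p2.hasFDerivAt
  have h3 : HasFDerivAt (fun z : ℂ × ℂ => z.2.re) NSQ_p3 z := NSQ_p3.hasFDerivAt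
  have h4 : HasFDerivAt (fun z : ℂ × ℂ => z.2.im) NSQ_p4 z := NSQ_p4.hasFDerivAt
  have h := ((h1.mul h1).add (h2.mul h2)).add ((h3.mul h3).add (h4.mul h4))
  rw [NSQ_eq]
  erw [h.fderiv]
  show z.1.re * v.1.re + z.1.re * v.1.re + (z.1.im * v.1.im + z.1.im * v.1.im) +
    (z.2.re * v.2.re + z.2.re * v.2.re + (z.2.im * v.2.im + z.2.im * v.2.im)) = _
  ring

private theorem NSQ_d2 (v w z : ℂ × ℂ) : d2 nsq v w z =
    2 * (w.1.re * v.1.re + w.1.im * v.1.im + (w.2.re * v.2.re + w.2.im * v.2.im)) := by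
  have h0 : (fun z => fderiv ℝ nsq z v) = fun z : ℂ × ℂ =>
      2 * (z.1.re * v.1.re + z.1.im * v.1.im + (z.2.re * v.2.re + z.2.im * v.2.im)) :=
    funext fun z => NSQ_fd z v
  have h1 : HasFDerivAt (fun z : ℂ × ℂ => z.1.re) NSQ_p1 z := NSQ_p1.hasFDerivAt
  have h2 : HasFDerivAt (fun z : ℂ × ℂ => z.1.im) NSQ_p2 z := NSQ_p2.hasFDerivAt
  have h3 : HasFDerivAt (fun z : ℂ × ℂ => z.2.re) NSQ_p3 z := NSQ_p3.hasFDerivAt
  have h4 : HasFDerivAt (fun z : ℂ × ℂ => z.2.im) NSQ_p4 z := NSQ_p4.hasFDerivAt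
  have h := (((h1.mul_const v.1.re).add (h2.mul_const v.1.im)).add
    ((h3.mul_const v.2.re).add (h4.mul_const v.2.im))).const_mul 2
  unfold d2
  rw [h0]
  erw [h.fderiv]
  show 2 * (v.1.re * w.1.re + v.1.im * w.1.im + (v.2.re * w.2.re + v.2.im * w.2.im)) = _
  ring

theorem thm_NSQ : St_NSQ := by
  have hl : ∀ v z, lev nsq v z = 4 * nsq v := by
    intro v z
    unfold lev
    rw [NSQ_d2, NSQ_d2, NSQ_eq]
    simp [mi]
    ring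
  have hm : ∀ z, d2 nsq e1 e3 z = 0 ∧ d2 nsq e2 e4 z = 0 ∧ d2 nsq e1 e4 z = 0 ∧
      d2 nsq e2 e3 z = 0 := by
    intro z
    rw [NSQ_d2, NSQ_d2, NSQ_d2, NSQ_d2]
    simp [e1, e2, e3, e4]
  have h1 : nsq e1 = 1 := by
    rw [NSQ_eq]
    simp [e1]
  have h3 : nsq e3 = 1 := by
    rw [NSQ_eq]
    simp [e3]
  refine ⟨?_, hl, ?_, ?_⟩
  · rw [NSQ_eq]
    have h1 : ContDiff ℝ (⊤ : ℕ∞) (fun z : ℂ × ℂ => z.1.re) := NSQ_p1.contDiff
    have h2 : ContDiff ℝ (⊤ : ℕ∞) (fun z : ℂ × ℂ => z.1.im) := NSQ_p2.contDiff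
    have h3 : ContDiff ℝ (⊤ : ℕ∞) (fun z : ℂ × ℂ => z.2.re) := NSQ_p3.contDiff
    have h4 : ContDiff ℝ (⊤ : ℕ∞) (fun z : ℂ × ℂ => z.2.im) := NSQ_p4.contDiff
    exact ((h1.mul h1).add (h2.mul h2)).add ((h3.mul h3).add (h4.mul h4))
  · intro g z
    obtain ⟨m1, m2, m3, m4⟩ := hm z
    unfold ma
    rw [hl, hl, m1, m2, m3, m4, h1, h3]
    ring
  · intro g z
    obtain ⟨m1, m2, m3, m4⟩ := hm z
    unfold ma
    rw [hl, hl, m1, m2, m3, m4, h1, h3]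
    ring

end Pool.Agent.KT
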