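import Pool.Agent.KT.StB
import Pool.Agent.GAM.Hol

/-!
# KT: Siegel's lemma for the auxiliary function
-/

set_option autoImplicit false

open scoped BigOperators Topology
open MvPolynomial NumberField
open Pool.Agent.Helper8

namespace Pool.Agent.KT

variable {τ : Tor}

/-- the polynomial of the periodic function -/
noncomputable def PSIE_sp (D : Dat τ) : Polynomial (MvPolynomial D.ι (𝓞 D.K)) :=
  ∑ i, Polynomial.C (X i) * (D.q i).map MvPolynomial.C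

lemma PSIE_coeff_sp (D : Dat τ) (e : ℕ) :
    (PSIE_sp D).coeff e = ∑ i, X i * C ((D.q i).coeff e) := by
  simp [PSIE_sp]

lemma PSIE_natDegree_sp (D : Dat τ) : (PSIE_sp D).natDegree ≤ D.dq - 1 := by
  unfold PSIE_sp Dat.dq
  rw [Nat.add_sub_cancel]
  apply Polynomial.natDegree_sum_le_of_forall_le
  intro i _
  refine (Polynomial.natDegree_C_mul_le _ _).trans ?_
  refine (Polynomial.natDegree_map_le).trans ?_
  exact Finset.single_le_sum (f := fun i => (D.q i).natDegree) (fun _ _ => Nat.zero_le _)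
    (Finset.mem_univ i)

lemma PSIE_totalDegree_pow (D : Dat τ) (l e : ℕ) :
    ((PSIE_sp D ^ l).coeff e).totalDegree ≤ l := by
  classical
  induction l generalizing e with
  | zero =>
    rw [pow_zero, Polynomial.coeff_one]
    split_ifs <;> simp
  | succ l ih =>
    rw [pow_succ, Polynomial.coeff_mul]
    apply totalDegree_finsetSum_le
    intro p _
    refine (totalDegree_mul _ _).trans ?_
    have h1 := ih p.1
    have h2 : ((PSIE_sp D).coeff p.2).totalDegree ≤ 1 := by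
      rw [PSIE_coeff_sp]
      apply totalDegree_finsetSum_le
      intro i _
      refine (totalDegree_mul _ _).trans ?_
      rw [totalDegree_C, add_zero]
      exact (totalDegree_X i).le
    omega

/-- a bound for the sum of the norms of the coefficients -/
lemma PSIE_l1_sp (D : Dat τ) : ∃ M : ℝ, 1 ≤ M ∧ ∀ (σ : D.K →+* ℂ) (N : ℕ),
    ∑ e ∈ Finset.range N, l1 (σ.comp (algebraMap (𝓞 D.K) D.K)) ((PSIE_sp D).coeff e) ≤ M := by
  classical
  set n := (PSIE_sp D).natDegree + 1 with hn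
  set f : (D.K →+* ℂ) → ℕ → ℝ := fun σ e =>
    l1 (σ.comp (algebraMap (𝓞 D.K) D.K)) ((PSIE_sp D).coeff e) with hf
  have hf0 : ∀ σ e, 0 ≤ f σ e := fun σ e => l1_nonneg _ _
  refine ⟨1 + ∑ σ : D.K →+* ℂ, ∑ e ∈ Finset.range n, f σ e, ?_, ?_⟩
  · have : 0 ≤ ∑ σ : D.K →+* ℂ, ∑ e ∈ Finset.range n, f σ e :=
      Finset.sum_nonneg fun σ _ => Finset.sum_nonneg fun e _ => hf0 σ e
    linarith
  · intro σ N
    have h1 : ∑ e ∈ Finset.range N, f σ e ≤ ∑ e ∈ Finset.range (max N n), f σ e :=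
      Finset.sum_le_sum_of_subset_of_nonneg
        (Finset.range_subset_range.mpr (le_max_left _ _)) fun e _ _ => hf0 σ e
    have h2 : ∑ e ∈ Finset.range n, f σ e = ∑ e ∈ Finset.range (max N n), f σ e := by
      apply Finset.sum_subset (Finset.range_subset_range.mpr (le_max_right _ _))
      intro e _ he
      rw [Finset.mem_range, not_lt] at he
      simp only [hf]
      rw [Polynomial.coeff_eq_zero_of_natDegree_lt (by omega), l1_zero]
    have h3 : ∑ e ∈ Finset.range n, f σ e ≤ ∑ σ : D.K →+* ℂ, ∑ e ∈ Finset.range n, f σ e :=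
      Finset.single_le_sum (f := fun σ => ∑ e ∈ Finset.range n, f σ e)
        (fun σ _ => Finset.sum_nonneg fun e _ => hf0 σ e) (Finset.mem_univ σ)
    calc ∑ e ∈ Finset.range N, f σ e ≤ ∑ e ∈ Finset.range n, f σ e := by rw [h2]; exact h1
      _ ≤ _ := by linarith

lemma PSIE_l1_pow (D : Dat τ) (σ : D.K →+* ℂ) {M : ℝ} (hM0 : 0 ≤ M)
    (hM : ∀ N : ℕ, ∑ e ∈ Finset.range N,
      l1 (σ.comp (algebraMap (𝓞 D.K) D.K)) ((PSIE_sp D).coeff e) ≤ M) (l e : ℕ) :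
    l1 (σ.comp (algebraMap (𝓞 D.K) D.K)) ((PSIE_sp D ^ l).coeff e) ≤ M ^ l := by
  classical
  induction l generalizing e with
  | zero =>
    rw [pow_zero, Polynomial.coeff_one, pow_zero]
    split_ifs
    · have : (1 : MvPolynomial D.ι (𝓞 D.K)) = monomial 0 1 := rfl
      rw [this, l1_monomial]; simp
    · rw [l1_zero]; norm_num
  | succ l ih =>
    rw [pow_succ', Polynomial.coeff_mul]
    refine (l1_sum_le _ _ _).trans ?_
    calc ∑ p ∈ Finset.HasAntidiagonal.antidiagonal e,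
          l1 (σ.comp (algebraMap (𝓞 D.K) D.K))
            ((PSIE_sp D).coeff p.1 * (PSIE_sp D ^ l).coeff p.2)
        ≤ ∑ p ∈ Finset.HasAntidiagonal.antidiagonal e,
          l1 (σ.comp (algebraMap (𝓞 D.K) D.K)) ((PSIE_sp D).coeff p.1) * M ^ l := by
          apply Finset.sum_le_sum
          intro p _
          refine (l1_mul_le _ _ _).trans ?_
          exact mul_le_mul_of_nonneg_left (ih _) (l1_nonneg _ _)
      _ = (∑ i ∈ Finset.range (e + 1),
          l1 (σ.comp (algebraMap (𝓞 D.K) D.K)) ((PSIE_sp D).coeff i)) * M ^ l := by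
          rw [Finset.sum_mul]
          exact Finset.Nat.sum_antidiagonal_eq_sum_range_succ_mk _ _
      _ ≤ M * M ^ l := mul_le_mul_of_nonneg_right (hM _) (pow_nonneg hM0 _)
      _ = M ^ (l + 1) := by rw [pow_succ']

/-- the polynomials of the expansion -/
noncomputable def PSIE_m (D : Dat τ) (L k : ℕ) (j : ℕ) (s : D.Ix L k) :
    MvPolynomial D.ι (𝓞 D.K) :=
  (∏ i : Fin 2, (X (D.y i) : MvPolynomial D.ι (𝓞 D.K)) ^ (s.1 i : ℕ)) *
    ((Polynomial.X : Polynomial (MvPolynomial D.ι (𝓞 D.K))) ^ (s.2.2 : ℕ) *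
      PSIE_sp D ^ (s.2.1 : ℕ)).coeff j

lemma PSIE_totalDegree_m (D : Dat τ) (L k j : ℕ) (s : D.Ix L k) :
    (PSIE_m D L k j s).totalDegree ≤ 2 * L + k := by
  unfold PSIE_m
  refine (totalDegree_mul _ _).trans ?_
  have h1 := totalDegree_monS_le (R := 𝓞 D.K) D.y s.1
  rw [Fintype.card_fin] at h1
  have h2 : ((Polynomial.X ^ (s.2.2 : ℕ) * PSIE_sp D ^ (s.2.1 : ℕ)).coeff j).totalDegree ≤ k := by
    rw [Polynomial.coeff_X_pow_mul']
    split_ifs
    · exact (PSIE_totalDegree_pow D _ _).trans s.2.1.2.le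
    · simp
  omega

lemma PSIE_l1_m (D : Dat τ) (L k j : ℕ) (s : D.Ix L k) (σ : D.K →+* ℂ) {M : ℝ} (hM1 : 1 ≤ M)
    (hM : ∀ N : ℕ, ∑ e ∈ Finset.range N,
      l1 (σ.comp (algebraMap (𝓞 D.K) D.K)) ((PSIE_sp D).coeff e) ≤ M) :
    l1 (σ.comp (algebraMap (𝓞 D.K) D.K)) (PSIE_m D L k j s) ≤ M ^ k := by
  unfold PSIE_m
  refine (l1_mul_le _ _ _).trans ?_
  have h1 := l1_monS_le (σ.comp (algebraMap (𝓞 D.K) D.K)) D.y s.1
  have h2 : l1 (σ.comp (algebraMap (𝓞 D.K) D.K))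
      ((Polynomial.X ^ (s.2.2 : ℕ) * PSIE_sp D ^ (s.2.1 : ℕ)).coeff j) ≤ M ^ k := by
    rw [Polynomial.coeff_X_pow_mul']
    split_ifs
    · exact (PSIE_l1_pow D σ (by linarith) hM _ _).trans (pow_le_pow_right₀ hM1 s.2.1.2.le)
    · rw [l1_zero]; positivity
  calc _ ≤ 1 * M ^ k := mul_le_mul h1 h2 (l1_nonneg _ _) (by norm_num)
    _ = M ^ k := one_mul _

lemma PSIE_dq_pos (D : Dat τ) : 1 ≤ D.dq := by unfold Dat.dq; omega

lemma PSIE_natDegree_lt (D : Dat τ) (L k : ℕ) (s : D.Ix L k) :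
    (Polynomial.X ^ (s.2.2 : ℕ) * PSIE_sp D ^ (s.2.1 : ℕ)).natDegree < 2 * D.dq * k := by
  have h1 := s.2.2.2
  have h2 := s.2.1.2
  have h3 := PSIE_dq_pos D
  refine lt_of_le_of_lt Polynomial.natDegree_mul_le ?_
  have h4 : (PSIE_sp D ^ (s.2.1 : ℕ)).natDegree ≤ (s.2.1 : ℕ) * (D.dq - 1) :=
    (Polynomial.natDegree_pow_le).trans (Nat.mul_le_mul_left _ (PSIE_natDegree_sp D))
  have h5 : (s.2.1 : ℕ) * (D.dq - 1) ≤ k * D.dq := Nat.mul_le_mul h2.le (by omega)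
  rw [Polynomial.natDegree_X_pow]
  nlinarith

/-- the polynomials attached to the unknowns -/
noncomputable def PSIE_Q (D : Dat τ) (L k : ℕ) (ξ : D.Ix L k → 𝓞 D.K) (j : ℕ) :
    MvPolynomial D.ι (𝓞 D.K) := ∑ s, C (ξ s) * PSIE_m D L k j s

/-- the quotient -/
noncomputable def PSIE_G (D : Dat τ) (L k : ℕ) (ξ : D.Ix L k → 𝓞 D.K) : ℂ × ℂ → ℂ :=
  ∑ j ∈ Finset.range (2 * D.dq * k), fun z => D.X ^ j *
    eval₂ D.ψ (fun i => D.u i z / D.h z) (PSIE_Q D L k ξ j)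

lemma PSIE_eval_sp (D : Dat τ) (z : ℂ × ℂ) :
    (PSIE_sp D).eval₂ (eval₂Hom D.ψ (fun i => D.u i z / D.h z)) D.X = D.S z / D.h z := by
  unfold PSIE_sp Dat.S
  rw [Polynomial.eval₂_finsetSum, Finset.sum_div]
  apply Finset.sum_congr rfl
  intro i _
  rw [Polynomial.eval₂_mul, Polynomial.eval₂_C, Polynomial.eval₂_map]
  have h1 : (eval₂Hom D.ψ (fun i => D.u i z / D.h z)).comp (MvPolynomial.C) = D.ψ := by
    ext a; simp
  rw [h1, coe_eval₂Hom, eval₂_X]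
  ring

lemma PSIE_Phi_eq (D : Dat τ) (L k : ℕ) (ξ : D.Ix L k → 𝓞 D.K) (z : ℂ × ℂ) (hz : D.h z ≠ 0) :
    D.Φ L k ξ z = D.h z ^ (2 * L + k) * PSIE_G D L k ξ z := by
  have hG : PSIE_G D L k ξ z = ∑ s : D.Ix L k, D.ψ (ξ s) *
      ((∏ i, (D.u (D.y i) z / D.h z) ^ (s.1 i : ℕ)) *
        (D.X ^ (s.2.2 : ℕ) * (D.S z / D.h z) ^ (s.2.1 : ℕ))) := by
    unfold PSIE_G PSIE_Q
    rw [Finset.sum_apply]
    simp only [← coe_eval₂Hom, map_sum, map_mul, eval₂Hom_C]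
    simp only [Finset.mul_sum]
    rw [Finset.sum_comm]
    apply Finset.sum_congr rfl
    intro s _
    have h1 : ∀ j ∈ Finset.range (2 * D.dq * k), D.X ^ j * (D.ψ (ξ s) *
        (eval₂Hom D.ψ fun i => D.u i z / D.h z) (PSIE_m D L k j s)) =
        D.ψ (ξ s) * ((∏ i, (D.u (D.y i) z / D.h z) ^ (s.1 i : ℕ)) *
          ((eval₂Hom D.ψ fun i => D.u i z / D.h z)
          ((Polynomial.X ^ (s.2.2 : ℕ) * PSIE_sp D ^ (s.2.1 : ℕ)).coeff j) * D.X ^ j)) := by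
      intro j _
      unfold PSIE_m
      rw [map_mul, map_prod]
      simp only [map_pow, eval₂Hom_X']
      ring
    rw [Finset.sum_congr rfl h1, ← Finset.mul_sum, ← Finset.mul_sum,
      ← Polynomial.eval₂_eq_sum_range' _ (PSIE_natDegree_lt D L k s), Polynomial.eval₂_mul,
      Polynomial.eval₂_pow, Polynomial.eval₂_pow, Polynomial.eval₂_X, PSIE_eval_sp]
  rw [hG, Finset.mul_sum]
  unfold Dat.Φ
  apply Finset.sum_congr rfl
  intro s _
  have h1 : ∑ i, (s.1 i : ℕ) ≤ 2 * L := by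
    calc ∑ i, (s.1 i : ℕ) ≤ ∑ _i : Fin 2, L := Finset.sum_le_sum fun i _ => (s.1 i).2.le
      _ = 2 * L := by simp
  have h2 : (s.2.1 : ℕ) ≤ k := s.2.1.2.le
  have h3 : D.h z ^ (2 * L + k) = D.h z ^ (2 * L - ∑ i, (s.1 i : ℕ)) *
      D.h z ^ (k - (s.2.1 : ℕ)) * ((∏ i, D.h z ^ (s.1 i : ℕ)) * D.h z ^ (s.2.1 : ℕ)) := by
    rw [Finset.prod_pow_eq_pow_sum, ← pow_add, ← pow_add, ← pow_add]
    congr 1
    omega
  rw [h3]
  simp only [div_pow]
  rw [Finset.prod_div_distrib]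
  have h4 : (∏ i, D.h z ^ (s.1 i : ℕ)) ≠ 0 := Finset.prod_ne_zero_iff.mpr fun i _ => pow_ne_zero _ hz
  field_simp

/-! ### analytic functions -/

lemma PSIE_an {F : ℂ × ℂ → ℂ} (hF : Differentiable ℂ F) (z : ℂ × ℂ) : AnalyticAt ℂ F z :=
  GAM.analyticOnNhd_of_differentiableOn isOpen_univ hF.differentiableOn z (Set.mem_univ z)

lemma PSIE_van_congr {t : ℕ} {f g : ℂ × ℂ → ℂ} {p : ℂ × ℂ} (h : f =ᶠ[𝓝 p] g)
    (hf : Van t f p) : Van t g p := by
  intro l hl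
  rw [← (dds_congr h l).self_of_nhds]
  exact hf l hl

lemma PSIE_open (D : Dat τ) : IsOpen {z | D.h z ≠ 0} :=
  isOpen_ne_fun D.h_ent.continuous continuous_const

lemma PSIE_quot_an (D : Dat τ) {z : ℂ × ℂ} (hz : D.h z ≠ 0) (i : D.ι) :
    AnalyticAt ℂ (fun z => D.u i z / D.h z) z :=
  (PSIE_an (D.u_ent i) z).div (PSIE_an D.h_ent z) hz

lemma PSIE_G_an (D : Dat τ) (L k : ℕ) (ξ : D.Ix L k → 𝓞 D.K) :
    AnalyticAt ℂ (PSIE_G D L k ξ) 0 := by
  unfold PSIE_G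
  apply Finset.analyticAt_sum
  intro j _
  exact analyticAt_const.mul
    (analyticAt_eval₂ D.ψ (fun i z => D.u i z / D.h z) (PSIE_quot_an D D.h_zero) _)

lemma PSIE_Phi_an (D : Dat τ) (L k : ℕ) (ξ : D.Ix L k → 𝓞 D.K) (z : ℂ × ℂ) :
    AnalyticAt ℂ (D.Φ L k ξ) z := by
  unfold Dat.Φ
  apply Finset.analyticAt_fun_sum
  intro s _
  have hS : AnalyticAt ℂ D.S z := by
    unfold Dat.S
    apply Finset.analyticAt_fun_sum
    intro i _
    exact analyticAt_const.mul (PSIE_an (D.u_ent i) z)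
  refine AnalyticAt.mul (AnalyticAt.mul analyticAt_const (AnalyticAt.mul ?_
    ((PSIE_an D.h_ent z).pow _))) ((hS.pow _).mul ((PSIE_an D.h_ent z).pow _))
  exact Finset.analyticAt_fun_prod _ fun i _ => (PSIE_an (D.u_ent (D.y i)) z).pow _

lemma PSIE_dds_G (D : Dat τ) (L k : ℕ) (ξ : D.Ix L k → 𝓞 D.K) (w : List (Fin 2)) :
    dds (w.map D.dir) (PSIE_G D L k ξ) 0 = ∑ j ∈ Finset.range (2 * D.dq * k),
      D.X ^ j * D.ψ (eval D.val (derw D.P w (PSIE_Q D L k ξ j))) := by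
  have han : ∀ j, AnalyticAt ℂ (fun z => eval₂ D.ψ (fun i => D.u i z / D.h z)
      (PSIE_Q D L k ξ j)) 0 := fun j =>
    analyticAt_eval₂ D.ψ (fun i z => D.u i z / D.h z) (PSIE_quot_an D D.h_zero) _
  unfold PSIE_G
  rw [dds_sum (Finset.range (2 * D.dq * k)) (fun j z => D.X ^ j *
    eval₂ D.ψ (fun i => D.u i z / D.h z) (PSIE_Q D L k ξ j)) (w.map D.dir)
    (fun j _ => analyticAt_const.mul (han j))]
  apply Finset.sum_congr rfl
  intro j _
  rw [dds_const_mul _ _ (han j)]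
  congr 1
  have h1 := dds_eval₂ D.ψ D.P (fun i z => D.u i z / D.h z) D.dir (PSIE_open D)
    (fun z hz i => PSIE_quot_an D hz i) (fun z hz b i => D.u_der z hz b i)
    (PSIE_Q D L k ξ j) w 0 D.h_zero
  rw [h1, eval₂_comp]
  congr 1
  funext i
  exact D.u_val i

/-! ### bounds -/

lemma PSIE_pow (x : ℝ) : ∃ m : ℕ, ∀ n : ℕ, 2 ≤ n → x ≤ (n : ℝ) ^ m := by
  obtain ⟨m, hm⟩ := pow_unbounded_of_one_lt x (by norm_num : (1 : ℝ) < 2)
  refine ⟨m, fun n hn => hm.le.trans ?_⟩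
  have : (2 : ℝ) ≤ n := by exact_mod_cast hn
  gcongr

lemma PSIE_exp (n c : ℕ) (hn : 2 ≤ n) :
    (n : ℝ) ^ (c * n) = Real.exp ((c : ℝ) * ((n : ℝ) * Real.log (n : ℝ))) := by
  have h0 : (0 : ℝ) < n := by
    have : 0 < n := by omega
    exact_mod_cast this
  rw [← Real.exp_log (pow_pos h0 (c * n)), Real.log_pow]
  congr 1
  push_cast
  ring

lemma PSIE_bound (D : Dat τ) : ∃ m : ℕ, ∀ (L k j : ℕ) (s : D.Ix L k) (w : List (Fin 2)) (n : ℕ),
    2 ≤ n → w.length + 2 * L + 2 * k ≤ 2 * n →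
    house (algebraMap (𝓞 D.K) D.K (eval D.val (derw D.P w (PSIE_m D L k j s)))) ≤
      (n : ℝ) ^ (m * n) := by
  obtain ⟨M, hM1, hM⟩ := PSIE_l1_sp D
  obtain ⟨C, hC1, hC⟩ := exists_house_bound_words D.P D.val
  obtain ⟨m, hm⟩ := PSIE_pow (2 * (C * M))
  refine ⟨2 * (m + 1), fun L k j s w n hn hw => ?_⟩
  have h1 := hC (PSIE_m D L k j s) (2 * L + k) w (M ^ k) (PSIE_totalDegree_m D L k j s)
    (fun σ => PSIE_l1_m D L k j s σ hM1 (hM σ))
  refine h1.trans ?_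
  have hn1 : (1 : ℝ) ≤ n := by
    have : 1 ≤ n := by omega
    exact_mod_cast this
  have hCM : C ≤ C * M := by nlinarith
  have hCM1 : 1 ≤ C * M := hC1.trans hCM
  have h2 : C ^ (w.length + (2 * L + k)) ≤ (C * M) ^ (w.length + (2 * L + k)) := by gcongr
  have h3 : M ^ k ≤ (C * M) ^ k := by
    have : M ≤ C * M := by nlinarith
    gcongr
  have h4 : (((2 * L + k + w.length : ℕ) : ℝ)) ^ w.length ≤ (2 * (n : ℝ)) ^ (2 * n) := by
    have h5 : ((2 * L + k + w.length : ℕ) : ℝ) ≤ 2 * (n : ℝ) := by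
      have : 2 * L + k + w.length ≤ 2 * n := by omega
      exact_mod_cast this
    calc (((2 * L + k + w.length : ℕ) : ℝ)) ^ w.length ≤ (2 * (n : ℝ)) ^ w.length := by gcongr
      _ ≤ (2 * (n : ℝ)) ^ (2 * n) := pow_le_pow_right₀ (by linarith) (by omega)
  calc C ^ (w.length + (2 * L + k)) * (((2 * L + k + w.length : ℕ) : ℝ)) ^ w.length * M ^ k
      ≤ (C * M) ^ (w.length + (2 * L + k)) * (2 * (n : ℝ)) ^ (2 * n) * (C * M) ^ k := by
        gcongr
    _ = (C * M) ^ (w.length + (2 * L + k) + k) * (2 * (n : ℝ)) ^ (2 * n) := by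
        rw [pow_add (C * M) (w.length + (2 * L + k)) k]; ring
    _ ≤ (C * M) ^ (2 * n) * (2 * (n : ℝ)) ^ (2 * n) := by
        have : (C * M) ^ (w.length + (2 * L + k) + k) ≤ (C * M) ^ (2 * n) :=
          pow_le_pow_right₀ hCM1 (by omega)
        gcongr
    _ = (2 * (C * M) * n) ^ (2 * n) := by rw [← mul_pow]; congr 1; ring
    _ ≤ ((n : ℝ) ^ m * n) ^ (2 * n) := by
        have := hm n hn
        gcongr
    _ = (n : ℝ) ^ (2 * (m + 1) * n) := by
        rw [← pow_succ, ← pow_mul]; congr 1; ring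

lemma PSIE_card (D : Dat τ) (L k n : ℕ) (hL : L ≤ n) (hk : k ≤ n) :
    (Fintype.card (D.Ix L k) : ℝ) ≤ (D.dq : ℝ) * (n : ℝ) ^ 4 := by
  have h1 : Fintype.card (D.Ix L k) = L ^ 2 * (k * (D.dq * k)) := by
    simp [Dat.Ix]
  rw [h1]
  have h2 : L ^ 2 * (k * (D.dq * k)) ≤ D.dq * n ^ 4 := by
    calc L ^ 2 * (k * (D.dq * k)) ≤ n ^ 2 * (n * (D.dq * n)) := by gcongr
      _ = D.dq * n ^ 4 := by ring
  exact_mod_cast h2

/-- Siegel's lemma -/
lemma PSIE_siegel (K : Type) [Field K] [NumberField K] : ∃ c : ℝ, 1 ≤ c ∧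
    ∀ (α β : Type) [Fintype α] [Fintype β] (a : Matrix α β (𝓞 K)), a ≠ 0 →
      0 < Fintype.card α → 2 * Fintype.card α ≤ Fintype.card β →
      ∀ A : ℝ, 1 ≤ A → (∀ k l, house (algebraMap (𝓞 K) K (a k l)) ≤ A) →
      ∃ ξ : β → 𝓞 K, ξ ≠ 0 ∧ a.mulVec ξ = 0 ∧
        ∀ l, house (algebraMap (𝓞 K) K (ξ l)) ≤ c * (Fintype.card β : ℝ) * A := by
  classical
  have key : ∃ c1 : ℝ, ∀ (α β : Type) [Fintype α] [Fintype β]
      (a : Matrix α β (𝓞 K)), a ≠ 0 →
      0 < Fintype.card α → 2 * Fintype.card α ≤ Fintype.card β →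
      ∀ A : ℝ, (∀ k l, house (algebraMap (𝓞 K) K (a k l)) ≤ A) →
      ∃ ξ : β → 𝓞 K, ξ ≠ 0 ∧ a.mulVec ξ = 0 ∧
        ∀ l, house (algebraMap (𝓞 K) K (ξ l)) ≤
          c1 * (c1 * (Fintype.card β : ℝ) * A) ^
            ((Fintype.card α : ℝ) / (Fintype.card β - Fintype.card α)) := by
    apply Exists.intro
    intro α β _ _ a ha hp hcard A hA
    obtain ⟨ξ, h1, h2, h3⟩ := house.exists_ne_zero_int_vec_house_le K a ha hp
      (q := Fintype.card β) (by omega) rfl hA rfl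
    exact ⟨ξ, h1, h2, h3⟩
  obtain ⟨c1, hc1⟩ := key
  refine ⟨(1 + |c1|) ^ 2, ?_, fun α β _ _ a ha hp hcard A hA1 hA => ?_⟩
  · have := abs_nonneg c1
    nlinarith
  obtain ⟨ξ, h1, h2, h3⟩ := hc1 α β a ha hp hcard A hA
  refine ⟨ξ, h1, h2, fun l => (h3 l).trans ?_⟩
  set θ : ℝ := (Fintype.card α : ℝ) / (Fintype.card β - Fintype.card α) with hθ
  set x : ℝ := c1 * (Fintype.card β : ℝ) * A with hx
  have hpR : (0 : ℝ) < Fintype.card α := by exact_mod_cast hp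
  have hqR : 2 * (Fintype.card α : ℝ) ≤ Fintype.card β := by exact_mod_cast hcard
  have hq1 : (1 : ℝ) ≤ Fintype.card β := by
    have : 1 ≤ Fintype.card β := by omega
    exact_mod_cast this
  have hθ0 : 0 ≤ θ := by
    rw [hθ]
    apply div_nonneg hpR.le
    linarith
  have hθ1 : θ ≤ 1 := by
    rw [hθ, div_le_one (by linarith)]
    linarith
  have hxθ : |x ^ θ| ≤ max 1 |x| := by
    refine (Real.abs_rpow_le_abs_rpow x θ).trans ?_
    rcases le_total |x| 1 with h | h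
    · exact (Real.rpow_le_one (abs_nonneg x) h hθ0).trans (le_max_left _ _)
    · calc |x| ^ θ ≤ |x| ^ (1 : ℝ) := Real.rpow_le_rpow_of_exponent_le h hθ1
        _ = |x| := Real.rpow_one _
        _ ≤ _ := le_max_right _ _
  have hqA : 1 ≤ (Fintype.card β : ℝ) * A := one_le_mul_of_one_le_of_one_le hq1 hA1
  have hxa : |x| = |c1| * ((Fintype.card β : ℝ) * A) := by
    rw [hx, mul_assoc, abs_mul, abs_of_nonneg (by linarith : 0 ≤ (Fintype.card β : ℝ) * A)]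
  have hc0 := abs_nonneg c1
  have hmax : max 1 |x| ≤ (1 + |c1|) * ((Fintype.card β : ℝ) * A) := by
    apply max_le
    · nlinarith
    · rw [hxa]; nlinarith
  calc c1 * x ^ θ ≤ |c1 * x ^ θ| := le_abs_self _
    _ = |c1| * |x ^ θ| := abs_mul _ _
    _ ≤ (1 + |c1|) * ((1 + |c1|) * ((Fintype.card β : ℝ) * A)) := by
        apply mul_le_mul (by linarith) (hxθ.trans hmax) (abs_nonneg _) (by linarith)
    _ = (1 + |c1|) ^ 2 * (Fintype.card β : ℝ) * A := by ring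

/-! ### Siegel's lemma for the auxiliary function -/

lemma PSIE_van (D : Dat τ) (L k T : ℕ) (ξ : D.Ix L k → 𝓞 D.K)
    (h : ∀ w : List (Fin 2), w.length < T → dds (w.map D.dir) (PSIE_G D L k ξ) 0 = 0) :
    Van T (D.Φ L k ξ) 0 := by
  have hG := PSIE_G_an D L k ξ
  have hvG : Van T (PSIE_G D L k ξ) 0 := by
    intro l hl
    choose c hc using D.dir_span
    have h1 := norm_dds_le hG D.dir (X := 0) (μ := (l.map fun v => ∑ i, ‖c v i‖).sum)
      (t := l.length) le_rfl (fun w hw => by rw [h w (by omega), norm_zero])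
      (List.sum_nonneg (by
        intro x hx
        obtain ⟨v, _, rfl⟩ := List.mem_map.mp hx
        exact Finset.sum_nonneg fun _ _ => norm_nonneg _)) l [] (by simp) (by
        intro v hv
        refine ⟨c v, hc v, ?_⟩
        apply List.single_le_sum _ _ (List.mem_map_of_mem hv)
        intro x hx
        obtain ⟨u, _, rfl⟩ := List.mem_map.mp hx
        exact Finset.sum_nonneg fun _ _ => norm_nonneg _)
    simpa using h1
  have hev : (fun z => D.h z ^ (2 * L + k)) * PSIE_G D L k ξ =ᶠ[𝓝 0] D.Φ L k ξ := by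
    filter_upwards [(PSIE_open D).mem_nhds D.h_zero] with z hz
    rw [Pi.mul_apply, PSIE_Phi_eq D L k ξ z hz]
  exact PSIE_van_congr hev (Van.mul ((PSIE_an D.h_ent 0).pow _) hG hvG)

theorem thm_PSIE (D : Dat τ) : St_PSIE D := by
  classical
  obtain ⟨m, hm⟩ := PSIE_bound D
  obtain ⟨c, hc1, hc⟩ := PSIE_siegel D.K
  obtain ⟨m1, hm1⟩ := PSIE_pow (c * D.dq)
  refine ⟨((m1 + 4 + m : ℕ) : ℝ), ?_, fun L k T hL hk hT hLT => ?_⟩
  · exact_mod_cast (by omega : 1 ≤ m1 + 4 + m)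
  set n := T + L + k with hn
  have hn2 : 2 ≤ n := by omega
  have hn1 : (1 : ℝ) ≤ n := by
    have : 1 ≤ n := by omega
    exact_mod_cast this
  have hdq := PSIE_dq_pos D
  let a : Matrix ((Fin 2 → Fin T) × Fin (2 * D.dq * k)) (D.Ix L k) (𝓞 D.K) := fun e s =>
    eval D.val (derw D.P (wordOf fun i => (e.1 i : ℕ)) (PSIE_m D L k e.2 s))
  have hN : 0 < 2 * D.dq * k := by positivity
  have ha : a ≠ 0 := by
    intro h
    have h1 := congrFun (congrFun h (fun _ => ⟨0, hT⟩, ⟨0, hN⟩))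
      (fun _ => ⟨0, hL⟩, ⟨0, hk⟩, ⟨0, by positivity⟩)
    have hw : wordOf (fun _ : Fin 2 => 0) = [] := by
      simp [wordOf]
    simp [a, hw, PSIE_m] at h1
  have hcα : Fintype.card ((Fin 2 → Fin T) × Fin (2 * D.dq * k)) = T ^ 2 * (2 * D.dq * k) := by
    simp
  have hcβ : Fintype.card (D.Ix L k) = L ^ 2 * (k * (D.dq * k)) := by
    simp [Dat.Ix]
  have hcard : 2 * Fintype.card ((Fin 2 → Fin T) × Fin (2 * D.dq * k)) ≤
      Fintype.card (D.Ix L k) := by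
    rw [hcα, hcβ]
    calc 2 * (T ^ 2 * (2 * D.dq * k)) = (4 * T ^ 2) * (D.dq * k) := by ring
      _ ≤ (L ^ 2 * k) * (D.dq * k) := by gcongr
      _ = L ^ 2 * (k * (D.dq * k)) := by ring
  obtain ⟨ξ, h1, h2, h3⟩ := hc _ _ a ha (by rw [hcα]; positivity) hcard
    ((n : ℝ) ^ (m * n)) (one_le_pow₀ hn1) (by
      intro e s
      apply hm L k e.2 s _ n hn2
      have := length_wordOf_le (fun i => (e.1 i : ℕ)) (T := T) fun i => (e.1 i).2.le
      omega)
  refine ⟨ξ, h1, ?_, fun s => (h3 s).trans ?_⟩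
  · apply PSIE_van
    intro w hw
    rw [dds_perm ((perm_wordOf w).map D.dir) (PSIE_G_an D L k ξ), PSIE_dds_G]
    apply Finset.sum_eq_zero
    intro j hj
    have h4 := congrFun h2 (fun i => ⟨w.count i, lt_of_le_of_lt List.count_le_length hw⟩,
      ⟨j, Finset.mem_range.mp hj⟩)
    simp only [Matrix.mulVec, dotProduct, Pi.zero_apply] at h4
    have h5 : eval D.val (derw D.P (wordOf fun i => w.count i) (PSIE_Q D L k ξ j)) = 0 := by
      unfold PSIE_Q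
      rw [derw_sum, map_sum, ← h4]
      apply Finset.sum_congr rfl
      intro s _
      simp [a, mul_comm]
    rw [h5, map_zero, mul_zero]
  · rw [← PSIE_exp n (m1 + 4 + m) hn2]
    have h4 := PSIE_card D L k n (by omega) (by omega)
    calc c * (Fintype.card (D.Ix L k) : ℝ) * (n : ℝ) ^ (m * n)
        ≤ c * ((D.dq : ℝ) * (n : ℝ) ^ 4) * (n : ℝ) ^ (m * n) := by gcongr
      _ = (c * D.dq) * (n : ℝ) ^ 4 * (n : ℝ) ^ (m * n) := by ring
      _ ≤ (n : ℝ) ^ m1 * (n : ℝ) ^ 4 * (n : ℝ) ^ (m * n) := by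
          have := hm1 n hn2
          gcongr
      _ = (n : ℝ) ^ (m1 + 4 + m * n) := by rw [pow_add, pow_add]
      _ ≤ (n : ℝ) ^ ((m1 + 4 + m) * n) := pow_le_pow_right₀ hn1 (by nlinarith)

end Pool.Agent.KT
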