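import Pool.Agent.KT.BAS

/-!
# KT: assembly of the Schwarz lemma, first step (the good slabs)
-/

set_option autoImplicit false

open scoped BigOperators ComplexConjugate Topology
open MeasureTheory

namespace Pool.Agent.KT

/-- the ingredients -/
structure SHyp (τ : Tor) : Prop where
  slab : St_SLAB τ
  low : St_LOW τ
  bsec : St_BSEC τ
  bup : St_BUP
  blow : St_BLOW
  iso : St_ISO τ
  mass : St_MASS τ
  key : St_KEY τ
  chi : St_CHI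
  log : St_LOG
  mean : St_MEAN τ
  nsq : St_NSQ
  ball : St_BALL τ

/-- the scaled coefficients -/
noncomputable def SCH_f (B : ℕ → ℕ → ℂ × ℂ → ℂ) (m : ℕ) (p : Fin (m + 1) × Fin (m + 1))
    (z : ℂ × ℂ) : ℂ := (((1 / 64 : ℝ)) : ℂ) ^ ((p.1 : ℕ) + (p.2 : ℕ)) * B p.1 p.2 z

lemma SCH_ht_pm {z a : ℂ × ℂ} {t₀ : ℝ} (hz : |ht z - t₀| ≤ 1) (ha : ‖a.1‖ ≤ 1) :
    |ht (z + a) - t₀| ≤ 2 ∧ |ht (z - a) - t₀| ≤ 2 := by
  have h1 := (BAS_abs_ht_le a).trans ha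
  rw [BAS_ht_add, BAS_ht_sub]
  rw [abs_le] at hz h1
  constructor <;> rw [abs_le] <;> constructor <;> linarith

lemma SCH_le_of_sq {x y : ℝ} (h : x ^ 2 ≤ y ^ 2) (hy : 0 ≤ y) : x ≤ y := by
  by_contra hc
  push Not at hc
  nlinarith

lemma SCH_prod {x y η : ℝ} (hx0 : 0 ≤ x) (hy0 : 0 ≤ y) (hx : x ≤ 1) (hy : y ≤ 1) (hη : 0 ≤ η)
    (hη1 : η ≤ 1) : (x ^ 2 + η ^ 2) * (y ^ 2 + η ^ 2) ≤ (x * y) ^ 2 + 3 * η ^ 2 := by
  have hx2 : x ^ 2 ≤ 1 := by nlinarith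
  have hy2 : y ^ 2 ≤ 1 := by nlinarith
  have hη2 : η ^ 2 ≤ 1 := by nlinarith
  have h1 : η ^ 2 * x ^ 2 ≤ η ^ 2 * 1 := mul_le_mul_of_nonneg_left hx2 (sq_nonneg η)
  have h2 : η ^ 2 * y ^ 2 ≤ η ^ 2 * 1 := mul_le_mul_of_nonneg_left hy2 (sq_nonneg η)
  have h3 : η ^ 2 * η ^ 2 ≤ η ^ 2 * 1 := mul_le_mul_of_nonneg_left hη2 (sq_nonneg η)
  calc (x ^ 2 + η ^ 2) * (y ^ 2 + η ^ 2) = (x * y) ^ 2 + (η ^ 2 * x ^ 2 + η ^ 2 * y ^ 2 +
        η ^ 2 * η ^ 2) := by ring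
    _ ≤ _ := by linarith

lemma SCH_low {x y η M κ CS E : ℝ} (hx0 : 0 ≤ x) (hy0 : 0 ≤ y) (hx : x ≤ 1) (hy : y ≤ 1)
    (hη : 0 ≤ η) (hη1 : η ≤ 1) (hκ : 1 ≤ κ) (hCS : 0 ≤ CS)
    (h3 : Real.exp (2 * (2 * M - CS * κ)) ≤ (x ^ 2 + η ^ 2) * (y ^ 2 + η ^ 2))
    (h4 : E ≤ Real.exp (2 * (2 * M - CS * κ))) (hηE : 3 * η ^ 2 ≤ E / 2) :
    Real.exp (2 * M - (3 * CS + 1) * κ) ≤ x * y := by
  have h5 := SCH_prod hx0 hy0 hx hy hη hη1
  have h6 : Real.exp (2 * (2 * M - CS * κ)) / 2 ≤ (x * y) ^ 2 := by linarith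
  apply SCH_le_of_sq _ (by positivity)
  refine le_trans ?_ h6
  have h7 : Real.exp (2 * M - (3 * CS + 1) * κ) ^ 2 ≤
      Real.exp (2 * (2 * M - CS * κ) + (-1)) := by
    rw [← Real.exp_nat_mul]
    apply Real.exp_le_exp.mpr
    push_cast
    have h8 : 0 ≤ CS * κ := by positivity
    nlinarith
  refine h7.trans ?_
  rw [Real.exp_add]
  have h9 : Real.exp (-1) ≤ 1 / 2 := by
    rw [Real.exp_neg]
    have := Real.add_one_le_exp (1 : ℝ)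
    rw [inv_le_comm₀ (Real.exp_pos _) (by norm_num)]
    linarith
  have h10 := Real.exp_pos (2 * (2 * M - CS * κ))
  calc Real.exp (2 * (2 * M - CS * κ)) * Real.exp (-1) ≤
        Real.exp (2 * (2 * M - CS * κ)) * (1 / 2) := by gcongr
    _ = _ := by ring

lemma SCH_step1 {τ : Tor} (h : SHyp τ) :
    ∃ CL Y₁ K CB : ℝ, 0 ≤ CL ∧ 1 ≤ Y₁ ∧ 0 ≤ K ∧ 0 ≤ CB ∧
      ∀ (κ Y G : ℝ) (F : ℂ × ℂ → ℂ) (z₀ : ℂ × ℂ) (B : ℕ → ℕ → ℂ × ℂ → ℂ) (m : ℕ), 1 ≤ κ → Y₁ ≤ Y →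
      0 ≤ G → G ≤ κ * Y ^ 2 → τ.Sec κ F → (∀ z, |ht z| ≤ Y → nrm κ F z ≤ 1) →
      |ht z₀| ≤ Y / 32 → Real.exp (-G) ≤ nrm κ F z₀ → IsCoef F B → K * κ ≤ m →
      (m : ℝ) ≤ K * κ + 1 →
      ∃ η₁ : ℝ, 0 < η₁ ∧ η₁ ≤ 1 ∧ ∀ η, 0 < η → η < η₁ →
        (∀ t ∈ Set.Icc (-Y) Y, -(CL * (G + κ * Y ^ 2)) ≤ τ.avg (BAS_u F κ η) t) ∧
        (∀ z, |ht z| ≤ Y → BAS_u F κ η z ≤ κ) ∧
        ∃ t₁ ∈ Set.Icc (Y / 8) (Y / 4), ∃ t₂ ∈ Set.Icc (-(Y / 4)) (-(Y / 8)),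
          ∀ t₀ ∈ ({t₁, t₂} : Set ℝ), ∀ z, |ht z - t₀| ≤ 1 →
            Real.exp (4 * (τ.avg (BAS_u F κ η) (ht z) - CB * κ + κ * nsq z)) ≤
              ∑ p, ‖SCH_f B m p z‖ ^ 2 := by
  obtain ⟨CL, YL, hCL, hYL, hlow⟩ := h.low
  obtain ⟨CS, YS, hCS, hYS, hslab⟩ := h.slab (1 / 128) (2 * CL) (by norm_num) (by norm_num)
    (by positivity)
  obtain ⟨K, CB, hK, hCB, hblow⟩ := h.blow (3 * CS + 1) (by positivity)
  refine ⟨CL, max (max YL YS) 16, K, CB, hCL, le_trans (by norm_num) (le_max_right _ _), hK, hCB, ?_⟩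
  intro κ Y G F z₀ B m hκ hY hG hGY hF hb hz₀ hz₀' hB hm1 hm2
  have hYL' : YL ≤ Y := ((le_max_left _ _).trans (le_max_left _ _)).trans hY
  have hYS' : YS ≤ Y := ((le_max_right _ _).trans (le_max_left _ _)).trans hY
  have hY16 : 16 ≤ Y := (le_max_right _ _).trans hY
  set E : ℝ := Real.exp (-(8 * CL * κ * Y ^ 2 + 2 * CS * κ)) with hE
  have hEpos : 0 < E := Real.exp_pos _
  refine ⟨min 1 (E / 6), lt_min one_pos (by positivity), min_le_left _ _, fun η hη hη1 => ?_⟩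
  have hη1' : η < 1 := hη1.trans_le (min_le_left _ _)
  have hηE : 3 * η ^ 2 ≤ E / 2 := by
    have h1 : η ≤ E / 6 := (hη1.trans_le (min_le_right _ _)).le
    nlinarith
  set u := BAS_u F κ η with hu
  have hueq : ∀ z, u z = 1 / 2 * Real.log (nrm κ F z ^ 2 + η ^ 2) := BAS_u_eq F κ hη
  have hexp : ∀ z, Real.exp (2 * u z) = nrm κ F z ^ 2 + η ^ 2 := by
    intro z
    rw [hueq z, ← mul_assoc]
    norm_num
    exact Real.exp_log (by positivity)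
  have hu_le : ∀ z, |ht z| ≤ Y → u z ≤ κ := by
    intro z hz
    have h1 : nrm κ F z ^ 2 + η ^ 2 ≤ 2 := by
      have := hb z hz
      have h0 := BAS_nrm_nonneg κ F z
      nlinarith
    have h2 : Real.log (nrm κ F z ^ 2 + η ^ 2) ≤ 1 := by
      refine (Real.log_le_sub_one_of_pos (by positivity)).trans ?_
      linarith
    rw [hueq z]
    linarith
  have hu0 : -G ≤ u z₀ := by
    have h1 : Real.exp (2 * (-G)) ≤ Real.exp (2 * u z₀) := by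
      rw [hexp, two_mul, Real.exp_add]
      have := Real.exp_pos (-G)
      nlinarith [sq_nonneg η]
    have := Real.exp_le_exp.mp h1
    linarith
  have hper : τ.Per u := BAS_u_per hF hη
  have hκ0 : 0 ≤ κ := by linarith
  have hsm : ContDiff ℝ (⊤ : ℕ∞) u := BAS_u_smooth h.log h.nsq hF.entire hκ0 hη
  have hpl : plus κ u = uu F κ η := BAS_plus_u F κ η
  have hpsh : Psh ⊤ (plus κ u) := by
    rw [hpl]
    exact BAS_uu_psh h.log hF.entire hκ0 hη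
  have hM := (hlow κ Y G u z₀ hκ hYL' hG hper hsm hpsh hu_le hz₀ hu0).2
  have hM' : ∀ t ∈ Set.Icc (-Y) Y, -(2 * CL * κ * Y ^ 2) ≤ τ.avg u t := by
    intro t ht
    refine le_trans ?_ (hM t ht)
    nlinarith [mul_le_mul_of_nonneg_left hGY hCL]
  refine ⟨hM, hu_le, ?_⟩
  obtain ⟨t₁, ht₁, t₂, ht₂, hall⟩ := hslab κ Y u hκ hYS' hper hsm hpsh hu_le hM'
  refine ⟨t₁, ht₁, t₂, ht₂, fun t₀ ht₀ z hz => ?_⟩
  obtain ⟨hup, hlo, hcv⟩ := hall t₀ ht₀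
  have ht₀Y : |t₀| ≤ Y / 4 := by
    rcases ht₀ with rfl | ht₀
    · rw [abs_le]
      exact ⟨by linarith [ht₁.1], ht₁.2⟩
    · rw [Set.mem_singleton_iff] at ht₀
      subst ht₀
      rw [abs_le]
      exact ⟨ht₂.1, by linarith [ht₂.2]⟩
  have hnear : ∀ w : ℂ × ℂ, |ht w - t₀| ≤ 2 → |ht w| ≤ Y := by
    intro w hw
    have h1 : |ht w| ≤ |ht w - t₀| + |t₀| := by
      have := abs_add_le (ht w - t₀) t₀
      simpa using this
    linarith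
  have key := hblow κ (1 / 64) (τ.avg u (ht z)) F B z
  -- lower bound: the point a
  obtain ⟨a, ha1, ha2, hau⟩ := hlo z (hz.trans (by norm_num))
  have ha1' : ‖a.1‖ ≤ 1 / 64 := ha1.trans (by norm_num)
  have ha2' : ‖a.2‖ ≤ 1 / 64 := ha2.trans (by norm_num)
  have hfin := key a m hκ (by norm_num) le_rfl hm1 hm2 hB ?_ ha1' ha2' ?_
  · simpa [SCH_f] using hfin
  · intro b hb1 hb2
    obtain ⟨h1, h2⟩ := SCH_ht_pm hz hb1
    have h3 := hup _ h1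
    have h4 := hup _ h2
    have h5 : nrm κ F (z + b) ≤ Real.exp (u (z + b)) := by
      have := hexp (z + b)
      have h6 : nrm κ F (z + b) ^ 2 ≤ Real.exp (u (z + b)) ^ 2 := by
        rw [← Real.exp_nat_mul]
        push_cast
        rw [this]
        nlinarith [sq_nonneg η]
      exact (SCH_le_of_sq h6 (Real.exp_pos _).le)
    have h5' : nrm κ F (z - b) ≤ Real.exp (u (z - b)) := by
      have := hexp (z - b)
      have h6 : nrm κ F (z - b) ^ 2 ≤ Real.exp (u (z - b)) ^ 2 := by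
        rw [← Real.exp_nat_mul]
        push_cast
        rw [this]
        nlinarith [sq_nonneg η]
      exact (SCH_le_of_sq h6 (Real.exp_pos _).le)
    calc nrm κ F (z + b) * nrm κ F (z - b) ≤ Real.exp (u (z + b)) * Real.exp (u (z - b)) := by
          gcongr
          exact BAS_nrm_nonneg _ _ _
      _ = Real.exp (u (z + b) + u (z - b)) := (Real.exp_add _ _).symm
      _ ≤ _ := by
          apply Real.exp_le_exp.mpr
          have h7 := hcv (ht z) (ht b) (hz.trans (by norm_num))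
            ((BAS_abs_ht_le b).trans (hb1.trans (by norm_num)))
          rw [BAS_ht_add] at h3
          rw [BAS_ht_sub] at h4
          have h8 := (abs_le.mp h7).2
          linarith
  · have ha1'' : ‖a.1‖ ≤ 1 := ha1'.trans (by norm_num)
    obtain ⟨h1, h2⟩ := SCH_ht_pm hz ha1''
    have hx1 := hb _ (hnear _ h1)
    have hy1 := hb _ (hnear _ h2)
    have hx0 := BAS_nrm_nonneg κ F (z + a)
    have hy0 := BAS_nrm_nonneg κ F (z - a)
    set x := nrm κ F (z + a) with hx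
    set y := nrm κ F (z - a) with hy
    set M := τ.avg u (ht z) with hMdef
    have h3 : Real.exp (2 * (2 * M - CS * κ)) ≤ (x ^ 2 + η ^ 2) * (y ^ 2 + η ^ 2) := by
      rw [← hexp, ← hexp, ← Real.exp_add]
      apply Real.exp_le_exp.mpr
      linarith
    have hMlow : -(2 * CL * κ * Y ^ 2) ≤ M := by
      apply hM'
      have := hnear z (hz.trans (by norm_num))
      exact abs_le.mp this
    have h4 : E ≤ Real.exp (2 * (2 * M - CS * κ)) := by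
      rw [hE]
      apply Real.exp_le_exp.mpr
      linarith
    exact SCH_low hx0 hy0 hx1 hy1 hη.le hη1'.le hκ hCS h3 h4 hηE

end Pool.Agent.KT
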