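import Pool.Agent.KT.SCH1

/-!
# KT: assembly of the Schwarz lemma, second step (the main inequality)
-/

set_option autoImplicit false

open scoped BigOperators ComplexConjugate Topology
open MeasureTheory

namespace Pool.Agent.KT

/-- integral of a bump function times a function bounded above on the support -/
lemma SCH_int_le {b φ : ℝ → ℝ} (hb : Continuous b) (hb0 : ∀ t, 0 ≤ b t) {p q : ℝ}
    (hsupp : ∀ t, b t ≠ 0 → t ∈ Set.Icc p q) (hφ : Continuous φ) {C : ℝ}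
    (h : ∀ t ∈ Set.Icc p q, φ t ≤ C) : ∫ t, b t * φ t ≤ C * ∫ t, b t := by
  have hcs : HasCompactSupport b :=
    HasCompactSupport.intro (isCompact_Icc (a := p) (b := q)) fun t ht => by
      by_contra hc
      exact ht (hsupp t hc)
  have hi : Integrable b := hb.integrable_of_hasCompactSupport hcs
  have hi2 : Integrable fun t => b t * φ t :=
    (hb.mul hφ).integrable_of_hasCompactSupport hcs.mul_right
  rw [← integral_const_mul]
  apply integral_mono hi2 (hi.const_mul C)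
  intro t
  by_cases h0 : b t = 0
  · simp [h0]
  · change b t * φ t ≤ C * b t
    rw [mul_comm]
    exact mul_le_mul_of_nonneg_right (h t (hsupp t h0)) (hb0 t)

lemma SCH_cs {b : ℝ → ℝ} {p q : ℝ} (hsupp : ∀ t, b t ≠ 0 → t ∈ Set.Icc p q) :
    HasCompactSupport b :=
  HasCompactSupport.intro (isCompact_Icc (a := p) (b := q)) fun t ht => by
    by_contra hc
    exact ht (hsupp t hc)

lemma SCH_dec {f1 f2 f3 f4 g : ℝ → ℝ} (i1 : Integrable f1) (i2 : Integrable f2)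
    (i3 : Integrable f3) (i4 : Integrable f4) (h : ∀ t, g t = f1 t + f2 t + f3 t + f4 t) :
    ∫ t, g t = (∫ t, f1 t) + (∫ t, f2 t) + (∫ t, f3 t) + ∫ t, f4 t := by
  have hg : g = fun t => f1 t + f2 t + f3 t + f4 t := funext h
  have i12 : Integrable fun t => f1 t + f2 t := i1.add i2
  have i123 : Integrable fun t => f1 t + f2 t + f3 t := i12.add i3
  rw [hg, integral_add i123 i4, integral_add i12 i3, integral_add i1 i2]

/-- numerical part -/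
lemma SCH_num {κ Y G CL A1 A2 A3 A4 A5 A6 A7 A8 X W c1 c2 I I' N : ℝ} (hκ : 1 ≤ κ) (hY : 16 ≤ Y)
    (hG : 0 ≤ G) (hCL : 0 ≤ CL) (hc1 : 0 ≤ c1) (hc2 : 0 ≤ c2) (hI : I ≤ 4 / Y) (hI' : I' ≤ 4 / Y)
    (hW : W = CL * (G + κ * Y ^ 2))
    (h1 : A1 ≤ (4 * κ * (W + c1 * κ - N)) * I) (h2 : A2 ≤ (4 * κ * (c2 * κ + N)) * I)
    (h3 : A3 ≤ (4 * κ * (W + c1 * κ - N)) * I') (h4 : A4 ≤ (4 * κ * (c2 * κ + N)) * I')
    (h5 : A5 ≤ W * I) (h6 : A6 ≤ κ * I) (h7 : A7 ≤ W * I') (h8 : A8 ≤ κ * I')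
    (hX : X ≤ 2 * (Y / 2 + 1 / 2)) :
    A1 + A2 + A3 + A4 + 4 * κ * (A5 + A6 + A7 + A8) + 32 * κ ^ 2 * X ≤
      (64 * CL + 32 * (c1 + c2 + 1) + 64) * (κ * G / Y + κ ^ 2 * Y) := by
  have hκ0 : 0 ≤ κ := by linarith
  have hY0 : 0 < Y := by linarith
  have hW0 : 0 ≤ W := by rw [hW]; positivity
  have e1 : A1 + A2 + A3 + A4 + 4 * κ * (A5 + A6 + A7 + A8) ≤
      4 * κ * (2 * W + (c1 + c2 + 1) * κ) * (I + I') := by
    have : 4 * κ * (A5 + A6 + A7 + A8) ≤ 4 * κ * (W * I + κ * I + W * I' + κ * I') := by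
      gcongr
    nlinarith
  have e2 : 4 * κ * (2 * W + (c1 + c2 + 1) * κ) * (I + I') ≤
      4 * κ * (2 * W + (c1 + c2 + 1) * κ) * (8 / Y) := by
    gcongr
    have : (8 : ℝ) / Y = 4 / Y + 4 / Y := by ring
    linarith
  have e3 : 4 * κ * (2 * W + (c1 + c2 + 1) * κ) * (8 / Y) =
      64 * CL * (κ * G / Y + κ ^ 2 * Y) + 32 * (c1 + c2 + 1) * (κ ^ 2 / Y) := by
    rw [hW]
    field_simp
    ring
  have e4 : κ ^ 2 / Y ≤ κ * G / Y + κ ^ 2 * Y := by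
    have h9 : κ ^ 2 / Y ≤ κ ^ 2 * Y := by
      rw [div_le_iff₀ hY0]
      have : 1 ≤ Y * Y := by nlinarith
      nlinarith [sq_nonneg κ]
    have h10 : 0 ≤ κ * G / Y := by positivity
    linarith
  have e5 : 32 * κ ^ 2 * X ≤ 64 * (κ * G / Y + κ ^ 2 * Y) := by
    have h10 : 0 ≤ κ * G / Y := by positivity
    have h11 : X ≤ 2 * Y := by linarith
    calc 32 * κ ^ 2 * X ≤ 32 * κ ^ 2 * (2 * Y) := by gcongr
      _ = 64 * (κ ^ 2 * Y) := by ring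
      _ ≤ _ := by linarith
  have e6 : 32 * (c1 + c2 + 1) * (κ ^ 2 / Y) ≤ 32 * (c1 + c2 + 1) * (κ * G / Y + κ ^ 2 * Y) := by
    gcongr
  calc A1 + A2 + A3 + A4 + 4 * κ * (A5 + A6 + A7 + A8) + 32 * κ ^ 2 * X
      ≤ 64 * CL * (κ * G / Y + κ ^ 2 * Y) + 32 * (c1 + c2 + 1) * (κ * G / Y + κ ^ 2 * Y) +
        64 * (κ * G / Y + κ ^ 2 * Y) := by linarith
    _ = _ := by ring

/-- the part on the real line -/
lemma SCH_line {κ Y G CL CB c2 N W t₁ t₂ : ℝ} {χ χ2 b₁ b₂ b₁' b₂' φ M : ℝ → ℝ} (hκ : 1 ≤ κ)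
    (hY : 16 ≤ Y) (hG : 0 ≤ G) (hCL : 0 ≤ CL) (hCB : 0 ≤ CB) (hc2 : 0 ≤ c2)
    (hW : W = CL * (G + κ * Y ^ 2)) (ht₁ : t₁ ∈ Set.Icc (Y / 8) (Y / 4))
    (ht₂ : t₂ ∈ Set.Icc (-(Y / 4)) (-(Y / 8))) (hχc : Continuous χ) (hχ1 : ∀ t, χ t ≤ 1)
    (hχout : ∀ t, Y / 2 + 1 / 2 ≤ |t| → χ t = 0)
    (cb₁ : Continuous b₁) (cb₂ : Continuous b₂) (cb₁' : Continuous b₁') (cb₂' : Continuous b₂')
    (nb₁ : ∀ t, 0 ≤ b₁ t) (nb₂ : ∀ t, 0 ≤ b₂ t) (nb₁' : ∀ t, 0 ≤ b₁' t) (nb₂' : ∀ t, 0 ≤ b₂' t)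
    (hχ'' : ∀ t, χ2 t = -b₁ t + b₂ t - b₁' t + b₂' t)
    (sb₁ : ∀ t, b₁ t ≠ 0 → t ∈ Set.Icc t₁ (t₁ + 1 / 2))
    (sb₂ : ∀ t, b₂ t ≠ 0 → t ∈ Set.Icc (Y / 2) (Y / 2 + 1 / 2))
    (sb₁' : ∀ t, b₁' t ≠ 0 → t ∈ Set.Icc (t₂ - 1 / 2) t₂)
    (sb₂' : ∀ t, b₂' t ≠ 0 → t ∈ Set.Icc (-(Y / 2) - 1 / 2) (-(Y / 2)))
    (ib₁ : ∫ t, b₁ t = 1 / (Y / 2 - t₁)) (ib₂ : ∫ t, b₂ t = 1 / (Y / 2 - t₁))
    (ib₁' : ∫ t, b₁' t = 1 / (Y / 2 + t₂)) (ib₂' : ∫ t, b₂' t = 1 / (Y / 2 + t₂))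
    (hcφ : Continuous φ) (hcM : Continuous M)
    (h1 : ∀ t ∈ Set.Icc t₁ (t₁ + 1 / 2), 4 * κ * (-W - CB * κ + N) ≤ φ t)
    (h1' : ∀ t ∈ Set.Icc (t₂ - 1 / 2) t₂, 4 * κ * (-W - CB * κ + N) ≤ φ t)
    (h2 : ∀ t ∈ Set.Icc (Y / 2) (Y / 2 + 1 / 2), φ t ≤ 4 * κ * (c2 * κ + N))
    (h2' : ∀ t ∈ Set.Icc (-(Y / 2) - 1 / 2) (-(Y / 2)), φ t ≤ 4 * κ * (c2 * κ + N))
    (hM1 : ∀ t, |t| ≤ Y → -W ≤ M t) (hM2 : ∀ t, |t| ≤ Y → M t ≤ κ) :
    (∫ t, χ2 t * φ t) + 4 * κ * (∫ t, χ2 t * M t) + 32 * κ ^ 2 * ∫ t, χ t ≤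
      (64 * CL + 32 * (CB + c2 + 1) + 64) * (κ * G / Y + κ ^ 2 * Y) := by
  have hA1 : ∫ t, b₁ t * (-φ t) ≤ (4 * κ * (W + CB * κ - N)) * ∫ t, b₁ t := by
    apply SCH_int_le cb₁ nb₁ sb₁ hcφ.neg
    intro t ht
    have := h1 t ht
    change -φ t ≤ _
    linarith only [this]
  have hA3 : ∫ t, b₁' t * (-φ t) ≤ (4 * κ * (W + CB * κ - N)) * ∫ t, b₁' t := by
    apply SCH_int_le cb₁' nb₁' sb₁' hcφ.neg
    intro t ht
    have := h1' t ht
    change -φ t ≤ _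
    linarith only [this]
  have hA2 : ∫ t, b₂ t * φ t ≤ (4 * κ * (c2 * κ + N)) * ∫ t, b₂ t :=
    SCH_int_le cb₂ nb₂ sb₂ hcφ h2
  have hA4 : ∫ t, b₂' t * φ t ≤ (4 * κ * (c2 * κ + N)) * ∫ t, b₂' t :=
    SCH_int_le cb₂' nb₂' sb₂' hcφ h2'
  have hA5 : ∫ t, b₁ t * (-M t) ≤ W * ∫ t, b₁ t := by
    apply SCH_int_le cb₁ nb₁ sb₁ hcM.neg
    intro t ht
    have := hM1 t (by
      rw [abs_of_nonneg (by linarith only [ht.1, ht₁.1, hY])]
      linarith only [ht.2, ht₁.2, hY])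
    change -M t ≤ W
    linarith only [this]
  have hA7 : ∫ t, b₁' t * (-M t) ≤ W * ∫ t, b₁' t := by
    apply SCH_int_le cb₁' nb₁' sb₁' hcM.neg
    intro t ht
    have := hM1 t (by
      rw [abs_of_nonpos (by linarith only [ht.2, ht₂.2, hY])]
      linarith only [ht.1, ht₂.1, hY])
    change -M t ≤ W
    linarith only [this]
  have hA6 : ∫ t, b₂ t * M t ≤ κ * ∫ t, b₂ t := by
    apply SCH_int_le cb₂ nb₂ sb₂ hcM
    intro t ht
    exact hM2 t (by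
      rw [abs_of_nonneg (by linarith only [ht.1, hY])]; linarith only [ht.2, hY])
  have hA8 : ∫ t, b₂' t * M t ≤ κ * ∫ t, b₂' t := by
    apply SCH_int_le cb₂' nb₂' sb₂' hcM
    intro t ht
    exact hM2 t (by
      rw [abs_of_nonpos (by linarith only [ht.2, hY])]; linarith only [ht.1, hY])
  have hX : ∫ t, χ t ≤ 2 * (Y / 2 + 1 / 2) := by
    have e1 : ∫ t, χ t = ∫ t in Set.Icc (-(Y / 2 + 1 / 2)) (Y / 2 + 1 / 2), χ t := by
      symm
      apply setIntegral_eq_integral_of_forall_compl_eq_zero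
      intro t ht
      apply hχout
      by_contra hc
      push Not at hc
      exact ht (abs_le.mp hc.le)
    rw [e1]
    have e2 := setIntegral_mono_on (s := Set.Icc (-(Y / 2 + 1 / 2)) (Y / 2 + 1 / 2))
      (f := χ) (g := fun _ => (1 : ℝ)) (μ := volume)
      (hχc.continuousOn.integrableOn_compact isCompact_Icc)
      (continuous_const.continuousOn.integrableOn_compact isCompact_Icc) measurableSet_Icc
      (fun t _ => hχ1 t)
    refine e2.trans (le_of_eq ?_)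
    rw [setIntegral_const, Real.volume_real_Icc_of_le (by linarith only [hY])]
    simp
    ring
  have hdec : ∀ ψ : ℝ → ℝ, Continuous ψ → ∫ t, χ2 t * ψ t =
      (∫ t, b₁ t * (-ψ t)) + (∫ t, b₂ t * ψ t) + (∫ t, b₁' t * (-ψ t)) + ∫ t, b₂' t * ψ t := by
    intro ψ hψ
    have i1 : Integrable fun t => b₁ t * (-ψ t) :=
      (cb₁.mul hψ.neg).integrable_of_hasCompactSupport (SCH_cs sb₁).mul_right
    have i2 : Integrable fun t => b₂ t * ψ t :=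
      (cb₂.mul hψ).integrable_of_hasCompactSupport (SCH_cs sb₂).mul_right
    have i3 : Integrable fun t => b₁' t * (-ψ t) :=
      (cb₁'.mul hψ.neg).integrable_of_hasCompactSupport (SCH_cs sb₁').mul_right
    have i4 : Integrable fun t => b₂' t * ψ t :=
      (cb₂'.mul hψ).integrable_of_hasCompactSupport (SCH_cs sb₂').mul_right
    apply SCH_dec i1 i2 i3 i4
    intro t
    rw [hχ'' t]
    ring
  rw [hdec φ hcφ, hdec M hcM]
  have hq1 : 0 < Y / 2 - t₁ := by linarith only [ht₁.2, hY]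
  have hq2 : 0 < Y / 2 + t₂ := by linarith only [ht₂.1, hY]
  have hI : 1 / (Y / 2 - t₁) ≤ 4 / Y := by
    rw [div_le_div_iff₀ hq1 (by linarith only [hY])]
    linarith only [ht₁.2]
  have hI' : 1 / (Y / 2 + t₂) ≤ 4 / Y := by
    rw [div_le_div_iff₀ hq2 (by linarith only [hY])]
    linarith only [ht₂.1]
  rw [ib₁] at hA1 hA5
  rw [ib₂] at hA2 hA6
  rw [ib₁'] at hA3 hA7
  rw [ib₂'] at hA4 hA8
  have hfinal := SCH_num hκ hY hG hCL hCB hc2 hI hI' hW hA1 hA2 hA3 hA4 hA5 hA6 hA7 hA8 hX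
  refine le_trans (le_of_eq ?_) hfinal
  ring

/-- bounds for the second function at a good height -/
lemma SCH_wlow {m : ℕ} {f : Fin (m + 1) × Fin (m + 1) → ℂ × ℂ → ℂ} {κ η' M CB : ℝ} {z : ℂ × ℂ}
    (hη' : 0 < η')
    (h1 : Real.exp (4 * (M - CB * κ + κ * nsq z)) ≤ ∑ p, ‖f p z‖ ^ 2) :
    M - CB * κ ≤ 1 / 4 * lgs f (2 * κ) η' z - κ * nsq z := by
  have h3 : 4 * (M - CB * κ + κ * nsq z) ≤ lgs f (2 * κ) η' z := by
    unfold lgs
    have h4 : 0 < η' ^ 2 * Real.exp (2 * (2 * κ) * nsq z) := by positivity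
    have h5 : 0 ≤ ∑ j, ‖f j z‖ ^ 2 := Finset.sum_nonneg fun _ _ => by positivity
    rw [Real.le_log_iff_exp_le (by linarith only [h4, h5])]
    linarith only [h1, h4]
  linarith only [h3]

lemma SCH_wup {m : ℕ} {f : Fin (m + 1) × Fin (m + 1) → ℂ × ℂ → ℂ} {κ η' CU : ℝ} {z : ℂ × ℂ}
    (hκ : 1 ≤ κ) (hCU : 0 ≤ CU) (hη' : 0 < η') (hη'1 : η' ≤ 1)
    (h1 : ∑ p, ‖f p z‖ ^ 2 ≤ Real.exp (4 * (0 + CU * κ + κ * nsq z))) :
    1 / 4 * lgs f (2 * κ) η' z - κ * nsq z ≤ (CU + 1) * κ := by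
  have h3 : lgs f (2 * κ) η' z ≤ 1 + 4 * (CU * κ + κ * nsq z) := by
    unfold lgs
    have h4 : 0 < η' ^ 2 * Real.exp (2 * (2 * κ) * nsq z) := by positivity
    have h5 : 0 ≤ ∑ j, ‖f j z‖ ^ 2 := Finset.sum_nonneg fun _ _ => by positivity
    rw [Real.log_le_iff_le_exp (by linarith only [h4, h5])]
    have h9 : η' ^ 2 * Real.exp (2 * (2 * κ) * nsq z) ≤
        Real.exp (4 * (0 + CU * κ + κ * nsq z)) := by
      have h10 : η' ^ 2 ≤ 1 := by nlinarith only [hη', hη'1]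
      calc η' ^ 2 * Real.exp (2 * (2 * κ) * nsq z) ≤ 1 * Real.exp (2 * (2 * κ) * nsq z) := by
            gcongr
        _ ≤ _ := by
            rw [one_mul]
            apply Real.exp_le_exp.mpr
            have : 0 ≤ CU * κ := by positivity
            linarith only [this]
    have h11 : (2 : ℝ) ≤ Real.exp 1 := by
      have := Real.add_one_le_exp (1 : ℝ)
      linarith only [this]
    calc _ ≤ 2 * Real.exp (4 * (0 + CU * κ + κ * nsq z)) := by linarith only [h1, h9]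
      _ ≤ Real.exp 1 * Real.exp (4 * (0 + CU * κ + κ * nsq z)) := by gcongr
      _ = Real.exp (1 + 4 * (CU * κ + κ * nsq z)) := by
          rw [← Real.exp_add]; congr 1; ring
  have h12 : (CU + 1) * κ = CU * κ + κ := by ring
  linarith only [h3, h12, hκ]

lemma SCH_clev {U : ℂ × ℂ → ℝ} (hU : ContDiff ℝ (⊤ : ℕ∞) U) :
    Continuous fun z => lev U e3 z := by
  have h1 : ∀ v : ℂ × ℂ, ContDiff ℝ (⊤ : ℕ∞) fun z => fderiv ℝ U z v := by
    intro v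
    exact (hU.fderiv_right (m := (⊤ : ℕ∞)) le_rfl).clm_apply contDiff_const
  have h2 : ∀ v w : ℂ × ℂ, Continuous fun z => fderiv ℝ (fun z => fderiv ℝ U z v) z w := by
    intro v w
    exact (((h1 v).fderiv_right (m := (⊤ : ℕ∞)) le_rfl).clm_apply contDiff_const).continuous
  unfold lev d2
  exact (h2 _ _).add (h2 _ _)

/-- the final numerical step -/
lemma SCH_fin {T V c J Q : ℝ} (hQ : 1 ≤ Q) (hV : 0 ≤ V)
    (h1 : 4 * Real.pi ^ 2 * T * (T / 2) - 1 ≤ V * J) (h2 : J ≤ c * Q) :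
    T ^ 2 ≤ (V * c + 1) * Q := by
  have hpi : 1 ≤ Real.pi ^ 2 := by nlinarith only [Real.pi_gt_three]
  have h5 : V * J ≤ V * (c * Q) := by gcongr
  have h6 : T ^ 2 ≤ 4 * Real.pi ^ 2 * T * (T / 2) := by
    have h7 : T ^ 2 * 1 ≤ T ^ 2 * Real.pi ^ 2 := by gcongr
    nlinarith only [h7, sq_nonneg T]
  calc T ^ 2 ≤ 4 * Real.pi ^ 2 * T * (T / 2) := h6
    _ ≤ V * (c * Q) + 1 := by linarith only [h1, h5]
    _ ≤ V * (c * Q) + Q := by linarith only [hQ]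
    _ = _ := by ring

/-- the geometric part: the mass inequality for a given `η` -/
lemma SCH_mass {τ : Tor} (h : SHyp τ) {κ Y G CL CB CU T N η η' t₁ t₂ : ℝ} {m : ℕ}
    {F : ℂ × ℂ → ℂ} {f : Fin (m + 1) × Fin (m + 1) → ℂ × ℂ → ℂ} {w : ℂ × ℂ → ℝ}
    (hκ : 1 ≤ κ) (hY16 : 16 ≤ Y) (hG : 0 ≤ G) (hCL : 0 ≤ CL) (hCB : 0 ≤ CB) (hCU : 0 ≤ CU)
    (hF : τ.Sec κ F) (hη : 0 < η) (hη' : 0 < η') (hη'1 : η' ≤ 1)
    (hM : ∀ t ∈ Set.Icc (-Y) Y, -(CL * (G + κ * Y ^ 2)) ≤ τ.avg (BAS_u F κ η) t)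
    (hule : ∀ z, |ht z| ≤ Y → BAS_u F κ η z ≤ κ)
    (ht₁ : t₁ ∈ Set.Icc (Y / 8) (Y / 4)) (ht₂ : t₂ ∈ Set.Icc (-(Y / 4)) (-(Y / 8)))
    (hall : ∀ t₀ ∈ ({t₁, t₂} : Set ℝ), ∀ z, |ht z - t₀| ≤ 1 →
      Real.exp (4 * (τ.avg (BAS_u F κ η) (ht z) - CB * κ + κ * nsq z)) ≤ ∑ p, ‖f p z‖ ^ 2)
    (hfup : ∀ z, |ht z| ≤ Y - 1 →
      ∑ p, ‖f p z‖ ^ 2 ≤ Real.exp (4 * (0 + CU * κ + κ * nsq z)))
    (hwper : τ.Per w) (hwsm : ContDiff ℝ 2 w)
    (hwout : ∀ z, 1 ≤ |ht z| → w z = 1 / 4 * lgs f (2 * κ) η' z - κ * nsq z + N)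
    (hwmass : ∀ χ : ℝ → ℝ, ContDiff ℝ (⊤ : ℕ∞) χ → HasCompactSupport χ → (∀ t, 0 ≤ χ t) →
        (∀ t, |t| ≤ 1 → χ t = 1) →
        4 * Real.pi ^ 2 * T * (T / 2) - 1 ≤
          τ.vol * ∫ t, χ t * τ.avg (ma (uu F κ η) (plus κ w)) t) :
    T ^ 2 ≤ (τ.vol * (64 * CL + 32 * (CB + (CU + 1) + 1) + 64) + 1) *
      (κ * G / Y + κ ^ 2 * Y) := by
  have hvol := (h.ball).1
  have hκ0 : 0 ≤ κ := by linarith only [hκ]
  obtain ⟨u, hu⟩ : ∃ u, u = BAS_u F κ η := ⟨_, rfl⟩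
  obtain ⟨U, hU⟩ : ∃ U, U = uu F κ η := ⟨_, rfl⟩
  obtain ⟨W, hW⟩ : ∃ W, W = CL * (G + κ * Y ^ 2) := ⟨_, rfl⟩
  have hUu : plus κ u = U := by rw [hu, hU]; exact BAS_plus_u F κ η
  have hUpsh : Psh ⊤ U := by rw [hU]; exact BAS_uu_psh h.log hF.entire hκ0 hη
  have huper : τ.Per u := by rw [hu]; exact BAS_u_per hF hη
  have husm : ContDiff ℝ (⊤ : ℕ∞) u := by rw [hu]; exact BAS_u_smooth h.log h.nsq hF.entire hκ0 hη
  rw [← hu, ← hW] at hM
  rw [← hu] at hule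
  rw [← hU] at hwmass
  simp only [← hu] at hall
  obtain ⟨χ, b₁, b₂, b₁', b₂', hχs, hχc, hχ0, hχ1, hχone, hχout, cb₁, cb₂, cb₁', cb₂', nb₁, nb₂,
    nb₁', nb₂', hχ'', sb₁, sb₂, sb₁', sb₂', ib₁, ib₂, ib₁', ib₂'⟩ := h.chi t₁ (-t₂) (Y / 2)
    (by linarith only [ht₁.1, hY16]) (by linarith only [ht₂.2, hY16])
    (by linarith only [ht₁.2, hY16]) (by linarith only [ht₂.1, hY16])
  rw [neg_neg] at sb₁'
  rw [sub_neg_eq_add] at ib₁' ib₂'
  have hmass1 := hwmass χ hχs hχc hχ0 (fun t ht => by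
    have := abs_le.mp ht
    exact hχone t (by linarith only [ht₂.2, hY16, this.1]) (by linarith only [ht₁.1, hY16, this.2]))
  obtain ⟨havg, hkey⟩ := h.key u w χ κ huper hwper husm hwsm hχs hχc
  rw [hUu] at hkey havg
  have hcw : Continuous w := hwsm.continuous
  have hclev := SCH_clev hUpsh.1
  have hcφz : Continuous fun z => w z * lev U e3 z := hcw.mul hclev
  have hcφ : Continuous (τ.avg fun z => w z * lev U e3 z) := h.mean.1 _ hcφz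
  have hcM : Continuous (τ.avg u) := h.mean.1 _ husm.continuous
  have hlev0 : ∀ z, 0 ≤ lev U e3 z := fun z => hUpsh.2 z e3
  have hlowφ : ∀ (t c : ℝ), (∀ z, ht z = t → c ≤ w z) →
      4 * κ * c ≤ τ.avg (fun z => w z * lev U e3 z) t := by
    intro t c hc
    have h1 : τ.avg (fun z => c * lev U e3 z) t ≤ τ.avg (fun z => w z * lev U e3 z) t :=
      BAS_avg_mono τ (continuous_const.mul hclev) hcφz t fun z hz =>
        mul_le_mul_of_nonneg_right (hc z hz) (hlev0 z)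
    rw [BAS_avg_mul, havg] at h1
    linarith only [h1]
  have hupφ : ∀ (t c : ℝ), (∀ z, ht z = t → w z ≤ c) →
      τ.avg (fun z => w z * lev U e3 z) t ≤ 4 * κ * c := by
    intro t c hc
    have h1 : τ.avg (fun z => w z * lev U e3 z) t ≤ τ.avg (fun z => c * lev U e3 z) t :=
      BAS_avg_mono τ hcφz (continuous_const.mul hclev) t fun z hz =>
        mul_le_mul_of_nonneg_right (hc z hz) (hlev0 z)
    rw [BAS_avg_mul, havg] at h1
    linarith only [h1]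
  have hMle : ∀ t, |t| ≤ Y → τ.avg u t ≤ κ := by
    intro t ht
    have h1 := BAS_avg_mono τ husm.continuous (continuous_const (y := κ)) t fun z hz =>
      hule z (by rw [hz]; exact ht)
    rwa [BAS_avg_const] at h1
  have hMge : ∀ t, |t| ≤ Y → -W ≤ τ.avg u t := fun t ht => hM t (abs_le.mp ht)
  have hwlow : ∀ t₀ ∈ ({t₁, t₂} : Set ℝ), ∀ z, |ht z - t₀| ≤ 1 → 1 ≤ |ht z| → |ht z| ≤ Y →
      -W - CB * κ + N ≤ w z := by
    intro t₀ ht₀ z hz hz1 hzY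
    rw [hwout z hz1]
    have h1 := SCH_wlow hη' (hall t₀ ht₀ z hz)
    have h2 := hMge (ht z) hzY
    linarith only [h1, h2]
  have hwup : ∀ z, 1 ≤ |ht z| → |ht z| ≤ Y - 1 → w z ≤ (CU + 1) * κ + N := by
    intro z hz1 hzY
    rw [hwout z hz1]
    have h1 := SCH_wup hκ hCU hη' hη'1 (hfup z hzY)
    linarith only [h1]
  have hfinal := SCH_line hκ hY16 hG hCL hCB (by linarith only [hCU] : 0 ≤ CU + 1) hW ht₁ ht₂
    hχs.continuous hχ1 hχout cb₁ cb₂ cb₁' cb₂' nb₁ nb₂ nb₁' nb₂' hχ'' sb₁ sb₂ sb₁' sb₂' ib₁ ib₂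
    ib₁' ib₂' hcφ hcM
    (fun t ht => hlowφ t _ fun z hz => hwlow t₁ (by simp) z
      (by rw [hz, abs_le]; constructor <;> linarith only [ht.1, ht.2])
      (by rw [hz, abs_of_nonneg (by linarith only [ht.1, ht₁.1, hY16])]
          linarith only [ht.1, ht₁.1, hY16])
      (by rw [hz, abs_of_nonneg (by linarith only [ht.1, ht₁.1, hY16])]
          linarith only [ht.2, ht₁.2, hY16]))
    (fun t ht => hlowφ t _ fun z hz => hwlow t₂ (by simp) z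
      (by rw [hz, abs_le]; constructor <;> linarith only [ht.1, ht.2])
      (by rw [hz, abs_of_nonpos (by linarith only [ht.2, ht₂.2, hY16])]
          linarith only [ht.2, ht₂.2, hY16])
      (by rw [hz, abs_of_nonpos (by linarith only [ht.2, ht₂.2, hY16])]
          linarith only [ht.1, ht₂.1, hY16]))
    (fun t ht => hupφ t _ fun z hz => hwup z
      (by rw [hz, abs_of_nonneg (by linarith only [ht.1, hY16])]; linarith only [ht.1, hY16])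
      (by rw [hz, abs_of_nonneg (by linarith only [ht.1, hY16])]; linarith only [ht.2, hY16]))
    (fun t ht => hupφ t _ fun z hz => hwup z
      (by rw [hz, abs_of_nonpos (by linarith only [ht.2, hY16])]; linarith only [ht.2, hY16])
      (by rw [hz, abs_of_nonpos (by linarith only [ht.2, hY16])]; linarith only [ht.1, hY16]))
    hMge hMle
  rw [← hkey] at hfinal
  have hQ1 : 1 ≤ κ * G / Y + κ ^ 2 * Y := by
    have hY0 : 0 < Y := by linarith only [hY16]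
    have h1 : 0 ≤ κ * G / Y := by positivity
    have h2 : 1 ≤ κ ^ 2 * Y := by
      have h3 : 1 ≤ κ ^ 2 := by nlinarith only [hκ]
      nlinarith only [h3, hY16]
    linarith only [h1, h2]
  exact SCH_fin hQ1 hvol.le hmass1 hfinal

lemma SCH_core {τ : Tor} (h : SHyp τ) :
    ∃ C Y₁ K : ℝ, 1 ≤ C ∧ 1 ≤ Y₁ ∧ 0 ≤ K ∧
      ∀ (κ Y G T : ℝ) (F : ℂ × ℂ → ℂ) (z₀ : ℂ × ℂ), 1 ≤ κ → Y₁ ≤ Y → 0 ≤ G → G ≤ κ * Y ^ 2 →
      τ.Sec κ F → (∀ z, |ht z| ≤ Y → nrm κ F z ≤ 1) → |ht z₀| ≤ Y / 32 →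
      Real.exp (-G) ≤ nrm κ F z₀ → VanO T F → 4 * (K * κ + 1) ≤ T →
      T ^ 2 ≤ C * (κ * G / Y + κ ^ 2 * Y) := by
  obtain ⟨CL, Y₁, K, CB, hCL, hY₁, hK, hCB, hstep⟩ := SCH_step1 h
  obtain ⟨CU, hCU, hbup⟩ := h.bup
  have hvol := (h.ball).1
  refine ⟨τ.vol * (64 * CL + 32 * (CB + (CU + 1) + 1) + 64) + 1, max Y₁ 16, K, ?_, ?_, hK, ?_⟩
  · have : 0 ≤ τ.vol * (64 * CL + 32 * (CB + (CU + 1) + 1) + 64) := by positivity
    linarith only [this]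
  · exact hY₁.trans (le_max_left _ _)
  intro κ Y G T F z₀ hκ hY hG hGY hF hb hz₀ hz₀' hvan hT
  have hY1 : Y₁ ≤ Y := (le_max_left _ _).trans hY
  have hY16 : 16 ≤ Y := (le_max_right _ _).trans hY
  have hκ0 : 0 ≤ κ := by linarith only [hκ]
  have hKκ : 0 ≤ K * κ := by positivity
  have hT0 : 0 < T := by linarith only [hKκ, hT]
  -- the coefficients
  obtain ⟨B, hB, hBsec, hBvan⟩ := h.bsec κ F hF
  obtain ⟨m, hm1, hm2⟩ : ∃ m : ℕ, K * κ ≤ m ∧ (m : ℝ) ≤ K * κ + 1 :=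
    ⟨⌈K * κ⌉₊, Nat.le_ceil _, (Nat.ceil_lt_add_one hKκ).le⟩
  have hfsec : ∀ p, τ.Sec (2 * κ) (SCH_f B m p) := fun p => BAS_sec_smul (hBsec p.1 p.2) _
  have hfvan : ∀ p, VanO (2 * (T - m)) (SCH_f B m p) := by
    intro p
    apply BAS_vanO_smul
    apply BAS_vanO_mono (hBvan T hvan p.1 p.2)
    have h1 : ((p.1 : ℕ) : ℝ) ≤ m := by exact_mod_cast Nat.lt_succ_iff.mp p.1.2
    have h2 : ((p.2 : ℕ) : ℝ) ≤ m := by exact_mod_cast Nat.lt_succ_iff.mp p.2.2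
    linarith only [h1, h2]
  have hFne : ∃ z, F z ≠ 0 := by
    refine ⟨z₀, fun h0 => ?_⟩
    have : nrm κ F z₀ = 0 := by simp [nrm, h0]
    rw [this] at hz₀'
    exact absurd (Real.exp_pos (-G)) (not_lt.mpr hz₀')
  obtain ⟨η₁, hη₁, hη₁', hη⟩ := hstep κ Y G F z₀ B m hκ hY1 hG hGY hF hb hz₀ hz₀' hB hm1 hm2
  -- isolated zero
  have hiso : ∀ᶠ z in nhdsWithin (0 : ℂ × ℂ) {0}ᶜ, ∃ j, SCH_f B m j z ≠ 0 := by
    obtain ⟨-, -, t₁, ht₁, t₂, ht₂, hall⟩ :=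
      hη (η₁ / 2) (by positivity) (by linarith only [hη₁])
    have hpos : ∀ z, ht z = t₂ ∨ ht z = t₁ → ∃ j, SCH_f B m j z ≠ 0 := by
      intro z hz
      by_contra hcon
      push Not at hcon
      have hsum : ∑ p, ‖SCH_f B m p z‖ ^ 2 = 0 := by
        apply Finset.sum_eq_zero
        intro p _
        rw [hcon p]; simp
      rcases hz with hz | hz
      · have h1 := hall t₂ (by simp) z (by rw [hz]; simp)
        rw [hsum] at h1
        exact absurd (Real.exp_pos _) (not_lt.mpr h1)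
      · have h1 := hall t₁ (by simp) z (by rw [hz]; simp)
        rw [hsum] at h1
        exact absurd (Real.exp_pos _) (not_lt.mpr h1)
    have h0 : ht (0 : ℂ × ℂ) = 0 := by simp [ht]
    refine h.iso _ (SCH_f B m) (fun j => (hfsec j).entire)
      (fun j z i => BAS_sec_zero_iff (hfsec j) z i) t₂ t₁ ?_ hpos 0 ?_ ?_
    · linarith only [ht₁.1, ht₂.2, hY16]
    · rw [h0]
      linarith only [ht₂.2, hY16]
    · rw [h0]
      linarith only [ht₁.1, hY16]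
  -- the second function
  obtain ⟨η₀, hη₀, hmass⟩ := h.mass κ T (T - m) (T / 2) 1 F _ (SCH_f B m) hκ hT0.le
    (by linarith only [hT0]) (by linarith only [hT, hm2, hKκ]) one_pos hF hFne hvan hfsec hfvan
    hiso
  obtain ⟨η, hηpos, hηlt0, hηlt1⟩ : ∃ η : ℝ, 0 < η ∧ η < η₀ ∧ η < η₁ := by
    obtain ⟨η, h1, h2⟩ := exists_between (lt_min hη₀ hη₁)
    exact ⟨η, h1, h2.trans_le (min_le_left _ _), h2.trans_le (min_le_right _ _)⟩
  obtain ⟨hM, hule, t₁, ht₁, t₂, ht₂, hall⟩ := hη η hηpos hηlt1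
  obtain ⟨η', N, w, hη', hη'1, hwper, hwsm, -, hwout, hwmass⟩ := hmass η hηpos hηlt0
  refine SCH_mass h hκ hY16 hG hCL hCB hCU hF hηpos hη' hη'1 hM hule ht₁ ht₂ hall ?_ hwper hwsm
    hwout hwmass
  intro z hzY
  have h1 := hbup κ (1 / 64) 0 F B z m hκ (by norm_num) le_rfl hB (by
    intro a ha1 ha2
    have h2 := (BAS_abs_ht_le a).trans ha1
    have h3 : |ht (z + a)| ≤ Y := by
      rw [BAS_ht_add]
      exact (abs_add_le _ _).trans (by linarith only [h2, hzY])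
    have h4 : |ht (z - a)| ≤ Y := by
      rw [BAS_ht_sub]
      exact (abs_sub _ _).trans (by linarith only [h2, hzY])
    have h5 := hb _ h3
    have h6 := hb _ h4
    have h7 := BAS_nrm_nonneg κ F (z + a)
    have h8 := BAS_nrm_nonneg κ F (z - a)
    rw [mul_zero, Real.exp_zero]
    nlinarith only [h5, h6, h7, h8])
  simpa [SCH_f] using h1

/-- **Lemma S** -/
theorem SCH_S {τ : Tor} (h : SHyp τ) : St_S τ := by
  obtain ⟨C, Y₁, K, hC, hY₁, hK, hcore⟩ := SCH_core h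
  set c₁ : ℝ := 1 / (2 * C) with hc₁
  have hc₁pos : 0 < c₁ := by positivity
  have hc₁1 : c₁ ≤ 1 := by
    rw [hc₁, div_le_one (by positivity)]; linarith
  set c₂ : ℝ := c₁ ^ 2 / 32 with hc₂
  have hc₂pos : 0 < c₂ := by positivity
  have hc₂1 : c₂ ≤ c₁ / 32 := by
    rw [hc₂]
    have : c₁ ^ 2 ≤ c₁ := by nlinarith
    linarith
  refine ⟨c₁, c₂, 4 * (K + 1) + Y₁ / c₁ + 1, hc₁pos, hc₂pos, by linarith, ?_, ?_⟩
  · have : 0 ≤ Y₁ / c₁ := by positivity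
    linarith
  intro κ S T F hκ hT hF hvan hb z hz
  have hκpos : 0 < κ := by linarith
  have hYc : 0 ≤ Y₁ / c₁ := by positivity
  have hT1 : (4 * (K + 1)) * κ ≤ T := by
    refine le_trans ?_ hT
    gcongr
    linarith
  have hT2 : (Y₁ / c₁ + 1) * κ ≤ T := by
    refine le_trans ?_ hT
    gcongr
    linarith
  have hT0 : 0 < T := lt_of_lt_of_le (by positivity) hT1
  set r := T / κ with hr
  have hr1 : Y₁ / c₁ + 1 ≤ r := by
    rw [hr, le_div_iff₀ hκpos]; exact hT2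
  have hr0 : 1 ≤ r := by linarith
  set Y := c₁ * r ^ 2 with hY
  have hYY : Y₁ ≤ Y := by
    have h1 : Y₁ / c₁ ≤ r ^ 2 := by nlinarith
    rw [div_le_iff₀ hc₁pos] at h1
    rw [hY]; linarith
  have hY0 : 0 < Y := by linarith
  by_contra hcon
  push Not at hcon
  set G := c₂ * T ^ 4 / κ ^ 3 with hG
  have hGval : G = c₂ * κ * r ^ 4 := by
    rw [hG, hr]; field_simp
  have hG0 : 0 ≤ G := by positivity
  set F' : ℂ × ℂ → ℂ := fun z => ((Real.exp (-S) : ℝ) : ℂ) * F z with hF'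
  have hnF' : ∀ z, nrm κ F' z = Real.exp (-S) * nrm κ F z := by
    intro z
    rw [hF', BAS_nrm_smul, Complex.norm_real, Real.norm_eq_abs, abs_of_pos (Real.exp_pos _)]
  have hmain := hcore κ Y G T F' z hκ hYY hG0 ?_ (BAS_sec_smul hF _) ?_ ?_ ?_
    (BAS_vanO_smul hvan _) ?_
  · -- contradiction
    have e1 : C * (κ ^ 2 * Y) = T ^ 2 / 2 := by
      rw [hY, hc₁, hr]
      field_simp
    have e2 : C * (κ * G / Y) = T ^ 2 / 64 := by
      rw [hGval, hY, hc₂, hc₁, hr]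
      field_simp
      norm_num
    have e3 : T ^ 2 ≤ T ^ 2 / 64 + T ^ 2 / 2 := by
      calc T ^ 2 ≤ C * (κ * G / Y + κ ^ 2 * Y) := hmain
        _ = C * (κ * G / Y) + C * (κ ^ 2 * Y) := by ring
        _ = _ := by rw [e1, e2]
    have : 0 < T ^ 2 := by positivity
    linarith
  · rw [hGval, hY]
    have h1 : c₂ ≤ c₁ ^ 2 := by rw [hc₂]; nlinarith [sq_nonneg c₁]
    calc c₂ * κ * r ^ 4 ≤ c₁ ^ 2 * κ * r ^ 4 := by gcongr
      _ = κ * (c₁ * r ^ 2) ^ 2 := by ring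
  · intro w hw
    rw [hnF']
    have := hb w hw
    calc Real.exp (-S) * nrm κ F w ≤ Real.exp (-S) * Real.exp S := by gcongr
      _ = 1 := by rw [← Real.exp_add]; simp
  · refine hz.trans ?_
    rw [hY]
    have : 0 ≤ r ^ 2 := by positivity
    nlinarith
  · rw [hnF']
    calc Real.exp (-G) = Real.exp (-S) * Real.exp (S - c₂ * T ^ 4 / κ ^ 3) := by
          rw [← Real.exp_add]
          congr 1
          rw [hG]; ring
      _ ≤ _ := by gcongr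
  · have : 4 * (K * κ + 1) ≤ 4 * (K + 1) * κ := by nlinarith
    linarith

end Pool.Agent.KT
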