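import Pool.Agent.KT.Defs

/-!
# KT: statements of part A (the sharp Schwarz lemma)
-/

set_option autoImplicit false

open scoped BigOperators ComplexConjugate Topology
open MeasureTheory

namespace Pool.Agent.KT

/-! ### plurisubharmonic functions -/

/-- the function `|z|²` -/
def St_NSQ : Prop :=
  ContDiff ℝ (⊤ : ℕ∞) nsq ∧ (∀ v z, lev nsq v z = 4 * nsq v) ∧
    (∀ g z, ma nsq g z = 4 * (lev g e1 z + lev g e3 z)) ∧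
    (∀ g z, ma g nsq z = 4 * (lev g e1 z + lev g e3 z))

/-- logarithms of sums of squares -/
def St_LOG : Prop :=
  ∀ (ι : Type) [Fintype ι] (f : ι → ℂ × ℂ → ℂ) (κ η : ℝ), (∀ j, Differentiable ℂ (f j)) →
    0 ≤ κ → 0 < η → Psh ⊤ (lgs f κ η)

/-- positivity of the mixed Monge-Ampere operator -/
def St_MAP : Prop :=
  ∀ f g : ℂ × ℂ → ℝ, Psh 2 f → Psh 2 g → ∀ z, 0 ≤ ma f g z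

/-- sub mean value property for polydiscs -/
def St_SUB : Prop :=
  ∀ f : ℂ × ℂ → ℝ, Psh 2 f → ∀ r : ℝ, 0 < r → ∀ z, f z ≤ pav r f z

/-- polydisc means of smooth functions -/
def St_PAV (τ : Tor) : Prop :=
  (∀ (r : ℝ) (f : ℂ × ℂ → ℝ), 0 < r → ContDiff ℝ (⊤ : ℕ∞) f →
    ContDiff ℝ (⊤ : ℕ∞) (pav r f) ∧ (∀ v z, d1 (pav r f) v z = pav r (d1 f v) z) ∧
    (∀ v w z, d2 (pav r f) v w z = pav r (d2 f v w) z) ∧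
    (τ.Per f → τ.Per (pav r f))) ∧
  (∀ r z, 0 < r → pav r nsq z = nsq z + r ^ 2) ∧
  (∀ r : ℝ, 0 < r → r ≤ 1 → ∃ C : ℝ, 0 ≤ C ∧ ∀ f : ℂ × ℂ → ℝ, Continuous f → τ.Per f →
    (∀ z, 0 ≤ f z) → ∀ z, pav r f z ≤ C * ∫ t in (ht z - 1)..(ht z + 1), τ.avg f t) ∧
  (∀ (r : ℝ) (f : ℂ × ℂ → ℝ), 0 < r → Continuous f → τ.Per f → ∀ t,
    τ.avg (pav r f) t = pav r (fun z => τ.avg f (ht z)) ((t : ℂ) * Complex.I, 0))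

/-! ### calculus on the real torus -/

/-- the mean value over the real torus as a function of the height -/
def St_MEAN (τ : Tor) : Prop :=
  (∀ f : ℂ × ℂ → ℝ, Continuous f → Continuous (τ.avg f)) ∧
  ∀ u : ℂ × ℂ → ℝ, τ.Per u → ContDiff ℝ 2 u →
    ContDiff ℝ 2 (τ.avg u) ∧ (∀ t, deriv (τ.avg u) t = τ.avg (d1 u e2) t) ∧
    (∀ t, deriv (deriv (τ.avg u)) t = τ.avg (lev u e1) t) ∧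
    (∀ t, deriv (deriv (τ.avg u)) t = τ.avg (d2 u e2 e2) t) ∧
    (∀ t, τ.avg (lev u e3) t = 0)

/-- integration by parts for the mixed Monge-Ampere operator -/
def St_IBP (τ : Tor) : Prop :=
  ∀ (u w : ℂ × ℂ → ℝ) (χ : ℝ → ℝ), τ.Per u → τ.Per w → ContDiff ℝ (⊤ : ℕ∞) u → ContDiff ℝ 2 w →
    ContDiff ℝ (⊤ : ℕ∞) χ → HasCompactSupport χ →
    ∫ t, χ t * τ.avg (ma u w) t = ∫ t, deriv (deriv χ) t * τ.avg (fun z => w z * lev u e3 z) t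

/-- the fundamental identity -/
def St_KEY (τ : Tor) : Prop :=
  ∀ (u w : ℂ × ℂ → ℝ) (χ : ℝ → ℝ) (κ : ℝ), τ.Per u → τ.Per w → ContDiff ℝ (⊤ : ℕ∞) u →
    ContDiff ℝ 2 w → ContDiff ℝ (⊤ : ℕ∞) χ → HasCompactSupport χ →
    (∀ t, τ.avg (lev (plus κ u) e3) t = 4 * κ) ∧
    ∫ t, χ t * τ.avg (ma (plus κ u) (plus κ w)) t =
      (∫ t, deriv (deriv χ) t * τ.avg (fun z => w z * lev (plus κ u) e3 z) t)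
        + 4 * κ * (∫ t, deriv (deriv χ) t * τ.avg u t) + 32 * κ ^ 2 * ∫ t, χ t

/-- Poincare inequality on the real torus -/
def St_POI (τ : Tor) : Prop :=
  ∃ k : ℝ, 0 < k ∧ ∀ g : ℂ × ℂ → ℝ, τ.Per g → ContDiff ℝ 1 g → ∀ t, τ.avg g t = 0 →
    k * τ.avg (fun z => g z ^ 2) t ≤
      τ.avg (fun z => d1 g e1 z ^ 2 + d1 g e3 z ^ 2 + d1 g e4 z ^ 2) t

/-- comparison for an ordinary differential inequality -/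
def St_ODE : Prop :=
  ∀ (k Y : ℝ) (v w : ℝ → ℝ), 0 < k → 0 < Y → ContDiff ℝ 2 v → (∀ t, 0 ≤ v t) → Continuous w →
    (∀ t, 0 ≤ w t) → (∀ t ∈ Set.Icc (-Y) Y, k ^ 2 * v t - w t ≤ deriv (deriv v) t) →
    ∀ t ∈ Set.Icc (-Y) Y, v t ≤
      (v Y + v (-Y)) * (Real.exp (-(k * (Y - t))) + Real.exp (-(k * (Y + t))))
        + 1 / (2 * k) * ∫ s in (-Y)..Y, Real.exp (-(k * |t - s|)) * w s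

/-- selection of a slab of small mass -/
def St_SEL : Prop :=
  ∀ k C₁ : ℝ, 0 < k → 0 ≤ C₁ → ∃ C Y₀ : ℝ, 0 ≤ C ∧ 0 < Y₀ ∧ ∀ (κ Y : ℝ) (m : ℝ → ℝ), 0 < κ → Y₀ ≤ Y →
    Continuous m → (∀ t, 0 ≤ m t) → (∫ t in (-(3 / 4 * Y))..(3 / 4 * Y), m t) ≤ C₁ * κ * Y →
    ∃ t₁ ∈ Set.Icc (Y / 8) (Y / 4), ∃ t₂ ∈ Set.Icc (-(Y / 4)) (-(Y / 8)), ∀ t₀ ∈ ({t₁, t₂} : Set ℝ),
      (∀ t ∈ Set.Icc (-(Y / 2)) (Y / 2),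
        (∫ s in (t - 1)..(t + 1), m s) ≤ C * κ * Real.exp (k * |t - t₀| / 2)) ∧
      (∫ t in (-(Y / 2))..(Y / 2),
        Real.exp (-(k * |t - t₀|)) * (∫ s in (t - 1)..(t + 1), m s) ^ 2) ≤ C * κ ^ 2

/-- differential inequality for the variance of the polydisc means -/
def St_VODE (τ : Tor) : Prop :=
  ∀ r : ℝ, 0 < r → r ≤ 1 / 4 → ∃ k C : ℝ, 0 < k ∧ 0 ≤ C ∧ ∀ (κ : ℝ) (u : ℂ × ℂ → ℝ), 0 ≤ κ →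
    τ.Per u → ContDiff ℝ (⊤ : ℕ∞) u → Psh ⊤ (plus κ u) →
    ContDiff ℝ 2 (τ.avg fun z => (pav r u z - τ.avg (pav r u) (ht z)) ^ 2) ∧
    ∀ t, k ^ 2 * τ.avg (fun z => (pav r u z - τ.avg (pav r u) (ht z)) ^ 2) t
        - C * (∫ s in (t - 1)..(t + 1),
            τ.avg (fun z => lev (plus κ u) e1 z + lev (plus κ u) e3 z) s) ^ 2
      ≤ deriv (deriv (τ.avg fun z => (pav r u z - τ.avg (pav r u) (ht z)) ^ 2)) t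

/-- lower bounds for the means -/
def St_LOW (τ : Tor) : Prop :=
  ∃ C Y₀ : ℝ, 0 ≤ C ∧ 0 < Y₀ ∧ ∀ (κ Y G : ℝ) (u : ℂ × ℂ → ℝ) (z₀ : ℂ × ℂ), 1 ≤ κ → Y₀ ≤ Y → 0 ≤ G →
    τ.Per u → ContDiff ℝ (⊤ : ℕ∞) u → Psh ⊤ (plus κ u) → (∀ z, |ht z| ≤ Y → u z ≤ κ) →
    |ht z₀| ≤ Y / 32 → -G ≤ u z₀ →
    (∃ t', |t'| ≤ Y / 16 ∧ -(C * (G + κ)) ≤ τ.avg u t') ∧
    ∀ t ∈ Set.Icc (-Y) Y, -(C * (G + κ * Y ^ 2)) ≤ τ.avg u t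

/-- the good slabs -/
def St_SLAB (τ : Tor) : Prop :=
  ∀ r C₁ : ℝ, 0 < r → r ≤ 1 / 8 → 0 ≤ C₁ → ∃ C Y₀ : ℝ, 0 ≤ C ∧ 0 < Y₀ ∧
    ∀ (κ Y : ℝ) (u : ℂ × ℂ → ℝ), 1 ≤ κ → Y₀ ≤ Y →
    τ.Per u → ContDiff ℝ (⊤ : ℕ∞) u → Psh ⊤ (plus κ u) → (∀ z, |ht z| ≤ Y → u z ≤ κ) →
    (∀ t ∈ Set.Icc (-Y) Y, -(C₁ * κ * Y ^ 2) ≤ τ.avg u t) →
    ∃ t₁ ∈ Set.Icc (Y / 8) (Y / 4), ∃ t₂ ∈ Set.Icc (-(Y / 4)) (-(Y / 8)), ∀ t₀ ∈ ({t₁, t₂} : Set ℝ),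
      (∀ z, |ht z - t₀| ≤ 2 → u z ≤ τ.avg u (ht z) + C * κ) ∧
      (∀ z, |ht z - t₀| ≤ 2 → ∃ a : ℂ × ℂ, ‖a.1‖ ≤ 2 * r ∧ ‖a.2‖ ≤ 2 * r ∧
        2 * τ.avg u (ht z) - C * κ ≤ u (z + a) + u (z - a)) ∧
      (∀ t s, |t - t₀| ≤ 2 → |s| ≤ 2 →
        |τ.avg u (t + s) + τ.avg u (t - s) - 2 * τ.avg u t| ≤ C * κ)

/-- the cut-off function -/
def St_CHI : Prop :=
  ∀ p p' q : ℝ, 1 ≤ p → 1 ≤ p' → p + 1 ≤ q → p' + 1 ≤ q → ∃ (χ b₁ b₂ b₁' b₂' : ℝ → ℝ),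
    ContDiff ℝ (⊤ : ℕ∞) χ ∧ HasCompactSupport χ ∧ (∀ t, 0 ≤ χ t) ∧ (∀ t, χ t ≤ 1) ∧
    (∀ t, -p' ≤ t → t ≤ p → χ t = 1) ∧ (∀ t, q + 1 / 2 ≤ |t| → χ t = 0) ∧
    Continuous b₁ ∧ Continuous b₂ ∧ Continuous b₁' ∧ Continuous b₂' ∧
    (∀ t, 0 ≤ b₁ t) ∧ (∀ t, 0 ≤ b₂ t) ∧ (∀ t, 0 ≤ b₁' t) ∧ (∀ t, 0 ≤ b₂' t) ∧
    (∀ t, deriv (deriv χ) t = -b₁ t + b₂ t - b₁' t + b₂' t) ∧
    (∀ t, b₁ t ≠ 0 → t ∈ Set.Icc p (p + 1 / 2)) ∧ (∀ t, b₂ t ≠ 0 → t ∈ Set.Icc q (q + 1 / 2)) ∧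
    (∀ t, b₁' t ≠ 0 → t ∈ Set.Icc (-p' - 1 / 2) (-p')) ∧
    (∀ t, b₂' t ≠ 0 → t ∈ Set.Icc (-q - 1 / 2) (-q)) ∧
    (∫ t, b₁ t) = 1 / (q - p) ∧ (∫ t, b₂ t) = 1 / (q - p) ∧
    (∫ t, b₁' t) = 1 / (q - p') ∧ (∫ t, b₂' t) = 1 / (q - p')

/-! ### the second function -/

/-- coefficients of the Taylor expansion of a family of entire functions -/
def St_COEF : Prop :=
  ∀ G : ℂ × ℂ → ℂ × ℂ → ℂ, Differentiable ℂ (fun p : (ℂ × ℂ) × (ℂ × ℂ) => G p.1 p.2) →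
    ∃ B : ℕ → ℕ → ℂ × ℂ → ℂ, (∀ i j, Differentiable ℂ (B i j)) ∧
      (∀ z a, HasSum (fun p : ℕ × ℕ => B p.1 p.2 z * a.1 ^ p.1 * a.2 ^ p.2) (G z a)) ∧
      (∀ (i j : ℕ) (z : ℂ × ℂ) (R Bd : ℝ), 0 < R →
        (∀ a : ℂ × ℂ, ‖a.1‖ = R → ‖a.2‖ = R → ‖G z a‖ ≤ Bd) → ‖B i j z‖ ≤ Bd / R ^ (i + j)) ∧
      (∀ (z z' : ℂ × ℂ) (c : ℂ), (∀ a, G z' a = c * G z a) → ∀ i j, B i j z' = c * B i j z)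

/-- `B` are the coefficients of `F (z + a) F (z - a)` -/
def IsCoef (F : ℂ × ℂ → ℂ) (B : ℕ → ℕ → ℂ × ℂ → ℂ) : Prop :=
  (∀ i j, Differentiable ℂ (B i j)) ∧
  (∀ z a, HasSum (fun p : ℕ × ℕ => B p.1 p.2 z * a.1 ^ p.1 * a.2 ^ p.2) (F (z + a) * F (z - a))) ∧
  (∀ (i j : ℕ) (z : ℂ × ℂ) (R Bd : ℝ), 0 < R →
    (∀ a : ℂ × ℂ, ‖a.1‖ = R → ‖a.2‖ = R → ‖F (z + a) * F (z - a)‖ ≤ Bd) →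
    ‖B i j z‖ ≤ Bd / R ^ (i + j))

/-- the coefficients are sections, and they vanish at the origin -/
def St_BSEC (τ : Tor) : Prop :=
  ∀ (κ : ℝ) (F : ℂ × ℂ → ℂ), τ.Sec κ F → ∃ B : ℕ → ℕ → ℂ × ℂ → ℂ, IsCoef F B ∧
    (∀ i j, τ.Sec (2 * κ) (B i j)) ∧
    ∀ T : ℝ, VanO T F → ∀ i j : ℕ, VanO (2 * T - ((i : ℝ) + (j : ℝ))) (B i j)

/-- upper bound for the coefficients -/
def St_BUP : Prop :=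
  ∃ C : ℝ, 0 ≤ C ∧ ∀ (κ ρ S : ℝ) (F : ℂ × ℂ → ℂ) (B : ℕ → ℕ → ℂ × ℂ → ℂ) (z : ℂ × ℂ) (m : ℕ),
    1 ≤ κ → 0 < ρ → ρ ≤ 1 / 64 → IsCoef F B →
    (∀ a : ℂ × ℂ, ‖a.1‖ ≤ 1 → ‖a.2‖ ≤ 1 → nrm κ F (z + a) * nrm κ F (z - a) ≤ Real.exp (2 * S)) →
    ∑ p : Fin (m + 1) × Fin (m + 1), ‖(ρ : ℂ) ^ ((p.1 : ℕ) + (p.2 : ℕ)) * B p.1 p.2 z‖ ^ 2 ≤
      Real.exp (4 * (S + C * κ + κ * nsq z))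

/-- lower bound for the coefficients -/
def St_BLOW : Prop :=
  ∀ C₀ : ℝ, 0 ≤ C₀ → ∃ K C : ℝ, 0 ≤ K ∧ 0 ≤ C ∧
    ∀ (κ ρ M : ℝ) (F : ℂ × ℂ → ℂ) (B : ℕ → ℕ → ℂ × ℂ → ℂ) (z a₀ : ℂ × ℂ) (m : ℕ),
    1 ≤ κ → 0 < ρ → ρ ≤ 1 / 64 → K * κ ≤ m → (m : ℝ) ≤ K * κ + 1 → IsCoef F B →
    (∀ a : ℂ × ℂ, ‖a.1‖ ≤ 1 → ‖a.2‖ ≤ 1 →
      nrm κ F (z + a) * nrm κ F (z - a) ≤ Real.exp (2 * M + C₀ * κ)) →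
    ‖a₀.1‖ ≤ ρ → ‖a₀.2‖ ≤ ρ → Real.exp (2 * M - C₀ * κ) ≤ nrm κ F (z + a₀) * nrm κ F (z - a₀) →
    Real.exp (4 * (M - C * κ + κ * nsq z)) ≤
      ∑ p : Fin (m + 1) × Fin (m + 1), ‖(ρ : ℂ) ^ ((p.1 : ℕ) + (p.2 : ℕ)) * B p.1 p.2 z‖ ^ 2

/-- a non-isolated common zero, at which the functions do not all vanish on the vertical line, extends
to all neighbouring vertical lines -/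
def St_ISOL : Prop :=
  ∀ (ι : Type) [Fintype ι] (f : ι → ℂ × ℂ → ℂ), (∀ j, Differentiable ℂ (f j)) → ∀ p : ℂ × ℂ,
    (∃ᶠ z in 𝓝[≠] p, ∀ j, f j z = 0) → (∃ j w, f j (p.1, w) ≠ 0) →
    ∀ ε : ℝ, 0 < ε → ∀ᶠ z₁ in 𝓝 p.1, ∃ z₂ : ℂ, ‖z₂ - p.2‖ < ε ∧ ∀ j, f j (z₁, z₂) = 0

/-- isolated common zeros -/
def St_ISO (τ : Tor) : Prop :=
  ∀ (ι : Type) [Fintype ι] (f : ι → ℂ × ℂ → ℂ), (∀ j, Differentiable ℂ (f j)) →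
    (∀ j z i, f j (z + τ.γ i) = 0 ↔ f j z = 0) → ∀ t₁ t₂ : ℝ, t₁ < t₂ →
    (∀ z, ht z = t₁ ∨ ht z = t₂ → ∃ j, f j z ≠ 0) → ∀ p, t₁ < ht p → ht p < t₂ →
    ∀ᶠ z in 𝓝[≠] p, ∃ j, f j z ≠ 0

/-! ### the mass at the pole -/

/-- gluing of a logarithmic pole -/
def St_GLUE (τ : Tor) : Prop :=
  ∃ r₀ : ℝ, 0 < r₀ ∧ ∀ (κ T δ N r₁ r₂ r₃ : ℝ) (w : ℂ × ℂ → ℝ), 0 ≤ κ → 0 ≤ T → 0 < δ →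
    0 < r₁ → r₁ < r₂ → r₂ < r₃ → r₃ ≤ r₀ → τ.Per w → ContDiff ℝ (⊤ : ℕ∞) w → Psh ⊤ (plus κ w) →
    (∀ z, nsq z ≤ r₁ ^ 2 → plus κ w z + N ≤ T * lpole δ z - 1) →
    (∀ z, r₂ ^ 2 ≤ nsq z → nsq z ≤ r₃ ^ 2 → T * lpole δ z + 1 ≤ plus κ w z + N) →
    ∃ w' : ℂ × ℂ → ℝ, τ.Per w' ∧ ContDiff ℝ 2 w' ∧ Psh 2 (plus κ w') ∧
      (∀ z, 1 ≤ |ht z| → w' z = w z + N) ∧ (∀ z, nsq z ≤ r₁ ^ 2 → plus κ w' z = T * lpole δ z)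

/-- integration by parts on `ℂ²` -/
def St_IBPC : Prop :=
  ∀ u w χ : ℂ × ℂ → ℝ, ContDiff ℝ (⊤ : ℕ∞) u → ContDiff ℝ (⊤ : ℕ∞) w → ContDiff ℝ (⊤ : ℕ∞) χ →
    HasCompactSupport χ → ∫ z, χ z * ma u w z = ∫ z, u z * ma χ w z

/-- the mass in a ball and the growth of the radial means -/
def St_RADI : Prop :=
  ∀ (U : ℂ × ℂ → ℝ) (χ : ℝ → ℝ) (a b r δ σ : ℝ), Psh ⊤ U → ContDiff ℝ (⊤ : ℕ∞) χ → Antitone χ →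
    0 < a → a < b → b ≤ r ^ 2 → (∀ s, s ≤ a → χ s = 1) → (∀ s, b ≤ s → χ s = 0) → 0 < δ →
    0 < σ → σ < 1 →
    (∫ z, (U z - U (Real.sqrt σ • z)) * (8 * (-deriv χ (nsq z)) / (nsq z + δ ^ 2))) /
      Real.log (1 / σ) ≤ ∫ z in {z : ℂ × ℂ | nsq z ≤ r ^ 2}, ma U (lpole δ) z

/-- the local mass -/
def St_RAD : Prop :=
  ∀ (F : ℂ × ℂ → ℂ) (κ T r ε : ℝ), Differentiable ℂ F → (∃ z, F z ≠ 0) → 0 ≤ κ → 0 ≤ T → VanO T F →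
    0 < r → 0 < ε → ∃ η₀ > 0, ∀ η, 0 < η → η < η₀ → ∃ δ₀ > 0, ∀ δ, 0 < δ → δ < δ₀ →
      4 * Real.pi ^ 2 * T - ε ≤ ∫ z in {z : ℂ × ℂ | nsq z ≤ r ^ 2}, ma (uu F κ η) (lpole δ) z

/-- integrals over a small ball and integrals over the torus -/
def St_BALL (τ : Tor) : Prop :=
  0 < τ.vol ∧ ∃ r₀ : ℝ, 0 < r₀ ∧ ∀ (f : ℂ × ℂ → ℝ) (χ : ℝ → ℝ), Continuous f → τ.Per f →
    (∀ z, 0 ≤ f z) → Continuous χ → HasCompactSupport χ → (∀ t, 0 ≤ χ t) →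
    (∀ t, |t| ≤ 1 → χ t = 1) → ∀ r, 0 < r → r ≤ r₀ →
    (∫ z in {z : ℂ × ℂ | nsq z ≤ r ^ 2}, f z) ≤ τ.vol * ∫ t, χ t * τ.avg f t

/-- the mass at the pole -/
def St_MASS (τ : Tor) : Prop :=
  ∀ (κ T T' T'' ε : ℝ) (F : ℂ × ℂ → ℂ) (ι : Type) [Fintype ι] (f : ι → ℂ × ℂ → ℂ), 1 ≤ κ →
    0 ≤ T → 0 < T'' → T'' < T' → 0 < ε → τ.Sec κ F → (∃ z, F z ≠ 0) → VanO T F →
    (∀ j, τ.Sec (2 * κ) (f j)) → (∀ j, VanO (2 * T') (f j)) →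
    (∀ᶠ z in 𝓝[≠] (0 : ℂ × ℂ), ∃ j, f j z ≠ 0) →
    ∃ η₀ > 0, ∀ η, 0 < η → η < η₀ → ∃ (η' N : ℝ) (w : ℂ × ℂ → ℝ), 0 < η' ∧ η' ≤ 1 ∧
      τ.Per w ∧ ContDiff ℝ 2 w ∧ Psh 2 (plus κ w) ∧
      (∀ z, 1 ≤ |ht z| → w z = 1 / 4 * lgs f (2 * κ) η' z - κ * nsq z + N) ∧
      ∀ χ : ℝ → ℝ, ContDiff ℝ (⊤ : ℕ∞) χ → HasCompactSupport χ → (∀ t, 0 ≤ χ t) →
        (∀ t, |t| ≤ 1 → χ t = 1) →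
        4 * Real.pi ^ 2 * T * T'' - ε ≤ τ.vol * ∫ t, χ t * τ.avg (ma (uu F κ η) (plus κ w)) t

/-! ### the Schwarz lemma -/

/-- Lemma S -/
def St_S (τ : Tor) : Prop :=
  ∃ c₁ c₂ C : ℝ, 0 < c₁ ∧ 0 < c₂ ∧ c₂ ≤ c₁ ∧ 1 ≤ C ∧
    ∀ (κ S T : ℝ) (F : ℂ × ℂ → ℂ), 1 ≤ κ → C * κ ≤ T →
    τ.Sec κ F → VanO T F → (∀ z, |ht z| ≤ c₁ * (T / κ) ^ 2 → nrm κ F z ≤ Real.exp S) →
    ∀ z, |ht z| ≤ c₂ * (T / κ) ^ 2 → nrm κ F z ≤ Real.exp (S - c₂ * T ^ 4 / κ ^ 3)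

end Pool.Agent.KT
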