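import Pool.Agent.KT.DefsB
import Pool.Agent.KT.St

/-!
# KT: statements of part B (auxiliary function, zero estimate)
-/

set_option autoImplicit false

open scoped BigOperators
open MvPolynomial NumberField
open Pool.Agent.Helper8 (dd dds Van)

namespace Pool.Agent.KT

/-! ### general entire functions -/

/-- vanishing of order `T` in the sense of the derivatives -/
def St_VO : Prop :=
  ∀ (F : ℂ × ℂ → ℂ) (T : ℕ), Differentiable ℂ F → Van T F 0 → VanO (T : ℝ) F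

/-- Cauchy estimate for the derivatives at the origin -/
def St_CAU : Prop :=
  ∀ dir : Fin 2 → ℂ × ℂ, ∃ C : ℝ, 1 ≤ C ∧ ∀ (κ S : ℝ) (F : ℂ × ℂ → ℂ) (w : List (Fin 2)),
    1 ≤ κ → Differentiable ℂ F → (∀ z, nsq z ≤ 1 → nrm κ F z ≤ Real.exp S) →
    ‖dds (w.map dir) F 0‖ ≤
      Real.exp (C * ((w.length : ℝ) * Real.log ((w.length : ℝ) + 1) + κ) + S)

/-- interpolation at the integers `0, ..., k - 1` -/
def St_LAG : Prop :=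
  ∀ (k : ℕ) (R : Polynomial ℂ) (B : ℝ), R.natDegree < k → (∀ j : ℕ, j < k → ‖R.eval (j : ℂ)‖ ≤ B) →
    ∀ n : ℤ, ‖R.eval (n : ℂ)‖ ≤ Real.exp (2 * (|(n : ℝ)| + (k : ℝ))) * B

/-- the zero estimate -/
def St_ZE (τ : Tor) : Prop :=
  ∀ m : ℂ × ℂ, ht m ≠ 0 → ∃ C : ℝ, 1 ≤ C ∧ ∀ (κ T : ℝ) (k : ℕ) (F : ℂ × ℂ → ℂ), 1 ≤ κ → 1 ≤ k →
    τ.Sec κ F → (∃ z, F z ≠ 0) → Sheet m k κ F → VanO T F → T ≤ C * κ * Real.sqrt k

/-! ### the auxiliary function -/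

variable {τ : Tor}

/-- the auxiliary function is a section -/
def St_PSEC (D : Dat τ) : Prop :=
  ∀ (L k : ℕ) (ξ : D.Ix L k → 𝓞 D.K), τ.Sec (kap L k) (D.Φ L k ξ)

/-- the translates of the auxiliary function -/
def St_PSHE (D : Dat τ) : Prop :=
  ∀ (L k : ℕ) (ξ : D.Ix L k → 𝓞 D.K), 1 ≤ k → Sheet D.m k (kap L k) (D.Φ L k ξ)

/-- the auxiliary function is not zero -/
def St_PNE (D : Dat τ) : Prop :=
  ∀ (L k : ℕ) (ξ : D.Ix L k → 𝓞 D.K), ξ ≠ 0 → ∃ z, D.Φ L k ξ z ≠ 0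

/-- growth of the auxiliary function -/
def St_PGRO (D : Dat τ) : Prop :=
  ∃ C : ℝ, 1 ≤ C ∧ ∀ (L k : ℕ) (ξ : D.Ix L k → 𝓞 D.K) (B : ℝ), 1 ≤ L → 1 ≤ k →
    (∀ s, ‖D.ψ (ξ s)‖ ≤ B) → ∀ z, nrm (kap L k) (D.Φ L k ξ) z ≤
      B * Real.exp (C * ((L : ℝ) + (k : ℝ))) * (1 + |ht z|) ^ k

/-- Siegel's lemma -/
def St_PSIE (D : Dat τ) : Prop :=
  ∃ C : ℝ, 1 ≤ C ∧ ∀ L k T : ℕ, 1 ≤ L → 1 ≤ k → 1 ≤ T → 4 * T ^ 2 ≤ L ^ 2 * k →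
    ∃ ξ : D.Ix L k → 𝓞 D.K, ξ ≠ 0 ∧ Van T (D.Φ L k ξ) 0 ∧
      ∀ s, house (algebraMap (𝓞 D.K) D.K (ξ s)) ≤
        Real.exp (C * (((T + L + k : ℕ) : ℝ) * Real.log ((T + L + k : ℕ) : ℝ)))

/-- the values of the derivatives of minimal order -/
def St_PVAL (D : Dat τ) : Prop :=
  ∃ C : ℝ, 1 ≤ C ∧ ∀ (L k : ℕ) (ξ : D.Ix L k → 𝓞 D.K) (B : ℝ) (w : List (Fin 2)), 1 ≤ L → 1 ≤ k →
    (∀ s, house (algebraMap (𝓞 D.K) D.K (ξ s)) ≤ B) → Van w.length (D.Φ L k ξ) 0 →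
    ∃ R : Polynomial (𝓞 D.K), R.natDegree ≤ 2 * D.dq * k ∧
      (∀ i, house (algebraMap (𝓞 D.K) D.K (R.coeff i)) ≤
        B * Real.exp (C * (((w.length + L + k : ℕ) : ℝ) * Real.log ((w.length + L + k : ℕ) : ℝ)))) ∧
      R.eval₂ D.ψ D.X * D.h 0 ^ (2 * L + k) = dds (w.map D.dir) (D.Φ L k ξ) 0

end Pool.Agent.KT
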