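import Pool.Agent.KT.StB

/-!
# KT: translates by multiples of the fourth period, and compactness modulo the lattice
-/

set_option autoImplicit false

open scoped BigOperators ComplexConjugate
open MvPolynomial NumberField

namespace Pool.Agent.KT

theorem trans_ht_add (z w : ℂ × ℂ) : ht (z + w) = ht z + ht w := by
  simp [ht]

theorem trans_ht_zsmul (n : ℤ) (z : ℂ × ℂ) : ht (n • z) = n * ht z := by
  simp [ht]

theorem trans_nsq_add (z w : ℂ × ℂ) : nsq (z + w) = nsq z + 2 * (ip z w).re + nsq w := by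
  simp only [nsq, ip, Prod.fst_add, Prod.snd_add, ← Complex.normSq_eq_norm_sq, Complex.normSq_apply,
    Complex.add_re, Complex.add_im, Complex.mul_re, Complex.conj_re, Complex.conj_im]
  ring

theorem trans_continuous_nsq : Continuous nsq := by
  unfold nsq
  fun_prop

theorem trans_nrm_nonneg (κ : ℝ) (F : ℂ × ℂ → ℂ) (z : ℂ × ℂ) : 0 ≤ nrm κ F z := by
  unfold nrm
  positivity

theorem trans_continuous_nrm {κ : ℝ} {F : ℂ × ℂ → ℂ} (hF : Continuous F) :
    Continuous (nrm κ F) := by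
  have := trans_continuous_nsq
  unfold nrm
  fun_prop

/-- the norm of the multiplier -/
theorem trans_norm_exp (κ : ℝ) (z w : ℂ × ℂ) :
    ‖Complex.exp (2 * κ * (ip z w + nsq w / 2))‖ = Real.exp (κ * (nsq (z + w) - nsq z)) := by
  rw [Complex.norm_exp, trans_nsq_add]
  congr 1
  have h1 : (2 * (κ : ℂ) * (ip z w + (nsq w : ℂ) / 2)).re
      = 2 * κ * ((ip z w).re + nsq w / 2) := by
    have : (2 * (κ : ℂ) * (ip z w + (nsq w : ℂ) / 2))
        = ((2 * κ : ℝ) : ℂ) * (ip z w + ((nsq w / 2 : ℝ) : ℂ)) := by push_cast; ring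
    rw [this, Complex.re_ofReal_mul, Complex.add_re, Complex.ofReal_re]
  rw [h1]
  ring

/-- functions with the multiplier have periodic norm -/
theorem trans_per_of_quasi (τ : Tor) (κ : ℝ) (F : ℂ × ℂ → ℂ)
    (hF : ∀ i, ∃ c : ℂ, ‖c‖ = 1 ∧ ∀ z, F (z + τ.γ i) =
      c * Complex.exp (2 * κ * (ip z (τ.γ i) + nsq (τ.γ i) / 2)) * F z) :
    τ.Per (nrm κ F) := by
  intro z i
  obtain ⟨c, hc, h⟩ := hF i
  unfold nrm
  rw [h z, norm_mul, norm_mul, hc, one_mul, trans_norm_exp]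
  have : Real.exp (κ * (nsq (z + τ.γ i) - nsq z)) * ‖F z‖ * Real.exp (-(κ * nsq (z + τ.γ i)))
      = ‖F z‖ * (Real.exp (κ * (nsq (z + τ.γ i) - nsq z)) * Real.exp (-(κ * nsq (z + τ.γ i)))) := by
    ring
  rw [this, ← Real.exp_add]
  congr 2
  ring

/-- the norm of a section is periodic -/
theorem trans_per_sec {τ : Tor} {κ : ℝ} {F : ℂ × ℂ → ℂ} (hF : τ.Sec κ F) : τ.Per (nrm κ F) :=
  trans_per_of_quasi τ κ F hF.quasi

/-- every point is `pt (ht z) x` -/
theorem trans_exists_pt (τ : Tor) (z : ℂ × ℂ) : ∃ x : Fin 3 → ℝ, z = τ.pt (ht z) x := by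
  have hcard : Fintype.card (Fin 3) = Module.finrank ℝ (ℝ × ℂ) := by
    rw [Module.finrank_prod, Complex.finrank_real_complex]
    simp
  have hspan : ⊤ ≤ Submodule.span ℝ (Set.range (fun i => ((τ.a i, τ.b i) : ℝ × ℂ))) :=
    (LinearIndependent.span_eq_top_of_card_eq_finrank' τ.li hcard).ge
  have hz : ((z.1.re, z.2) : ℝ × ℂ) ∈
      Submodule.span ℝ (Set.range (fun i => ((τ.a i, τ.b i) : ℝ × ℂ))) := hspan trivial
  rw [Submodule.mem_span_range_iff_exists_fun] at hz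
  obtain ⟨x, hx⟩ := hz
  refine ⟨x, ?_⟩
  have h1 : ∑ i, x i * τ.a i = z.1.re := by
    have := congrArg Prod.fst hx
    simpa [Prod.fst_sum] using this
  have h2 : ∑ i, (x i : ℂ) * τ.b i = z.2 := by
    have := congrArg Prod.snd hx
    simpa [Prod.snd_sum] using this
  apply Prod.ext
  · simp only [Tor.pt, Tor.γ, Prod.fst_add, Prod.fst_sum]
    have : (∑ i, (x i : ℂ) * (τ.a i : ℂ)) = ((z.1.re : ℝ) : ℂ) := by
      rw [← h1]; push_cast; rfl
    rw [this, ht]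
    apply Complex.ext <;> simp
  · simp only [Tor.pt, Tor.γ, Prod.snd_add, Prod.snd_sum, h2, zero_add]

/-- periodic functions and integral combinations of the periods -/
theorem trans_per_zsmul {X : Type*} {τ : Tor} {f : ℂ × ℂ → X} (hf : τ.Per f) (n : ℤ) (i : Fin 3)
    (z : ℂ × ℂ) : f (z + n • τ.γ i) = f z := by
  induction n using Int.induction_on with
  | zero => simp
  | succ n ih =>
    rw [add_smul, one_smul, ← add_assoc, hf, ih]
  | pred n ih =>
    rw [← hf, sub_smul, one_smul]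
    have : z + (-(n : ℤ) • τ.γ i - τ.γ i) + τ.γ i = z + -(n : ℤ) • τ.γ i := by abel
    rw [this, ih]

theorem trans_per_sum {X : Type*} {τ : Tor} {f : ℂ × ℂ → X} (hf : τ.Per f) (n : Fin 3 → ℤ)
    (z : ℂ × ℂ) : f (z + ∑ i, n i • τ.γ i) = f z := by
  rw [Fin.sum_univ_three, ← add_assoc, ← add_assoc, trans_per_zsmul hf, trans_per_zsmul hf,
    trans_per_zsmul hf]

/-- every point is a translate of a point of the cube -/
theorem trans_exists_cube (τ : Tor) (z : ℂ × ℂ) : ∃ (x : Fin 3 → ℝ) (n : Fin 3 → ℤ),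
    x ∈ Set.Icc (0 : Fin 3 → ℝ) 1 ∧ z = τ.pt (ht z) x + ∑ i, n i • τ.γ i := by
  obtain ⟨x, hx⟩ := trans_exists_pt τ z
  refine ⟨fun i => Int.fract (x i), fun i => ⌊x i⌋, ⟨fun i => Int.fract_nonneg _,
    fun i => (Int.fract_lt_one _).le⟩, ?_⟩
  conv_lhs => rw [hx]
  simp only [Tor.pt]
  rw [add_assoc, ← Finset.sum_add_distrib]
  congr 1
  refine Finset.sum_congr rfl fun i _ => ?_
  have h : (x i : ℂ) = ((Int.fract (x i) : ℝ) : ℂ) + ((⌊x i⌋ : ℤ) : ℂ) := by
    have := Int.fract_add_floor (x i)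
    exact_mod_cast this.symm
  apply Prod.ext
  · simp only [Prod.fst_add, Prod.smul_fst]
    rw [zsmul_eq_mul]
    conv_lhs => rw [h]
    ring
  · simp only [Prod.snd_add, Prod.smul_snd]
    rw [zsmul_eq_mul]
    conv_lhs => rw [h]
    ring

theorem trans_continuous_pt (τ : Tor) :
    Continuous (fun p : ℝ × (Fin 3 → ℝ) => τ.pt p.1 p.2) := by
  unfold Tor.pt
  fun_prop

/-- continuous periodic functions are bounded on the strips -/
theorem trans_bdd {τ : Tor} {f : ℂ × ℂ → ℝ} (hf : τ.Per f) (hc : Continuous f) (H : ℝ) :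
    ∃ B : ℝ, 0 ≤ B ∧ ∀ z, |ht z| ≤ H → f z ≤ B := by
  have hK : IsCompact ((fun p : ℝ × (Fin 3 → ℝ) => τ.pt p.1 p.2) ''
      (Set.Icc (-H) H ×ˢ Set.Icc (0 : Fin 3 → ℝ) 1)) :=
    (isCompact_Icc.prod isCompact_Icc).image (trans_continuous_pt τ)
  obtain ⟨B, hB⟩ := hK.bddAbove_image hc.continuousOn
  refine ⟨max B 0, le_max_right _ _, fun z hz => ?_⟩
  obtain ⟨x, n, hx, hzx⟩ := trans_exists_cube τ z
  rw [hzx, trans_per_sum hf]
  refine le_trans (hB ⟨τ.pt (ht z) x, ⟨(ht z, x), ⟨abs_le.1 hz, hx⟩, rfl⟩, rfl⟩) (le_max_left _ _)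

/-- representatives modulo the multiples of `m` -/
theorem trans_exists_zsmul {m : ℂ × ℂ} (hm : ht m ≠ 0) (z : ℂ × ℂ) :
    ∃ n : ℤ, |ht (z + n • m)| ≤ |ht m| ∧ |(n : ℝ)| * |ht m| ≤ |ht z| + |ht m| := by
  have h0 : 0 < |ht m| := abs_pos.2 hm
  refine ⟨-round (ht z / ht m), ?_⟩
  have h1 : |ht z / ht m - round (ht z / ht m)| ≤ 1 / 2 := abs_sub_round _
  have h2 : |ht (z + (-round (ht z / ht m)) • m)| ≤ |ht m| := by
    rw [trans_ht_add, trans_ht_zsmul]
    have : ht z + ((-round (ht z / ht m) : ℤ) : ℝ) * ht m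
        = (ht z / ht m - round (ht z / ht m)) * ht m := by
      push_cast
      field_simp
      ring
    rw [this, abs_mul]
    nlinarith
  refine ⟨h2, ?_⟩
  rw [← abs_mul, ← trans_ht_zsmul]
  have : ht ((-round (ht z / ht m)) • m) = ht (z + (-round (ht z / ht m)) • m) - ht z := by
    rw [trans_ht_add]; ring
  rw [this]
  refine (abs_sub _ _).trans ?_
  linarith

namespace Dat

variable {τ : Tor} (D : Dat τ)

/-- translation by a multiple of the fourth period -/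
theorem trans (n : ℤ) (z : ℂ × ℂ) : ∃ c : ℂ,
    ‖c‖ = Real.exp (Real.pi / 2 * (nsq (z + n • D.m) - nsq z)) ∧
    D.h (z + n • D.m) = c * D.h z ∧ (∀ i, D.u (D.y i) (z + n • D.m) = c * D.u (D.y i) z) ∧
    D.S (z + n • D.m) = c * (D.S z + n * D.β * D.h z) := by
  have hS : ∀ z, D.S (z + D.m) = D.e z * (D.S z + D.β * D.h z) := D.S_mul
  induction n using Int.induction_on with
  | zero => exact ⟨1, by simp, by simp, by simp, by simp⟩
  | succ n ih =>
    obtain ⟨c, h1, h2, h3, h4⟩ := ih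
    have e1 : z + ((n : ℤ) + 1) • D.m = (z + (n : ℤ) • D.m) + D.m := by
      rw [add_smul, one_smul, ← add_assoc]
    refine ⟨D.e (z + (n : ℤ) • D.m) * c, ?_, ?_, fun i => ?_, ?_⟩
    · rw [norm_mul, D.e_norm, h1, ← Real.exp_add, e1]
      congr 1
      ring
    · rw [e1, D.h_mul, h2]; ring
    · rw [e1, D.y_mul, h3]; ring
    · rw [e1, hS, h4, h2]
      push_cast
      ring
  | pred n ih =>
    obtain ⟨c, h1, h2, h3, h4⟩ := ih
    set w : ℂ × ℂ := z + (-(n : ℤ) - 1) • D.m with hw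
    have e1 : w + D.m = z + (-(n : ℤ)) • D.m := by
      rw [hw, sub_smul, one_smul]; abel
    have he : ‖D.e w‖ = Real.exp (Real.pi / 2 * (nsq (w + D.m) - nsq w)) := D.e_norm w
    have he0 : D.e w ≠ 0 := by
      rw [← norm_ne_zero_iff, he]
      exact (Real.exp_pos _).ne'
    rw [← e1] at h1 h2 h3 h4
    rw [D.h_mul] at h2
    rw [hS] at h4
    have h2' : D.h w = (D.e w)⁻¹ * c * D.h z := by
      rw [mul_assoc, ← h2, ← mul_assoc, inv_mul_cancel₀ he0, one_mul]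
    refine ⟨(D.e w)⁻¹ * c, ?_, h2', fun i => ?_, ?_⟩
    · rw [norm_mul, norm_inv, he, h1, ← Real.exp_neg, ← Real.exp_add]
      congr 1
      ring
    · have := h3 i
      rw [D.y_mul] at this
      rw [mul_assoc, ← this, ← mul_assoc, inv_mul_cancel₀ he0, one_mul]
    · have h5 : D.S w = (D.e w)⁻¹ * (c * (D.S z + ((-(n : ℤ) : ℤ) : ℂ) * D.β * D.h z))
          - D.β * D.h w := by
        rw [← h4, ← mul_assoc, inv_mul_cancel₀ he0]
        ring
      rw [h5, h2']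
      push_cast
      ring

/-- the translates of the auxiliary function -/
theorem trans_Φ (L k : ℕ) (ξ : D.Ix L k → 𝓞 D.K) (n : ℤ) (z : ℂ × ℂ) : ∃ c : ℂ,
    ‖c‖ = Real.exp (kap L k * (nsq (z + n • D.m) - nsq z)) ∧
    D.Φ L k ξ (z + n • D.m) = c * ∑ s : D.Ix L k, D.ψ (ξ s) * D.X ^ (s.2.2 : ℕ) *
      ((∏ i, D.u (D.y i) z ^ (s.1 i : ℕ)) * D.h z ^ (2 * L - ∑ i, (s.1 i : ℕ))) *
      ((D.S z + n * D.β * D.h z) ^ (s.2.1 : ℕ) * D.h z ^ (k - (s.2.1 : ℕ))) := by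
  obtain ⟨c, h1, h2, h3, h4⟩ := D.trans n z
  refine ⟨c ^ (2 * L + k), ?_, ?_⟩
  · rw [norm_pow, h1, ← Real.exp_nat_mul, kap]
    congr 1
    push_cast
    ring
  · unfold Φ
    rw [Finset.mul_sum]
    refine Finset.sum_congr rfl fun s _ => ?_
    simp only [h2, h3, h4, mul_pow, Finset.prod_mul_distrib]
    have hs1 : ∑ i, (s.1 i : ℕ) ≤ 2 * L := by
      calc ∑ i, (s.1 i : ℕ) ≤ ∑ _i : Fin 2, L := Finset.sum_le_sum fun i _ => (s.1 i).2.le
        _ = 2 * L := by simp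
    have hs2 : (s.2.1 : ℕ) ≤ k := s.2.1.2.le
    have hc : c ^ (2 * L + k) = (∏ i, c ^ (s.1 i : ℕ)) * c ^ (2 * L - ∑ i, (s.1 i : ℕ)) *
        (c ^ (s.2.1 : ℕ) * c ^ (k - (s.2.1 : ℕ))) := by
      rw [Finset.prod_pow_eq_pow_sum, ← pow_add, ← pow_add, ← pow_add]
      congr 1
      omega
    rw [hc]
    ring

end Dat

end Pool.Agent.KT
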