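import Pool.Agent.KT.Trans

/-!
# KT: the zero estimate
-/

set_option autoImplicit false

open scoped BigOperators Topology
open MvPolynomial NumberField

namespace Pool.Agent.KT

/-- an entire function which is zero on a strip is zero -/
private theorem ze_identity {F : ℂ × ℂ → ℂ} (hF : Differentiable ℂ F) {Y : ℝ} (hY : 0 < Y)
    (h : ∀ z, |ht z| ≤ Y → F z = 0) : ∀ z, F z = 0 := by
  intro z
  let g : ℂ → ℂ := fun t => F (t • z)
  have hg : Differentiable ℂ g := hF.comp (differentiable_id.smul_const z)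
  have han : AnalyticOnNhd ℂ g Set.univ := fun t _ =>
    hg.differentiableOn.analyticAt Filter.univ_mem
  have hev : g =ᶠ[𝓝 (0 : ℂ)] 0 := by
    have hc : Continuous (fun t : ℂ => |ht (t • z)|) := by
      unfold ht
      fun_prop
    have h0 : (fun t : ℂ => |ht (t • z)|) 0 < Y := by simpa [ht] using hY
    filter_upwards [hc.continuousAt.eventually_lt_const h0] with t ht'
    exact h _ ht'.le
  have := han.eqOn_zero_of_preconnected_of_eventuallyEq_zero isPreconnected_univ
    (Set.mem_univ 0) hev (Set.mem_univ 1)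
  simpa [g] using this

/-- the zero estimate -/
theorem thm_ZE (τ : Tor) (hS : St_S τ) (hL : St_LAG) : St_ZE τ := by
  obtain ⟨c₁, c₂, C₀, hc₁, hc₂, hcc, hC₀, hLS⟩ := hS
  intro m hm
  have hm0 : 0 < |ht m| := abs_pos.2 hm
  -- the constant
  set A : ℝ := 2 * c₁ / |ht m| + 4 with hA
  have hA0 : 0 ≤ 2 * c₁ / |ht m| := by positivity
  set C : ℝ := C₀ + (|ht m| + A) / c₂ + 1 with hC
  have hq : 0 ≤ (|ht m| + A) / c₂ := by positivity
  have hC1 : 1 ≤ C := by linarith
  have hCsq : (|ht m| + A) / c₂ < C ^ 2 := by nlinarith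
  refine ⟨C, hC1, ?_⟩
  intro κ T k F hκ hk hsec hne hsh hvan
  by_contra hcon
  push Not at hcon
  have hk1 : (1 : ℝ) ≤ k := by exact_mod_cast hk
  have hsk : 1 ≤ Real.sqrt k := Real.one_le_sqrt.2 hk1
  have hsk2 : Real.sqrt k ^ 2 = k := Real.sq_sqrt (by linarith)
  have hκ0 : 0 < κ := by linarith
  have hCκ : 0 < C * κ := by positivity
  have hT0 : 0 < T := by
    refine lt_trans ?_ hcon
    positivity
  -- the number X
  set X : ℝ := (T / κ) ^ 2 with hX
  have hTκ : C * Real.sqrt k < T / κ := by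
    rw [lt_div_iff₀ hκ0]
    linarith
  have hXk : C ^ 2 * k < X := by
    rw [hX, ← hsk2, ← mul_pow]
    exact pow_lt_pow_left₀ hTκ (by positivity) two_ne_zero
  have hXC : C ^ 2 < X := by nlinarith [sq_nonneg C]
  have hX1 : 1 ≤ X := by nlinarith
  have hX0 : 0 < X := by linarith
  have hkX : (k : ℝ) ≤ X :=
    (le_mul_of_one_le_left (by linarith) (one_le_pow₀ hC1)).trans hXk.le
  have hTC : C₀ * κ ≤ T := by
    have h1 : C * κ ≤ C * κ * Real.sqrt k := le_mul_of_one_le_right hCκ.le hsk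
    have h2 : C₀ * κ ≤ C * κ := by
      refine mul_le_mul_of_nonneg_right ?_ hκ0.le
      linarith
    linarith
  -- the supremum
  have hper := trans_per_sec hsec
  have hcont : Continuous (nrm κ F) := trans_continuous_nrm hsec.entire.continuous
  obtain ⟨B, hB0, hB⟩ := trans_bdd hper hcont (c₁ * X)
  set W : Set ℝ := nrm κ F '' {z | |ht z| ≤ c₁ * X} with hW
  have hbdd : BddAbove W := ⟨B, by
    rintro _ ⟨z, hz, rfl⟩
    exact hB z hz⟩
  set M : ℝ := sSup W with hM
  have hle : ∀ z, |ht z| ≤ c₁ * X → nrm κ F z ≤ M := fun z hz =>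
    le_csSup hbdd ⟨z, hz, rfl⟩
  have hMpos : 0 < M := by
    by_contra hMn
    push Not at hMn
    obtain ⟨z₀, hz₀⟩ := hne
    apply hz₀
    refine ze_identity hsec.entire (Y := c₁ * X) (by positivity) (fun z hz => ?_) z₀
    have h1 : nrm κ F z ≤ 0 := (hle z hz).trans hMn
    have h2 : nrm κ F z = 0 := le_antisymm h1 (trans_nrm_nonneg _ _ _)
    unfold nrm at h2
    have h3 := (mul_eq_zero.1 h2).resolve_right (Real.exp_pos _).ne'
    exact norm_eq_zero.1 h3
  -- Lemma S
  have hS' := hLS κ (Real.log M) T F hκ hTC hsec hvan (fun z hz => by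
    rw [Real.exp_log hMpos]
    exact hle z hz)
  set δ : ℝ := c₂ * κ * X ^ 2 - X * A with hδ
  have hδ0 : 0 < δ := by
    have h1 : A < c₂ * X := by
      have h2 : |ht m| + A < c₂ * X := by
        have h3 := (div_lt_iff₀ hc₂).1 hCsq
        nlinarith
      linarith
    have h2 : A < c₂ * κ * X := by nlinarith [mul_pos hc₂ hX0]
    rw [hδ]
    nlinarith
  have hT4 : c₂ * T ^ 4 / κ ^ 3 = c₂ * κ * X ^ 2 := by
    rw [hX]
    field_simp
  have hmain : ∀ z, |ht z| ≤ c₁ * X → nrm κ F z ≤ M * Real.exp (-δ) := by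
    intro z hz
    obtain ⟨n, hn1, hn2⟩ := trans_exists_zsmul hm z
    set w : ℂ × ℂ := z + n • m with hw
    obtain ⟨R, hR1, hR2⟩ := hsh w
    have hpts : ∀ j : ℕ, j < k → ‖R.eval (j : ℂ)‖ ≤ M * Real.exp (-(c₂ * κ * X ^ 2)) := by
      intro j hj
      have h1 := hR2 (j : ℤ)
      have h2 : ‖R.eval (j : ℂ)‖ = nrm κ F (w + (j : ℤ) • m) := by
        rw [h1]
        simp
      rw [h2]
      have h3 : |ht (w + (j : ℤ) • m)| ≤ c₂ * X := by
        rw [trans_ht_add, trans_ht_zsmul]
        refine (abs_add_le _ _).trans ?_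
        rw [abs_mul]
        have h4 : |((j : ℤ) : ℝ)| = (j : ℝ) := by simp
        rw [h4]
        have h5 : (j : ℝ) + 1 ≤ k := by exact_mod_cast hj
        have h6 : (k : ℝ) * |ht m| ≤ c₂ * X := by
          have h7 : |ht m| + A < c₂ * C ^ 2 := by
            have := (div_lt_iff₀ hc₂).1 hCsq
            linarith
          have h8 : |ht m| ≤ c₂ * C ^ 2 := by
            have : 0 ≤ A := by positivity
            linarith
          calc (k : ℝ) * |ht m| ≤ k * (c₂ * C ^ 2) := by gcongr
            _ = c₂ * (C ^ 2 * k) := by ring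
            _ ≤ c₂ * X := by gcongr
        nlinarith
      have h9 := hS' (w + (j : ℤ) • m) h3
      refine h9.trans ?_
      rw [hT4, sub_eq_add_neg, Real.exp_add, Real.exp_log hMpos]
    have hlag := hL k R _ hR1 hpts (-n)
    have h1 : nrm κ F z = ‖R.eval (((-n : ℤ)) : ℂ)‖ := by
      rw [← hR2 (-n)]
      congr 1
      rw [hw, neg_smul]
      abel
    rw [h1]
    refine hlag.trans ?_
    rw [mul_left_comm, ← Real.exp_add]
    refine mul_le_mul_of_nonneg_left (Real.exp_le_exp.2 ?_) hMpos.le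
    have h2 : |((-n : ℤ) : ℝ)| = |(n : ℝ)| := by
      push_cast
      exact abs_neg _
    rw [h2]
    have h3 : |(n : ℝ)| ≤ c₁ * X / |ht m| + 1 := by
      have h5 : |(n : ℝ)| = |(n : ℝ)| * |ht m| / |ht m| := by field_simp
      rw [h5]
      calc |(n : ℝ)| * |ht m| / |ht m| ≤ (c₁ * X + |ht m|) / |ht m| := by
            gcongr
            linarith
        _ = c₁ * X / |ht m| + 1 := by field_simp
    have h4 : c₁ * X / |ht m| = c₁ / |ht m| * X := by ring
    rw [h4] at h3
    have h5 : X * A = 2 * (c₁ / |ht m| * X) + 4 * X := by rw [hA]; ring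
    rw [hδ, h5]
    linarith
  -- contradiction
  have hMM : M ≤ M * Real.exp (-δ) := by
    refine csSup_le ⟨nrm κ F 0, 0, ?_, rfl⟩ ?_
    · simp only [Set.mem_ofPred_eq, ht, Prod.fst_zero, Complex.zero_im, abs_zero]
      positivity
    · rintro _ ⟨z, hz, rfl⟩
      exact hmain z hz
  have hlt : Real.exp (-δ) < 1 := by
    rw [Real.exp_lt_one_iff]
    linarith
  nlinarith

end Pool.Agent.KT
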